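import Pool.Agent.H12R2.Sep.Defs

/-!
Consequences of the RSW window: blocked annuli and circuits (primal and dual) have probability
at least `κ ^ 4`.
-/

set_option maxHeartbeats 400000

namespace H12S

open H974 Finset

theorem Win.q0 {q κ : ℝ} {n : ℕ} (h : Win q κ n) : 0 ≤ q := by linarith [h.lo]

theorem Win.q1 {q κ : ℝ} {n : ℕ} (h : Win q κ n) : q ≤ 1 := by linarith [h.hi]

theorem Win.ok {q κ : ℝ} {n : ℕ} (h : Win q κ n) : Ok (fun _ : Edg => q) := okq h.q0 h.q1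

/-- Crossings of rectangles, from the window. -/
theorem Win.hhge {q κ : ℝ} {n : ℕ} (h : Win q κ n) {k : ℕ} (hk : 1 ≤ k) (hkn : k ≤ n) {w v : ℤ}
    (hw : 0 < w) (hw2 : w ≤ 16 * k) (hv : (k:ℤ) ≤ v) : κ ≤ hh q w v :=
  (h.pri k hk hkn).trans (hh_mono h.q0 h.q1 hw hw2 hv)

theorem pr_Blk_q {q κ : ℝ} (h0 : 0 ≤ q) (h1 : q ≤ 1) (hκ : 0 < κ) {m : ℕ} (hm : 1 ≤ m)
    (hval : κ ≤ 1 - hh q (2 * m) (6 * m)) {S : Finset Edg} (hS : annE m (3 * m) ⊆ S) :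
    κ ^ 4 ≤ Pr (fun _ => q) S (Blk m (3 * m : ℕ)) := by
  have ok := okq h0 h1
  obtain ⟨s1, s2, s3, s4⟩ := ann_sub (n := m) (m := 3 * m) (by omega)
  set R2 : ℤ := ((3 * m : ℕ) : ℤ) with hR2
  have hR2' : R2 = 3 * m := by rw [hR2]; push_cast; ring
  have e1 := pr_LRc q (s1.trans hS)
  have e2 := pr_LRc q (s2.trans hS)
  have e3 := pr_TBc q (s3.trans hS)
  have e4 := pr_TBc q (s4.trans hS)
  have d1 : R2 - m = 2 * m := by omega
  have d2 : R2 - -R2 = 6 * m := by omega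
  have d3 : -(m:ℤ) - -R2 = 2 * m := by omega
  rw [d1, d2] at e1
  rw [d3, d2] at e2
  rw [d1, d2] at e3
  rw [d3, d2] at e4
  have i1 := Pr_harris_dd ok (LRc_incr S m R2 (-R2) R2) (LRc_incr S (-R2) (-m) (-R2) R2)
  have i2 := Pr_harris_dd ok (TBc_incr S (-R2) R2 m R2) (TBc_incr S (-R2) R2 (-R2) (-m))
  rw [e1, e2] at i1
  rw [e3, e4] at i2
  have c1 : IncrE S (fun F => LRc m R2 (-R2) R2 F ∨ LRc (-R2) (-m) (-R2) R2 F) :=
    fun F G hFG _ hF => hF.imp (LRc.mono hFG) (LRc.mono hFG)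
  have c2 : IncrE S (fun F => TBc (-R2) R2 m R2 F ∨ TBc (-R2) R2 (-R2) (-m) F) :=
    fun F G hFG _ hF => hF.imp (TBc.mono hFG) (TBc.mono hFG)
  have i3 := Pr_harris_dd ok c1 c2
  rw [← Pr_not, ← Pr_not] at i3
  have j1 : Pr (fun _ => q) S (fun F => ¬ (LRc m R2 (-R2) R2 F ∨
      LRc (-R2) (-m) (-R2) R2 F)) = Pr (fun _ => q) S (fun F => ¬ LRc m R2 (-R2) R2 F ∧
      ¬ LRc (-R2) (-m) (-R2) R2 F) := Pr_congr (fun F _ => not_or)
  have j2 : Pr (fun _ => q) S (fun F => ¬ (TBc (-R2) R2 m R2 F ∨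
      TBc (-R2) R2 (-R2) (-m) F)) = Pr (fun _ => q) S (fun F => ¬ TBc (-R2) R2 m R2 F ∧
      ¬ TBc (-R2) R2 (-R2) (-m) F) := Pr_congr (fun F _ => not_or)
  rw [j1, j2] at i3
  have k1 : κ * κ ≤ (1 - hh q (2 * m) (6 * m)) * (1 - hh q (2 * m) (6 * m)) :=
    mul_le_mul hval hval hκ.le (hκ.le.trans hval)
  have k2 : (κ * κ) * (κ * κ) ≤ _ := mul_le_mul (k1.trans i1) (k1.trans i2) (by positivity)
    ((by positivity : 0 ≤ κ * κ).trans (k1.trans i1))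
  calc κ ^ 4 = (κ * κ) * (κ * κ) := by ring
    _ ≤ _ := k2
    _ ≤ _ := i3

theorem crs_blk {c1 c2 : ℤ} {m : ℕ} (hm : 1 ≤ m) {F : Finset Edg}
    (h : Crs c1 c2 m (3 * m) ↑F) : ¬ Blk m (3 * m : ℕ) ((trl (-c1) (-c2)).mp F) := by
  obtain ⟨⟨x1, x2⟩, ⟨y1, y2⟩, hx, hy, hr⟩ := h
  have h1 := (trl (-c1) (-c2)).reach hr
  rw [trl_ψ, trl_ψ, ← LSym.coe_mp] at h1
  unfold inR at hx
  simp only at hx hy
  push_cast at hy
  exact not_blk_of_reach (R1 := m) (R2 := ((3 * m : ℕ) : ℤ)) (by push_cast; omega)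
    (by unfold inR; simp only; omega) h1 (by push_cast; omega)

theorem win_blk_pri {q κ : ℝ} {n : ℕ} (h : Win q κ n) {m : ℕ} (hm : 1 ≤ m) (hmn : 2 * m ≤ n)
    (c1 c2 : ℤ) (S : Finset Edg) :
    κ ^ 4 ≤ PQ q S (fun F => ¬ Crs c1 c2 m (3 * m) ↑F) := by
  have ok := h.ok
  have e1 : Pr (fun _ => q) S (fun F => Crs c1 c2 m (3 * m) ↑F) ≤
      Pr (fun _ => q) S (fun F => ¬ Blk m (3 * m : ℕ) ((trl (-c1) (-c2)).mp F)) :=
    Pr_mono ok (fun F _ hF => crs_blk hm hF)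
  have e2 : Pr (fun _ => q) S (fun F => ¬ Blk m (3 * m : ℕ) ((trl (-c1) (-c2)).mp F)) ≤
      Pr (fun _ => q) (annE m (3 * m)) (fun F => ¬ Blk m (3 * m : ℕ) F) := by
    refine Pr_shift_le h.q0 h.q1 (trl (-c1) (-c2)) S
      (B := annE m (3 * m)) (A := fun F => ¬ Blk m (3 * m : ℕ) F) ?_ ?_
    · intro F G hFG hF hG
      apply hF
      refine ⟨fun h => hG.1 (h.imp (LRc.mono hFG) (LRc.mono hFG)),
        fun h => hG.2 (h.imp (TBc.mono hFG) (TBc.mono hFG))⟩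
    · intro F
      exact not_congr (Blk_local (by omega) (Finset.Subset.refl _) F)
  rw [Pr_not (annE m (3 * m))] at e2
  have hdual := hh_dual (q := q) (w := 2 * m) (h := 6 * m) (by omega) (by omega)
  have hk := h.symm.hhge (k := 2 * m - 1) (by omega) (by omega) (w := 6 * m + 1) (v := 2 * m - 1)
    (by omega) (by omega) (by omega)
  have e3 := pr_Blk_q h.q0 h.q1 h.kpos hm (by linarith) (Finset.Subset.refl (annE m (3 * m)))
  unfold PQ
  rw [Pr_not]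
  linarith

theorem dcrs_iff {c1 c2 : ℤ} {ρ R : ℕ} {G : Finset Edg} :
    DCrs c1 c2 ρ R (↑G : Set Edg) ↔ Crs c1 c2 ρ R ↑(dmp G) := by
  unfold DCrs Crs
  rw [coe_dmp]
  simp only [reach_dl]

/-- Events of the closed edges, through duality. -/
theorem pr_dual {q : ℝ} (S : Finset Edg) (A : Finset Edg → Prop) :
    PQ q S (fun F => A (dmp (S \ F))) = PQ (1 - q) (dmp S) A := by
  unfold PQ
  rw [pr_dmp, Pr_compl (fun _ : Edg => q) S (fun F => A (dmp F))]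

theorem win_blk {q κ : ℝ} {n : ℕ} (h : Win q κ n) {m : ℕ} (hm : 1 ≤ m) (hmn : 2 * m ≤ n)
    (c1 c2 : ℤ) (S : Finset Edg) :
    κ ^ 4 ≤ PQ q S (fun F => ¬ Crs c1 c2 m (3 * m) ↑F) ∧
      κ ^ 4 ≤ PQ q S (fun F => ¬ DCrs c1 c2 m (3 * m) (↑(S \ F) : Set Edg)) := by
  refine ⟨win_blk_pri h hm hmn c1 c2 S, ?_⟩
  have h1 := win_blk_pri h.symm hm hmn c1 c2 (dmp S)
  rw [← pr_dual] at h1
  refine h1.trans (le_of_eq ?_)
  apply Pr_congr
  intro F _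
  rw [dcrs_iff]

/-- Open circuits (and dual circuits). `Circ R1 R2` is the event of `H974R2.Circ`. -/
theorem win_circ {q κ : ℝ} {n : ℕ} (h : Win q κ n) {m : ℕ} (hm : 1 ≤ m) (hmn : 2 * m ≤ n)
    (c1 c2 : ℤ) (S : Finset Edg) (hS : RE (c1 - 3 * m) (c1 + 3 * m) (c2 - 3 * m) (c2 + 3 * m) ⊆ S) :
    κ ^ 4 ≤ PQ q S (fun F => Circ m (3 * m) ((trl (-c1) (-c2)).mp F)) ∧
      κ ^ 4 ≤ PQ q S (fun F => Circ m (3 * m - 1) ((trl (-c1) (-c2)).mp (dmp (S \ F)))) := by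
  constructor
  · have e1 := (trl (-c1) (-c2)).pr q S (Circ m (3 * m))
    unfold PQ
    rw [← e1]
    have hsub : RE (-(3 * m)) (3 * m) (-(3 * m)) (3 * m) ⊆ (trl (-c1) (-c2)).mp S := by
      refine Finset.Subset.trans ?_ ((trl (-c1) (-c2)).mp_mono hS)
      rw [trl_RE]
      exact RE_subset (by omega) (by omega) (by omega) (by omega)
    refine le_trans ?_ (pr_Circ h.q0 h.q1 (R1 := m) (R2 := 3 * m) (by omega) (by omega) hsub)
    exact pow_le_pow_left₀ h.kpos.le (h.hhge (k := 2 * m) (by omega) hmn (by omega)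
      (by push_cast; omega) (by push_cast; omega)) 4
  · have e0 := pr_dual (q := q) S (fun G => Circ m (3 * m - 1) ((trl (-c1) (-c2)).mp G))
    rw [e0]
    have e1 := (trl (-c1) (-c2)).pr (1 - q) (dmp S) (Circ m (3 * m - 1))
    unfold PQ
    rw [← e1]
    have hsub : RE (-(3 * m - 1)) (3 * m - 1) (-(3 * m - 1)) (3 * m - 1) ⊆
        (trl (-c1) (-c2)).mp (dmp S) := by
      rintro ⟨x, y, _ | _⟩ hx
      · rw [LSym.mem_mp, trl_φs, mem_dmp, dls_f]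
        rw [mem_RE_false] at hx
        apply hS
        rw [mem_RE_true]
        omega
      · rw [LSym.mem_mp, trl_φs, mem_dmp, dls_t]
        rw [mem_RE_true] at hx
        apply hS
        rw [mem_RE_false]
        omega
    refine le_trans ?_ (pr_Circ h.symm.q0 h.symm.q1 (R1 := m) (R2 := 3 * m - 1) (by omega)
      (by omega) hsub)
    exact pow_le_pow_left₀ h.kpos.le (h.symm.hhge (k := 2 * m - 1) (by omega) (by omega) (by omega)
      (by omega) (by omega)) 4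

end H12S
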