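import Pool.Agent.H12R2.Sep.Defs
import Pool.Agent.H12R2.Sep.Win1

/-! # Task BS: the sum of the influences of disjoint blocks -/

namespace H12S

open H974 Finset

/-- The block `b` is pivotal for the connection of `I` and `J`. -/
def BPv (I J : Set Vtx) (b : Finset Edg) (F : Set Edg) : Prop :=
  Cn I J (F ∪ ↑b) ∧ ¬ Cn I J (F \ ↑b)

/-- Block of radius `ρ` around `c`. -/
noncomputable def blk (c : ℤ × ℤ) (ρ : ℕ) : Finset Edg :=
  RE (c.1 - ρ) (c.1 + ρ) (c.2 - ρ) (c.2 + ρ)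

/-- Circuit in the annulus between `m` and `3m` around `c`. -/
def BSU (c : ℤ × ℤ) (m : ℕ) (F : Finset Edg) : Prop :=
  Circ m (3 * m) ((trl (-c.1) (-c.2)).mp F)

/-- No crossing of the annulus. -/
def BSD (c : ℤ × ℤ) (m : ℕ) (F : Finset Edg) : Prop := ¬ Crs c.1 c.2 m (3 * m) (↑F : Set Edg)

theorem BS_Circ_local {R1 R2 : ℤ} (h1 : 0 ≤ R1) (h2 : R1 ≤ R2) {F S : Finset Edg}
    (hS : RE (-R2) R2 (-R2) R2 ⊆ S) : Circ R1 R2 F ↔ Circ R1 R2 (F ∩ S) := by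
  have s1 : LRE (-R2) R2 R1 R2 ⊆ S :=
    LRE_subset_RE.trans ((RE_subset le_rfl le_rfl (by omega) le_rfl).trans hS)
  have s2 : LRE (-R2) R2 (-R2) (-R1) ⊆ S :=
    LRE_subset_RE.trans ((RE_subset le_rfl le_rfl le_rfl (by omega)).trans hS)
  have s3 : TBE R1 R2 (-R2) R2 ⊆ S :=
    TBE_subset_RE.trans ((RE_subset (by omega) le_rfl le_rfl le_rfl).trans hS)
  have s4 : TBE (-R2) (-R1) (-R2) R2 ⊆ S :=
    TBE_subset_RE.trans ((RE_subset le_rfl (by omega) le_rfl le_rfl).trans hS)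
  unfold Circ
  rw [← LRc_local s1, ← LRc_local s2, ← TBc_local s3, ← TBc_local s4]

theorem BSU_local (c : ℤ × ℤ) (m : ℕ) (F : Finset Edg) :
    BSU c m F ↔ BSU c m (F ∩ blk c (3 * m)) := by
  unfold BSU
  rw [LSym.mp_inter]
  apply BS_Circ_local (by positivity) (by omega)
  unfold blk
  rw [trl_RE]
  apply RE_subset <;> push_cast <;> omega

theorem BSU_mono {c : ℤ × ℤ} {m : ℕ} {F G : Finset Edg} (h : F ⊆ G) (hF : BSU c m F) :
    BSU c m G := Circ.mono (LSym.mp_mono _ h) hF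

theorem BS_crs_mono {c1 c2 : ℤ} {r R : ℕ} {F G : Set Edg} (h : F ⊆ G) (hF : Crs c1 c2 r R F) :
    Crs c1 c2 r R G := by
  obtain ⟨x, y, h1, h2, h3⟩ := hF
  exact ⟨x, y, h1, h2, h3.mono h⟩

theorem BSD_local (c : ℤ × ℤ) (m : ℕ) (F : Finset Edg) :
    BSD c m F ↔ BSD c m (F ∩ blk c (3 * m)) := by
  unfold BSD
  rw [not_iff_not]
  constructor
  · rintro ⟨x, y, h1, h2, h3⟩
    obtain ⟨w, k1, k2, k3⟩ := first_exit (a := c.1 - (3 * m : ℕ)) (b := c.1 + (3 * m : ℕ))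
      (c := c.2 - (3 * m : ℕ)) (d := c.2 + (3 * m : ℕ)) (u := x)
      (by unfold inR at h1 ⊢; push_cast; omega) h3 h2
    refine ⟨x, w, h1, by omega, ?_⟩
    rw [Finset.coe_inter]
    exact k3
  · exact BS_crs_mono (by exact_mod_cast Finset.inter_subset_left)

theorem BS_reach_trl (s t : ℤ) {F : Finset Edg} {u v : Vtx} :
    Reach (↑((trl s t).mp F) : Set Edg) (u.1 + s, u.2 + t) (v.1 + s, v.2 + t) ↔
      Reach (↑F : Set Edg) u v := by
  rw [LSym.coe_mp]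
  exact (trl s t).reach_iff (u := u) (v := v)

/-- Vertex at distance `≥ R` of `c`. -/
def BSfar (c : ℤ × ℤ) (R : ℕ) (y : Vtx) : Prop :=
  y.1 ≤ c.1 - R ∨ c.1 + R ≤ y.1 ∨ y.2 ≤ c.2 - R ∨ c.2 + R ≤ y.2

theorem BSU_meet {c : ℤ × ℤ} {m : ℕ} (hm : 1 ≤ m) {F : Finset Edg} (h : BSU c m F) :
    ∃ z : Vtx, ∀ x y : Vtx, inR (c.1 - m) (c.1 + m) (c.2 - m) (c.2 + m) x →
      BSfar c (3 * m) y → Reach (↑F : Set Edg) x y → Reach (↑F : Set Edg) x z := by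
  obtain ⟨z0, hz⟩ := circ_meet (by positivity) (by omega) h
  refine ⟨(z0.1 + c.1, z0.2 + c.2), ?_⟩
  intro x y hx hy hxy
  obtain ⟨w, k1, k2, k3⟩ := first_exit (a := c.1 - (3 * m : ℕ)) (b := c.1 + (3 * m : ℕ))
    (c := c.2 - (3 * m : ℕ)) (d := c.2 + (3 * m : ℕ)) (u := x)
    (by unfold inR at hx ⊢; push_cast; omega) hxy hy
  have e1 : (↑F : Set Edg) ∩ ↑(RE (c.1 - (3 * m : ℕ)) (c.1 + (3 * m : ℕ)) (c.2 - (3 * m : ℕ))
      (c.2 + (3 * m : ℕ))) = ↑(F ∩ RE (c.1 - (3 * m : ℕ)) (c.1 + (3 * m : ℕ))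
      (c.2 - (3 * m : ℕ)) (c.2 + (3 * m : ℕ))) := by rw [Finset.coe_inter]
  rw [e1] at k3
  have k4 := (BS_reach_trl (-c.1) (-c.2)).2 k3
  rw [LSym.mp_inter, trl_RE, Finset.coe_inter] at k4
  have e2 : RE (c.1 - (3 * m : ℕ) + -c.1) (c.1 + (3 * m : ℕ) + -c.1)
      (c.2 - (3 * m : ℕ) + -c.2) (c.2 + (3 * m : ℕ) + -c.2) =
      RE (-(3 * m : ℤ)) (3 * m) (-(3 * m : ℤ)) (3 * m) := by
    congr 1 <;> push_cast <;> ring
  rw [e2] at k4
  have k5 := hz _ _ (by unfold inR at hx ⊢; simp only; omega)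
    (by simp only; push_cast at k2; omega) k4
  have k6 := k5.mono (Set.inter_subset_left)
  have k7 := (BS_reach_trl (-c.1) (-c.2) (u := x) (v := (z0.1 + c.1, z0.2 + c.2))).1 (by
    simpa using k6)
  exact k7

theorem BS_adj_box {c : ℤ × ℤ} {m : ℕ} {e : Edg} (he : e ∈ blk c m) :
    inR (c.1 - m) (c.1 + m) (c.2 - m) (c.2 + m) (src e) ∧
      inR (c.1 - m) (c.1 + m) (c.2 - m) (c.2 + m) (tgt e) := by
  obtain ⟨x, y, _ | _⟩ := e
  · unfold blk at he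
    rw [mem_RE_false] at he
    unfold inR
    simp only [src_mk, tgt_false]
    omega
  · unfold blk at he
    rw [mem_RE_true] at he
    unfold inR
    simp only [src_mk, tgt_true]
    omega

/-- On the circuit event the edges of the block do not matter (adding). -/
theorem BS_cnU {I J : Set Vtx} {c : ℤ × ℤ} {m : ℕ} (hm : 1 ≤ m)
    (hIJ : ∀ v ∈ I ∪ J, BSfar c (3 * m) v) {F : Finset Edg} (hU : BSU c m F)
    (h : Cn I J ((↑F : Set Edg) ∪ ↑(blk c m))) : Cn I J (↑F : Set Edg) := by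
  obtain ⟨z, hz⟩ := BSU_meet hm hU
  obtain ⟨u, hu, v, hv, huv⟩ := h
  have key : ∀ a w : Vtx, Reach ((↑F : Set Edg) ∪ ↑(blk c m)) a w →
      Reach (↑F : Set Edg) a w ∨ ∃ x, inR (c.1 - m) (c.1 + m) (c.2 - m) (c.2 + m) x ∧
        Reach (↑F : Set Edg) a x := by
    intro a w hw
    induction hw with
    | refl => exact Or.inl (Reach.refl _ _)
    | @tail w w' _ hs ih =>
      rcases ih with ih | ih
      · obtain ⟨e, he, hc⟩ := hs
        rcases he with he | he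
        · exact Or.inl (ih.trans (Adj.reach ⟨e, he, hc⟩))
        · right
          have hb := BS_adj_box (Finset.mem_coe.mp he)
          refine ⟨w, ?_, ih⟩
          rcases hc with ⟨h1, h2⟩ | ⟨h1, h2⟩
          · rw [← h1]; exact hb.1
          · rw [← h2]; exact hb.2
      · exact Or.inr ih
  rcases key u v huv with h1 | ⟨x, hx, h1⟩
  · exact ⟨u, hu, v, hv, h1⟩
  · rcases key v u huv.symm with h2 | ⟨y, hy, h2⟩
    · exact ⟨u, hu, v, hv, h2.symm⟩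
    · have g1 := hz x u hx (hIJ u (Or.inl hu)) h1.symm
      have g2 := hz y v hy (hIJ v (Or.inr hv)) h2.symm
      exact ⟨u, hu, v, hv, h1.trans (g1.trans (g2.symm.trans h2.symm))⟩

/-- On the blocking event the edges of the block do not matter (removing). -/
theorem BS_cnD {I J : Set Vtx} {c : ℤ × ℤ} {m : ℕ}
    (hIJ : ∀ v ∈ I ∪ J, BSfar c (3 * m) v) {F : Finset Edg} (hD : BSD c m F)
    (h : Cn I J (↑F : Set Edg)) : Cn I J ((↑F : Set Edg) \ ↑(blk c m)) := by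
  obtain ⟨u, hu, v, hv, huv⟩ := h
  refine ⟨u, hu, v, hv, ?_⟩
  clear hv
  induction huv with
  | refl => exact Reach.refl _ _
  | @tail w w' hw hs ih =>
    obtain ⟨e, he, hc⟩ := hs
    have hne : e ∉ blk c m := by
      intro hb
      have hb' := BS_adj_box hb
      apply hD
      refine ⟨w, u, ?_, hIJ u (Or.inl hu), Reach.symm hw⟩
      rcases hc with ⟨h1, h2⟩ | ⟨h1, h2⟩
      · rw [← h1]; exact hb'.1
      · rw [← h2]; exact hb'.2
    exact ih.trans (Adj.reach ⟨e, ⟨he, fun h => hne (Finset.mem_coe.mp h)⟩, hc⟩)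

theorem BS_Cn_mono {I J : Set Vtx} {F G : Set Edg} (h : F ⊆ G) (hF : Cn I J F) : Cn I J G := by
  obtain ⟨u, hu, v, hv, huv⟩ := hF
  exact ⟨u, hu, v, hv, huv.mono h⟩

/-- The test function of a block. -/
noncomputable def BSV (q : ℝ) (S : Finset Edg) (c : ℤ × ℤ) (m : ℕ) (F : Finset Edg) : ℝ :=
  (PQ q S (BSU c m))⁻¹ * ind (BSU c m F) - (PQ q S (BSD c m))⁻¹ * ind (BSD c m F)

theorem BSV_local (q : ℝ) (S : Finset Edg) (c : ℤ × ℤ) (m : ℕ) (F : Finset Edg) :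
    BSV q S c m F = BSV q S c m (F ∩ blk c (3 * m)) := by
  unfold BSV
  rw [ind_congr (BSU_local c m F), ind_congr (BSD_local c m F)]

theorem BSV_mean {q : ℝ} {S : Finset Edg} {c : ℤ × ℤ} {m : ℕ} (hU : 0 < PQ q S (BSU c m))
    (hD : 0 < PQ q S (BSD c m)) : Ex (fun _ => q) S (BSV q S c m) = 0 := by
  unfold BSV
  rw [Ex_sub, Ex_mul_left, Ex_mul_left]
  change (PQ q S (BSU c m))⁻¹ * PQ q S (BSU c m) - (PQ q S (BSD c m))⁻¹ * PQ q S (BSD c m) = 0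
  rw [inv_mul_cancel₀ hU.ne', inv_mul_cancel₀ hD.ne']
  ring

theorem BSV_sq {q : ℝ} (h0 : 0 ≤ q) (h1 : q ≤ 1) {S : Finset Edg} {c : ℤ × ℤ} {m : ℕ}
    (hU : 0 < PQ q S (BSU c m)) (hD : 0 < PQ q S (BSD c m)) :
    Ex (fun _ => q) S (fun F => BSV q S c m F * BSV q S c m F) ≤
      (PQ q S (BSU c m))⁻¹ + (PQ q S (BSD c m))⁻¹ := by
  have key : ∀ F, F ⊆ S → BSV q S c m F * BSV q S c m F ≤
      ((PQ q S (BSU c m))⁻¹) ^ 2 * ind (BSU c m F) + ((PQ q S (BSD c m))⁻¹) ^ 2 * ind (BSD c m F) := by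
    intro F _
    have a1 := ind_sq (BSU c m F)
    have a2 := ind_sq (BSD c m F)
    have p1 : 0 ≤ (PQ q S (BSU c m))⁻¹ * (PQ q S (BSD c m))⁻¹ * (ind (BSU c m F) * ind (BSD c m F)) :=
      mul_nonneg (mul_nonneg (inv_nonneg.2 hU.le) (inv_nonneg.2 hD.le))
        (mul_nonneg (ind_nonneg _) (ind_nonneg _))
    unfold BSV
    have e : ((PQ q S (BSU c m))⁻¹ * ind (BSU c m F) - (PQ q S (BSD c m))⁻¹ * ind (BSD c m F)) *
        ((PQ q S (BSU c m))⁻¹ * ind (BSU c m F) - (PQ q S (BSD c m))⁻¹ * ind (BSD c m F)) =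
        ((PQ q S (BSU c m))⁻¹) ^ 2 * (ind (BSU c m F) * ind (BSU c m F)) +
        ((PQ q S (BSD c m))⁻¹) ^ 2 * (ind (BSD c m F) * ind (BSD c m F)) -
        2 * ((PQ q S (BSU c m))⁻¹ * (PQ q S (BSD c m))⁻¹ *
          (ind (BSU c m F) * ind (BSD c m F))) := by ring
    rw [e, a1, a2]
    linarith
  refine (Ex_mono (okq h0 h1) key).trans ?_
  rw [Ex_add, Ex_mul_left, Ex_mul_left]
  change ((PQ q S (BSU c m))⁻¹) ^ 2 * PQ q S (BSU c m) +
    ((PQ q S (BSD c m))⁻¹) ^ 2 * PQ q S (BSD c m) ≤ _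
  have e1 : ((PQ q S (BSU c m))⁻¹) ^ 2 * PQ q S (BSU c m) = (PQ q S (BSU c m))⁻¹ := by
    rw [sq, mul_assoc, inv_mul_cancel₀ hU.ne', mul_one]
  have e2 : ((PQ q S (BSD c m))⁻¹) ^ 2 * PQ q S (BSD c m) = (PQ q S (BSD c m))⁻¹ := by
    rw [sq, mul_assoc, inv_mul_cancel₀ hD.ne', mul_one]
  rw [e1, e2]

theorem BS_infl {q : ℝ} (h0 : 0 ≤ q) (h1 : q ≤ 1) {S : Finset Edg} {I J : Set Vtx} {c : ℤ × ℤ}
    {m : ℕ} (hm : 1 ≤ m) (hU : 0 < PQ q S (BSU c m))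
    (hD : 0 < PQ q S (BSD c m)) (hIJ : ∀ v ∈ I ∪ J, BSfar c (3 * m) v) :
    PQ q S (fun F => BPv I J (blk c m) ↑F) ≤
      Ex (fun _ => q) S (fun F => ind (Cn I J (↑F : Set Edg)) * BSV q S c m F) := by
  classical
  set b := blk c m with hb
  have a1 : PQ q S (fun F => BPv I J b ↑F) =
      PQ q S (fun F => Cn I J ((↑F : Set Edg) ∪ ↑b)) -
        PQ q S (fun F => Cn I J ((↑F : Set Edg) \ ↑b)) := by
    unfold PQ Pr
    rw [← Ex_sub]
    apply Ex_congr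
    intro F _
    by_cases k1 : Cn I J ((↑F : Set Edg) \ ↑b)
    · have k2 : Cn I J ((↑F : Set Edg) ∪ ↑b) :=
        BS_Cn_mono (fun e he => Or.inl he.1) k1
      rw [ind_of k1, ind_of k2, ind_not_of (fun h => h.2 k1)]
      ring
    · by_cases k2 : Cn I J ((↑F : Set Edg) ∪ ↑b)
      · rw [ind_not_of k1, ind_of k2, ind_of (show BPv I J b ↑F from ⟨k2, k1⟩)]
        ring
      · rw [ind_not_of k1, ind_not_of k2, ind_not_of (fun h => k2 h.1)]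
        ring
  have a2 : PQ q S (fun F => Cn I J ((↑F : Set Edg) ∪ ↑b)) ≤
      (PQ q S (BSU c m))⁻¹ * PQ q S (fun F => Cn I J (↑F : Set Edg) ∧ BSU c m F) := by
    have g1 : PQ q S (fun F => Cn I J ((↑F : Set Edg) ∪ ↑b)) * PQ q S (BSU c m) ≤
        PQ q S (fun F => Cn I J (↑F : Set Edg) ∧ BSU c m F) := by
      refine (Pr_harris (okq h0 h1) (A := fun F => Cn I J ((↑F : Set Edg) ∪ ↑b)) (B := BSU c m)
        ?_ ?_).trans ?_
      · intro F G hFG _ hF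
        exact BS_Cn_mono (Set.union_subset_union_left _ (by exact_mod_cast hFG)) hF
      · intro F G hFG _ hF
        exact BSU_mono hFG hF
      · apply Pr_mono (okq h0 h1)
        rintro F _ ⟨k1, k2⟩
        exact ⟨BS_cnU hm hIJ k2 k1, k2⟩
    rw [inv_mul_eq_div, le_div_iff₀ hU]
    exact g1
  have a3 : (PQ q S (BSD c m))⁻¹ * PQ q S (fun F => Cn I J (↑F : Set Edg) ∧ BSD c m F) ≤
      PQ q S (fun F => Cn I J ((↑F : Set Edg) \ ↑b)) := by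
    have g1 : PQ q S (fun F => Cn I J (↑F : Set Edg) ∧ BSD c m F) ≤
        PQ q S (fun F => Cn I J ((↑F : Set Edg) \ ↑b)) * PQ q S (BSD c m) := by
      refine le_trans ?_ (Pr_harris_decr (okq h0 h1)
        (A := fun F => Cn I J ((↑F : Set Edg) \ ↑b)) (B := BSD c m) ?_ ?_)
      · apply Pr_mono (okq h0 h1)
        rintro F _ ⟨k1, k2⟩
        exact ⟨BS_cnD hIJ k2 k1, k2⟩
      · intro F G hFG _ hF
        exact BS_Cn_mono (Set.sdiff_subset_sdiff_left (by exact_mod_cast hFG)) hF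
      · intro F G hFG _ hF
        unfold BSD at hF ⊢
        rw [not_not] at hF ⊢
        exact BS_crs_mono (by exact_mod_cast hFG) hF
    rw [inv_mul_eq_div, div_le_iff₀ hD]
    exact g1
  have a4 : Ex (fun _ => q) S (fun F => ind (Cn I J (↑F : Set Edg)) * BSV q S c m F) =
      (PQ q S (BSU c m))⁻¹ * PQ q S (fun F => Cn I J (↑F : Set Edg) ∧ BSU c m F) -
      (PQ q S (BSD c m))⁻¹ * PQ q S (fun F => Cn I J (↑F : Set Edg) ∧ BSD c m F) := by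
    unfold PQ Pr
    rw [← Ex_mul_left, ← Ex_mul_left, ← Ex_sub]
    apply Ex_congr
    intro F _
    rw [ind_and, ind_and]
    unfold BSV PQ Pr
    ring
  rw [a1, a4]
  linarith

theorem BS_sum {q κ : ℝ} (h0 : 0 ≤ q) (h1 : q ≤ 1) (hκ : 0 < κ) (hκ2 : κ ≤ 1 / 2) {S : Finset Edg}
    {I J : Set Vtx} {T : Finset (ℤ × ℤ)} {ρ : ℤ × ℤ → ℕ} (hρ : ∀ c ∈ T, 1 ≤ ρ c)
    (hS : ∀ c ∈ T, blk c (3 * ρ c) ⊆ S)
    (hd : ∀ c ∈ T, ∀ c' ∈ T, c ≠ c' → Disjoint (blk c (3 * ρ c)) (blk c' (3 * ρ c')))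
    (hIJ : ∀ c ∈ T, ∀ v ∈ I ∪ J, BSfar c (3 * ρ c) v)
    (hU : ∀ c ∈ T, κ ^ 4 ≤ PQ q S (BSU c (ρ c))) (hD : ∀ c ∈ T, κ ^ 4 ≤ PQ q S (BSD c (ρ c))) :
    ∑ c ∈ T, PQ q S (fun F => BPv I J (blk c (ρ c)) ↑F) ≤ 2 * κ⁻¹ ^ 4 * Real.sqrt T.card := by
  have hk4 : 0 < κ ^ 4 := by positivity
  have hU' : ∀ c ∈ T, 0 < PQ q S (BSU c (ρ c)) := fun c hc => hk4.trans_le (hU c hc)
  have hD' : ∀ c ∈ T, 0 < PQ q S (BSD c (ρ c)) := fun c hc => hk4.trans_le (hD c hc)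
  set f : Finset Edg → ℝ := fun F => ind (Cn I J (↑F : Set Edg)) with hf
  set g : Finset Edg → ℝ := fun F => ∑ c ∈ T, BSV q S c (ρ c) F with hg
  have b1 : ∑ c ∈ T, PQ q S (fun F => BPv I J (blk c (ρ c)) ↑F) ≤
      Ex (fun _ => q) S (fun F => f F * g F) := by
    have e1 : Ex (fun _ => q) S (fun F => f F * g F) =
        ∑ c ∈ T, Ex (fun _ => q) S (fun F => f F * BSV q S c (ρ c) F) := by
      rw [← Ex_sum]
      apply Ex_congr
      intro F _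
      rw [hg, Finset.mul_sum]
    rw [e1]
    apply Finset.sum_le_sum
    intro c hc
    exact BS_infl h0 h1 (hρ c hc) (hU' c hc) (hD' c hc) (hIJ c hc)
  have b2 : Ex (fun _ => q) S (fun F => (f F) ^ 2) ≤ 1 := by
    apply Ex_le_of_le (okq h0 h1)
    intro F _
    have p1 := ind_nonneg (Cn I J (↑F : Set Edg))
    have p2 := ind_le_one (Cn I J (↑F : Set Edg))
    exact pow_le_one₀ p1 p2
  have b3 : Ex (fun _ => q) S (fun F => (g F) ^ 2) =
      ∑ c ∈ T, Ex (fun _ => q) S (fun F => BSV q S c (ρ c) F * BSV q S c (ρ c) F) := by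
    have e1 : Ex (fun _ => q) S (fun F => (g F) ^ 2) =
        ∑ c ∈ T, ∑ c' ∈ T, Ex (fun _ => q) S (fun F => BSV q S c (ρ c) F * BSV q S c' (ρ c') F) := by
      have e2 : ∀ F : Finset Edg, F ⊆ S → (g F) ^ 2 =
          ∑ c ∈ T, ∑ c' ∈ T, BSV q S c (ρ c) F * BSV q S c' (ρ c') F := by
        intro F _
        rw [hg, sq, Finset.sum_mul_sum]
      rw [Ex_congr e2, Ex_sum]
      apply Finset.sum_congr rfl
      intro c _
      rw [Ex_sum]
    rw [e1]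
    apply Finset.sum_congr rfl
    intro c hc
    rw [Finset.sum_eq_single c]
    · intro c' hc' hne
      rw [Ex_mul_indep (hS c hc) (hS c' hc') (hd c hc c' hc' (Ne.symm hne))
        (fun F _ => BSV_local q S c (ρ c) F) (fun F _ => BSV_local q S c' (ρ c') F),
        BSV_mean (hU' c hc) (hD' c hc), zero_mul]
    · intro h; exact absurd hc h
  have b4 : Ex (fun _ => q) S (fun F => (g F) ^ 2) ≤ T.card * (2 * κ⁻¹ ^ 4) := by
    rw [b3]
    have : ∀ c ∈ T, Ex (fun _ => q) S (fun F => BSV q S c (ρ c) F * BSV q S c (ρ c) F) ≤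
        2 * κ⁻¹ ^ 4 := by
      intro c hc
      refine (BSV_sq h0 h1 (hU' c hc) (hD' c hc)).trans ?_
      have i1 : (PQ q S (BSU c (ρ c)))⁻¹ ≤ κ⁻¹ ^ 4 := by
        rw [inv_pow]; exact inv_anti₀ hk4 (hU c hc)
      have i2 : (PQ q S (BSD c (ρ c)))⁻¹ ≤ κ⁻¹ ^ 4 := by
        rw [inv_pow]; exact inv_anti₀ hk4 (hD c hc)
      linarith
    refine (Finset.sum_le_sum this).trans ?_
    rw [Finset.sum_const, nsmul_eq_mul]
  have b5 := Ex_cs (okq h0 h1) S f g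
  have hg0 : 0 ≤ Ex (fun _ => q) S (fun F => (g F) ^ 2) :=
    Ex_nonneg (okq h0 h1) (fun F _ => sq_nonneg _)
  have b6 : (Ex (fun _ => q) S (fun F => f F * g F)) ^ 2 ≤ T.card * (2 * κ⁻¹ ^ 4) := by
    refine b5.trans ?_
    calc Ex (fun _ => q) S (fun F => (f F) ^ 2) * Ex (fun _ => q) S (fun F => (g F) ^ 2)
        ≤ 1 * Ex (fun _ => q) S (fun F => (g F) ^ 2) := mul_le_mul_of_nonneg_right b2 hg0
      _ ≤ _ := by rw [one_mul]; exact b4
  refine b1.trans ?_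
  have hinv : 1 ≤ κ⁻¹ ^ 4 := by
    apply one_le_pow₀
    rw [one_le_inv₀ hκ]
    linarith
  have hT0 : (0:ℝ) ≤ T.card := Nat.cast_nonneg _
  apply le_trans (le_abs_self _)
  apply abs_le_of_sq_le_sq _ (by positivity)
  rw [mul_pow, Real.sq_sqrt hT0]
  refine b6.trans ?_
  nlinarith [mul_nonneg hT0 (show 0 ≤ κ⁻¹ ^ 4 by positivity)]

/-- `Σ_b P(b pivotal) ≤ κ^{-4}·sqrt(#b)`, for blocks whose triples are disjoint, contained in the
domain and without vertices of `I ∪ J` in their interior. -/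
theorem blk_sum {q κ : ℝ} {n : ℕ} (h : Win q κ n) {S : Finset Edg} {I J : Set Vtx}
    {T : Finset (ℤ × ℤ)} {ρ : ℤ × ℤ → ℕ} (hρ : ∀ c ∈ T, 1 ≤ ρ c ∧ 2 * ρ c ≤ n)
    (hS : ∀ c ∈ T, blk c (3 * ρ c) ⊆ S)
    (hd : ∀ c ∈ T, ∀ c' ∈ T, c ≠ c' → Disjoint (blk c (3 * ρ c)) (blk c' (3 * ρ c')))
    (hIJ : ∀ c ∈ T, ∀ v ∈ I ∪ J, ¬ (|v.1 - c.1| < 3 * ρ c ∧ |v.2 - c.2| < 3 * ρ c)) :
    ∑ c ∈ T, PQ q S (fun F => BPv I J (blk c (ρ c)) ↑F) ≤ 2 * κ⁻¹ ^ 4 * Real.sqrt T.card := by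
  apply BS_sum (by linarith [h.lo]) (by linarith [h.hi]) h.kpos h.kle (fun c hc => (hρ c hc).1) hS hd
  · intro c hc v hv
    have := hIJ c hc v hv
    rw [not_and_or, abs_lt, abs_lt] at this
    unfold BSfar
    push_cast
    omega
  · intro c hc
    refine (win_circ h (hρ c hc).1 (hρ c hc).2 c.1 c.2 S ?_).1
    have := hS c hc
    unfold blk at this
    push_cast at this
    exact this
  · intro c hc
    exact (win_blk h (hρ c hc).1 (hρ c hc).2 c.1 c.2 S).1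

end H12S
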