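import Pool.Agent.H12R2.Sep.Defs4

/-! # Task CQ: coarse squares (helper497) -/

namespace H12S

open H974 Finset

theorem CQ_le {r : ℕ} (hr : 1 ≤ r) {a x : ℤ} : a ≤ x / (r:ℤ) ↔ (r:ℤ) * a ≤ x := by
  have hr' : (0:ℤ) < r := by exact_mod_cast hr
  rw [Int.le_ediv_iff_mul_le hr', mul_comm]

theorem CQ_lt {r : ℕ} (hr : 1 ≤ r) {a x : ℤ} : x / (r:ℤ) < a ↔ x < (r:ℤ) * a := by
  have hr' : (0:ℤ) < r := by exact_mod_cast hr
  rw [Int.ediv_lt_iff_lt_mul hr', mul_comm]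

theorem CQ_eq {r : ℕ} (hr : 1 ≤ r) {z x : ℤ} :
    x / (r:ℤ) = z ↔ (r:ℤ) * z ≤ x ∧ x < (r:ℤ) * z + r := by
  constructor
  · intro h
    have h1 : z ≤ x / (r:ℤ) := h.ge
    have h2 : x / (r:ℤ) < z + 1 := by omega
    rw [CQ_le hr] at h1
    rw [CQ_lt hr] at h2
    exact ⟨h1, by linarith⟩
  · rintro ⟨h1, h2⟩
    have h3 : z ≤ x / (r:ℤ) := (CQ_le hr).2 h1
    have h4 : x / (r:ℤ) < z + 1 := (CQ_lt hr).2 (by linarith)
    omega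

theorem CQ_fl {r : ℕ} (hr : 1 ≤ r) {z : ℤ × ℤ} {x y : ℤ} : fl r (x, y) = z ↔
    ((r:ℤ) * z.1 ≤ x ∧ x < (r:ℤ) * z.1 + r) ∧ ((r:ℤ) * z.2 ≤ y ∧ y < (r:ℤ) * z.2 + r) := by
  unfold fl
  rw [Prod.ext_iff, CQ_eq hr, CQ_eq hr]

theorem CQ_memFQ {r : ℕ} (hr : 1 ≤ r) {Q : Finset (ℤ × ℤ)} {x y : ℤ} : (x, y) ∈ FQ r Q ↔
    ∃ z ∈ Q, ((r:ℤ) * z.1 ≤ x ∧ x < (r:ℤ) * z.1 + r) ∧ ((r:ℤ) * z.2 ≤ y ∧ y < (r:ℤ) * z.2 + r) := by
  show fl r (x, y) ∈ Q ↔ _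
  constructor
  · intro h
    exact ⟨_, h, (CQ_fl hr).1 rfl⟩
  · rintro ⟨z, hz, h⟩
    rw [(CQ_fl hr).2 h]
    exact hz

theorem mem_QE {r : ℕ} (hr : 1 ≤ r) {Q : Finset (ℤ × ℤ)} {e : Edg} :
    e ∈ QE r Q ↔ dsrc e ∈ FQ r Q ∨ dtgt e ∈ FQ r Q := by
  have hr' : (1:ℤ) ≤ r := by exact_mod_cast hr
  obtain ⟨x, y, _ | _⟩ := e
  · simp only [QE, sqE, mem_biUnion, mem_RE_false, dsrc, dtgt, Bool.false_eq_true, if_false,
      CQ_memFQ hr]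
    constructor
    · rintro ⟨z, hz, h1, h2, h3, h4⟩
      by_cases hx : x < (r:ℤ) * z.1 + r
      · exact Or.inr ⟨z, hz, ⟨h1, hx⟩, h3, h4⟩
      · exact Or.inl ⟨z, hz, ⟨by omega, by omega⟩, h3, h4⟩
    · rintro (⟨z, hz, ⟨h1, h2⟩, h3, h4⟩ | ⟨z, hz, ⟨h1, h2⟩, h3, h4⟩)
      · exact ⟨z, hz, by omega, by omega, h3, h4⟩
      · exact ⟨z, hz, by omega, by omega, h3, h4⟩
  · simp only [QE, sqE, mem_biUnion, mem_RE_true, dsrc, dtgt, if_true, CQ_memFQ hr]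
    constructor
    · rintro ⟨z, hz, h1, h2, h3, h4⟩
      by_cases hx : y < (r:ℤ) * z.2 + r
      · exact Or.inr ⟨z, hz, ⟨h1, h2⟩, h3, hx⟩
      · exact Or.inl ⟨z, hz, ⟨h1, h2⟩, by omega, by omega⟩
    · rintro (⟨z, hz, ⟨h1, h2⟩, h3, h4⟩ | ⟨z, hz, ⟨h1, h2⟩, h3, h4⟩)
      · exact ⟨z, hz, h1, h2, by omega, by omega⟩
      · exact ⟨z, hz, h1, h2, by omega, by omega⟩

theorem mem_QE_dl {r : ℕ} (hr : 1 ≤ r) {Q : Finset (ℤ × ℤ)} {e : Edg} :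
    e ∈ QE r Q ↔ Tch (FQ r Q) (dl e) := by
  rw [mem_QE hr]
  unfold Tch
  rw [src_dl, tgt_dl]

theorem QE_ends {r : ℕ} {Q : Finset (ℤ × ℤ)} {e : Edg} (he : e ∈ QE r Q) :
    src e ∈ VQ r Q ∧ tgt e ∈ VQ r Q := by
  obtain ⟨x, y, _ | _⟩ := e
  · simp only [QE, sqE, mem_biUnion, mem_RE_false] at he
    obtain ⟨z, hz, h1, h2, h3, h4⟩ := he
    refine ⟨⟨z, hz, ?_⟩, ⟨z, hz, ?_⟩⟩
    · simp only [inR, src]; omega
    · simp only [inR, tgt, Bool.false_eq_true, if_false]; omega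
  · simp only [QE, sqE, mem_biUnion, mem_RE_true] at he
    obtain ⟨z, hz, h1, h2, h3, h4⟩ := he
    refine ⟨⟨z, hz, ?_⟩, ⟨z, hz, ?_⟩⟩
    · simp only [inR, src]; omega
    · simp only [inR, tgt, if_true]; omega

/-- The edges of a rectangle with coarse corners. -/
theorem QE_rect {r : ℕ} (hr : 1 ≤ r) {a b c d : ℤ} (hab : a < b) (hcd : c < d) :
    QE r (Finset.Ico a b ×ˢ Finset.Ico c d) = RE (r * a) (r * b) (r * c) (r * d) := by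
  have hr' : (1:ℤ) ≤ r := by exact_mod_cast hr
  have h1 : (r:ℤ) * a + 1 ≤ r * b := by
    have : (r:ℤ) * (a + 1) ≤ r * b := mul_le_mul_of_nonneg_left (by omega) (by omega)
    linarith
  have h2 : (r:ℤ) * c + 1 ≤ r * d := by
    have : (r:ℤ) * (c + 1) ≤ r * d := mul_le_mul_of_nonneg_left (by omega) (by omega)
    linarith
  ext ⟨x, y, _ | _⟩
  · rw [mem_QE hr, mem_RE_false]
    simp only [FQ, fl, dsrc, dtgt, Bool.false_eq_true, if_false, Set.mem_ofPred_eq, mem_product,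
      mem_Ico, CQ_le hr, CQ_lt hr]
    omega
  · rw [mem_QE hr, mem_RE_true]
    simp only [FQ, fl, dsrc, dtgt, if_true, Set.mem_ofPred_eq, mem_product,
      mem_Ico, CQ_le hr, CQ_lt hr]
    omega

theorem QE_union {r : ℕ} {Q Q' : Finset (ℤ × ℤ)} : QE r (Q ∪ Q') = QE r Q ∪ QE r Q' := by
  unfold QE
  exact union_biUnion

/-- Closed squares without common point are at distance at least `r`. -/
theorem VQ_dist {r : ℕ} (hr : 1 ≤ r) {Q1 Q3 : Finset (ℤ × ℤ)} (h : SepQ Q1 Q3) {u v : Vtx}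
    (hu : u ∈ VQ r Q1) (hv : v ∈ VQ r Q3) : (r:ℤ) ≤ |u.1 - v.1| ∨ (r:ℤ) ≤ |u.2 - v.2| := by
  obtain ⟨z, hz, ⟨a1, a2⟩, a3, a4⟩ := hu
  obtain ⟨z', hz', ⟨b1, b2⟩, b3, b4⟩ := hv
  have hs := h z hz z' hz'
  have hr' : (0:ℤ) ≤ r := by positivity
  have key : ∀ p q : ℤ, p + 2 ≤ q → (r:ℤ) * p + 2 * r ≤ r * q := by
    intro p q hpq
    have := mul_le_mul_of_nonneg_left hpq hr'
    linarith
  have hcase : z.1 + 2 ≤ z'.1 ∨ z'.1 + 2 ≤ z.1 ∨ z.2 + 2 ≤ z'.2 ∨ z'.2 + 2 ≤ z.2 := by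
    by_contra hc
    push Not at hc
    apply hs
    constructor <;> rw [abs_le] <;> omega
  rcases hcase with hc | hc | hc | hc
  · left
    have := key _ _ hc
    rw [le_abs]; omega
  · left
    have := key _ _ hc
    rw [le_abs]; omega
  · right
    have := key _ _ hc
    rw [le_abs]; omega
  · right
    have := key _ _ hc
    rw [le_abs]; omega

end H12S
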