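import Pool.Agent.H12R2.Sep.Defs4

/-!
Corridors (task CG of batch 4): explicit coarse rectangles which join the two cells of the thin
box to the bottom mouth and to the top mouth of the big box.
-/

namespace H12S

open H974 Finset

/-! ### Connectivity of unions of coarse rectangles -/

theorem CG_h {F : Set Edg} {x y : ℤ} (n : ℕ)
    (h : ∀ i : ℤ, x ≤ i → i < x + n → ((i, y, true) : Edg) ∈ F) :
    Reach F (x, y) (x + n, y) := by
  induction n with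
  | zero => simpa using Reach.refl F (x, y)
  | succ n ih =>
    have h1 := ih (fun i h1 h2 => h i h1 (by push_cast; omega))
    have h2 : Adj F (x + n, y) (x + (n + 1 : ℕ), y) :=
      ⟨(x + n, y, true), h _ (by omega) (by push_cast; omega),
        Or.inl ⟨rfl, by simp only [tgt, if_true]; push_cast; ring_nf⟩⟩
    exact h1.trans h2.reach

theorem CG_v {F : Set Edg} {x y : ℤ} (n : ℕ)
    (h : ∀ i : ℤ, y ≤ i → i < y + n → ((x, i, false) : Edg) ∈ F) :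
    Reach F (x, y) (x, y + n) := by
  induction n with
  | zero => simpa using Reach.refl F (x, y)
  | succ n ih =>
    have h1 := ih (fun i h1 h2 => h i h1 (by push_cast; omega))
    have h2 : Adj F (x, y + n) (x, y + (n + 1 : ℕ)) :=
      ⟨(x, y + n, false), h _ (by omega) (by push_cast; omega),
        Or.inl ⟨rfl, by simp only [tgt, Bool.false_eq_true, if_false]; push_cast; ring_nf⟩⟩
    exact h1.trans h2.reach

/-- All vertices of the closed squares of `Q` are connected by edges of these squares. -/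
def ConQ (r : ℕ) (Q : Finset (ℤ × ℤ)) : Prop :=
  ∀ u ∈ VQ r Q, ∀ v ∈ VQ r Q, Reach (↑(QE r Q) : Set Edg) u v

theorem CG_memT {r : ℕ} (hr : 1 ≤ r) {a b c d x y : ℤ} (h1 : r * a ≤ x) (h2 : x < r * b)
    (h3 : r * c ≤ y) (h4 : y ≤ r * d) (hcd : c < d) :
    ((x, y, true) : Edg) ∈ QE r (Finset.Ico a b ×ˢ Finset.Ico c d) := by
  have hr0 : (0:ℤ) < r := by exact_mod_cast hr
  have hx1 := Int.mul_ediv_add_emod x r
  have hx2 := Int.emod_nonneg x hr0.ne'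
  have hx3 := Int.emod_lt_of_pos x hr0
  have hy1 := Int.mul_ediv_add_emod y r
  have hy2 := Int.emod_nonneg y hr0.ne'
  have hy3 := Int.emod_lt_of_pos y hr0
  have ha : a ≤ x / r := by
    rw [Int.le_ediv_iff_mul_le hr0]; linarith [mul_comm a (r:ℤ)]
  have hb : x / r < b := by
    rw [Int.ediv_lt_iff_lt_mul hr0]; linarith [mul_comm b (r:ℤ)]
  have hc : c ≤ y / r := by
    rw [Int.le_ediv_iff_mul_le hr0]; linarith [mul_comm c (r:ℤ)]
  simp only [QE, Finset.mem_biUnion, Finset.mem_product, Finset.mem_Ico, sqE]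
  rcases eq_or_lt_of_le h4 with h5 | h5
  · refine ⟨(x / r, d - 1), ⟨⟨ha, hb⟩, by omega, by omega⟩, ?_⟩
    rw [mem_RE_true]
    have : (r:ℤ) * (d - 1) = r * d - r := by ring
    refine ⟨by simp only; linarith, by simp only; linarith, by simp only; linarith,
      by simp only; linarith⟩
  · have hd : y / r < d := by
      rw [Int.ediv_lt_iff_lt_mul hr0]; linarith [mul_comm d (r:ℤ)]
    refine ⟨(x / r, y / r), ⟨⟨ha, hb⟩, hc, hd⟩, ?_⟩
    rw [mem_RE_true]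
    refine ⟨by simp only; linarith, by simp only; linarith, by simp only; linarith,
      by simp only; linarith⟩

theorem CG_memF {r : ℕ} (hr : 1 ≤ r) {a b c d x y : ℤ} (h1 : r * a ≤ x) (h2 : x ≤ r * b)
    (h3 : r * c ≤ y) (h4 : y < r * d) (hab : a < b) :
    ((x, y, false) : Edg) ∈ QE r (Finset.Ico a b ×ˢ Finset.Ico c d) := by
  have hr0 : (0:ℤ) < r := by exact_mod_cast hr
  have hx1 := Int.mul_ediv_add_emod x r
  have hx2 := Int.emod_nonneg x hr0.ne'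
  have hx3 := Int.emod_lt_of_pos x hr0
  have hy1 := Int.mul_ediv_add_emod y r
  have hy2 := Int.emod_nonneg y hr0.ne'
  have hy3 := Int.emod_lt_of_pos y hr0
  have ha : a ≤ x / r := by
    rw [Int.le_ediv_iff_mul_le hr0]; linarith [mul_comm a (r:ℤ)]
  have hd : y / r < d := by
    rw [Int.ediv_lt_iff_lt_mul hr0]; linarith [mul_comm d (r:ℤ)]
  have hc : c ≤ y / r := by
    rw [Int.le_ediv_iff_mul_le hr0]; linarith [mul_comm c (r:ℤ)]
  simp only [QE, Finset.mem_biUnion, Finset.mem_product, Finset.mem_Ico, sqE]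
  rcases eq_or_lt_of_le h2 with h5 | h5
  · refine ⟨(b - 1, y / r), ⟨⟨by omega, by omega⟩, hc, hd⟩, ?_⟩
    rw [mem_RE_false]
    have : (r:ℤ) * (b - 1) = r * b - r := by ring
    refine ⟨by simp only; linarith, by simp only; linarith, by simp only; linarith,
      by simp only; linarith⟩
  · have hb : x / r < b := by
      rw [Int.ediv_lt_iff_lt_mul hr0]; linarith [mul_comm b (r:ℤ)]
    refine ⟨(x / r, y / r), ⟨⟨ha, hb⟩, hc, hd⟩, ?_⟩
    rw [mem_RE_false]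
    refine ⟨by simp only; linarith, by simp only; linarith, by simp only; linarith,
      by simp only; linarith⟩

theorem ConQ.rect {r : ℕ} (hr : 1 ≤ r) (a b c d : ℤ) :
    ConQ r (Finset.Ico a b ×ˢ Finset.Ico c d) := by
  have hr0 : (0:ℤ) < r := by exact_mod_cast hr
  have key : ∀ u ∈ VQ r (Finset.Ico a b ×ˢ Finset.Ico c d),
      Reach (↑(QE r (Finset.Ico a b ×ˢ Finset.Ico c d)) : Set Edg) (r * a, r * c) u := by
    rintro ⟨x, y⟩ ⟨⟨z1, z2⟩, hz, ⟨h1, h2⟩, h3, h4⟩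
    simp only [Finset.mem_product, Finset.mem_Ico] at hz
    obtain ⟨⟨ha, hb⟩, hc, hd⟩ := hz
    simp only at h1 h2 h3 h4
    have hb' : z1 + 1 ≤ b := hb
    have hd' : z2 + 1 ≤ d := hd
    have e1 : (r:ℤ) * a ≤ r * z1 := mul_le_mul_of_nonneg_left ha hr0.le
    have e2 : (r:ℤ) * (z1 + 1) ≤ r * b := mul_le_mul_of_nonneg_left hb' hr0.le
    have e3 : (r:ℤ) * c ≤ r * z2 := mul_le_mul_of_nonneg_left hc hr0.le
    have e4 : (r:ℤ) * (z2 + 1) ≤ r * d := mul_le_mul_of_nonneg_left hd' hr0.le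
    have e2' : (r:ℤ) * (z1 + 1) = r * z1 + r := by ring
    have e4' : (r:ℤ) * (z2 + 1) = r * z2 + r := by ring
    have f1 : (r:ℤ) * a ≤ x := by linarith
    have f2 : x ≤ r * b := by linarith
    have f3 : (r:ℤ) * c ≤ y := by linarith
    have f4 : y ≤ r * d := by linarith
    obtain ⟨n, hn⟩ := Int.le.dest f3
    obtain ⟨m, hm⟩ := Int.le.dest f1
    have g1 := CG_v (F := (↑(QE r (Finset.Ico a b ×ˢ Finset.Ico c d)) : Set Edg))
      (x := r * a) (y := r * c) n (fun i hi1 hi2 => by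
        have := CG_memF hr (a := a) (b := b) (c := c) (d := d) (x := r * a) (y := i) le_rfl
          (by linarith) hi1 (by linarith) (by omega)
        exact_mod_cast this)
    have g2 := CG_h (F := (↑(QE r (Finset.Ico a b ×ˢ Finset.Ico c d)) : Set Edg))
      (x := r * a) (y := y) m (fun i hi1 hi2 => by
        have := CG_memT hr (a := a) (b := b) (c := c) (d := d) (x := i) (y := y) hi1
          (by linarith) f3 f4 (by omega)
        exact_mod_cast this)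
    rw [hn] at g1
    rw [hm] at g2
    exact g1.trans g2
  intro u hu v hv
  exact (key u hu).symm.trans (key v hv)

theorem QE_mono {r : ℕ} {Q Q' : Finset (ℤ × ℤ)} (h : Q ⊆ Q') : QE r Q ⊆ QE r Q' :=
  Finset.biUnion_subset_biUnion_of_subset_left _ h

theorem ConQ.union {r : ℕ} {Q Q' : Finset (ℤ × ℤ)} (h : ConQ r Q) (h' : ConQ r Q')
    (z : ℤ × ℤ) (hz : z ∈ Q) (hz' : z ∈ Q') : ConQ r (Q ∪ Q') := by
  have hv : ∀ z : ℤ × ℤ, inR (r * z.1) (r * z.1 + r) (r * z.2) (r * z.2 + r)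
      ((r * z.1, r * z.2) : Vtx) := by
    intro z
    refine ⟨⟨le_rfl, ?_⟩, le_rfl, ?_⟩ <;> simp
  have key : ∀ u ∈ VQ r (Q ∪ Q'),
      Reach (↑(QE r (Q ∪ Q')) : Set Edg) (r * z.1, r * z.2) u := by
    rintro u ⟨y, hy, hu⟩
    rcases Finset.mem_union.1 hy with hy | hy
    · exact (h _ ⟨z, hz, hv z⟩ u ⟨y, hy, hu⟩).mono
        (by exact_mod_cast QE_mono Finset.subset_union_left)
    · exact (h' _ ⟨z, hz', hv z⟩ u ⟨y, hy, hu⟩).mono
        (by exact_mod_cast QE_mono Finset.subset_union_right)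
  intro u hu v hv
  exact (key u hu).symm.trans (key v hv)

/-! ### The four kinds of corridors -/

/-- Straight up. -/
noncomputable def CGsu (M2 B W : ℕ) (k : ℤ) : Finset (ℤ × ℤ) :=
  (Finset.Ico (2 * k - 1) (2 * k + 1) ×ˢ Finset.Ico (M2:ℤ) (B - 1)) ∪
    (Finset.Ico (-(B:ℤ) + 1) (B - 1) ×ˢ Finset.Ico ((B:ℤ) - 2) (B - 1)) ∪
    (Finset.Ico (-(W:ℤ)) W ×ˢ Finset.Ico ((B:ℤ) - 2) B)

/-- Straight down. -/
noncomputable def CGsd (M2 B W : ℕ) (k : ℤ) : Finset (ℤ × ℤ) :=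
  (Finset.Ico (2 * k - 1) (2 * k + 1) ×ˢ Finset.Ico (-(B:ℤ) + 1) (-(M2:ℤ))) ∪
    (Finset.Ico (-(B:ℤ) + 1) (B - 1) ×ˢ Finset.Ico (-(B:ℤ) + 1) (-(B:ℤ) + 2)) ∪
    (Finset.Ico (-(W:ℤ)) W ×ˢ Finset.Ico (-(B:ℤ)) (-(B:ℤ) + 2))

/-- From the top side of the thin box around its left end down to the bottom mouth. -/
noncomputable def CGad (P : ℤ) (M2 B W : ℕ) (k : ℤ) : Finset (ℤ × ℤ) :=
  (Finset.Ico (2 * k - 1) (2 * k + 1) ×ˢ Finset.Ico (M2:ℤ) (M2 + 2)) ∪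
    (Finset.Ico (-2 * P - 3) (2 * k + 1) ×ˢ Finset.Ico ((M2:ℤ) + 1) (M2 + 2)) ∪
    (Finset.Ico (-2 * P - 3) (-2 * P - 2) ×ˢ Finset.Ico (-(B:ℤ) + 1) (M2 + 2)) ∪
    (Finset.Ico (-(B:ℤ) + 1) (B - 1) ×ˢ Finset.Ico (-(B:ℤ) + 1) (-(B:ℤ) + 2)) ∪
    (Finset.Ico (-(W:ℤ)) W ×ˢ Finset.Ico (-(B:ℤ)) (-(B:ℤ) + 2))

/-- From the bottom side of the thin box around its left end up to the top mouth. -/
noncomputable def CGau (P : ℤ) (M2 B W : ℕ) (k : ℤ) : Finset (ℤ × ℤ) :=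
  (Finset.Ico (2 * k - 1) (2 * k + 1) ×ˢ Finset.Ico (-(M2:ℤ) - 2) (-(M2:ℤ))) ∪
    (Finset.Ico (-2 * P - 3) (2 * k + 1) ×ˢ Finset.Ico (-(M2:ℤ) - 2) (-(M2:ℤ) - 1)) ∪
    (Finset.Ico (-2 * P - 3) (-2 * P - 2) ×ˢ Finset.Ico (-(M2:ℤ) - 2) ((B:ℤ) - 1)) ∪
    (Finset.Ico (-(B:ℤ) + 1) (B - 1) ×ˢ Finset.Ico ((B:ℤ) - 2) (B - 1)) ∪
    (Finset.Ico (-(W:ℤ)) W ×ˢ Finset.Ico ((B:ℤ) - 2) B)

section

variable {L M2 B W : ℕ} {P k k' : ℤ}

theorem CGsu_cor (hP : (L:ℤ) * M2 = P) (hP2 : 2 * (M2:ℤ) ≤ P) (hM : 64 ≤ M2)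
    (hB : (B:ℤ) = 4 * P) (hW1 : 1 ≤ W) (hW : W ≤ M2) (hk : |2 * k| ≤ P + 1) :
    Cor L M2 B W true k true (CGsu M2 B W k) := by
  have e : (2 * L * M2 : ℤ) = 2 * P := by rw [← hP]; ring
  obtain ⟨hk1, hk2⟩ := abs_le.1 hk
  have hM' : (64:ℤ) ≤ M2 := by exact_mod_cast hM
  have hW2 : (W:ℤ) ≤ M2 := by exact_mod_cast hW
  refine ⟨?_, ?_, ?_, ?_, ?_, ?_, ?_, ?_⟩
  · rintro ⟨x, y⟩ hz
    simp only [CGsu, Finset.mem_union, Finset.mem_product, Finset.mem_Ico] at hz ⊢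
    omega
  · rintro ⟨x, y⟩ hz h
    simp only [CGsu, Finset.mem_union, Finset.mem_product, Finset.mem_Ico] at hz h ⊢
    omega
  · rintro ⟨x, y⟩ hz h
    simp only [CGsu, Finset.mem_union, Finset.mem_product, Finset.mem_Ico] at hz h ⊢
    refine ⟨trivial, ?_⟩
    omega
  · intro x h1 h2
    simp only [CGsu, Finset.mem_union, Finset.mem_product, Finset.mem_Ico, if_true]
    omega
  · rintro ⟨x, y⟩ hz h1 h2 h3 h4
    rw [e] at h1 h2
    simp only [CGsu, Finset.mem_union, Finset.mem_product, Finset.mem_Ico] at hz h1 h2 h3 h4 ⊢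
    simp only [H12S.hz, if_true]
    omega
  · simp only [CGsu, Finset.mem_union, Finset.mem_product, Finset.mem_Ico, hz, if_true]
    omega
  · simp only [CGsu, Finset.mem_union, Finset.mem_product, Finset.mem_Ico, hz, if_true]
    omega
  · intro r hr
    refine ConQ.union (ConQ.union (ConQ.rect hr _ _ _ _) (ConQ.rect hr _ _ _ _)
      (2 * k, (B:ℤ) - 2) ?_ ?_) (ConQ.rect hr _ _ _ _) (0, (B:ℤ) - 2) ?_ ?_ <;>
    simp only [Finset.mem_union, Finset.mem_product, Finset.mem_Ico] <;> omega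

theorem CGsd_cor (hP : (L:ℤ) * M2 = P) (hP2 : 2 * (M2:ℤ) ≤ P) (hM : 64 ≤ M2)
    (hB : (B:ℤ) = 4 * P) (hW1 : 1 ≤ W) (hW : W ≤ M2) (hk : |2 * k| ≤ P + 1) :
    Cor L M2 B W false k false (CGsd M2 B W k) := by
  have e : (2 * L * M2 : ℤ) = 2 * P := by rw [← hP]; ring
  obtain ⟨hk1, hk2⟩ := abs_le.1 hk
  have hM' : (64:ℤ) ≤ M2 := by exact_mod_cast hM
  have hW2 : (W:ℤ) ≤ M2 := by exact_mod_cast hW
  refine ⟨?_, ?_, ?_, ?_, ?_, ?_, ?_, ?_⟩
  · rintro ⟨x, y⟩ hz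
    simp only [CGsd, Finset.mem_union, Finset.mem_product, Finset.mem_Ico] at hz ⊢
    omega
  · rintro ⟨x, y⟩ hz h
    simp only [CGsd, Finset.mem_union, Finset.mem_product, Finset.mem_Ico] at hz h ⊢
    refine ⟨trivial, ?_⟩
    omega
  · rintro ⟨x, y⟩ hz h
    simp only [CGsd, Finset.mem_union, Finset.mem_product, Finset.mem_Ico] at hz h ⊢
    omega
  · intro x h1 h2
    simp only [CGsd, Finset.mem_union, Finset.mem_product, Finset.mem_Ico, Bool.false_eq_true,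
      if_false]
    omega
  · rintro ⟨x, y⟩ hz h1 h2 h3 h4
    rw [e] at h1 h2
    simp only [CGsd, Finset.mem_union, Finset.mem_product, Finset.mem_Ico] at hz h1 h2 h3 h4 ⊢
    simp only [H12S.hz, Bool.false_eq_true, if_false]
    omega
  · simp only [CGsd, Finset.mem_union, Finset.mem_product, Finset.mem_Ico, hz,
      Bool.false_eq_true, if_false]
    omega
  · simp only [CGsd, Finset.mem_union, Finset.mem_product, Finset.mem_Ico, hz,
      Bool.false_eq_true, if_false]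
    omega
  · intro r hr
    refine ConQ.union (ConQ.union (ConQ.rect hr _ _ _ _) (ConQ.rect hr _ _ _ _)
      (2 * k, -(B:ℤ) + 1) ?_ ?_) (ConQ.rect hr _ _ _ _) (0, -(B:ℤ) + 1) ?_ ?_ <;>
    simp only [Finset.mem_union, Finset.mem_product, Finset.mem_Ico] <;> omega

theorem CGad_cor (hP : (L:ℤ) * M2 = P) (hP2 : 2 * (M2:ℤ) ≤ P) (hM : 64 ≤ M2)
    (hB : (B:ℤ) = 4 * P) (hW1 : 1 ≤ W) (hW : W ≤ M2) (hk : |2 * k| ≤ P + 1) :
    Cor L M2 B W true k false (CGad P M2 B W k) := by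
  have e : (2 * L * M2 : ℤ) = 2 * P := by rw [← hP]; ring
  obtain ⟨hk1, hk2⟩ := abs_le.1 hk
  have hM' : (64:ℤ) ≤ M2 := by exact_mod_cast hM
  have hW2 : (W:ℤ) ≤ M2 := by exact_mod_cast hW
  refine ⟨?_, ?_, ?_, ?_, ?_, ?_, ?_, ?_⟩
  · rintro ⟨x, y⟩ hz
    simp only [CGad, Finset.mem_union, Finset.mem_product, Finset.mem_Ico] at hz ⊢
    omega
  · rintro ⟨x, y⟩ hz h
    simp only [CGad, Finset.mem_union, Finset.mem_product, Finset.mem_Ico] at hz h ⊢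
    refine ⟨trivial, ?_⟩
    omega
  · rintro ⟨x, y⟩ hz h
    simp only [CGad, Finset.mem_union, Finset.mem_product, Finset.mem_Ico] at hz h ⊢
    omega
  · intro x h1 h2
    simp only [CGad, Finset.mem_union, Finset.mem_product, Finset.mem_Ico, Bool.false_eq_true,
      if_false]
    omega
  · rintro ⟨x, y⟩ hz h1 h2 h3 h4
    rw [e] at h1 h2
    simp only [CGad, Finset.mem_union, Finset.mem_product, Finset.mem_Ico] at hz h1 h2 h3 h4 ⊢
    simp only [H12S.hz, if_true]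
    omega
  · simp only [CGad, Finset.mem_union, Finset.mem_product, Finset.mem_Ico, hz, if_true]
    omega
  · simp only [CGad, Finset.mem_union, Finset.mem_product, Finset.mem_Ico, hz, if_true]
    omega
  · intro r hr
    refine ConQ.union (ConQ.union (ConQ.union (ConQ.union (ConQ.rect hr _ _ _ _)
      (ConQ.rect hr _ _ _ _) (2 * k, (M2:ℤ) + 1) ?_ ?_)
      (ConQ.rect hr _ _ _ _) (-2 * P - 3, (M2:ℤ) + 1) ?_ ?_)
      (ConQ.rect hr _ _ _ _) (-2 * P - 3, -(B:ℤ) + 1) ?_ ?_)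
      (ConQ.rect hr _ _ _ _) (0, -(B:ℤ) + 1) ?_ ?_ <;>
    simp only [Finset.mem_union, Finset.mem_product, Finset.mem_Ico] <;> omega

theorem CGau_cor (hP : (L:ℤ) * M2 = P) (hP2 : 2 * (M2:ℤ) ≤ P) (hM : 64 ≤ M2)
    (hB : (B:ℤ) = 4 * P) (hW1 : 1 ≤ W) (hW : W ≤ M2) (hk : |2 * k| ≤ P + 1) :
    Cor L M2 B W false k true (CGau P M2 B W k) := by
  have e : (2 * L * M2 : ℤ) = 2 * P := by rw [← hP]; ring
  obtain ⟨hk1, hk2⟩ := abs_le.1 hk
  have hM' : (64:ℤ) ≤ M2 := by exact_mod_cast hM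
  have hW2 : (W:ℤ) ≤ M2 := by exact_mod_cast hW
  refine ⟨?_, ?_, ?_, ?_, ?_, ?_, ?_, ?_⟩
  · rintro ⟨x, y⟩ hz
    simp only [CGau, Finset.mem_union, Finset.mem_product, Finset.mem_Ico] at hz ⊢
    omega
  · rintro ⟨x, y⟩ hz h
    simp only [CGau, Finset.mem_union, Finset.mem_product, Finset.mem_Ico] at hz h ⊢
    omega
  · rintro ⟨x, y⟩ hz h
    simp only [CGau, Finset.mem_union, Finset.mem_product, Finset.mem_Ico] at hz h ⊢
    refine ⟨trivial, ?_⟩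
    omega
  · intro x h1 h2
    simp only [CGau, Finset.mem_union, Finset.mem_product, Finset.mem_Ico, if_true]
    omega
  · rintro ⟨x, y⟩ hz h1 h2 h3 h4
    rw [e] at h1 h2
    simp only [CGau, Finset.mem_union, Finset.mem_product, Finset.mem_Ico] at hz h1 h2 h3 h4 ⊢
    simp only [H12S.hz, Bool.false_eq_true, if_false]
    omega
  · simp only [CGau, Finset.mem_union, Finset.mem_product, Finset.mem_Ico, hz,
      Bool.false_eq_true, if_false]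
    omega
  · simp only [CGau, Finset.mem_union, Finset.mem_product, Finset.mem_Ico, hz,
      Bool.false_eq_true, if_false]
    omega
  · intro r hr
    refine ConQ.union (ConQ.union (ConQ.union (ConQ.union (ConQ.rect hr _ _ _ _)
      (ConQ.rect hr _ _ _ _) (2 * k, -(M2:ℤ) - 2) ?_ ?_)
      (ConQ.rect hr _ _ _ _) (-2 * P - 3, -(M2:ℤ) - 2) ?_ ?_)
      (ConQ.rect hr _ _ _ _) (-2 * P - 3, (B:ℤ) - 2) ?_ ?_)
      (ConQ.rect hr _ _ _ _) (0, (B:ℤ) - 2) ?_ ?_ <;>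
    simp only [Finset.mem_union, Finset.mem_product, Finset.mem_Ico] <;> omega

theorem CG_sep_s (hP2 : 2 * (M2:ℤ) ≤ P) (hM : 64 ≤ M2) (hB : (B:ℤ) = 4 * P) (hW1 : 1 ≤ W) (hW : W ≤ M2)
    (hk : |2 * k| ≤ P + 1) (hk' : |2 * k'| ≤ P + 1) :
    SepQ (CGsd M2 B W k) (CGsu M2 B W k') := by
  obtain ⟨hk1, hk2⟩ := abs_le.1 hk
  obtain ⟨hk3, hk4⟩ := abs_le.1 hk'
  have hM' : (64:ℤ) ≤ M2 := by exact_mod_cast hM
  have hW2 : (W:ℤ) ≤ M2 := by exact_mod_cast hW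
  rintro ⟨x, y⟩ hz ⟨x', y'⟩ hz' ⟨h1, h2⟩
  rw [abs_le] at h1 h2
  simp only [CGsd, CGsu, Finset.mem_union, Finset.mem_product, Finset.mem_Ico] at hz hz' h1 h2
  omega

theorem CG_sep_d (hP2 : 2 * (M2:ℤ) ≤ P) (hM : 64 ≤ M2) (hB : (B:ℤ) = 4 * P) (hW1 : 1 ≤ W) (hW : W ≤ M2)
    (hk : |2 * k| ≤ P + 1) (hk' : |2 * k'| ≤ P + 1) (h : k + 4 ≤ k') :
    SepQ (CGad P M2 B W k) (CGsu M2 B W k') := by
  obtain ⟨hk1, hk2⟩ := abs_le.1 hk
  obtain ⟨hk3, hk4⟩ := abs_le.1 hk'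
  have hM' : (64:ℤ) ≤ M2 := by exact_mod_cast hM
  have hW2 : (W:ℤ) ≤ M2 := by exact_mod_cast hW
  rintro ⟨x, y⟩ hz ⟨x', y'⟩ hz' ⟨h1, h2⟩
  rw [abs_le] at h1 h2
  simp only [CGad, CGsu, Finset.mem_union, Finset.mem_product, Finset.mem_Ico] at hz hz' h1 h2
  omega

theorem CG_sep_u (hP2 : 2 * (M2:ℤ) ≤ P) (hM : 64 ≤ M2) (hB : (B:ℤ) = 4 * P) (hW1 : 1 ≤ W) (hW : W ≤ M2)
    (hk : |2 * k| ≤ P + 1) (hk' : |2 * k'| ≤ P + 1) (h : k + 4 ≤ k') :
    SepQ (CGsd M2 B W k') (CGau P M2 B W k) := by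
  obtain ⟨hk1, hk2⟩ := abs_le.1 hk
  obtain ⟨hk3, hk4⟩ := abs_le.1 hk'
  have hM' : (64:ℤ) ≤ M2 := by exact_mod_cast hM
  have hW2 : (W:ℤ) ≤ M2 := by exact_mod_cast hW
  rintro ⟨x, y⟩ hz ⟨x', y'⟩ hz' ⟨h1, h2⟩
  rw [abs_le] at h1 h2
  simp only [CGsd, CGau, Finset.mem_union, Finset.mem_product, Finset.mem_Ico] at hz hz' h1 h2
  omega

end

/-- Two disjoint corridors which join the two cells to the two mouths (any width `W ≤ M2`). -/
theorem cor_existsW {L M2 B W : ℕ} (hL : 2 ≤ L) (hM : 64 ≤ M2) (hB : B = 4 * L * M2)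
    (hW1 : 1 ≤ W) (hW : W ≤ M2) {σ σ' : Bool} {k k' : ℤ} (hk : |2 * k| ≤ L * M2 + 1)
    (hk' : |2 * k'| ≤ L * M2 + 1)
    (hs : σ = σ' → 4 ≤ |k - k'|) :
    ∃ Q1 Q3 : Finset (ℤ × ℤ), SepQ Q1 Q3 ∧
      ((Cor L M2 B W σ k false Q1 ∧ Cor L M2 B W σ' k' true Q3) ∨
        (Cor L M2 B W σ' k' false Q1 ∧ Cor L M2 B W σ k true Q3)) := by
  obtain ⟨P, hP⟩ : ∃ P : ℤ, (L:ℤ) * M2 = P := ⟨_, rfl⟩
  have hL' : (2:ℤ) ≤ L := by exact_mod_cast hL
  have hM' : (64:ℤ) ≤ M2 := by exact_mod_cast hM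
  have hP2 : 2 * (M2:ℤ) ≤ P := by rw [← hP]; exact mul_le_mul_of_nonneg_right hL' (by omega)
  have hB' : (B:ℤ) = 4 * P := by rw [hB, ← hP]; push_cast; ring
  rw [hP] at hk hk'
  cases σ with
  | false =>
    cases σ' with
    | false =>
      have h4 := hs rfl
      rcases le_abs.1 h4 with h5 | h5
      · -- `k' < k`
        exact ⟨CGsd M2 B W k, CGau P M2 B W k',
          CG_sep_u hP2 hM hB' hW1 hW hk' hk (by omega),
          Or.inl ⟨CGsd_cor hP hP2 hM hB' hW1 hW hk, CGau_cor hP hP2 hM hB' hW1 hW hk'⟩⟩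
      · exact ⟨CGsd M2 B W k', CGau P M2 B W k,
          CG_sep_u hP2 hM hB' hW1 hW hk hk' (by omega),
          Or.inr ⟨CGsd_cor hP hP2 hM hB' hW1 hW hk', CGau_cor hP hP2 hM hB' hW1 hW hk⟩⟩
    | true =>
      exact ⟨CGsd M2 B W k, CGsu M2 B W k', CG_sep_s hP2 hM hB' hW1 hW hk hk',
        Or.inl ⟨CGsd_cor hP hP2 hM hB' hW1 hW hk, CGsu_cor hP hP2 hM hB' hW1 hW hk'⟩⟩
  | true =>
    cases σ' with
    | false =>
      exact ⟨CGsd M2 B W k', CGsu M2 B W k, CG_sep_s hP2 hM hB' hW1 hW hk' hk,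
        Or.inr ⟨CGsd_cor hP hP2 hM hB' hW1 hW hk', CGsu_cor hP hP2 hM hB' hW1 hW hk⟩⟩
    | true =>
      have h4 := hs rfl
      rcases le_abs.1 h4 with h5 | h5
      · -- `k' < k`
        exact ⟨CGad P M2 B W k', CGsu M2 B W k,
          CG_sep_d hP2 hM hB' hW1 hW hk' hk (by omega),
          Or.inr ⟨CGad_cor hP hP2 hM hB' hW1 hW hk', CGsu_cor hP hP2 hM hB' hW1 hW hk⟩⟩
      · exact ⟨CGad P M2 B W k, CGsu M2 B W k',
          CG_sep_d hP2 hM hB' hW1 hW hk hk' (by omega),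
          Or.inl ⟨CGad_cor hP hP2 hM hB' hW1 hW hk, CGsu_cor hP hP2 hM hB' hW1 hW hk'⟩⟩

/-- Two disjoint corridors which join the two cells to the two mouths. -/
theorem cor_exists {L M2 B W : ℕ} (hL : 2 ≤ L) (hM : 64 ≤ M2) (hB : B = 4 * L * M2)
    (hW : W = M2) {σ σ' : Bool} {k k' : ℤ} (hk : |2 * k| ≤ L * M2 + 1) (hk' : |2 * k'| ≤ L * M2 + 1)
    (hs : σ = σ' → 4 ≤ |k - k'|) :
    ∃ Q1 Q3 : Finset (ℤ × ℤ), SepQ Q1 Q3 ∧
      ((Cor L M2 B W σ k false Q1 ∧ Cor L M2 B W σ' k' true Q3) ∨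
        (Cor L M2 B W σ' k' false Q1 ∧ Cor L M2 B W σ k true Q3)) :=
  cor_existsW hL hM hB (by omega) (by omega) hk hk' hs

end H12S
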