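import Pool.Agent.H12R2.Sep.Defs5
import Pool.Agent.H12R2.Sep.Cor

/-!
Corridors of the inward gluing (task CX of batch 5): the inner parts are the corridors of
`Cor.lean` with mouths of width `1`, continued by explicit coarse rectangles to the boundary of the
block.
-/

namespace H12S

open H974 Finset

/-- Outer part of the first corridor: straight up to the cell of the top side. -/
noncomputable def CXt (B1 : ℤ) : Finset (ℤ × ℤ) := Finset.Ico (-1 : ℤ) 1 ×ˢ Finset.Ico (B1 - 1) (B1 + 8)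

/-- Outer part of the second corridor to a cell of the top side (`x` = abscissa of the cell). -/
noncomputable def CXu (B1 x : ℤ) : Finset (ℤ × ℤ) :=
  (Finset.Ico (-1 : ℤ) 1 ×ˢ Finset.Ico (-B1 - 3) (-B1 + 1)) ∪
    (Finset.Ico (min (-1) (x - 1)) (max 1 (x + 1)) ×ˢ Finset.Ico (-B1 - 3) (-B1 - 2)) ∪
    (Finset.Ico (x - 1) (x + 1) ×ˢ Finset.Ico (-B1 - 3) (B1 + 8))

/-- ... of the right side (`y` = ordinate of the cell, `R` = right side of the block). -/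
noncomputable def CXr (B1 y R : ℤ) : Finset (ℤ × ℤ) :=
  (Finset.Ico (-1 : ℤ) 1 ×ˢ Finset.Ico (y - 1) (-B1 + 1)) ∪
    (Finset.Ico (-1 : ℤ) R ×ˢ Finset.Ico (y - 1) (y + 1))

/-- ... of the left side (`R` = left side of the block). -/
noncomputable def CXl (B1 y R : ℤ) : Finset (ℤ × ℤ) :=
  (Finset.Ico (-1 : ℤ) 1 ×ˢ Finset.Ico (y - 1) (-B1 + 1)) ∪
    (Finset.Ico R 1 ×ˢ Finset.Ico (y - 1) (y + 1))

/-- ... of the bottom side (`R` = bottom side of the block). -/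
noncomputable def CXd (B1 x R : ℤ) : Finset (ℤ × ℤ) :=
  (Finset.Ico (-1 : ℤ) 1 ×ˢ Finset.Ico (R + 2) (-B1 + 1)) ∪
    (Finset.Ico (min (-1) (x - 1)) (max 1 (x + 1)) ×ˢ Finset.Ico (R + 2) (R + 3)) ∪
    (Finset.Ico (x - 1) (x + 1) ×ˢ Finset.Ico R (R + 3))

section

variable {L M2 B B1 : ℕ} {P P2 k k' k1 : ℤ} {σ : Bool} {γ : ℤ × ℤ} {Q : Finset (ℤ × ℤ)}

theorem CX_top (hP : (L:ℤ) * M2 = P) (hP2 : 2 * (M2:ℤ) ≤ P) (hM : 64 ≤ M2)
    (hB1 : (B1:ℤ) = 4 * P) (h1 : 4096 * (B1:ℤ) ≤ P2) (h2 : 64 * P2 ≤ B)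
    (hk : |2 * k| + 2 * P2 ≤ B) (hγ1 : γ.1 = -(2 * k)) (hγ2 : γ.2 + B = B1 + 8)
    (h : Cor L M2 B1 1 σ k1 true Q) : CorX L M2 B γ Dir.up k σ k1 (Q ∪ CXt B1) := by
  have e : (2 * L * M2 : ℤ) = 2 * P := by rw [← hP]; ring
  have hk1 : 2 * k ≤ |2 * k| := le_abs_self _
  have hk2 : -(2 * k) ≤ |2 * k| := neg_le_abs _
  have hM' : (64:ℤ) ≤ M2 := by exact_mod_cast hM
  obtain ⟨g1, g2⟩ := γ
  simp only at hγ1 hγ2
  refine ⟨?_, ?_, ?_, ?_, ?_, ?_, ?_⟩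
  · rintro ⟨x, y⟩ hz
    rcases Finset.mem_union.1 hz with hz | hz
    · have := h.inx _ hz
      simp only at this ⊢
      omega
    · simp only [CXt, Finset.mem_product, Finset.mem_Ico] at hz ⊢
      omega
  · rintro ⟨x, y⟩ hz hb
    simp only [inSq, Finset.mem_insert, Finset.mem_singleton, Prod.mk.injEq]
    rcases Finset.mem_union.1 hz with hz | hz
    · have := h.inx _ hz
      simp only at this hb ⊢
      omega
    · simp only [CXt, Finset.mem_product, Finset.mem_Ico] at hz hb ⊢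
      omega
  · rintro ⟨x, y⟩ hz
    simp only [inSq, Finset.mem_insert, Finset.mem_singleton, Prod.mk.injEq] at hz
    refine Finset.mem_union_right _ ?_
    simp only [CXt, Finset.mem_product, Finset.mem_Ico]
    omega
  · rintro ⟨x, y⟩ hz h1 h2 h3 h4
    rcases Finset.mem_union.1 hz with hz | hz
    · exact h.avo _ hz h1 h2 h3 h4
    · rw [e] at h1 h2
      simp only [CXt, Finset.mem_product, Finset.mem_Ico] at hz h1 h2 h3 h4
      omega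
  · exact Finset.mem_union_left _ h.cl1
  · exact Finset.mem_union_left _ h.cl2
  · intro r hr
    have q1 : ((0:ℤ), (B1:ℤ) - 1) ∈ Q := by
      have := h.mou 0 (by simp) (by simp)
      simpa using this
    have q2 : ((0:ℤ), (B1:ℤ) - 1) ∈ CXt B1 := by
      simp only [CXt, Finset.mem_product, Finset.mem_Ico]
      omega
    exact ConQ.union (h.con r hr) (ConQ.rect hr _ _ _ _) _ q1 q2

theorem CX_u (hP : (L:ℤ) * M2 = P) (hP2 : 2 * (M2:ℤ) ≤ P) (hM : 64 ≤ M2)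
    (hB1 : (B1:ℤ) = 4 * P) (h1 : 4096 * (B1:ℤ) ≤ P2) (h2 : 64 * P2 ≤ B)
    (hk : |2 * k| + 2 * P2 ≤ B) (hk' : |2 * k'| + 2 * P2 ≤ B) (hγ1 : γ.1 = -(2 * k))
    (hγ2 : γ.2 + B = B1 + 8) (hd : 64 * (B1:ℤ) < |2 * k - 2 * k'|)
    (h : Cor L M2 B1 1 σ k1 false Q) :
    CorX L M2 B γ Dir.up k' σ k1 (Q ∪ CXu B1 (2 * k' - 2 * k)) := by
  have e : (2 * L * M2 : ℤ) = 2 * P := by rw [← hP]; ring
  have hk1 : 2 * k ≤ |2 * k| := le_abs_self _
  have hk2 : -(2 * k) ≤ |2 * k| := neg_le_abs _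
  have hk3 : 2 * k' ≤ |2 * k'| := le_abs_self _
  have hk4 : -(2 * k') ≤ |2 * k'| := neg_le_abs _
  have hM' : (64:ℤ) ≤ M2 := by exact_mod_cast hM
  rw [lt_abs] at hd
  obtain ⟨g1, g2⟩ := γ
  simp only at hγ1 hγ2
  refine ⟨?_, ?_, ?_, ?_, ?_, ?_, ?_⟩
  · rintro ⟨x, y⟩ hz
    rcases Finset.mem_union.1 hz with hz | hz
    · have := h.inx _ hz
      simp only at this ⊢
      omega
    · simp only [CXu, Finset.mem_union, Finset.mem_product, Finset.mem_Ico] at hz ⊢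
      omega
  · rintro ⟨x, y⟩ hz hb
    simp only [inSq, Finset.mem_insert, Finset.mem_singleton, Prod.mk.injEq]
    rcases Finset.mem_union.1 hz with hz | hz
    · have := h.inx _ hz
      simp only at this hb ⊢
      omega
    · simp only [CXu, Finset.mem_union, Finset.mem_product, Finset.mem_Ico] at hz hb ⊢
      omega
  · rintro ⟨x, y⟩ hz
    simp only [inSq, Finset.mem_insert, Finset.mem_singleton, Prod.mk.injEq] at hz
    refine Finset.mem_union_right _ ?_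
    simp only [CXu, Finset.mem_union, Finset.mem_product, Finset.mem_Ico]
    omega
  · rintro ⟨x, y⟩ hz h1 h2 h3 h4
    rcases Finset.mem_union.1 hz with hz | hz
    · exact h.avo _ hz h1 h2 h3 h4
    · rw [e] at h1 h2
      simp only [CXu, Finset.mem_union, Finset.mem_product, Finset.mem_Ico] at hz h1 h2 h3 h4
      omega
  · exact Finset.mem_union_left _ h.cl1
  · exact Finset.mem_union_left _ h.cl2
  · intro r hr
    have q1 : ((0:ℤ), -(B1:ℤ)) ∈ Q := by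
      have := h.mou 0 (by simp) (by simp)
      simpa using this
    have q2 : ((0:ℤ), -(B1:ℤ)) ∈ CXu B1 (2 * k' - 2 * k) := by
      simp only [CXu, Finset.mem_union, Finset.mem_product, Finset.mem_Ico]
      omega
    have q3 : ConQ r (CXu B1 (2 * k' - 2 * k)) := by
      refine ConQ.union (ConQ.union (ConQ.rect hr _ _ _ _) (ConQ.rect hr _ _ _ _) (0, -(B1:ℤ) - 3) ?_ ?_)
        (ConQ.rect hr _ _ _ _) (2 * k' - 2 * k, -(B1:ℤ) - 3) ?_ ?_ <;>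
      simp only [Finset.mem_union, Finset.mem_product, Finset.mem_Ico] <;> omega
    exact ConQ.union (h.con r hr) q3 _ q1 q2

theorem CX_r (hP : (L:ℤ) * M2 = P) (hP2 : 2 * (M2:ℤ) ≤ P) (hM : 64 ≤ M2)
    (hB1 : (B1:ℤ) = 4 * P) (h1 : 4096 * (B1:ℤ) ≤ P2) (h2 : 64 * P2 ≤ B)
    (hk : |2 * k| + 2 * P2 ≤ B) (hk' : |2 * k'| + 2 * P2 ≤ B) (hγ1 : γ.1 = -(2 * k))
    (hγ2 : γ.2 + B = B1 + 8) (h : Cor L M2 B1 1 σ k1 false Q) :
    CorX L M2 B γ Dir.rt k' σ k1 (Q ∪ CXr B1 (γ.2 + 2 * k') (γ.1 + B)) := by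
  have e : (2 * L * M2 : ℤ) = 2 * P := by rw [← hP]; ring
  have hk1 : 2 * k ≤ |2 * k| := le_abs_self _
  have hk2 : -(2 * k) ≤ |2 * k| := neg_le_abs _
  have hk3 : 2 * k' ≤ |2 * k'| := le_abs_self _
  have hk4 : -(2 * k') ≤ |2 * k'| := neg_le_abs _
  have hM' : (64:ℤ) ≤ M2 := by exact_mod_cast hM
  obtain ⟨g1, g2⟩ := γ
  simp only at hγ1 hγ2
  refine ⟨?_, ?_, ?_, ?_, ?_, ?_, ?_⟩
  · rintro ⟨x, y⟩ hz
    rcases Finset.mem_union.1 hz with hz | hz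
    · have := h.inx _ hz
      simp only at this ⊢
      omega
    · simp only [CXr, Finset.mem_union, Finset.mem_product, Finset.mem_Ico] at hz ⊢
      omega
  · rintro ⟨x, y⟩ hz hb
    simp only [inSq, Finset.mem_insert, Finset.mem_singleton, Prod.mk.injEq]
    rcases Finset.mem_union.1 hz with hz | hz
    · have := h.inx _ hz
      simp only at this hb ⊢
      omega
    · simp only [CXr, Finset.mem_union, Finset.mem_product, Finset.mem_Ico] at hz hb ⊢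
      omega
  · rintro ⟨x, y⟩ hz
    simp only [inSq, Finset.mem_insert, Finset.mem_singleton, Prod.mk.injEq] at hz
    refine Finset.mem_union_right _ ?_
    simp only [CXr, Finset.mem_union, Finset.mem_product, Finset.mem_Ico]
    omega
  · rintro ⟨x, y⟩ hz h1 h2 h3 h4
    rcases Finset.mem_union.1 hz with hz | hz
    · exact h.avo _ hz h1 h2 h3 h4
    · rw [e] at h1 h2
      simp only [CXr, Finset.mem_union, Finset.mem_product, Finset.mem_Ico] at hz h1 h2 h3 h4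
      omega
  · exact Finset.mem_union_left _ h.cl1
  · exact Finset.mem_union_left _ h.cl2
  · intro r hr
    have q1 : ((0:ℤ), -(B1:ℤ)) ∈ Q := by
      have := h.mou 0 (by simp) (by simp)
      simpa using this
    have q2 : ((0:ℤ), -(B1:ℤ)) ∈ CXr B1 (g2 + 2 * k') (g1 + B) := by
      simp only [CXr, Finset.mem_union, Finset.mem_product, Finset.mem_Ico]
      omega
    have q3 : ConQ r (CXr B1 (g2 + 2 * k') (g1 + B)) := by
      refine ConQ.union (ConQ.rect hr _ _ _ _) (ConQ.rect hr _ _ _ _) (0, g2 + 2 * k') ?_ ?_ <;>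
      simp only [Finset.mem_union, Finset.mem_product, Finset.mem_Ico] <;> omega
    exact ConQ.union (h.con r hr) q3 _ q1 q2

theorem CX_l (hP : (L:ℤ) * M2 = P) (hP2 : 2 * (M2:ℤ) ≤ P) (hM : 64 ≤ M2)
    (hB1 : (B1:ℤ) = 4 * P) (h1 : 4096 * (B1:ℤ) ≤ P2) (h2 : 64 * P2 ≤ B)
    (hk : |2 * k| + 2 * P2 ≤ B) (hk' : |2 * k'| + 2 * P2 ≤ B) (hγ1 : γ.1 = -(2 * k))
    (hγ2 : γ.2 + B = B1 + 8) (h : Cor L M2 B1 1 σ k1 false Q) :
    CorX L M2 B γ Dir.lf k' σ k1 (Q ∪ CXl B1 (γ.2 + 2 * k') (γ.1 - B)) := by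
  have e : (2 * L * M2 : ℤ) = 2 * P := by rw [← hP]; ring
  have hk1 : 2 * k ≤ |2 * k| := le_abs_self _
  have hk2 : -(2 * k) ≤ |2 * k| := neg_le_abs _
  have hk3 : 2 * k' ≤ |2 * k'| := le_abs_self _
  have hk4 : -(2 * k') ≤ |2 * k'| := neg_le_abs _
  have hM' : (64:ℤ) ≤ M2 := by exact_mod_cast hM
  obtain ⟨g1, g2⟩ := γ
  simp only at hγ1 hγ2
  refine ⟨?_, ?_, ?_, ?_, ?_, ?_, ?_⟩
  · rintro ⟨x, y⟩ hz
    rcases Finset.mem_union.1 hz with hz | hz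
    · have := h.inx _ hz
      simp only at this ⊢
      omega
    · simp only [CXl, Finset.mem_union, Finset.mem_product, Finset.mem_Ico] at hz ⊢
      omega
  · rintro ⟨x, y⟩ hz hb
    simp only [inSq, Finset.mem_insert, Finset.mem_singleton, Prod.mk.injEq]
    rcases Finset.mem_union.1 hz with hz | hz
    · have := h.inx _ hz
      simp only at this hb ⊢
      omega
    · simp only [CXl, Finset.mem_union, Finset.mem_product, Finset.mem_Ico] at hz hb ⊢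
      omega
  · rintro ⟨x, y⟩ hz
    simp only [inSq, Finset.mem_insert, Finset.mem_singleton, Prod.mk.injEq] at hz
    refine Finset.mem_union_right _ ?_
    simp only [CXl, Finset.mem_union, Finset.mem_product, Finset.mem_Ico]
    omega
  · rintro ⟨x, y⟩ hz h1 h2 h3 h4
    rcases Finset.mem_union.1 hz with hz | hz
    · exact h.avo _ hz h1 h2 h3 h4
    · rw [e] at h1 h2
      simp only [CXl, Finset.mem_union, Finset.mem_product, Finset.mem_Ico] at hz h1 h2 h3 h4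
      omega
  · exact Finset.mem_union_left _ h.cl1
  · exact Finset.mem_union_left _ h.cl2
  · intro r hr
    have q1 : ((0:ℤ), -(B1:ℤ)) ∈ Q := by
      have := h.mou 0 (by simp) (by simp)
      simpa using this
    have q2 : ((0:ℤ), -(B1:ℤ)) ∈ CXl B1 (g2 + 2 * k') (g1 - B) := by
      simp only [CXl, Finset.mem_union, Finset.mem_product, Finset.mem_Ico]
      omega
    have q3 : ConQ r (CXl B1 (g2 + 2 * k') (g1 - B)) := by
      refine ConQ.union (ConQ.rect hr _ _ _ _) (ConQ.rect hr _ _ _ _) (0, g2 + 2 * k') ?_ ?_ <;>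
      simp only [Finset.mem_union, Finset.mem_product, Finset.mem_Ico] <;> omega
    exact ConQ.union (h.con r hr) q3 _ q1 q2

theorem CX_d (hP : (L:ℤ) * M2 = P) (hP2 : 2 * (M2:ℤ) ≤ P) (hM : 64 ≤ M2)
    (hB1 : (B1:ℤ) = 4 * P) (h1 : 4096 * (B1:ℤ) ≤ P2) (h2 : 64 * P2 ≤ B)
    (hk : |2 * k| + 2 * P2 ≤ B) (hk' : |2 * k'| + 2 * P2 ≤ B) (hγ1 : γ.1 = -(2 * k))
    (hγ2 : γ.2 + B = B1 + 8) (h : Cor L M2 B1 1 σ k1 false Q) :
    CorX L M2 B γ Dir.dn k' σ k1 (Q ∪ CXd B1 (2 * k' - 2 * k) (γ.2 - B)) := by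
  have e : (2 * L * M2 : ℤ) = 2 * P := by rw [← hP]; ring
  have hk1 : 2 * k ≤ |2 * k| := le_abs_self _
  have hk2 : -(2 * k) ≤ |2 * k| := neg_le_abs _
  have hk3 : 2 * k' ≤ |2 * k'| := le_abs_self _
  have hk4 : -(2 * k') ≤ |2 * k'| := neg_le_abs _
  have hM' : (64:ℤ) ≤ M2 := by exact_mod_cast hM
  obtain ⟨g1, g2⟩ := γ
  simp only at hγ1 hγ2
  refine ⟨?_, ?_, ?_, ?_, ?_, ?_, ?_⟩
  · rintro ⟨x, y⟩ hz
    rcases Finset.mem_union.1 hz with hz | hz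
    · have := h.inx _ hz
      simp only at this ⊢
      omega
    · simp only [CXd, Finset.mem_union, Finset.mem_product, Finset.mem_Ico] at hz ⊢
      omega
  · rintro ⟨x, y⟩ hz hb
    simp only [inSq, Finset.mem_insert, Finset.mem_singleton, Prod.mk.injEq]
    rcases Finset.mem_union.1 hz with hz | hz
    · have := h.inx _ hz
      simp only at this hb ⊢
      omega
    · simp only [CXd, Finset.mem_union, Finset.mem_product, Finset.mem_Ico] at hz hb ⊢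
      omega
  · rintro ⟨x, y⟩ hz
    simp only [inSq, Finset.mem_insert, Finset.mem_singleton, Prod.mk.injEq] at hz
    refine Finset.mem_union_right _ ?_
    simp only [CXd, Finset.mem_union, Finset.mem_product, Finset.mem_Ico]
    omega
  · rintro ⟨x, y⟩ hz h1 h2 h3 h4
    rcases Finset.mem_union.1 hz with hz | hz
    · exact h.avo _ hz h1 h2 h3 h4
    · rw [e] at h1 h2
      simp only [CXd, Finset.mem_union, Finset.mem_product, Finset.mem_Ico] at hz h1 h2 h3 h4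
      omega
  · exact Finset.mem_union_left _ h.cl1
  · exact Finset.mem_union_left _ h.cl2
  · intro r hr
    have q1 : ((0:ℤ), -(B1:ℤ)) ∈ Q := by
      have := h.mou 0 (by simp) (by simp)
      simpa using this
    have q2 : ((0:ℤ), -(B1:ℤ)) ∈ CXd B1 (2 * k' - 2 * k) (g2 - B) := by
      simp only [CXd, Finset.mem_union, Finset.mem_product, Finset.mem_Ico]
      omega
    have q3 : ConQ r (CXd B1 (2 * k' - 2 * k) (g2 - B)) := by
      refine ConQ.union (ConQ.union (ConQ.rect hr _ _ _ _) (ConQ.rect hr _ _ _ _) (0, g2 - B + 2) ?_ ?_)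
        (ConQ.rect hr _ _ _ _) (2 * k' - 2 * k, g2 - B + 2) ?_ ?_ <;>
      simp only [Finset.mem_union, Finset.mem_product, Finset.mem_Ico] <;> omega
    exact ConQ.union (h.con r hr) q3 _ q1 q2

/-- Separation of the two corridors from the separation of the inner parts. -/
theorem CX_sep {σ2 : Bool} {k2 : ℤ} {Q1 Q3 O : Finset (ℤ × ℤ)} (hB1 : 64 ≤ B1)
    (h : SepQ Q1 Q3) (h1 : Cor L M2 B1 1 σ k1 false Q1) (h3 : Cor L M2 B1 1 σ2 k2 true Q3)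
    (hO : ∀ z ∈ O, z.2 ≤ -(B1:ℤ) - 1 ∨ (z.2 = -(B1:ℤ) ∧ (z.1 = -1 ∨ z.1 = 0)) ∨
      z.1 ≤ -(B1:ℤ) - 2 ∨ (B1:ℤ) + 1 ≤ z.1) :
    SepQ (Q3 ∪ CXt B1) (Q1 ∪ O) := by
  have hB1' : (64:ℤ) ≤ B1 := by exact_mod_cast hB1
  have e3 : ∀ z ∈ Q3, z.2 ≠ -(B1:ℤ) := by
    intro z hz hh
    have := (h3.bot z hz hh).1
    simp at this
  have e1 : ∀ z ∈ Q1, z.2 + 1 ≠ (B1:ℤ) := by
    intro z hz hh
    have := (h1.top z hz hh).1
    simp at this
  have m1 : ∀ z : ℤ × ℤ, z.2 = -(B1:ℤ) → (z.1 = -1 ∨ z.1 = 0) → z ∈ Q1 := by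
    rintro ⟨x, y⟩ hy hx
    simp only at hy hx
    have := h1.mou x (by push_cast; omega) (by push_cast; omega)
    simpa [hy] using this
  have m3 : ∀ z : ℤ × ℤ, z.2 = (B1:ℤ) - 1 → (z.1 = -1 ∨ z.1 = 0) → z ∈ Q3 := by
    rintro ⟨x, y⟩ hy hx
    simp only at hy hx
    have := h3.mou x (by push_cast; omega) (by push_cast; omega)
    simpa [hy] using this
  intro z' hz' z hz hh
  have hh' : |z.1 - z'.1| ≤ 1 ∧ |z.2 - z'.2| ≤ 1 := by
    rw [abs_sub_comm, abs_sub_comm z.2]; exact hh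
  have a1 := abs_le.1 hh'.1
  have a2 := abs_le.1 hh'.2
  rcases Finset.mem_union.1 hz' with hz' | hz' <;> rcases Finset.mem_union.1 hz with hz | hz
  · exact h z hz z' hz' hh'
  · have b1 := h3.inx z' hz'
    have b2 := e3 z' hz'
    rcases hO z hz with c | c | c
    · omega
    · exact h z (m1 z c.1 c.2) z' hz' hh'
    · omega
  · have b1 := h1.inx z hz
    have b2 := e1 z hz
    simp only [CXt, Finset.mem_product, Finset.mem_Ico] at hz'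
    by_cases c : z'.2 = (B1:ℤ) - 1
    · exact h z hz z' (m3 z' c (by omega)) hh'
    · omega
  · simp only [CXt, Finset.mem_product, Finset.mem_Ico] at hz'
    rcases hO z hz with c | c | c <;> omega

theorem CX_out_u {x : ℤ} (hx : 64 * (B1:ℤ) < |x|) (hB1 : 64 ≤ B1) :
    ∀ z ∈ CXu B1 x, z.2 ≤ -(B1:ℤ) - 1 ∨ (z.2 = -(B1:ℤ) ∧ (z.1 = -1 ∨ z.1 = 0)) ∨
      z.1 ≤ -(B1:ℤ) - 2 ∨ (B1:ℤ) + 1 ≤ z.1 := by
  rintro ⟨z1, z2⟩ hz
  rw [lt_abs] at hx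
  simp only [CXu, Finset.mem_union, Finset.mem_product, Finset.mem_Ico] at hz ⊢
  omega

theorem CX_out_r {y R : ℤ} (hy : y ≤ -(B1:ℤ) - 2) :
    ∀ z ∈ CXr B1 y R, z.2 ≤ -(B1:ℤ) - 1 ∨ (z.2 = -(B1:ℤ) ∧ (z.1 = -1 ∨ z.1 = 0)) ∨
      z.1 ≤ -(B1:ℤ) - 2 ∨ (B1:ℤ) + 1 ≤ z.1 := by
  rintro ⟨z1, z2⟩ hz
  simp only [CXr, Finset.mem_union, Finset.mem_product, Finset.mem_Ico] at hz ⊢
  omega

theorem CX_out_l {y R : ℤ} (hy : y ≤ -(B1:ℤ) - 2) :
    ∀ z ∈ CXl B1 y R, z.2 ≤ -(B1:ℤ) - 1 ∨ (z.2 = -(B1:ℤ) ∧ (z.1 = -1 ∨ z.1 = 0)) ∨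
      z.1 ≤ -(B1:ℤ) - 2 ∨ (B1:ℤ) + 1 ≤ z.1 := by
  rintro ⟨z1, z2⟩ hz
  simp only [CXl, Finset.mem_union, Finset.mem_product, Finset.mem_Ico] at hz ⊢
  omega

theorem CX_out_d {x R : ℤ} (hR : R ≤ -(B1:ℤ) - 8) :
    ∀ z ∈ CXd B1 x R, z.2 ≤ -(B1:ℤ) - 1 ∨ (z.2 = -(B1:ℤ) ∧ (z.1 = -1 ∨ z.1 = 0)) ∨
      z.1 ≤ -(B1:ℤ) - 2 ∨ (B1:ℤ) + 1 ≤ z.1 := by
  rintro ⟨z1, z2⟩ hz
  simp only [CXd, Finset.mem_union, Finset.mem_product, Finset.mem_Ico] at hz ⊢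
  omega

end

/-- Coordinates: the thin box is at the origin, the cell `k` of the top side of the block is just
above it. -/
theorem corx_exists {L M2 B P1 P2 : ℕ} (hL : 2 ≤ L) (hM : 64 ≤ M2) (hP1 : 64 * (4 * L * M2) ≤ P1)
    (hP2 : 64 * P1 ≤ P2) (hB : 64 * P2 ≤ B) {k : ℤ} {d' : Dir} {k' : ℤ}
    (hk : |2 * k| + 2 * P2 ≤ B) (hk' : |2 * k'| + 2 * P2 ≤ B)
    (hsep : d' = Dir.up → (P1:ℤ) < |2 * k - 2 * k'|) {γ : ℤ × ℤ} (hγ1 : γ.1 = -(2 * k))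
    (hγ2 : γ.2 + B = 4 * L * M2 + 8) {σ1 σ2 : Bool} {k1 k2 : ℤ} (h1 : |2 * k1| ≤ L * M2 + 1)
    (h2 : |2 * k2| ≤ L * M2 + 1) (hs : σ1 = σ2 → 4 ≤ |k1 - k2|) :
    ∃ Q1 Q3 : Finset (ℤ × ℤ), SepQ Q1 Q3 ∧
      ((CorX L M2 B γ Dir.up k σ1 k1 Q1 ∧ CorX L M2 B γ d' k' σ2 k2 Q3) ∨
        (CorX L M2 B γ Dir.up k σ2 k2 Q1 ∧ CorX L M2 B γ d' k' σ1 k1 Q3)) := by
  obtain ⟨P, hP⟩ : ∃ P : ℤ, (L:ℤ) * M2 = P := ⟨_, rfl⟩
  have hL' : (2:ℤ) ≤ L := by exact_mod_cast hL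
  have hM' : (64:ℤ) ≤ M2 := by exact_mod_cast hM
  have hPM : 2 * (M2:ℤ) ≤ P := by rw [← hP]; exact mul_le_mul_of_nonneg_right hL' (by omega)
  obtain ⟨B1, hB1⟩ : ∃ B1 : ℕ, B1 = 4 * L * M2 := ⟨_, rfl⟩
  have hB1' : (B1:ℤ) = 4 * P := by rw [hB1, ← hP]; push_cast; ring
  have hB64 : 64 ≤ B1 := by omega
  have g2 : γ.2 + B = B1 + 8 := by rw [hγ2, hB1]; push_cast; ring
  have hP1' : 64 * (B1:ℤ) ≤ P1 := by
    rw [← hB1] at hP1; exact_mod_cast hP1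
  have hP2' : 64 * (P1:ℤ) ≤ P2 := by exact_mod_cast hP2
  have hB' : 64 * (P2:ℤ) ≤ B := by exact_mod_cast hB
  have hbig : 4096 * (B1:ℤ) ≤ P2 := by omega
  have a3 : 2 * k' ≤ |2 * k'| := le_abs_self _
  have a4 : -(2 * k') ≤ |2 * k'| := neg_le_abs _
  obtain ⟨Q1, Q3, hS, hc⟩ := cor_existsW (W := 1) hL hM hB1 le_rfl (by omega) h1 h2 hs
  -- the outer part of the second corridor
  have main : ∃ O : Finset (ℤ × ℤ),
      (∀ z ∈ O, z.2 ≤ -(B1:ℤ) - 1 ∨ (z.2 = -(B1:ℤ) ∧ (z.1 = -1 ∨ z.1 = 0)) ∨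
        z.1 ≤ -(B1:ℤ) - 2 ∨ (B1:ℤ) + 1 ≤ z.1) ∧
      ∀ (σ : Bool) (j : ℤ), Cor L M2 B1 1 σ j false Q1 → CorX L M2 B γ d' k' σ j (Q1 ∪ O) := by
    cases d' with
    | up =>
      have hd := hsep rfl
      refine ⟨CXu B1 (2 * k' - 2 * k), CX_out_u ?_ hB64, fun σ j h =>
        CX_u hP hPM hM hB1' hbig hB' hk hk' hγ1 g2 (by omega) h⟩
      rw [abs_sub_comm]; omega
    | dn =>
      exact ⟨CXd B1 (2 * k' - 2 * k) (γ.2 - B), CX_out_d (by omega), fun σ j h =>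
        CX_d hP hPM hM hB1' hbig hB' hk hk' hγ1 g2 h⟩
    | rt =>
      exact ⟨CXr B1 (γ.2 + 2 * k') (γ.1 + B), CX_out_r (by omega), fun σ j h =>
        CX_r hP hPM hM hB1' hbig hB' hk hk' hγ1 g2 h⟩
    | lf =>
      exact ⟨CXl B1 (γ.2 + 2 * k') (γ.1 - B), CX_out_l (by omega), fun σ j h =>
        CX_l hP hPM hM hB1' hbig hB' hk hk' hγ1 g2 h⟩
  obtain ⟨O, hO, hcx⟩ := main
  refine ⟨Q3 ∪ CXt B1, Q1 ∪ O, ?_, ?_⟩
  · rcases hc with ⟨c1, c3⟩ | ⟨c1, c3⟩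
    · exact CX_sep hB64 hS c1 c3 hO
    · exact CX_sep hB64 hS c1 c3 hO
  · rcases hc with ⟨c1, c3⟩ | ⟨c1, c3⟩
    · exact Or.inr ⟨CX_top hP hPM hM hB1' hbig hB' hk hγ1 g2 c3, hcx _ _ c1⟩
    · exact Or.inl ⟨CX_top hP hPM hM hB1' hbig hB' hk hγ1 g2 c3, hcx _ _ c1⟩

end H12S
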