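import Pool.Agent.H974R2.FourArm

/-!
PART III (arm separation and Kesten scaling), common definitions.
Bond percolation on `ℤ²` with the conventions of `Pool.Agent.H974R2`:
`Edg = ℤ × ℤ × Bool`, `Reach F u v` (open paths), `DReach H f g` (dual paths through the edges
of `H`), `Pr p S A` (probability for a random subset of the finite set `S`).
-/

namespace H12S

open H974 Finset

/-- Homogeneous measure. -/
noncomputable abbrev PQ (q : ℝ) (S : Finset Edg) (A : Finset Edg → Prop) : ℝ :=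
  Pr (fun _ => q) S A

/-- The RSW window: both colours cross `16h × h` rectangles for all `h ≤ n`. -/
structure Win (q κ : ℝ) (n : ℕ) : Prop where
  kpos : 0 < κ
  kle : κ ≤ 1 / 2
  lo : 1 / 4 ≤ q
  hi : q ≤ 3 / 4
  pri : ∀ h : ℕ, 1 ≤ h → h ≤ n → κ ≤ hh q (16 * h) h
  dua : ∀ h : ℕ, 1 ≤ h → h ≤ n → κ ≤ hh (1 - q) (16 * h) h

theorem Win.symm {q κ : ℝ} {n : ℕ} (h : Win q κ n) : Win (1 - q) κ n := by
  refine ⟨h.kpos, h.kle, by linarith [h.hi], by linarith [h.lo], h.dua, ?_⟩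
  intro k h1 h2
  have := h.pri k h1 h2
  rwa [show (1:ℝ) - (1 - q) = q by ring]

theorem Win.anti {q κ : ℝ} {n m : ℕ} (h : Win q κ n) (hm : m ≤ n) : Win q κ m :=
  ⟨h.kpos, h.kle, h.lo, h.hi, fun k h1 h2 => h.pri k h1 (h2.trans hm),
    fun k h1 h2 => h.dua k h1 (h2.trans hm)⟩

/-- An open path from the box of radius `ρ` around `(c1,c2)` to distance `R`. -/
def Crs (c1 c2 : ℤ) (ρ R : ℕ) (F : Set Edg) : Prop :=
  ∃ x y : Vtx, inR (c1 - ρ) (c1 + ρ) (c2 - ρ) (c2 + ρ) x ∧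
    (y.1 ≤ c1 - R ∨ c1 + R ≤ y.1 ∨ y.2 ≤ c2 - R ∨ c2 + R ≤ y.2) ∧ Reach F x y

/-- A dual path (through the edges of `H`) from the faces of the box of radius `ρ` around
`(c1,c2)` to distance `R`. -/
def DCrs (c1 c2 : ℤ) (ρ R : ℕ) (H : Set Edg) : Prop :=
  ∃ x y : Vtx, inR (c1 - ρ) (c1 + ρ) (c2 - ρ) (c2 + ρ) x ∧
    (y.1 ≤ c1 - R ∨ c1 + R ≤ y.1 ∨ y.2 ≤ c2 - R ∨ c2 + R ≤ y.2) ∧ DReach H x y

/-- Two vertices of `I` which are not connected in `F ∩ S` are both connected to `B` in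
`F ∩ S`. -/
def H3g (S : Finset Edg) (I B : Set Vtx) (F : Set Edg) : Prop :=
  ∃ v ∈ I, ∃ v' ∈ I, (∃ b ∈ B, Reach (F ∩ ↑S) v b) ∧ (∃ b ∈ B, Reach (F ∩ ↑S) v' b) ∧
    ¬ Reach (F ∩ ↑S) v v'

/-- Horizontal segment of half-length `r`. -/
def segH (x0 y0 : ℤ) (r : ℕ) : Set Vtx := {v | v.2 = y0 ∧ x0 - r ≤ v.1 ∧ v.1 ≤ x0 + r}

/-- The half ball above the line `y = y0`. -/
noncomputable def hbU (x0 y0 : ℤ) (ρ : ℕ) : Finset Edg := RE (x0 - ρ) (x0 + ρ) y0 (y0 + ρ)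

/-- The vertices of the half ball at distance `ρ` of `(x0,y0)`. -/
def rimU (x0 y0 : ℤ) (ρ : ℕ) : Set Vtx :=
  {v | inR (x0 - ρ) (x0 + ρ) y0 (y0 + ρ) v ∧ (v.1 = x0 - ρ ∨ v.1 = x0 + ρ ∨ v.2 = y0 + ρ)}

/-- Two distinct clusters of the upper half ball of radius `ρ` around `(x0,y0)` start from the
boundary segment of half-length `r` and reach distance `ρ`. -/
def H3 (x0 y0 : ℤ) (r ρ : ℕ) (F : Set Edg) : Prop :=
  H3g (hbU x0 y0 ρ) (segH x0 y0 r) (rimU x0 y0 ρ) F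

/-- Some vertex of `I` is connected to some vertex of `J`. -/
def Cn (I J : Set Vtx) (F : Set Edg) : Prop := ∃ u ∈ I, ∃ v ∈ J, Reach F u v

/-- `e` is pivotal for the connection of `I` and `J`. -/
def Pv (I J : Set Vtx) (e : Edg) (F : Set Edg) : Prop :=
  Cn I J (insert e F) ∧ ¬ Cn I J (F \ {e})

/-- Four arms from `e` to the boundary of the box `[a,b] × [c,d]`. -/
def A4 (a b c d : ℤ) (e : Edg) (F : Set Edg) : Prop :=
  (∃ w ∈ bdR a b c d, Reach ((F ∩ ↑(RE a b c d)) \ {e}) (src e) w) ∧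
    (∃ w ∈ bdR a b c d, Reach ((F ∩ ↑(RE a b c d)) \ {e}) (tgt e) w) ∧
    ¬ Reach ((F ∩ ↑(RE a b c d)) \ {e}) (src e) (tgt e)

/-- The two edges at the origin. -/
def e0 (b : Bool) : Edg := (0, 0, b)

/-- The four-arm probability in the box of radius `m` around the origin. -/
noncomputable def a4 (q : ℝ) (m : ℕ) : ℝ :=
  PQ q (boxE m) (fun F => A4 (-m) m (-m) m (e0 true) ↑F) +
    PQ q (boxE m) (fun F => A4 (-m) m (-m) m (e0 false) ↑F)

end H12S
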