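import Pool.Agent.H12R2.Sep.Exit
import Pool.Agent.H12R2.Sep.BlkSum

/-! Definitions for the second batch: thin boxes, sums of pivotal probabilities. -/

namespace H12S

open H974 Finset

/-- The thin box `[-2Lm, 2Lm] × [-m, m]`. -/
noncomputable def SR (L m : ℕ) : Finset Edg := RE (-(2 * L * m : ℕ)) (2 * L * m : ℕ) (-m) m

/-- `T_Q(i,j) = Σ_{e in the middle} P(Q_ij(e))` (small cells: centres `2 r k`, half-length `r`). -/
noncomputable def TQ (q : ℝ) (L m r ρ : ℕ) (σ : Bool) (k : ℤ) (σ' : Bool) (k' : ℤ) : ℝ :=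
  ∑ e ∈ boxE (m / 4), PQ q (SR L m)
    (fun F => Qev m r ρ σ (2 * r * k) σ' (2 * r * k') e ↑F)

/-- `T(i,j) = Σ_{e in the middle} P(e is pivotal for cell i ↔ cell j in the thin box)`. -/
noncomputable def TP (q : ℝ) (L m r : ℕ) (σ : Bool) (k : ℤ) (σ' : Bool) (k' : ℤ) : ℝ :=
  ∑ e ∈ boxE (m / 4), PQ q (SR L m)
    (fun F => Pv (cell σ m (2 * r * k) r) (cell σ' m (2 * r * k') r) e ↑F)

/-- Flipping `e'` changes the pivotality of `e`. -/
def Flip (I J : Set Vtx) (e e' : Edg) (G : Set Edg) : Prop :=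
  ¬ (Pv I J e (insert e' G) ↔ Pv I J e (G \ {e'}))

/-- Upper bounds on the four-arm probabilities up to scale `n`. -/
def A4le (q A ε : ℝ) (n : ℕ) : Prop := ∀ k : ℕ, k ≤ n → a4 q k ≤ A * ((k:ℝ) + 1) ^ (-(5/4 : ℝ) + ε)

/-- sup-distance of the sources of two edges. -/
def edist (e e' : Edg) : ℤ := max |e.1 - e'.1| |e.2.1 - e'.2.1|

end H12S
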