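import Pool.Agent.H12R2.Sep.Defs2

/-! Definitions for the third batch: separated landing (`Sev`). -/

namespace H12S

open H974 Finset

/-- `Qev`, and moreover the clusters of the two cells land at distance `> ρ` from each other on
the sides of the strip, and stay away from the vertical ends of the thin box. -/
def Sev (L m r ρ : ℕ) (σ : Bool) (x : ℤ) (σ' : Bool) (x' : ℤ) (e : Edg) (F : Set Edg) : Prop :=
  Qev m r ρ σ x σ' x' e F ∧
    (∀ u ∈ cell σ m x r, ∀ u' ∈ cell σ' m x' r, ∀ v v' : Vtx, Reach (F \ {e}) u v →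
      Reach (F \ {e}) u' v' → |v.2| = m → v'.2 = v.2 → (ρ:ℤ) < |v.1 - v'.1|) ∧
    (∀ u ∈ cell σ m x r ∪ cell σ' m x' r, ∀ v : Vtx, Reach (F \ {e}) u v →
      |v.1| ≤ (L * m : ℕ) + 2 * ρ)

/-- `T_S(i,j) = Σ_{e in the middle} P(Sev_ij(e))`. -/
noncomputable def TS (q : ℝ) (L m r ρ : ℕ) (σ : Bool) (k : ℤ) (σ' : Bool) (k' : ℤ) : ℝ :=
  ∑ e ∈ boxE (m / 4), PQ q (SR L m)
    (fun F => Sev L m r ρ σ (2 * r * k) σ' (2 * r * k') e ↑F)

end H12S
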