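import Pool.Agent.H12R2.Sep.Unforce

/-!
UF2 (helper862): more general forms of the gluing lemma.
`unforceG`: the condition that the forced open edges are attached to the clusters of `I` or `J`
is part of the event, and the connection is recorded with a smaller set `O'` of forced edges.
`unforce2`: the special case `O' = O`.
-/

namespace H12S

open H974 Finset

section Unforce2
variable {E V : Type*} [DecidableEq E]

/-- points reached with fewer open edges are determined by the explored edges -/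
theorem uf2_cl_sub {s t : E → V} {S0 : Finset E} {O O' : Set E} (hOO : O' ⊆ O) {A : Set V} {e : E}
    {F F' K : Finset E}
    (hK : ∀ g ∈ S0, (s g ∈ Cl s t A ((↑(F ∩ S0) ∪ O) \ {e}) ∨
      t g ∈ Cl s t A ((↑(F ∩ S0) ∪ O) \ {e})) → g ∈ K)
    (hF : F ∩ K = F' ∩ K) {x : V} (hx : x ∈ Cl s t A ((↑(F ∩ S0) ∪ O') \ {e})) :
    x ∈ Cl s t A ((↑(F' ∩ S0) ∪ O') \ {e}) := by
  have hsub : ((↑(F ∩ S0) ∪ O') \ {e} : Set E) ⊆ (↑(F ∩ S0) ∪ O) \ {e} :=
    Set.sdiff_subset_sdiff_left (Set.union_subset_union_right _ hOO)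
  have hend : ∀ (g : E) (x y : V), ((s g = x ∧ t g = y) ∨ (s g = y ∧ t g = x)) →
      x ∈ Cl s t A ((↑(F ∩ S0) ∪ O) \ {e}) → (s g ∈ Cl s t A ((↑(F ∩ S0) ∪ O) \ {e}) ∨
        t g ∈ Cl s t A ((↑(F ∩ S0) ∪ O) \ {e})) := by
    rintro g x y (⟨h1, h2⟩ | ⟨h1, h2⟩) hx
    · left; rw [h1]; exact hx
    · right; rw [h2]; exact hx
  obtain ⟨u, hu, hux⟩ := hx
  have key : x ∈ Cl s t A ((↑(F ∩ S0) ∪ O) \ {e}) ∧ x ∈ Cl s t A ((↑(F' ∩ S0) ∪ O') \ {e}) := by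
    induction hux with
    | refl => exact ⟨uf_cl_self hu, uf_cl_self hu⟩
    | @tail y z _ hs ih =>
      have hs' : GAdj s t ((↑(F ∩ S0) ∪ O) \ {e}) y z := by
        obtain ⟨g, hg, hcase⟩ := hs
        exact ⟨g, hsub hg, hcase⟩
      refine ⟨uf_cl_step ih.1 hs', ?_⟩
      obtain ⟨g, ⟨hg, hge⟩, hcase⟩ := hs
      refine uf_cl_step ih.2 ⟨g, ⟨?_, hge⟩, hcase⟩
      rcases hg with hg | hg
      · left
        rw [Finset.coe_inter] at hg ⊢
        refine ⟨?_, hg.2⟩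
        have h1 : g ∈ K := hK g hg.2 (hend g _ _ hcase ih.1)
        have h2 : g ∈ F ∩ K := Finset.mem_inter.2 ⟨hg.1, h1⟩
        rw [hF] at h2
        exact (Finset.mem_inter.1 h2).1
      · exact Or.inr hg
  exact key.2

omit [DecidableEq E] in
theorem uf2_cn {s t : E → V} {I J : Set V} {e : E} {G : Set E}
    (hno : ¬ CnG s t I J (G \ {e})) : CnG s t I J (insert e G) ↔
      ((s e ∈ Cl s t I (G \ {e}) ∧ t e ∈ Cl s t J (G \ {e})) ∨
        (t e ∈ Cl s t I (G \ {e}) ∧ s e ∈ Cl s t J (G \ {e}))) := by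
  have hins : insert e G = insert e (G \ {e}) := by rw [Set.insert_sdiff_singleton]
  constructor
  · rintro ⟨u, hu, v, hv, huv⟩
    rw [hins] at huv
    rcases GR_insert.mp huv with h | ⟨h3, h4⟩ | ⟨h3, h4⟩
    · exact absurd ⟨u, hu, v, hv, h⟩ hno
    · exact Or.inl ⟨⟨u, hu, h3⟩, ⟨v, hv, h4.symm⟩⟩
    · exact Or.inr ⟨⟨u, hu, h3⟩, ⟨v, hv, h4.symm⟩⟩
  · intro h
    rw [CnG, hins]
    rcases h with ⟨⟨u, hu, h3⟩, ⟨v, hv, h4⟩⟩ | ⟨⟨u, hu, h3⟩, ⟨v, hv, h4⟩⟩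
    · exact ⟨u, hu, v, hv, GR_insert.mpr (Or.inr (Or.inl ⟨h3, h4.symm⟩))⟩
    · exact ⟨u, hu, v, hv, GR_insert.mpr (Or.inr (Or.inr ⟨h3, h4.symm⟩))⟩

omit [DecidableEq E] in
theorem uf2_cn_mono {s t : E → V} {I J : Set V} {F G : Set E} (h : F ⊆ G)
    (hF : CnG s t I J F) : CnG s t I J G := by
  obtain ⟨u, hu, v, hv, huv⟩ := hF
  exact ⟨u, hu, v, hv, huv.mono h⟩

/-- the deterministic part -/
theorem uf2_det (s t : E → V) {S0 D : Finset E} {O : Set E} {I J : Set V}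
    {e : E} (heO : e ∉ O) {F : Finset E}
    (hO2 : ∀ g ∈ O, s g ∈ Cl s t I ((↑(F ∩ S0) ∪ O) \ {e}) ∨
      s g ∈ Cl s t J ((↑(F ∩ S0) ∪ O) \ {e}))
    (hSD : Disjoint S0 D) (Near : V → V → Prop) (hF : F ⊆ S0 ∪ D)
    (h1 : ¬ CnG s t I J ((↑(F ∩ S0) ∪ O) \ {e})) (h2 : NFar s t I J e ↑D Near (↑(F ∩ S0) ∪ O))
    (h3 : TrapG s t ↑D Near ↑(F \ ufK s t S0 O I J e F)) :
    ¬ CnG s t I J ((↑F ∪ O) \ {e}) := by
  have hno : ∀ v ∈ Cl s t I ((↑(F ∩ S0) ∪ O) \ {e}), v ∉ J := by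
    rintro v ⟨u, hu, huv⟩ hv
    exact h1 ⟨u, hu, v, hv, huv⟩
  set G0 : Set E := (↑(F ∩ S0) ∪ O) \ {e} with hG0
  set K := ufK s t S0 O I J e F with hKdef
  rintro ⟨u, hu, v, hv, huv⟩
  -- disjointness of the clusters
  have hdis : ∀ x, x ∈ Cl s t I G0 → x ∈ Cl s t J G0 → False := by
    rintro x hx ⟨w, hw, hwx⟩
    exact hno w (uf_cl_gr hx hwx.symm) hw
  -- open edges
  have hOend : ∀ g ∈ O, ∀ x y, ((s g = x ∧ t g = y) ∨ (s g = y ∧ t g = x)) →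
      x ∈ Cl s t I G0 ∨ x ∈ Cl s t J G0 := by
    intro g hg x y hcase
    have hOG : O ⊆ G0 := fun a ha => ⟨Or.inr ha, fun hae => heO (hae ▸ ha)⟩
    have hadj : GAdj s t G0 (s g) (t g) := ⟨g, hOG hg, Or.inl ⟨rfl, rfl⟩⟩
    rcases hO2 g hg with h4 | h4
    · rcases hcase with ⟨h5, _⟩ | ⟨_, h5⟩
      · left; rw [← h5]; exact h4
      · left; rw [← h5]; exact uf_cl_step h4 hadj
    · rcases hcase with ⟨h5, _⟩ | ⟨_, h5⟩
      · right; rw [← h5]; exact h4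
      · right; rw [← h5]; exact uf_cl_step h4 hadj
  have hVD : ∀ g ∈ D, ∀ x y, ((s g = x ∧ t g = y) ∨ (s g = y ∧ t g = x)) →
      x ∈ VD s t (↑D : Set E) ∧ y ∈ VD s t (↑D : Set E) := by
    rintro g hg x y (⟨h5, h6⟩ | ⟨h5, h6⟩)
    · exact ⟨⟨g, hg, Or.inl h5⟩, ⟨g, hg, Or.inr h6⟩⟩
    · exact ⟨⟨g, hg, Or.inr h6⟩, ⟨g, hg, Or.inl h5⟩⟩
  have hKS : ∀ g ∈ D, g ∉ K := by
    intro g hg hgK
    exact Finset.disjoint_left.1 hSD (uf_mem_K.1 hgK).1 hg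
  -- the invariant
  have key : v ∈ Cl s t I G0 ∨ (v ∉ Cl s t I G0 ∧ v ∉ Cl s t J G0 ∧
      ∃ v₁ ∈ Cl s t I G0, v₁ ∈ VD s t (↑D : Set E) ∧ GR s t (↑(F \ K) : Set E) v₁ v) := by
    clear hv
    induction huv with
    | refl => exact Or.inl (uf_cl_self hu)
    | @tail x y _ hs ih =>
      obtain ⟨g, ⟨hg, hge⟩, hcase⟩ := hs
      by_cases hyI : y ∈ Cl s t I G0
      · exact Or.inl hyI
      -- is the edge in `G0`?
      by_cases hgG : g ∈ G0
      · have hadj : GAdj s t G0 x y := ⟨g, hgG, hcase⟩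
        rcases ih with ih | ⟨ih1, ih2, v₁, hv₁, hv₁D, hpath⟩
        · exact Or.inl (uf_cl_step ih hadj)
        · -- `x` outside both clusters
          have hyJ : y ∉ Cl s t J G0 := fun h => ih2 (uf_cl_step h hadj.symm)
          right
          refine ⟨hyI, hyJ, v₁, hv₁, hv₁D, hpath.trans (GAdj.gr ⟨g, ?_, hcase⟩)⟩
          rcases hgG.1 with hgS | hgO
          · rw [Finset.coe_inter] at hgS
            rw [Finset.coe_sdiff]
            refine ⟨hgS.1, ?_⟩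
            intro hgK
            rcases (uf_mem_K.1 hgK).2 with (h4 | h4) | (h4 | h4) <;>
              rcases hcase with ⟨h5, h6⟩ | ⟨h5, h6⟩
            · rw [h5] at h4; exact ih1 h4
            · rw [h5] at h4; exact hyI h4
            · rw [h6] at h4; exact hyI h4
            · rw [h6] at h4; exact ih1 h4
            · rw [h5] at h4; exact ih2 h4
            · rw [h5] at h4; exact hyJ h4
            · rw [h6] at h4; exact hyJ h4
            · rw [h6] at h4; exact ih2 h4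
          · exfalso
            rcases hOend g hgO x y hcase with h4 | h4
            · exact ih1 h4
            · exact ih2 h4
      · -- the edge is in `D`
        have hgF : g ∈ F := by
          rcases hg with hg | hg
          · exact hg
          · exact absurd ⟨Or.inr hg, hge⟩ hgG
        have hgD : g ∈ D := by
          rcases Finset.mem_union.1 (hF hgF) with h4 | h4
          · exfalso
            apply hgG
            refine ⟨Or.inl ?_, hge⟩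
            rw [Finset.coe_inter]
            exact ⟨hgF, h4⟩
          · exact h4
        have hgFK : g ∈ (↑(F \ K) : Set E) := by
          rw [Finset.coe_sdiff]
          exact ⟨hgF, hKS g hgD⟩
        have hadj : GAdj s t (↑(F \ K) : Set E) x y := ⟨g, hgFK, hcase⟩
        obtain ⟨hxD, hyD⟩ := hVD g hgD x y hcase
        have hmain : ∃ v₁ ∈ Cl s t I G0, v₁ ∈ VD s t (↑D : Set E) ∧
            GR s t (↑(F \ K) : Set E) v₁ y := by
          rcases ih with ih | ⟨ih1, ih2, v₁, hv₁, hv₁D, hpath⟩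
          · exact ⟨x, ih, hxD, hadj.gr⟩
          · exact ⟨v₁, hv₁, hv₁D, hpath.trans hadj.gr⟩
        have hyJ : y ∉ Cl s t J G0 := by
          intro hyJ
          obtain ⟨v₁, hv₁, hv₁D, hpath⟩ := hmain
          exact h2 v₁ hv₁ y hyJ hv₁D hyD (h3 v₁ hv₁D y hyD hpath)
        exact Or.inr ⟨hyI, hyJ, hmain⟩
  rcases key with key | ⟨_, key, _⟩
  · exact hno v key hv
  · exact key (uf_cl_self hv)

/-- UNFORCE, general form: `S0` is random, `O` is open, `D` is closed at first and random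
afterwards, the connection is made with the smaller open set `O'`. `H` is any decreasing event
depending on `D` only. -/
theorem unforceG {p : E → ℝ} (hp : Ok p) (s t : E → V) {S0 D : Finset E} (hSD : Disjoint S0 D)
    {O O' : Set E} (hOO : O' ⊆ O) (hO1 : Disjoint O ↑(S0 ∪ D)) {I J : Set V}
    {e : E} (he : e ∈ S0)
    (Near : V → V → Prop) {H : Finset E → Prop} (hH1 : ∀ F G : Finset E, F ⊆ G → H G → H F)
    (hH2 : ∀ F : Finset E, H F ↔ H (F ∩ D)) :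
    Pr p (S0 ∪ D) (fun F => (CnG s t I J (insert e (↑(F ∩ S0) ∪ O')) ∧
        ¬ CnG s t I J ((↑(F ∩ S0) ∪ O) \ {e})) ∧
        NFar s t I J e ↑D Near (↑(F ∩ S0) ∪ O) ∧
        (∀ g ∈ O, s g ∈ Cl s t I ((↑(F ∩ S0) ∪ O) \ {e}) ∨
          s g ∈ Cl s t J ((↑(F ∩ S0) ∪ O) \ {e}))) *
      Pr p (S0 ∪ D) (fun F => TrapG s t ↑D Near ↑F ∧ H F) ≤
    Pr p (S0 ∪ D) (fun F => (CnG s t I J (insert e (↑(F ∩ S0) ∪ O')) ∧
        ¬ CnG s t I J ((↑F ∪ O) \ {e})) ∧ H F) := by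
  have heO : e ∉ O := by
    intro h
    refine Set.disjoint_left.1 hO1 h ?_
    rw [Finset.coe_union]
    exact Or.inl he
  have hsub : ∀ F : Finset E, ((↑(F ∩ S0) ∪ O') \ {e} : Set E) ⊆ (↑(F ∩ S0) ∪ O) \ {e} :=
    fun F => Set.sdiff_subset_sdiff_left (Set.union_subset_union_right _ hOO)
  have hmk := markov_ge hp (uf_stop s t (S0 ∪ D) S0 O I J e)
    (A := fun F => (CnG s t I J (insert e (↑(F ∩ S0) ∪ O')) ∧
        ¬ CnG s t I J ((↑(F ∩ S0) ∪ O) \ {e})) ∧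
        NFar s t I J e ↑D Near (↑(F ∩ S0) ∪ O) ∧
        (∀ g ∈ O, s g ∈ Cl s t I ((↑(F ∩ S0) ∪ O) \ {e}) ∨
          s g ∈ Cl s t J ((↑(F ∩ S0) ∪ O) \ {e})))
    (B := fun F => TrapG s t ↑D Near ↑F ∧ H F) (by
      intro F F' _ _ h hA
      obtain ⟨h1, h2⟩ := uf_cl_eqI h
      obtain ⟨⟨hA1, hA2⟩, hA3, hA4⟩ := hA
      have hA2' : ¬ CnG s t I J ((↑(F' ∩ S0) ∪ O) \ {e}) := by
        rintro ⟨u, hu, v, hv, huv⟩
        have h4 : v ∈ Cl s t I ((↑(F' ∩ S0) ∪ O) \ {e}) := ⟨u, hu, huv⟩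
        rw [← h1] at h4
        obtain ⟨u', hu', huv'⟩ := h4
        exact hA2 ⟨u', hu', v, hv, huv'⟩
      refine ⟨⟨?_, hA2'⟩, ?_, ?_⟩
      · rw [uf2_cn (fun h => hA2 (uf2_cn_mono (hsub F) h))] at hA1
        rw [uf2_cn (fun h => hA2' (uf2_cn_mono (hsub F') h))]
        have tI : ∀ x, x ∈ Cl s t I ((↑(F ∩ S0) ∪ O') \ {e}) →
            x ∈ Cl s t I ((↑(F' ∩ S0) ∪ O') \ {e}) := fun x hx =>
          uf2_cl_sub hOO (fun _ hg h => uf_mem_K.2 ⟨hg, Or.inl h⟩) h hx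
        have tJ : ∀ x, x ∈ Cl s t J ((↑(F ∩ S0) ∪ O') \ {e}) →
            x ∈ Cl s t J ((↑(F' ∩ S0) ∪ O') \ {e}) := fun x hx =>
          uf2_cl_sub hOO (fun _ hg h => uf_mem_K.2 ⟨hg, Or.inr h⟩) h hx
        rcases hA1 with ⟨h3, h4⟩ | ⟨h3, h4⟩
        · exact Or.inl ⟨tI _ h3, tJ _ h4⟩
        · exact Or.inr ⟨tI _ h3, tJ _ h4⟩
      · unfold NFar at hA3 ⊢
        rw [← h1, ← h2]
        exact hA3
      · rw [← h1, ← h2]
        exact hA4) (by
      intro F G hFG hB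
      refine ⟨?_, hH1 F G hFG hB.2⟩
      intro v hv w hw hvw
      exact hB.1 v hv w hw (hvw.mono (Finset.coe_subset.2 hFG)))
  refine hmk.trans (Pr_mono hp ?_)
  rintro F hF ⟨⟨⟨h1, h1'⟩, h2, hO2⟩, h3, h4⟩
  refine ⟨⟨h1, uf2_det s t heO hO2 hSD Near hF h1' h2 h3⟩, ?_⟩
  rw [hH2] at h4 ⊢
  have h5 : (F \ ufK s t S0 O I J e F) ∩ D = F ∩ D := by
    ext g
    simp only [Finset.mem_inter, Finset.mem_sdiff]
    constructor
    · rintro ⟨⟨h6, _⟩, h7⟩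
      exact ⟨h6, h7⟩
    · rintro ⟨h6, h7⟩
      exact ⟨⟨h6, fun h8 => Finset.disjoint_left.1 hSD (uf_mem_K.1 h8).1 h7⟩, h7⟩
  rwa [h5] at h4

/-- UNFORCE with the attachment of the forced open edges inside the event. -/
theorem unforce2 {p : E → ℝ} (hp : Ok p) (s t : E → V) {S0 D : Finset E} (hSD : Disjoint S0 D)
    {O : Set E} (hO1 : Disjoint O ↑(S0 ∪ D)) {I J : Set V} {e : E} (he : e ∈ S0)
    (Near : V → V → Prop) {H : Finset E → Prop} (hH1 : ∀ F G : Finset E, F ⊆ G → H G → H F)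
    (hH2 : ∀ F : Finset E, H F ↔ H (F ∩ D)) :
    Pr p (S0 ∪ D) (fun F => PvG s t I J e (↑(F ∩ S0) ∪ O) ∧
        NFar s t I J e ↑D Near (↑(F ∩ S0) ∪ O) ∧
        (∀ g ∈ O, s g ∈ Cl s t I ((↑(F ∩ S0) ∪ O) \ {e}) ∨
          s g ∈ Cl s t J ((↑(F ∩ S0) ∪ O) \ {e}))) *
      Pr p (S0 ∪ D) (fun F => TrapG s t ↑D Near ↑F ∧ H F) ≤
    Pr p (S0 ∪ D) (fun F => PvG s t I J e (↑F ∪ O) ∧ H F) := by
  have h := unforceG hp s t hSD (O' := O) subset_rfl hO1 he Near hH1 hH2 (I := I) (J := J)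
  refine h.trans (Pr_mono hp ?_)
  rintro F _ ⟨⟨h1, h2⟩, h3⟩
  refine ⟨⟨uf2_cn_mono ?_ h1, h2⟩, h3⟩
  refine Set.insert_subset_insert ?_
  refine Set.union_subset_union_left _ ?_
  rw [Finset.coe_inter]
  exact Set.inter_subset_left

end Unforce2

end H12S
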