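import Pool.Agent.H12R2.Sep.Defs3
import Pool.Agent.H12R2.Sep.Unforce2

/-!
Definitions for batch 4: coarse squares, half balls in four directions, the environments of the
dual step, the plus event.
-/

namespace H12S

open H974 Finset

/-! ### Coarse squares of side `r` -/

/-- The coarse square which contains a vertex. -/
def fl (r : ℕ) (v : Vtx) : ℤ × ℤ := (v.1 / (r:ℤ), v.2 / (r:ℤ))

/-- Vertices (half-open squares `[r z₁, r z₁ + r) × [r z₂, r z₂ + r)`). -/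
def FQ (r : ℕ) (Q : Finset (ℤ × ℤ)) : Set Vtx := {v | fl r v ∈ Q}

/-- The edge touches the vertex set `X`. -/
def Tch (X : Set Vtx) (g : Edg) : Prop := src g ∈ X ∨ tgt g ∈ X

/-- Edges of the closed coarse square `z`. -/
noncomputable def sqE (r : ℕ) (z : ℤ × ℤ) : Finset Edg :=
  RE (r * z.1) (r * z.1 + r) (r * z.2) (r * z.2 + r)

/-- Edges of the union of the closed coarse squares of `Q`. -/
noncomputable def QE (r : ℕ) (Q : Finset (ℤ × ℤ)) : Finset Edg := Q.biUnion (sqE r)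

/-- Vertices of the union of the closed coarse squares of `Q`. -/
def VQ (r : ℕ) (Q : Finset (ℤ × ℤ)) : Set Vtx :=
  {v | ∃ z ∈ Q, inR (r * z.1) (r * z.1 + r) (r * z.2) (r * z.2 + r) v}

/-- The square `z` is one of the four squares around the coarse vertex `ζ`. -/
def Arnd (ζ z : ℤ × ℤ) : Prop := (z.1 = ζ.1 ∨ z.1 = ζ.1 - 1) ∧ (z.2 = ζ.2 ∨ z.2 = ζ.2 - 1)

/-- sup-distance at most `k`. -/
def Nr (k : ℤ) (v w : Vtx) : Prop := |v.1 - w.1| ≤ k ∧ |v.2 - w.2| ≤ k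

/-! ### Half balls in four directions -/

inductive Dir | up | dn | rt | lf
deriving DecidableEq

instance : Fintype Dir := ⟨{Dir.up, Dir.dn, Dir.rt, Dir.lf}, by intro x; cases x <;> simp⟩

/-- Half ball with centre `(x0,y0)` on its straight side. -/
noncomputable def hbE (d : Dir) (x0 y0 : ℤ) (ρ : ℕ) : Finset Edg :=
  match d with
  | Dir.up => RE (x0 - ρ) (x0 + ρ) y0 (y0 + ρ)
  | Dir.dn => RE (x0 - ρ) (x0 + ρ) (y0 - ρ) y0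
  | Dir.rt => RE x0 (x0 + ρ) (y0 - ρ) (y0 + ρ)
  | Dir.lf => RE (x0 - ρ) x0 (y0 - ρ) (y0 + ρ)

def segD (d : Dir) (x0 y0 : ℤ) (r : ℕ) : Set Vtx :=
  match d with
  | Dir.up => {v | v.2 = y0 ∧ x0 - r ≤ v.1 ∧ v.1 ≤ x0 + r}
  | Dir.dn => {v | v.2 = y0 ∧ x0 - r ≤ v.1 ∧ v.1 ≤ x0 + r}
  | Dir.rt => {v | v.1 = x0 ∧ y0 - r ≤ v.2 ∧ v.2 ≤ y0 + r}
  | Dir.lf => {v | v.1 = x0 ∧ y0 - r ≤ v.2 ∧ v.2 ≤ y0 + r}

def rimE (d : Dir) (x0 y0 : ℤ) (ρ : ℕ) : Set Vtx :=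
  match d with
  | Dir.up => {v | inR (x0 - ρ) (x0 + ρ) y0 (y0 + ρ) v ∧ (v.1 = x0 - ρ ∨ v.1 = x0 + ρ ∨ v.2 = y0 + ρ)}
  | Dir.dn => {v | inR (x0 - ρ) (x0 + ρ) (y0 - ρ) y0 v ∧ (v.1 = x0 - ρ ∨ v.1 = x0 + ρ ∨ v.2 = y0 - ρ)}
  | Dir.rt => {v | inR x0 (x0 + ρ) (y0 - ρ) (y0 + ρ) v ∧ (v.1 = x0 + ρ ∨ v.2 = y0 - ρ ∨ v.2 = y0 + ρ)}
  | Dir.lf => {v | inR (x0 - ρ) x0 (y0 - ρ) (y0 + ρ) v ∧ (v.1 = x0 - ρ ∨ v.2 = y0 - ρ ∨ v.2 = y0 + ρ)}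

/-- Three arms in a half ball of direction `d`. -/
def H4 (d : Dir) (x0 y0 : ℤ) (r ρ : ℕ) (F : Set Edg) : Prop :=
  H3g (hbE d x0 y0 ρ) (segD d x0 y0 r) (rimE d x0 y0 ρ) F

/-- Centres of the half balls next to coarse lines. -/
def cen (d : Dir) (r l : ℕ) (j i : ℤ) : ℤ × ℤ :=
  match d with
  | Dir.up => (l * i, r * j)
  | Dir.dn => (l * i, r * j - 1)
  | Dir.rt => (r * j, l * i)
  | Dir.lf => (r * j - 1, l * i)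

/-! ### The environment of the closing step -/

/-- The square `z` is random: its inner edges are random and no forced open edge touches it. -/
def Rnd (r : ℕ) (S0 O : Finset Edg) (z : ℤ × ℤ) : Prop :=
  (∀ g : Edg, fl r (src g) = z → fl r (tgt g) = z → g ∈ S0) ∧
    (∀ g ∈ O, fl r (src g) ≠ z ∧ fl r (tgt g) ≠ z)

/-- The event before the step: `D` is closed. -/
def Ev1 (I J : Set Vtx) (S0 O O' : Finset Edg) (e : Edg) (F : Finset Edg) : Prop :=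
  Cn I J (insert e ((↑(F ∩ S0) : Set Edg) ∪ ↑O')) ∧ ¬ Cn I J (((↑(F ∩ S0) : Set Edg) ∪ ↑O) \ {e})

/-- The event after the step: `D` is random in the decreasing part. -/
def Ev2 (I J : Set Vtx) (S0 O O' : Finset Edg) (e : Edg) (F : Finset Edg) : Prop :=
  Cn I J (insert e ((↑(F ∩ S0) : Set Edg) ∪ ↑O')) ∧ ¬ Cn I J (((↑F : Set Edg) ∪ ↑O) \ {e})

/-- Environment: `Q` coarse squares whose touching edges `D` are closed at first, `S0` random,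
`O` forced open. -/
structure Env2 (r K : ℕ) (Q : Finset (ℤ × ℤ)) (S0 D O O' : Finset Edg) (I J : Set Vtx)
    (e : Edg) : Prop where
  r1 : 1 ≤ r
  box : ∀ z ∈ Q, |z.1| ≤ K ∧ |z.2| ≤ K
  dS : Disjoint S0 D
  dO : Disjoint O (S0 ∪ D)
  hOO : O' ⊆ O
  hD : ∀ g ∈ D, Tch (FQ r Q) g
  hS : ∀ g ∈ S0 ∪ O, ¬ Tch (FQ r Q) g
  hO : ∀ g ∈ O, src g ∈ Cl src tgt I (↑O : Set Edg) ∨ src g ∈ Cl src tgt J (↑O : Set Edg)
  he : e ∈ S0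
  hfe : ∀ u ∈ FQ r Q, 2 * (r:ℤ) ≤ |(src e).1 - u.1| ∨ 2 * (r:ℤ) ≤ |(src e).2 - u.2|
  hIJ : ∀ v ∈ I ∪ J, ∀ u ∈ FQ r Q, 2 * (r:ℤ) ≤ |v.1 - u.1| ∨ 2 * (r:ℤ) ≤ |v.2 - u.2|
  hcase : ∀ ζ : ℤ × ℤ, (∃ z ∈ Q, Arnd ζ z) → ∃ k : Bool, ∀ z : ℤ × ℤ, Arnd ζ z → z ∉ Q →
    Rnd r S0 O z ∨ ∀ F : Finset Edg, F ⊆ S0 ∪ D → Ev1 I J S0 O O' e F → ∀ v : Vtx, fl r v = z →
      v ∉ Cl src tgt (if k then I else J) (((↑(F ∩ S0) : Set Edg) ∪ ↑O) \ {e})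

/-- Bad event near the coarse set `Q`: an arm near a coarse vertex or `H4` along a straight part. -/
def Bad2 (r ρ l : ℕ) (Q : Finset (ℤ × ℤ)) (S0 : Finset Edg) (F : Finset Edg) : Prop :=
  (∃ ζ : ℤ × ℤ, (∃ z ∈ Q, Arnd ζ z) ∧ Crs (r * ζ.1) (r * ζ.2) (4 * ρ) (r / 2) (↑(F ∩ S0) : Set Edg)) ∨
  (∃ (d : Dir) (j i : ℤ), hbE d (cen d r l j i).1 (cen d r l j i).2 ρ ⊆ S0 ∧
    (∃ u ∈ FQ r Q, Nr (2 * l) u (cen d r l j i)) ∧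
    H4 d (cen d r l j i).1 (cen d r l j i).2 (8 * l) ρ (↑F : Set Edg))

/-- Edges near the coarse set. -/
def nearQ (r : ℕ) (Q : Finset (ℤ × ℤ)) (g : Edg) : Prop := ∃ u ∈ FQ r Q, Nr r (src g) u

/-! ### The plus event (as in `H988R5`) -/

noncomputable def XV (b w N : ℕ) : Finset Edg := boxE b ∪ RE (-w) w (-N) N
noncomputable def XH (b w N : ℕ) : Finset Edg := boxE b ∪ RE (-N) N (-w) w
def botV (N : ℕ) : Set Vtx := {v | v.2 = -(N:ℤ)}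
def topV (N : ℕ) : Set Vtx := {v | v.2 = (N:ℤ)}
def lefV (N : ℕ) : Set Vtx := {v | v.1 = -(N:ℤ) - 1}
def rigV (N : ℕ) : Set Vtx := {v | v.1 = (N:ℤ)}

def Plus (b w N : ℕ) (e : Edg) (F : Set Edg) : Prop :=
  Cn (botV N) (topV N) (insert e (F ∩ ↑(XV b w N))) ∧
    ¬ Cn (botV N) (topV N) (((F ∩ ↑(XH b w N)) ∪ ↑(boxE N \ XH b w N)) \ {e})

/-- Before the third unforcing: the horizontal tubes are closed. -/
def Y2 (b w N : ℕ) (e : Edg) (F : Set Edg) : Prop :=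
  Cn (botV N) (topV N) (insert e (F ∩ ↑(XV b w N))) ∧
    ¬ Cn (botV N) (topV N) (((F ∩ ↑(boxE b)) ∪ ↑(boxE N \ XH b w N)) \ {e})

/-- Before the second unforcing: the corridors and vertical tubes `QV` are open, the horizontal
tubes are closed. -/
def Y1 (b w N : ℕ) (QV : Finset Edg) (e : Edg) (F : Set Edg) : Prop :=
  Cn (botV N) (topV N) (insert e ((F ∩ ↑(boxE b \ QV)) ∪ ↑QV)) ∧
    ¬ Cn (botV N) (topV N)
      (((F ∩ ↑(boxE b \ QV)) ∪ ↑(boxE N \ ((boxE b \ QV) ∪ (XH b w N \ boxE b)))) \ {e})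

/-- Height of the squares of a corridor next to the thin box. -/
def hz (M2 : ℕ) (σ : Bool) : ℤ := if σ then (M2:ℤ) else -(M2:ℤ) - 1

/-- Corridor (coarse units) inside `[-B,B]²` from the cell `(σ,k)` of the thin box
`[-2 L M2, 2 L M2] × [-M2, M2]` to the bottom mouth (`τ = false`) or the top mouth (`τ = true`). -/
structure Cor (L M2 B W : ℕ) (σ : Bool) (k : ℤ) (τ : Bool) (Q : Finset (ℤ × ℤ)) : Prop where
  inx : ∀ z ∈ Q, -(B:ℤ) < z.1 ∧ z.1 + 1 < B ∧ -(B:ℤ) ≤ z.2 ∧ z.2 + 1 ≤ B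
  bot : ∀ z ∈ Q, z.2 = -(B:ℤ) → τ = false ∧ -(W:ℤ) ≤ z.1 ∧ z.1 < W
  top : ∀ z ∈ Q, z.2 + 1 = (B:ℤ) → τ = true ∧ -(W:ℤ) ≤ z.1 ∧ z.1 < W
  mou : ∀ x : ℤ, -(W:ℤ) ≤ x → x < W → (x, if τ then (B:ℤ) - 1 else -(B:ℤ)) ∈ Q
  avo : ∀ z ∈ Q, -(2 * L * M2 : ℤ) ≤ z.1 + 1 → z.1 ≤ 2 * L * M2 → -(M2:ℤ) ≤ z.2 + 1 → z.2 ≤ M2 →
    z.2 = hz M2 σ ∧ (z.1 = 2 * k - 1 ∨ z.1 = 2 * k)
  cl1 : (2 * k - 1, hz M2 σ) ∈ Q
  cl2 : (2 * k, hz M2 σ) ∈ Q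
  con : ∀ r : ℕ, 1 ≤ r → ∀ u ∈ VQ r Q, ∀ v ∈ VQ r Q, Reach (↑(QE r Q) : Set Edg) u v

/-- The closed squares of `Q1` and `Q3` are disjoint. -/
def SepQ (Q1 Q3 : Finset (ℤ × ℤ)) : Prop :=
  ∀ z ∈ Q1, ∀ z' ∈ Q3, ¬ (|z.1 - z'.1| ≤ 1 ∧ |z.2 - z'.2| ≤ 1)

/-- Squares of the vertical tubes. -/
noncomputable def tubQ (B W N' : ℕ) : Finset (ℤ × ℤ) :=
  (Finset.Ico (-(W:ℤ)) W) ×ˢ (Finset.Ico (-(N':ℤ)) (-(B:ℤ)) ∪ Finset.Ico (B:ℤ) N')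

end H12S
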