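import Pool.Agent.H12R2.Sep.Defs4

/-!
Definitions for batch 5: inward gluing (exterior clusters landing on the boundary of a block).
-/

namespace H12S

open H974 Finset

/-- The open block: edges of `blk c s` with an end in the open square. -/
noncomputable def boI (c : ℤ × ℤ) (s : ℕ) : Finset Edg := by
  classical exact (blk c s).filter (fun g => Tch {v : Vtx | |v.1 - c.1| < s ∧ |v.2 - c.2| < s} g)

/-- Boundary vertices of the block. -/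
def bdB (c : ℤ × ℤ) (s : ℕ) : Set Vtx :=
  {v | |v.1 - c.1| ≤ s ∧ |v.2 - c.2| ≤ s ∧ (|v.1 - c.1| = s ∨ |v.2 - c.2| = s)}

/-- Point of the side `d` with coordinate `x` (relative to the centre). -/
def cenB (c : ℤ × ℤ) (s : ℕ) (d : Dir) (x : ℤ) : ℤ × ℤ :=
  match d with
  | Dir.up => (c.1 + x, c.2 + s)
  | Dir.dn => (c.1 + x, c.2 - s)
  | Dir.rt => (c.1 + s, c.2 + x)
  | Dir.lf => (c.1 - s, c.2 + x)

/-- Cell on the side `d`, centre `2 r k`, half-length `r`. -/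
def cellB (c : ℤ × ℤ) (s r : ℕ) (d : Dir) (k : ℤ) : Set Vtx :=
  segD d (cenB c s d (2 * r * k)).1 (cenB c s d (2 * r * k)).2 r

/-- Separated landing of the exterior clusters of `I` and `J` on the boundary of the block
(`F` is the exterior configuration: no edge of `boI c s`). -/
def ESev (I J : Set Vtx) (c : ℤ × ℤ) (s r ρ1 ρ2 : ℕ) (d : Dir) (k : ℤ) (d' : Dir) (k' : ℤ)
    (F : Set Edg) : Prop :=
  (|2 * (r:ℤ) * k| + 2 * ρ2 ≤ s ∧ |2 * (r:ℤ) * k'| + 2 * ρ2 ≤ s) ∧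
    (∃ u ∈ cellB c s r d k, u ∈ Cl src tgt I F) ∧
    (∃ u ∈ cellB c s r d' k', u ∈ Cl src tgt J F) ∧
    (∀ v ∈ Cl src tgt (I ∪ cellB c s r d k) F, ∀ v' ∈ Cl src tgt (J ∪ cellB c s r d' k') F,
      v ∈ bdB c s → v' ∈ bdB c s → ¬ Nr ρ1 v v') ∧
  ¬ Cn I J F

/-- The two coarse squares of the block `[γ₁-B, γ₁+B] × [γ₂-B, γ₂+B]` (coarse units) inside the
block, next to the cell `k` of the side `d`. -/
def inSq (γ : ℤ × ℤ) (B : ℕ) (d : Dir) (k : ℤ) : Finset (ℤ × ℤ) :=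
  match d with
  | Dir.up => {(γ.1 + 2 * k - 1, γ.2 + B - 1), (γ.1 + 2 * k, γ.2 + B - 1)}
  | Dir.dn => {(γ.1 + 2 * k - 1, γ.2 - B), (γ.1 + 2 * k, γ.2 - B)}
  | Dir.rt => {(γ.1 + B - 1, γ.2 + 2 * k - 1), (γ.1 + B - 1, γ.2 + 2 * k)}
  | Dir.lf => {(γ.1 - B, γ.2 + 2 * k - 1), (γ.1 - B, γ.2 + 2 * k)}

/-- Corridor (coarse units) inside the block from its boundary cell `(d,k)` to the cell `(σ,k1)` of
the thin box `[-2 L M2, 2 L M2] × [-M2, M2]`. -/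
structure CorX (L M2 B : ℕ) (γ : ℤ × ℤ) (d : Dir) (k : ℤ) (σ : Bool) (k1 : ℤ)
    (Q : Finset (ℤ × ℤ)) : Prop where
  inb : ∀ z ∈ Q, γ.1 - B ≤ z.1 ∧ z.1 + 1 ≤ γ.1 + B ∧ γ.2 - B ≤ z.2 ∧ z.2 + 1 ≤ γ.2 + B
  bd : ∀ z ∈ Q, (z.1 = γ.1 - B ∨ z.1 + 1 = γ.1 + B ∨ z.2 = γ.2 - B ∨ z.2 + 1 = γ.2 + B) →
    z ∈ inSq γ B d k
  mo : inSq γ B d k ⊆ Q
  avo : ∀ z ∈ Q, -(2 * L * M2 : ℤ) ≤ z.1 + 1 → z.1 ≤ 2 * L * M2 → -(M2:ℤ) ≤ z.2 + 1 → z.2 ≤ M2 →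
    z.2 = hz M2 σ ∧ (z.1 = 2 * k1 - 1 ∨ z.1 = 2 * k1)
  cl1 : (2 * k1 - 1, hz M2 σ) ∈ Q
  cl2 : (2 * k1, hz M2 σ) ∈ Q
  con : ∀ r : ℕ, 1 ≤ r → ∀ u ∈ VQ r Q, ∀ v ∈ VQ r Q, Reach (↑(QE r Q) : Set Edg) u v

/-- The event after the first step of the inward gluing: corridors `QV` open. -/
def Z1 (I J : Set Vtx) (QV : Finset Edg) (e : Edg) (F : Set Edg) : Prop :=
  Cn I J (insert e (F ∪ ↑QV)) ∧ ¬ Cn I J ((F ∪ ↑QV) \ {e})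

/-- A domain with planar duality: `I`, `J` are joined in `G ⊆ S` iff `I'`, `J'` are not joined
by dual edges. -/
def DomD (S : Finset Edg) (I J I' J' : Set Vtx) : Prop :=
  ∀ G : Finset Edg, G ⊆ S → (Cn I J (↑G : Set Edg) ↔ ¬ Cn I' J' (↑(dmp (S \ G)) : Set Edg))

/-- `X` is at sup-distance at least `t` from `c`. -/
def FarS (X : Set Vtx) (c : ℤ × ℤ) (t : ℕ) : Prop :=
  ∀ v ∈ X, (t:ℤ) ≤ |v.1 - c.1| ∨ (t:ℤ) ≤ |v.2 - c.2|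

/-- Left and right sides of a rectangle. -/
def lsd (a c d : ℤ) : Set Vtx := {v | v.1 = a ∧ c ≤ v.2 ∧ v.2 ≤ d}

end H12S
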