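import Pool.Agent.H12R2.Sep.InD

/-!
Common data of the inward gluing (`InD`, as in `Stubs5`), shared by the tasks I1D, I1, I2, IT, SY:
see the file `InD`.
-/
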