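import Pool.Agent.H12R2.Sep.Defs2
import Pool.Agent.H974R2.Arm

/-! Task DR: the derivative of the pivotal sum `TP` with respect to the density. -/

set_option maxHeartbeats 400000

namespace H12S

open H974 Finset

/-- The cardinality of the edge set of a box. -/
theorem card_boxE_le (n : ℕ) : ((boxE n).card : ℝ) ≤ 2 * (2 * (n:ℝ) + 1) ^ 2 := by
  unfold boxE RE
  have h1 := Finset.card_filter_le (Finset.Icc (-(n:ℤ)) (n:ℤ) ×ˢ (Finset.Icc (-(n:ℤ)) (n:ℤ) ×ˢ
    (Finset.univ : Finset Bool))) (fun e => if e.2.2 then e.1 < (n:ℤ) else e.2.1 < (n:ℤ))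
  have h2 : (Finset.Icc (-(n:ℤ)) (n:ℤ) ×ˢ (Finset.Icc (-(n:ℤ)) (n:ℤ) ×ˢ
    (Finset.univ : Finset Bool))).card = 2 * (2 * n + 1) ^ 2 := by
    rw [Finset.card_product, Finset.card_product, Int.card_Icc, Finset.card_univ,
      Fintype.card_bool]
    have : ((n:ℤ) + 1 - -(n:ℤ)).toNat = 2 * n + 1 := by omega
    rw [this]; ring
  rw [h2] at h1
  calc _ ≤ ((2 * (2 * n + 1) ^ 2 : ℕ) : ℝ) := by exact_mod_cast h1
    _ = _ := by push_cast; ring

/-- The pivotality of `e` does not depend on the status of `e`. -/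
theorem Pv_insert_self {I J : Set Vtx} {e : Edg} {G : Set Edg} (he : e ∉ G) :
    Pv I J e (insert e G) ↔ Pv I J e G := by
  unfold Pv
  have e1 : insert e (insert e G) = insert e G := by simp
  have e2 : insert e G \ {e} = G \ {e} := by
    ext x; simp only [Set.mem_diff, Set.mem_insert_iff, Set.mem_singleton_iff]; tauto
  rw [e1, e2]

/-- One term of the derivative. -/
theorem deriv_term {q : ℝ} (h0 : 0 ≤ q) (h1 : q ≤ 1) (S : Finset Edg) (I J : Set Vtx)
    {e e' : Edg} (he' : e' ∈ S) :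
    |Ex (fun _ => q) (S.erase e') (fun F => ind (Pv I J e ↑(insert e' F)) - ind (Pv I J e ↑F))| ≤
      if e = e' then 0 else PQ q S (fun F => Flip I J e e' ↑F) := by
  have ok : Ok (fun _ : Edg => q) := okq h0 h1
  split_ifs with hee
  · subst hee
    have : Ex (fun _ => q) (S.erase e)
        (fun F => ind (Pv I J e ↑(insert e F)) - ind (Pv I J e ↑F)) =
        Ex (fun _ => q) (S.erase e) (fun _ => (0:ℝ)) := by
      apply Ex_congr
      intro F hF
      have heF : e ∉ (↑F : Set Edg) := by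
        intro h
        exact (Finset.mem_erase.mp (hF (Finset.mem_coe.mp h))).1 rfl
      have := Pv_insert_self (I := I) (J := J) heF
      rw [Finset.coe_insert, ind_congr this, sub_self]
    rw [this, Ex_const, abs_zero]
  · have hloc : PQ q S (fun F => Flip I J e e' ↑F) =
        PQ q (S.erase e') (fun F => Flip I J e e' ↑F) := by
      apply Pr_local (Finset.erase_subset _ _)
      intro F hF
      unfold Flip
      have e1 : insert e' (↑(F ∩ S.erase e') : Set Edg) = insert e' (↑F : Set Edg) := by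
        ext x
        simp only [Set.mem_insert_iff, Finset.coe_inter, Finset.coe_erase, Set.mem_inter_iff,
          Set.mem_diff, Set.mem_singleton_iff, Finset.mem_coe]
        constructor
        · rintro (h | h)
          · exact Or.inl h
          · exact Or.inr h.1
        · rintro (h | h)
          · exact Or.inl h
          · by_cases hx : x = e'
            · exact Or.inl hx
            · exact Or.inr ⟨h, hF h, hx⟩
      have e2 : (↑(F ∩ S.erase e') : Set Edg) \ {e'} = (↑F : Set Edg) \ {e'} := by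
        ext x
        simp only [Set.mem_diff, Set.mem_singleton_iff, Finset.coe_inter, Finset.coe_erase,
          Set.mem_inter_iff, Finset.mem_coe]
        constructor
        · rintro ⟨h, h'⟩
          exact ⟨h.1, h'⟩
        · rintro ⟨h, h'⟩
          exact ⟨⟨h, hF h, h'⟩, h'⟩
      rw [e1, e2]
    rw [hloc]
    have hpt : ∀ F, F ⊆ S.erase e' →
        |ind (Pv I J e ↑(insert e' F)) - ind (Pv I J e ↑F)| ≤ ind (Flip I J e e' ↑F) := by
      intro F hF
      have heF : e' ∉ (↑F : Set Edg) := by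
        intro h
        exact (Finset.mem_erase.mp (hF (Finset.mem_coe.mp h))).1 rfl
      have e2 : (↑F : Set Edg) \ {e'} = ↑F := Set.diff_singleton_eq_self heF
      by_cases hf : Flip I J e e' ↑F
      · rw [ind_of hf, abs_le]
        have a1 := ind_nonneg (Pv I J e ↑(insert e' F))
        have a2 := ind_le_one (Pv I J e ↑(insert e' F))
        have a3 := ind_nonneg (Pv I J e ↑F)
        have a4 := ind_le_one (Pv I J e ↑F)
        constructor <;> linarith
      · rw [ind_not_of hf]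
        unfold Flip at hf
        rw [not_not, e2] at hf
        rw [Finset.coe_insert, ind_congr hf, sub_self, abs_zero]
    rw [abs_le]
    constructor
    · have := Ex_mono ok (S := S.erase e') (f := fun F => (-1) * ind (Flip I J e e' ↑F))
        (g := fun F => ind (Pv I J e ↑(insert e' F)) - ind (Pv I J e ↑F)) (by
          intro F hF
          have := (abs_le.mp (hpt F hF)).1
          linarith)
      rw [Ex_mul_left] at this
      unfold PQ Pr
      linarith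
    · exact Ex_mono ok (fun F hF => (abs_le.mp (hpt F hF)).2)

/-- Derivative of a pivotal sum over any set of edges. -/
theorem sum_deriv {q : ℝ} (h0 : 0 ≤ q) (h1 : q ≤ 1) (S T : Finset Edg) (I J : Set Vtx) :
    ∃ D : ℝ, HasDerivAt (fun q => ∑ e ∈ T, PQ q S (fun F => Pv I J e ↑F)) D q ∧
      |D| ≤ ∑ e ∈ T, ∑ e' ∈ S.filter (fun e' => e ≠ e'), PQ q S (fun F => Flip I J e e' ↑F) := by
  refine ⟨∑ e ∈ T, ∑ e' ∈ S, Ex (fun _ => q) (S.erase e')
    (fun F => ind (Pv I J e ↑(insert e' F)) - ind (Pv I J e ↑F)), ?_, ?_⟩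
  · apply HasDerivAt.fun_sum
    intro e _
    have := Ex_hasDerivAt (fun (q : ℝ) (_ : Edg) => q) (fun _ => 1) q (fun _ => hasDerivAt_id q)
      S (fun F => ind (Pv I J e ↑F))
    simp only [one_mul] at this
    exact this
  · refine (Finset.abs_sum_le_sum_abs _ _).trans ?_
    apply Finset.sum_le_sum
    intro e _
    refine (Finset.abs_sum_le_sum_abs _ _).trans ?_
    rw [Finset.sum_filter]
    apply Finset.sum_le_sum
    intro e' he'
    refine (deriv_term h0 h1 S I J he').trans ?_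
    by_cases hee : e = e'
    · rw [if_pos hee, if_neg (by simpa using hee)]
    · rw [if_neg hee, if_pos (by simpa using hee)]

theorem tp_deriv_of
    (near_sum : ∀ (κ : ℝ), 0 < κ → ∃ C : ℝ, 0 < C ∧ ∀ (q : ℝ) (n : ℕ),
    Win q κ n → ∀ (A ε : ℝ), 1 ≤ A → 0 < ε → ε ≤ 1 / 8 → A4le q A ε n → ∀ (m : ℕ), 1 ≤ m →
      m ≤ n → ∀ (S : Finset Edg), boxE (m / 2) ⊆ S → ∀ (I J : Set Vtx),
      (∀ v ∈ I ∪ J, ¬ (|v.1| < (m / 2 : ℕ) ∧ |v.2| < (m / 2 : ℕ))) →
      ∑ e ∈ boxE (m / 4), ∑ e' ∈ S.filter (fun e' => e ≠ e' ∧ edist e e' ≤ (m / 64 : ℕ)),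
        PQ q S (fun F => Flip I J e e' ↑F) ≤ C * A ^ 2 * (m:ℝ) ^ (3/2 + 2 * ε))
    (far_sum : ∀ (κ : ℝ), 0 < κ → ∀ (L : ℕ), 2 ≤ L → ∃ C : ℝ, 0 < C ∧ ∀ (q : ℝ) (n : ℕ),
    Win q κ n → ∀ (A ε : ℝ), 1 ≤ A → 0 < ε → ε ≤ 1 / 8 → A4le q A ε n → ∀ (m : ℕ), 1 ≤ m →
      4 * L * m ≤ n → ∀ (I J : Set Vtx), (∀ v ∈ I ∪ J, (m:ℤ) ≤ |v.2|) → ∀ e ∈ boxE (m / 4),
      ∑ e' ∈ (SR L m).filter (fun e' => e ≠ e' ∧ (m / 64 : ℕ) < edist e e'),
        PQ q (SR L m) (fun F => Flip I J e e' ↑F) ≤ C * A ^ 2 * (m:ℝ) ^ (-(1/2) + 2 * ε))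
    (κ : ℝ) (hκ : 0 < κ) (L : ℕ) (hL : 2 ≤ L) : ∃ C : ℝ, 0 < C ∧ ∀ (q : ℝ) (n : ℕ),
    Win q κ n → ∀ (A ε : ℝ), 1 ≤ A → 0 < ε → ε ≤ 1 / 8 → A4le q A ε n → ∀ (m r : ℕ), 1 ≤ m →
      4 * L * m ≤ n → ∀ (σ : Bool) (k1 : ℤ) (σ' : Bool) (k2 : ℤ), ∃ D : ℝ,
        HasDerivAt (fun q => TP q L m r σ k1 σ' k2) D q ∧
          |D| ≤ C * A ^ 2 * (m:ℝ) ^ (3/2 + 2 * ε) := by
  obtain ⟨C1, hC1, H1⟩ := near_sum κ hκ
  obtain ⟨C2, hC2, H2⟩ := far_sum κ hκ L hL
  refine ⟨C1 + 8 * C2, by positivity, ?_⟩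
  intro q n hW A ε hA hε hε8 hA4 m r hm hmn σ k1 σ' k2
  have h0 : 0 ≤ q := by linarith [hW.lo]
  have h1 : q ≤ 1 := by linarith [hW.hi]
  have ok : Ok (fun _ : Edg => q) := okq h0 h1
  set I := cell σ m (2 * r * k1) r with hI
  set J := cell σ' m (2 * r * k2) r with hJ
  have hIJ : ∀ v ∈ I ∪ J, |v.2| = (m:ℤ) := by
    rintro v (hv | hv)
    · rw [hI, mem_cell] at hv
      rw [hv.1]; unfold sy
      split_ifs
      · exact abs_of_nonneg (by positivity)
      · rw [abs_neg]; exact abs_of_nonneg (by positivity)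
    · rw [hJ, mem_cell] at hv
      rw [hv.1]; unfold sy
      split_ifs
      · exact abs_of_nonneg (by positivity)
      · rw [abs_neg]; exact abs_of_nonneg (by positivity)
  obtain ⟨D, hD, hDle⟩ := sum_deriv h0 h1 (SR L m) (boxE (m / 4)) I J
  refine ⟨D, hD, hDle.trans ?_⟩
  have hLm : m ≤ L * m := Nat.le_mul_of_pos_left m (by omega)
  have hmn' : m ≤ n := by nlinarith
  have hsub : boxE (m / 2) ⊆ SR L m := by
    unfold boxE SR
    have h3 : ((m / 2 : ℕ) : ℤ) ≤ (2 * L * m : ℕ) := by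
      have : m / 2 ≤ 2 * L * m := by nlinarith [Nat.div_le_self m 2]
      exact_mod_cast this
    have h4 : ((m / 2 : ℕ) : ℤ) ≤ (m : ℤ) := by exact_mod_cast Nat.div_le_self m 2
    rintro ⟨x, y, _ | _⟩ hx
    · rw [mem_RE_false] at hx ⊢
      omega
    · rw [mem_RE_true] at hx ⊢
      omega
  have hnear := H1 q n hW A ε hA hε hε8 hA4 m hm hmn' (SR L m) hsub I J (by
    intro v hv hcon
    have := hIJ v hv
    rw [this] at hcon
    have h4 : ((m / 2 : ℕ) : ℤ) ≤ (m : ℤ) := by exact_mod_cast Nat.div_le_self m 2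
    omega)
  have hfar := H2 q n hW A ε hA hε hε8 hA4 m hm hmn I J (by
    intro v hv
    exact (hIJ v hv).ge)
  have hsplit : ∑ e ∈ boxE (m / 4), ∑ e' ∈ (SR L m).filter (fun e' => e ≠ e'),
      PQ q (SR L m) (fun F => Flip I J e e' ↑F) =
      ∑ e ∈ boxE (m / 4), ∑ e' ∈ (SR L m).filter (fun e' => e ≠ e' ∧ edist e e' ≤ (m / 64 : ℕ)),
        PQ q (SR L m) (fun F => Flip I J e e' ↑F) +
      ∑ e ∈ boxE (m / 4), ∑ e' ∈ (SR L m).filter (fun e' => e ≠ e' ∧ (m / 64 : ℕ) < edist e e'),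
        PQ q (SR L m) (fun F => Flip I J e e' ↑F) := by
    rw [← Finset.sum_add_distrib]
    apply Finset.sum_congr rfl
    intro e _
    rw [← Finset.sum_filter_add_sum_filter_not ((SR L m).filter (fun e' => e ≠ e'))
      (fun e' => edist e e' ≤ (m / 64 : ℕ)), Finset.filter_filter, Finset.filter_filter]
    congr 1
    apply Finset.sum_congr _ (fun _ _ => rfl)
    apply Finset.filter_congr
    intro e' _
    rw [not_le]
  rw [hsplit]
  have hm1 : (1:ℝ) ≤ m := by exact_mod_cast hm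
  have hcard : ((boxE (m / 4)).card : ℝ) ≤ 8 * (m:ℝ) ^ (2:ℝ) := by
    have h5 := card_boxE_le (m / 4)
    have h6 : ((m / 4 : ℕ) : ℝ) ≤ (m:ℝ) / 4 := Nat.cast_div_le
    have h7 : (0:ℝ) ≤ ((m / 4 : ℕ) : ℝ) := by positivity
    rw [Real.rpow_two]
    nlinarith
  have hfs : ∑ e ∈ boxE (m / 4), ∑ e' ∈ (SR L m).filter
      (fun e' => e ≠ e' ∧ (m / 64 : ℕ) < edist e e'),
        PQ q (SR L m) (fun F => Flip I J e e' ↑F) ≤
      8 * C2 * A ^ 2 * (m:ℝ) ^ (3/2 + 2 * ε) := by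
    refine (Finset.sum_le_sum hfar).trans ?_
    rw [Finset.sum_const, nsmul_eq_mul]
    have e3 : (m:ℝ) ^ (3/2 + 2 * ε) = (m:ℝ) ^ (2:ℝ) * (m:ℝ) ^ (-(1/2) + 2 * ε) := by
      rw [← Real.rpow_add (by linarith)]
      congr 1; ring
    rw [e3]
    have h8 : (0:ℝ) ≤ C2 * A ^ 2 * (m:ℝ) ^ (-(1/2) + 2 * ε) := by positivity
    calc ((boxE (m / 4)).card : ℝ) * (C2 * A ^ 2 * (m:ℝ) ^ (-(1/2) + 2 * ε))
        ≤ 8 * (m:ℝ) ^ (2:ℝ) * (C2 * A ^ 2 * (m:ℝ) ^ (-(1/2) + 2 * ε)) :=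
          mul_le_mul_of_nonneg_right hcard h8
      _ = _ := by ring
  calc _ ≤ C1 * A ^ 2 * (m:ℝ) ^ (3/2 + 2 * ε) + 8 * C2 * A ^ 2 * (m:ℝ) ^ (3/2 + 2 * ε) :=
        add_le_add hnear hfs
    _ = _ := by ring

end H12S
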