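import Pool.Agent.H12R2.Sep.Defs4
import Pool.Agent.H974R2.RSW2

/-!
Task DU (helper503): planar duality in a box.
-/

namespace H12S

open H974 Finset

theorem DU_Cn_mono {I J : Set Vtx} {F G : Set Edg} (h : F ⊆ G) (hF : Cn I J F) : Cn I J G := by
  obtain ⟨u, hu, v, hv, hr⟩ := hF
  exact ⟨u, hu, v, hv, hr.mono h⟩

/-- Move the dead ends into the box. -/
def DU_cl (N : ℕ) (v : Vtx) : Vtx :=
  if v.2 = -(N:ℤ) - 1 then (v.1, -(N:ℤ)) else if v.2 = (N:ℤ) then (v.1, (N:ℤ) - 1) else v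

theorem DU_cl_fst (N : ℕ) (v : Vtx) : (DU_cl N v).1 = v.1 := by
  unfold DU_cl
  split_ifs <;> rfl

/-- dead ends can be removed from the dual paths -/
theorem DU_clamp (N : ℕ) (hN : 1 ≤ N) {H : Set Edg} (hH : H ⊆ ↑(dmp (boxE N))) {u w : Vtx}
    (h : Reach H u w) :
    Reach (H ∩ ↑(RE (-(N:ℤ) - 1) N (-(N:ℤ)) ((N:ℤ) - 1))) (DU_cl N u) (DU_cl N w) := by
  induction h with
  | refl => exact Reach.refl _ _
  | @tail w w' _ hs ih =>
    refine ih.trans ?_
    obtain ⟨e, he, hcase⟩ := hs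
    have hN' : (1:ℤ) ≤ N := by exact_mod_cast hN
    have key : Reach (H ∩ ↑(RE (-(N:ℤ) - 1) N (-(N:ℤ)) ((N:ℤ) - 1))) (DU_cl N (src e))
        (DU_cl N (tgt e)) := by
      have hb : e ∈ dmp (boxE N) := Finset.mem_coe.1 (hH he)
      rw [mem_dmp] at hb
      obtain ⟨x, y, _ | _⟩ := e
      · rw [dls_f] at hb
        unfold boxE at hb
        rw [mem_RE_true] at hb
        rw [src_mk, tgt_false]
        rcases lt_trichotomy y (-(N:ℤ)) with h1 | h1 | h1
        · have hy : y = -(N:ℤ) - 1 := by omega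
          have e1 : DU_cl N (x, y) = (x, -(N:ℤ)) := by
            unfold DU_cl; rw [if_pos hy]
          have e2 : DU_cl N (x, y + 1) = (x, -(N:ℤ)) := by
            unfold DU_cl
            rw [if_neg (by simp only; omega), if_neg (by simp only; omega), hy]
            congr 1
            ring
          rw [e1, e2]
          exact Reach.refl _ _
        · by_cases h2 : y = (N:ℤ) - 1
          · omega
          · have e1 : DU_cl N (x, y) = (x, y) := by
              unfold DU_cl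
              rw [if_neg (by simp only; omega), if_neg (by simp only; omega)]
            have e2 : DU_cl N (x, y + 1) = (x, y + 1) := by
              unfold DU_cl
              rw [if_neg (by simp only; omega), if_neg (by simp only; omega)]
            rw [e1, e2]
            refine Adj.reach ⟨(x, y, false), ⟨he, ?_⟩, Or.inl ⟨rfl, rfl⟩⟩
            rw [Finset.mem_coe, mem_RE_false]
            omega
        · by_cases h2 : y = (N:ℤ) - 1
          · have e1 : DU_cl N (x, y) = (x, (N:ℤ) - 1) := by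
              unfold DU_cl
              rw [if_neg (by simp only; omega), if_neg (by simp only; omega), h2]
            have e2 : DU_cl N (x, y + 1) = (x, (N:ℤ) - 1) := by
              unfold DU_cl
              rw [if_neg (by simp only; omega), if_pos (by simp only; omega)]
            rw [e1, e2]
            exact Reach.refl _ _
          · have e1 : DU_cl N (x, y) = (x, y) := by
              unfold DU_cl
              rw [if_neg (by simp only; omega), if_neg (by simp only; omega)]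
            have e2 : DU_cl N (x, y + 1) = (x, y + 1) := by
              unfold DU_cl
              rw [if_neg (by simp only; omega), if_neg (by simp only; omega)]
            rw [e1, e2]
            refine Adj.reach ⟨(x, y, false), ⟨he, ?_⟩, Or.inl ⟨rfl, rfl⟩⟩
            rw [Finset.mem_coe, mem_RE_false]
            omega
      · rw [dls_t] at hb
        unfold boxE at hb
        rw [mem_RE_false] at hb
        rw [src_mk, tgt_true]
        have e1 : DU_cl N (x, y) = (x, y) := by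
          unfold DU_cl
          rw [if_neg (by simp only; omega), if_neg (by simp only; omega)]
        have e2 : DU_cl N (x + 1, y) = (x + 1, y) := by
          unfold DU_cl
          rw [if_neg (by simp only; omega), if_neg (by simp only; omega)]
        rw [e1, e2]
        refine Adj.reach ⟨(x, y, true), ⟨he, ?_⟩, Or.inl ⟨rfl, rfl⟩⟩
        rw [Finset.mem_coe, mem_RE_true]
        omega
    rcases hcase with ⟨h1, h2⟩ | ⟨h1, h2⟩
    · rw [← h1, ← h2]; exact key
    · rw [← h1, ← h2]; exact key.symm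

theorem cn_dual (N : ℕ) (hN : 1 ≤ N) {G : Finset Edg} (hG : G ⊆ boxE N) :
    Cn (botV N) (topV N) (↑G : Set Edg) ↔
      ¬ Cn (lefV N) (rigV N) (↑(dmp (boxE N \ G)) : Set Edg) := by
  have hN' : (1:ℤ) ≤ N := by exact_mod_cast hN
  constructor
  · rintro ⟨u, hu, v, hv, hr⟩ ⟨f, hf, g, hg, hd⟩
    -- the primal crossing
    have hu' : u.2 = -(N:ℤ) := hu
    have hv' : v.2 = (N:ℤ) := hv
    obtain ⟨x1, x2, -, hx2, hP, -⟩ := sub_TB (G := (↑G : Set Edg)) (a := -(N:ℤ)) (b := N)
      (c := -(N:ℤ)) (d := N) (by omega) (by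
        intro x y h _ _
        have := hG (Finset.mem_coe.1 h)
        unfold boxE at this
        rw [mem_RE_false] at this
        omega) (by
        intro x y h _ _
        have := hG (Finset.mem_coe.1 h)
        unfold boxE at this
        rw [mem_RE_true] at this
        omega) hr hu'.le hv'.ge
    -- the dual crossing
    have hf' : f.1 = -(N:ℤ) - 1 := hf
    have hg' : g.1 = (N:ℤ) := hg
    have hsub : (↑(dmp (boxE N \ G)) : Set Edg) ⊆ ↑(dmp (boxE N)) := by
      intro e he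
      rw [Finset.mem_coe, mem_dmp] at he ⊢
      exact (Finset.mem_sdiff.1 he).1
    have hc := DU_clamp N hN hsub hd
    obtain ⟨y1, y2, hy1, -, hD, -⟩ := sub_LR
      (G := (↑(dmp (boxE N \ G)) : Set Edg) ∩ ↑(RE (-(N:ℤ) - 1) N (-(N:ℤ)) ((N:ℤ) - 1)))
      (a := -(N:ℤ) - 1) (b := N) (c := -(N:ℤ)) (d := (N:ℤ) - 1) (by omega) (by
        rintro x y ⟨-, h⟩ _ _
        rw [Finset.mem_coe, mem_RE_true] at h
        omega) (by
        rintro x y ⟨-, h⟩ _ _
        rw [Finset.mem_coe, mem_RE_false] at h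
        omega) hc (by rw [DU_cl_fst]; exact hf'.le) (by rw [DU_cl_fst]; exact hg'.ge)
    have hD2 : Reach (dl '' ((↑G : Set Edg)ᶜ ∩ ↑(TBE (-(N:ℤ)) N (-(N:ℤ)) N)))
        (-(N:ℤ) - 1, y1) (N, y2) := by
      refine hD.mono ?_
      rintro e ⟨⟨h1, -⟩, h2⟩
      rw [Finset.mem_coe, mem_dmp, Finset.mem_sdiff] at h1
      refine ⟨dl.symm e, ⟨?_, ?_⟩, by simp⟩
      · intro h3
        exact h1.2 (Finset.mem_coe.1 h3)
      · rw [Finset.mem_coe, ← mem_dmp, dmp_TBE]
        exact Finset.mem_coe.1 h2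
    rw [reach_dl] at hD2
    exact no_both_TB (F := (↑G : Set Edg)) (a := -(N:ℤ)) (b := N) (c := -(N:ℤ)) (d := N)
      (by omega) hx2 (by omega) hP hD2
  · intro hno
    by_contra hcon
    apply hno
    set W : Vtx → Prop := fun v => ∃ x : ℤ, Reach (↑G : Set Edg) (x, -(N:ℤ)) (v.2, v.1) with hW
    have hL : ∀ y, -(N:ℤ) ≤ y → y ≤ N → W (-(N:ℤ), y) := fun y _ _ => ⟨y, Reach.refl _ _⟩
    have hR : ∀ y, -(N:ℤ) ≤ y → y ≤ N → ¬ W ((N:ℤ), y) := by
      rintro y _ _ ⟨x, hx⟩
      exact hcon ⟨(x, -(N:ℤ)), rfl, (y, (N:ℤ)), rfl, hx⟩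
    obtain ⟨x, x', -, -, hr⟩ := dual_crossing (a := -(N:ℤ)) (b := N) (c := -(N:ℤ)) (d := N)
      (by omega) (by omega) W hL hR
    have h1 := DReach_tps hr
    simp only [tps_ψ] at h1
    refine ⟨(-(N:ℤ) - 1, x), rfl, ((N:ℤ), x'), rfl, ?_⟩
    rw [coe_dmp, reach_dl]
    refine h1.mono ?_
    rintro _ ⟨⟨a, b, c⟩, ⟨he1, he2⟩, rfl⟩
    rw [Finset.coe_sdiff]
    constructor
    · rw [tps_φ, Finset.mem_coe]
      unfold boxE
      cases c
      · rw [Finset.mem_coe, mem_LRE_false] at he2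
        rw [Bool.not_false, mem_RE_true]
        omega
      · rw [Finset.mem_coe, mem_LRE_true] at he2
        rw [Bool.not_true, mem_RE_false]
        omega
    · intro h2
      apply he1
      rw [tps_φ] at h2
      have hadj : Adj (↑G : Set Edg) ((src (a, b, c)).2, (src (a, b, c)).1)
          ((tgt (a, b, c)).2, (tgt (a, b, c)).1) := by
        refine ⟨_, h2, Or.inl ?_⟩
        cases c
        · rw [Bool.not_false, tgt_true, tgt_false, src_mk, src_mk]
          exact ⟨rfl, rfl⟩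
        · rw [Bool.not_true, tgt_true, tgt_false, src_mk, src_mk]
          exact ⟨rfl, rfl⟩
      constructor
      · rintro ⟨x0, h3⟩
        exact ⟨x0, h3.trans hadj.reach⟩
      · rintro ⟨x0, h3⟩
        exact ⟨x0, h3.trans hadj.symm.reach⟩

theorem DU_boxE_mono {b N : ℕ} (h : b ≤ N) : boxE b ⊆ boxE N := by
  have h' : (b:ℤ) ≤ N := by exact_mod_cast h
  unfold boxE
  rintro ⟨x, y, _ | _⟩ he
  · rw [mem_RE_false] at he ⊢
    omega
  · rw [mem_RE_true] at he ⊢
    omega

theorem DU_XH_sub {b w N : ℕ} (hbN : b ≤ N) (hwN : w ≤ N) : XH b w N ⊆ boxE N := by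
  have h' : (w:ℤ) ≤ N := by exact_mod_cast hwN
  unfold XH
  apply Finset.union_subset (DU_boxE_mono hbN)
  unfold boxE
  rintro ⟨x, y, _ | _⟩ he
  · rw [mem_RE_false] at he ⊢
    omega
  · rw [mem_RE_true] at he ⊢
    omega

theorem DU_prop (A B C D E X : Prop) (h1 : A → C) (h2 : B → C) (hX : ¬ X) :
    (X ∨ ((A ∨ D) ∧ ¬ E) ∧ A ∧ ¬ D ∨ B ∧ ¬ A) ↔
      C ∧ ¬ ((E ∧ A ∧ ¬ D ∨ C ∧ ¬ (A ∧ ¬ D ∨ B ∧ ¬ A)) ∧ ¬ X) := by
  tauto

/-- first complement computation -/
theorem DU_set1 {b w N : ℕ} (hbN : b ≤ N) (hwN : w ≤ N) {QV : Finset Edg} {e : Edg}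
    (he : e ∈ boxE b \ QV) (F : Finset Edg) :
    (insert (dl e) ((↑(dmp ((boxE b ∪ QV) \ F) ∩ dmp (boxE b \ QV)) : Set Edg) ∪
      ↑(dmp (XH b w N \ boxE b))) : Set Edg) =
    ↑(dmp (boxE N \ (((F ∩ (boxE b \ QV)) ∪
      (boxE N \ ((boxE b \ QV) ∪ (XH b w N \ boxE b)))) \ {e}))) := by
  have hbox := DU_boxE_mono hbN
  have hXH := DU_XH_sub hbN hwN
  ext g
  simp only [Set.mem_insert_iff, Set.mem_union, Finset.mem_coe, Finset.mem_inter, mem_dmp,
    Finset.mem_sdiff, Finset.mem_union, Finset.mem_singleton]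
  have hg : g = dl e ↔ dl.symm g = e := by
    constructor
    · intro h; rw [h]; simp
    · intro h; rw [← h]; simp
  rw [hg]
  set f := dl.symm g
  rw [Finset.mem_sdiff] at he
  by_cases hfe : f = e
  · rw [hfe]
    have h1 : e ∈ boxE N := hbox he.1
    simp only [true_or, true_iff]
    refine ⟨h1, ?_⟩
    tauto
  · have h1 : f ∈ boxE b → f ∈ boxE N := fun h => hbox h
    have h2 : f ∈ XH b w N → f ∈ boxE N := fun h => hXH h
    exact DU_prop _ _ _ _ _ _ h1 h2 hfe

set_option linter.unusedVariables false in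
/-- second complement computation -/
theorem DU_set2 {b N : ℕ} (hbN : b ≤ N) {QV : Finset Edg} (hQ : QV ⊆ boxE N) {e : Edg}
    (F : Finset Edg) :
    ((((↑(dmp ((boxE b ∪ QV) \ F) ∩ dmp (boxE b \ QV)) : Set Edg) ∪
      ↑(dmp (boxE N \ (boxE b ∪ QV)))) \ {dl e} : Set Edg)) =
    ↑(dmp (boxE N \ insert e ((F ∩ (boxE b \ QV)) ∪ QV))) := by
  have hbox := DU_boxE_mono hbN
  ext g
  simp only [Set.mem_sdiff, Set.mem_singleton_iff, Set.mem_union, Finset.mem_coe,
    Finset.mem_inter, mem_dmp, Finset.mem_sdiff, Finset.mem_union, Finset.mem_insert]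
  have hg : g = dl e ↔ dl.symm g = e := by
    constructor
    · intro h; rw [h]; simp
    · intro h; rw [← h]; simp
  rw [hg]
  set f := dl.symm g
  have h1 : f ∈ boxE b → f ∈ boxE N := fun h => hbox h
  tauto

set_option linter.unusedVariables false in
theorem ev1_iff {b w N : ℕ} (hN : 1 ≤ N) (hbN : b ≤ N) (hwN : w ≤ N) {QV : Finset Edg}
    (hQ : QV ⊆ boxE N) (hQ2 : Disjoint QV (XH b w N \ boxE b)) {e : Edg} (he : e ∈ boxE b \ QV)
    {F : Finset Edg} (hF : F ⊆ boxE b ∪ QV) :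
    Ev1 (lefV N) (rigV N) (dmp (boxE b \ QV)) (dmp (boxE N \ (boxE b ∪ QV)))
      (dmp (XH b w N \ boxE b)) (dl e) (dmp ((boxE b ∪ QV) \ F)) ↔ Y1 b w N QV e (↑F : Set Edg) := by
  have hbox := DU_boxE_mono hbN
  have heN : e ∈ boxE N := hbox (Finset.mem_sdiff.1 he).1
  unfold Ev1 Y1
  rw [DU_set1 hbN hwN he F, DU_set2 hbN hQ F]
  have k1 := cn_dual N hN (G := ((F ∩ (boxE b \ QV)) ∪
      (boxE N \ ((boxE b \ QV) ∪ (XH b w N \ boxE b)))) \ {e}) (by
    intro g hg
    rw [Finset.mem_sdiff, Finset.mem_union] at hg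
    rcases hg.1 with h | h
    · exact hbox (Finset.mem_sdiff.1 (Finset.mem_inter.1 h).2).1
    · exact (Finset.mem_sdiff.1 h).1)
  have k2 := cn_dual N hN (G := insert e ((F ∩ (boxE b \ QV)) ∪ QV)) (by
    intro g hg
    rw [Finset.mem_insert, Finset.mem_union] at hg
    rcases hg with h | h | h
    · rw [h]; exact heN
    · exact hbox (Finset.mem_sdiff.1 (Finset.mem_inter.1 h).2).1
    · exact hQ h)
  have e1 : (↑(((F ∩ (boxE b \ QV)) ∪
      (boxE N \ ((boxE b \ QV) ∪ (XH b w N \ boxE b)))) \ {e}) : Set Edg) =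
      (((↑F : Set Edg) ∩ ↑(boxE b \ QV)) ∪
        ↑(boxE N \ ((boxE b \ QV) ∪ (XH b w N \ boxE b)))) \ {e} := by
    push_cast
    rfl
  have e2 : (↑(insert e ((F ∩ (boxE b \ QV)) ∪ QV)) : Set Edg) =
      insert e (((↑F : Set Edg) ∩ ↑(boxE b \ QV)) ∪ ↑QV) := by
    push_cast
    rfl
  rw [e1] at k1
  rw [e2] at k2
  rw [k1, k2]
  tauto

set_option linter.unusedVariables false in
theorem ev2_imp {b w N : ℕ} (hN : 1 ≤ N) (hbN : b ≤ N) (hwN : w ≤ N) {QV : Finset Edg}
    (hQ : QV ⊆ boxE N) (hQ2 : Disjoint QV (XH b w N \ boxE b)) (hQ3 : boxE b ∪ QV = XV b w N)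
    {e : Edg} (he : e ∈ boxE b \ QV) {F : Finset Edg} (hF : F ⊆ boxE b ∪ QV)
    (h : Ev2 (lefV N) (rigV N) (dmp (boxE b \ QV)) (dmp (boxE N \ (boxE b ∪ QV)))
      (dmp (XH b w N \ boxE b)) (dl e) (dmp ((boxE b ∪ QV) \ F))) :
    Y2 b w N e (↑F : Set Edg) := by
  have hbox := DU_boxE_mono hbN
  have heN : e ∈ boxE N := hbox (Finset.mem_sdiff.1 he).1
  obtain ⟨h1, h2⟩ := h
  have hXV : XV b w N ⊆ boxE N := by
    rw [← hQ3]
    exact Finset.union_subset hbox hQ
  constructor
  · -- the primal crossing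
    have k2 := cn_dual N hN (G := insert e (F ∩ XV b w N)) (by
      intro g hg
      rw [Finset.mem_insert, Finset.mem_inter] at hg
      rcases hg with h | h
      · rw [h]; exact heN
      · exact hXV h.2)
    have e2 : (↑(insert e (F ∩ XV b w N)) : Set Edg) = insert e ((↑F : Set Edg) ∩ ↑(XV b w N)) := by
      push_cast
      rfl
    rw [e2] at k2
    rw [k2]
    intro h3
    apply h2
    refine DU_Cn_mono ?_ h3
    intro g hg
    have hg' : g = dl e ↔ dl.symm g = e := by
      constructor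
      · intro h; rw [h]; simp
      · intro h; rw [← h]; simp
    rw [Finset.mem_coe, mem_dmp, Finset.mem_sdiff, Finset.mem_insert, Finset.mem_inter] at hg
    simp only [Set.mem_sdiff, Set.mem_singleton_iff, Set.mem_union, Finset.mem_coe, mem_dmp,
      Finset.mem_sdiff]
    rw [hg', hQ3]
    tauto
  · -- the dual crossing
    intro h3
    have k1 := cn_dual N hN (G := ((F ∩ (boxE b \ QV)) ∪
      (boxE N \ ((boxE b \ QV) ∪ (XH b w N \ boxE b)))) \ {e}) (by
      intro g hg
      rw [Finset.mem_sdiff, Finset.mem_union] at hg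
      rcases hg.1 with h | h
      · exact hbox (Finset.mem_sdiff.1 (Finset.mem_inter.1 h).2).1
      · exact (Finset.mem_sdiff.1 h).1)
    rw [DU_set1 hbN hwN he F] at h1
    refine k1.1 (DU_Cn_mono ?_ h3) h1
    rintro g ⟨hg, hge⟩
    have hge' : g ≠ e := hge
    rw [Finset.mem_coe, Finset.mem_sdiff, Finset.mem_singleton, Finset.mem_union, Finset.mem_inter,
      Finset.mem_sdiff, Finset.mem_sdiff, Finset.mem_union, Finset.mem_sdiff, Finset.mem_sdiff]
    refine ⟨?_, hge'⟩
    rcases hg with ⟨h4, h5⟩ | h4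
    · by_cases h6 : g ∈ QV
      · right
        exact ⟨hbox h5, by
          rintro (⟨-, h7⟩ | ⟨-, h7⟩)
          · exact h7 h6
          · exact h7 h5⟩
      · left
        exact ⟨h4, h5, h6⟩
    · rw [Finset.mem_coe, Finset.mem_sdiff] at h4
      right
      refine ⟨h4.1, ?_⟩
      rintro (⟨h7, -⟩ | ⟨h7, -⟩)
      · exact h4.2 (by unfold XH; exact Finset.mem_union_left _ h7)
      · exact h4.2 h7

end H12S
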