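import Pool.Agent.H12R2.Sep.Defs2

/-! # Task ES: the sum of the influences of edges -/

namespace H12S

open H974 Finset

theorem ES_split (q : ℝ) {S : Finset Edg} {e : Edg} (he : e ∈ S) (f : Finset Edg → ℝ) :
    Ex (fun _ => q) S f = q * Ex (fun _ => q) (S.erase e) (fun F => f (insert e F)) +
      (1 - q) * Ex (fun _ => q) (S.erase e) f := by
  conv_lhs => rw [← Finset.insert_erase he]
  exact Ex_insert _ (Finset.notMem_erase _ _) f

/-- The test function of an edge. -/
noncomputable def ESV (q : ℝ) (e : Edg) (F : Finset Edg) : ℝ :=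
  q⁻¹ * ind (e ∈ F) - (1 - q)⁻¹ * ind (e ∉ F)

theorem ESV_in (q : ℝ) {e : Edg} {F : Finset Edg} (h : e ∈ F) : ESV q e F = q⁻¹ := by
  unfold ESV
  rw [ind_of h, ind_not_of (not_not.2 h)]
  ring

theorem ESV_out (q : ℝ) {e : Edg} {F : Finset Edg} (h : e ∉ F) : ESV q e F = -(1 - q)⁻¹ := by
  unfold ESV
  rw [ind_not_of h, ind_of h]
  ring

theorem ESV_local (q : ℝ) (e : Edg) (F : Finset Edg) : ESV q e F = ESV q e (F ∩ {e}) := by
  by_cases h : e ∈ F
  · rw [ESV_in q h, ESV_in q (show e ∈ F ∩ {e} by simp [h])]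
  · rw [ESV_out q h, ESV_out q (show e ∉ F ∩ {e} by simp [h])]

theorem ES_mul {q : ℝ} (h0 : 0 < q) (h1 : q < 1) {S : Finset Edg} {e : Edg} (he : e ∈ S)
    (f : Finset Edg → ℝ) :
    Ex (fun _ => q) S (fun F => f F * ESV q e F) =
      Ex (fun _ => q) (S.erase e) (fun F => f (insert e F)) - Ex (fun _ => q) (S.erase e) f := by
  rw [ES_split q he]
  have e1 : Ex (fun _ => q) (S.erase e) (fun F => f (insert e F) * ESV q e (insert e F)) =
      Ex (fun _ => q) (S.erase e) (fun F => f (insert e F)) * q⁻¹ := by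
    rw [← Ex_mul_right]
    apply Ex_congr
    intro F _
    rw [ESV_in q (Finset.mem_insert_self e F)]
  have e2 : Ex (fun _ => q) (S.erase e) (fun F => f F * ESV q e F) =
      Ex (fun _ => q) (S.erase e) f * (-(1 - q)⁻¹) := by
    rw [← Ex_mul_right]
    apply Ex_congr
    intro F hF
    rw [ESV_out q (fun h => Finset.notMem_erase e S (hF h))]
  rw [e1, e2]
  have hq : q ≠ 0 := h0.ne'
  have hq1 : 1 - q ≠ 0 := by linarith
  field_simp
  ring

theorem ES_mean {q : ℝ} (h0 : 0 < q) (h1 : q < 1) {S : Finset Edg} {e : Edg} (he : e ∈ S) :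
    Ex (fun _ => q) S (ESV q e) = 0 := by
  have := ES_mul h0 h1 he (fun _ => (1:ℝ))
  simp only [one_mul] at this
  rw [this, Ex_const]
  ring

theorem ES_sq {q : ℝ} (h0 : 0 < q) (h1 : q < 1) {S : Finset Edg} {e : Edg} (he : e ∈ S) :
    Ex (fun _ => q) S (fun F => ESV q e F * ESV q e F) = q⁻¹ + (1 - q)⁻¹ := by
  rw [ES_mul h0 h1 he (ESV q e)]
  have e1 : Ex (fun _ => q) (S.erase e) (fun F => ESV q e (insert e F)) = q⁻¹ := by
    rw [Ex_congr (g := fun _ => q⁻¹) (fun F _ => ESV_in q (Finset.mem_insert_self e F)), Ex_const]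
  have e2 : Ex (fun _ => q) (S.erase e) (ESV q e) = -(1 - q)⁻¹ := by
    rw [Ex_congr (g := fun _ => -(1 - q)⁻¹)
      (fun F hF => ESV_out q (fun h => Finset.notMem_erase e S (hF h))), Ex_const]
  rw [e1, e2]
  ring

theorem ES_infl {q : ℝ} (h0 : 0 < q) (h1 : q < 1) {S : Finset Edg} {I J : Set Vtx}
    {O : Set Edg} {e : Edg} (he : e ∈ S) (hO : e ∉ O) :
    PQ q S (fun F => Pv I J e (↑F ∪ O)) =
      Ex (fun _ => q) S (fun F => ind (Cn I J ((↑F : Set Edg) ∪ O)) * ESV q e F) := by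
  rw [ES_mul h0 h1 he]
  unfold PQ Pr
  rw [ES_split q he, ← Ex_sub]
  have key : ∀ F : Finset Edg, F ⊆ S.erase e →
      ind (Pv I J e ((↑F : Set Edg) ∪ O)) =
        ind (Cn I J ((↑(insert e F) : Set Edg) ∪ O)) - ind (Cn I J ((↑F : Set Edg) ∪ O)) := by
    intro F hF
    have heF : e ∉ F := fun h => Finset.notMem_erase e S (hF h)
    have s1 : insert e ((↑F : Set Edg) ∪ O) = (↑(insert e F) : Set Edg) ∪ O := by
      rw [Finset.coe_insert, Set.insert_union]
    have s2 : ((↑F : Set Edg) ∪ O) \ {e} = (↑F : Set Edg) ∪ O := by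
      apply Set.sdiff_singleton_eq_self
      rintro (h | h)
      · exact heF (Finset.mem_coe.1 h)
      · exact hO h
    have hmono : Cn I J ((↑F : Set Edg) ∪ O) → Cn I J ((↑(insert e F) : Set Edg) ∪ O) := by
      intro h
      refine BS_Cn_mono ?_ h
      rw [Finset.coe_insert]
      exact Set.union_subset_union_left _ (Set.subset_insert _ _)
    unfold Pv
    rw [s1, s2]
    by_cases k1 : Cn I J ((↑F : Set Edg) ∪ O)
    · rw [ind_of k1, ind_of (hmono k1), ind_not_of (fun h => h.2 k1)]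
      ring
    · by_cases k2 : Cn I J ((↑(insert e F) : Set Edg) ∪ O)
      · rw [ind_not_of k1, ind_of k2, ind_of ⟨k2, k1⟩]
        ring
      · rw [ind_not_of k1, ind_not_of k2, ind_not_of (fun h => k2 h.1)]
        ring
  have key2 : ∀ F : Finset Edg, F ⊆ S.erase e →
      ind (Pv I J e ((↑(insert e F) : Set Edg) ∪ O)) = ind (Pv I J e ((↑F : Set Edg) ∪ O)) := by
    intro F hF
    apply ind_congr
    unfold Pv
    have s1 : insert e ((↑(insert e F) : Set Edg) ∪ O) = insert e ((↑F : Set Edg) ∪ O) := by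
      rw [Finset.coe_insert, Set.insert_union, Set.insert_idem]
    have s2 : ((↑(insert e F) : Set Edg) ∪ O) \ {e} = ((↑F : Set Edg) ∪ O) \ {e} := by
      rw [Finset.coe_insert, Set.insert_union]
      ext x
      simp only [Set.mem_sdiff, Set.mem_insert_iff, Set.mem_singleton_iff]
      tauto
    rw [s1, s2]
  rw [Ex_congr key2, Ex_congr key]
  ring

/-- Edge version (no window needed). -/
theorem edge_sum {q : ℝ} (h0 : 1 / 4 ≤ q) (h1 : q ≤ 3 / 4) {S : Finset Edg} {I J : Set Vtx}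
    {O : Set Edg} {T : Finset Edg} (hT : T ⊆ S) (hO : Disjoint O ↑T) :
    ∑ e ∈ T, PQ q S (fun F => Pv I J e (↑F ∪ O)) ≤ 3 * Real.sqrt T.card := by
  have q0 : 0 < q := by linarith
  have q1 : q < 1 := by linarith
  have hok : Ok (fun _ : Edg => q) := okq q0.le q1.le
  set f : Finset Edg → ℝ := fun F => ind (Cn I J ((↑F : Set Edg) ∪ O)) with hf
  set g : Finset Edg → ℝ := fun F => ∑ e ∈ T, ESV q e F with hg
  have b1 : ∑ e ∈ T, PQ q S (fun F => Pv I J e (↑F ∪ O)) =
      Ex (fun _ => q) S (fun F => f F * g F) := by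
    have e1 : Ex (fun _ => q) S (fun F => f F * g F) =
        ∑ e ∈ T, Ex (fun _ => q) S (fun F => f F * ESV q e F) := by
      rw [← Ex_sum]
      apply Ex_congr
      intro F _
      rw [hg, Finset.mul_sum]
    rw [e1]
    apply Finset.sum_congr rfl
    intro e he
    exact ES_infl q0 q1 (hT he) (fun h => Set.disjoint_left.1 hO h (Finset.mem_coe.2 he))
  have b2 : Ex (fun _ => q) S (fun F => (f F) ^ 2) ≤ 1 := by
    apply Ex_le_of_le hok
    intro F _
    exact pow_le_one₀ (ind_nonneg _) (ind_le_one _)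
  have b3 : Ex (fun _ => q) S (fun F => (g F) ^ 2) = T.card * (q⁻¹ + (1 - q)⁻¹) := by
    have e1 : Ex (fun _ => q) S (fun F => (g F) ^ 2) =
        ∑ e ∈ T, ∑ e' ∈ T, Ex (fun _ => q) S (fun F => ESV q e F * ESV q e' F) := by
      have e2 : ∀ F : Finset Edg, F ⊆ S → (g F) ^ 2 =
          ∑ e ∈ T, ∑ e' ∈ T, ESV q e F * ESV q e' F := by
        intro F _
        rw [hg, sq, Finset.sum_mul_sum]
      rw [Ex_congr e2, Ex_sum]
      apply Finset.sum_congr rfl
      intro e _
      rw [Ex_sum]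
    rw [e1]
    have e3 : ∀ e ∈ T, ∑ e' ∈ T, Ex (fun _ => q) S (fun F => ESV q e F * ESV q e' F) =
        q⁻¹ + (1 - q)⁻¹ := by
      intro e he
      rw [Finset.sum_eq_single e]
      · exact ES_sq q0 q1 (hT he)
      · intro e' he' hne
        rw [Ex_mul_indep (S := {e}) (T := {e'}) (by simpa using hT he) (by simpa using hT he')
          (by simpa using Ne.symm hne) (fun F _ => ESV_local q e F)
          (fun F _ => ESV_local q e' F), ES_mean q0 q1 (hT he), zero_mul]
      · intro h; exact absurd he h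
    rw [Finset.sum_congr rfl e3, Finset.sum_const, nsmul_eq_mul]
  have b5 := Ex_cs hok S f g
  have hg0 : 0 ≤ Ex (fun _ => q) S (fun F => (g F) ^ 2) :=
    Ex_nonneg hok (fun F _ => sq_nonneg _)
  have hT0 : (0:ℝ) ≤ T.card := Nat.cast_nonneg _
  have hinv : q⁻¹ + (1 - q)⁻¹ ≤ 9 := by
    have i1 : q⁻¹ ≤ 4 := by
      rw [inv_le_comm₀ q0 (by norm_num)]; linarith
    have i2 : (1 - q)⁻¹ ≤ 4 := by
      rw [inv_le_comm₀ (by linarith) (by norm_num)]; linarith
    linarith
  have b6 : (Ex (fun _ => q) S (fun F => f F * g F)) ^ 2 ≤ (3 * Real.sqrt T.card) ^ 2 := by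
    rw [mul_pow, Real.sq_sqrt hT0]
    calc (Ex (fun _ => q) S (fun F => f F * g F)) ^ 2
        ≤ Ex (fun _ => q) S (fun F => (f F) ^ 2) * Ex (fun _ => q) S (fun F => (g F) ^ 2) := b5
      _ ≤ 1 * Ex (fun _ => q) S (fun F => (g F) ^ 2) := mul_le_mul_of_nonneg_right b2 hg0
      _ = T.card * (q⁻¹ + (1 - q)⁻¹) := by rw [one_mul, b3]
      _ ≤ T.card * 9 := mul_le_mul_of_nonneg_left hinv hT0
      _ = 3 ^ 2 * T.card := by ring
  rw [b1]
  apply le_trans (le_abs_self _)
  exact abs_le_of_sq_le_sq b6 (by positivity)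

end H12S
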