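import Pool.Agent.H12R2.Sep.Defs4

/-!
S2E (helper405): the environment of the second step, for the plus event.
-/

namespace H12S

open H974 Finset

/-! ### Coordinates -/

theorem s2e_fl {r : ℕ} (hr : 1 ≤ r) (v : Vtx) :
    (r:ℤ) * (fl r v).1 ≤ v.1 ∧ v.1 < (r:ℤ) * (fl r v).1 + r ∧
      (r:ℤ) * (fl r v).2 ≤ v.2 ∧ v.2 < (r:ℤ) * (fl r v).2 + r := by
  have h0 : (0:ℤ) < r := by exact_mod_cast hr
  simp only [fl]
  refine ⟨Int.mul_ediv_self_le h0.ne', Int.lt_mul_ediv_self_add h0, Int.mul_ediv_self_le h0.ne',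
    Int.lt_mul_ediv_self_add h0⟩

theorem s2e_fl_eq {r : ℕ} (hr : 1 ≤ r) {v : Vtx} {z : ℤ × ℤ} (h1 : (r:ℤ) * z.1 ≤ v.1)
    (h2 : v.1 < (r:ℤ) * z.1 + r) (h3 : (r:ℤ) * z.2 ≤ v.2) (h4 : v.2 < (r:ℤ) * z.2 + r) :
    fl r v = z := by
  have h0 : (0:ℤ) < r := by exact_mod_cast hr
  have e1 : v.1 / (r:ℤ) = z.1 := by
    rw [Int.ediv_eq_iff_of_pos h0]
    constructor <;> nlinarith
  have e2 : v.2 / (r:ℤ) = z.2 := by
    rw [Int.ediv_eq_iff_of_pos h0]
    constructor <;> nlinarith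
  exact Prod.ext e1 e2

/-- An edge is in `QE` iff its dual edge touches the half-open squares. -/
theorem s2e_mem {r : ℕ} (hr : 1 ≤ r) {Q : Finset (ℤ × ℤ)} {e : Edg} :
    e ∈ QE r Q ↔ Tch (FQ r Q) (dl e) := by
  have h0 : (0:ℤ) < r := by exact_mod_cast hr
  obtain ⟨x, y, _ | _⟩ := e
  · simp only [QE, sqE, Finset.mem_biUnion, mem_RE_false, Tch, dl_f, src_mk, tgt_true, FQ,
      Set.mem_ofPred_eq]
    constructor
    · rintro ⟨z, hz, h1, h2, h3, h4⟩
      by_cases hx : x < (r:ℤ) * z.1 + r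
      · right
        rw [s2e_fl_eq hr (z := z) (by simpa using h1) (by simpa using hx) h3 h4]
        exact hz
      · left
        rw [s2e_fl_eq hr (z := z) (by simp only; omega) (by simp only; omega) h3 h4]
        exact hz
    · rintro (h | h)
      · obtain ⟨a1, a2, a3, a4⟩ := s2e_fl hr (x - 1, y)
        exact ⟨_, h, by simp only at a1; omega, by simp only at a2; omega, a3, a4⟩
      · obtain ⟨a1, a2, a3, a4⟩ := s2e_fl hr (x - 1 + 1, y)
        exact ⟨_, h, by simp only at a1; omega, by simp only at a2; omega, a3, a4⟩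
  · simp only [QE, sqE, Finset.mem_biUnion, mem_RE_true, Tch, dl_t, src_mk, tgt_false, FQ,
      Set.mem_ofPred_eq]
    constructor
    · rintro ⟨z, hz, h1, h2, h3, h4⟩
      by_cases hy : y < (r:ℤ) * z.2 + r
      · right
        rw [s2e_fl_eq hr (z := z) h1 h2 (by simpa using h3) (by simpa using hy)]
        exact hz
      · left
        rw [s2e_fl_eq hr (z := z) h1 h2 (by simp only; omega) (by simp only; omega)]
        exact hz
    · rintro (h | h)
      · obtain ⟨a1, a2, a3, a4⟩ := s2e_fl hr (x, y - 1)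
        exact ⟨_, h, a1, a2, by simp only at a3; omega, by simp only at a4; omega⟩
      · obtain ⟨a1, a2, a3, a4⟩ := s2e_fl hr (x, y - 1 + 1)
        exact ⟨_, h, a1, a2, by simp only at a3; omega, by simp only at a4; omega⟩

/-! ### The forced open dual edges outside the box are connected to the left and right sides -/

section Rows

variable {b m N : ℕ} {T : Set Vtx} {O : Set Edg}

theorem s2e_not_tch {x y x' y' : ℤ} {g : Edg} (hs : src g = (x, y)) (ht : tgt g = (x', y'))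
    (h1 : (x, y) ∉ T) (h2 : (x', y') ∉ T) : ¬ Tch T g := by
  rintro (h | h)
  · rw [hs] at h; exact h1 h
  · rw [ht] at h; exact h2 h

/-- Rows, from the left. -/
theorem s2e_rowL (hO : ∀ g, g ∈ O ↔ dl.symm g ∈ boxE N ∧ dl.symm g ∉ boxE b ∧ ¬ Tch T g)
    (hT1 : ∀ x y : ℤ, (x, y) ∈ T → (y < -(b:ℤ) ∨ (b:ℤ) ≤ y) → -(m:ℤ) ≤ x ∧ x < m)
    (hT2 : ∀ x y : ℤ, (x, y) ∈ T → -(b:ℤ) ≤ x ∧ x < b) (hmb : m ≤ b) (n : ℕ) :
    ∀ x y : ℤ, x = -(N:ℤ) - 1 + n →
      (x ≤ -(b:ℤ) - 1 ∨ (x ≤ -(m:ℤ) - 1 ∧ (y < -(b:ℤ) ∨ (b:ℤ) ≤ y))) → -(N:ℤ) ≤ y → y < N →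
      (x, y) ∈ Cl src tgt (lefV N) O := by
  induction n with
  | zero =>
    intro x y hx _ _ _
    apply uf_cl_self
    simp only [lefV, Set.mem_ofPred_eq]
    omega
  | succ n ih =>
    intro x y hx hc hy1 hy2
    push_cast at hx
    have h := ih (x - 1) y (by omega) (by omega) hy1 hy2
    refine uf_cl_step h ⟨(x - 1, y, true), ?_, Or.inl ⟨rfl, by simp⟩⟩
    rw [hO]
    refine ⟨?_, ?_, ?_⟩
    · simp only [dls_t, boxE, mem_RE_false]; omega
    · simp only [dls_t, boxE, mem_RE_false]; omega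
    · refine s2e_not_tch (x := x - 1) (y := y) (x' := x) (y' := y) rfl (by simp) ?_ ?_
      · intro h3
        have a1 := hT2 _ _ h3
        have a2 := hT1 _ _ h3
        omega
      · intro h3
        have a1 := hT2 _ _ h3
        have a2 := hT1 _ _ h3
        omega

/-- Rows, from the right. -/
theorem s2e_rowR (hO : ∀ g, g ∈ O ↔ dl.symm g ∈ boxE N ∧ dl.symm g ∉ boxE b ∧ ¬ Tch T g)
    (hT1 : ∀ x y : ℤ, (x, y) ∈ T → (y < -(b:ℤ) ∨ (b:ℤ) ≤ y) → -(m:ℤ) ≤ x ∧ x < m)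
    (hT2 : ∀ x y : ℤ, (x, y) ∈ T → -(b:ℤ) ≤ x ∧ x < b) (hmb : m ≤ b) (n : ℕ) :
    ∀ x y : ℤ, x = (N:ℤ) - n →
      ((b:ℤ) ≤ x ∨ ((m:ℤ) ≤ x ∧ (y < -(b:ℤ) ∨ (b:ℤ) ≤ y))) → -(N:ℤ) ≤ y → y < N →
      (x, y) ∈ Cl src tgt (rigV N) O := by
  induction n with
  | zero =>
    intro x y hx _ _ _
    apply uf_cl_self
    simp only [rigV, Set.mem_ofPred_eq]
    omega
  | succ n ih =>
    intro x y hx hc hy1 hy2
    push_cast at hx
    have h := ih (x + 1) y (by omega) (by omega) hy1 hy2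
    refine uf_cl_step h ⟨(x, y, true), ?_, Or.inr ⟨rfl, by simp⟩⟩
    rw [hO]
    refine ⟨?_, ?_, ?_⟩
    · simp only [dls_t, boxE, mem_RE_false]; omega
    · simp only [dls_t, boxE, mem_RE_false]; omega
    · refine s2e_not_tch (x := x) (y := y) (x' := x + 1) (y' := y) rfl (by simp) ?_ ?_
      · intro h3
        have a1 := hT2 _ _ h3
        have a2 := hT1 _ _ h3
        omega
      · intro h3
        have a1 := hT2 _ _ h3
        have a2 := hT1 _ _ h3
        omega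

/-- All faces on the left. -/
theorem s2e_left (hO : ∀ g, g ∈ O ↔ dl.symm g ∈ boxE N ∧ dl.symm g ∉ boxE b ∧ ¬ Tch T g)
    (hT1 : ∀ x y : ℤ, (x, y) ∈ T → (y < -(b:ℤ) ∨ (b:ℤ) ≤ y) → -(m:ℤ) ≤ x ∧ x < m)
    (hT2 : ∀ x y : ℤ, (x, y) ∈ T → -(b:ℤ) ≤ x ∧ x < b) (hmb : m ≤ b) (hbN : b < N) {x y : ℤ}
    (hx : -(N:ℤ) - 1 ≤ x) (hc : x ≤ -(b:ℤ) - 1 ∨ (x ≤ -(m:ℤ) - 1 ∧ (y < -(b:ℤ) ∨ (b:ℤ) ≤ y)))
    (hy1 : -(N:ℤ) - 1 ≤ y) (hy2 : y ≤ N) (hcor : -(N:ℤ) ≤ y ∧ y < N ∨ -(N:ℤ) ≤ x) :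
    (x, y) ∈ Cl src tgt (lefV N) O := by
  have row := fun x y h1 h2 h3 h4 => s2e_rowL hO hT1 hT2 hmb (x + N + 1 : ℤ).toNat x y h1 h2 h3 h4
  by_cases ha : y = N
  · have h := row x (y - 1) (by omega) (by omega) (by omega) (by omega)
    refine uf_cl_step h ⟨(x, y - 1, false), ?_, Or.inl ⟨rfl, by simp⟩⟩
    rw [hO]
    refine ⟨?_, ?_, ?_⟩
    · simp only [dls_f, boxE, mem_RE_true]; omega
    · simp only [dls_f, boxE, mem_RE_true]; omega
    · refine s2e_not_tch (x := x) (y := y - 1) (x' := x) (y' := y) rfl (by simp) ?_ ?_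
      · intro h3
        have a1 := hT2 _ _ h3
        have a2 := hT1 _ _ h3
        omega
      · intro h3
        have a1 := hT2 _ _ h3
        have a2 := hT1 _ _ h3
        omega
  · by_cases hb : y = -(N:ℤ) - 1
    · have h := row x (y + 1) (by omega) (by omega) (by omega) (by omega)
      refine uf_cl_step h ⟨(x, y, false), ?_, Or.inr ⟨rfl, by simp⟩⟩
      rw [hO]
      refine ⟨?_, ?_, ?_⟩
      · simp only [dls_f, boxE, mem_RE_true]; omega
      · simp only [dls_f, boxE, mem_RE_true]; omega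
      · refine s2e_not_tch (x := x) (y := y) (x' := x) (y' := y + 1) rfl (by simp) ?_ ?_
        · intro h3
          have a1 := hT2 _ _ h3
          have a2 := hT1 _ _ h3
          omega
        · intro h3
          have a1 := hT2 _ _ h3
          have a2 := hT1 _ _ h3
          omega
    · exact row x y (by omega) (by omega) (by omega) (by omega)

/-- All faces on the right. -/
theorem s2e_right (hO : ∀ g, g ∈ O ↔ dl.symm g ∈ boxE N ∧ dl.symm g ∉ boxE b ∧ ¬ Tch T g)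
    (hT1 : ∀ x y : ℤ, (x, y) ∈ T → (y < -(b:ℤ) ∨ (b:ℤ) ≤ y) → -(m:ℤ) ≤ x ∧ x < m)
    (hT2 : ∀ x y : ℤ, (x, y) ∈ T → -(b:ℤ) ≤ x ∧ x < b) (hmb : m ≤ b) (hbN : b < N) {x y : ℤ}
    (hx : x ≤ N) (hc : (b:ℤ) ≤ x ∨ ((m:ℤ) ≤ x ∧ (y < -(b:ℤ) ∨ (b:ℤ) ≤ y)))
    (hy1 : -(N:ℤ) - 1 ≤ y) (hy2 : y ≤ N) (hcor : -(N:ℤ) ≤ y ∧ y < N ∨ x < N) :
    (x, y) ∈ Cl src tgt (rigV N) O := by
  have row := fun x y h1 h2 h3 h4 => s2e_rowR hO hT1 hT2 hmb (N - x : ℤ).toNat x y h1 h2 h3 h4
  by_cases ha : y = N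
  · have h := row x (y - 1) (by omega) (by omega) (by omega) (by omega)
    refine uf_cl_step h ⟨(x, y - 1, false), ?_, Or.inl ⟨rfl, by simp⟩⟩
    rw [hO]
    refine ⟨?_, ?_, ?_⟩
    · simp only [dls_f, boxE, mem_RE_true]; omega
    · simp only [dls_f, boxE, mem_RE_true]; omega
    · refine s2e_not_tch (x := x) (y := y - 1) (x' := x) (y' := y) rfl (by simp) ?_ ?_
      · intro h3
        have a1 := hT2 _ _ h3
        have a2 := hT1 _ _ h3
        omega
      · intro h3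
        have a1 := hT2 _ _ h3
        have a2 := hT1 _ _ h3
        omega
  · by_cases hb : y = -(N:ℤ) - 1
    · have h := row x (y + 1) (by omega) (by omega) (by omega) (by omega)
      refine uf_cl_step h ⟨(x, y, false), ?_, Or.inr ⟨rfl, by simp⟩⟩
      rw [hO]
      refine ⟨?_, ?_, ?_⟩
      · simp only [dls_f, boxE, mem_RE_true]; omega
      · simp only [dls_f, boxE, mem_RE_true]; omega
      · refine s2e_not_tch (x := x) (y := y) (x' := x) (y' := y + 1) rfl (by simp) ?_ ?_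
        · intro h3
          have a1 := hT2 _ _ h3
          have a2 := hT1 _ _ h3
          omega
        · intro h3
          have a1 := hT2 _ _ h3
          have a2 := hT1 _ _ h3
          omega
    · exact row x y (by omega) (by omega) (by omega) (by omega)

end Rows

/-! ### Faces of the coarse set -/

/-- Type of the squares of `Q1 ∪ Q3 ∪ tubQ` (`P = L * M2`, `W = M2`). -/
theorem s2e_sq {L M2 : ℕ} {σ σ' : Bool} {k k' : ℤ} {Q1 Q3 : Finset (ℤ × ℤ)}
    (h1 : Cor L M2 (4 * L * M2) M2 σ k false Q1) (h3 : Cor L M2 (4 * L * M2) M2 σ' k' true Q3)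
    {z : ℤ × ℤ} (hz : z ∈ Q1 ∪ Q3 ∪ tubQ (4 * L * M2) M2 (16 * L * M2)) :
    (-(4 * ((L:ℤ) * M2)) < z.1 ∧ z.1 + 1 < 4 * ((L:ℤ) * M2) ∧ -(4 * ((L:ℤ) * M2)) ≤ z.2 ∧
      z.2 + 1 ≤ 4 * ((L:ℤ) * M2) ∧
      (z.2 = -(4 * ((L:ℤ) * M2)) → -(M2:ℤ) ≤ z.1 ∧ z.1 < M2) ∧
      (z.2 + 1 = 4 * ((L:ℤ) * M2) → -(M2:ℤ) ≤ z.1 ∧ z.1 < M2) ∧
      (z.1 + 1 < -(2 * ((L:ℤ) * M2)) ∨ 2 * ((L:ℤ) * M2) < z.1 ∨ z.2 + 1 < -(M2:ℤ) ∨ (M2:ℤ) < z.2 ∨
        z.2 = M2 ∨ z.2 = -(M2:ℤ) - 1)) ∨
    ((-(M2:ℤ) ≤ z.1 ∧ z.1 < M2) ∧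
      ((-(16 * ((L:ℤ) * M2)) ≤ z.2 ∧ z.2 < -(4 * ((L:ℤ) * M2))) ∨
        (4 * ((L:ℤ) * M2) ≤ z.2 ∧ z.2 < 16 * ((L:ℤ) * M2)))) := by
  have e4 : (4:ℤ) * L * M2 = 4 * ((L:ℤ) * M2) := by ring
  have e2 : (2:ℤ) * L * M2 = 2 * ((L:ℤ) * M2) := by ring
  have e16 : (16:ℤ) * L * M2 = 16 * ((L:ℤ) * M2) := by ring
  have key : ∀ (σ : Bool) (k : ℤ) (τ : Bool) (Q : Finset (ℤ × ℤ)),
      Cor L M2 (4 * L * M2) M2 σ k τ Q → z ∈ Q →
      (-(4 * ((L:ℤ) * M2)) < z.1 ∧ z.1 + 1 < 4 * ((L:ℤ) * M2) ∧ -(4 * ((L:ℤ) * M2)) ≤ z.2 ∧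
      z.2 + 1 ≤ 4 * ((L:ℤ) * M2) ∧
      (z.2 = -(4 * ((L:ℤ) * M2)) → -(M2:ℤ) ≤ z.1 ∧ z.1 < M2) ∧
      (z.2 + 1 = 4 * ((L:ℤ) * M2) → -(M2:ℤ) ≤ z.1 ∧ z.1 < M2) ∧
      (z.1 + 1 < -(2 * ((L:ℤ) * M2)) ∨ 2 * ((L:ℤ) * M2) < z.1 ∨ z.2 + 1 < -(M2:ℤ) ∨ (M2:ℤ) < z.2 ∨
        z.2 = M2 ∨ z.2 = -(M2:ℤ) - 1)) := by
    intro σ k τ Q h hz
    have a := h.inx z hz
    have b := h.bot z hz
    have c := h.top z hz
    have d := h.avo z hz
    push_cast at a b c d
    rw [e4] at a b c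
    rw [e2] at d
    refine ⟨a.1, a.2.1, a.2.2.1, a.2.2.2, fun h => (b h).2, fun h => (c h).2, ?_⟩
    by_contra hcon
    push Not at hcon
    obtain ⟨q1, q2, q3, q4, q5, q6⟩ := hcon
    have d' := (d q1 q2 q3 q4).1
    cases σ
    · simp [H12S.hz] at d'
      exact q6 (by omega)
    · simp [H12S.hz] at d'
      exact q5 d'
  rw [Finset.mem_union, Finset.mem_union] at hz
  rcases hz with (hz | hz) | hz
  · exact Or.inl (key _ _ _ _ h1 hz)
  · exact Or.inl (key _ _ _ _ h3 hz)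
  · right
    simp only [tubQ, Finset.mem_product, Finset.mem_Ico, Finset.mem_union] at hz
    push_cast at hz
    rw [e4, e16] at hz
    exact hz

/-- The statement of the case distinction around a coarse vertex. -/
theorem s2e_case {W P r b m N : ℕ} {Q : Finset (ℤ × ℤ)} {S0 D O O' : Finset Edg} {e : Edg}
    (hr : 1 ≤ r) (hW : 1 ≤ W) (hWP : W ≤ P) (hm : (m:ℤ) = r * W) (hb : (b:ℤ) = r * (4 * P))
    (hN : (N:ℤ) = r * (16 * P))
    (hQ : ∀ z ∈ Q, (-(4 * (P:ℤ)) < z.1 ∧ z.1 + 1 < 4 * (P:ℤ) ∧ -(4 * (P:ℤ)) ≤ z.2 ∧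
      z.2 + 1 ≤ 4 * (P:ℤ) ∧ (z.2 = -(4 * (P:ℤ)) → -(W:ℤ) ≤ z.1 ∧ z.1 < W) ∧
      (z.2 + 1 = 4 * (P:ℤ) → -(W:ℤ) ≤ z.1 ∧ z.1 < W)) ∨
      ((-(W:ℤ) ≤ z.1 ∧ z.1 < W) ∧ ((-(16 * (P:ℤ)) ≤ z.2 ∧ z.2 < -(4 * (P:ℤ))) ∨
        (4 * (P:ℤ) ≤ z.2 ∧ z.2 < 16 * (P:ℤ)))))
    (hQ' : ∀ z : ℤ × ℤ, (-(W:ℤ) ≤ z.1 ∧ z.1 < W) → ((-(16 * (P:ℤ)) ≤ z.2 ∧ z.2 < -(4 * (P:ℤ))) ∨
        (4 * (P:ℤ) ≤ z.2 ∧ z.2 < 16 * (P:ℤ))) → z ∈ Q)
    (hS0 : ∀ g, g ∈ S0 ↔ dl.symm g ∈ boxE b ∧ ¬ Tch (FQ r Q) g)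
    (hO : ∀ g, g ∈ O ↔ dl.symm g ∈ boxE N ∧ dl.symm g ∉ boxE b ∧ ¬ Tch (FQ r Q) g)
    (he : e ∈ S0)
    (hT1 : ∀ x y : ℤ, (x, y) ∈ FQ r Q → (y < -(b:ℤ) ∨ (b:ℤ) ≤ y) → -(m:ℤ) ≤ x ∧ x < m)
    (hT2 : ∀ x y : ℤ, (x, y) ∈ FQ r Q → -(b:ℤ) ≤ x ∧ x < b) :
    ∀ ζ : ℤ × ℤ, (∃ z ∈ Q, Arnd ζ z) → ∃ k : Bool, ∀ z : ℤ × ℤ, Arnd ζ z → z ∉ Q →
    Rnd r S0 O z ∨ ∀ F : Finset Edg, F ⊆ S0 ∪ D → Ev1 (lefV N) (rigV N) S0 O O' e F →
      ∀ v : Vtx, fl r v = z →
      v ∉ Cl src tgt (if k then lefV N else rigV N) (((↑(F ∩ S0) : Set Edg) ∪ ↑O) \ {e}) := by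
  rintro ζ ⟨z0, hz0, ha0⟩
  have hr0 : (0:ℤ) < r := by exact_mod_cast hr
  have mul : ∀ {a c : ℤ}, a ≤ c → (r:ℤ) * a ≤ r * c := fun h => mul_le_mul_of_nonneg_left h hr0.le
  have hrP : (r:ℤ) * W ≤ r * P := mul (by exact_mod_cast hWP)
  have hrW : (r:ℤ) * 1 ≤ r * W := mul (by exact_mod_cast hW)
  have hmb : m ≤ b := by
    have : (m:ℤ) ≤ b := by rw [hm, hb]; nlinarith
    exact_mod_cast this
  have hbN' : (b:ℤ) + r + 1 < N := by rw [hN, hb]; nlinarith
  have hbN : b < N := by omega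
  have hmr : (m:ℤ) + r ≤ N := by rw [hm, hN]; nlinarith
  have hmN : (m:ℤ) < N := by omega
  have hO' : ∀ g, g ∈ (↑O : Set Edg) ↔ dl.symm g ∈ boxE N ∧ dl.symm g ∉ boxE b ∧
      ¬ Tch (FQ r Q) g := fun g => by rw [Finset.mem_coe]; exact hO g
  have hmem : ∀ v : Vtx, v ∈ FQ r Q ↔ fl r v ∈ Q := fun v => Iff.rfl
  refine ⟨decide (0 < ζ.1), ?_⟩
  intro z ha hz
  by_cases hin : -(4 * (P:ℤ)) ≤ z.1 ∧ z.1 < 4 * P ∧ -(4 * (P:ℤ)) ≤ z.2 ∧ z.2 < 4 * P
  · -- inside the box
    left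
    have bnd : ∀ x y : ℤ, fl r (x, y) = z → -(b:ℤ) ≤ x ∧ x < b ∧ -(b:ℤ) ≤ y ∧ y < b := by
      intro x y h
      obtain ⟨a1, a2, a3, a4⟩ := s2e_fl hr (x, y)
      rw [h] at a1 a2 a3 a4
      simp only at a1 a2 a3 a4
      have c1 := mul hin.1
      have c2 := mul (Int.add_one_le_iff.2 hin.2.1)
      have c3 := mul hin.2.2.1
      have c4 := mul (Int.add_one_le_iff.2 hin.2.2.2)
      have e1 : (r:ℤ) * (z.1 + 1) = r * z.1 + r := by ring
      have e2 : (r:ℤ) * (z.2 + 1) = r * z.2 + r := by ring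
      have e3 : (r:ℤ) * -(4 * (P:ℤ)) = -(b:ℤ) := by rw [hb]; ring
      rw [e3] at c1 c3
      rw [e1, ← hb] at c2
      rw [e2, ← hb] at c4
      omega
    constructor
    · intro g h1 h2
      rw [hS0]
      refine ⟨?_, ?_⟩
      · obtain ⟨x, y, _ | _⟩ := g
        · have a := bnd _ _ h1
          simp only [tgt_false] at h2
          have a' := bnd _ _ h2
          simp only [dls_f, boxE, mem_RE_true]; omega
        · have a := bnd _ _ h1
          simp only [tgt_true] at h2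
          have a' := bnd _ _ h2
          simp only [dls_t, boxE, mem_RE_false]; omega
      · rintro (h | h)
        · rw [hmem, h1] at h; exact hz h
        · rw [hmem, h2] at h; exact hz h
    · intro g hg
      obtain ⟨g1, g2, -⟩ := (hO g).1 hg
      obtain ⟨x, y, _ | _⟩ := g
      · simp only [dls_f, boxE, mem_RE_true] at g1 g2
        constructor
        · intro h
          rw [src_mk] at h
          have a := bnd _ _ h
          omega
        · intro h
          simp only [tgt_false] at h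
          have a := bnd _ _ h
          omega
      · simp only [dls_t, boxE, mem_RE_false] at g1 g2
        constructor
        · intro h
          rw [src_mk] at h
          have a := bnd _ _ h
          omega
        · intro h
          simp only [tgt_true] at h
          have a := bnd _ _ h
          omega
  · right
    have hWP' : (W:ℤ) ≤ P := by exact_mod_cast hWP
    have hW' : (1:ℤ) ≤ W := by exact_mod_cast hW
    have hz' : (-(W:ℤ) - 1 ≤ z.1 ∧ z.1 ≤ W) ∧ (-(16 * (P:ℤ)) - 1 ≤ z.2 ∧ z.2 ≤ 16 * P) ∧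
        (z.2 < -(4 * (P:ℤ)) ∨ 4 * (P:ℤ) ≤ z.2) := by
      have h0 := hQ z0 hz0
      unfold Arnd at ha ha0
      omega
    obtain ⟨⟨q1, q2⟩, ⟨q3, q4⟩, q5⟩ := hz'
    intro F hF hEv v hv hcl
    set G : Set Edg := (((↑(F ∩ S0) : Set Edg) ∪ ↑O) \ {e}) with hG
    have hOG : (↑O : Set Edg) ⊆ G := by
      intro g hg
      refine ⟨Or.inr hg, ?_⟩
      intro hge
      rw [Set.mem_singleton_iff] at hge
      subst hge
      exact ((hO g).1 hg).2.1 ((hS0 g).1 he).1
    have hnc : ¬ Cn (lefV N) (rigV N) G := hEv.2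
    have hdis : ∀ w, w ∈ Cl src tgt (lefV N) G → w ∈ Cl src tgt (rigV N) G → False := by
      rintro w ⟨u, hu, h1⟩ ⟨u', hu', h2⟩
      exact hnc ⟨u, hu, u', hu', h1.trans h2.symm⟩
    obtain ⟨x, y⟩ := v
    obtain ⟨a1, a2, a3, a4⟩ := s2e_fl hr (x, y)
    rw [hv] at a1 a2 a3 a4
    simp only at a1 a2 a3 a4
    have e1 : (r:ℤ) * (z.1 + 1) = r * z.1 + r := by ring
    have e2 : (r:ℤ) * (z.2 + 1) = r * z.2 + r := by ring
    -- bounds for the face
    have c1 : -(m:ℤ) - r ≤ x := by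
      have := mul q1
      have e3 : (r:ℤ) * (-(W:ℤ) - 1) = -(m:ℤ) - r := by rw [hm]; ring
      rw [e3] at this; omega
    have c2 : x < (m:ℤ) + r := by
      have := mul q2
      rw [← hm] at this; omega
    have c5 : y < -(b:ℤ) ∨ (b:ℤ) ≤ y := by
      rcases q5 with h | h
      · left
        have := mul (Int.add_one_le_iff.2 h)
        have e3 : (r:ℤ) * -(4 * (P:ℤ)) = -(b:ℤ) := by rw [hb]; ring
        rw [e2, e3] at this; omega
      · right
        have := mul h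
        rw [← hb] at this; omega
    -- the last edge of a path to `(x, y)`
    have last : ∀ I : Set Vtx, (x, y) ∈ Cl src tgt I G → (x, y) ∈ I ∨ ∃ g ∈ G,
        (src g = (x, y) ∨ tgt g = (x, y)) := by
      rintro I ⟨u, hu, h⟩
      rcases Relation.ReflTransGen.cases_tail h with h | ⟨w, -, g, hg, hw⟩
      · left; rw [h]; exact hu
      · right
        rcases hw with ⟨-, h⟩ | ⟨h, -⟩
        · exact ⟨g, hg, Or.inr h⟩
        · exact ⟨g, hg, Or.inl h⟩
    -- rows outside `[-N, N)` are only touched by vertical forced edges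
    have touch : (y < -(N:ℤ) ∨ (N:ℤ) ≤ y) → ∀ g ∈ G, (src g = (x, y) ∨ tgt g = (x, y)) →
        (y = N ∧ g = (x, y - 1, false) ∨ y = -(N:ℤ) - 1 ∧ g = (x, y, false)) ∧ g ∈ O := by
      intro hy g hg hend
      have hbox : dl.symm g ∈ boxE N ∧ (g ∈ O ∨ dl.symm g ∈ boxE b) := by
        rcases hg.1 with h | h
        · have h' := (hS0 g).1 (Finset.mem_inter.1 (Finset.mem_coe.1 h)).2
          refine ⟨?_, Or.inr h'.1⟩
          obtain ⟨x1, y1, _ | _⟩ := g
          · have h2 := h'.1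
            simp only [dls_f, boxE, mem_RE_true] at h2 ⊢; omega
          · have h2 := h'.1
            simp only [dls_t, boxE, mem_RE_false] at h2 ⊢; omega
        · exact ⟨((hO g).1 h).1, Or.inl h⟩
      obtain ⟨x1, y1, _ | _⟩ := g
      · obtain ⟨b1, b2⟩ := hbox
        simp only [dls_f, boxE, mem_RE_true] at b1 b2
        simp only [src_mk, tgt_false, Prod.mk.injEq] at hend ⊢
        refine ⟨?_, ?_⟩
        · simp only [and_true]
          omega
        · rcases b2 with b2 | b2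
          · exact b2
          · omega
      · obtain ⟨b1, b2⟩ := hbox
        simp only [dls_t, boxE, mem_RE_false] at b1
        simp only [src_mk, tgt_true, Prod.mk.injEq] at hend
        omega
    have memL : x ≤ -(m:ℤ) - 1 → (-(N:ℤ) - 1 ≤ y ∧ y ≤ N) → (x, y) ∈ Cl src tgt (lefV N) G :=
      fun h1 h2 => uf_cl_mono hOG (s2e_left hO' hT1 hT2 hmb hbN (by omega)
        (Or.inr ⟨h1, c5⟩) h2.1 h2.2 (Or.inr (by omega)))
    have memR : (m:ℤ) ≤ x → x < N → (-(N:ℤ) - 1 ≤ y ∧ y ≤ N) → (x, y) ∈ Cl src tgt (rigV N) G :=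
      fun h1 h3 h2 => uf_cl_mono hOG (s2e_right hO' hT1 hT2 hmb hbN (by omega)
        (Or.inr ⟨h1, c5⟩) h2.1 h2.2 (Or.inr h3))
    by_cases hside : z.1 < -(W:ℤ)
    · -- left squares
      have hx : x ≤ -(m:ℤ) - 1 := by
        have := mul (Int.add_one_le_iff.2 hside)
        have e3 : (r:ℤ) * -(W:ℤ) = -(m:ℤ) := by rw [hm]; ring
        rw [e1, e3] at this; omega
      have hk : decide (0 < ζ.1) = false := by
        unfold Arnd at ha
        simp only [decide_eq_false_iff_not]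
        omega
      rw [hk] at hcl
      simp only [Bool.false_eq_true, if_false] at hcl
      by_cases hy : -(N:ℤ) - 1 ≤ y ∧ y ≤ N
      · exact hdis _ (memL hx hy) hcl
      · rcases last _ hcl with h | ⟨g, hg, hend⟩
        · simp only [rigV, Set.mem_ofPred_eq] at h
          omega
        · have := (touch (by omega) g hg hend).1
          omega
    · by_cases hside' : (W:ℤ) ≤ z.1
      · -- right squares
        have hx : (m:ℤ) ≤ x := by
          have := mul hside'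
          rw [← hm] at this; omega
        have hk : decide (0 < ζ.1) = true := by
          unfold Arnd at ha
          simp only [decide_eq_true_eq]
          omega
        rw [hk] at hcl
        simp only [if_true] at hcl
        by_cases hy : -(N:ℤ) - 1 ≤ y ∧ y ≤ N
        · exact hdis _ hcl (memR hx (by omega) hy)
        · rcases last _ hcl with h | ⟨g, hg, hend⟩
          · simp only [lefV, Set.mem_ofPred_eq] at h
            omega
          · have := (touch (by omega) g hg hend).1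
            omega
      · -- the squares above and below the tubes
        have hz2 : z.2 = -(16 * (P:ℤ)) - 1 ∨ z.2 = 16 * P := by
          by_contra hcon
          exact hz (hQ' z (by omega) (by omega))
        have hx : -(m:ℤ) ≤ x ∧ x < m := by
          constructor
          · have := mul (not_lt.1 hside)
            have e3 : (r:ℤ) * -(W:ℤ) = -(m:ℤ) := by rw [hm]; ring
            rw [e3] at this; omega
          · have := mul (Int.add_one_le_iff.2 (not_le.1 hside'))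
            rw [e1, ← hm] at this; omega
        have hy : y < -(N:ℤ) ∨ (N:ℤ) ≤ y := by
          rcases hz2 with h | h
          · left
            have e3 : (r:ℤ) * z.2 + r = -(N:ℤ) := by rw [h, hN]; ring
            omega
          · right
            have e3 : (r:ℤ) * z.2 = N := by rw [h, hN]
            omega
        have fin : ∀ I : Set Vtx, (x, y) ∉ I → (x, y) ∉ Cl src tgt I G := by
          intro I hI hc
          rcases last _ hc with h | ⟨g, hg, hend⟩
          · exact hI h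
          · obtain ⟨h1, h2⟩ := touch hy g hg hend
            have h3 := ((hO g).1 h2).2.2
            have hx' : (-(W:ℤ) ≤ z.1 ∧ z.1 < W) := by omega
            rcases h1 with ⟨h4, rfl⟩ | ⟨h4, rfl⟩
            · apply h3
              left
              show fl r (x, y - 1) ∈ Q
              obtain ⟨d1, d2, d3, d4⟩ := s2e_fl hr (x, y - 1)
              apply hQ'
              · have e5 : (fl r (x, y - 1)).1 = (fl r (x, y)).1 := rfl
                rw [e5, hv]; exact hx'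
              · right
                simp only at d3 d4
                constructor
                · by_contra hlt
                  have := mul (Int.add_one_le_iff.2 (not_le.1 hlt))
                  rw [mul_add, mul_one, ← hb] at this
                  omega
                · by_contra hlt
                  have := mul (not_lt.1 hlt)
                  rw [← hN] at this
                  omega
            · apply h3
              right
              show fl r (tgt (x, y, false)) ∈ Q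
              rw [tgt_false]
              obtain ⟨d1, d2, d3, d4⟩ := s2e_fl hr (x, y + 1)
              apply hQ'
              · have e5 : (fl r (x, y + 1)).1 = (fl r (x, y)).1 := rfl
                rw [e5, hv]; exact hx'
              · left
                simp only at d3 d4
                constructor
                · by_contra hlt
                  have := mul (Int.add_one_le_iff.2 (not_le.1 hlt))
                  have e6 : (r:ℤ) * -(16 * (P:ℤ)) = -(N:ℤ) := by rw [hN]; ring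
                  rw [mul_add, mul_one, e6] at this
                  omega
                · by_contra hlt
                  have := mul (not_lt.1 hlt)
                  have e6 : (r:ℤ) * -(4 * (P:ℤ)) = -(b:ℤ) := by rw [hb]; ring
                  rw [e6] at this
                  omega
        refine fin _ ?_ hcl
        split_ifs
        · simp only [lefV, Set.mem_ofPred_eq]; omega
        · simp only [rigV, Set.mem_ofPred_eq]; omega

/-- The environment of the second step: the dual configuration around the corridors. -/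
theorem env_plus {L M2 : ℕ} (hL : 2 ≤ L) (hM2 : 512 ≤ M2) {r m b N : ℕ} (hr : 1 ≤ r)
    (hm : m = M2 * r) (hb : b = 4 * L * m) (hN : N = 16 * L * m)
    {σ σ' : Bool} {k k' : ℤ} {Q1 Q3 : Finset (ℤ × ℤ)} (hsep : SepQ Q1 Q3)
    (h1 : Cor L M2 (4 * L * M2) M2 σ k false Q1) (h3 : Cor L M2 (4 * L * M2) M2 σ' k' true Q3)
    {β : Bool} {QV : Finset Edg}
    (hQV : QV = QE r (Q1 ∪ Q3 ∪ tubQ (4 * L * M2) M2 (16 * L * M2))) :
    Env2 r (16 * L * M2 + 1) (Q1 ∪ Q3 ∪ tubQ (4 * L * M2) M2 (16 * L * M2))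
      (dmp (boxE b \ QV)) (dmp QV) (dmp (boxE N \ (boxE b ∪ QV))) (dmp (XH b m N \ boxE b))
      (lefV N) (rigV N) (dl (e0 β)) := by
  have hr0 : (0:ℤ) < r := by exact_mod_cast hr
  have mul : ∀ {a c : ℤ}, a ≤ c → (r:ℤ) * a ≤ r * c := fun h => mul_le_mul_of_nonneg_left h hr0.le
  have hM2' : (512:ℤ) ≤ M2 := by exact_mod_cast hM2
  have hP : 2 * (M2:ℤ) ≤ (L:ℤ) * M2 :=
    mul_le_mul_of_nonneg_right (by exact_mod_cast hL) (by omega)
  have hmz : (m:ℤ) = r * M2 := by rw [hm]; push_cast; ring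
  have hbz : (b:ℤ) = r * (4 * ((L:ℤ) * M2)) := by rw [hb, hm]; push_cast; ring
  have hNz : (N:ℤ) = r * (16 * ((L:ℤ) * M2)) := by rw [hN, hm]; push_cast; ring
  set Q := Q1 ∪ Q3 ∪ tubQ (4 * L * M2) M2 (16 * L * M2) with hQdef
  have hmb : m ≤ b := by
    have h := mul hP
    have : (m:ℤ) ≤ b := by rw [hmz, hbz]; nlinarith
    exact_mod_cast this
  have hrm : 512 * (r:ℤ) ≤ m := by rw [hmz]; nlinarith
  have h8 : 8 * (m:ℤ) ≤ b := by
    have h := mul hP
    rw [hmz, hbz]; nlinarith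
  have h4 : (N:ℤ) = 4 * b := by rw [hbz, hNz]; ring
  have hbN : b < N := by omega
  have hsq : ∀ z ∈ Q, _ := fun z hz => s2e_sq h1 h3 (z := z) hz
  -- position of the faces of the coarse set
  have pos : ∀ x y : ℤ, (x, y) ∈ FQ r Q →
      (-(b:ℤ) + r ≤ x ∧ x < (b:ℤ) - r ∧ -(b:ℤ) ≤ y ∧ y < b ∧
        (x < -(2 * (m:ℤ)) ∨ 2 * (m:ℤ) ≤ x ∨ y < -(m:ℤ) ∨ (m:ℤ) ≤ y)) ∨
      (-(m:ℤ) ≤ x ∧ x < m ∧ (y < -(b:ℤ) ∨ (b:ℤ) ≤ y)) := by
    intro x y hxy
    obtain ⟨a1, a2, a3, a4⟩ := s2e_fl hr (x, y)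
    have hq := hsq _ hxy
    set z := fl r (x, y) with hz
    simp only at a1 a2 a3 a4
    have e1 : (r:ℤ) * (z.1 + 1) = r * z.1 + r := by ring
    have e2 : (r:ℤ) * (z.2 + 1) = r * z.2 + r := by ring
    have eb : (r:ℤ) * -(4 * ((L:ℤ) * M2)) = -(b:ℤ) := by rw [hbz]; ring
    have em : (r:ℤ) * -(M2:ℤ) = -(m:ℤ) := by rw [hmz]; ring
    rcases hq with ⟨q1, q2, q3, q4, -, -, q7⟩ | ⟨⟨q1, q2⟩, q3⟩
    · left
      have c1 := mul (Int.add_one_le_iff.2 q1)
      have c2 := mul (Int.add_one_le_iff.2 q2)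
      have c3 := mul q3
      have c4 := mul q4
      rw [mul_add, mul_one, eb] at c1
      rw [mul_add, e1, ← hbz, mul_one] at c2
      rw [eb] at c3
      rw [e2, ← hbz] at c4
      refine ⟨by omega, by omega, by omega, by omega, ?_⟩
      rcases q7 with h | h | h | h | h | h
      · left
        have c5 := mul (show z.1 + 1 ≤ -(2 * (M2:ℤ)) by omega)
        have e5 : (r:ℤ) * -(2 * (M2:ℤ)) = -(2 * (m:ℤ)) := by rw [hmz]; ring
        rw [e1, e5] at c5; omega
      · right; left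
        have c5 := mul (show 2 * (M2:ℤ) ≤ z.1 by omega)
        have e5 : (r:ℤ) * (2 * (M2:ℤ)) = 2 * (m:ℤ) := by rw [hmz]; ring
        rw [e5] at c5; omega
      · right; right; left
        have c5 := mul h.le
        rw [e2, em] at c5; omega
      · right; right; right
        have c5 := mul h.le
        rw [← hmz] at c5; omega
      · right; right; right
        rw [h, ← hmz] at a3; omega
      · right; right; left
        have e5 : (r:ℤ) * z.2 + r = -(m:ℤ) := by rw [h, hmz]; ring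
        omega
    · right
      have c1 := mul q1
      have c2 := mul (Int.add_one_le_iff.2 q2)
      rw [em] at c1
      rw [e1, ← hmz] at c2
      refine ⟨by omega, by omega, ?_⟩
      rcases q3 with ⟨-, h⟩ | ⟨h, -⟩
      · left
        have c3 := mul (Int.add_one_le_iff.2 h)
        rw [e2, eb] at c3; omega
      · right
        have c3 := mul h
        rw [← hbz] at c3; omega
  have hT1 : ∀ x y : ℤ, (x, y) ∈ FQ r Q → (y < -(b:ℤ) ∨ (b:ℤ) ≤ y) → -(m:ℤ) ≤ x ∧ x < m := by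
    intro x y h h'
    have := pos x y h
    omega
  have hT2 : ∀ x y : ℤ, (x, y) ∈ FQ r Q → -(b:ℤ) ≤ x ∧ x < b := by
    intro x y h
    have := pos x y h
    omega
  have hQm : ∀ g : Edg, dl.symm g ∈ QV ↔ Tch (FQ r Q) g := by
    intro g
    rw [hQV, s2e_mem hr, Equiv.apply_symm_apply]
  have hS0 : ∀ g, g ∈ dmp (boxE b \ QV) ↔ dl.symm g ∈ boxE b ∧ ¬ Tch (FQ r Q) g := by
    intro g
    rw [mem_dmp, Finset.mem_sdiff, hQm]
  have hO : ∀ g, g ∈ dmp (boxE N \ (boxE b ∪ QV)) ↔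
      dl.symm g ∈ boxE N ∧ dl.symm g ∉ boxE b ∧ ¬ Tch (FQ r Q) g := by
    intro g
    rw [mem_dmp, Finset.mem_sdiff, Finset.mem_union, hQm, not_or]
  have hO' : ∀ g, g ∈ (↑(dmp (boxE N \ (boxE b ∪ QV))) : Set Edg) ↔
      dl.symm g ∈ boxE N ∧ dl.symm g ∉ boxE b ∧ ¬ Tch (FQ r Q) g := by
    intro g
    rw [Finset.mem_coe]
    exact hO g
  have hD : ∀ g, g ∈ dmp QV ↔ Tch (FQ r Q) g := by
    intro g
    rw [mem_dmp, hQm]
  have hsrc : src (dl (e0 β)) = (0, -1) ∨ src (dl (e0 β)) = (-1, 0) := by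
    cases β
    · right; simp [e0]
    · left; simp [e0]
  have hend : ∀ v : Vtx, v = (0, -1) ∨ v = (-1, 0) ∨ v = (0, 0) → v ∉ FQ r Q := by
    rintro v (rfl | rfl | rfl) h <;>
    · have := pos _ _ h
      omega
  have he : dl (e0 β) ∈ dmp (boxE b \ QV) := by
    rw [hS0]
    refine ⟨?_, ?_⟩
    · rw [Equiv.symm_apply_apply]
      cases β
      · simp only [e0, boxE, mem_RE_false]; omega
      · simp only [e0, boxE, mem_RE_true]; omega
    · rintro (h | h)
      · exact hend _ (by rcases hsrc with h | h <;> simp [h]) h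
      · refine hend _ (Or.inr (Or.inr ?_)) h
        rw [tgt_dl]; rfl
  refine ⟨hr, ?_, ?_, ?_, ?_, ?_, ?_, ?_, he, ?_, ?_, ?_⟩
  · -- box
    intro z hz
    have := hsq z hz
    have e16 : (16:ℤ) * L * M2 = 16 * ((L:ℤ) * M2) := by ring
    push_cast
    rw [e16, abs_le, abs_le]
    omega
  · -- dS
    rw [Finset.disjoint_left]
    intro g h1 h2
    exact ((hS0 g).1 h1).2 ((hD g).1 h2)
  · -- dO
    rw [Finset.disjoint_left]
    intro g h1 h2
    have a := (hO g).1 h1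
    rcases Finset.mem_union.1 h2 with h | h
    · exact a.2.1 ((hS0 g).1 h).1
    · exact a.2.2 ((hD g).1 h)
  · -- hOO
    intro g hg
    rw [mem_dmp, Finset.mem_sdiff, XH, Finset.mem_union] at hg
    obtain ⟨hg1, hg2⟩ := hg
    have hg3 := hg1.resolve_left hg2
    rw [hO]
    obtain ⟨x, y, _ | _⟩ := g
    · simp only [dls_f, boxE, mem_RE_true] at hg2 hg3 ⊢
      refine ⟨by omega, hg2, ?_⟩
      refine s2e_not_tch (x := x) (y := y) (x' := x) (y' := y + 1) rfl (by simp) ?_ ?_ <;>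
      · intro h
        have := pos _ _ h
        omega
    · simp only [dls_t, boxE, mem_RE_false] at hg2 hg3 ⊢
      refine ⟨by omega, hg2, ?_⟩
      refine s2e_not_tch (x := x) (y := y) (x' := x + 1) (y' := y) rfl (by simp) ?_ ?_ <;>
      · intro h
        have := pos _ _ h
        omega
  · intro g hg
    exact (hD g).1 hg
  · intro g hg
    rcases Finset.mem_union.1 hg with h | h
    · exact ((hS0 g).1 h).2
    · exact ((hO g).1 h).2.2
  · -- hO
    intro g hg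
    obtain ⟨g1, g2, g3⟩ := (hO g).1 hg
    have tube : ∀ x y : ℤ, -(N:ℤ) ≤ y → y < N → (y < -(b:ℤ) ∨ (b:ℤ) ≤ y) → (x, y) ∉ FQ r Q →
        x < -(m:ℤ) ∨ (m:ℤ) ≤ x := by
      intro x y hy1 hy2 hy3 hn
      by_contra hcon
      push Not at hcon
      obtain ⟨hx1, hx2⟩ := hcon
      apply hn
      show fl r (x, y) ∈ Q
      obtain ⟨a1, a2, a3, a4⟩ := s2e_fl hr (x, y)
      set z := fl r (x, y) with hz
      simp only at a1 a2 a3 a4
      rw [hQdef, Finset.mem_union]
      right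
      simp only [tubQ, Finset.mem_product, Finset.mem_Ico, Finset.mem_union]
      push_cast
      have e4 : (4:ℤ) * L * M2 = 4 * ((L:ℤ) * M2) := by ring
      have e16 : (16:ℤ) * L * M2 = 16 * ((L:ℤ) * M2) := by ring
      have e1 : (r:ℤ) * (z.1 + 1) = r * z.1 + r := by ring
      have e2 : (r:ℤ) * (z.2 + 1) = r * z.2 + r := by ring
      have eb : (r:ℤ) * -(4 * ((L:ℤ) * M2)) = -(b:ℤ) := by rw [hbz]; ring
      have eN : (r:ℤ) * -(16 * ((L:ℤ) * M2)) = -(N:ℤ) := by rw [hNz]; ring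
      have em : (r:ℤ) * -(M2:ℤ) = -(m:ℤ) := by rw [hmz]; ring
      rw [e4, e16]
      refine ⟨⟨?_, ?_⟩, ?_⟩
      · by_contra h
        have c := mul (Int.add_one_le_iff.2 (not_le.1 h))
        rw [e1, em] at c; omega
      · by_contra h
        have c := mul (not_lt.1 h)
        rw [← hmz] at c; omega
      · rcases hy3 with hy3 | hy3
        · left
          constructor
          · by_contra h
            have c := mul (Int.add_one_le_iff.2 (not_le.1 h))
            rw [e2, eN] at c; omega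
          · by_contra h
            have c := mul (not_lt.1 h)
            rw [eb] at c; omega
        · right
          constructor
          · by_contra h
            have c := mul (Int.add_one_le_iff.2 (not_le.1 h))
            rw [e2, ← hbz] at c; omega
          · by_contra h
            have c := mul (not_lt.1 h)
            rw [← hNz] at c; omega
    have side : ∀ x y : ℤ, -(N:ℤ) - 1 ≤ x → x ≤ N → -(N:ℤ) - 1 ≤ y → y ≤ N →
        (-(N:ℤ) ≤ y ∧ y < N ∨ (-(N:ℤ) ≤ x ∧ x < N)) →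
        (x ≤ -(b:ℤ) - 1 ∨ (b:ℤ) ≤ x ∨ ((y < -(b:ℤ) ∨ (b:ℤ) ≤ y) ∧ (x < -(m:ℤ) ∨ (m:ℤ) ≤ x))) →
        (x, y) ∈ Cl src tgt (lefV N) (↑(dmp (boxE N \ (boxE b ∪ QV))) : Set Edg) ∨
        (x, y) ∈ Cl src tgt (rigV N) (↑(dmp (boxE N \ (boxE b ∪ QV))) : Set Edg) := by
      intro x y hx1 hx2 hy1 hy2 hcor hc
      by_cases hl : x ≤ -(b:ℤ) - 1 ∨ (x ≤ -(m:ℤ) - 1 ∧ (y < -(b:ℤ) ∨ (b:ℤ) ≤ y))
      · left
        exact s2e_left hO' hT1 hT2 hmb hbN hx1 hl hy1 hy2 (by omega)
      · right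
        exact s2e_right hO' hT1 hT2 hmb hbN hx2 (by omega) hy1 hy2 (by omega)
    obtain ⟨x, y, _ | _⟩ := g
    · simp only [dls_f, boxE, mem_RE_true] at g1 g2
      have t1 : (x, y) ∉ FQ r Q := fun h => g3 (Or.inl h)
      have t2 : (x, y + 1) ∉ FQ r Q := fun h => g3 (Or.inr h)
      rw [src_mk]
      have u1 := tube x y
      have u2 := tube x (y + 1)
      apply side x y (by omega) (by omega) (by omega) (by omega) (by omega)
      by_cases hy : y = -(N:ℤ) - 1
      · have := u2 (by omega) (by omega) (by omega) t2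
        omega
      · by_cases hy' : y < -(b:ℤ) ∨ (b:ℤ) ≤ y
        · have := u1 (by omega) (by omega) hy' t1
          omega
        · omega
    · simp only [dls_t, boxE, mem_RE_false] at g1 g2
      have t1 : (x, y) ∉ FQ r Q := fun h => g3 (Or.inl h)
      rw [src_mk]
      have u1 := tube x y
      apply side x y (by omega) (by omega) (by omega) (by omega) (by omega)
      by_cases hy' : y < -(b:ℤ) ∨ (b:ℤ) ≤ y
      · have := u1 (by omega) (by omega) hy' t1
        omega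
      · omega
  · -- hfe
    rintro ⟨x, y⟩ hu
    have := pos x y hu
    rcases hsrc with h | h
    · rw [h]
      simp only
      rw [le_abs, le_abs]
      omega
    · rw [h]
      simp only
      rw [le_abs, le_abs]
      omega
  · -- hIJ
    rintro v hv ⟨x, y⟩ hu
    have := pos x y hu
    left
    rw [le_abs]
    rcases hv with hv | hv
    · simp only [lefV, Set.mem_ofPred_eq] at hv
      simp only
      omega
    · simp only [rigV, Set.mem_ofPred_eq] at hv
      simp only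
      omega
  · -- hcase
    have e4 : (4:ℤ) * L * M2 = 4 * ((L:ℤ) * M2) := by ring
    have e16 : (16:ℤ) * L * M2 = 16 * ((L:ℤ) * M2) := by ring
    refine s2e_case (W := M2) (P := L * M2) (b := b) (m := m) hr (by omega)
      (by nlinarith) hmz (by rw [hbz]; push_cast; ring)
      (by rw [hNz]; push_cast; ring) ?_ ?_ hS0 hO he hT1 hT2
    · intro z hz
      have := hsq z hz
      push_cast
      omega
    · intro z h1 h2
      push_cast at h2
      rw [hQdef, Finset.mem_union]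
      right
      simp only [tubQ, Finset.mem_product, Finset.mem_Ico, Finset.mem_union]
      push_cast
      rw [e4, e16]
      exact ⟨h1, h2⟩

end H12S
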