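import Pool.Agent.H12R2.Sep.Defs

/-!
Exit of a thin box (deterministic lemma): if the four-arm event holds in the thin box
`[-2Lm, 2Lm] × [-m, m]`, no long crossing and no `H3` event occurs, then the two primal arms land in
cells of the top and bottom sides whose clusters stay away from each other.
-/

set_option maxHeartbeats 400000

namespace H12S

open H974 Finset

/-- The half ball below the line `y = y0`. -/
noncomputable def hbD (x0 y0 : ℤ) (ρ : ℕ) : Finset Edg := RE (x0 - ρ) (x0 + ρ) (y0 - ρ) y0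

def rimD (x0 y0 : ℤ) (ρ : ℕ) : Set Vtx :=
  {v | inR (x0 - ρ) (x0 + ρ) (y0 - ρ) y0 v ∧ (v.1 = x0 - ρ ∨ v.1 = x0 + ρ ∨ v.2 = y0 - ρ)}

/-- `H3` at the top (`σ = true`) or bottom side of `[-∞,∞] × [-m,m]`, inside the strip. -/
def H3s (σ : Bool) (m : ℕ) (x0 : ℤ) (r ρ : ℕ) (F : Set Edg) : Prop :=
  if σ then H3g (hbD x0 m ρ) (segH x0 m r) (rimD x0 m ρ) F
  else H3g (hbU x0 (-m) ρ) (segH x0 (-m) r) (rimU x0 (-m) ρ) F

/-- The boundary cell with centre `x0` and half-length `r` on side `σ`. -/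
def cell (σ : Bool) (m : ℕ) (x0 : ℤ) (r : ℕ) : Set Vtx := segH x0 (if σ then (m:ℤ) else -m) r

/-- The event `Q_ij` : `src e` is connected to cell `i`, `tgt e` to cell `j`, and the clusters of
the cells do not reach the neighbourhoods (half-length `2ρ`) of the other cell. -/
def Qev (m r ρ : ℕ) (σ : Bool) (x : ℤ) (σ' : Bool) (x' : ℤ) (e : Edg) (F : Set Edg) : Prop :=
  (∃ u ∈ cell σ m x r, Reach (F \ {e}) (src e) u) ∧
    (∃ u ∈ cell σ' m x' r, Reach (F \ {e}) (tgt e) u) ∧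
    (∀ u ∈ cell σ m x r, ∀ w ∈ cell σ' m x' (2 * ρ), ¬ Reach (F \ {e}) u w) ∧
    (∀ u ∈ cell σ' m x' r, ∀ w ∈ cell σ m x (2 * ρ), ¬ Reach (F \ {e}) u w)

/-- Half balls on both sides. -/
noncomputable def HB (σ : Bool) (m : ℕ) (x0 : ℤ) (R : ℕ) : Finset Edg :=
  if σ then hbD x0 m R else hbU x0 (-m) R

/-- Rims of the half balls. -/
def rimS (σ : Bool) (m : ℕ) (x0 : ℤ) (R : ℕ) : Set Vtx :=
  if σ then rimD x0 m R else rimU x0 (-m) R

/-- Not in the interior of the half ball. -/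
def OutS (σ : Bool) (m : ℕ) (x0 : ℤ) (R : ℕ) (v : Vtx) : Prop :=
  v.1 ≤ x0 - R ∨ x0 + R ≤ v.1 ∨ (if σ then v.2 ≤ m - R else -m + R ≤ v.2)

/-- The ordinate of the side. -/
def sy (σ : Bool) (m : ℕ) : ℤ := if σ then (m:ℤ) else -m

theorem H3s_iff {σ : Bool} {m : ℕ} {x0 : ℤ} {r ρ : ℕ} {F : Set Edg} :
    H3s σ m x0 r ρ F ↔ H3g (HB σ m x0 ρ) (cell σ m x0 r) (rimS σ m x0 ρ) F := by
  cases σ <;> simp [H3s, HB, rimS, cell]

theorem mem_cell {σ : Bool} {m : ℕ} {x0 : ℤ} {r : ℕ} {v : Vtx} :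
    v ∈ cell σ m x0 r ↔ v.2 = sy σ m ∧ x0 - r ≤ v.1 ∧ v.1 ≤ x0 + r := Iff.rfl

theorem reach_strip {A B : ℤ} {m : ℕ} {F : Set Edg} (hF : F ⊆ ↑(RE A B (-m) m)) {u v : Vtx}
    (hu : -m ≤ u.2 ∧ u.2 ≤ m) (h : Reach F u v) : -m ≤ v.2 ∧ v.2 ≤ m := by
  induction h with
  | refl => exact hu
  | @tail w w' _ hs ih =>
    obtain ⟨⟨x, y, _ | _⟩, he, hc⟩ := hs
    · have h1 := hF he
      rw [mem_coe, mem_RE_false] at h1
      simp only [src_mk, tgt_false] at hc
      rcases hc with ⟨-, h2⟩ | ⟨h2, -⟩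
      · rw [← h2]; simp only; omega
      · rw [← h2]; simp only; omega
    · have h1 := hF he
      rw [mem_coe, mem_RE_true] at h1
      simp only [src_mk, tgt_true] at hc
      rcases hc with ⟨-, h2⟩ | ⟨h2, -⟩
      · rw [← h2]; simp only; omega
      · rw [← h2]; simp only; omega

theorem exit_top {A B : ℤ} {m : ℕ} {F : Set Edg} (hF : F ⊆ ↑(RE A B (-m) m)) {a b c : ℤ}
    {u v : Vtx} (hu0 : -m ≤ u.2) (hu : inR a b c m u) (h : Reach F u v)
    (hv : v.1 ≤ a ∨ b ≤ v.1 ∨ v.2 ≤ c) :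
    ∃ w, inR a b c m w ∧ (w.1 = a ∨ w.1 = b ∨ w.2 = c) ∧ Reach (F ∩ ↑(RE a b c m)) u w := by
  obtain ⟨w, h1, h2, h3⟩ := first_exit (G := F) (a := a) (b := b) (c := c) (d := m + 1)
    (by unfold inR at hu ⊢; omega) h (by omega)
  have h4 := reach_strip hF ⟨hu0, hu.2.2⟩ (h3.mono Set.inter_subset_left)
  unfold inR at h1
  refine ⟨w, by unfold inR; omega, by omega, h3.mono ?_⟩
  rintro ⟨x, y, _ | _⟩ ⟨h5, h6⟩
  · have h7 := hF h5
    refine ⟨h5, ?_⟩
    rw [mem_coe, mem_RE_false] at h6 h7 ⊢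
    omega
  · have h7 := hF h5
    refine ⟨h5, ?_⟩
    rw [mem_coe, mem_RE_true] at h6 h7 ⊢
    omega

theorem exit_bot {A B : ℤ} {m : ℕ} {F : Set Edg} (hF : F ⊆ ↑(RE A B (-m) m)) {a b d : ℤ}
    {u v : Vtx} (hu0 : u.2 ≤ m) (hu : inR a b (-m) d u) (h : Reach F u v)
    (hv : v.1 ≤ a ∨ b ≤ v.1 ∨ d ≤ v.2) :
    ∃ w, inR a b (-m) d w ∧ (w.1 = a ∨ w.1 = b ∨ w.2 = d) ∧ Reach (F ∩ ↑(RE a b (-m) d)) u w := by
  obtain ⟨w, h1, h2, h3⟩ := first_exit (G := F) (a := a) (b := b) (c := -m - 1) (d := d)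
    (by unfold inR at hu ⊢; omega) h (by omega)
  have h4 := reach_strip hF ⟨hu.2.1, hu0⟩ (h3.mono Set.inter_subset_left)
  unfold inR at h1
  refine ⟨w, by unfold inR; omega, by omega, h3.mono ?_⟩
  rintro ⟨x, y, _ | _⟩ ⟨h5, h6⟩
  · have h7 := hF h5
    refine ⟨h5, ?_⟩
    rw [mem_coe, mem_RE_false] at h6 h7 ⊢
    omega
  · have h7 := hF h5
    refine ⟨h5, ?_⟩
    rw [mem_coe, mem_RE_true] at h6 h7 ⊢
    omega

/-- A path from a boundary cell to the outside of the half ball reaches the rim inside the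
half ball. -/
theorem exit_half {A B : ℤ} (σ : Bool) {m R r : ℕ} {x0 : ℤ} {F : Set Edg}
    (hF : F ⊆ ↑(RE A B (-m) m)) (hrR : r ≤ R) {u v : Vtx} (hu : u ∈ cell σ m x0 r)
    (h : Reach F u v) (hv : OutS σ m x0 R v) :
    ∃ b ∈ rimS σ m x0 R, Reach (F ∩ ↑(HB σ m x0 R)) u b := by
  rw [mem_cell] at hu
  unfold sy at hu
  unfold OutS at hv
  cases σ
  · simp only [Bool.false_eq_true, if_false] at hu hv
    obtain ⟨w, h1, h2, h3⟩ := exit_bot hF (a := x0 - R) (b := x0 + R) (d := -m + R)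
      (by omega) (by unfold inR; omega) h (by omega)
    exact ⟨w, ⟨h1, h2⟩, h3⟩
  · simp only [if_true] at hu hv
    obtain ⟨w, h1, h2, h3⟩ := exit_top hF (a := x0 - R) (b := x0 + R) (c := m - R)
      (by omega) (by unfold inR; omega) h (by omega)
    exact ⟨w, ⟨h1, h2⟩, h3⟩

/-- Edges of the half balls are far from the middle of the strip. -/
theorem notMem_HB {σ : Bool} {m R : ℕ} {x0 : ℤ} {e : Edg} (he : e ∈ boxE (m / 4))
    (hR : 2 * R ≤ m) (hm : 4 ≤ m) : e ∉ (↑(HB σ m x0 R) : Set Edg) := by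
  intro h
  unfold boxE at he
  obtain ⟨x, y, _ | _⟩ := e
  · rw [mem_RE_false] at he
    cases σ
    · change _ ∈ (↑(hbU x0 (-m) R) : Set Edg) at h
      unfold hbU at h
      rw [mem_coe, mem_RE_false] at h
      omega
    · change _ ∈ (↑(hbD x0 m R) : Set Edg) at h
      unfold hbD at h
      rw [mem_coe, mem_RE_false] at h
      omega
  · rw [mem_RE_true] at he
    cases σ
    · change _ ∈ (↑(hbU x0 (-m) R) : Set Edg) at h
      unfold hbU at h
      rw [mem_coe, mem_RE_true] at h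
      omega
    · change _ ∈ (↑(hbD x0 m R) : Set Edg) at h
      unfold hbD at h
      rw [mem_coe, mem_RE_true] at h
      omega

/-- If `H3s` does not hold, two vertices of the cell connected to the outside of the half ball are
connected. -/
theorem conn_of_not_H3s {A B : ℤ} {σ : Bool} {m R r : ℕ} {x0 : ℤ} {e : Edg} {F : Set Edg}
    (hF : F ⊆ ↑(RE A B (-m) m)) (hrR : r ≤ R) (hR : 2 * R ≤ m) (hm : 4 ≤ m)
    (he : e ∈ boxE (m / 4)) (hn : ¬ H3s σ m x0 r R F) {u v a b : Vtx}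
    (hu : u ∈ cell σ m x0 r) (hv : v ∈ cell σ m x0 r) (hua : Reach (F \ {e}) u a)
    (hvb : Reach (F \ {e}) v b) (ha : OutS σ m x0 R a) (hb : OutS σ m x0 R b) :
    Reach (F \ {e}) u v := by
  have hsub : F ∩ ↑(HB σ m x0 R) ⊆ F \ {e} := by
    rintro x ⟨h1, h2⟩
    refine ⟨h1, ?_⟩
    rintro rfl
    exact notMem_HB he hR hm h2
  rw [H3s_iff] at hn
  by_contra hcon
  apply hn
  obtain ⟨b1, hb1, hr1⟩ := exit_half σ hF hrR hu (hua.mono Set.sdiff_subset) ha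
  obtain ⟨b2, hb2, hr2⟩ := exit_half σ hF hrR hv (hvb.mono Set.sdiff_subset) hb
  exact ⟨u, hu, v, hv, ⟨b1, hb1, hr1⟩, ⟨b2, hb2, hr2⟩, fun h => hcon (h.mono hsub)⟩

/-- Endpoints of `e` are outside the half balls. -/
theorem out_src {σ : Bool} {m R : ℕ} {x0 : ℤ} {v : Vtx} (hv : |v.2| ≤ (m / 4 : ℕ))
    (hR : 2 * R ≤ m) : OutS σ m x0 R v := by
  unfold OutS
  rw [abs_le] at hv
  right; right
  cases σ
  · simp only [Bool.false_eq_true, if_false]
    omega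
  · simp only [if_true]
    omega

/-- The opposite side is outside the half balls. -/
theorem out_opp {σ σ' : Bool} {m R : ℕ} {x0 : ℤ} {w : Vtx} (hss : ¬ σ = σ') (hw : w.2 = sy σ' m)
    (hR : R ≤ 2 * m) : OutS σ m x0 R w := by
  unfold OutS
  unfold sy at hw
  right; right
  cases σ
  · cases σ'
    · exact absurd rfl hss
    · simp only [if_true] at hw
      simp only [Bool.false_eq_true, if_false]
      omega
  · cases σ'
    · simp only [Bool.false_eq_true, if_false] at hw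
      simp only [if_true]
      omega
    · exact absurd rfl hss

theorem ends_box {m : ℕ} {e : Edg} (he : e ∈ boxE m) :
    (|(src e).1| ≤ m ∧ |(src e).2| ≤ m) ∧ (|(tgt e).1| ≤ m ∧ |(tgt e).2| ≤ m) := by
  unfold boxE at he
  obtain ⟨x, y, _ | _⟩ := e
  · rw [mem_RE_false] at he
    simp only [src_mk, tgt_false, abs_le]
    omega
  · rw [mem_RE_true] at he
    simp only [src_mk, tgt_true, abs_le]
    omega

/-- Rounding. -/
theorem round_cell (x : ℤ) {r : ℕ} (hr : 1 ≤ r) :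
    ∃ k : ℤ, 2 * r * k - r ≤ x ∧ x ≤ 2 * r * k + r := by
  have h2 : (0:ℤ) < 2 * r := by omega
  refine ⟨(x + r) / (2 * r), ?_⟩
  have h3 := Int.mul_ediv_add_emod (x + r) (2 * r)
  have h4 := Int.emod_nonneg (x + r) h2.ne'
  have h5 := Int.emod_lt_of_pos (x + r) h2
  constructor
  · linarith
  · linarith

/-- Deterministic exit lemma. Small cells: centres `2 r k`; big cells: centres `4 ρ k`,
half-length `8 ρ`, radius `m/2`. The thin box is `[-2Lm, 2Lm] × [-m, m]`. -/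
theorem exit_det {L m r ρ : ℕ} (hL : 2 ≤ L) (hr : 1 ≤ r) (hρ : 8 * r ≤ ρ) (hm : 64 * ρ ≤ m)
    {e : Edg} (he : e ∈ boxE (m / 4)) {F : Set Edg}
    (hF : F ⊆ ↑(RE (-(2 * L * m : ℕ)) (2 * L * m : ℕ) (-m) m))
    (hA : A4 (-(2 * L * m : ℕ)) (2 * L * m : ℕ) (-m) m e F)
    (hend : ∀ u v : Vtx, |u.1| ≤ m → |u.2| ≤ m → Reach (F \ {e}) u v → |v.1| < (L * m : ℕ))
    (h1 : ∀ (σ : Bool) (k : ℤ), |2 * r * k| ≤ (L * m : ℕ) + r →
      ¬ H3s σ m (2 * r * k) r ρ F)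
    (h2 : ∀ (σ : Bool) (k : ℤ), |4 * ρ * k| ≤ (L * m : ℕ) + 8 * ρ →
      ¬ H3s σ m (4 * ρ * k) (8 * ρ) (m / 2) F) :
    ∃ (σ σ' : Bool) (k k' : ℤ), |2 * r * k| ≤ (L * m : ℕ) + r ∧ |2 * r * k'| ≤ (L * m : ℕ) + r ∧
      Qev m r ρ σ (2 * r * k) σ' (2 * r * k') e F := by
  obtain ⟨N, hN⟩ : ∃ N : ℕ, N = L * m := ⟨_, rfl⟩
  have hN2 : 2 * L * m = 2 * N := by rw [hN]; ring
  have hNm : m ≤ N := by rw [hN]; exact Nat.le_mul_of_pos_left _ (by omega)
  rw [hN2] at hF hA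
  simp only [← hN] at hend h1 h2 ⊢
  obtain ⟨⟨hs1, hs2⟩, ht1, ht2⟩ := ends_box he
  have hset : F ∩ ↑(RE (-((2 * N : ℕ) : ℤ)) ((2 * N : ℕ) : ℤ) (-m) m) = F :=
    Set.inter_eq_left.mpr hF
  obtain ⟨⟨u0, hu0, hru⟩, ⟨v0, hv0, hrv⟩, hne⟩ := hA
  rw [hset] at hru hrv hne
  have hm4 : 4 ≤ m := by omega
  have s1 : |(src e).1| ≤ m := hs1.trans (by omega)
  have s2 : |(src e).2| ≤ m := hs2.trans (by omega)
  have t1 : |(tgt e).1| ≤ m := ht1.trans (by omega)
  have t2 : |(tgt e).2| ≤ m := ht2.trans (by omega)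
  -- Lemma A
  have lemA : ∀ (σ : Bool) (u v : Vtx), u.2 = sy σ m → v.2 = sy σ m → |u.1 - v.1| ≤ 6 * ρ →
      Reach (F \ {e}) (src e) u → Reach (F \ {e}) (tgt e) v → False := by
    intro σ u v hu hv huv hru hrv
    obtain ⟨k, hk1, hk2⟩ := round_cell u.1 (r := 2 * ρ) (by omega)
    have hk : 2 * ((2 * ρ : ℕ) : ℤ) * k = 4 * ρ * k := by push_cast; ring
    rw [hk] at hk1 hk2
    have hub := hend _ _ s1 s2 hru
    rw [abs_lt] at hub
    rw [abs_le] at huv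
    have hkb : |4 * ρ * k| ≤ ((N : ℕ) : ℤ) + 8 * ρ := by
      rw [abs_le]
      push_cast at hk1 hk2
      constructor <;> linarith
    apply hne
    refine hru.trans (Reach.trans ?_ hrv.symm)
    refine conn_of_not_H3s hF (by omega) (by omega) hm4 he (h2 σ k hkb) (u := u) (v := v)
      (a := src e) (b := tgt e) ?_ ?_ hru.symm hrv.symm (out_src hs2 (by omega))
      (out_src ht2 (by omega))
    · rw [mem_cell]
      push_cast at hk1 hk2 ⊢
      exact ⟨hu, by linarith, by linarith⟩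
    · rw [mem_cell]
      push_cast at hk1 hk2 ⊢
      exact ⟨hv, by linarith, by linarith⟩
  -- sides
  have side : ∀ v : Vtx, v ∈ bdR (-((2 * N : ℕ) : ℤ)) ((2 * N : ℕ) : ℤ) (-m) m → |v.1| < (N:ℤ) →
      ∃ σ : Bool, v.2 = sy σ m := by
    intro v hv hvN
    rw [abs_lt] at hvN
    obtain ⟨-, h4⟩ := hv
    push_cast at h4
    rcases h4 with h4 | h4 | h4 | h4
    · omega
    · omega
    · exact ⟨false, by simpa [sy] using h4⟩
    · exact ⟨true, by simpa [sy] using h4⟩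
  have huN := hend _ _ s1 s2 hru
  have hvN := hend _ _ t1 t2 hrv
  obtain ⟨σ, hσ⟩ := side u0 hu0 huN
  obtain ⟨σ', hσ'⟩ := side v0 hv0 hvN
  obtain ⟨k, hk1, hk2⟩ := round_cell u0.1 hr
  obtain ⟨k', hk1', hk2'⟩ := round_cell v0.1 hr
  have huN' := abs_lt.mp huN
  have hvN' := abs_lt.mp hvN
  have hkb : |2 * r * k| ≤ (N:ℤ) + r := by rw [abs_le]; constructor <;> linarith
  have hkb' : |2 * r * k'| ≤ (N:ℤ) + r := by rw [abs_le]; constructor <;> linarith
  refine ⟨σ, σ', k, k', hkb, hkb', ⟨u0, ⟨hσ, hk1, hk2⟩, hru⟩, ⟨v0, ⟨hσ', hk1', hk2'⟩, hrv⟩, ?_, ?_⟩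
  · intro u hu w hw hr0
    rw [mem_cell] at hu hw
    have hn1 := h1 σ k hkb
    generalize (2 * r * k : ℤ) = x at *
    generalize (2 * r * k' : ℤ) = x' at *
    have hout : OutS σ m x ρ w := by
      by_cases hss : σ = σ'
      · subst hss
        have hfar : ¬ |u0.1 - v0.1| ≤ 6 * ρ := fun h => lemA σ u0 v0 hσ hσ' h hru hrv
        rw [abs_le] at hfar
        push_cast at hw
        unfold OutS
        omega
      · exact out_opp hss hw.1 (by omega)
    have hconn := conn_of_not_H3s (u := u0) (v := u) hF (by omega) (by omega) hm4 he hn1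
      ⟨hσ, hk1, hk2⟩ hu hru.symm hr0 (out_src hs2 (by omega)) hout
    refine lemA σ' w v0 hw.1 hσ' ?_ (hru.trans (hconn.trans hr0)) hrv
    rw [abs_le]
    push_cast at hw
    omega
  · intro u hu w hw hr0
    rw [mem_cell] at hu hw
    have hn1 := h1 σ' k' hkb'
    generalize (2 * r * k : ℤ) = x at *
    generalize (2 * r * k' : ℤ) = x' at *
    have hout : OutS σ' m x' ρ w := by
      by_cases hss : σ = σ'
      · subst hss
        have hfar : ¬ |u0.1 - v0.1| ≤ 6 * ρ := fun h => lemA σ u0 v0 hσ hσ' h hru hrv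
        rw [abs_le] at hfar
        push_cast at hw
        unfold OutS
        omega
      · exact out_opp (Ne.symm hss) hw.1 (by omega)
    have hconn := conn_of_not_H3s (u := v0) (v := u) hF (by omega) (by omega) hm4 he hn1
      ⟨hσ', hk1', hk2'⟩ hu hrv.symm hr0 (out_src ht2 (by omega)) hout
    refine lemA σ u0 w hσ hw.1 ?_ hru (hrv.trans (hconn.trans hr0))
    rw [abs_le]
    push_cast at hw
    omega

end H12S
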