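import Pool.Agent.H12R2.Sep.Win2
import Pool.Agent.H12R2.Sep.Win1
import Pool.Agent.H973R3.H3.Bound

/-!
The three-arm bound in a half ball.
-/

namespace H12S

open H974 Finset

theorem H3_bound (κ : ℝ) (hκ : 0 < κ) : ∃ C c : ℝ, 0 < C ∧ 0 < c ∧ ∀ (q : ℝ) (n : ℕ),
    Win q κ n → ∀ r ρ : ℕ, 1 ≤ r → r ≤ ρ → ρ ≤ n → ∀ (x0 y0 : ℤ) (S : Finset Edg),
      hbU x0 y0 ρ ⊆ S →
      PQ q S (fun F => H3 x0 y0 r ρ ↑F) ≤ C * ((r:ℝ) / ρ) ^ (1 + c) := by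
  apply H973S.H3_bound_of hκ
  · intro q n h m hm hmn c1 c2 S
    exact (win_blk h hm hmn c1 c2 S).1
  · obtain ⟨C, c, hC, hc, h⟩ := win_arm_of (fun {q κ n} h {m} hm hmn c1 c2 S => win_blk h hm hmn c1 c2 S) κ hκ
    exact ⟨C, c, hC, hc, fun q n hw ρ R h1 h2 h3 c1 c2 S => (h q n hw ρ R h1 h2 h3 c1 c2 S).1⟩

end H12S
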