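import Pool.Agent.H12R2.Sep.Defs2
import Pool.Agent.H12R2.Sep.H3

/-!
Task EP1 (helper747): the three-arm bound on both sides of a strip, `A4` in the thin box together
with an event outside the middle box, and the end event.
-/

set_option maxHeartbeats 400000

namespace H12S

open H974 Finset

/-! ### `H3s_prob` -/

theorem EP_image_inter (g : LSym) (F : Set Edg) (S : Finset Edg) :
    g.φ '' F ∩ ↑(g.mp S) = g.φ '' (F ∩ ↑S) := by
  rw [g.coe_mp, Set.image_inter g.φ.injective]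

theorem EP_H3g (g : LSym) {S : Finset Edg} {I B I' B' : Set Vtx} {F : Set Edg}
    (hI : ∀ v ∈ I, g.ψ v ∈ I') (hB : ∀ v ∈ B, g.ψ v ∈ B') (h : H3g S I B F) :
    H3g (g.mp S) I' B' (g.φ '' F) := by
  obtain ⟨v, hv, v', hv', ⟨b, hb, h1⟩, ⟨b', hb', h2⟩, h3⟩ := h
  refine ⟨g.ψ v, hI v hv, g.ψ v', hI v' hv', ⟨g.ψ b, hB b hb, ?_⟩, ⟨g.ψ b', hB b' hb', ?_⟩, ?_⟩
  · rw [EP_image_inter]
    exact g.reach h1
  · rw [EP_image_inter]
    exact g.reach h2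
  · rw [EP_image_inter, g.reach_iff]
    exact h3

/-- `H3_bound` on both sides of a strip. -/
theorem H3s_prob (κ : ℝ) (hκ : 0 < κ) : ∃ C c : ℝ, 0 < C ∧ 0 < c ∧ ∀ (q : ℝ) (n : ℕ),
    Win q κ n → ∀ r ρ : ℕ, 1 ≤ r → r ≤ ρ → ρ ≤ n → ∀ (σ : Bool) (m : ℕ) (x0 : ℤ) (S : Finset Edg),
      HB σ m x0 ρ ⊆ S →
      PQ q S (fun F => H3s σ m x0 r ρ ↑F) ≤ C * ((r:ℝ) / ρ) ^ (1 + c) := by
  obtain ⟨C, c, hC, hc, h⟩ := H3_bound κ hκ
  refine ⟨C, c, hC, hc, ?_⟩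
  intro q n hw r ρ hr hrρ hρn σ m x0 S hS
  cases σ
  · exact h q n hw r ρ hr hrρ hρn x0 (-m) S hS
  · have hS' : hbU x0 (-m) ρ ⊆ (rfy 0).mp S := by
      refine Finset.Subset.trans ?_ ((rfy 0).mp_mono hS)
      change RE _ _ _ _ ⊆ (rfy 0).mp (RE _ _ _ _)
      rw [rfy_RE]
      exact RE_subset (by omega) (by omega) (by omega) (by omega)
    refine le_trans ?_ (h q n hw r ρ hr hrρ hρn x0 (-m) _ hS')
    unfold PQ
    rw [(rfy 0).pr]
    apply Pr_mono hw.ok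
    intro F _ hF
    have h1 : H3g (hbD x0 m ρ) (segH x0 m r) (rimD x0 m ρ) ↑F := hF
    have h2 := EP_H3g (rfy 0) (I' := segH x0 (-m) r) (B' := rimU x0 (-m) ρ) ?_ ?_ h1
    · have h3 : (rfy 0).mp (hbD x0 m ρ) = hbU x0 (-m) ρ := by
        change (rfy 0).mp (RE _ _ _ _) = RE _ _ _ _
        rw [rfy_RE]
        congr 1 <;> ring
      rw [h3, ← LSym.coe_mp] at h2
      exact h2
    · rintro ⟨x, y⟩ hv
      have hv' : y = m ∧ x0 - r ≤ x ∧ x ≤ x0 + r := hv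
      rw [rfy_ψ]
      refine ⟨?_, hv'.2⟩
      show (0:ℤ) - y = -m
      omega
    · rintro ⟨x, y⟩ hv
      obtain ⟨h3, h4⟩ := hv
      unfold inR at h3
      simp only at h3 h4
      rw [rfy_ψ]
      refine ⟨?_, ?_⟩
      · unfold inR
        simp only
        omega
      · simp only
        omega

/-! ### `a4_indep` -/

theorem EP_A4_sub {a b c d a' b' c' d' : ℤ} (ha : a ≤ a') (hb : b' ≤ b) (hc : c ≤ c')
    (hd : d' ≤ d) {e : Edg} (he : e ∈ RE a' b' c' d') {G : Set Edg} (hA : A4 a b c d e G) :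
    A4 a' b' c' d' e G := by
  have hends : inR a' b' c' d' (src e) ∧ inR a' b' c' d' (tgt e) := by
    obtain ⟨x, y, _ | _⟩ := e
    · rw [mem_RE_false] at he
      simp only [src_mk, tgt_false, inR]
      omega
    · rw [mem_RE_true] at he
      simp only [src_mk, tgt_true, inR]
      omega
  have hsub : (RE a' b' c' d' : Finset Edg) ⊆ RE a b c d := RE_subset ha hb hc hd
  have hmono : (G ∩ ↑(RE a b c d)) \ {e} ∩ ↑(RE a' b' c' d') ⊆ (G ∩ ↑(RE a' b' c' d')) \ {e} := by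
    rintro x ⟨⟨⟨h1, -⟩, h2⟩, h3⟩
    exact ⟨⟨h1, h3⟩, h2⟩
  have key : ∀ u : Vtx, inR a' b' c' d' u → (∃ w ∈ bdR a b c d,
      Reach ((G ∩ ↑(RE a b c d)) \ {e}) u w) → ∃ w ∈ bdR a' b' c' d',
      Reach ((G ∩ ↑(RE a' b' c' d')) \ {e}) u w := by
    rintro u hu ⟨w, ⟨-, hw⟩, hr⟩
    obtain ⟨w', h1, h2, h3⟩ := first_exit hu hr (by omega)
    exact ⟨w', ⟨h1, h2⟩, h3.mono hmono⟩
  obtain ⟨h1, h2, h3⟩ := hA
  refine ⟨key _ hends.1 h1, key _ hends.2 h2, fun h => h3 (h.mono ?_)⟩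
  rintro x ⟨⟨h4, h5⟩, h6⟩
  exact ⟨⟨h4, hsub h5⟩, h6⟩

theorem EP_A4_loc {a b c d : ℤ} {e : Edg} {F : Set Edg} :
    A4 a b c d e F ↔ A4 a b c d e (F ∩ ↑(RE a b c d)) := by
  unfold A4
  rw [Set.inter_assoc, Set.inter_self]

/-- `A4` and translations -/
theorem EP_A4_trl {a b c d s t : ℤ} {x y : ℤ} {β : Bool} {F : Set Edg} (h : A4 a b c d (x, y, β) F) :
    A4 (a + s) (b + s) (c + t) (d + t) (x + s, y + t, β) ((trl s t).φ '' F) := by
  have hset : ((trl s t).φ '' F ∩ ↑(RE (a + s) (b + s) (c + t) (d + t))) \ {(x + s, y + t, β)} =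
      (trl s t).φ '' ((F ∩ ↑(RE a b c d)) \ {(x, y, β)}) := by
    rw [← trl_RE, EP_image_inter, Set.image_sdiff (trl s t).φ.injective, Set.image_singleton,
      trl_φ]
  have hsrc : src (x + s, y + t, β) = (trl s t).ψ (src (x, y, β)) := by
    rw [src_mk, src_mk, trl_ψ]
  have htgt : tgt (x + s, y + t, β) = (trl s t).ψ (tgt (x, y, β)) := by
    cases β
    · rw [tgt_false, tgt_false, trl_ψ]
      congr 1; ring
    · rw [tgt_true, tgt_true, trl_ψ]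
      congr 1; ring
  have hbd : ∀ w ∈ bdR a b c d, (trl s t).ψ w ∈ bdR (a + s) (b + s) (c + t) (d + t) := by
    rintro ⟨w1, w2⟩ ⟨h1, h2⟩
    unfold inR at h1
    simp only at h1 h2
    rw [trl_ψ]
    refine ⟨?_, ?_⟩
    · unfold inR
      simp only
      omega
    · simp only
      omega
  obtain ⟨⟨w, hw, h1⟩, ⟨w', hw', h2⟩, h3⟩ := h
  unfold A4
  rw [hset, hsrc, htgt]
  refine ⟨⟨_, hbd w hw, (trl s t).reach h1⟩, ⟨_, hbd w' hw', (trl s t).reach h2⟩, ?_⟩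
  rw [LSym.reach_iff]
  exact h3

/-- The local four-arm probability. -/
theorem EP_local {q : ℝ} (h0 : 0 ≤ q) (h1 : q ≤ 1) (k : ℕ) (e : Edg) {S : Finset Edg}
    (hS : RE (e.1 - k) (e.1 + k) (e.2.1 - k) (e.2.1 + k) ⊆ S) :
    PQ q S (fun F => A4 (e.1 - k) (e.1 + k) (e.2.1 - k) (e.2.1 + k) e ↑F) ≤ a4 q k := by
  obtain ⟨x, y, β⟩ := e
  simp only at hS ⊢
  have hok : Ok (fun _ : Edg => q) := okq h0 h1
  unfold PQ
  rw [Pr_local hS (fun F _ => by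
    rw [EP_A4_loc, Finset.coe_inter])]
  have h2 : (trl (-x) (-y)).mp (RE (x - k) (x + k) (y - k) (y + k)) = boxE k := by
    rw [trl_RE]
    unfold boxE
    congr 1 <;> ring
  have h3 : Pr (fun _ : Edg => q) (RE (x - k) (x + k) (y - k) (y + k))
      (fun F => A4 (x - k) (x + k) (y - k) (y + k) (x, y, β) ↑F) ≤
      Pr (fun _ : Edg => q) (boxE k) (fun F => A4 (-k) k (-k) k (e0 β) ↑F) := by
    rw [← h2, LSym.pr]
    apply Pr_mono hok
    intro F _ hF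
    have h4 := EP_A4_trl (s := -x) (t := -y) hF
    rw [← LSym.coe_mp] at h4
    have e1 : x - (k:ℤ) + -x = -k := by ring
    have e2 : x + (k:ℤ) + -x = k := by ring
    have e3 : y - (k:ℤ) + -y = -k := by ring
    have e4 : y + (k:ℤ) + -y = k := by ring
    have e5 : ((x + -x, y + -y, β) : Edg) = e0 β := by
      unfold e0
      rw [add_neg_cancel, add_neg_cancel]
    rw [e1, e2, e3, e4, e5] at h4
    exact h4
  refine h3.trans ?_
  unfold a4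
  have n1 : 0 ≤ PQ q (boxE k) (fun F => A4 (-k) k (-k) k (e0 true) ↑F) := Pr_nonneg hok _ _
  have n2 : 0 ≤ PQ q (boxE k) (fun F => A4 (-k) k (-k) k (e0 false) ↑F) := Pr_nonneg hok _ _
  cases β
  · change PQ q (boxE k) (fun F => A4 (-k) k (-k) k (e0 false) ↑F) ≤ _
    linarith
  · change PQ q (boxE k) (fun F => A4 (-k) k (-k) k (e0 true) ↑F) ≤ _
    linarith

/-- `A4` in the thin box around `e`, together with an event which depends only on edges outside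
`boxE (m/2 - 1)`. -/
theorem a4_indep {q : ℝ} (h0 : 0 ≤ q) (h1 : q ≤ 1) {L m : ℕ} (hL : 2 ≤ L) (hm : 64 ≤ m) {e : Edg}
    (he : e ∈ boxE (m / 4)) {B : Finset Edg → Prop}
    (hB : ∀ F, B F ↔ B (F \ boxE (m / 2 - 1))) :
    PQ q (SR L m) (fun F => A4 (-(2 * L * m : ℕ)) (2 * L * m : ℕ) (-m) m e ↑F ∧ B F) ≤
      a4 q (m / 8) * PQ q (SR L m) B := by
  have hok : Ok (fun _ : Edg => q) := okq h0 h1
  set k : ℕ := m / 8 with hk
  have hLm : m ≤ 2 * L * m := by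
    have : m ≤ L * m := Nat.le_mul_of_pos_left _ (by omega)
    nlinarith
  obtain ⟨x, y, β⟩ := e
  have hxy : (-(m / 4 : ℕ) : ℤ) ≤ x ∧ x ≤ (m / 4 : ℕ) ∧ (-(m / 4 : ℕ) : ℤ) ≤ y ∧
      y ≤ (m / 4 : ℕ) := by
    unfold boxE at he
    cases β
    · rw [mem_RE_false] at he
      omega
    · rw [mem_RE_true] at he
      omega
  have heR : ((x, y, β) : Edg) ∈ RE (x - k) (x + k) (y - k) (y + k) := by
    cases β
    · rw [mem_RE_false]
      omega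
    · rw [mem_RE_true]
      omega
  have hRbox : RE (x - k) (x + k) (y - k) (y + k) ⊆ boxE (m / 2 - 1) := by
    unfold boxE
    exact RE_subset (by omega) (by omega) (by omega) (by omega)
  have hboxS : boxE (m / 2 - 1) ⊆ SR L m := by
    unfold boxE SR
    exact RE_subset (by omega) (by omega) (by omega) (by omega)
  have hRS := hRbox.trans hboxS
  have hloc := EP_local h0 h1 k (x, y, β) hRS
  simp only at hloc
  have hstep : PQ q (SR L m)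
      (fun F => A4 (-(2 * L * m : ℕ)) (2 * L * m : ℕ) (-m) m (x, y, β) ↑F ∧ B F) ≤
      PQ q (SR L m) (fun F => A4 (x - k) (x + k) (y - k) (y + k) (x, y, β) ↑F ∧ B F) := by
    apply Pr_mono hok
    rintro F - ⟨hF, hBF⟩
    exact ⟨EP_A4_sub (by omega) (by omega) (by omega) (by omega) heR hF, hBF⟩
  refine hstep.trans ?_
  have hind := Pr_indep (p := fun _ : Edg => q) (U := SR L m)
    (S := RE (x - k) (x + k) (y - k) (y + k)) (T := SR L m \ boxE (m / 2 - 1))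
    (A := fun F => A4 (x - k) (x + k) (y - k) (y + k) (x, y, β) ↑F) (B := B)
    hRS Finset.sdiff_subset ?_ ?_ ?_
  · unfold PQ
    rw [hind]
    exact mul_le_mul_of_nonneg_right hloc (Pr_nonneg hok _ _)
  · rw [Finset.disjoint_left]
    intro f hf hf'
    exact (Finset.mem_sdiff.1 hf').2 (hRbox hf)
  · intro F _
    show A4 _ _ _ _ _ _ ↔ A4 _ _ _ _ _ _
    rw [EP_A4_loc, Finset.coe_inter]
  · intro F hF
    have h2 : F ∩ (SR L m \ boxE (m / 2 - 1)) = F \ boxE (m / 2 - 1) := by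
      ext f
      rw [Finset.mem_inter, Finset.mem_sdiff, Finset.mem_sdiff]
      constructor
      · rintro ⟨h3, -, h4⟩
        exact ⟨h3, h4⟩
      · rintro ⟨h3, h4⟩
        exact ⟨h3, hF h3, h4⟩
    rw [h2]
    exact hB F

/-! ### `end_prob` -/

/-- The end event, together with `A4`. -/
theorem end_prob (κ : ℝ) (hκ : 0 < κ) : ∃ C c : ℝ, 0 < C ∧ 0 < c ∧ ∀ (q : ℝ) (n : ℕ),
    Win q κ n → ∀ m L : ℕ, 64 ≤ m → 2 ≤ L → 2 * m ≤ n → ∀ e ∈ boxE (m / 4),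
      PQ q (SR L m) (fun F => A4 (-(2 * L * m : ℕ)) (2 * L * m : ℕ) (-m) m e ↑F ∧
        ∃ u v : Vtx, |u.1| ≤ m ∧ |u.2| ≤ m ∧ Reach ((↑F : Set Edg) \ {e}) u v ∧
          (L * m : ℕ) ≤ |v.1|) ≤ a4 q (m / 8) * (C * Real.exp (-c * L)) := by
  obtain ⟨C, c, hC, hc, h⟩ := win_end_of
    (fun {q κ n} h {m} hm hmn c1 c2 S => win_blk h hm hmn c1 c2 S) κ hκ
  refine ⟨C, c, hC, hc, ?_⟩
  intro q n hw m L hm hL hmn e he
  set S0 : Finset Edg := RE (-(L * m : ℕ)) (L * m : ℕ) (-m) m \ boxE (m / 2 - 1) with hS0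
  set B : Finset Edg → Prop := fun F => ∃ u v : Vtx, |u.1| ≤ m ∧ (L * m : ℕ) ≤ |v.1| ∧
    |u.2| ≤ m ∧ Reach (↑(F ∩ S0) : Set Edg) u v with hBdef
  have hB : ∀ F, B F ↔ B (F \ boxE (m / 2 - 1)) := by
    intro F
    have h1 : F ∩ S0 = (F \ boxE (m / 2 - 1)) ∩ S0 := by
      ext f
      simp only [Finset.mem_inter, Finset.mem_sdiff, hS0]
      tauto
    show (∃ u v : Vtx, |u.1| ≤ m ∧ (L * m : ℕ) ≤ |v.1| ∧ |u.2| ≤ m ∧
      Reach (↑(F ∩ S0) : Set Edg) u v) ↔ ∃ u v : Vtx, |u.1| ≤ m ∧ (L * m : ℕ) ≤ |v.1| ∧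
      |u.2| ≤ m ∧ Reach (↑((F \ boxE (m / 2 - 1)) ∩ S0) : Set Edg) u v
    rw [← h1]
  have hN : ∃ N : ℕ, N = L * m := ⟨_, rfl⟩
  obtain ⟨N, hNdef⟩ := hN
  have hNm : 2 * m ≤ N := by rw [hNdef]; exact Nat.mul_le_mul_right _ hL
  have h2N : 2 * L * m = 2 * N := by rw [hNdef]; ring
  have hS0S : S0 ⊆ SR L m := by
    rw [hS0]
    refine Finset.sdiff_subset.trans ?_
    unfold SR
    rw [h2N, ← hNdef]
    exact RE_subset (by omega) (by omega) (by omega) (by omega)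
  have hcross : ∀ F : Finset Edg, F ⊆ SR L m → (∃ u v : Vtx, |u.1| ≤ m ∧ |u.2| ≤ m ∧
      Reach ((↑F : Set Edg) \ {e}) u v ∧ (L * m : ℕ) ≤ |v.1|) → B F := by
    rintro F hFS ⟨u, v, hu1, hu2, hr, hv⟩
    obtain ⟨x', y', hx', hy', hr'⟩ := WA_cross (F := (↑F : Set Edg) \ {e}) src tgt
      (P := fun v : Vtx => |v.1| ≤ m ∧ |v.2| ≤ m) (Q := fun v : Vtx => (L * m : ℕ) ≤ |v.1|)
      hr ⟨hu1, hu2⟩ hv
    refine ⟨x', y', hx'.1, hy', hx'.2, ?_⟩
    have hr'' : Reach (((↑F : Set Edg) \ {e}) ∩ WA_T src tgt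
      (fun v : Vtx => |v.1| ≤ m ∧ |v.2| ≤ m) (fun v : Vtx => ((L * m : ℕ) : ℤ) ≤ |v.1|)) x' y' := hr'
    refine hr''.mono ?_
    rintro f ⟨⟨hf1, -⟩, hf2, hf3⟩
    have hfS := hFS hf1
    rw [Finset.coe_inter]
    refine ⟨hf1, ?_⟩
    rw [Finset.mem_coe, hS0, Finset.mem_sdiff]
    rw [← hNdef] at hf3 ⊢
    unfold SR at hfS
    rw [h2N] at hfS
    obtain ⟨x, y, _ | _⟩ := f
    · simp only [src_mk, tgt_false, abs_le, le_abs, not_and_or, not_or, not_le] at hf2 hf3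
      rw [mem_RE_false] at hfS ⊢
      unfold boxE
      rw [mem_RE_false]
      omega
    · simp only [src_mk, tgt_true, abs_le, le_abs, not_and_or, not_or, not_le] at hf2 hf3
      rw [mem_RE_true] at hfS ⊢
      unfold boxE
      rw [mem_RE_true]
      omega
  have h1 : PQ q (SR L m) (fun F => A4 (-(2 * L * m : ℕ)) (2 * L * m : ℕ) (-m) m e ↑F ∧
        ∃ u v : Vtx, |u.1| ≤ m ∧ |u.2| ≤ m ∧ Reach ((↑F : Set Edg) \ {e}) u v ∧
          (L * m : ℕ) ≤ |v.1|) ≤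
      PQ q (SR L m) (fun F => A4 (-(2 * L * m : ℕ)) (2 * L * m : ℕ) (-m) m e ↑F ∧ B F) := by
    apply Pr_mono hw.ok
    rintro F hF ⟨hA, hE⟩
    exact ⟨hA, hcross F hF hE⟩
  refine h1.trans ((a4_indep hw.q0 hw.q1 hL hm he hB).trans ?_)
  have h2 : PQ q (SR L m) B ≤ C * Real.exp (-c * L) := by
    have h3 : PQ q (SR L m) B = PQ q S0 B := by
      unfold PQ
      apply Pr_local hS0S
      intro F _
      show (∃ u v : Vtx, |u.1| ≤ m ∧ (L * m : ℕ) ≤ |v.1| ∧ |u.2| ≤ m ∧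
        Reach (↑(F ∩ S0) : Set Edg) u v) ↔ ∃ u v : Vtx, |u.1| ≤ m ∧ (L * m : ℕ) ≤ |v.1| ∧
        |u.2| ≤ m ∧ Reach (↑(F ∩ S0 ∩ S0) : Set Edg) u v
      rw [Finset.inter_assoc, Finset.inter_self]
    rw [h3]
    refine le_trans ?_ (h q n hw m L (by omega) hmn S0 Finset.sdiff_subset)
    apply Pr_mono hw.ok
    rintro F - ⟨u, v, hu, hv, hu2, hr⟩
    refine ⟨u, v, hu, hv, hu2, hr.mono ?_⟩
    rw [Finset.coe_inter]
    exact Set.inter_subset_left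
  have h4 : 0 ≤ a4 q (m / 8) := by
    unfold a4
    exact add_nonneg (Pr_nonneg hw.ok _ _) (Pr_nonneg hw.ok _ _)
  exact mul_le_mul_of_nonneg_left h2 h4

end H12S
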