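import Pool.Agent.H12R2.Sep.Exit1

/-!
EXIT, probabilistic form: four arms in a thin box land in two cells up to a small error.
The three statements of `Sep/Exit1.lean` are hypotheses of `exit_prob_of`.
-/

namespace H12S

open H974 Finset

/-- Index set of pairs of cells. -/
noncomputable def prs (L m r N : ℕ) : Finset ((Bool × ℤ) × (Bool × ℤ)) :=
  ((univ ×ˢ Icc (-(N:ℤ)) N) ×ˢ (univ ×ˢ Icc (-(N:ℤ)) N)).filter (fun p =>
    |2 * r * p.1.2| ≤ (L * m : ℕ) + (r:ℤ) ∧ |2 * r * p.2.2| ≤ (L * m : ℕ) + (r:ℤ))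

namespace EP2

/-- Union bound. -/
theorem pr_biUnion {q : ℝ} (h0 : 0 ≤ q) (h1 : q ≤ 1) {ι : Type*} (S : Finset Edg) (T : Finset ι)
    (A : ι → Finset Edg → Prop) :
    PQ q S (fun F => ∃ i ∈ T, A i F) ≤ ∑ i ∈ T, PQ q S (A i) := by
  classical
  induction T using Finset.induction_on with
  | empty =>
    simp only [Finset.notMem_empty, false_and, exists_false, Finset.sum_empty]
    have := Pr_true (p := fun _ : Edg => q) S (A := fun _ => True) (fun _ _ => trivial)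
    have h2 := Pr_not (p := fun _ : Edg => q) S (fun _ => True)
    simp only [not_true_eq_false] at h2
    rw [this] at h2
    linarith
  | insert a T ha ih =>
    rw [Finset.sum_insert ha]
    refine le_trans (Pr_mono (okq h0 h1) (B := fun F => A a F ∨ ∃ i ∈ T, A i F) ?_)
      ((Pr_or_le (okq h0 h1) S _ _).trans (add_le_add le_rfl ih))
    rintro F _ ⟨i, hi, hA⟩
    rcases Finset.mem_insert.mp hi with rfl | hi
    · exact Or.inl hA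
    · exact Or.inr ⟨i, hi, hA⟩

theorem H3s_congr {σ : Bool} {m R r : ℕ} {x0 : ℤ} {F F' : Set Edg}
    (h : F ∩ ↑(HB σ m x0 R) = F' ∩ ↑(HB σ m x0 R)) :
    H3s σ m x0 r R F ↔ H3s σ m x0 r R F' := by
  rw [H3s_iff, H3s_iff]
  unfold H3g
  rw [h]

theorem HB_notMem {σ : Bool} {m R : ℕ} {x0 : ℤ} (hR : 2 * R ≤ m) (_ : 4 ≤ m) {e : Edg}
    (he : e ∈ HB σ m x0 R) : e ∉ boxE (m / 2 - 1) := by
  intro h
  unfold boxE at h
  obtain ⟨x, y, _ | _⟩ := e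
  · rw [mem_RE_false] at h
    cases σ
    · change _ ∈ hbU x0 (-m) R at he
      unfold hbU at he
      rw [mem_RE_false] at he
      omega
    · change _ ∈ hbD x0 m R at he
      unfold hbD at he
      rw [mem_RE_false] at he
      omega
  · rw [mem_RE_true] at h
    cases σ
    · change _ ∈ hbU x0 (-m) R at he
      unfold hbU at he
      rw [mem_RE_true] at he
      omega
    · change _ ∈ hbD x0 m R at he
      unfold hbD at he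
      rw [mem_RE_true] at he
      omega

theorem HB_sub {σ : Bool} {L m R : ℕ} {x0 : ℤ} (hR : R ≤ 2 * m)
    (h1 : |x0| + R ≤ (2 * L * m : ℕ)) : HB σ m x0 R ⊆ SR L m := by
  have hx := abs_le.mp (le_refl |x0|)
  intro e he
  unfold SR
  obtain ⟨x, y, _ | _⟩ := e
  · rw [mem_RE_false]
    cases σ
    · change _ ∈ hbU x0 (-m) R at he
      unfold hbU at he
      rw [mem_RE_false] at he
      omega
    · change _ ∈ hbD x0 m R at he
      unfold hbD at he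
      rw [mem_RE_false] at he
      omega
  · rw [mem_RE_true]
    cases σ
    · change _ ∈ hbU x0 (-m) R at he
      unfold hbU at he
      rw [mem_RE_true] at he
      omega
    · change _ ∈ hbD x0 m R at he
      unfold hbD at he
      rw [mem_RE_true] at he
      omega

theorem a4_nonneg {q : ℝ} (h0 : 0 ≤ q) (h1 : q ≤ 1) (k : ℕ) : 0 ≤ a4 q k :=
  add_nonneg (Pr_nonneg (okq h0 h1) _ _) (Pr_nonneg (okq h0 h1) _ _)

/-- The statement of `a4_indep`. -/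
def A4Indep : Prop := ∀ {q : ℝ} (_ : 0 ≤ q) (_ : q ≤ 1) {L m : ℕ} (_ : 2 ≤ L) (_ : 64 ≤ m)
    {e : Edg} (_ : e ∈ boxE (m / 4)) {B : Finset Edg → Prop}
    (_ : ∀ F, B F ↔ B (F \ boxE (m / 2 - 1))),
    PQ q (SR L m) (fun F => A4 (-(2 * L * m : ℕ)) (2 * L * m : ℕ) (-m) m e ↑F ∧ B F) ≤
      a4 q (m / 8) * PQ q (SR L m) B

/-- The bound of `H3s_prob`. -/
def H3B (κ C c : ℝ) : Prop := ∀ (q : ℝ) (n : ℕ),
    Win q κ n → ∀ r ρ : ℕ, 1 ≤ r → r ≤ ρ → ρ ≤ n → ∀ (σ : Bool) (m : ℕ) (x0 : ℤ) (S : Finset Edg),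
      HB σ m x0 ρ ⊆ S →
      PQ q S (fun F => H3s σ m x0 r ρ ↑F) ≤ C * ((r:ℝ) / ρ) ^ (1 + c)

/-- The bound of `end_prob`. -/
def EndB (κ C c : ℝ) : Prop := ∀ (q : ℝ) (n : ℕ),
    Win q κ n → ∀ m L : ℕ, 64 ≤ m → 2 ≤ L → 2 * m ≤ n → ∀ e ∈ boxE (m / 4),
      PQ q (SR L m) (fun F => A4 (-(2 * L * m : ℕ)) (2 * L * m : ℕ) (-m) m e ↑F ∧
        ∃ u v : Vtx, |u.1| ≤ m ∧ |u.2| ≤ m ∧ Reach ((↑F : Set Edg) \ {e}) u v ∧
          (L * m : ℕ) ≤ |v.1|) ≤ a4 q (m / 8) * (C * Real.exp (-c * L))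

theorem win01 {q κ : ℝ} {n : ℕ} (h : Win q κ n) : 0 ≤ q ∧ q ≤ 1 :=
  ⟨by linarith [h.lo], by linarith [h.hi]⟩

/-- One `H3` event. -/
theorem term_bound (HA : A4Indep) {κ C c : ℝ} (H3 : H3B κ C c) {q : ℝ} {n : ℕ} (hW : Win q κ n)
    {L m : ℕ} (hL : 2 ≤ L) (hm : 64 ≤ m) {e : Edg} (he : e ∈ boxE (m / 4)) {r R : ℕ} (hr : 1 ≤ r)
    (hrR : r ≤ R) (hR : 2 * R ≤ m) (hn : R ≤ n) (σ : Bool) {x0 : ℤ}
    (hx : |x0| + R ≤ (2 * L * m : ℕ)) :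
    PQ q (SR L m) (fun F => A4 (-(2 * L * m : ℕ)) (2 * L * m : ℕ) (-m) m e ↑F ∧
      H3s σ m x0 r R ↑F) ≤ a4 q (m / 8) * (C * ((r:ℝ) / R) ^ (1 + c)) := by
  obtain ⟨h0, h1⟩ := win01 hW
  refine (HA h0 h1 hL hm he (B := fun F => H3s σ m x0 r R ↑F) ?_).trans
    (mul_le_mul_of_nonneg_left (H3 q n hW r R hr hrR hn σ m x0 _ (HB_sub (by omega) hx))
      (a4_nonneg h0 h1 _))
  intro F
  apply H3s_congr
  ext x
  simp only [Set.mem_inter_iff, Finset.mem_coe, Finset.mem_sdiff]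
  constructor
  · rintro ⟨hxF, hxH⟩
    exact ⟨⟨hxF, HB_notMem hR (by omega) hxH⟩, hxH⟩
  · rintro ⟨⟨hxF, _⟩, hxH⟩
    exact ⟨hxF, hxH⟩

/-- Elementary limit. -/
theorem choose_M (a b C d : ℝ) (_ : 0 ≤ a) (hb : 0 ≤ b) (hC : 0 ≤ C) (hd : 0 ≤ d) {c ε : ℝ}
    (hc : 0 < c) (hε : 0 < ε) (N0 : ℕ) :
    ∃ M : ℕ, N0 ≤ M ∧ (a * M + b) * (C * (d / M) ^ (1 + c)) ≤ ε := by
  have h1 : Filter.Tendsto (fun M : ℕ => ((a + b) * C * d ^ (1 + c)) * (M:ℝ) ^ (-c)) Filter.atTop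
      (nhds (((a + b) * C * d ^ (1 + c)) * 0)) :=
    ((tendsto_rpow_neg_atTop hc).comp tendsto_natCast_atTop_atTop).const_mul _
  rw [mul_zero] at h1
  have h2 := (h1.eventually (gt_mem_nhds hε)).and
    ((Filter.eventually_ge_atTop N0).and (Filter.eventually_ge_atTop 1))
  obtain ⟨M, h3, h4, h5⟩ := h2.exists
  refine ⟨M, h4, ?_⟩
  have hM : (1:ℝ) ≤ M := by exact_mod_cast h5
  have hM0 : (0:ℝ) < M := by linarith
  refine le_trans ?_ h3.le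
  rw [Real.div_rpow hd hM0.le, Real.rpow_neg hM0.le, Real.rpow_add hM0, Real.rpow_one]
  have e1 : a * M + b ≤ (a + b) * M := by nlinarith
  have hdp : 0 ≤ d ^ (1 + c) := Real.rpow_nonneg hd _
  have hMc : 0 < (M:ℝ) ^ c := Real.rpow_pos_of_pos hM0 _
  calc (a * M + b) * (C * (d ^ (1 + c) / (M * (M:ℝ) ^ c)))
      ≤ ((a + b) * M) * (C * (d ^ (1 + c) / (M * (M:ℝ) ^ c))) :=
        mul_le_mul_of_nonneg_right e1 (by positivity)
    _ = (a + b) * C * d ^ (1 + c) * ((M:ℝ) ^ c)⁻¹ := by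
        field_simp

/-- Monotonicity of the bounds in the ratio. -/
theorem ratio_le {x y c : ℝ} (hx : 0 ≤ x) (hxy : x ≤ y) (hc : 0 < c) :
    x ^ (1 + c) ≤ y ^ (1 + c) := Real.rpow_le_rpow hx hxy (by linarith)

theorem div_ge {m M : ℕ} (hM : 1 ≤ M) (h : M ≤ m) : (m:ℝ) / (2 * M) ≤ ((m / M : ℕ) : ℝ) := by
  have h1 : 1 ≤ m / M := (Nat.one_le_div_iff (by omega)).mpr h
  have h2 : m < M * (m / M) + M := by
    have := Nat.div_add_mod m M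
    have := Nat.mod_lt m (show M > 0 by omega)
    omega
  have h3 : m ≤ 2 * M * (m / M) := by nlinarith
  rw [div_le_iff₀ (by positivity)]
  calc (m:ℝ) ≤ ((2 * M * (m / M) : ℕ) : ℝ) := by exact_mod_cast h3
    _ = ((m / M : ℕ) : ℝ) * (2 * M) := by push_cast; ring

end EP2

open EP2

/-- The conclusion of the deterministic exit lemma, for a general landing event `T`. -/
def ExitDet (T : ℕ → ℕ → ℕ → ℕ → Bool → ℤ → Bool → ℤ → Edg → Set Edg → Prop) : Prop :=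
  ∀ {L m r ρ : ℕ} (_ : 2 ≤ L) (_ : 1 ≤ r) (_ : 8 * r ≤ ρ) (_ : 64 * ρ ≤ m)
    {e : Edg} (_ : e ∈ boxE (m / 4)) {F : Set Edg}
    (_ : F ⊆ ↑(RE (-(2 * L * m : ℕ)) (2 * L * m : ℕ) (-m) m))
    (_ : A4 (-(2 * L * m : ℕ)) (2 * L * m : ℕ) (-m) m e F)
    (_ : ∀ u v : Vtx, |u.1| ≤ m → |u.2| ≤ m → Reach (F \ {e}) u v → |v.1| < (L * m : ℕ))
    (_ : ∀ (σ : Bool) (k : ℤ), |2 * r * k| ≤ (L * m : ℕ) + r →
      ¬ H3s σ m (2 * r * k) r ρ F)
    (_ : ∀ (σ : Bool) (k : ℤ), |4 * ρ * k| ≤ (L * m : ℕ) + 8 * ρ →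
      ¬ H3s σ m (4 * ρ * k) (8 * ρ) (m / 2) F),
    ∃ (σ σ' : Bool) (k k' : ℤ), |2 * r * k| ≤ (L * m : ℕ) + r ∧ |2 * r * k'| ≤ (L * m : ℕ) + r ∧
      T L m r ρ σ (2 * r * k) σ' (2 * r * k') e F

theorem exit_prob_gen {T : ℕ → ℕ → ℕ → ℕ → Bool → ℤ → Bool → ℤ → Edg → Set Edg → Prop}
    (HT : ExitDet T) (HA : A4Indep) (κ : ℝ)
    (H3 : ∃ C c : ℝ, 0 < C ∧ 0 < c ∧ H3B κ C c) (HE : ∃ C c : ℝ, 0 < C ∧ 0 < c ∧ EndB κ C c) :
    ∃ C c : ℝ, 0 < C ∧ 0 < c ∧ ∀ (L : ℕ) (δ : ℝ), 2 ≤ L →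
    0 < δ → ∃ M1 M2 N : ℕ, 64 ≤ M1 ∧ 8 * M1 ≤ M2 ∧ ∀ (q : ℝ) (n : ℕ), Win q κ n → ∀ m : ℕ,
      M2 ≤ m → 4 * L * m ≤ n → ∀ e ∈ boxE (m / 4),
      PQ q (SR L m) (fun F => A4 (-(2 * L * m : ℕ)) (2 * L * m : ℕ) (-m) m e ↑F) ≤
        (∑ p ∈ prs L m (m / M2) N, PQ q (SR L m) (fun F =>
          T L m (m / M2) (m / M1) p.1.1 (2 * (m / M2 : ℕ) * p.1.2) p.2.1
            (2 * (m / M2 : ℕ) * p.2.2) e ↑F)) +
        (δ + C * Real.exp (-c * L)) * a4 q (m / 8) := by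
  classical
  obtain ⟨C1, c1, hC1, hc1, H3⟩ := H3
  obtain ⟨C2, c2, hC2, hc2, HE⟩ := HE
  refine ⟨C2, c2, hC2, hc2, ?_⟩
  intro L δ hL hδ
  obtain ⟨M1, hM1, hM1b⟩ := choose_M (4 * L) 10 C1 20 (by positivity) (by norm_num) hC1.le
    (by norm_num) hc1 (half_pos hδ) 64
  obtain ⟨M2, hM2, hM2b⟩ := choose_M (4 * L) 6 C1 (2 * M1) (by positivity) (by norm_num) hC1.le
    (by positivity) hc1 (half_pos hδ) (8 * M1)
  refine ⟨M1, M2, L * M2 + 1, hM1, hM2, ?_⟩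
  intro q n hW m hm hn e he
  obtain ⟨h0, h1⟩ := win01 hW
  obtain ⟨r, hr⟩ : ∃ r : ℕ, r = m / M2 := ⟨_, rfl⟩
  obtain ⟨ρ, hρ⟩ : ∃ ρ : ℕ, ρ = m / M1 := ⟨_, rfl⟩
  have hr1 : 1 ≤ r := by rw [hr]; exact (Nat.one_le_div_iff (by omega)).mpr hm
  have hρ1 : 1 ≤ ρ := by rw [hρ]; exact (Nat.one_le_div_iff (by omega)).mpr (by omega)
  have hmul1 : M1 * ρ ≤ m := by rw [hρ]; exact Nat.mul_div_le m M1
  have hmul2 : M2 * r ≤ m := by rw [hr]; exact Nat.mul_div_le m M2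
  have hlt1 : m < M1 * ρ + M1 := by
    rw [hρ]
    have := Nat.div_add_mod m M1
    have := Nat.mod_lt m (show M1 > 0 by omega)
    omega
  have hlt2 : m < M2 * r + M2 := by
    rw [hr]
    have := Nat.div_add_mod m M2
    have := Nat.mod_lt m (show M2 > 0 by omega)
    omega
  have h64 : 64 * ρ ≤ m := le_trans (Nat.mul_le_mul_right ρ hM1) hmul1
  have h8 : 8 * r ≤ ρ := by
    have : 8 * r * M1 ≤ m := by
      calc 8 * r * M1 = 8 * M1 * r := by ring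
        _ ≤ M2 * r := Nat.mul_le_mul_right r hM2
        _ ≤ m := hmul2
    rw [hρ]
    exact (Nat.le_div_iff_mul_le (by omega)).mpr this
  have hm64 : 64 ≤ m := by omega
  have hLm : 2 * m ≤ L * m := Nat.mul_le_mul_right m hL
  have hLm2 : 2 * L * m = 2 * (L * m) := by ring
  have hLm4 : 4 * L * m = 4 * (L * m) := by ring
  simp only [← hr, ← hρ]
  set K1 : Finset ℤ := (Icc (-((L * M2 + 1 : ℕ) : ℤ)) ((L * M2 + 1 : ℕ) : ℤ)).filter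
    (fun k => |2 * r * k| ≤ (L * m : ℕ) + (r:ℤ)) with hK1
  set K2 : Finset ℤ := (Icc (-((L * M1 + 2 : ℕ) : ℤ)) ((L * M1 + 2 : ℕ) : ℤ)).filter
    (fun k => |4 * ρ * k| ≤ (L * m : ℕ) + 8 * (ρ:ℤ)) with hK2
  have mK1 : ∀ k : ℤ, |2 * r * k| ≤ (L * m : ℕ) + (r:ℤ) → k ∈ K1 := by
    intro k hk
    rw [hK1, Finset.mem_filter]
    refine ⟨?_, hk⟩
    rw [Finset.mem_Icc, ← abs_le]
    rw [abs_mul, abs_of_nonneg (by positivity : (0:ℤ) ≤ 2 * r)] at hk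
    by_contra hcon
    push Not at hcon
    have h3 : ((L * M2 + 2 : ℕ) : ℤ) ≤ |k| := by
      push_cast at hcon ⊢
      linarith
    have h4 : (2 * r : ℤ) * ((L * M2 + 2 : ℕ) : ℤ) ≤ 2 * r * |k| :=
      mul_le_mul_of_nonneg_left h3 (by positivity)
    have h5 : L * m ≤ L * (M2 * r + M2) := Nat.mul_le_mul_left L hlt2.le
    have h6 : L * M2 ≤ L * M2 * r := Nat.le_mul_of_pos_right _ (by omega)
    have h7 : (2 * r : ℤ) * ((L * M2 + 2 : ℕ) : ℤ) ≤ (L * m : ℕ) + (r:ℤ) := h4.trans hk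
    have h8' : 2 * r * (L * M2 + 2) ≤ L * m + r := by exact_mod_cast h7
    have h9 : 2 * r * (L * M2 + 2) = 2 * (L * M2 * r) + 4 * r := by ring
    have h10 : L * (M2 * r + M2) = L * M2 * r + L * M2 := by ring
    omega
  have mK2 : ∀ k : ℤ, |4 * ρ * k| ≤ (L * m : ℕ) + 8 * (ρ:ℤ) → k ∈ K2 := by
    intro k hk
    rw [hK2, Finset.mem_filter]
    refine ⟨?_, hk⟩
    rw [Finset.mem_Icc, ← abs_le]
    rw [abs_mul, abs_of_nonneg (by positivity : (0:ℤ) ≤ 4 * ρ)] at hk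
    by_contra hcon
    push Not at hcon
    have h3 : ((L * M1 + 3 : ℕ) : ℤ) ≤ |k| := by
      push_cast at hcon ⊢
      linarith
    have h4 : (4 * ρ : ℤ) * ((L * M1 + 3 : ℕ) : ℤ) ≤ 4 * ρ * |k| :=
      mul_le_mul_of_nonneg_left h3 (by positivity)
    have h5 : L * m ≤ L * (M1 * ρ + M1) := Nat.mul_le_mul_left L hlt1.le
    have h6 : L * M1 ≤ L * M1 * ρ := Nat.le_mul_of_pos_right _ (by omega)
    have h7 : (4 * ρ : ℤ) * ((L * M1 + 3 : ℕ) : ℤ) ≤ (L * m : ℕ) + 8 * (ρ:ℤ) := h4.trans hk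
    have h8' : 4 * ρ * (L * M1 + 3) ≤ L * m + 8 * ρ := by exact_mod_cast h7
    have h9 : 4 * ρ * (L * M1 + 3) = 4 * (L * M1 * ρ) + 12 * ρ := by ring
    have h10 : L * (M1 * ρ + M1) = L * M1 * ρ + L * M1 := by ring
    omega
  -- union bound
  have hub : PQ q (SR L m) (fun F => A4 (-(2 * L * m : ℕ)) (2 * L * m : ℕ) (-m) m e ↑F) ≤
      PQ q (SR L m) (fun F => (∃ p ∈ prs L m r (L * M2 + 1),
          T L m r ρ p.1.1 (2 * r * p.1.2) p.2.1 (2 * r * p.2.2) e ↑F) ∨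
        ((A4 (-(2 * L * m : ℕ)) (2 * L * m : ℕ) (-m) m e ↑F ∧
          ∃ u v : Vtx, |u.1| ≤ m ∧ |u.2| ≤ m ∧ Reach ((↑F : Set Edg) \ {e}) u v ∧
          (L * m : ℕ) ≤ |v.1|) ∨
        ((∃ s ∈ (univ : Finset Bool) ×ˢ K1, A4 (-(2 * L * m : ℕ)) (2 * L * m : ℕ) (-m) m e ↑F ∧
          H3s s.1 m (2 * r * s.2) r ρ ↑F) ∨
        (∃ s ∈ (univ : Finset Bool) ×ˢ K2, A4 (-(2 * L * m : ℕ)) (2 * L * m : ℕ) (-m) m e ↑F ∧
          H3s s.1 m (4 * ρ * s.2) (8 * ρ) (m / 2) ↑F)))) := by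
    apply Pr_mono (okq h0 h1)
    intro F hF hA
    by_contra hcon
    push Not at hcon
    obtain ⟨hQ, hEnd, hS, hB⟩ := hcon
    have hF' : (↑F : Set Edg) ⊆ ↑(RE (-(2 * L * m : ℕ)) (2 * L * m : ℕ) (-m) m) := by
      exact_mod_cast hF
    obtain ⟨σ, σ', k, k', hk, hk', hQe⟩ := HT hL hr1 h8 h64 he hF' hA
      (fun u v hu1 hu2 hr0 => by
        exact hEnd hA u v hu1 hu2 hr0)
      (fun σ k hk => hS (σ, k) (Finset.mem_product.mpr ⟨Finset.mem_univ _, mK1 k hk⟩) hA)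
      (fun σ k hk => hB (σ, k) (Finset.mem_product.mpr ⟨Finset.mem_univ _, mK2 k hk⟩) hA)
    refine hQ ((σ, k), (σ', k')) ?_ hQe
    have m1 := mK1 k hk
    have m2 := mK1 k' hk'
    rw [hK1, Finset.mem_filter] at m1 m2
    unfold prs
    rw [Finset.mem_filter, Finset.mem_product, Finset.mem_product, Finset.mem_product]
    exact ⟨⟨⟨Finset.mem_univ _, m1.1⟩, ⟨Finset.mem_univ _, m2.1⟩⟩, hk, hk'⟩
  have b1 := pr_biUnion h0 h1 (SR L m) (prs L m r (L * M2 + 1)) (fun p F =>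
    T L m r ρ p.1.1 (2 * r * p.1.2) p.2.1 (2 * r * p.2.2) e ↑F)
  have b2 := HE q n hW m L hm64 hL (by omega) e he
  have a4n := a4_nonneg h0 h1 (m / 8)
  -- small events
  have b3 : PQ q (SR L m) (fun F => ∃ s ∈ (univ : Finset Bool) ×ˢ K1,
      A4 (-(2 * L * m : ℕ)) (2 * L * m : ℕ) (-m) m e ↑F ∧ H3s s.1 m (2 * r * s.2) r ρ ↑F) ≤
      δ / 2 * a4 q (m / 8) := by
    refine (pr_biUnion h0 h1 (SR L m) _ _).trans ?_
    have hterm : ∀ s ∈ (univ : Finset Bool) ×ˢ K1, PQ q (SR L m) (fun F =>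
        A4 (-(2 * L * m : ℕ)) (2 * L * m : ℕ) (-m) m e ↑F ∧ H3s s.1 m (2 * r * s.2) r ρ ↑F) ≤
        a4 q (m / 8) * (C1 * (2 * M1 / M2) ^ (1 + c1)) := by
      rintro ⟨σ, k⟩ hs
      rw [Finset.mem_product, hK1, Finset.mem_filter] at hs
      obtain ⟨-, -, hk⟩ := hs
      refine (term_bound HA H3 hW hL hm64 he hr1 (by omega) (by omega) (by omega) σ ?_).trans ?_
      · simp only at hk ⊢
        push_cast at hk ⊢
        have h3 : ((2 * m : ℕ) : ℤ) ≤ ((L * m : ℕ) : ℤ) := by exact_mod_cast hLm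
        push_cast at h3
        have h4 : (64 * ρ : ℤ) ≤ m := by exact_mod_cast h64
        have h5 : (8 * r : ℤ) ≤ ρ := by exact_mod_cast h8
        have h6 : (0:ℤ) ≤ r := by positivity
        have h7 : (0:ℤ) ≤ ρ := by positivity
        linarith
      · refine mul_le_mul_of_nonneg_left (mul_le_mul_of_nonneg_left (ratio_le (by positivity) ?_ hc1)
          hC1.le) a4n
        have h3 : (r:ℝ) ≤ m / M2 := by rw [hr]; exact Nat.cast_div_le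
        have h4 : (m:ℝ) / (2 * M1) ≤ ρ := by rw [hρ]; exact div_ge (by omega) (by omega)
        have hM1p : (0:ℝ) < M1 := by exact_mod_cast (by omega : 0 < M1)
        have hM2p : (0:ℝ) < M2 := by exact_mod_cast (by omega : 0 < M2)
        have hmp : (0:ℝ) < m := by exact_mod_cast (by omega : 0 < m)
        have hρp : (0:ℝ) < ρ := by exact_mod_cast (by omega : 0 < ρ)
        calc (r:ℝ) / ρ ≤ (m / M2) / (m / (2 * M1)) :=
              div_le_div₀ (by positivity) h3 (by positivity) h4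
          _ = 2 * M1 / M2 := by field_simp
    refine (Finset.sum_le_sum hterm).trans ?_
    rw [Finset.sum_const, nsmul_eq_mul]
    have hcard : ((((univ : Finset Bool) ×ˢ K1).card : ℕ) : ℝ) ≤ 4 * L * M2 + 6 := by
      rw [Finset.card_product, Finset.card_univ, Fintype.card_bool]
      have h3 : K1.card ≤ 2 * (L * M2 + 1) + 1 := by
        refine (Finset.card_filter_le _ _).trans ?_
        rw [Int.card_Icc]
        omega
      calc (((2 * K1.card : ℕ)) : ℝ) ≤ ((2 * (2 * (L * M2 + 1) + 1) : ℕ) : ℝ) := by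
            exact_mod_cast Nat.mul_le_mul_left 2 h3
        _ = 4 * L * M2 + 6 := by push_cast; ring
    have hpos : 0 ≤ a4 q (m / 8) * (C1 * (2 * (M1:ℝ) / M2) ^ (1 + c1)) := by positivity
    calc _ ≤ (4 * L * M2 + 6) * (a4 q (m / 8) * (C1 * (2 * (M1:ℝ) / M2) ^ (1 + c1))) :=
          mul_le_mul_of_nonneg_right hcard hpos
      _ = ((4 * L * M2 + 6) * (C1 * (2 * (M1:ℝ) / M2) ^ (1 + c1))) * a4 q (m / 8) := by ring
      _ ≤ δ / 2 * a4 q (m / 8) := mul_le_mul_of_nonneg_right hM2b a4n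
  -- big events
  have b4 : PQ q (SR L m) (fun F => ∃ s ∈ (univ : Finset Bool) ×ˢ K2,
      A4 (-(2 * L * m : ℕ)) (2 * L * m : ℕ) (-m) m e ↑F ∧
        H3s s.1 m (4 * ρ * s.2) (8 * ρ) (m / 2) ↑F) ≤ δ / 2 * a4 q (m / 8) := by
    refine (pr_biUnion h0 h1 (SR L m) _ _).trans ?_
    have hterm : ∀ s ∈ (univ : Finset Bool) ×ˢ K2, PQ q (SR L m) (fun F =>
        A4 (-(2 * L * m : ℕ)) (2 * L * m : ℕ) (-m) m e ↑F ∧
          H3s s.1 m (4 * ρ * s.2) (8 * ρ) (m / 2) ↑F) ≤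
        a4 q (m / 8) * (C1 * (20 / M1) ^ (1 + c1)) := by
      rintro ⟨σ, k⟩ hs
      rw [Finset.mem_product, hK2, Finset.mem_filter] at hs
      obtain ⟨-, -, hk⟩ := hs
      refine (term_bound HA H3 hW hL hm64 he (by omega) (by omega) (by omega) (by omega) σ ?_).trans
        ?_
      · simp only at hk ⊢
        have h2' : ((m / 2 : ℕ) : ℤ) ≤ m := by exact_mod_cast Nat.div_le_self m 2
        have h3 : ((2 * m : ℕ) : ℤ) ≤ ((L * m : ℕ) : ℤ) := by exact_mod_cast hLm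
        have h4 : (64 * ρ : ℤ) ≤ m := by exact_mod_cast h64
        have h7 : (0:ℤ) ≤ ρ := by positivity
        have h9 : ((2 * L * m : ℕ) : ℤ) = 2 * ((L * m : ℕ) : ℤ) := by push_cast; ring
        rw [h9]
        push_cast at hk h3 ⊢
        push_cast at h2'
        linarith
      · refine mul_le_mul_of_nonneg_left (mul_le_mul_of_nonneg_left (ratio_le (by positivity) ?_ hc1)
          hC1.le) a4n
        have h3 : (ρ:ℝ) ≤ m / M1 := by rw [hρ]; exact Nat.cast_div_le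
        have h4 : (2:ℝ) / 5 * m ≤ ((m / 2 : ℕ) : ℝ) := by
          have h5 : 2 * m ≤ 5 * (m / 2) := by omega
          have h6 : (2:ℝ) * m ≤ 5 * ((m / 2 : ℕ) : ℝ) := by exact_mod_cast h5
          linarith
        have hM1p : (0:ℝ) < M1 := by exact_mod_cast (by omega : 0 < M1)
        have hmp : (0:ℝ) < m := by exact_mod_cast (by omega : 0 < m)
        have h5 : ((8 * ρ : ℕ) : ℝ) ≤ 8 * (m / M1) := by
          push_cast
          linarith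
        calc ((8 * ρ : ℕ) : ℝ) / ((m / 2 : ℕ) : ℝ) ≤ (8 * (m / M1)) / (2 / 5 * m) :=
              div_le_div₀ (by positivity) h5 (by positivity) h4
          _ = 20 / M1 := by field_simp; norm_num
    refine (Finset.sum_le_sum hterm).trans ?_
    rw [Finset.sum_const, nsmul_eq_mul]
    have hcard : ((((univ : Finset Bool) ×ˢ K2).card : ℕ) : ℝ) ≤ 4 * L * M1 + 10 := by
      rw [Finset.card_product, Finset.card_univ, Fintype.card_bool]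
      have h3 : K2.card ≤ 2 * (L * M1 + 2) + 1 := by
        refine (Finset.card_filter_le _ _).trans ?_
        rw [Int.card_Icc]
        omega
      calc (((2 * K2.card : ℕ)) : ℝ) ≤ ((2 * (2 * (L * M1 + 2) + 1) : ℕ) : ℝ) := by
            exact_mod_cast Nat.mul_le_mul_left 2 h3
        _ = 4 * L * M1 + 10 := by push_cast; ring
    have hpos : 0 ≤ a4 q (m / 8) * (C1 * (20 / (M1:ℝ)) ^ (1 + c1)) := by positivity
    calc _ ≤ (4 * L * M1 + 10) * (a4 q (m / 8) * (C1 * (20 / (M1:ℝ)) ^ (1 + c1))) :=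
          mul_le_mul_of_nonneg_right hcard hpos
      _ = ((4 * L * M1 + 10) * (C1 * (20 / (M1:ℝ)) ^ (1 + c1))) * a4 q (m / 8) := by ring
      _ ≤ δ / 2 * a4 q (m / 8) := mul_le_mul_of_nonneg_right hM1b a4n
  have c1' := Pr_or_le (okq h0 h1) (SR L m) (fun F => ∃ p ∈ prs L m r (L * M2 + 1),
          T L m r ρ p.1.1 (2 * r * p.1.2) p.2.1 (2 * r * p.2.2) e ↑F) (fun F =>
        ((A4 (-(2 * L * m : ℕ)) (2 * L * m : ℕ) (-m) m e ↑F ∧
          ∃ u v : Vtx, |u.1| ≤ m ∧ |u.2| ≤ m ∧ Reach ((↑F : Set Edg) \ {e}) u v ∧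
          (L * m : ℕ) ≤ |v.1|) ∨
        ((∃ s ∈ (univ : Finset Bool) ×ˢ K1, A4 (-(2 * L * m : ℕ)) (2 * L * m : ℕ) (-m) m e ↑F ∧
          H3s s.1 m (2 * r * s.2) r ρ ↑F) ∨
        (∃ s ∈ (univ : Finset Bool) ×ˢ K2, A4 (-(2 * L * m : ℕ)) (2 * L * m : ℕ) (-m) m e ↑F ∧
          H3s s.1 m (4 * ρ * s.2) (8 * ρ) (m / 2) ↑F))))
  have c2' := Pr_or_le (okq h0 h1) (SR L m) (fun F =>
        (A4 (-(2 * L * m : ℕ)) (2 * L * m : ℕ) (-m) m e ↑F ∧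
          ∃ u v : Vtx, |u.1| ≤ m ∧ |u.2| ≤ m ∧ Reach ((↑F : Set Edg) \ {e}) u v ∧
          (L * m : ℕ) ≤ |v.1|)) (fun F =>
        ((∃ s ∈ (univ : Finset Bool) ×ˢ K1, A4 (-(2 * L * m : ℕ)) (2 * L * m : ℕ) (-m) m e ↑F ∧
          H3s s.1 m (2 * r * s.2) r ρ ↑F) ∨
        (∃ s ∈ (univ : Finset Bool) ×ˢ K2, A4 (-(2 * L * m : ℕ)) (2 * L * m : ℕ) (-m) m e ↑F ∧
          H3s s.1 m (4 * ρ * s.2) (8 * ρ) (m / 2) ↑F)))
  have c3' := Pr_or_le (okq h0 h1) (SR L m) (fun F =>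
        (∃ s ∈ (univ : Finset Bool) ×ˢ K1, A4 (-(2 * L * m : ℕ)) (2 * L * m : ℕ) (-m) m e ↑F ∧
          H3s s.1 m (2 * r * s.2) r ρ ↑F)) (fun F =>
        (∃ s ∈ (univ : Finset Bool) ×ˢ K2, A4 (-(2 * L * m : ℕ)) (2 * L * m : ℕ) (-m) m e ↑F ∧
          H3s s.1 m (4 * ρ * s.2) (8 * ρ) (m / 2) ↑F))
  have e1 : (δ + C2 * Real.exp (-c2 * L)) * a4 q (m / 8) =
      a4 q (m / 8) * (C2 * Real.exp (-c2 * L)) + (δ / 2 * a4 q (m / 8) + δ / 2 * a4 q (m / 8)) := by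
    ring
  rw [e1]
  exact hub.trans (c1'.trans (add_le_add b1 (c2'.trans (add_le_add b2 (c3'.trans
    (add_le_add b3 b4))))))

theorem exit_prob_of (HA : A4Indep) (κ : ℝ)
    (H3 : ∃ C c : ℝ, 0 < C ∧ 0 < c ∧ H3B κ C c) (HE : ∃ C c : ℝ, 0 < C ∧ 0 < c ∧ EndB κ C c) :
    ∃ C c : ℝ, 0 < C ∧ 0 < c ∧ ∀ (L : ℕ) (δ : ℝ), 2 ≤ L →
    0 < δ → ∃ M1 M2 N : ℕ, 64 ≤ M1 ∧ 8 * M1 ≤ M2 ∧ ∀ (q : ℝ) (n : ℕ), Win q κ n → ∀ m : ℕ,
      M2 ≤ m → 4 * L * m ≤ n → ∀ e ∈ boxE (m / 4),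
      PQ q (SR L m) (fun F => A4 (-(2 * L * m : ℕ)) (2 * L * m : ℕ) (-m) m e ↑F) ≤
        (∑ p ∈ prs L m (m / M2) N, PQ q (SR L m) (fun F =>
          Qev m (m / M2) (m / M1) p.1.1 (2 * (m / M2 : ℕ) * p.1.2) p.2.1
            (2 * (m / M2 : ℕ) * p.2.2) e ↑F)) +
        (δ + C * Real.exp (-c * L)) * a4 q (m / 8) :=
  exit_prob_gen (T := fun _ m r ρ σ x σ' x' e F => Qev m r ρ σ x σ' x' e F)
    (fun hL hr hρ hm _ he _ hF hA hend h1 h2 => exit_det hL hr hρ hm he hF hA hend h1 h2) HA κ H3 HE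

/-- EXIT: four arms in a thin box land in two cells up to a small error. -/
theorem exit_prob (κ : ℝ) (hκ : 0 < κ) : ∃ C c : ℝ, 0 < C ∧ 0 < c ∧ ∀ (L : ℕ) (δ : ℝ), 2 ≤ L →
    0 < δ → ∃ M1 M2 N : ℕ, 64 ≤ M1 ∧ 8 * M1 ≤ M2 ∧ ∀ (q : ℝ) (n : ℕ), Win q κ n → ∀ m : ℕ,
      M2 ≤ m → 4 * L * m ≤ n → ∀ e ∈ boxE (m / 4),
      PQ q (SR L m) (fun F => A4 (-(2 * L * m : ℕ)) (2 * L * m : ℕ) (-m) m e ↑F) ≤
        (∑ p ∈ prs L m (m / M2) N, PQ q (SR L m) (fun F =>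
          Qev m (m / M2) (m / M1) p.1.1 (2 * (m / M2 : ℕ) * p.1.2) p.2.1
            (2 * (m / M2 : ℕ) * p.2.2) e ↑F)) +
        (δ + C * Real.exp (-c * L)) * a4 q (m / 8) :=
  exit_prob_of (fun h0 h1 _ _ hL hm _ he _ hB => a4_indep h0 h1 hL hm he hB) κ
    (H3s_prob κ hκ) (end_prob κ hκ)

end H12S
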