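import Pool.Agent.H12R2.Sep.Defs3

/-!
Deterministic exit lemma with separated landing (`Sev`).
-/

set_option maxHeartbeats 400000

namespace H12S

open H974 Finset

/-- Deterministic exit lemma, with separated landing. Same hypotheses as `exit_det`. -/
theorem exit_det2 {L m r ρ : ℕ} (hL : 2 ≤ L) (hr : 1 ≤ r) (hρ : 8 * r ≤ ρ) (hm : 64 * ρ ≤ m)
    {e : Edg} (he : e ∈ boxE (m / 4)) {F : Set Edg}
    (hF : F ⊆ ↑(RE (-(2 * L * m : ℕ)) (2 * L * m : ℕ) (-m) m))
    (hA : A4 (-(2 * L * m : ℕ)) (2 * L * m : ℕ) (-m) m e F)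
    (hend : ∀ u v : Vtx, |u.1| ≤ m → |u.2| ≤ m → Reach (F \ {e}) u v → |v.1| < (L * m : ℕ))
    (h1 : ∀ (σ : Bool) (k : ℤ), |2 * r * k| ≤ (L * m : ℕ) + r →
      ¬ H3s σ m (2 * r * k) r ρ F)
    (h2 : ∀ (σ : Bool) (k : ℤ), |4 * ρ * k| ≤ (L * m : ℕ) + 8 * ρ →
      ¬ H3s σ m (4 * ρ * k) (8 * ρ) (m / 2) F) :
    ∃ (σ σ' : Bool) (k k' : ℤ), |2 * r * k| ≤ (L * m : ℕ) + r ∧ |2 * r * k'| ≤ (L * m : ℕ) + r ∧
      Sev L m r ρ σ (2 * r * k) σ' (2 * r * k') e F := by
  obtain ⟨σ, σ', k, k', hkb, hkb', hQ⟩ := exit_det hL hr hρ hm he hF hA hend h1 h2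
  have hn1 := h1 σ k hkb
  have hn1' := h1 σ' k' hkb'
  refine ⟨σ, σ', k, k', hkb, hkb', hQ, ?_⟩
  obtain ⟨⟨u0, hu0, hru⟩, ⟨v0, hv0, hrv⟩, -, -⟩ := hQ
  obtain ⟨-, -, hne⟩ := hA
  have hset : F ∩ ↑(RE (-((2 * L * m : ℕ) : ℤ)) ((2 * L * m : ℕ) : ℤ) (-m) m) = F :=
    Set.inter_eq_left.mpr hF
  rw [hset] at hne
  obtain ⟨N, hN⟩ : ∃ N : ℕ, N = L * m := ⟨_, rfl⟩
  simp only [← hN] at hend h2 hkb hkb' ⊢
  obtain ⟨⟨hs1, hs2⟩, ht1, ht2⟩ := ends_box he
  have hm4 : 4 ≤ m := by omega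
  have s1 : |(src e).1| ≤ m := hs1.trans (by omega)
  have s2 : |(src e).2| ≤ m := hs2.trans (by omega)
  have t1 : |(tgt e).1| ≤ m := ht1.trans (by omega)
  have t2 : |(tgt e).2| ≤ m := ht2.trans (by omega)
  -- Lemma A
  have lemA : ∀ (τ : Bool) (u v : Vtx), u.2 = sy τ m → v.2 = sy τ m → |u.1 - v.1| ≤ 6 * ρ →
      Reach (F \ {e}) (src e) u → Reach (F \ {e}) (tgt e) v → False := by
    intro τ u v hu hv huv hru hrv
    obtain ⟨k, hk1, hk2⟩ := round_cell u.1 (r := 2 * ρ) (by omega)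
    have hk : 2 * ((2 * ρ : ℕ) : ℤ) * k = 4 * ρ * k := by push_cast; ring
    rw [hk] at hk1 hk2
    have hub := hend _ _ s1 s2 hru
    rw [abs_lt] at hub
    rw [abs_le] at huv
    have hkb : |4 * ρ * k| ≤ ((N : ℕ) : ℤ) + 8 * ρ := by
      rw [abs_le]
      push_cast at hk1 hk2
      constructor <;> linarith
    apply hne
    refine hru.trans (Reach.trans ?_ hrv.symm)
    refine conn_of_not_H3s hF (by omega) (by omega) hm4 he (h2 τ k hkb) (u := u) (v := v)
      (a := src e) (b := tgt e) ?_ ?_ hru.symm hrv.symm (out_src hs2 (by omega))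
      (out_src ht2 (by omega))
    · rw [mem_cell]
      push_cast at hk1 hk2 ⊢
      exact ⟨hu, by linarith, by linarith⟩
    · rw [mem_cell]
      push_cast at hk1 hk2 ⊢
      exact ⟨hv, by linarith, by linarith⟩
  generalize (2 * r * k : ℤ) = x at *
  generalize (2 * r * k' : ℤ) = x' at *
  -- Claim A
  have clA : ∀ u ∈ cell σ m x r, ∀ v : Vtx, Reach (F \ {e}) u v → OutS σ m x ρ v →
      Reach (F \ {e}) (src e) u := fun u hu v huv hv =>
    hru.trans (conn_of_not_H3s (u := u0) (v := u) hF (by omega) (by omega) hm4 he hn1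
      hu0 hu hru.symm huv (out_src hs2 (by omega)) hv)
  have clA' : ∀ u ∈ cell σ' m x' r, ∀ v : Vtx, Reach (F \ {e}) u v → OutS σ' m x' ρ v →
      Reach (F \ {e}) (tgt e) u := fun u hu v huv hv =>
    hrv.trans (conn_of_not_H3s (u := v0) (v := u) hF (by omega) (by omega) hm4 he hn1'
      hv0 hu hrv.symm huv (out_src ht2 (by omega)) hv)
  -- vertices on the sides which are not outside of the half balls
  have inn : ∀ (τ : Bool) (y : ℤ) (v : Vtx), |v.2| = m → ¬ OutS τ m y ρ v →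
      v.2 = sy τ m ∧ y - ρ < v.1 ∧ v.1 < y + ρ := by
    intro τ y v hv ho
    unfold OutS at ho
    unfold sy
    push Not at ho
    obtain ⟨ho1, ho2, ho3⟩ := ho
    refine ⟨?_, ho1, ho2⟩
    rcases abs_eq (by omega : (0:ℤ) ≤ m) |>.1 hv with hv | hv
    · cases τ
      · simp only [Bool.false_eq_true, if_false] at ho3 ⊢
        omega
      · simp only [if_true]
        exact hv
    · cases τ
      · simp only [Bool.false_eq_true, if_false]
        exact hv
      · simp only [if_true] at ho3 ⊢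
        omega
  rw [mem_cell] at hu0 hv0
  obtain ⟨hu01, hu02, hu03⟩ := hu0
  obtain ⟨hv01, hv02, hv03⟩ := hv0
  refine ⟨?_, ?_⟩
  · intro u hu u' hu' v v' huv huv' hv hvv'
    by_contra hcon
    have hd := abs_le.1 (not_lt.1 hcon)
    have hv2 : |v'.2| = m := by rw [hvv']; exact hv
    by_cases c1 : OutS σ m x ρ v
    · have hX := (clA u hu v huv c1).trans huv
      by_cases c2 : OutS σ' m x' ρ v'
      · have hY := (clA' u' hu' v' huv' c2).trans huv'
        obtain ⟨τ, hτ⟩ : ∃ τ : Bool, v.2 = sy τ m := by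
          rcases abs_eq (by omega : (0:ℤ) ≤ m) |>.1 hv with hv | hv
          · exact ⟨true, by simpa [sy] using hv⟩
          · exact ⟨false, by simpa [sy] using hv⟩
        exact lemA τ v v' hτ (by rw [hvv', hτ]) (by rw [abs_le]; omega) hX hY
      · obtain ⟨d1, d2, d3⟩ := inn σ' x' v' hv2 c2
        exact lemA σ' v v0 (by rw [← hvv', d1]) hv01 (by rw [abs_le]; omega) hX hrv
    · obtain ⟨d1, d2, d3⟩ := inn σ x v hv c1
      by_cases c2 : OutS σ' m x' ρ v'
      · have hY := (clA' u' hu' v' huv' c2).trans huv'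
        exact lemA σ u0 v' hu01 (by rw [hvv', d1]) (by rw [abs_le]; omega) hru hY
      · obtain ⟨d1', d2', d3'⟩ := inn σ' x' v' hv2 c2
        have hσ : v0.2 = sy σ m := by rw [hv01, ← d1', hvv', d1]
        exact lemA σ u0 v0 hu01 hσ (by rw [abs_le]; omega) hru hrv
  · rw [abs_le] at hkb hkb'
    rintro u (hu | hu) v huv
    · by_cases c1 : OutS σ m x ρ v
      · have := abs_lt.1 (hend _ _ s1 s2 ((clA u hu v huv c1).trans huv))
        rw [abs_le]
        omega
      · unfold OutS at c1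
        push Not at c1
        rw [abs_le]
        omega
    · by_cases c1 : OutS σ' m x' ρ v
      · have := abs_lt.1 (hend _ _ t1 t2 ((clA' u hu v huv c1).trans huv))
        rw [abs_le]
        omega
      · unfold OutS at c1
        push Not at c1
        rw [abs_le]
        omega

end H12S
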