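import Pool.Agent.H12R2.Sep.Exit2
import Pool.Agent.H12R2.Sep.Exit3

/-!
EXIT with separated landing.
-/

namespace H12S

open H974 Finset

/-- EXIT with `Sev`. -/
theorem exit_prob2 (κ : ℝ) (hκ : 0 < κ) : ∃ C c : ℝ, 0 < C ∧ 0 < c ∧ ∀ (L : ℕ) (δ : ℝ), 2 ≤ L →
    0 < δ → ∃ M1 M2 N : ℕ, 64 ≤ M1 ∧ 8 * M1 ≤ M2 ∧ ∀ (q : ℝ) (n : ℕ), Win q κ n → ∀ m : ℕ,
      M2 ≤ m → 4 * L * m ≤ n → ∀ e ∈ boxE (m / 4),
      PQ q (SR L m) (fun F => A4 (-(2 * L * m : ℕ)) (2 * L * m : ℕ) (-m) m e ↑F) ≤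
        (∑ p ∈ prs L m (m / M2) N, PQ q (SR L m) (fun F =>
          Sev L m (m / M2) (m / M1) p.1.1 (2 * (m / M2 : ℕ) * p.1.2) p.2.1
            (2 * (m / M2 : ℕ) * p.2.2) e ↑F)) +
        (δ + C * Real.exp (-c * L)) * a4 q (m / 8) :=
  exit_prob_gen (T := fun L m r ρ σ x σ' x' e F => Sev L m r ρ σ x σ' x' e F)
    (fun hL hr hρ hm _ he _ hF hA hend h1 h2 => exit_det2 hL hr hρ hm he hF hA hend h1 h2)
    (fun h0 h1 _ _ hL hm _ he _ hB => a4_indep h0 h1 hL hm he hB) κ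
    (H3s_prob κ hκ) (end_prob κ hκ)

end H12S
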