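import Pool.Agent.H12R2.Sep.Defs5

/-!
# Task XD: deterministic exterior exit lemma

If the block `boI c s` is pivotal for the connection of `I` and `J` (both far from the block), no
arm starts near the corners of the block and no `H4` event occurs along its boundary, then the
exterior clusters of `I` and `J` land on the boundary of the block in separated cells.
-/

namespace H12S

open H974 Finset

/-- The open square. -/
def XOp (c : ℤ × ℤ) (s : ℕ) (v : Vtx) : Prop := |v.1 - c.1| < s ∧ |v.2 - c.2| < s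

/-- Not in the interior of the exterior half ball of radius `R` around the point `x` of side `d`. -/
def XOut (d : Dir) (c : ℤ × ℤ) (s : ℕ) (x : ℤ) (R : ℕ) (v : Vtx) : Prop :=
  match d with
  | Dir.up => v.1 ≤ c.1 + x - R ∨ c.1 + x + R ≤ v.1 ∨ c.2 + s + R ≤ v.2 ∨ v.2 < c.2 + s
  | Dir.dn => v.1 ≤ c.1 + x - R ∨ c.1 + x + R ≤ v.1 ∨ v.2 ≤ c.2 - s - R ∨ c.2 - s < v.2
  | Dir.rt => v.2 ≤ c.2 + x - R ∨ c.2 + x + R ≤ v.2 ∨ c.1 + s + R ≤ v.1 ∨ v.1 < c.1 + s
  | Dir.lf => v.2 ≤ c.2 + x - R ∨ c.2 + x + R ≤ v.2 ∨ v.1 ≤ c.1 - s - R ∨ c.1 - s < v.1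

theorem xd_mem_boI {c : ℤ × ℤ} {s : ℕ} {g : Edg} :
    g ∈ boI c s ↔ XOp c s (src g) ∨ XOp c s (tgt g) := by
  classical
  unfold boI
  rw [Finset.mem_filter]
  constructor
  · rintro ⟨-, h⟩
    exact h
  · intro h
    refine ⟨?_, h⟩
    unfold XOp at h
    unfold blk
    obtain ⟨x, y, _ | _⟩ := g
    · rw [mem_RE_false]
      simp only [src_mk, tgt_false, abs_lt] at h
      omega
    · rw [mem_RE_true]
      simp only [src_mk, tgt_true, abs_lt] at h
      omega

theorem xd_edge {c : ℤ × ℤ} {s : ℕ} {F : Set Edg} (hF : Disjoint F ↑(boI c s)) {g : Edg}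
    (hg : g ∈ F) : ¬ XOp c s (src g) ∧ ¬ XOp c s (tgt g) := by
  have h : g ∉ (↑(boI c s) : Set Edg) := Set.disjoint_left.mp hF hg
  rw [Finset.mem_coe, xd_mem_boI] at h
  exact not_or.mp h

theorem xd_nop {c : ℤ × ℤ} {s : ℕ} {F : Set Edg} (hF : Disjoint F ↑(boI c s)) {u v : Vtx}
    (hu : ¬ XOp c s u) (h : Reach F u v) : ¬ XOp c s v := by
  induction h with
  | refl => exact hu
  | tail _ hs _ =>
    obtain ⟨g, hg, ⟨-, h2⟩ | ⟨h2, -⟩⟩ := hs
    · rw [← h2]; exact (xd_edge hF hg).2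
    · rw [← h2]; exact (xd_edge hF hg).1

theorem xd_bd_nop {c : ℤ × ℤ} {s : ℕ} {v : Vtx} (hv : v ∈ bdB c s) : ¬ XOp c s v := by
  rintro ⟨h1, h2⟩
  obtain ⟨-, -, h3 | h3⟩ := hv
  · omega
  · omega

theorem xd_far_nop {X : Set Vtx} {c : ℤ × ℤ} {s : ℕ} (hX : FarS X c (2 * s)) {v : Vtx}
    (hv : v ∈ X) : ¬ XOp c s v := by
  rintro ⟨h1, h2⟩
  have h3 := hX v hv
  push_cast at h3
  omega

theorem xd_meet {c : ℤ × ℤ} {s : ℕ} {I J : Set Vtx} {F : Set Edg}
    (hF : Disjoint F ↑(boI c s)) (hI : ∀ v ∈ I, ¬ XOp c s v)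
    (hp1 : Cn I J (F ∪ ↑(boI c s))) (hp2 : ¬ Cn I J F) :
    ∃ z ∈ bdB c s, ∃ u ∈ I, Reach F u z := by
  obtain ⟨u, hu, v, hv, huv⟩ := hp1
  have key : Reach F u v ∨ ∃ z ∈ bdB c s, ∃ u ∈ I, Reach F u z := by
    clear hv
    induction huv with
    | refl => exact Or.inl (Reach.refl _ _)
    | @tail w w' _ hs ih =>
      rcases ih with ih | ih
      · obtain ⟨g, hg | hg, hc⟩ := hs
        · exact Or.inl (ih.tail ⟨g, hg, hc⟩)
        · right
          have hw : ¬ XOp c s w := xd_nop hF (hI u hu) ih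
          refine ⟨w, ?_, u, hu, ih⟩
          rw [Finset.mem_coe, xd_mem_boI] at hg
          have h1 : XOp c s w' := by
            rcases hc with ⟨h1, h2⟩ | ⟨h1, h2⟩
            · rw [h1, h2] at hg
              exact hg.resolve_left hw
            · rw [h1, h2] at hg
              exact hg.resolve_right hw
          unfold XOp at hw h1
          obtain ⟨x, y, _ | _⟩ := g
          · simp only [src_mk, tgt_false] at hc
            rcases hc with ⟨h2, h3⟩ | ⟨h2, h3⟩
            · rw [← h2] at hw ⊢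
              rw [← h3] at h1
              simp only [abs_lt] at hw h1
              simp only [bdB, Set.mem_ofPred_eq, abs_le]
              refine ⟨by omega, by omega, ?_⟩
              right
              have : y - c.2 = -s := by omega
              rw [this, abs_neg, Nat.abs_cast]
            · rw [← h3] at hw ⊢
              rw [← h2] at h1
              simp only [abs_lt] at hw h1
              simp only [bdB, Set.mem_ofPred_eq, abs_le]
              refine ⟨by omega, by omega, ?_⟩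
              right
              have : y + 1 - c.2 = s := by omega
              rw [this, Nat.abs_cast]
          · simp only [src_mk, tgt_true] at hc
            rcases hc with ⟨h2, h3⟩ | ⟨h2, h3⟩
            · rw [← h2] at hw ⊢
              rw [← h3] at h1
              simp only [abs_lt] at hw h1
              simp only [bdB, Set.mem_ofPred_eq, abs_le]
              refine ⟨by omega, by omega, ?_⟩
              left
              have : x - c.1 = -s := by omega
              rw [this, abs_neg, Nat.abs_cast]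
            · rw [← h3] at hw ⊢
              rw [← h2] at h1
              simp only [abs_lt] at hw h1
              simp only [bdB, Set.mem_ofPred_eq, abs_le]
              refine ⟨by omega, by omega, ?_⟩
              left
              have : x + 1 - c.1 = s := by omega
              rw [this, Nat.abs_cast]
      · exact Or.inr ih
  rcases key with h | h
  · exact absurd ⟨u, hu, v, hv, h⟩ hp2
  · exact h

theorem xd_seg {d : Dir} {c : ℤ × ℤ} {s : ℕ} {x y : ℤ} {r : ℕ} :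
    cenB c s d y ∈ segD d (cenB c s d x).1 (cenB c s d x).2 r ↔ x - r ≤ y ∧ y ≤ x + r := by
  cases d <;> simp only [cenB, segD, Set.mem_ofPred_eq, true_and] <;> omega

theorem xd_seg_elim {d : Dir} {c : ℤ × ℤ} {s : ℕ} {x : ℤ} {r : ℕ} {v : Vtx}
    (hv : v ∈ segD d (cenB c s d x).1 (cenB c s d x).2 r) :
    ∃ y, v = cenB c s d y ∧ x - r ≤ y ∧ y ≤ x + r := by
  obtain ⟨v1, v2⟩ := v
  cases d <;> simp only [cenB, segD, Set.mem_ofPred_eq] at hv ⊢
  · exact ⟨v1 - c.1, by rw [Prod.mk.injEq]; omega, by omega, by omega⟩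
  · exact ⟨v1 - c.1, by rw [Prod.mk.injEq]; omega, by omega, by omega⟩
  · exact ⟨v2 - c.2, by rw [Prod.mk.injEq]; omega, by omega, by omega⟩
  · exact ⟨v2 - c.2, by rw [Prod.mk.injEq]; omega, by omega, by omega⟩

/-- A path from a boundary segment which leaves the exterior half ball reaches its rim inside the
half ball. -/
theorem xd_exit {c : ℤ × ℤ} {s : ℕ} {F : Set Edg} (hF : Disjoint F ↑(boI c s)) (d : Dir)
    {x y : ℤ} {R : ℕ} (hxy : x - R ≤ y ∧ y ≤ x + R) (hxR : |x| + R < s) {v : Vtx}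
    (h : Reach F (cenB c s d y) v) (hv : XOut d c s x R v) :
    ∃ b ∈ rimE d (cenB c s d x).1 (cenB c s d x).2 R,
      Reach (F ∩ ↑(hbE d (cenB c s d x).1 (cenB c s d x).2 R)) (cenB c s d y) b := by
  have hx1 : -(s:ℤ) < x - R := by have := neg_abs_le x; omega
  have hx2 : x + R < s := by have := le_abs_self x; omega
  have hu : ¬ XOp c s (cenB c s d y) := by
    unfold XOp
    cases d <;> simp only [cenB, abs_lt] <;> omega
  cases d
  · simp only [cenB, XOut] at *
    obtain ⟨w, h1, h2, h3⟩ := first_exit (G := F) (a := c.1 + x - R) (b := c.1 + x + R)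
      (c := c.2 + s - 1) (d := c.2 + s + R) (by unfold inR; simp only; omega) h (by omega)
    have h4 := xd_nop hF hu (h3.mono Set.inter_subset_left)
    unfold XOp at h4
    rw [abs_lt, abs_lt] at h4
    unfold inR at h1
    refine ⟨w, ?_, h3.mono ?_⟩
    · simp only [rimE, Set.mem_ofPred_eq, inR]
      omega
    · rintro g ⟨h5, h6⟩
      refine ⟨h5, ?_⟩
      have h7 := xd_edge hF h5
      unfold XOp at h7
      simp only [hbE]
      obtain ⟨x', y', _ | _⟩ := g
      · rw [mem_coe, mem_RE_false] at h6 ⊢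
        simp only [src_mk, tgt_false, abs_lt] at h7
        omega
      · rw [mem_coe, mem_RE_true] at h6 ⊢
        simp only [src_mk, tgt_true, abs_lt] at h7
        omega
  · simp only [cenB, XOut] at *
    obtain ⟨w, h1, h2, h3⟩ := first_exit (G := F) (a := c.1 + x - R) (b := c.1 + x + R)
      (c := c.2 - s - R) (d := c.2 - s + 1) (by unfold inR; simp only; omega) h (by omega)
    have h4 := xd_nop hF hu (h3.mono Set.inter_subset_left)
    unfold XOp at h4
    rw [abs_lt, abs_lt] at h4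
    unfold inR at h1
    refine ⟨w, ?_, h3.mono ?_⟩
    · simp only [rimE, Set.mem_ofPred_eq, inR]
      omega
    · rintro g ⟨h5, h6⟩
      refine ⟨h5, ?_⟩
      have h7 := xd_edge hF h5
      unfold XOp at h7
      simp only [hbE]
      obtain ⟨x', y', _ | _⟩ := g
      · rw [mem_coe, mem_RE_false] at h6 ⊢
        simp only [src_mk, tgt_false, abs_lt] at h7
        omega
      · rw [mem_coe, mem_RE_true] at h6 ⊢
        simp only [src_mk, tgt_true, abs_lt] at h7
        omega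
  · simp only [cenB, XOut] at *
    obtain ⟨w, h1, h2, h3⟩ := first_exit (G := F) (a := c.1 + s - 1) (b := c.1 + s + R)
      (c := c.2 + x - R) (d := c.2 + x + R) (by unfold inR; simp only; omega) h (by omega)
    have h4 := xd_nop hF hu (h3.mono Set.inter_subset_left)
    unfold XOp at h4
    rw [abs_lt, abs_lt] at h4
    unfold inR at h1
    refine ⟨w, ?_, h3.mono ?_⟩
    · simp only [rimE, Set.mem_ofPred_eq, inR]
      omega
    · rintro g ⟨h5, h6⟩
      refine ⟨h5, ?_⟩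
      have h7 := xd_edge hF h5
      unfold XOp at h7
      simp only [hbE]
      obtain ⟨x', y', _ | _⟩ := g
      · rw [mem_coe, mem_RE_false] at h6 ⊢
        simp only [src_mk, tgt_false, abs_lt] at h7
        omega
      · rw [mem_coe, mem_RE_true] at h6 ⊢
        simp only [src_mk, tgt_true, abs_lt] at h7
        omega
  · simp only [cenB, XOut] at *
    obtain ⟨w, h1, h2, h3⟩ := first_exit (G := F) (a := c.1 - s - R) (b := c.1 - s + 1)
      (c := c.2 + x - R) (d := c.2 + x + R) (by unfold inR; simp only; omega) h (by omega)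
    have h4 := xd_nop hF hu (h3.mono Set.inter_subset_left)
    unfold XOp at h4
    rw [abs_lt, abs_lt] at h4
    unfold inR at h1
    refine ⟨w, ?_, h3.mono ?_⟩
    · simp only [rimE, Set.mem_ofPred_eq, inR]
      omega
    · rintro g ⟨h5, h6⟩
      refine ⟨h5, ?_⟩
      have h7 := xd_edge hF h5
      unfold XOp at h7
      simp only [hbE]
      obtain ⟨x', y', _ | _⟩ := g
      · rw [mem_coe, mem_RE_false] at h6 ⊢
        simp only [src_mk, tgt_false, abs_lt] at h7
        omega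
      · rw [mem_coe, mem_RE_true] at h6 ⊢
        simp only [src_mk, tgt_true, abs_lt] at h7
        omega

/-- Without `H4`, two vertices of the segment connected to the outside of the half ball are
connected. -/
theorem xd_conn {c : ℤ × ℤ} {s : ℕ} {F : Set Edg} (hF : Disjoint F ↑(boI c s)) {d : Dir}
    {x y y' : ℤ} {r R : ℕ} (hrR : r ≤ R) (hxR : |x| + R < s)
    (hn : ¬ H4 d (cenB c s d x).1 (cenB c s d x).2 r R F)
    (hy : x - r ≤ y ∧ y ≤ x + r) (hy' : x - r ≤ y' ∧ y' ≤ x + r) {v v' : Vtx}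
    (h : Reach F (cenB c s d y) v) (h' : Reach F (cenB c s d y') v')
    (hv : XOut d c s x R v) (hv' : XOut d c s x R v') :
    Reach F (cenB c s d y) (cenB c s d y') := by
  by_contra hcon
  apply hn
  obtain ⟨b, hb, hr⟩ := xd_exit hF d (by omega) hxR h hv
  obtain ⟨b', hb', hr'⟩ := xd_exit hF d (by omega) hxR h' hv'
  exact ⟨_, xd_seg.2 hy, _, xd_seg.2 hy', ⟨b, hb, hr⟩, ⟨b', hb', hr'⟩,
    fun h => hcon (h.mono Set.inter_subset_left)⟩

theorem xd_far_out {X : Set Vtx} {d : Dir} {c : ℤ × ℤ} {s : ℕ} (hX : FarS X c (2 * s)) {x : ℤ}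
    {R : ℕ} (hxR : |x| + R < s) {v : Vtx} (hv : v ∈ X) : XOut d c s x R v := by
  have hx1 : -(s:ℤ) < x - R := by have := neg_abs_le x; omega
  have hx2 : x + R < s := by have := le_abs_self x; omega
  have h := hX v hv
  push_cast at h
  rw [le_abs, le_abs] at h
  cases d <;> simp only [XOut] <;> omega

theorem xd_not_out {d : Dir} {c : ℤ × ℤ} {s : ℕ} {x : ℤ} {R : ℕ} {v : Vtx} (hv : v ∈ bdB c s)
    (h : ¬ XOut d c s x R v) : ∃ y, v = cenB c s d y ∧ x - R ≤ y ∧ y ≤ x + R := by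
  obtain ⟨v1, v2⟩ := v
  obtain ⟨h1, h2, -⟩ := hv
  simp only [abs_le] at h1 h2
  cases d <;> simp only [XOut, not_or, not_le, not_lt] at h <;> simp only [cenB]
  · exact ⟨v1 - c.1, by rw [Prod.mk.injEq]; omega, by omega, by omega⟩
  · exact ⟨v1 - c.1, by rw [Prod.mk.injEq]; omega, by omega, by omega⟩
  · exact ⟨v2 - c.2, by rw [Prod.mk.injEq]; omega, by omega, by omega⟩
  · exact ⟨v2 - c.2, by rw [Prod.mk.injEq]; omega, by omega, by omega⟩

/-- Boundary vertices of the exterior clusters are far from the corners. -/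
theorem xd_side {c : ℤ × ℤ} {s m : ℕ} {X : Set Vtx} (hX : FarS X c (2 * s)) {F : Set Edg}
    (h0 : ∀ x y : ℤ, (x = c.1 + s ∨ x = c.1 - s) → (y = c.2 + s ∨ y = c.2 - s) →
      ¬ Crs x y m (s / 2) F) {u v : Vtx} (hu : u ∈ X) (h : Reach F u v) (hv : v ∈ bdB c s) :
    ∃ (d : Dir) (x : ℤ), v = cenB c s d x ∧ |x| + m < s := by
  have hfar := hX u hu
  push_cast at hfar
  rw [le_abs, le_abs] at hfar
  have hc : ∀ x y : ℤ, (x = c.1 + s ∨ x = c.1 - s) → (y = c.2 + s ∨ y = c.2 - s) →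
      ¬ ((x - m ≤ v.1 ∧ v.1 ≤ x + m) ∧ (y - m ≤ v.2 ∧ v.2 ≤ y + m)) := by
    intro x y hx hy hin
    refine h0 x y hx hy ⟨v, u, hin, ?_, h.symm⟩
    have : ((s / 2 : ℕ) : ℤ) ≤ s := by omega
    omega
  have k1 := hc _ _ (Or.inl rfl) (Or.inl rfl)
  have k2 := hc _ _ (Or.inl rfl) (Or.inr rfl)
  have k3 := hc _ _ (Or.inr rfl) (Or.inl rfl)
  have k4 := hc _ _ (Or.inr rfl) (Or.inr rfl)
  obtain ⟨v1, v2⟩ := v
  obtain ⟨h1, h2, h3⟩ := hv
  simp only [abs_le] at h1 h2
  simp only at k1 k2 k3 k4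
  clear hc
  rcases h3 with h3 | h3
  · rcases abs_eq (by positivity : (0:ℤ) ≤ (s:ℤ)) |>.mp h3 with h4 | h4
    · simp only at h4
      refine ⟨Dir.rt, v2 - c.2, by simp only [cenB, Prod.mk.injEq]; omega, ?_⟩
      have h5 : |v2 - c.2| < s - m := by rw [abs_lt]; omega
      omega
    · simp only at h4
      refine ⟨Dir.lf, v2 - c.2, by simp only [cenB, Prod.mk.injEq]; omega, ?_⟩
      have h5 : |v2 - c.2| < s - m := by rw [abs_lt]; omega
      omega
  · rcases abs_eq (by positivity : (0:ℤ) ≤ (s:ℤ)) |>.mp h3 with h4 | h4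
    · simp only at h4
      refine ⟨Dir.up, v1 - c.1, by simp only [cenB, Prod.mk.injEq]; omega, ?_⟩
      have h5 : |v1 - c.1| < s - m := by rw [abs_lt]; omega
      omega
    · simp only at h4
      refine ⟨Dir.dn, v1 - c.1, by simp only [cenB, Prod.mk.injEq]; omega, ?_⟩
      have h5 : |v1 - c.1| < s - m := by rw [abs_lt]; omega
      omega

/-- Points of the sides far from the corners and near each other are on the same side. -/
theorem xd_near {c : ℤ × ℤ} {s ρ m : ℕ} (hρ : ρ < m) {d d' : Dir} {y y' : ℤ}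
    (hy : |y| + m < s) (hy' : |y'| + m < s)
    (h : Nr ρ (cenB c s d y) (cenB c s d' y')) : d = d' ∧ |y - y'| ≤ ρ := by
  have a1 := neg_abs_le y
  have a2 := le_abs_self y
  have a3 := neg_abs_le y'
  have a4 := le_abs_self y'
  unfold Nr at h
  rw [abs_le, abs_le] at h
  cases d <;> cases d' <;> simp only [cenB] at h <;>
    first
    | (exfalso; omega)
    | (refine ⟨rfl, ?_⟩; rw [abs_le]; omega)

/-- Deterministic exterior exit lemma. -/
theorem ext_det {c : ℤ × ℤ} {s r ρ1 ρ2 : ℕ} (hr : 1 ≤ r) (h8 : 8 * r ≤ ρ1) (h64 : 64 * ρ1 ≤ ρ2)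
    (hs : 64 * ρ2 ≤ s) {I J : Set Vtx} (hI : FarS (I ∪ J) c (2 * s)) {F : Set Edg}
    (hF : Disjoint F ↑(boI c s)) (hp1 : Cn I J (F ∪ ↑(boI c s))) (hp2 : ¬ Cn I J F)
    (h0 : ∀ x y : ℤ, (x = c.1 + s ∨ x = c.1 - s) → (y = c.2 + s ∨ y = c.2 - s) →
      ¬ Crs x y (4 * ρ2) (s / 2) F)
    (h1 : ∀ (d : Dir) (k : ℤ), |2 * (r:ℤ) * k| ≤ s →
      ¬ H4 d (cenB c s d (2 * r * k)).1 (cenB c s d (2 * r * k)).2 r ρ1 F)
    (h2 : ∀ (d : Dir) (k : ℤ), |4 * (ρ1:ℤ) * k| ≤ s →
      ¬ H4 d (cenB c s d (4 * ρ1 * k)).1 (cenB c s d (4 * ρ1 * k)).2 (8 * ρ1) ρ2 F) :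
    ∃ (d : Dir) (k : ℤ) (d' : Dir) (k' : ℤ), ESev I J c s r ρ1 ρ2 d k d' k' F := by
  have hII : ∀ v ∈ I, v ∈ I ∪ J := fun v hv => Or.inl hv
  have hJJ : ∀ v ∈ J, v ∈ I ∪ J := fun v hv => Or.inr hv
  -- symmetric version
  have hp1' : Cn J I (F ∪ ↑(boI c s)) := by
    obtain ⟨u, hu, v, hv, h⟩ := hp1
    exact ⟨v, hv, u, hu, h.symm⟩
  have hp2' : ¬ Cn J I F := by
    rintro ⟨u, hu, v, hv, h⟩
    exact hp2 ⟨v, hv, u, hu, h.symm⟩
  -- Lemma A
  have lemA : ∀ (d : Dir) (x x' : ℤ), |x| + (4 * ρ2 : ℕ) < s → |x - x'| ≤ 6 * ρ1 →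
      (∃ u ∈ I, Reach F u (cenB c s d x)) → (∃ u ∈ J, Reach F u (cenB c s d x')) → False := by
    rintro d x x' hx hxx ⟨u, hu, hux⟩ ⟨u', hu', hux'⟩
    obtain ⟨k, hk1, hk2⟩ := round_cell x (r := 2 * ρ1) (by omega)
    have hk : 2 * ((2 * ρ1 : ℕ) : ℤ) * k = 4 * ρ1 * k := by push_cast; ring
    rw [hk] at hk1 hk2
    have a1 := neg_abs_le x
    have a2 := le_abs_self x
    rw [abs_le] at hxx
    push_cast at hk1 hk2 hx
    have hn := h2 d k (by rw [abs_le]; omega)
    generalize (4 * (ρ1:ℤ) * k) = z at *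
    have hz : |z| + (ρ2:ℤ) < s := by
      have : |z| < s - ρ2 := by rw [abs_lt]; omega
      omega
    have hc := xd_conn (y := x) (y' := x') hF (by omega) hz hn (by push_cast; omega)
      (by push_cast; omega) hux.symm hux'.symm (xd_far_out hI hz (hII u hu))
      (xd_far_out hI hz (hJJ u' hu'))
    exact hp2 ⟨u, hu, u', hu', hux.trans (hc.trans hux'.symm)⟩
  -- Claim D
  have clD : ∀ (X : Set Vtx), (∀ v ∈ X, v ∈ I ∪ J) → ∀ (d : Dir) (x : ℤ) (k : ℤ),
      |x| + (4 * ρ2 : ℕ) < s → (2 * r * k - r ≤ x ∧ x ≤ 2 * r * k + r) →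
      (∃ u ∈ X, Reach F u (cenB c s d x)) →
      ∀ v ∈ Cl src tgt (X ∪ cellB c s r d k) F, v ∈ bdB c s →
      ∃ (e : Dir) (y z : ℤ), v = cenB c s e y ∧ |z| + (4 * ρ2 : ℕ) < s ∧ |y - z| ≤ ρ1 + r ∧
        ∃ u ∈ X, Reach F u (cenB c s e z) := by
    rintro X hX d x k hx hxk ⟨u, hu, hux⟩ v ⟨w, hw, hwv⟩ hvb
    have hwv' : Reach F w v := hwv
    have case1 : ∀ w ∈ X, Reach F w v → ∃ (e : Dir) (y z : ℤ), v = cenB c s e y ∧
        |z| + (4 * ρ2 : ℕ) < s ∧ |y - z| ≤ ρ1 + r ∧ ∃ u ∈ X, Reach F u (cenB c s e z) := by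
      intro w hw hwv
      obtain ⟨e, y, rfl, hy⟩ := xd_side hI h0 (hX w hw) hwv hvb
      exact ⟨e, y, y, rfl, hy, by rw [sub_self, abs_zero]; positivity, w, hw, hwv⟩
    rcases hw with hw | hw
    · exact case1 w hw hwv'
    · unfold cellB at hw
      have a1 := neg_abs_le x
      have a2 := le_abs_self x
      push_cast at hx
      have hn := h1 d k (by rw [abs_le]; omega)
      generalize (2 * (r:ℤ) * k) = z at *
      obtain ⟨y, rfl, hy⟩ := xd_seg_elim hw
      have hz : |z| + (ρ1:ℤ) < s := by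
        have : |z| < s - ρ1 := by rw [abs_lt]; omega
        omega
      by_cases ho : XOut d c s z ρ1 v
      · have hc := xd_conn (y := x) (y' := y) hF (by omega) hz hn hxk hy hux.symm hwv'
          (xd_far_out hI hz (hX u hu)) ho
        exact case1 u hu (hux.trans (hc.trans hwv'))
      · obtain ⟨y', rfl, hy'⟩ := xd_not_out hvb ho
        refine ⟨d, y', x, rfl, by push_cast; omega, ?_, u, hu, hux⟩
        rw [abs_le]
        omega
  obtain ⟨u0, hu0, ui, hui, hru⟩ := xd_meet hF (fun v hv => xd_far_nop hI (hII v hv)) hp1 hp2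
  obtain ⟨v0, hv0, vj, hvj, hrv⟩ := xd_meet hF (fun v hv => xd_far_nop hI (hJJ v hv)) hp1' hp2'
  obtain ⟨d, x, rfl, hx⟩ := xd_side hI h0 (hII ui hui) hru hu0
  obtain ⟨d', x', rfl, hx'⟩ := xd_side hI h0 (hJJ vj hvj) hrv hv0
  obtain ⟨k, hk⟩ := round_cell x hr
  obtain ⟨k', hk'⟩ := round_cell x' hr
  have bd : ∀ (x k : ℤ), |x| + (4 * ρ2 : ℕ) < s → (2 * r * k - r ≤ x ∧ x ≤ 2 * r * k + r) →
      |2 * (r:ℤ) * k| + 2 * ρ2 ≤ s := by
    intro x k hx hk
    have a1 := neg_abs_le x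
    have a2 := le_abs_self x
    push_cast at hx
    generalize (2 * (r:ℤ) * k) = z at *
    have : |z| ≤ s - 2 * ρ2 := by rw [abs_le]; omega
    omega
  refine ⟨d, k, d', k', ⟨bd x k hx hk, bd x' k' hx' hk'⟩, ⟨cenB c s d x, ?_, ui, hui, hru⟩,
    ⟨cenB c s d' x', ?_, vj, hvj, hrv⟩, ?_, hp2⟩
  · exact xd_seg.2 hk
  · exact xd_seg.2 hk'
  · intro v hv v' hv' hvb hvb' hnr
    obtain ⟨e, y, z, rfl, hz, hyz, hzu⟩ := clD I hII d x k hx hk ⟨ui, hui, hru⟩ v hv hvb
    obtain ⟨e', y', z', rfl, hz', hyz', hzv⟩ := clD J hJJ d' x' k' hx' hk' ⟨vj, hvj, hrv⟩ v' hv'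
      hvb'
    have a1 := neg_abs_le z
    have a2 := le_abs_self z
    have a3 := neg_abs_le z'
    have a4 := le_abs_self z'
    rw [abs_le] at hyz hyz'
    push_cast at hz hz'
    have hy : |y| + (ρ2:ℤ) < s := by
      have : |y| < s - ρ2 := by rw [abs_lt]; omega
      omega
    have hy' : |y'| + (ρ2:ℤ) < s := by
      have : |y'| < s - ρ2 := by rw [abs_lt]; omega
      omega
    obtain ⟨rfl, hyy⟩ := xd_near (by omega) hy hy' hnr
    refine lemA e z z' (by push_cast; omega) ?_ hzu hzv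
    rw [abs_le] at hyy ⊢
    omega

end H12S
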