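import Pool.Agent.H12R2.Sep.Defs4
import Pool.Agent.H12R2.Sep.Exit1

/-!
Task HD4 (helper287): the three-arm bound in the half balls of the four directions.
-/

namespace H12S

open H974 Finset

/-- Transfer of `H4` along a symmetry of the lattice. -/
theorem HD4_tr (g : LSym) {d d' : Dir} {x0 y0 x0' y0' : ℤ} {r ρ : ℕ}
    (hE : g.mp (hbE d x0 y0 ρ) = hbE d' x0' y0' ρ)
    (hI : ∀ v ∈ segD d x0 y0 r, g.ψ v ∈ segD d' x0' y0' r)
    (hB : ∀ v ∈ rimE d x0 y0 ρ, g.ψ v ∈ rimE d' x0' y0' ρ)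
    {q : ℝ} (hok : Ok (fun _ : Edg => q)) (S : Finset Edg) :
    PQ q S (fun F => H4 d x0 y0 r ρ ↑F) ≤ PQ q (g.mp S) (fun F => H4 d' x0' y0' r ρ ↑F) := by
  unfold PQ
  rw [g.pr]
  apply Pr_mono hok
  intro F _ hF
  have h2 := EP_H3g g hI hB hF
  rw [hE, ← LSym.coe_mp] at h2
  exact h2

theorem H4_bound (κ : ℝ) (hκ : 0 < κ) : ∃ C c : ℝ, 0 < C ∧ 0 < c ∧ ∀ (q : ℝ) (n : ℕ),
    Win q κ n → ∀ r ρ : ℕ, 1 ≤ r → r ≤ ρ → ρ ≤ n → ∀ (d : Dir) (x0 y0 : ℤ) (S : Finset Edg),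
      hbE d x0 y0 ρ ⊆ S →
      PQ q S (fun F => H4 d x0 y0 r ρ ↑F) ≤ C * ((r:ℝ) / ρ) ^ (1 + c) := by
  obtain ⟨C, c, hC, hc, h⟩ := H3_bound κ hκ
  refine ⟨C, c, hC, hc, ?_⟩
  intro q n hw r ρ hr hrρ hρn
  have hup : ∀ (x0 y0 : ℤ) (S : Finset Edg), hbE Dir.up x0 y0 ρ ⊆ S →
      PQ q S (fun F => H4 Dir.up x0 y0 r ρ ↑F) ≤ C * ((r:ℝ) / ρ) ^ (1 + c) := by
    intro x0 y0 S hS
    exact h q n hw r ρ hr hrρ hρn x0 y0 S hS
  have hdn : ∀ (x0 y0 : ℤ) (S : Finset Edg), hbE Dir.dn x0 y0 ρ ⊆ S →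
      PQ q S (fun F => H4 Dir.dn x0 y0 r ρ ↑F) ≤ C * ((r:ℝ) / ρ) ^ (1 + c) := by
    intro x0 y0 S hS
    have hE : (rfy 0).mp (hbE Dir.dn x0 y0 ρ) = hbE Dir.up x0 (-y0) ρ := by
      change (rfy 0).mp (RE _ _ _ _) = RE _ _ _ _
      rw [rfy_RE]
      congr 1 <;> ring
    refine le_trans (HD4_tr (rfy 0) (d' := Dir.up) (x0' := x0) (y0' := -y0) hE ?_ ?_ hw.ok S)
      (hup x0 (-y0) _ (hE ▸ (rfy 0).mp_mono hS))
    · rintro ⟨x, y⟩ hv
      have hv' : y = y0 ∧ x0 - r ≤ x ∧ x ≤ x0 + r := hv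
      rw [rfy_ψ]
      refine ⟨?_, hv'.2⟩
      show (0:ℤ) - y = -y0
      omega
    · rintro ⟨x, y⟩ hv
      obtain ⟨h3, h4⟩ := hv
      unfold inR at h3
      simp only at h3 h4
      rw [rfy_ψ]
      refine ⟨?_, ?_⟩
      · unfold inR
        simp only
        omega
      · simp only
        omega
  intro d x0 y0 S hS
  cases d
  · exact hup x0 y0 S hS
  · exact hdn x0 y0 S hS
  · have hE : tps.mp (hbE Dir.rt x0 y0 ρ) = hbE Dir.up y0 x0 ρ := by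
      change tps.mp (RE _ _ _ _) = RE _ _ _ _
      rw [tps_RE]
    refine le_trans (HD4_tr tps (d' := Dir.up) (x0' := y0) (y0' := x0) hE ?_ ?_ hw.ok S)
      (hup y0 x0 _ (hE ▸ tps.mp_mono hS))
    · rintro ⟨x, y⟩ hv
      exact hv
    · rintro ⟨x, y⟩ hv
      obtain ⟨h3, h4⟩ := hv
      unfold inR at h3
      simp only at h3 h4
      rw [tps_ψ]
      refine ⟨?_, ?_⟩
      · unfold inR
        simp only
        omega
      · simp only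
        omega
  · have hE : tps.mp (hbE Dir.lf x0 y0 ρ) = hbE Dir.dn y0 x0 ρ := by
      change tps.mp (RE _ _ _ _) = RE _ _ _ _
      rw [tps_RE]
    refine le_trans (HD4_tr tps (d' := Dir.dn) (x0' := y0) (y0' := x0) hE ?_ ?_ hw.ok S)
      (hdn y0 x0 _ (hE ▸ tps.mp_mono hS))
    · rintro ⟨x, y⟩ hv
      exact hv
    · rintro ⟨x, y⟩ hv
      obtain ⟨h3, h4⟩ := hv
      unfold inR at h3
      simp only at h3 h4
      rw [tps_ψ]
      refine ⟨?_, ?_⟩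
      · unfold inR
        simp only
        omega
      · simp only
        omega

end H12S
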