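import Pool.Agent.H12R2.Sep.Defs4

/-!
FD (helper57): the deterministic failure lemma.
-/

namespace H12S

open H974 Finset

theorem FD_div {r : ℕ} (hr : 1 ≤ r) {x k : ℤ} :
    x / (r : ℤ) = k ↔ (r : ℤ) * k ≤ x ∧ x < (r : ℤ) * k + r := by
  have hr' : (0 : ℤ) < (r : ℤ) := by exact_mod_cast hr
  constructor
  · rintro rfl
    have h1 := Int.mul_ediv_add_emod x (r : ℤ)
    have h2 := Int.emod_nonneg x hr'.ne'
    have h3 := Int.emod_lt_of_pos x hr'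
    constructor <;> linarith
  · rintro ⟨h1, h2⟩
    apply le_antisymm
    · have h4 : x / (r : ℤ) < k + 1 := by
        rw [Int.ediv_lt_iff_lt_mul hr']
        nlinarith
      omega
    · rw [Int.le_ediv_iff_mul_le hr']
      nlinarith

theorem FD_fl {r : ℕ} (hr : 1 ≤ r) {v : Vtx} {z : ℤ × ℤ} :
    fl r v = z ↔ ((r : ℤ) * z.1 ≤ v.1 ∧ v.1 < (r : ℤ) * z.1 + r) ∧
      ((r : ℤ) * z.2 ≤ v.2 ∧ v.2 < (r : ℤ) * z.2 + r) := by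
  rw [← FD_div hr, ← FD_div hr, fl, Prod.ext_iff]

theorem FD_arnd {r : ℕ} (hr : 1 ≤ r) {w : Vtx} {ζ : ℤ × ℤ} (h1 : (r : ℤ) * ζ.1 - r ≤ w.1)
    (h2 : w.1 < (r : ℤ) * ζ.1 + r) (h3 : (r : ℤ) * ζ.2 - r ≤ w.2)
    (h4 : w.2 < (r : ℤ) * ζ.2 + r) : Arnd ζ (fl r w) := by
  have key : ∀ x k : ℤ, (r : ℤ) * k - r ≤ x → x < (r : ℤ) * k + r →
      x / (r : ℤ) = k ∨ x / (r : ℤ) = k - 1 := by
    intro x k h1 h2
    rw [FD_div hr, FD_div hr]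
    have e : (r : ℤ) * (k - 1) = r * k - r := by ring
    rw [e]
    omega
  exact ⟨key _ _ h1 h2, key _ _ h3 h4⟩

/-- Neighbours of a vertex. -/
def FD_nb (a b : Vtx) : Prop :=
  (b.2 = a.2 ∧ (b.1 = a.1 + 1 ∨ b.1 = a.1 - 1)) ∨ (b.1 = a.1 ∧ (b.2 = a.2 + 1 ∨ b.2 = a.2 - 1))

theorem FD_nb_of {g : Edg} {a b : Vtx} (h : (src g = a ∧ tgt g = b) ∨ (src g = b ∧ tgt g = a)) :
    FD_nb a b := by
  obtain ⟨x, y, β⟩ := g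
  unfold FD_nb
  rcases h with ⟨rfl, rfl⟩ | ⟨rfl, rfl⟩ <;> cases β <;> simp [tgt]

theorem FD_mem_RE {a b c d : ℤ} {g : Edg} (h1 : inR a b c d (src g)) (h2 : inR a b c d (tgt g)) :
    g ∈ RE a b c d := by
  obtain ⟨x, y, β⟩ := g
  unfold inR at h1 h2
  cases β
  · simp only [src_mk, tgt_false] at h1 h2
    rw [mem_RE_false]
    omega
  · simp only [src_mk, tgt_true] at h1 h2
    rw [mem_RE_true]
    omega

theorem FD_of_mem_RE {a b c d : ℤ} {g : Edg} (h : g ∈ RE a b c d) :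
    inR a b c d (src g) ∧ inR a b c d (tgt g) := by
  obtain ⟨x, y, β⟩ := g
  unfold inR
  cases β
  · rw [mem_RE_false] at h
    simp only [src_mk, tgt_false]
    omega
  · rw [mem_RE_true] at h
    simp only [src_mk, tgt_true]
    omega

/-- First exit from a region. -/
theorem FD_exit {G' H : Set Edg} {X : Set Vtx} {P R : Vtx → Prop} {w : Vtx}
    (hw : w ∈ Cl src tgt X G') (hX : ∀ x ∈ X, ¬ P x)
    (hH : ∀ g ∈ G', ∀ a b, a ∈ Cl src tgt X G' → P a →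
      ((src g = a ∧ tgt g = b) ∨ (src g = b ∧ tgt g = a)) → g ∈ H ∧ R b)
    (hR : R w) : ∃ y, ¬ P y ∧ R y ∧ Reach H w y := by
  obtain ⟨x, hx, hp⟩ := hw
  revert hR
  induction hp with
  | refl => exact fun hR => ⟨x, hX x hx, hR, Reach.refl _ _⟩
  | @tail b c hb hs ih =>
    intro hR
    by_cases hP : P c
    · obtain ⟨g, hg, hcase⟩ := hs
      have hc : c ∈ Cl src tgt X G' := ⟨x, hx, hb.tail ⟨g, hg, hcase⟩⟩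
      obtain ⟨h1, h2⟩ := hH g hg c b hc hP hcase.symm
      obtain ⟨y, hy1, hy2, hy3⟩ := ih h2
      exact ⟨y, hy1, hy2, (Adj.reach ⟨g, h1, hcase.symm⟩).trans hy3⟩
    · exact ⟨c, hP, hR, Reach.refl _ _⟩

section env
variable {r K : ℕ} {Q : Finset (ℤ × ℤ)} {S0 D O O' : Finset Edg} {I J : Set Vtx} {e : Edg}

theorem FD_edge (h : Env2 r K Q S0 D O O' I J e) {F : Finset Edg} {g : Edg}
    (hg : g ∈ ((↑(F ∩ S0) : Set Edg) ∪ ↑O) \ {e}) : ¬ Tch (FQ r Q) g := by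
  apply h.hS
  rcases hg.1 with h1 | h1
  · exact mem_union_left _ (mem_inter.1 (mem_coe.1 h1)).2
  · exact mem_union_right _ (mem_coe.1 h1)

theorem FD_iso (h : Env2 r K Q S0 D O O' I J e) {F : Finset Edg} {X : Set Vtx}
    (hX : ∀ v ∈ X, ∀ u ∈ FQ r Q, 2 * (r : ℤ) ≤ |v.1 - u.1| ∨ 2 * (r : ℤ) ≤ |v.2 - u.2|)
    {w : Vtx} (hw : w ∈ Cl src tgt X (((↑(F ∩ S0) : Set Edg) ∪ ↑O) \ {e})) : w ∉ FQ r Q := by
  intro hwQ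
  obtain ⟨x, hx, hp⟩ := hw
  have hr := h.r1
  cases hp with
  | refl =>
    have := hX w hx w hwQ
    simp only [sub_self, abs_zero] at this
    omega
  | tail _ hs =>
    obtain ⟨g, hg, hcase⟩ := hs
    refine FD_edge h hg ?_
    rcases hcase with ⟨_, h2⟩ | ⟨h2, _⟩
    · exact Or.inr (h2 ▸ hwQ)
    · exact Or.inl (h2 ▸ hwQ)

theorem FD_VD (h : Env2 r K Q S0 D O O' I J e) {u : Vtx}
    (hu : u ∈ VD src tgt (↑D : Set Edg)) (huQ : u ∉ FQ r Q) : ∃ u' ∈ FQ r Q, FD_nb u u' := by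
  obtain ⟨g, hg, hgu⟩ := hu
  rcases h.hD g (mem_coe.1 hg) with h1 | h1 <;> rcases hgu with h2 | h2
  · exact absurd (h2 ▸ h1) huQ
  · exact ⟨src g, h1, FD_nb_of (Or.inr ⟨rfl, h2⟩)⟩
  · exact ⟨tgt g, h1, FD_nb_of (Or.inl ⟨h2, rfl⟩)⟩
  · exact absurd (h2 ▸ h1) huQ

/-- an edge which touches a random square is not forced -/
theorem FD_rnd {z : ℤ × ℤ} (hz : Rnd r S0 O z) {F : Finset Edg} {g : Edg} {a : Vtx}
    (hg : g ∈ ((↑(F ∩ S0) : Set Edg) ∪ ↑O) \ {e}) (ha : fl r a = z)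
    (hga : src g = a ∨ tgt g = a) : g ∈ (↑(F ∩ S0) : Set Edg) := by
  rcases hg.1 with h1 | h1
  · exact h1
  · exfalso
    obtain ⟨h2, h3⟩ := hz.2 g (mem_coe.1 h1)
    rcases hga with h4 | h4
    · exact h2 (h4 ▸ ha)
    · exact h3 (h4 ▸ ha)

theorem FD_case1 (h : Env2 r K Q S0 D O O' I J e) {ρ l : ℕ} (hl : 1 ≤ l) (h1 : 32 * l ≤ ρ)
    (h2 : 32 * ρ ≤ r) {F : Finset Edg} {X : Set Vtx} {ζ : ℤ × ℤ} {u' w : Vtx}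
    (hX : ∀ v ∈ X, ∀ u ∈ FQ r Q, 2 * (r : ℤ) ≤ |v.1 - u.1| ∨ 2 * (r : ℤ) ≤ |v.2 - u.2|)
    (hw : w ∈ Cl src tgt X (((↑(F ∩ S0) : Set Edg) ∪ ↑O) \ {e}))
    (hk : ∀ z : ℤ × ℤ, Arnd ζ z → z ∉ Q → Rnd r S0 O z ∨
      ∀ v : Vtx, fl r v = z → v ∉ Cl src tgt X (((↑(F ∩ S0) : Set Edg) ∪ ↑O) \ {e}))
    (hu' : u' ∈ FQ r Q) (hu1 : |u'.1 - r * ζ.1| ≤ 3 * ρ) (hu2 : |u'.2 - r * ζ.2| ≤ 3 * ρ)
    (hw1 : |w.1 - r * ζ.1| ≤ 3 * ρ) (hw2 : |w.2 - r * ζ.2| ≤ 3 * ρ) :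
    Crs (r * ζ.1) (r * ζ.2) (4 * ρ) (r / 2) (↑(F ∩ S0) : Set Edg) := by
  have hr := h.r1
  set A : ℤ := (r : ℤ) * ζ.1 with hA
  set B : ℤ := (r : ℤ) * ζ.2 with hB
  rw [abs_le] at hu1 hu2 hw1 hw2
  have hexit := FD_exit (H := (↑(F ∩ S0) : Set Edg))
    (P := fun y : Vtx => |y.1 - A| < ((r / 2 : ℕ) : ℤ) ∧ |y.2 - B| < ((r / 2 : ℕ) : ℤ))
    (R := fun _ => True) hw ?_ ?_ trivial
  · obtain ⟨y, hy, -, hwy⟩ := hexit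
    refine ⟨w, y, ?_, ?_, hwy⟩
    · unfold inR
      push_cast
      omega
    · simp only [abs_lt, not_and_or, not_lt] at hy
      push_cast at hy ⊢
      omega
  · intro x hx hP
    have h3 := hX x hx u' hu'
    simp only [abs_lt, le_abs] at hP h3
    push_cast at hP
    omega
  · intro g hg a b ha hP hcase
    refine ⟨?_, trivial⟩
    simp only [abs_lt] at hP
    push_cast at hP
    have haQ : fl r a ∉ Q := FD_iso h hX ha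
    have harnd : Arnd ζ (fl r a) := FD_arnd hr (by omega) (by omega) (by omega) (by omega)
    rcases hk _ harnd haQ with hR | hno
    · refine FD_rnd hR hg rfl ?_
      rcases hcase with ⟨h5, _⟩ | ⟨_, h5⟩
      · exact Or.inl h5
      · exact Or.inr h5
    · exact absurd ha (hno a rfl)

theorem FD_case2 (h : Env2 r K Q S0 D O O' I J e) {F : Finset Edg} {X : Set Vtx}
    {z : ℤ × ℤ} (hz : Rnd r S0 O z) {a b c d : ℤ} (hsub : ∀ w, inR a b c d w → fl r w = z)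
    {P : Vtx → Prop} (hPR : ∀ w, P w → inR a b c d w)
    (hnb : ∀ w w2, P w → FD_nb w w2 → inR a b c d w2 ∨ w2 ∈ FQ r Q)
    (hPX : ∀ x ∈ X, ¬ P x) {w : Vtx}
    (hw : w ∈ Cl src tgt X (((↑(F ∩ S0) : Set Edg) ∪ ↑O) \ {e})) (hwR : inR a b c d w) :
    ∃ y, ¬ P y ∧ inR a b c d y ∧ Reach ((↑F : Set Edg) ∩ ↑(RE a b c d)) w y := by
  refine FD_exit hw hPX ?_ hwR
  intro g hg a0 b0 _ hP hcase
  have ha0 := hPR a0 hP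
  have hb0 : inR a b c d b0 := by
    rcases hnb a0 b0 hP (FD_nb_of hcase) with h1 | h1
    · exact h1
    · exfalso
      refine FD_edge h hg ?_
      rcases hcase with ⟨_, h3⟩ | ⟨h3, _⟩
      · exact Or.inr (h3 ▸ h1)
      · exact Or.inl (h3 ▸ h1)
  refine ⟨⟨?_, ?_⟩, hb0⟩
  · have h4 : g ∈ (↑(F ∩ S0) : Set Edg) := by
      refine FD_rnd hz hg (hsub a0 ha0) ?_
      rcases hcase with ⟨h5, _⟩ | ⟨_, h5⟩
      · exact Or.inl h5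
      · exact Or.inr h5
    exact mem_coe.2 (mem_inter.1 (mem_coe.1 h4)).1
  · apply mem_coe.2
    rcases hcase with ⟨h5, h6⟩ | ⟨h5, h6⟩
    · exact FD_mem_RE (h5 ▸ ha0) (h6 ▸ hb0)
    · exact FD_mem_RE (h5 ▸ hb0) (h6 ▸ ha0)

theorem FD_final (h : Env2 r K Q S0 D O O' I J e) {ρ l : ℕ} {F : Finset Edg}
    (hA : Ev1 I J S0 O O' e F) {dir : Dir} {j i : ℤ} {z : ℤ × ℤ} (hz : Rnd r S0 O z)
    {a b c d : ℤ} (hE : hbE dir (cen dir r l j i).1 (cen dir r l j i).2 ρ = RE a b c d)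
    (hsub : ∀ w, inR a b c d w → fl r w = z)
    (hnb : ∀ w w2, inR a b c d w → w ∉ rimE dir (cen dir r l j i).1 (cen dir r l j i).2 ρ →
      FD_nb w w2 → inR a b c d w2 ∨ w2 ∈ FQ r Q)
    {u' : Vtx} (hu' : u' ∈ FQ r Q)
    (hclose : ∀ y, inR a b c d y → |y.1 - u'.1| < 2 * (r : ℤ) ∧ |y.2 - u'.2| < 2 * (r : ℤ))
    {u v : Vtx} (hu : u ∈ Cl src tgt I (((↑(F ∩ S0) : Set Edg) ∪ ↑O) \ {e}))
    (hv : v ∈ Cl src tgt J (((↑(F ∩ S0) : Set Edg) ∪ ↑O) \ {e}))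
    (huR : inR a b c d u) (hvR : inR a b c d v)
    (hus : u ∈ segD dir (cen dir r l j i).1 (cen dir r l j i).2 (8 * l))
    (hvs : v ∈ segD dir (cen dir r l j i).1 (cen dir r l j i).2 (8 * l))
    (hnear : Nr (2 * l) u' (cen dir r l j i)) : Bad2 r ρ l Q S0 F := by
  have hin : ∀ g ∈ RE a b c d, g ∈ S0 := by
    intro g hg
    obtain ⟨h1, h2⟩ := FD_of_mem_RE hg
    exact hz.1 g (hsub _ h1) (hsub _ h2)
  have hfarI : ∀ x ∈ I ∪ J, ¬ inR a b c d x := by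
    intro x hx hxR
    have h1 := hclose x hxR
    rcases h.hIJ x hx u' hu' with h2 | h2
    · exact absurd h1.1 (not_lt.2 h2)
    · exact absurd h1.2 (not_lt.2 h2)
  set P : Vtx → Prop := fun w => inR a b c d w ∧
    w ∉ rimE dir (cen dir r l j i).1 (cen dir r l j i).2 ρ with hP
  obtain ⟨y1, hy1, hy1R, hr1⟩ := FD_case2 h hz hsub (P := P) (fun w hw => hw.1)
    (fun w w2 hw h2 => hnb w w2 hw.1 hw.2 h2)
    (fun x hx hxP => hfarI x (Or.inl hx) hxP.1) hu huR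
  obtain ⟨y2, hy2, hy2R, hr2⟩ := FD_case2 h hz hsub (P := P) (fun w hw => hw.1)
    (fun w w2 hw h2 => hnb w w2 hw.1 hw.2 h2)
    (fun x hx hxP => hfarI x (Or.inr hx) hxP.1) hv hvR
  have hrim : ∀ y, ¬ P y → inR a b c d y →
      y ∈ rimE dir (cen dir r l j i).1 (cen dir r l j i).2 ρ := by
    intro y hy hyR
    by_contra hc
    exact hy ⟨hyR, hc⟩
  refine Or.inr ⟨dir, j, i, ?_, ⟨u', hu', hnear⟩, ?_⟩
  · rw [hE]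
    exact fun g hg => hin g hg
  · unfold H4
    rw [hE]
    refine ⟨u, hus, v, hvs, ⟨y1, hrim y1 hy1 hy1R, hr1⟩, ⟨y2, hrim y2 hy2 hy2R, hr2⟩, ?_⟩
    intro huv
    refine hA.2 ?_
    obtain ⟨x, hx, hxu⟩ := hu
    obtain ⟨y, hy, hyv⟩ := hv
    refine ⟨x, hx, y, hy, ?_⟩
    have hsubG : (↑F : Set Edg) ∩ ↑(RE a b c d) ⊆ ((↑(F ∩ S0) : Set Edg) ∪ ↑O) \ {e} := by
      rintro g ⟨hg1, hg2⟩
      refine ⟨Or.inl (mem_coe.2 (mem_inter.2 ⟨mem_coe.1 hg1, hin g (mem_coe.1 hg2)⟩)), ?_⟩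
      rintro rfl
      have h1 := hclose _ (FD_of_mem_RE (mem_coe.1 hg2)).1
      rcases h.hfe u' hu' with h2 | h2
      · exact absurd h1.1 (not_lt.2 h2)
      · exact absurd h1.2 (not_lt.2 h2)
    have h1 : Reach (((↑(F ∩ S0) : Set Edg) ∪ ↑O) \ {e}) x u := hxu
    have h2 : Reach (((↑(F ∩ S0) : Set Edg) ∪ ↑O) \ {e}) y v := hyv
    exact (h1.trans (huv.mono hsubG)).trans h2.symm

theorem FD_rndz (h : Env2 r K Q S0 D O O' I J e) {F : Finset Edg} (hF : F ⊆ S0 ∪ D)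
    (hA : Ev1 I J S0 O O' e F) {z z' ζ : ℤ × ℤ} (hz : z ∉ Q) (hz' : z' ∈ Q) (h1 : Arnd ζ z)
    (h2 : Arnd ζ z') {u v : Vtx}
    (hu : u ∈ Cl src tgt I (((↑(F ∩ S0) : Set Edg) ∪ ↑O) \ {e}))
    (hv : v ∈ Cl src tgt J (((↑(F ∩ S0) : Set Edg) ∪ ↑O) \ {e})) (huz : fl r u = z)
    (hvz : fl r v = z) : Rnd r S0 O z := by
  obtain ⟨k, hk⟩ := h.hcase ζ ⟨z', hz', h2⟩
  rcases hk z h1 hz with h3 | h3
  · exact h3
  · exfalso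
    cases k
    · exact h3 F hF hA v hvz (by simpa using hv)
    · exact h3 F hF hA u huz (by simpa using hu)

/-- the arithmetic of the `up` direction -/
theorem FD_up (h : Env2 r K Q S0 D O O' I J e) {ρ l : ℕ} (hl : 1 ≤ l) (h1 : 32 * l ≤ ρ)
    (h2 : 32 * ρ ≤ r) {F : Finset Edg} (hF : F ⊆ S0 ∪ D) (hA : Ev1 I J S0 O O' e F)
    {u v u' v' : Vtx}
    (hu : u ∈ Cl src tgt I (((↑(F ∩ S0) : Set Edg) ∪ ↑O) \ {e}))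
    (hv : v ∈ Cl src tgt J (((↑(F ∩ S0) : Set Edg) ∪ ↑O) \ {e}))
    (huQ : u ∉ FQ r Q) (hvQ : v ∉ FQ r Q) (hu' : u' ∈ FQ r Q) (hv' : v' ∈ FQ r Q)
    (hnv : FD_nb v v') (hN1 : |u.1 - v.1| ≤ 4 * (l : ℤ)) (hN2 : |u.2 - v.2| ≤ 4 * (l : ℤ))
    (hc : ∀ ζ : ℤ × ℤ, ¬ (|u.1 - r * ζ.1| ≤ 2 * (ρ : ℤ) ∧ |u.2 - r * ζ.2| ≤ 2 * (ρ : ℤ)))
    (hx : u'.1 = u.1) (hy : u'.2 = u.2 - 1) : Bad2 r ρ l Q S0 F := by
  have hr := h.r1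
  obtain ⟨z, hz⟩ : ∃ z, z = fl r u := ⟨_, rfl⟩
  have hzQ : z ∉ Q := fun hh => huQ (show fl r u ∈ Q from hz ▸ hh)
  have hub := (FD_fl hr).1 hz.symm
  have hc1 := hc (z.1, z.2)
  have hc2 := hc (z.1 + 1, z.2)
  have hu'z : ¬ fl r u' = z := fun hh => hzQ (hh ▸ hu')
  have hv'z : ¬ fl r v' = z := fun hh => hzQ (hh ▸ hv')
  rw [FD_fl hr] at hu'z hv'z
  have e1 : (r : ℤ) * (z.1 + 1) = r * z.1 + r := by ring
  have e2 : (r : ℤ) * (z.2 - 1) = r * z.2 - r := by ring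
  simp only [e1] at hc1 hc2
  have hflz' : ∀ w : Vtx, fl r w = (z.1, z.2 - 1) ↔ (((r : ℤ) * z.1 ≤ w.1 ∧ w.1 < r * z.1 + r) ∧
      (r * z.2 - r ≤ w.2 ∧ w.2 < r * z.2)) := by
    intro w
    rw [FD_fl hr]
    simp only [e2, sub_add_cancel]
  have hflz : ∀ w : Vtx, fl r w = z ↔ (((r : ℤ) * z.1 ≤ w.1 ∧ w.1 < r * z.1 + r) ∧
      (r * z.2 ≤ w.2 ∧ w.2 < r * z.2 + r)) := fun w => FD_fl hr
  obtain ⟨i, hi1, hi2⟩ : ∃ i : ℤ, (l : ℤ) * i ≤ u.1 ∧ u.1 < (l : ℤ) * i + l := by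
    refine ⟨u.1 / l, ?_⟩
    exact (FD_div hl).1 rfl
  have hE : hbE Dir.up (cen Dir.up r l z.2 i).1 (cen Dir.up r l z.2 i).2 ρ =
      RE ((l : ℤ) * i - ρ) ((l : ℤ) * i + ρ) (r * z.2) (r * z.2 + ρ) := rfl
  have hrimdef : ∀ w : Vtx, w ∈ rimE Dir.up (cen Dir.up r l z.2 i).1 (cen Dir.up r l z.2 i).2 ρ ↔
      (inR ((l : ℤ) * i - ρ) ((l : ℤ) * i + ρ) (r * z.2) (r * z.2 + ρ) w ∧
        (w.1 = (l : ℤ) * i - ρ ∨ w.1 = (l : ℤ) * i + ρ ∨ w.2 = r * z.2 + ρ)) := fun w => Iff.rfl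
  have hsegdef : ∀ w : Vtx, w ∈ segD Dir.up (cen Dir.up r l z.2 i).1 (cen Dir.up r l z.2 i).2
      (8 * l) ↔ (w.2 = r * z.2 ∧ (l : ℤ) * i - (8 * l : ℕ) ≤ w.1 ∧
        w.1 ≤ (l : ℤ) * i + (8 * l : ℕ)) := fun w => Iff.rfl
  have hneardef : Nr (2 * l) u' (cen Dir.up r l z.2 i) ↔
      (|u'.1 - (l : ℤ) * i| ≤ 2 * l ∧ |u'.2 - r * z.2| ≤ 2 * l) := Iff.rfl
  have hz'Q : (z.1, z.2 - 1) ∈ Q → v ∉ FQ r Q → ¬ fl r v = (z.1, z.2 - 1) :=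
    fun hh1 hh2 hh3 => hh2 (show fl r v ∈ Q from hh3 ▸ hh1)
  have hFQ : ∀ w : Vtx, (z.1, z.2 - 1) ∈ Q → fl r w = (z.1, z.2 - 1) → w ∈ FQ r Q :=
    fun w hh1 hh2 => show fl r w ∈ Q from hh2 ▸ hh1
  obtain ⟨A, hAe⟩ : ∃ A : ℤ, A = (r : ℤ) * z.1 := ⟨_, rfl⟩
  obtain ⟨B, hBe⟩ : ∃ B : ℤ, B = (r : ℤ) * z.2 := ⟨_, rfl⟩
  obtain ⟨Lc, hLe⟩ : ∃ Lc : ℤ, Lc = (l : ℤ) * i := ⟨_, rfl⟩
  rw [← hLe] at hi1 hi2 hneardef
  simp only [← hAe, ← hBe, ← hLe] at hub hc1 hc2 hu'z hv'z hflz' hflz hE hrimdef hsegdef hneardef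
  simp only [abs_le] at hN1 hN2 hc1 hc2 hneardef
  have huB : u.2 = B := by omega
  have hz'mem : (z.1, z.2 - 1) ∈ Q := by
    have : fl r u' = (z.1, z.2 - 1) := by
      rw [hflz']
      omega
    rw [← this]
    exact hu'
  have hvn := hz'Q hz'mem hvQ
  rw [hflz'] at hvn
  unfold FD_nb at hnv
  have hvB : v.2 = B := by omega
  have huz : fl r u = z := hz.symm
  have hvz : fl r v = z := by
    rw [hflz]
    omega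
  have hRz : Rnd r S0 O z := FD_rndz h hF hA (ζ := (z.1, z.2)) hzQ hz'mem
    ⟨Or.inl rfl, Or.inl rfl⟩ ⟨Or.inl rfl, Or.inr rfl⟩ hu hv huz hvz
  refine FD_final h hA (dir := Dir.up) (j := z.2) (i := i) hRz hE ?_ ?_ hu' ?_ hu hv ?_ ?_ ?_ ?_ ?_
  · intro w hw
    unfold inR at hw
    rw [hflz]
    omega
  · intro w w2 hw hwr hww
    rw [hrimdef] at hwr
    have hwr' : ¬ (w.1 = Lc - ρ ∨ w.1 = Lc + ρ ∨ w.2 = B + ρ) := fun hh => hwr ⟨hw, hh⟩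
    unfold inR at hw ⊢
    unfold FD_nb at hww
    by_cases h5 : w2.2 < B
    · right
      apply hFQ w2 hz'mem
      rw [hflz']
      omega
    · left
      omega
  · intro y hyR
    unfold inR at hyR
    simp only [abs_lt]
    omega
  · unfold inR
    omega
  · unfold inR
    omega
  · rw [hsegdef]
    push_cast
    omega
  · rw [hsegdef]
    push_cast
    omega
  · rw [hneardef]
    omega

/-- the arithmetic of the `dn` direction -/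
theorem FD_dn (h : Env2 r K Q S0 D O O' I J e) {ρ l : ℕ} (hl : 1 ≤ l) (h1 : 32 * l ≤ ρ)
    (h2 : 32 * ρ ≤ r) {F : Finset Edg} (hF : F ⊆ S0 ∪ D) (hA : Ev1 I J S0 O O' e F)
    {u v u' v' : Vtx}
    (hu : u ∈ Cl src tgt I (((↑(F ∩ S0) : Set Edg) ∪ ↑O) \ {e}))
    (hv : v ∈ Cl src tgt J (((↑(F ∩ S0) : Set Edg) ∪ ↑O) \ {e}))
    (huQ : u ∉ FQ r Q) (hvQ : v ∉ FQ r Q) (hu' : u' ∈ FQ r Q) (hv' : v' ∈ FQ r Q)
    (hnv : FD_nb v v') (hN1 : |u.1 - v.1| ≤ 4 * (l : ℤ)) (hN2 : |u.2 - v.2| ≤ 4 * (l : ℤ))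
    (hc : ∀ ζ : ℤ × ℤ, ¬ (|u.1 - r * ζ.1| ≤ 2 * (ρ : ℤ) ∧ |u.2 - r * ζ.2| ≤ 2 * (ρ : ℤ)))
    (hx : u'.1 = u.1) (hy : u'.2 = u.2 + 1) : Bad2 r ρ l Q S0 F := by
  have hr := h.r1
  obtain ⟨z, hz⟩ : ∃ z, z = fl r u := ⟨_, rfl⟩
  have hzQ : z ∉ Q := fun hh => huQ (show fl r u ∈ Q from hz ▸ hh)
  have hub := (FD_fl hr).1 hz.symm
  have hc1 := hc (z.1, z.2 + 1)
  have hc2 := hc (z.1 + 1, z.2 + 1)
  have hu'z : ¬ fl r u' = z := fun hh => hzQ (hh ▸ hu')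
  have hv'z : ¬ fl r v' = z := fun hh => hzQ (hh ▸ hv')
  rw [FD_fl hr] at hu'z hv'z
  have e1 : (r : ℤ) * (z.1 + 1) = r * z.1 + r := by ring
  have e2 : (r : ℤ) * (z.2 + 1) = r * z.2 + r := by ring
  simp only [e1, e2] at hc1 hc2
  have hflz' : ∀ w : Vtx, fl r w = (z.1, z.2 + 1) ↔ (((r : ℤ) * z.1 ≤ w.1 ∧ w.1 < r * z.1 + r) ∧
      (r * z.2 + r ≤ w.2 ∧ w.2 < r * z.2 + r + r)) := by
    intro w
    rw [FD_fl hr]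
    simp only [e2]
  have hflz : ∀ w : Vtx, fl r w = z ↔ (((r : ℤ) * z.1 ≤ w.1 ∧ w.1 < r * z.1 + r) ∧
      (r * z.2 ≤ w.2 ∧ w.2 < r * z.2 + r)) := fun w => FD_fl hr
  obtain ⟨i, hi1, hi2⟩ : ∃ i : ℤ, (l : ℤ) * i ≤ u.1 ∧ u.1 < (l : ℤ) * i + l := by
    refine ⟨u.1 / l, ?_⟩
    exact (FD_div hl).1 rfl
  have hE : hbE Dir.dn (cen Dir.dn r l (z.2 + 1) i).1 (cen Dir.dn r l (z.2 + 1) i).2 ρ =
      RE ((l : ℤ) * i - ρ) ((l : ℤ) * i + ρ) (r * (z.2 + 1) - 1 - ρ) (r * (z.2 + 1) - 1) := rfl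
  have hrimdef : ∀ w : Vtx, w ∈ rimE Dir.dn (cen Dir.dn r l (z.2 + 1) i).1
      (cen Dir.dn r l (z.2 + 1) i).2 ρ ↔
      (inR ((l : ℤ) * i - ρ) ((l : ℤ) * i + ρ) (r * (z.2 + 1) - 1 - ρ) (r * (z.2 + 1) - 1) w ∧
        (w.1 = (l : ℤ) * i - ρ ∨ w.1 = (l : ℤ) * i + ρ ∨ w.2 = r * (z.2 + 1) - 1 - ρ)) :=
    fun w => Iff.rfl
  have hsegdef : ∀ w : Vtx, w ∈ segD Dir.dn (cen Dir.dn r l (z.2 + 1) i).1
      (cen Dir.dn r l (z.2 + 1) i).2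
      (8 * l) ↔ (w.2 = r * (z.2 + 1) - 1 ∧ (l : ℤ) * i - (8 * l : ℕ) ≤ w.1 ∧
        w.1 ≤ (l : ℤ) * i + (8 * l : ℕ)) := fun w => Iff.rfl
  have hneardef : Nr (2 * l) u' (cen Dir.dn r l (z.2 + 1) i) ↔
      (|u'.1 - (l : ℤ) * i| ≤ 2 * l ∧ |u'.2 - (r * (z.2 + 1) - 1)| ≤ 2 * l) := Iff.rfl
  have hz'Q : (z.1, z.2 + 1) ∈ Q → v ∉ FQ r Q → ¬ fl r v = (z.1, z.2 + 1) :=
    fun hh1 hh2 hh3 => hh2 (show fl r v ∈ Q from hh3 ▸ hh1)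
  have hFQ : ∀ w : Vtx, (z.1, z.2 + 1) ∈ Q → fl r w = (z.1, z.2 + 1) → w ∈ FQ r Q :=
    fun w hh1 hh2 => show fl r w ∈ Q from hh2 ▸ hh1
  simp only [e2] at hE hrimdef hsegdef hneardef
  obtain ⟨A, hAe⟩ : ∃ A : ℤ, A = (r : ℤ) * z.1 := ⟨_, rfl⟩
  obtain ⟨B, hBe⟩ : ∃ B : ℤ, B = (r : ℤ) * z.2 := ⟨_, rfl⟩
  obtain ⟨Lc, hLe⟩ : ∃ Lc : ℤ, Lc = (l : ℤ) * i := ⟨_, rfl⟩
  rw [← hLe] at hi1 hi2 hneardef
  simp only [← hAe, ← hBe, ← hLe] at hub hc1 hc2 hu'z hv'z hflz' hflz hE hrimdef hsegdef hneardef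
  simp only [abs_le] at hN1 hN2 hc1 hc2 hneardef
  have huB : u.2 = B + r - 1 := by omega
  have hz'mem : (z.1, z.2 + 1) ∈ Q := by
    have : fl r u' = (z.1, z.2 + 1) := by
      rw [hflz']
      omega
    rw [← this]
    exact hu'
  have hvn := hz'Q hz'mem hvQ
  rw [hflz'] at hvn
  unfold FD_nb at hnv
  have hvB : v.2 = B + r - 1 := by omega
  have huz : fl r u = z := hz.symm
  have hvz : fl r v = z := by
    rw [hflz]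
    omega
  have hRz : Rnd r S0 O z := FD_rndz h hF hA (ζ := (z.1, z.2 + 1)) hzQ hz'mem
    ⟨Or.inl rfl, Or.inr (by simp)⟩ ⟨Or.inl rfl, Or.inl rfl⟩ hu hv huz hvz
  refine FD_final h hA (dir := Dir.dn) (j := z.2 + 1) (i := i) hRz hE ?_ ?_ hu' ?_ hu hv ?_ ?_ ?_
    ?_ ?_
  · intro w hw
    unfold inR at hw
    rw [hflz]
    omega
  · intro w w2 hw hwr hww
    rw [hrimdef] at hwr
    have hwr' : ¬ (w.1 = Lc - ρ ∨ w.1 = Lc + ρ ∨ w.2 = B + r - 1 - ρ) := fun hh => hwr ⟨hw, hh⟩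
    unfold inR at hw ⊢
    unfold FD_nb at hww
    by_cases h5 : B + r - 1 < w2.2
    · right
      apply hFQ w2 hz'mem
      rw [hflz']
      omega
    · left
      omega
  · intro y hyR
    unfold inR at hyR
    simp only [abs_lt]
    omega
  · unfold inR
    omega
  · unfold inR
    omega
  · rw [hsegdef]
    push_cast
    omega
  · rw [hsegdef]
    push_cast
    omega
  · rw [hneardef]
    omega

/-- the arithmetic of the `rt` direction -/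
theorem FD_rt (h : Env2 r K Q S0 D O O' I J e) {ρ l : ℕ} (hl : 1 ≤ l) (h1 : 32 * l ≤ ρ)
    (h2 : 32 * ρ ≤ r) {F : Finset Edg} (hF : F ⊆ S0 ∪ D) (hA : Ev1 I J S0 O O' e F)
    {u v u' v' : Vtx}
    (hu : u ∈ Cl src tgt I (((↑(F ∩ S0) : Set Edg) ∪ ↑O) \ {e}))
    (hv : v ∈ Cl src tgt J (((↑(F ∩ S0) : Set Edg) ∪ ↑O) \ {e}))
    (huQ : u ∉ FQ r Q) (hvQ : v ∉ FQ r Q) (hu' : u' ∈ FQ r Q) (hv' : v' ∈ FQ r Q)
    (hnv : FD_nb v v') (hN1 : |u.1 - v.1| ≤ 4 * (l : ℤ)) (hN2 : |u.2 - v.2| ≤ 4 * (l : ℤ))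
    (hc : ∀ ζ : ℤ × ℤ, ¬ (|u.1 - r * ζ.1| ≤ 2 * (ρ : ℤ) ∧ |u.2 - r * ζ.2| ≤ 2 * (ρ : ℤ)))
    (hx : u'.1 = u.1 - 1) (hy : u'.2 = u.2) : Bad2 r ρ l Q S0 F := by
  have hr := h.r1
  obtain ⟨z, hz⟩ : ∃ z, z = fl r u := ⟨_, rfl⟩
  have hzQ : z ∉ Q := fun hh => huQ (show fl r u ∈ Q from hz ▸ hh)
  have hub := (FD_fl hr).1 hz.symm
  have hc1 := hc (z.1, z.2)
  have hc2 := hc (z.1, z.2 + 1)
  have hu'z : ¬ fl r u' = z := fun hh => hzQ (hh ▸ hu')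
  have hv'z : ¬ fl r v' = z := fun hh => hzQ (hh ▸ hv')
  rw [FD_fl hr] at hu'z hv'z
  have e1 : (r : ℤ) * (z.2 + 1) = r * z.2 + r := by ring
  have e2 : (r : ℤ) * (z.1 - 1) = r * z.1 - r := by ring
  simp only [e1] at hc1 hc2
  have hflz' : ∀ w : Vtx, fl r w = (z.1 - 1, z.2) ↔ (((r : ℤ) * z.1 - r ≤ w.1 ∧ w.1 < r * z.1) ∧
      (r * z.2 ≤ w.2 ∧ w.2 < r * z.2 + r)) := by
    intro w
    rw [FD_fl hr]
    simp only [e2, sub_add_cancel]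
  have hflz : ∀ w : Vtx, fl r w = z ↔ (((r : ℤ) * z.1 ≤ w.1 ∧ w.1 < r * z.1 + r) ∧
      (r * z.2 ≤ w.2 ∧ w.2 < r * z.2 + r)) := fun w => FD_fl hr
  obtain ⟨i, hi1, hi2⟩ : ∃ i : ℤ, (l : ℤ) * i ≤ u.2 ∧ u.2 < (l : ℤ) * i + l := by
    refine ⟨u.2 / l, ?_⟩
    exact (FD_div hl).1 rfl
  have hE : hbE Dir.rt (cen Dir.rt r l z.1 i).1 (cen Dir.rt r l z.1 i).2 ρ =
      RE (r * z.1) (r * z.1 + ρ) ((l : ℤ) * i - ρ) ((l : ℤ) * i + ρ) := rfl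
  have hrimdef : ∀ w : Vtx, w ∈ rimE Dir.rt (cen Dir.rt r l z.1 i).1 (cen Dir.rt r l z.1 i).2 ρ ↔
      (inR (r * z.1) (r * z.1 + ρ) ((l : ℤ) * i - ρ) ((l : ℤ) * i + ρ) w ∧
        (w.1 = r * z.1 + ρ ∨ w.2 = (l : ℤ) * i - ρ ∨ w.2 = (l : ℤ) * i + ρ)) := fun w => Iff.rfl
  have hsegdef : ∀ w : Vtx, w ∈ segD Dir.rt (cen Dir.rt r l z.1 i).1 (cen Dir.rt r l z.1 i).2
      (8 * l) ↔ (w.1 = r * z.1 ∧ (l : ℤ) * i - (8 * l : ℕ) ≤ w.2 ∧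
        w.2 ≤ (l : ℤ) * i + (8 * l : ℕ)) := fun w => Iff.rfl
  have hneardef : Nr (2 * l) u' (cen Dir.rt r l z.1 i) ↔
      (|u'.1 - r * z.1| ≤ 2 * l ∧ |u'.2 - (l : ℤ) * i| ≤ 2 * l) := Iff.rfl
  have hz'Q : (z.1 - 1, z.2) ∈ Q → v ∉ FQ r Q → ¬ fl r v = (z.1 - 1, z.2) :=
    fun hh1 hh2 hh3 => hh2 (show fl r v ∈ Q from hh3 ▸ hh1)
  have hFQ : ∀ w : Vtx, (z.1 - 1, z.2) ∈ Q → fl r w = (z.1 - 1, z.2) → w ∈ FQ r Q :=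
    fun w hh1 hh2 => show fl r w ∈ Q from hh2 ▸ hh1
  obtain ⟨A, hAe⟩ : ∃ A : ℤ, A = (r : ℤ) * z.1 := ⟨_, rfl⟩
  obtain ⟨B, hBe⟩ : ∃ B : ℤ, B = (r : ℤ) * z.2 := ⟨_, rfl⟩
  obtain ⟨Lc, hLe⟩ : ∃ Lc : ℤ, Lc = (l : ℤ) * i := ⟨_, rfl⟩
  rw [← hLe] at hi1 hi2 hneardef
  simp only [← hAe, ← hBe, ← hLe] at hub hc1 hc2 hu'z hv'z hflz' hflz hE hrimdef hsegdef hneardef
  simp only [abs_le] at hN1 hN2 hc1 hc2 hneardef
  have huA : u.1 = A := by omega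
  have hz'mem : (z.1 - 1, z.2) ∈ Q := by
    have : fl r u' = (z.1 - 1, z.2) := by
      rw [hflz']
      omega
    rw [← this]
    exact hu'
  have hvn := hz'Q hz'mem hvQ
  rw [hflz'] at hvn
  unfold FD_nb at hnv
  have hvA : v.1 = A := by omega
  have huz : fl r u = z := hz.symm
  have hvz : fl r v = z := by
    rw [hflz]
    omega
  have hRz : Rnd r S0 O z := FD_rndz h hF hA (ζ := (z.1, z.2)) hzQ hz'mem
    ⟨Or.inl rfl, Or.inl rfl⟩ ⟨Or.inr rfl, Or.inl rfl⟩ hu hv huz hvz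
  refine FD_final h hA (dir := Dir.rt) (j := z.1) (i := i) hRz hE ?_ ?_ hu' ?_ hu hv ?_ ?_ ?_ ?_ ?_
  · intro w hw
    unfold inR at hw
    rw [hflz]
    omega
  · intro w w2 hw hwr hww
    rw [hrimdef] at hwr
    have hwr' : ¬ (w.1 = A + ρ ∨ w.2 = Lc - ρ ∨ w.2 = Lc + ρ) := fun hh => hwr ⟨hw, hh⟩
    unfold inR at hw ⊢
    unfold FD_nb at hww
    by_cases h5 : w2.1 < A
    · right
      apply hFQ w2 hz'mem
      rw [hflz']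
      omega
    · left
      omega
  · intro y hyR
    unfold inR at hyR
    simp only [abs_lt]
    omega
  · unfold inR
    omega
  · unfold inR
    omega
  · rw [hsegdef]
    push_cast
    omega
  · rw [hsegdef]
    push_cast
    omega
  · rw [hneardef]
    omega

/-- the arithmetic of the `lf` direction -/
theorem FD_lf (h : Env2 r K Q S0 D O O' I J e) {ρ l : ℕ} (hl : 1 ≤ l) (h1 : 32 * l ≤ ρ)
    (h2 : 32 * ρ ≤ r) {F : Finset Edg} (hF : F ⊆ S0 ∪ D) (hA : Ev1 I J S0 O O' e F)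
    {u v u' v' : Vtx}
    (hu : u ∈ Cl src tgt I (((↑(F ∩ S0) : Set Edg) ∪ ↑O) \ {e}))
    (hv : v ∈ Cl src tgt J (((↑(F ∩ S0) : Set Edg) ∪ ↑O) \ {e}))
    (huQ : u ∉ FQ r Q) (hvQ : v ∉ FQ r Q) (hu' : u' ∈ FQ r Q) (hv' : v' ∈ FQ r Q)
    (hnv : FD_nb v v') (hN1 : |u.1 - v.1| ≤ 4 * (l : ℤ)) (hN2 : |u.2 - v.2| ≤ 4 * (l : ℤ))
    (hc : ∀ ζ : ℤ × ℤ, ¬ (|u.1 - r * ζ.1| ≤ 2 * (ρ : ℤ) ∧ |u.2 - r * ζ.2| ≤ 2 * (ρ : ℤ)))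
    (hx : u'.1 = u.1 + 1) (hy : u'.2 = u.2) : Bad2 r ρ l Q S0 F := by
  have hr := h.r1
  obtain ⟨z, hz⟩ : ∃ z, z = fl r u := ⟨_, rfl⟩
  have hzQ : z ∉ Q := fun hh => huQ (show fl r u ∈ Q from hz ▸ hh)
  have hub := (FD_fl hr).1 hz.symm
  have hc1 := hc (z.1 + 1, z.2)
  have hc2 := hc (z.1 + 1, z.2 + 1)
  have hu'z : ¬ fl r u' = z := fun hh => hzQ (hh ▸ hu')
  have hv'z : ¬ fl r v' = z := fun hh => hzQ (hh ▸ hv')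
  rw [FD_fl hr] at hu'z hv'z
  have e1 : (r : ℤ) * (z.2 + 1) = r * z.2 + r := by ring
  have e2 : (r : ℤ) * (z.1 + 1) = r * z.1 + r := by ring
  simp only [e1, e2] at hc1 hc2
  have hflz' : ∀ w : Vtx, fl r w = (z.1 + 1, z.2) ↔ (((r : ℤ) * z.1 + r ≤ w.1 ∧
      w.1 < r * z.1 + r + r) ∧ (r * z.2 ≤ w.2 ∧ w.2 < r * z.2 + r)) := by
    intro w
    rw [FD_fl hr]
    simp only [e2]
  have hflz : ∀ w : Vtx, fl r w = z ↔ (((r : ℤ) * z.1 ≤ w.1 ∧ w.1 < r * z.1 + r) ∧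
      (r * z.2 ≤ w.2 ∧ w.2 < r * z.2 + r)) := fun w => FD_fl hr
  obtain ⟨i, hi1, hi2⟩ : ∃ i : ℤ, (l : ℤ) * i ≤ u.2 ∧ u.2 < (l : ℤ) * i + l := by
    refine ⟨u.2 / l, ?_⟩
    exact (FD_div hl).1 rfl
  have hE : hbE Dir.lf (cen Dir.lf r l (z.1 + 1) i).1 (cen Dir.lf r l (z.1 + 1) i).2 ρ =
      RE (r * (z.1 + 1) - 1 - ρ) (r * (z.1 + 1) - 1) ((l : ℤ) * i - ρ) ((l : ℤ) * i + ρ) := rfl
  have hrimdef : ∀ w : Vtx, w ∈ rimE Dir.lf (cen Dir.lf r l (z.1 + 1) i).1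
      (cen Dir.lf r l (z.1 + 1) i).2 ρ ↔
      (inR (r * (z.1 + 1) - 1 - ρ) (r * (z.1 + 1) - 1) ((l : ℤ) * i - ρ) ((l : ℤ) * i + ρ) w ∧
        (w.1 = r * (z.1 + 1) - 1 - ρ ∨ w.2 = (l : ℤ) * i - ρ ∨ w.2 = (l : ℤ) * i + ρ)) :=
    fun w => Iff.rfl
  have hsegdef : ∀ w : Vtx, w ∈ segD Dir.lf (cen Dir.lf r l (z.1 + 1) i).1
      (cen Dir.lf r l (z.1 + 1) i).2
      (8 * l) ↔ (w.1 = r * (z.1 + 1) - 1 ∧ (l : ℤ) * i - (8 * l : ℕ) ≤ w.2 ∧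
        w.2 ≤ (l : ℤ) * i + (8 * l : ℕ)) := fun w => Iff.rfl
  have hneardef : Nr (2 * l) u' (cen Dir.lf r l (z.1 + 1) i) ↔
      (|u'.1 - (r * (z.1 + 1) - 1)| ≤ 2 * l ∧ |u'.2 - (l : ℤ) * i| ≤ 2 * l) := Iff.rfl
  have hz'Q : (z.1 + 1, z.2) ∈ Q → v ∉ FQ r Q → ¬ fl r v = (z.1 + 1, z.2) :=
    fun hh1 hh2 hh3 => hh2 (show fl r v ∈ Q from hh3 ▸ hh1)
  have hFQ : ∀ w : Vtx, (z.1 + 1, z.2) ∈ Q → fl r w = (z.1 + 1, z.2) → w ∈ FQ r Q :=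
    fun w hh1 hh2 => show fl r w ∈ Q from hh2 ▸ hh1
  simp only [e2] at hE hrimdef hsegdef hneardef
  obtain ⟨A, hAe⟩ : ∃ A : ℤ, A = (r : ℤ) * z.1 := ⟨_, rfl⟩
  obtain ⟨B, hBe⟩ : ∃ B : ℤ, B = (r : ℤ) * z.2 := ⟨_, rfl⟩
  obtain ⟨Lc, hLe⟩ : ∃ Lc : ℤ, Lc = (l : ℤ) * i := ⟨_, rfl⟩
  rw [← hLe] at hi1 hi2 hneardef
  simp only [← hAe, ← hBe, ← hLe] at hub hc1 hc2 hu'z hv'z hflz' hflz hE hrimdef hsegdef hneardef
  simp only [abs_le] at hN1 hN2 hc1 hc2 hneardef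
  have huA : u.1 = A + r - 1 := by omega
  have hz'mem : (z.1 + 1, z.2) ∈ Q := by
    have : fl r u' = (z.1 + 1, z.2) := by
      rw [hflz']
      omega
    rw [← this]
    exact hu'
  have hvn := hz'Q hz'mem hvQ
  rw [hflz'] at hvn
  unfold FD_nb at hnv
  have hvA : v.1 = A + r - 1 := by omega
  have huz : fl r u = z := hz.symm
  have hvz : fl r v = z := by
    rw [hflz]
    omega
  have hRz : Rnd r S0 O z := FD_rndz h hF hA (ζ := (z.1 + 1, z.2)) hzQ hz'mem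
    ⟨Or.inr (by simp), Or.inl rfl⟩ ⟨Or.inl rfl, Or.inl rfl⟩ hu hv huz hvz
  refine FD_final h hA (dir := Dir.lf) (j := z.1 + 1) (i := i) hRz hE ?_ ?_ hu' ?_ hu hv ?_ ?_ ?_
    ?_ ?_
  · intro w hw
    unfold inR at hw
    rw [hflz]
    omega
  · intro w w2 hw hwr hww
    rw [hrimdef] at hwr
    have hwr' : ¬ (w.1 = A + r - 1 - ρ ∨ w.2 = Lc - ρ ∨ w.2 = Lc + ρ) := fun hh => hwr ⟨hw, hh⟩
    unfold inR at hw ⊢
    unfold FD_nb at hww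
    by_cases h5 : A + r - 1 < w2.1
    · right
      apply hFQ w2 hz'mem
      rw [hflz']
      omega
    · left
      omega
  · intro y hyR
    unfold inR at hyR
    simp only [abs_lt]
    omega
  · unfold inR
    omega
  · unfold inR
    omega
  · rw [hsegdef]
    push_cast
    omega
  · rw [hsegdef]
    push_cast
    omega
  · rw [hneardef]
    omega

end env

theorem fail2_det {r K : ℕ} {Q : Finset (ℤ × ℤ)} {S0 D O O' : Finset Edg} {I J : Set Vtx}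
    {e : Edg} (h : Env2 r K Q S0 D O O' I J e) {ρ l : ℕ} (hl : 1 ≤ l) (h1 : 32 * l ≤ ρ)
    (h2 : 32 * ρ ≤ r) {F : Finset Edg} (hF : F ⊆ S0 ∪ D) (hA : Ev1 I J S0 O O' e F)
    (hB : ¬ Bad2 r ρ l Q S0 F) :
    NFar src tgt I J e (↑D : Set Edg) (Nr (4 * l)) ((↑(F ∩ S0) : Set Edg) ∪ ↑O) := by
  intro u hu v hv huD hvD hNr
  apply hB
  have hr := h.r1
  have hXI : ∀ v ∈ I, ∀ u ∈ FQ r Q, 2 * (r : ℤ) ≤ |v.1 - u.1| ∨ 2 * (r : ℤ) ≤ |v.2 - u.2| :=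
    fun v hv => h.hIJ v (Or.inl hv)
  have hXJ : ∀ v ∈ J, ∀ u ∈ FQ r Q, 2 * (r : ℤ) ≤ |v.1 - u.1| ∨ 2 * (r : ℤ) ≤ |v.2 - u.2| :=
    fun v hv => h.hIJ v (Or.inr hv)
  have huQ : u ∉ FQ r Q := FD_iso h hXI hu
  have hvQ : v ∉ FQ r Q := FD_iso h hXJ hv
  obtain ⟨u', hu', hnu⟩ := FD_VD h huD huQ
  obtain ⟨v', hv', hnv⟩ := FD_VD h hvD hvQ
  obtain ⟨hN1, hN2⟩ : |u.1 - v.1| ≤ 4 * (l : ℤ) ∧ |u.2 - v.2| ≤ 4 * (l : ℤ) := hNr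
  by_cases hc : ∃ ζ : ℤ × ℤ, |u.1 - r * ζ.1| ≤ 2 * (ρ : ℤ) ∧ |u.2 - r * ζ.2| ≤ 2 * (ρ : ℤ)
  · obtain ⟨ζ, hc1, hc2⟩ := hc
    refine Or.inl ⟨ζ, ?_⟩
    have hAr : Arnd ζ (fl r u') := by
      unfold FD_nb at hnu
      rw [abs_le] at hc1 hc2
      exact FD_arnd hr (by omega) (by omega) (by omega) (by omega)
    refine ⟨⟨fl r u', hu', hAr⟩, ?_⟩
    obtain ⟨k, hk⟩ := h.hcase ζ ⟨fl r u', hu', hAr⟩
    have b1 : |u'.1 - r * ζ.1| ≤ 3 * (ρ : ℤ) := by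
      unfold FD_nb at hnu
      rw [abs_le] at hc1 hc2 ⊢
      omega
    have b2 : |u'.2 - r * ζ.2| ≤ 3 * (ρ : ℤ) := by
      unfold FD_nb at hnu
      rw [abs_le] at hc1 hc2 ⊢
      omega
    have b3 : |u.1 - r * ζ.1| ≤ 3 * (ρ : ℤ) := by omega
    have b4 : |u.2 - r * ζ.2| ≤ 3 * (ρ : ℤ) := by omega
    have b5 : |v.1 - r * ζ.1| ≤ 3 * (ρ : ℤ) := by
      rw [abs_le] at hc1 hN1 ⊢
      omega
    have b6 : |v.2 - r * ζ.2| ≤ 3 * (ρ : ℤ) := by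
      rw [abs_le] at hc2 hN2 ⊢
      omega
    cases k
    · refine FD_case1 h hl h1 h2 (ζ := ζ) (u' := u') (w := v) hXJ hv ?_ hu' b1 b2 b5 b6
      intro z hz hzQ
      rcases hk z hz hzQ with h3 | h3
      · exact Or.inl h3
      · exact Or.inr (by simpa using h3 F hF hA)
    · refine FD_case1 h hl h1 h2 (ζ := ζ) (u' := u') (w := u) hXI hu ?_ hu' b1 b2 b3 b4
      intro z hz hzQ
      rcases hk z hz hzQ with h3 | h3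
      · exact Or.inl h3
      · exact Or.inr (by simpa using h3 F hF hA)
  · push Not at hc
    have hc' : ∀ ζ : ℤ × ℤ, ¬ (|u.1 - r * ζ.1| ≤ 2 * (ρ : ℤ) ∧
        |u.2 - r * ζ.2| ≤ 2 * (ρ : ℤ)) := fun ζ hh => absurd hh.2 (not_le.2 (hc ζ hh.1))
    rcases hnu with ⟨hy, hx | hx⟩ | ⟨hx, hy | hy⟩
    · exact FD_lf h hl h1 h2 hF hA hu hv huQ hvQ hu' hv' hnv hN1 hN2 hc' hx hy
    · exact FD_rt h hl h1 h2 hF hA hu hv huQ hvQ hu' hv' hnv hN1 hN2 hc' hx hy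
    · exact FD_dn h hl h1 h2 hF hA hu hv huQ hvQ hu' hv' hnv hN1 hN2 hc' hx hy
    · exact FD_up h hl h1 h2 hF hA hu hv huQ hvQ hu' hv' hnv hN1 hN2 hc' hx hy

end H12S
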