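import Pool.Agent.H12R2.Sep.Defs2

/-!
Locality of pivotality (task LC).
-/

set_option maxHeartbeats 400000

namespace H12S

open H974 Finset

/-- A path through `insert e G` uses `e` or not. -/
theorem reach_insert {e : Edg} {G : Set Edg} {u v : Vtx} (h : Reach (insert e G) u v) :
    Reach (G \ {e}) u v ∨ (Reach (G \ {e}) u (src e) ∧ Reach (G \ {e}) (tgt e) v) ∨
      (Reach (G \ {e}) u (tgt e) ∧ Reach (G \ {e}) (src e) v) := by
  induction h with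
  | refl => exact Or.inl (Reach.refl _ _)
  | @tail w w' _ hs ih =>
    obtain ⟨g, hg, hc⟩ := hs
    by_cases hge : g = e
    · subst hge
      rcases hc with ⟨h1, h2⟩ | ⟨h1, h2⟩
      · subst h1; subst h2
        rcases ih with ih | ⟨ih, _⟩ | ⟨ih, _⟩
        · exact Or.inr (Or.inl ⟨ih, Reach.refl _ _⟩)
        · exact Or.inr (Or.inl ⟨ih, Reach.refl _ _⟩)
        · exact Or.inl ih
      · subst h1; subst h2
        rcases ih with ih | ⟨ih, _⟩ | ⟨ih, _⟩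
        · exact Or.inr (Or.inr ⟨ih, Reach.refl _ _⟩)
        · exact Or.inl ih
        · exact Or.inr (Or.inr ⟨ih, Reach.refl _ _⟩)
    · have hg' : g ∈ G \ {e} := by
        rcases hg with hg | hg
        · exact absurd hg hge
        · exact ⟨hg, hge⟩
      have hr : Reach (G \ {e}) w w' := Adj.reach ⟨g, hg', hc⟩
      rcases ih with ih | ⟨ih, ih2⟩ | ⟨ih, ih2⟩
      · exact Or.inl (ih.trans hr)
      · exact Or.inr (Or.inl ⟨ih, ih2.trans hr⟩)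
      · exact Or.inr (Or.inr ⟨ih, ih2.trans hr⟩)

theorem Cn_mono {I J : Set Vtx} {F G : Set Edg} (h : F ⊆ G) (hF : Cn I J F) : Cn I J G := by
  obtain ⟨u, hu, v, hv, huv⟩ := hF
  exact ⟨u, hu, v, hv, huv.mono h⟩

theorem ends_RE {a b c d : ℤ} {e : Edg} (he : e ∈ RE a b c d) :
    inR a b c d (src e) ∧ inR a b c d (tgt e) := by
  unfold inR
  obtain ⟨x, y, _ | _⟩ := e
  · rw [mem_RE_false] at he
    simp only [src_mk, tgt_false]
    omega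
  · rw [mem_RE_true] at he
    simp only [src_mk, tgt_true]
    omega

/-- The endpoints of a pivotal edge are connected to `I ∪ J`, but not to each other. -/
theorem pv_ends {I J : Set Vtx} {e : Edg} {G : Set Edg} (h : Pv I J e G) :
    (∃ w ∈ I ∪ J, Reach (G \ {e}) (src e) w) ∧ (∃ w ∈ I ∪ J, Reach (G \ {e}) (tgt e) w) ∧
      ¬ Reach (G \ {e}) (src e) (tgt e) := by
  obtain ⟨⟨u, hu, v, hv, huv⟩, hn⟩ := h
  have hno : ¬ Reach (G \ {e}) u v := fun h => hn ⟨u, hu, v, hv, h⟩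
  rcases reach_insert huv with h1 | ⟨h1, h2⟩ | ⟨h1, h2⟩
  · exact absurd h1 hno
  · exact ⟨⟨u, Or.inl hu, h1.symm⟩, ⟨v, Or.inr hv, h2⟩, fun h => hno (h1.trans (h.trans h2))⟩
  · exact ⟨⟨v, Or.inr hv, h2⟩, ⟨u, Or.inl hu, h1.symm⟩,
      fun h => hno (h1.trans (h.symm.trans h2))⟩

theorem loc_a4 {I J : Set Vtx} {a b c d : ℤ} {e : Edg} {G : Set Edg} (he : e ∈ RE a b c d)
    (hIJ : ∀ v ∈ I ∪ J, ¬ (a < v.1 ∧ v.1 < b ∧ c < v.2 ∧ v.2 < d)) (h : Pv I J e G) :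
    A4 a b c d e G := by
  obtain ⟨⟨w, hw, h1⟩, ⟨w', hw', h2⟩, h3⟩ := pv_ends h
  obtain ⟨hs, ht⟩ := ends_RE he
  have hsub : (G \ {e}) ∩ ↑(RE a b c d) ⊆ (G ∩ ↑(RE a b c d)) \ {e} := by
    rintro x ⟨⟨k1, k2⟩, k3⟩
    exact ⟨⟨k1, k3⟩, k2⟩
  refine ⟨?_, ?_, fun h => h3 (h.mono ?_)⟩
  · obtain ⟨z, k1, k2, k3⟩ := first_exit hs h1 (by have := hIJ w hw; omega)
    exact ⟨z, ⟨k1, k2⟩, k3.mono hsub⟩
  · obtain ⟨z, k1, k2, k3⟩ := first_exit ht h2 (by have := hIJ w' hw'; omega)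
    exact ⟨z, ⟨k1, k2⟩, k3.mono hsub⟩
  · rintro x ⟨⟨k1, -⟩, k2⟩
    exact ⟨k1, k2⟩

theorem A4_local {a b c d : ℤ} {e : Edg} {G G' : Set Edg}
    (h : (G ∩ ↑(RE a b c d)) \ {e} = (G' ∩ ↑(RE a b c d)) \ {e}) (hA : A4 a b c d e G) :
    A4 a b c d e G' := by
  unfold A4 at hA ⊢
  rw [← h]
  exact hA

theorem A4_sub {a b c d a' b' c' d' : ℤ} (ha : a ≤ a') (hb : b' ≤ b) (hc : c ≤ c') (hd : d' ≤ d)
    {e : Edg} (he : e ∈ RE a' b' c' d') {G : Set Edg} (hA : A4 a b c d e G) :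
    A4 a' b' c' d' e G := by
  obtain ⟨⟨w, hw, h1⟩, ⟨w', hw', h2⟩, h3⟩ := hA
  obtain ⟨hs, ht⟩ := ends_RE he
  have hRE : (↑(RE a' b' c' d') : Set Edg) ⊆ ↑(RE a b c d) := by
    exact_mod_cast RE_subset ha hb hc hd
  have hsub : ((G ∩ ↑(RE a b c d)) \ {e}) ∩ ↑(RE a' b' c' d') ⊆ (G ∩ ↑(RE a' b' c' d')) \ {e} := by
    rintro x ⟨⟨⟨k1, -⟩, k2⟩, k3⟩
    exact ⟨⟨k1, k3⟩, k2⟩
  refine ⟨?_, ?_, fun h => h3 (h.mono ?_)⟩
  · obtain ⟨z, k1, k2, k3⟩ := first_exit hs h1 (by have := hw.2; omega)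
    exact ⟨z, ⟨k1, k2⟩, k3.mono hsub⟩
  · obtain ⟨z, k1, k2, k3⟩ := first_exit ht h2 (by have := hw'.2; omega)
    exact ⟨z, ⟨k1, k2⟩, k3.mono hsub⟩
  · rintro x ⟨⟨k1, k3⟩, k2⟩
    exact ⟨⟨k1, hRE k3⟩, k2⟩

theorem insert_local {a b c d : ℤ} {e e' : Edg} {G : Set Edg} (he' : e' ∉ RE a b c d) :
    (insert e' G ∩ ↑(RE a b c d)) \ {e} = (G ∩ ↑(RE a b c d)) \ {e} := by
  ext x
  constructor
  · rintro ⟨⟨k1 | k1, k2⟩, k3⟩
    · subst k1
      exact absurd (Finset.mem_coe.mp k2) he'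
    · exact ⟨⟨k1, k2⟩, k3⟩
  · rintro ⟨⟨k1, k2⟩, k3⟩
    exact ⟨⟨Or.inr k1, k2⟩, k3⟩

theorem erase_local {a b c d : ℤ} {e e' : Edg} {G : Set Edg} (he' : e' ∉ RE a b c d) :
    ((G \ {e'}) ∩ ↑(RE a b c d)) \ {e} = (G ∩ ↑(RE a b c d)) \ {e} := by
  ext x
  constructor
  · rintro ⟨⟨⟨k1, -⟩, k2⟩, k3⟩
    exact ⟨⟨k1, k2⟩, k3⟩
  · rintro ⟨⟨k1, k2⟩, k3⟩
    refine ⟨⟨⟨k1, ?_⟩, k2⟩, k3⟩
    rintro rfl
    exact he' (Finset.mem_coe.mp k2)

/-- One of the two pivotalities holds. -/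
theorem flip_or {I J : Set Vtx} {e e' : Edg} {G : Set Edg} (h : Flip I J e e' G) :
    Pv I J e (insert e' G) ∨ Pv I J e (G \ {e'}) := by
  unfold Flip at h
  tauto

theorem flip_far {I J : Set Vtx} {e e' : Edg} {G : Set Edg} (hne : e ≠ e')
    (h : Flip I J e e' G) : Pv I J e' (insert e G) ∨ Pv I J e' (G \ {e}) := by
  unfold Flip Pv at h
  unfold Pv
  have e1 : insert e (insert e' G) = insert e' (insert e G) := Set.insert_comm _ _ _
  have e2 : insert e' G \ {e} = insert e' (G \ {e}) := by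
    ext x
    simp only [Set.mem_sdiff, Set.mem_insert_iff, Set.mem_singleton_iff]
    constructor
    · rintro ⟨h1 | h1, h2⟩
      · exact Or.inl h1
      · exact Or.inr ⟨h1, h2⟩
    · rintro (h1 | ⟨h1, h2⟩)
      · subst h1
        exact ⟨Or.inl rfl, fun h => hne h.symm⟩
      · exact ⟨Or.inr h1, h2⟩
  have e3 : insert e G \ {e'} = insert e (G \ {e'}) := by
    ext x
    simp only [Set.mem_sdiff, Set.mem_insert_iff, Set.mem_singleton_iff]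
    constructor
    · rintro ⟨h1 | h1, h2⟩
      · exact Or.inl h1
      · exact Or.inr ⟨h1, h2⟩
    · rintro (h1 | ⟨h1, h2⟩)
      · subst h1
        exact ⟨Or.inl rfl, hne⟩
      · exact ⟨Or.inr h1, h2⟩
  have e4 : (G \ {e'}) \ {e} = (G \ {e}) \ {e'} := by
    ext x
    simp only [Set.mem_sdiff, Set.mem_singleton_iff]
    tauto
  rw [e1, e2, e4] at h
  rw [e3]
  have m1 : Cn I J ((G \ {e}) \ {e'}) → Cn I J (insert e' (G \ {e})) :=
    Cn_mono (by rintro x ⟨h1, -⟩; exact Or.inr h1)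
  have m2 : Cn I J (insert e (G \ {e'})) → Cn I J (insert e' (insert e G)) :=
    Cn_mono (by
      rintro x (h1 | ⟨h1, -⟩)
      · exact Or.inr (Or.inl h1)
      · exact Or.inr (Or.inr h1))
  tauto

theorem flip_1 {I J : Set Vtx} {a b c d : ℤ} {e e' : Edg} {G : Set Edg} (hne : e ≠ e')
    (he : e ∈ RE a b c d) (he' : e' ∉ RE a b c d)
    (hIJ : ∀ v ∈ I ∪ J, ¬ (a < v.1 ∧ v.1 < b ∧ c < v.2 ∧ v.2 < d)) (h : Flip I J e e' G) :
    A4 a b c d e G := by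
  rcases flip_or h with h | h
  · exact A4_local (insert_local he') (loc_a4 he hIJ h)
  · exact A4_local (erase_local he') (loc_a4 he hIJ h)

theorem flip_2 {I J : Set Vtx} {a b c d : ℤ} {e e' : Edg} {G : Set Edg} (hne : e ≠ e')
    (he' : e' ∈ RE a b c d) (he : e ∉ RE a b c d)
    (hIJ : ∀ v ∈ I ∪ J, ¬ (a < v.1 ∧ v.1 < b ∧ c < v.2 ∧ v.2 < d)) (h : Flip I J e e' G) :
    A4 a b c d e' G := by
  rcases flip_far hne h with h | h
  · exact A4_local (insert_local he) (loc_a4 he' hIJ h)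
  · exact A4_local (erase_local he) (loc_a4 he' hIJ h)

theorem flip_blk {I J : Set Vtx} {e e' : Edg} {G : Set Edg} (hne : e ≠ e') {b : Finset Edg}
    (he : e ∈ b) (he' : e' ∈ b) (h : Flip I J e e' G) : BPv I J b G := by
  have hb : e ∈ (↑b : Set Edg) := Finset.mem_coe.mpr he
  have hb' : e' ∈ (↑b : Set Edg) := Finset.mem_coe.mpr he'
  rcases flip_or h with ⟨h1, h2⟩ | ⟨h1, h2⟩
  · refine ⟨Cn_mono ?_ h1, fun h3 => h2 (Cn_mono ?_ h3)⟩
    · rintro x (rfl | rfl | hx)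
      · exact Or.inr hb
      · exact Or.inr hb'
      · exact Or.inl hx
    · rintro x ⟨k1, k2⟩
      exact ⟨Or.inr k1, fun h => k2 (by rw [Set.mem_singleton_iff.mp h]; exact hb)⟩
  · refine ⟨Cn_mono ?_ h1, fun h3 => h2 (Cn_mono ?_ h3)⟩
    · rintro x (rfl | ⟨hx, -⟩)
      · exact Or.inr hb
      · exact Or.inl hx
    · rintro x ⟨k1, k2⟩
      exact ⟨⟨k1, fun h => k2 (by rw [Set.mem_singleton_iff.mp h]; exact hb')⟩,
        fun h => k2 (by rw [Set.mem_singleton_iff.mp h]; exact hb)⟩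

theorem pv_blk {I J : Set Vtx} {e : Edg} {G : Set Edg} {b : Finset Edg} (he : e ∈ b)
    (h : Pv I J e G) : BPv I J b G := by
  have hb : e ∈ (↑b : Set Edg) := Finset.mem_coe.mpr he
  obtain ⟨h1, h2⟩ := h
  refine ⟨Cn_mono ?_ h1, fun h3 => h2 (Cn_mono ?_ h3)⟩
  · rintro x (rfl | hx)
    · exact Or.inr hb
    · exact Or.inl hx
  · rintro x ⟨k1, k2⟩
    exact ⟨k1, fun h => k2 (by rw [Set.mem_singleton_iff.mp h]; exact hb)⟩

end H12S
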