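import Pool.Agent.H12R2.Sep.Defs

/-!
PART III, task WA (helper380): arm decay in the RSW window (`win_arm`) and the exponential bound
for long crossings of thin boxes (`win_end`), from the blocking statement `win_blk` (task WB).
-/

namespace H12S

open H974 Finset

/-- The statement of `win_blk` (task WB). -/
def WinBlk : Prop := ∀ {q κ : ℝ} {n : ℕ}, Win q κ n → ∀ {m : ℕ}, 1 ≤ m → 2 * m ≤ n →
    ∀ (c1 c2 : ℤ) (S : Finset Edg),
    κ ^ 4 ≤ PQ q S (fun F => ¬ Crs c1 c2 m (3 * m) ↑F) ∧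
      κ ^ 4 ≤ PQ q S (fun F => ¬ DCrs c1 c2 m (3 * m) (↑(S \ F) : Set Edg))

section Cut
variable {E V : Type*}

/-- A path to a point satisfying `Q` can be stopped at the first such point. -/
theorem WA_cut (s t : E → V) {F : Set E} {Q : V → Prop} {x y : V} (h : GR s t F x y)
    (hy : Q y) : ∃ y', Q y' ∧ GR s t (F ∩ {e | ¬ (Q (s e) ∧ Q (t e))}) x y' := by
  have key : ∀ z, GR s t F x z →
      (∃ y', Q y' ∧ GR s t (F ∩ {e | ¬ (Q (s e) ∧ Q (t e))}) x y') ∨
        GR s t (F ∩ {e | ¬ (Q (s e) ∧ Q (t e))}) x z := by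
    intro z hz
    induction hz with
    | refl => exact Or.inr (GR.refl _ _)
    | @tail w w' _ hstep ih =>
      rcases ih with ih | ih
      · exact Or.inl ih
      · by_cases hw : Q w
        · exact Or.inl ⟨w, hw, ih⟩
        · right
          obtain ⟨e, he, hc⟩ := hstep
          refine ih.trans (Relation.ReflTransGen.single ⟨e, ⟨he, ?_⟩, hc⟩)
          rintro ⟨h1, h2⟩
          rcases hc with ⟨h3, -⟩ | ⟨-, h4⟩
          · exact hw (h3 ▸ h1)
          · exact hw (h4 ▸ h2)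
  rcases key y h with h1 | h1
  · exact h1
  · exact ⟨y, hy, h1⟩

/-- The edges of the annulus between `P` and `Q`. -/
def WA_T (s t : E → V) (P Q : V → Prop) : Set E :=
  {e | ¬ (P (s e) ∧ P (t e)) ∧ ¬ (Q (s e) ∧ Q (t e))}

theorem WA_cross (s t : E → V) {F : Set E} {P Q : V → Prop} {x y : V} (h : GR s t F x y)
    (hx : P x) (hy : Q y) : ∃ x' y', P x' ∧ Q y' ∧ GR s t (F ∩ WA_T s t P Q) x' y' := by
  obtain ⟨y', hy', h1⟩ := WA_cut s t h hy
  obtain ⟨x', hx', h2⟩ := WA_cut s t h1.symm hx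
  refine ⟨x', y', hx', hy', h2.symm.mono ?_⟩
  rintro e ⟨⟨h3, h4⟩, h5⟩
  exact ⟨h3, h5, h4⟩

end Cut

section Indep
variable {E : Type*} [DecidableEq E]

/-- Events depending on disjoint sets of edges. -/
theorem WA_prod {p : E → ℝ} (hp : Ok p) (S : Finset E) (T : ℕ → Set E)
    (A : ℕ → Finset E → Prop) {x : ℝ} (J : ℕ)
    (hd : ∀ i j, i < j → j < J → Disjoint (T i) (T j))
    (hA : ∀ j, j < J → ∀ F G : Finset E, F ⊆ S → G ⊆ S → (∀ e ∈ T j, e ∈ F ↔ e ∈ G) →
      (A j F ↔ A j G))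
    (hx : ∀ j, j < J → Pr p S (A j) ≤ x) :
    Pr p S (fun F => ∀ j < J, A j F) ≤ x ^ J := by
  classical
  induction J with
  | zero =>
    rw [pow_zero]
    exact Pr_le_one hp _ _
  | succ J ih =>
    have i1 := ih (fun i j h1 h2 => hd i j h1 (by omega)) (fun j hj => hA j (by omega))
      (fun j hj => hx j (by omega))
    have e1 : Pr p S (fun F => ∀ j < J + 1, A j F) =
        Pr p S (fun F => (∀ j < J, A j F) ∧ A J F) := by
      apply Pr_congr
      intro F _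
      constructor
      · intro h
        exact ⟨fun j hj => h j (by omega), h J (by omega)⟩
      · rintro ⟨h, h'⟩ j hj
        rcases Nat.lt_or_ge j J with hlt | hge
        · exact h j hlt
        · have : j = J := by omega
          rw [this]; exact h'
    have i2 := Pr_indep (p := p) (U := S) (S := S.filter (fun e => ∃ j < J, e ∈ T j))
      (T := S.filter (fun e => e ∈ T J)) (A := fun F => ∀ j < J, A j F) (B := fun F => A J F)
      (Finset.filter_subset _ _) (Finset.filter_subset _ _) (by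
        rw [Finset.disjoint_left]
        intro e h1 h2
        obtain ⟨-, j, hj, h3⟩ := Finset.mem_filter.mp h1
        have h4 := (Finset.mem_filter.mp h2).2
        exact Set.disjoint_left.mp (hd j J hj (by omega)) h3 h4)
      (fun F hF => forall_congr' fun j => forall_congr' fun hj =>
        hA j (by omega) F _ hF (Finset.inter_subset_left.trans hF) (by
          intro e he
          simp only [Finset.mem_inter, Finset.mem_filter]
          constructor
          · intro h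
            exact ⟨h, hF h, j, hj, he⟩
          · exact fun h => h.1))
      (fun F hF => hA J (by omega) F _ hF (Finset.inter_subset_left.trans hF) (by
          intro e he
          simp only [Finset.mem_inter, Finset.mem_filter]
          constructor
          · intro h
            exact ⟨h, hF h, he⟩
          · exact fun h => h.1))
    rw [e1, i2, pow_succ]
    have h0 : 0 ≤ Pr p S (A J) := Pr_nonneg hp _ _
    have h1 : 0 ≤ Pr p S (fun F => ∀ j < J, A j F) := Pr_nonneg hp _ _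
    exact mul_le_mul i1 (hx J (by omega)) h0 (h1.trans i1)

end Indep

/-- The closed box. -/
def WA_P (c1 c2 : ℤ) (ρ : ℕ) (v : Vtx) : Prop := inR (c1 - ρ) (c1 + ρ) (c2 - ρ) (c2 + ρ) v

/-- Far away. -/
def WA_Q (c1 c2 : ℤ) (R : ℕ) (v : Vtx) : Prop :=
  v.1 ≤ c1 - R ∨ c1 + R ≤ v.1 ∨ v.2 ≤ c2 - R ∨ c2 + R ≤ v.2

theorem WA_crs_iff {c1 c2 : ℤ} {ρ R : ℕ} {F : Set Edg} :
    Crs c1 c2 ρ R F ↔ ∃ x y, WA_P c1 c2 ρ x ∧ WA_Q c1 c2 R y ∧ GR src tgt F x y := Iff.rfl

theorem WA_dcrs_iff {c1 c2 : ℤ} {ρ R : ℕ} {F : Set Edg} :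
    DCrs c1 c2 ρ R F ↔ ∃ x y, WA_P c1 c2 ρ x ∧ WA_Q c1 c2 R y ∧ GR dsrc dtgt F x y := Iff.rfl

theorem WA_crs_local {c1 c2 : ℤ} {ρ R : ℕ} {F G : Set Edg}
    (h : ∀ e ∈ WA_T src tgt (WA_P c1 c2 ρ) (WA_Q c1 c2 R), e ∈ F → e ∈ G)
    (hF : Crs c1 c2 ρ R F) : Crs c1 c2 ρ R G := by
  rw [WA_crs_iff] at *
  obtain ⟨x, y, h1, h2, h3⟩ := hF
  obtain ⟨x', y', h4, h5, h6⟩ := WA_cross src tgt h3 h1 h2
  exact ⟨x', y', h4, h5, h6.mono (fun e he => h e he.2 he.1)⟩

theorem WA_dcrs_local {c1 c2 : ℤ} {ρ R : ℕ} {F G : Set Edg}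
    (h : ∀ e ∈ WA_T dsrc dtgt (WA_P c1 c2 ρ) (WA_Q c1 c2 R), e ∈ F → e ∈ G)
    (hF : DCrs c1 c2 ρ R F) : DCrs c1 c2 ρ R G := by
  rw [WA_dcrs_iff] at *
  obtain ⟨x, y, h1, h2, h3⟩ := hF
  obtain ⟨x', y', h4, h5, h6⟩ := WA_cross dsrc dtgt h3 h1 h2
  exact ⟨x', y', h4, h5, h6.mono (fun e he => h e he.2 he.1)⟩

theorem WA_crs_mono {c1 c2 : ℤ} {ρ R ρ' R' : ℕ} (h1 : ρ ≤ ρ') (h2 : R' ≤ R) {F : Set Edg}
    (hF : Crs c1 c2 ρ R F) : Crs c1 c2 ρ' R' F := by
  have h1' : (ρ:ℤ) ≤ ρ' := by exact_mod_cast h1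
  have h2' : (R':ℤ) ≤ R := by exact_mod_cast h2
  obtain ⟨x, y, h3, h4, h5⟩ := hF
  refine ⟨x, y, ?_, ?_, h5⟩
  · unfold inR at *; omega
  · omega

theorem WA_dcrs_mono {c1 c2 : ℤ} {ρ R ρ' R' : ℕ} (h1 : ρ ≤ ρ') (h2 : R' ≤ R) {F : Set Edg}
    (hF : DCrs c1 c2 ρ R F) : DCrs c1 c2 ρ' R' F := by
  have h1' : (ρ:ℤ) ≤ ρ' := by exact_mod_cast h1
  have h2' : (R':ℤ) ≤ R := by exact_mod_cast h2
  obtain ⟨x, y, h3, h4, h5⟩ := hF
  refine ⟨x, y, ?_, ?_, h5⟩
  · unfold inR at *; omega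
  · omega

/-- Edges of the annulus have both ends in the big box. -/
theorem WA_T_prim {c1 c2 : ℤ} {ρ R : ℕ} {e : Edg}
    (he : e ∈ WA_T src tgt (WA_P c1 c2 ρ) (WA_Q c1 c2 R)) :
    WA_P c1 c2 R (src e) ∧ WA_P c1 c2 R (tgt e) := by
  obtain ⟨-, h⟩ := he
  obtain ⟨x, y, _ | _⟩ := e
  · simp only [WA_Q, WA_P, inR, src_mk, tgt_false] at *; omega
  · simp only [WA_Q, WA_P, inR, src_mk, tgt_true] at *; omega

theorem WA_T_dual {c1 c2 : ℤ} {ρ R : ℕ} {e : Edg}
    (he : e ∈ WA_T dsrc dtgt (WA_P c1 c2 ρ) (WA_Q c1 c2 R)) :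
    WA_P c1 c2 R (dsrc e) ∧ WA_P c1 c2 R (dtgt e) := by
  obtain ⟨-, h⟩ := he
  obtain ⟨x, y, _ | _⟩ := e
  · simp only [WA_Q, WA_P, inR, dsrc_false, dtgt_mk] at *; omega
  · simp only [WA_Q, WA_P, inR, dsrc_true, dtgt_mk] at *; omega

theorem WA_P_mono {c1 c2 : ℤ} {ρ ρ' : ℕ} (h : ρ ≤ ρ') {v : Vtx} (hv : WA_P c1 c2 ρ v) :
    WA_P c1 c2 ρ' v := by
  have h1' : (ρ:ℤ) ≤ ρ' := by exact_mod_cast h
  unfold WA_P inR at *; omega

/-- The probability of crossing `J` annuli. -/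
theorem WA_annuli (hb : WinBlk) {q κ : ℝ} {n : ℕ} (h : Win q κ n) {ρ R : ℕ} (hρ : 1 ≤ ρ)
    (hR : R ≤ n) (c1 c2 : ℤ) (S : Finset Edg) (J : ℕ) (hJ : ρ * 4 ^ J ≤ R) :
    PQ q S (fun F => Crs c1 c2 ρ R ↑F) ≤ (1 - κ ^ 4) ^ J ∧
      PQ q S (fun F => DCrs c1 c2 ρ R (↑(S \ F) : Set Edg)) ≤ (1 - κ ^ 4) ^ J := by
  have ok : Ok (fun _ : Edg => q) := okq (by linarith [h.lo]) (by linarith [h.hi])
  have hpow : ∀ j, j < J → 4 * (ρ * 4 ^ j) ≤ R := by
    intro j hj
    have h1 : 4 * 4 ^ j ≤ 4 ^ J := by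
      rw [← pow_succ']
      exact Nat.pow_le_pow_right (by norm_num) hj
    calc 4 * (ρ * 4 ^ j) = ρ * (4 * 4 ^ j) := by ring
      _ ≤ ρ * 4 ^ J := Nat.mul_le_mul_left _ h1
      _ ≤ R := hJ
  have hpos : ∀ j, 1 ≤ ρ * 4 ^ j := fun j => Nat.mul_pos hρ (by positivity)
  have hge : ∀ j, ρ ≤ ρ * 4 ^ j := fun j => Nat.le_mul_of_pos_right _ (by positivity)
  have hstep : ∀ i j, i < j → 3 * (ρ * 4 ^ i) ≤ ρ * 4 ^ j := by
    intro i j hij
    have h1 : 4 * 4 ^ i ≤ 4 ^ j := by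
      rw [← pow_succ']
      exact Nat.pow_le_pow_right (by norm_num) hij
    calc 3 * (ρ * 4 ^ i) ≤ ρ * (4 * 4 ^ i) := by nlinarith [hpos i]
      _ ≤ ρ * 4 ^ j := Nat.mul_le_mul_left _ h1
  constructor
  · refine le_trans ?_ (WA_prod ok S
      (fun j => WA_T src tgt (WA_P c1 c2 (ρ * 4 ^ j)) (WA_Q c1 c2 (3 * (ρ * 4 ^ j))))
      (fun j F => Crs c1 c2 (ρ * 4 ^ j) (3 * (ρ * 4 ^ j)) ↑F) (x := 1 - κ ^ 4) J ?_ ?_ ?_)
    · apply Pr_mono ok
      intro F _ hF j hj
      exact WA_crs_mono (hge j) (by have := hpow j hj; have := hpos j; omega) hF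
    · intro i j hij _
      rw [Set.disjoint_left]
      intro e h1 h2
      obtain ⟨h3, h4⟩ := WA_T_prim h1
      exact h2.1 ⟨WA_P_mono (hstep i j hij) h3, WA_P_mono (hstep i j hij) h4⟩
    · intro j _ F G _ _ hFG
      constructor
      · exact WA_crs_local (fun e he h => by
          have := (hFG e he).mp (by exact_mod_cast h)
          exact_mod_cast this)
      · exact WA_crs_local (fun e he h => by
          have := (hFG e he).mpr (by exact_mod_cast h)
          exact_mod_cast this)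
    · intro j hj
      have := (hb h (hpos j) (by have := hpow j hj; omega) c1 c2 S).1
      rw [PQ, Pr_not] at this
      linarith
  · refine le_trans ?_ (WA_prod ok S
      (fun j => WA_T dsrc dtgt (WA_P c1 c2 (ρ * 4 ^ j)) (WA_Q c1 c2 (3 * (ρ * 4 ^ j))))
      (fun j F => DCrs c1 c2 (ρ * 4 ^ j) (3 * (ρ * 4 ^ j)) (↑(S \ F) : Set Edg))
      (x := 1 - κ ^ 4) J ?_ ?_ ?_)
    · apply Pr_mono ok
      intro F _ hF j hj
      exact WA_dcrs_mono (hge j) (by have := hpow j hj; have := hpos j; omega) hF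
    · intro i j hij _
      rw [Set.disjoint_left]
      intro e h1 h2
      obtain ⟨h3, h4⟩ := WA_T_dual h1
      exact h2.1 ⟨WA_P_mono (hstep i j hij) h3, WA_P_mono (hstep i j hij) h4⟩
    · intro j _ F G _ _ hFG
      constructor
      · refine WA_dcrs_local (fun e he h => ?_)
        simp only [Finset.coe_sdiff, Set.mem_sdiff, Finset.mem_coe] at h ⊢
        exact ⟨h.1, fun h' => h.2 ((hFG e he).mpr h')⟩
      · refine WA_dcrs_local (fun e he h => ?_)
        simp only [Finset.coe_sdiff, Set.mem_sdiff, Finset.mem_coe] at h ⊢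
        exact ⟨h.1, fun h' => h.2 ((hFG e he).mp h')⟩
    · intro j hj
      have := (hb h (hpos j) (by have := hpow j hj; omega) c1 c2 S).2
      rw [PQ, Pr_not] at this
      linarith

theorem win_arm_of (hb : WinBlk) (κ : ℝ) (hκ : 0 < κ) : ∃ C c : ℝ, 0 < C ∧ 0 < c ∧
    ∀ (q : ℝ) (n : ℕ),
    Win q κ n → ∀ ρ R : ℕ, 1 ≤ ρ → ρ ≤ R → R ≤ n → ∀ (c1 c2 : ℤ) (S : Finset Edg),
      PQ q S (fun F => Crs c1 c2 ρ R ↑F) ≤ C * ((ρ:ℝ) / R) ^ c ∧
      PQ q S (fun F => DCrs c1 c2 ρ R (↑(S \ F) : Set Edg)) ≤ C * ((ρ:ℝ) / R) ^ c := by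
  by_cases hk : κ ≤ 1 / 2
  · have hk4 : κ ^ 4 ≤ (1 / 2) ^ 4 := pow_le_pow_left₀ hκ.le hk 4
    have hk40 : 0 < κ ^ 4 := by positivity
    set a : ℝ := 1 - κ ^ 4 with ha
    have ha0 : 0 < a := by rw [ha]; norm_num at hk4; linarith
    have ha1 : a < 1 := by rw [ha]; linarith
    set c : ℝ := -Real.log a / Real.log 4 with hc
    have hlog4 : 0 < Real.log 4 := Real.log_pos (by norm_num)
    have hloga : Real.log a < 0 := Real.log_neg ha0 ha1
    have hc0 : 0 < c := div_pos (by linarith) hlog4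
    have h4c : (4:ℝ) ^ (-c) = a := by
      rw [Real.rpow_def_of_pos (by norm_num), hc]
      have : Real.log 4 * -(-Real.log a / Real.log 4) = Real.log a := by field_simp
      rw [this, Real.exp_log ha0]
    refine ⟨1 / a, c, by positivity, hc0, ?_⟩
    intro q n hw ρ R hρ hρR hR c1 c2 S
    set J := Nat.log 4 (R / ρ) with hJ
    have hρ0 : 0 < ρ := hρ
    have hR0 : 0 < R := lt_of_lt_of_le hρ0 hρR
    have hdiv : R / ρ ≠ 0 := (Nat.div_pos hρR hρ0).ne'
    have h1 : ρ * 4 ^ J ≤ R := by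
      have h2 : 4 ^ J ≤ R / ρ := Nat.pow_log_le_self 4 hdiv
      calc ρ * 4 ^ J ≤ ρ * (R / ρ) := Nat.mul_le_mul_left _ h2
        _ ≤ R := Nat.mul_div_le R ρ
    have h2 : R < ρ * 4 ^ (J + 1) := by
      have h3 : R / ρ < 4 ^ (J + 1) := Nat.lt_pow_succ_log_self (by norm_num) _
      have h4 := (Nat.div_lt_iff_lt_mul hρ0).mp h3
      rwa [mul_comm]
    have hkey : a ^ J ≤ 1 / a * ((ρ:ℝ) / R) ^ c := by
      have h5 : ((1:ℝ) / 4 ^ (J + 1)) ≤ (ρ:ℝ) / R := by
        rw [div_le_div_iff₀ (by positivity) (by exact_mod_cast hR0)]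
        have : (R:ℝ) ≤ ρ * 4 ^ (J + 1) := by exact_mod_cast h2.le
        linarith
      have h6 : ((1:ℝ) / 4 ^ (J + 1)) ^ c = a ^ (J + 1) := by
        rw [← h4c, ← Real.rpow_natCast ((4:ℝ) ^ (-c)) (J + 1), ← Real.rpow_mul (by norm_num),
          one_div, Real.inv_rpow (by positivity), ← Real.rpow_natCast, ← Real.rpow_mul
          (by norm_num), ← Real.rpow_neg (by norm_num)]
        congr 1
        push_cast
        ring
      have h7 : a ^ (J + 1) ≤ ((ρ:ℝ) / R) ^ c := by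
        rw [← h6]
        exact Real.rpow_le_rpow (by positivity) h5 hc0.le
      rw [one_div, inv_mul_eq_div, le_div_iff₀ ha0, ← pow_succ]
      exact h7
    obtain ⟨k1, k2⟩ := WA_annuli hb hw hρ hR c1 c2 S J h1
    exact ⟨k1.trans hkey, k2.trans hkey⟩
  · refine ⟨1, 1, one_pos, one_pos, ?_⟩
    intro q n hw
    exact absurd hw.kle hk

/-- Discrete intermediate value theorem along an open path. -/
theorem WA_ivt {F : Set Edg} {u v : Vtx} (h : Reach F u v) (x : ℤ) (hu : u.1 ≤ x)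
    (hv : x ≤ v.1) : ∃ w : Vtx, w.1 = x ∧ Reach F u w ∧ Reach F w v := by
  induction h using Relation.ReflTransGen.head_induction_on with
  | refl => exact ⟨v, by omega, Reach.refl _ _, Reach.refl _ _⟩
  | @head a b hab hbv ih =>
    by_cases hb : b.1 ≤ x
    · obtain ⟨w, h1, h2, h3⟩ := ih hb
      exact ⟨w, h1, (Adj.reach hab).trans h2, h3⟩
    · refine ⟨a, ?_, Reach.refl _ _, (Adj.reach hab).trans hbv⟩
      obtain ⟨⟨x0, y0, bo⟩, -, hc⟩ := hab
      cases bo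
      · simp only [src_mk, tgt_false] at hc
        rcases hc with ⟨h1, h2⟩ | ⟨h1, h2⟩
        · rw [← h1] at hu ⊢; rw [← h2] at hb; simp only at *; omega
        · rw [← h2] at hu ⊢; rw [← h1] at hb; simp only at *; omega
      · simp only [src_mk, tgt_true] at hc
        rcases hc with ⟨h1, h2⟩ | ⟨h1, h2⟩
        · rw [← h1] at hu ⊢; rw [← h2] at hb; simp only at *; omega
        · rw [← h2] at hu ⊢; rw [← h1] at hb; simp only at *; omega

/-- Paths stay in the rectangle containing the edges. -/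
theorem WA_stay {F : Set Edg} {a b c d : ℤ} (hF : F ⊆ ↑(RE a b c d)) {u v : Vtx}
    (h : Reach F u v) (hu : c ≤ u.2 ∧ u.2 ≤ d) : c ≤ v.2 ∧ v.2 ≤ d := by
  induction h with
  | refl => exact hu
  | @tail w w' _ hstep _ =>
    obtain ⟨⟨x0, y0, bo⟩, he, hc⟩ := hstep
    have he' := hF he
    cases bo
    · have hm : a ≤ x0 ∧ x0 ≤ b ∧ c ≤ y0 ∧ y0 < d := by simpa using he'
      simp only [src_mk, tgt_false] at hc
      rcases hc with ⟨h1, h2⟩ | ⟨h1, h2⟩
      · rw [← h2]; simp only; omega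
      · rw [← h1]; simp only; omega
    · have hm : a ≤ x0 ∧ x0 < b ∧ c ≤ y0 ∧ y0 ≤ d := by simpa using he'
      simp only [src_mk, tgt_true] at hc
      rcases hc with ⟨h1, h2⟩ | ⟨h1, h2⟩
      · rw [← h2]; simp only; omega
      · rw [← h1]; simp only; omega

/-- A path to distance `L m` crosses the annuli around `(7 m (j + 1), 0)` (`σ = 1`) or
`(-7 m (j + 1), 0)` (`σ = -1`). -/
theorem WA_long {m L : ℕ} (hm : 1 ≤ m) {F : Set Edg}
    (hF : F ⊆ ↑(RE (-(L * m : ℕ)) (L * m : ℕ) (-m) m)) {u v : Vtx} (hu : |u.1| ≤ m)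
    (hu2 : |u.2| ≤ m) (h : Reach F u v) {j : ℕ} (hj : 10 * (j + 1) ≤ L) :
    ((L * m : ℕ) ≤ v.1 → Crs (7 * m * (j + 1)) 0 m (3 * m) F) ∧
      (v.1 ≤ -(L * m : ℕ) → Crs (-(7 * m * (j + 1))) 0 m (3 * m) F) := by
  rw [abs_le] at hu hu2
  have hLm : (10 * (j + 1) : ℤ) * m ≤ (L * m : ℕ) := by
    push_cast
    apply mul_le_mul_of_nonneg_right _ (by positivity)
    exact_mod_cast hj
  have hm' : (1:ℤ) ≤ m := by exact_mod_cast hm
  have hjm : (0:ℤ) ≤ j * m := by positivity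
  have hF' : F ⊆ ↑(RE (-(L * m : ℕ)) (L * m : ℕ) (-m) m) := hF
  constructor
  · intro hv
    have hx1 : u.1 ≤ 7 * m * (j + 1) := by nlinarith
    have hx2 : 7 * m * (j + 1) ≤ v.1 := by nlinarith
    obtain ⟨w, h1, h2, h3⟩ := WA_ivt h _ hx1 hx2
    have h4 := WA_stay hF' h2 hu2
    refine ⟨w, v, ?_, ?_, h3⟩
    · unfold inR; omega
    · right; left
      push_cast
      nlinarith
  · intro hv
    have hx1 : -(7 * m * (j + 1)) ≤ u.1 := by nlinarith
    have hx2 : v.1 ≤ -(7 * m * (j + 1)) := by nlinarith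
    obtain ⟨w, h1, h2, h3⟩ := WA_ivt h.symm _ hx2 hx1
    have h4 := WA_stay hF' h3.symm hu2
    refine ⟨w, v, ?_, ?_, h2.symm⟩
    · unfold inR; omega
    · left
      push_cast
      nlinarith

theorem win_end_of (hb : WinBlk) (κ : ℝ) (hκ : 0 < κ) : ∃ C c : ℝ, 0 < C ∧ 0 < c ∧
    ∀ (q : ℝ) (n : ℕ),
    Win q κ n → ∀ m L : ℕ, 1 ≤ m → 2 * m ≤ n → ∀ (S : Finset Edg),
      S ⊆ RE (-(L * m : ℕ)) (L * m : ℕ) (-m) m →
      PQ q S (fun F => ∃ u v : Vtx, |u.1| ≤ m ∧ (L * m : ℕ) ≤ |v.1| ∧ |u.2| ≤ m ∧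
        Reach (↑F : Set Edg) u v) ≤ C * Real.exp (-c * L) := by
  by_cases hk : κ ≤ 1 / 2
  · have hk4 : κ ^ 4 ≤ (1 / 2) ^ 4 := pow_le_pow_left₀ hκ.le hk 4
    have hk40 : 0 < κ ^ 4 := by positivity
    set a : ℝ := 1 - κ ^ 4 with ha
    have ha0 : 0 < a := by rw [ha]; norm_num at hk4; linarith
    have ha1 : a < 1 := by rw [ha]; linarith
    have hloga : Real.log a < 0 := Real.log_neg ha0 ha1
    refine ⟨2 / a, -Real.log a / 10, by positivity, by linarith, ?_⟩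
    intro q n hw m L hm hmn S hS
    have ok : Ok (fun _ : Edg => q) := okq (by linarith [hw.lo]) (by linarith [hw.hi])
    -- one side
    have hside : ∀ σ : ℤ, (σ = 1 ∨ σ = -1) →
        PQ q S (fun F => ∀ j < L / 10, Crs (σ * (7 * m * (j + 1))) 0 m (3 * m) ↑F) ≤
          a ^ (L / 10) := by
      intro σ hσ
      refine WA_prod ok S
        (fun j => WA_T src tgt (WA_P (σ * (7 * m * (j + 1))) 0 m)
          (WA_Q (σ * (7 * m * (j + 1))) 0 (3 * m)))
        (fun j F => Crs (σ * (7 * m * (j + 1))) 0 m (3 * m) ↑F) (x := a) (L / 10) ?_ ?_ ?_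
      · intro i j hij _
        rw [Set.disjoint_left]
        intro e h1 h2
        obtain ⟨h3, -⟩ := WA_T_prim h1
        obtain ⟨h4, -⟩ := WA_T_prim h2
        have hij' : (i:ℤ) + 1 ≤ j := by exact_mod_cast hij
        have hm' : (1:ℤ) ≤ m := by exact_mod_cast hm
        unfold WA_P inR at h3 h4
        push_cast at h3 h4
        have h5 : (m:ℤ) * (i + 1) ≤ m * j := by
          apply mul_le_mul_of_nonneg_left hij' (by positivity)
        rcases hσ with rfl | rfl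
        · nlinarith [h3.1.2, h4.1.1]
        · nlinarith [h3.1.1, h4.1.2]
      · intro j _ F G _ _ hFG
        constructor
        · exact WA_crs_local (fun e he h => by
            have := (hFG e he).mp (by exact_mod_cast h)
            exact_mod_cast this)
        · exact WA_crs_local (fun e he h => by
            have := (hFG e he).mpr (by exact_mod_cast h)
            exact_mod_cast this)
      · intro j hj
        have := (hb hw hm hmn (σ * (7 * m * (j + 1))) 0 S).1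
        rw [PQ, Pr_not] at this
        show Pr _ _ _ ≤ _
        rw [ha]
        linarith
    have h1 := hside 1 (Or.inl rfl)
    have h2 := hside (-1) (Or.inr rfl)
    have h3 : PQ q S (fun F => ∃ u v : Vtx, |u.1| ≤ m ∧ (L * m : ℕ) ≤ |v.1| ∧ |u.2| ≤ m ∧
        Reach (↑F : Set Edg) u v) ≤ a ^ (L / 10) + a ^ (L / 10) := by
      refine le_trans ?_ (add_le_add h1 h2)
      refine le_trans ?_ (Pr_or_le ok S _ _)
      apply Pr_mono ok
      rintro F hF ⟨u, v, hu, hv, hu2, hr⟩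
      have hFS : (↑F : Set Edg) ⊆ ↑(RE (-(L * m : ℕ)) (L * m : ℕ) (-m) m) :=
        Finset.coe_subset.mpr (hF.trans hS)
      rcases le_abs.mp hv with hv | hv
      · left
        intro j hj
        rw [one_mul]
        exact (WA_long hm hFS hu hu2 hr (by omega)).1 hv
      · right
        intro j hj
        rw [neg_one_mul]
        exact (WA_long hm hFS hu hu2 hr (by omega)).2 (by omega)
    refine h3.trans ?_
    have h4 : a ^ (L / 10) ≤ 1 / a * Real.exp (-(-Real.log a / 10) * L) := by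
      have h5 : Real.exp (-(-Real.log a / 10) * L) = a ^ ((L:ℝ) / 10) := by
        rw [Real.rpow_def_of_pos ha0]
        congr 1
        ring
      rw [h5, one_div, inv_mul_eq_div, le_div_iff₀ ha0, ← pow_succ, ← Real.rpow_natCast]
      apply Real.rpow_le_rpow_of_exponent_ge ha0 ha1.le
      have h6 : L < 10 * (L / 10 + 1) := by omega
      have h7 : (L:ℝ) < 10 * ((L / 10 : ℕ) + 1) := by exact_mod_cast h6
      push_cast
      linarith
    calc a ^ (L / 10) + a ^ (L / 10) = 2 * a ^ (L / 10) := by ring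
      _ ≤ 2 * (1 / a * Real.exp (-(-Real.log a / 10) * L)) := by
          apply mul_le_mul_of_nonneg_left h4 (by norm_num)
      _ = _ := by ring
  · refine ⟨1, 1, one_pos, one_pos, ?_⟩
    intro q n hw
    exact absurd hw.kle hk

end H12S
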