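import Pool.Agent.H12R2.Sep.Defs4
import Pool.Agent.H12R2.Sep.Win1
import Pool.Agent.H12R2.Sep.Win2
import Pool.Agent.H12R2.Sep.Exit2
import Pool.Agent.H12R2.Sep.Loc
import Pool.Agent.H12R2.Sep.H4

/-!
Task FP (helper227): probability and locality of the bad event of the closing step.
-/

namespace H12S

open H974 Finset

namespace FP2

theorem corner {r : ℕ} (hr : 1 ≤ r) {ζ z : ℤ × ℤ} (h : Arnd ζ z) :
    ∃ u : Vtx, fl r u = z ∧ Nr 1 (r * ζ.1, r * ζ.2) u := by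
  have hr' : (0:ℤ) < r := by exact_mod_cast hr
  have key : ∀ a b : ℤ, (b = a ∨ b = a - 1) → ∃ x : ℤ, x / (r:ℤ) = b ∧ |(r:ℤ) * a - x| ≤ 1 := by
    intro a b hab
    rcases hab with rfl | rfl
    · refine ⟨r * b, Int.mul_ediv_cancel_left _ hr'.ne', by simp⟩
    · refine ⟨r * a - 1, ?_, by simp⟩
      rw [show (r:ℤ) * a - 1 = (r - 1) + r * (a - 1) by ring,
        Int.add_mul_ediv_left _ _ hr'.ne', Int.ediv_eq_zero_of_lt (by omega) (by omega)]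
      ring
  obtain ⟨x, hx1, hx2⟩ := key ζ.1 z.1 h.1
  obtain ⟨y, hy1, hy2⟩ := key ζ.2 z.2 h.2
  refine ⟨(x, y), ?_, hx2, hy2⟩
  unfold fl
  rw [hx1, hy1]

theorem mem_hbE {d : Dir} {x0 y0 : ℤ} {ρ : ℕ} {g : Edg} (h : g ∈ hbE d x0 y0 ρ) :
    Nr ρ (src g) (x0, y0) := by
  have key : ∀ a b c e : ℤ, x0 - ρ ≤ a → b ≤ x0 + ρ → y0 - ρ ≤ c → e ≤ y0 + ρ →
      g ∈ RE a b c e → Nr ρ (src g) (x0, y0) := by
    intro a b c e h1 h2 h3 h4 hg
    obtain ⟨hs, -⟩ := ends_RE hg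
    unfold inR at hs
    constructor
    · show |(src g).1 - x0| ≤ ρ
      rw [abs_le]
      constructor <;> omega
    · show |(src g).2 - y0| ≤ ρ
      rw [abs_le]
      constructor <;> omega
  cases d
  · exact key _ _ _ _ (by omega) (by omega) (by omega) (by omega) h
  · exact key _ _ _ _ (by omega) (by omega) (by omega) (by omega) h
  · exact key _ _ _ _ (by omega) (by omega) (by omega) (by omega) h
  · exact key _ _ _ _ (by omega) (by omega) (by omega) (by omega) h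

theorem H4_congr {d : Dir} {x0 y0 : ℤ} {r ρ : ℕ} {F G : Set Edg}
    (h : F ∩ ↑(hbE d x0 y0 ρ) = G ∩ ↑(hbE d x0 y0 ρ)) : H4 d x0 y0 r ρ F ↔ H4 d x0 y0 r ρ G := by
  unfold H4 H3g
  rw [h]

theorem bad_imp {r ρ l : ℕ} {Q : Finset (ℤ × ℤ)} {S0 F G : Finset Edg} (hl : 1 ≤ l)
    (h1 : 32 * l ≤ ρ) (h2 : 32 * ρ ≤ r) (h : ∀ g, nearQ r Q g → (g ∈ F ↔ g ∈ G))
    (hF : Bad2 r ρ l Q S0 F) : Bad2 r ρ l Q S0 G := by
  rcases hF with ⟨ζ, ⟨z, hz, ha⟩, hc⟩ | ⟨d, j, i, hS, ⟨u, hu, hN⟩, hH⟩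
  · refine Or.inl ⟨ζ, ⟨z, hz, ha⟩, WA_crs_local (fun e he heF => ?_) hc⟩
    obtain ⟨hP, -⟩ := WA_T_prim he
    obtain ⟨u, hu, hN⟩ := corner (r := r) (by omega) ha
    have hnear : nearQ r Q e := by
      refine ⟨u, by show fl r u ∈ Q; rw [hu]; exact hz, ?_⟩
      unfold WA_P inR at hP
      obtain ⟨n1, n2⟩ := hN
      simp only [abs_le] at n1 n2
      have hr2 : (((r / 2 : ℕ) : ℤ)) + 1 ≤ r := by omega
      constructor
      · rw [abs_le]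
        constructor <;> omega
      · rw [abs_le]
        constructor <;> omega
    rw [Finset.mem_coe, Finset.mem_inter] at heF ⊢
    exact ⟨(h e hnear).1 heF.1, heF.2⟩
  · refine Or.inr ⟨d, j, i, hS, ⟨u, hu, hN⟩, (H4_congr ?_).1 hH⟩
    have hnear : ∀ e ∈ hbE d (cen d r l j i).1 (cen d r l j i).2 ρ, nearQ r Q e := by
      intro e he
      refine ⟨u, hu, ?_⟩
      obtain ⟨m1, m2⟩ := mem_hbE he
      obtain ⟨n1, n2⟩ := hN
      simp only [abs_le] at m1 m2 n1 n2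
      constructor
      · rw [abs_le]
        constructor <;> omega
      · rw [abs_le]
        constructor <;> omega
    ext e
    simp only [Set.mem_inter_iff, Finset.mem_coe]
    constructor
    · rintro ⟨a, b⟩
      exact ⟨(h e (hnear e b)).1 a, b⟩
    · rintro ⟨a, b⟩
      exact ⟨(h e (hnear e b)).2 a, b⟩

end FP2

/-- The statement of `H4_bound`. -/
def H4B : Prop := ∀ (κ : ℝ) (_ : 0 < κ), ∃ C c : ℝ, 0 < C ∧ 0 < c ∧ ∀ (q : ℝ) (n : ℕ),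
    Win q κ n → ∀ r ρ : ℕ, 1 ≤ r → r ≤ ρ → ρ ≤ n → ∀ (d : Dir) (x0 y0 : ℤ) (S : Finset Edg),
      hbE d x0 y0 ρ ⊆ S →
      PQ q S (fun F => H4 d x0 y0 r ρ ↑F) ≤ C * ((r:ℝ) / ρ) ^ (1 + c)

namespace FP2

theorem abs_bound {l : ℕ} (hl : 1 ≤ l) {i B : ℤ} (h : |(l:ℤ) * i| ≤ B * l) : |i| ≤ B := by
  have hl' : (0:ℤ) < l := by exact_mod_cast hl
  rw [abs_mul, abs_of_pos hl', mul_comm] at h
  exact le_of_mul_le_mul_right h hl'

/-- The half balls near the coarse set are finitely many. -/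
theorem cen_bound {r K l M4 : ℕ} (hl : 1 ≤ l) (h2l : 2 * l ≤ r) (hr : r ≤ 2 * M4 * l)
    {Q : Finset (ℤ × ℤ)} (hQ : ∀ z ∈ Q, |z.1| ≤ K ∧ |z.2| ≤ K) {d : Dir} {j i : ℤ} {u : Vtx}
    (hu : u ∈ FQ r Q) (hN : Nr (2 * l) u (cen d r l j i)) :
    |j| ≤ K + 3 ∧ |i| ≤ 2 * (K + 2) * M4 := by
  have hr0 : 1 ≤ r := by omega
  have hr' : (0:ℤ) < r := by exact_mod_cast hr0
  have h2l' : (2:ℤ) * l ≤ r := by exact_mod_cast h2l
  have hrz : (r:ℤ) ≤ 2 * M4 * l := by exact_mod_cast hr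
  have hl' : (1:ℤ) ≤ l := by exact_mod_cast hl
  obtain ⟨q1, q2⟩ := hQ _ hu
  unfold fl at q1 q2
  simp only at q1 q2
  have key : ∀ a : ℤ, |a / (r:ℤ)| ≤ K → |a| ≤ (K + 1) * r := by
    intro a ha
    rw [abs_le] at ha ⊢
    have e1 := Int.emod_add_mul_ediv a r
    have e2 := Int.emod_nonneg a hr'.ne'
    have e3 := Int.emod_lt_of_pos a hr'
    constructor <;> nlinarith
  have b1 := key _ q1
  have b2 := key _ q2
  obtain ⟨n1, n2⟩ := hN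
  have hj : ∀ t : ℤ, |t| ≤ (K + 1) * r → ∀ s : ℤ, |t - s| ≤ 2 * l →
      (s = r * j ∨ s = r * j - 1) → |j| ≤ K + 3 := by
    intro t ht s hs hsj
    apply abs_bound hr0
    rw [abs_le] at *
    rcases hsj with rfl | rfl
    · constructor <;> nlinarith
    · constructor <;> nlinarith
  have hi : ∀ t : ℤ, |t| ≤ (K + 1) * r → |t - l * i| ≤ 2 * l → |i| ≤ 2 * (K + 2) * M4 := by
    intro t ht hs
    apply abs_bound hl
    have h3 : ((K:ℤ) + 2) * r ≤ 2 * (K + 2) * M4 * l := by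
      have : ((K:ℤ) + 2) * r ≤ (K + 2) * (2 * M4 * l) :=
        mul_le_mul_of_nonneg_left hrz (by positivity)
      linarith
    rw [abs_le] at *
    constructor <;> nlinarith
  cases d
  · exact ⟨hj _ b2 _ n2 (Or.inl rfl), hi _ b1 n1⟩
  · exact ⟨hj _ b2 _ n2 (Or.inr rfl), hi _ b1 n1⟩
  · exact ⟨hj _ b1 _ n1 (Or.inl rfl), hi _ b2 n2⟩
  · exact ⟨hj _ b1 _ n1 (Or.inr rfl), hi _ b2 n2⟩

end FP2

open FP2 EP2 in
theorem bad2_prob_of (HD : H4B) (κ : ℝ) (hκ : 0 < κ) (K : ℕ) (δ : ℝ) (hδ : 0 < δ) :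
    ∃ M3 M4 : ℕ, 32 ≤ M3 ∧
    32 * M3 ≤ M4 ∧ ∀ (q : ℝ) (n : ℕ), Win q κ n → ∀ r : ℕ, M4 ≤ r → r ≤ n →
      ∀ (Q : Finset (ℤ × ℤ)), (∀ z ∈ Q, |z.1| ≤ K ∧ |z.2| ≤ K) → ∀ (S0 S : Finset Edg), S0 ⊆ S →
        PQ q S (Bad2 r (r / M3) (r / M4) Q S0) ≤ δ := by
  obtain ⟨C1, c1, hC1, hc1, harm⟩ := win_arm_of
    (by intro q κ n h m hm hmn c1 c2 S; exact win_blk h hm hmn c1 c2 S) κ hκ
  obtain ⟨C2, c2, hC2, hc2, hH4⟩ := HD κ hκ
  obtain ⟨M3, hM3, hM3'⟩ := choose_M ((2 * K + 2) ^ 2 / 16) 0 C1 16 (by positivity) le_rfl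
    hC1.le (by norm_num) hc1 (half_pos hδ) 32
  obtain ⟨M4, hM4, hM4'⟩ := choose_M (4 * (2 * K + 7) * (4 * (K + 2))) (4 * (2 * K + 7)) C2
    (16 * M3) (by positivity) (by positivity) hC2.le (by positivity) hc2 (half_pos hδ) (32 * M3)
  refine ⟨M3, M4, hM3, hM4, ?_⟩
  intro q n hW r hr hrn Q hQ S0 S hS0
  obtain ⟨h0, h1⟩ := win01 hW
  have ok := okq h0 h1
  have hM3p : 0 < M3 := by omega
  have hM4p : 0 < M4 := by omega
  set ρ := r / M3 with hρ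
  set l := r / M4 with hl
  have hl1 : 1 ≤ l := (Nat.one_le_div_iff hM4p).2 hr
  have hlr : l * M4 ≤ r := Nat.div_mul_le_self r M4
  have hρr : ρ * M3 ≤ r := Nat.div_mul_le_self r M3
  have h32l : 32 * l ≤ ρ := by
    rw [hρ, Nat.le_div_iff_mul_le hM3p]
    calc 32 * l * M3 = l * (32 * M3) := by ring
      _ ≤ l * M4 := Nat.mul_le_mul_left _ hM4
      _ ≤ r := hlr
  have h32ρ : 32 * ρ ≤ r := by
    calc 32 * ρ = ρ * 32 := by ring
      _ ≤ ρ * M3 := Nat.mul_le_mul_left _ hM3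
      _ ≤ r := hρr
  have hr2l : r ≤ 2 * M4 * l := by
    have e1 := Nat.div_add_mod r M4
    have e2 := Nat.mod_lt r hM4p
    rw [← hl] at e1
    nlinarith
  have hr2ρ : r ≤ 2 * M3 * ρ := by
    have e1 := Nat.div_add_mod r M3
    have e2 := Nat.mod_lt r hM3p
    rw [← hρ] at e1
    nlinarith
  -- the two index sets
  let T1 : Finset (ℤ × ℤ) := Icc (-(K:ℤ)) (K + 1) ×ˢ Icc (-(K:ℤ)) (K + 1)
  let T2 : Finset (Dir × (ℤ × ℤ)) := (univ : Finset Dir) ×ˢ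
    (Icc (-((K + 3 : ℕ):ℤ)) ((K + 3 : ℕ):ℤ) ×ˢ
      Icc (-((2 * (K + 2) * M4 : ℕ):ℤ)) ((2 * (K + 2) * M4 : ℕ):ℤ))
  let A : ℤ × ℤ → Finset Edg → Prop := fun ζ F => Crs (r * ζ.1) (r * ζ.2) (4 * ρ) (r / 2) ↑F
  let B : Dir × (ℤ × ℤ) → Finset Edg → Prop := fun p F =>
    hbE p.1 (cen p.1 r l p.2.1 p.2.2).1 (cen p.1 r l p.2.1 p.2.2).2 ρ ⊆ S0 ∧
      H4 p.1 (cen p.1 r l p.2.1 p.2.2).1 (cen p.1 r l p.2.1 p.2.2).2 (8 * l) ρ (↑F : Set Edg)
  have hcover : PQ q S (Bad2 r ρ l Q S0) ≤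
      PQ q S (fun F => (∃ ζ ∈ T1, A ζ F) ∨ ∃ p ∈ T2, B p F) := by
    refine Pr_mono ok fun F _ hF => ?_
    rcases hF with ⟨ζ, ⟨z, hz, ha⟩, hc⟩ | ⟨d, j, i, hS, ⟨u, hu, hN⟩, hH⟩
    · left
      refine ⟨ζ, ?_, ?_⟩
      · obtain ⟨z1, z2⟩ := hQ z hz
        rw [abs_le] at z1 z2
        obtain ⟨a1, a2⟩ := ha
        simp only [T1, mem_product, mem_Icc]
        omega
      · obtain ⟨x, y, k1, k2, k3⟩ := hc
        refine ⟨x, y, k1, k2, k3.mono ?_⟩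
        intro e he
        rw [Finset.mem_coe, Finset.mem_inter] at he
        exact he.1
    · right
      refine ⟨(d, (j, i)), ?_, hS, hH⟩
      obtain ⟨b1, b2⟩ := cen_bound (K := K) (M4 := M4) hl1 (by omega) hr2l hQ hu hN
      rw [abs_le] at b1 b2
      simp only [T2, mem_product, mem_univ, mem_Icc, true_and]
      push_cast
      exact ⟨b1, b2⟩
  have hA : ∀ ζ ∈ T1, PQ q S (A ζ) ≤ C1 * (16 / (M3:ℝ)) ^ c1 := by
    intro ζ _
    refine ((harm q n hW (4 * ρ) (r / 2) (by omega) (by omega) (by omega) _ _ S).1).trans ?_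
    refine mul_le_mul_of_nonneg_left (Real.rpow_le_rpow (by positivity) ?_ hc1.le) hC1.le
    have h3 : 0 < r / 2 := by omega
    rw [div_le_div_iff₀ (by exact_mod_cast h3) (by exact_mod_cast hM3p)]
    have h4 : 4 * ρ * M3 ≤ 16 * (r / 2) := by
      have : 4 * ρ * M3 = 4 * (ρ * M3) := by ring
      omega
    exact_mod_cast h4
  have hB : ∀ p ∈ T2, PQ q S (B p) ≤ C2 * (16 * (M3:ℝ) / M4) ^ (1 + c2) := by
    intro p _
    by_cases hs : hbE p.1 (cen p.1 r l p.2.1 p.2.2).1 (cen p.1 r l p.2.1 p.2.2).2 ρ ⊆ S0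
    · refine (Pr_mono ok (fun F _ hF => hF.2)).trans
        ((hH4 q n hW (8 * l) ρ (by omega) (by omega) (by omega) p.1
          (cen p.1 r l p.2.1 p.2.2).1 (cen p.1 r l p.2.1 p.2.2).2 S (hs.trans hS0)).trans ?_)
      refine mul_le_mul_of_nonneg_left (Real.rpow_le_rpow (by positivity) ?_ (by linarith)) hC2.le
      have h3 : 0 < ρ := by omega
      rw [div_le_div_iff₀ (by exact_mod_cast h3) (by exact_mod_cast hM4p)]
      have h4 : 8 * l * M4 ≤ 16 * M3 * ρ := by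
        calc 8 * l * M4 = 8 * (l * M4) := by ring
          _ ≤ 8 * r := by omega
          _ ≤ 8 * (2 * M3 * ρ) := by omega
          _ = 16 * M3 * ρ := by ring
      exact_mod_cast h4
    · have h3 : PQ q S (B p) ≤ PQ q S (fun _ => False) :=
        Pr_mono ok fun F _ hF => hs hF.1
      have h4 : PQ q S (fun _ => False) = 0 := by
        have k1 := Pr_true (p := fun _ : Edg => q) S (A := fun _ => True) (fun _ _ => trivial)
        have k2 := Pr_not (p := fun _ : Edg => q) S (fun _ => True)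
        simp only [not_true_eq_false] at k2
        unfold PQ
        rw [k2, k1, sub_self]
      rw [h4] at h3
      exact h3.trans (by positivity)
  have hT1 : (T1.card : ℝ) = (2 * K + 2) ^ 2 := by
    have e1 : (Icc (-(K:ℤ)) (K + 1)).card = 2 * K + 2 := by
      rw [Int.card_Icc]
      omega
    have e2 : T1.card = (2 * K + 2) * (2 * K + 2) := by
      simp only [T1, card_product, e1]
    rw [e2]
    push_cast
    ring
  have hT2 : (T2.card : ℝ) = 4 * ((2 * K + 7) * (4 * (K + 2) * M4 + 1)) := by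
    have e1 : (Icc (-((K + 3 : ℕ):ℤ)) ((K + 3 : ℕ):ℤ)).card = 2 * K + 7 := by
      rw [Int.card_Icc]
      omega
    have e2 : (Icc (-((2 * (K + 2) * M4 : ℕ):ℤ)) ((2 * (K + 2) * M4 : ℕ):ℤ)).card =
        2 * (2 * (K + 2) * M4) + 1 := by
      rw [Int.card_Icc]
      omega
    have e3 : (univ : Finset Dir).card = 4 := rfl
    have e4 : T2.card = 4 * ((2 * K + 7) * (2 * (2 * (K + 2) * M4) + 1)) := by
      simp only [T2, card_product, e1, e2, e3]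
    rw [e4]
    push_cast
    ring
  have s1 : PQ q S (fun F => ∃ ζ ∈ T1, A ζ F) ≤ δ / 2 := by
    refine (pr_biUnion h0 h1 S T1 A).trans ((Finset.sum_le_sum hA).trans ?_)
    rw [Finset.sum_const, nsmul_eq_mul, hT1]
    refine le_trans (le_of_eq ?_) hM3'
    have hM3r : (0:ℝ) < M3 := by exact_mod_cast hM3p
    rw [Real.rpow_add (by positivity), Real.rpow_one]
    field_simp
    ring
  have s2 : PQ q S (fun F => ∃ p ∈ T2, B p F) ≤ δ / 2 := by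
    refine (pr_biUnion h0 h1 S T2 B).trans ((Finset.sum_le_sum hB).trans ?_)
    rw [Finset.sum_const, nsmul_eq_mul, hT2]
    refine le_trans (le_of_eq ?_) hM4'
    ring
  have s3 := Pr_or_le ok S (fun F => ∃ ζ ∈ T1, A ζ F) (fun F => ∃ p ∈ T2, B p F)
  unfold PQ at *
  linarith

theorem bad2_prob (κ : ℝ) (hκ : 0 < κ) (K : ℕ) (δ : ℝ) (hδ : 0 < δ) : ∃ M3 M4 : ℕ, 32 ≤ M3 ∧
    32 * M3 ≤ M4 ∧ ∀ (q : ℝ) (n : ℕ), Win q κ n → ∀ r : ℕ, M4 ≤ r → r ≤ n →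
      ∀ (Q : Finset (ℤ × ℤ)), (∀ z ∈ Q, |z.1| ≤ K ∧ |z.2| ≤ K) → ∀ (S0 S : Finset Edg), S0 ⊆ S →
        PQ q S (Bad2 r (r / M3) (r / M4) Q S0) ≤ δ :=
  bad2_prob_of (fun κ hκ => H4_bound κ hκ) κ hκ K δ hδ

theorem bad2_local {r ρ l : ℕ} {Q : Finset (ℤ × ℤ)} {S0 F G : Finset Edg} (hl : 1 ≤ l)
    (h1 : 32 * l ≤ ρ) (h2 : 32 * ρ ≤ r) (h : ∀ g, nearQ r Q g → (g ∈ F ↔ g ∈ G)) :
    Bad2 r ρ l Q S0 F ↔ Bad2 r ρ l Q S0 G :=
  ⟨FP2.bad_imp hl h1 h2 h, FP2.bad_imp hl h1 h2 fun g hg => (h g hg).symm⟩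

end H12S
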