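import Pool.Agent.H12R2.Sep.Defs4
import Pool.Agent.H12R2.Sep.Loc

/-! Task S3D (helper726): the deterministic part of the third step. -/

namespace H12S

open H974 Finset

/-- Bad event at the mouths of the horizontal tubes. -/
def Bad3 (b w ρ l : ℕ) (F : Finset Edg) : Prop :=
  (∃ c : ℤ × ℤ, (c.1 = b ∨ c.1 = -(b:ℤ)) ∧ (c.2 = w ∨ c.2 = -(w:ℤ)) ∧
    Crs c.1 c.2 (4 * ρ) (w / 2) (↑(F ∩ boxE b) : Set Edg)) ∨
  (∃ i : ℤ, |(l:ℤ) * i| + ρ ≤ w ∧ (H4 Dir.lf b (l * i) (8 * l) ρ (↑F : Set Edg) ∨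
    H4 Dir.rt (-b) (l * i) (8 * l) ρ (↑F : Set Edg)))

theorem F3_up {G : Set Edg} {x N : ℤ} (n : ℕ) : ∀ y : ℤ, y + n = N →
    (∀ y', y ≤ y' → y' < N → ((x, y', false) : Edg) ∈ G) → Reach G (x, y) (x, N) := by
  induction n with
  | zero =>
    intro y hy _
    have : y = N := by simpa using hy
    subst this; exact Reach.refl _ _
  | succ n ih =>
    intro y hy h
    have h1 : Adj G (x, y) (x, y + 1) := ⟨(x, y, false), h y le_rfl (by push_cast at hy; omega),
      Or.inl ⟨by simp, by simp⟩⟩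
    exact h1.reach.trans (ih (y + 1) (by push_cast at hy; omega)
      (fun y' h2 h3 => h y' (by omega) h3))

theorem F3_up' {G : Set Edg} {x y N : ℤ} (hyN : y ≤ N)
    (h : ∀ y', y ≤ y' → y' < N → ((x, y', false) : Edg) ∈ G) : Reach G (x, y) (x, N) :=
  F3_up (N - y).toNat y (by omega) h

theorem F3_mem {b w N : ℕ} {g : Edg} : g ∈ boxE N \ XH b w N ↔
    g ∈ boxE N ∧ g ∉ boxE b ∧ g ∉ RE (-(N:ℤ)) N (-(w:ℤ)) w := by
  simp only [XH, Finset.mem_sdiff, Finset.mem_union, not_or]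

theorem F3_out {b w N : ℕ} {g : Edg} (hg : g ∈ boxE N \ XH b w N) :
    ((w:ℤ) ≤ (src g).2 ∧ (w:ℤ) ≤ (tgt g).2 ∧
      ∃ v : Vtx, v.2 = N ∧ Reach (↑(boxE N \ XH b w N) : Set Edg) (src g) v) ∨
    ((src g).2 ≤ -(w:ℤ) ∧ (tgt g).2 ≤ -(w:ℤ) ∧
      ∃ v : Vtx, v.2 = -(N:ℤ) ∧ Reach (↑(boxE N \ XH b w N) : Set Edg) (src g) v) := by
  have hg0 := hg
  obtain ⟨x, y, _ | _⟩ := g
  · rw [F3_mem] at hg
    simp only [boxE, mem_RE_false] at hg
    obtain ⟨h1, h2, h3⟩ := hg
    simp only [src_mk, tgt_false]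
    by_cases hy : (w:ℤ) ≤ y
    · left
      refine ⟨hy, by omega, (x, (N:ℤ)), rfl, F3_up' (by omega) ?_⟩
      intro y' h4 h5
      rw [Finset.mem_coe, F3_mem]
      simp only [boxE, mem_RE_false]
      omega
    · right
      refine ⟨by omega, by omega, (x, -(N:ℤ)), rfl, Reach.symm (F3_up' (by omega) ?_)⟩
      intro y' h4 h5
      rw [Finset.mem_coe, F3_mem]
      simp only [boxE, mem_RE_false]
      omega
  · rw [F3_mem] at hg
    simp only [boxE, mem_RE_true] at hg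
    obtain ⟨h1, h2, h3⟩ := hg
    have hadj : Reach (↑(boxE N \ XH b w N) : Set Edg) (x, y) (x + 1, y) :=
      Adj.reach ⟨(x, y, true), hg0, Or.inl ⟨by simp, by simp⟩⟩
    simp only [src_mk, tgt_true]
    by_cases hy : (w:ℤ) ≤ y
    · left
      by_cases hx : x = b
      · refine ⟨hy, hy, (x + 1, (N:ℤ)), rfl, hadj.trans (F3_up' (by omega) ?_)⟩
        intro y' h4 h5
        rw [Finset.mem_coe, F3_mem]
        simp only [boxE, mem_RE_false]
        omega
      · refine ⟨hy, hy, (x, (N:ℤ)), rfl, F3_up' (by omega) ?_⟩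
        intro y' h4 h5
        rw [Finset.mem_coe, F3_mem]
        simp only [boxE, mem_RE_false]
        omega
    · right
      by_cases hx : x = b
      · refine ⟨by omega, by omega, (x + 1, -(N:ℤ)), rfl,
          hadj.trans (Reach.symm (F3_up' (by omega) ?_))⟩
        intro y' h4 h5
        rw [Finset.mem_coe, F3_mem]
        simp only [boxE, mem_RE_false]
        omega
      · refine ⟨by omega, by omega, (x, -(N:ℤ)), rfl, Reach.symm (F3_up' (by omega) ?_)⟩
        intro y' h4 h5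
        rw [Finset.mem_coe, F3_mem]
        simp only [boxE, mem_RE_false]
        omega

theorem F3_bot {b w N : ℕ} (hwN : w ≤ N) {e : Edg} (he : e ∈ boxE b) {F : Finset Edg}
    (hno : ¬ Cn (botV N) (topV N) (((↑(F ∩ boxE b) : Set Edg) ∪ ↑(boxE N \ XH b w N)) \ {e}))
    {v : Vtx} (hv : v ∈ Cl src tgt (botV N) (((↑(F ∩ boxE b) : Set Edg) ∪
      ↑(boxE N \ XH b w N)) \ {e})) :
    ∃ p : Vtx, Reach ((↑(F ∩ boxE b) : Set Edg) \ {e}) v p ∧ p.2 ≤ -(w:ℤ) := by
  obtain ⟨u, hu, huv⟩ := hv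
  have hsub : (↑(boxE N \ XH b w N) : Set Edg) ⊆
      ((↑(F ∩ boxE b) : Set Edg) ∪ ↑(boxE N \ XH b w N)) \ {e} := by
    intro g hg
    refine ⟨Or.inr hg, ?_⟩
    rintro rfl
    rw [Finset.mem_coe, F3_mem] at hg
    exact hg.2.1 he
  induction huv with
  | refl =>
    refine ⟨u, Reach.refl _ _, ?_⟩
    have : u.2 = -(N:ℤ) := hu
    omega
  | @tail y z hyz hs ih =>
    obtain ⟨p, hp1, hp2⟩ := ih
    obtain ⟨g, ⟨hg, hge⟩, hc⟩ := hs
    rcases hg with hg | hg
    · refine ⟨p, ?_, hp2⟩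
      have : Adj ((↑(F ∩ boxE b) : Set Edg) \ {e}) z y := ⟨g, ⟨hg, hge⟩, hc.symm⟩
      exact this.reach.trans hp1
    · rcases F3_out hg with ⟨h1, h2, t, ht, hr⟩ | ⟨h1, h2, -⟩
      · exfalso
        apply hno
        have hr' := hr.mono hsub
        refine ⟨u, hu, t, ht, ?_⟩
        have hyz' : Reach (((↑(F ∩ boxE b) : Set Edg) ∪ ↑(boxE N \ XH b w N)) \ {e}) u y := hyz
        rcases hc with ⟨h3, h4⟩ | ⟨h3, h4⟩
        · rw [h3] at hr'
          exact hyz'.trans hr'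
        · rw [h3] at hr'
          have : Adj (((↑(F ∩ boxE b) : Set Edg) ∪ ↑(boxE N \ XH b w N)) \ {e}) y z :=
            ⟨g, ⟨Or.inr hg, hge⟩, Or.inr ⟨h3, h4⟩⟩
          exact (hyz'.trans this.reach).trans hr'
      · refine ⟨z, Reach.refl _ _, ?_⟩
        rcases hc with ⟨h3, h4⟩ | ⟨h3, h4⟩
        · rw [← h4]; exact h2
        · rw [← h3]; exact h1

theorem F3_top {b w N : ℕ} (hwN : w ≤ N) {e : Edg} (he : e ∈ boxE b) {F : Finset Edg}
    (hno : ¬ Cn (botV N) (topV N) (((↑(F ∩ boxE b) : Set Edg) ∪ ↑(boxE N \ XH b w N)) \ {e}))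
    {v : Vtx} (hv : v ∈ Cl src tgt (topV N) (((↑(F ∩ boxE b) : Set Edg) ∪
      ↑(boxE N \ XH b w N)) \ {e})) :
    ∃ p : Vtx, Reach ((↑(F ∩ boxE b) : Set Edg) \ {e}) v p ∧ (w:ℤ) ≤ p.2 := by
  obtain ⟨u, hu, huv⟩ := hv
  have hsub : (↑(boxE N \ XH b w N) : Set Edg) ⊆
      ((↑(F ∩ boxE b) : Set Edg) ∪ ↑(boxE N \ XH b w N)) \ {e} := by
    intro g hg
    refine ⟨Or.inr hg, ?_⟩
    rintro rfl
    rw [Finset.mem_coe, F3_mem] at hg
    exact hg.2.1 he
  induction huv with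
  | refl =>
    refine ⟨u, Reach.refl _ _, ?_⟩
    have : u.2 = (N:ℤ) := hu
    omega
  | @tail y z hyz hs ih =>
    obtain ⟨p, hp1, hp2⟩ := ih
    obtain ⟨g, ⟨hg, hge⟩, hc⟩ := hs
    rcases hg with hg | hg
    · refine ⟨p, ?_, hp2⟩
      have : Adj ((↑(F ∩ boxE b) : Set Edg) \ {e}) z y := ⟨g, ⟨hg, hge⟩, hc.symm⟩
      exact this.reach.trans hp1
    · rcases F3_out hg with ⟨h1, h2, -⟩ | ⟨h1, h2, t, ht, hr⟩
      · refine ⟨z, Reach.refl _ _, ?_⟩
        rcases hc with ⟨h3, h4⟩ | ⟨h3, h4⟩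
        · rw [← h4]; exact h2
        · rw [← h3]; exact h1
      · exfalso
        apply hno
        have hr' := hr.mono hsub
        refine ⟨t, ht, u, hu, Reach.symm ?_⟩
        have hyz' : Reach (((↑(F ∩ boxE b) : Set Edg) ∪ ↑(boxE N \ XH b w N)) \ {e}) u y := hyz
        rcases hc with ⟨h3, h4⟩ | ⟨h3, h4⟩
        · rw [h3] at hr'
          exact hyz'.trans hr'
        · rw [h3] at hr'
          have : Adj (((↑(F ∩ boxE b) : Set Edg) ∪ ↑(boxE N \ XH b w N)) \ {e}) y z :=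
            ⟨g, ⟨Or.inr hg, hge⟩, Or.inr ⟨h3, h4⟩⟩
          exact (hyz'.trans this.reach).trans hr'

theorem F3_VD {b w N : ℕ} (hwb : w ≤ b) {v : Vtx}
    (hv : v ∈ VD src tgt (↑(XH b w N \ boxE b) : Set Edg)) :
    (-(w:ℤ) ≤ v.2 ∧ v.2 ≤ w) ∧ ((b:ℤ) ≤ v.1 ∨ v.1 ≤ -(b:ℤ)) := by
  obtain ⟨g, hg, hc⟩ := hv
  rw [Finset.mem_coe, Finset.mem_sdiff, XH, Finset.mem_union] at hg
  obtain ⟨hg1, hg2⟩ := hg
  have hg1 := hg1.resolve_left hg2
  obtain ⟨x, y, _ | _⟩ := g
  · simp only [boxE, mem_RE_false] at hg1 hg2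
    rcases hc with hc | hc
    · simp only [src_mk] at hc
      subst hc
      simp only
      omega
    · simp only [tgt_false] at hc
      subst hc
      simp only
      omega
  · simp only [boxE, mem_RE_true] at hg1 hg2
    rcases hc with hc | hc
    · simp only [src_mk] at hc
      subst hc
      simp only
      omega
    · simp only [tgt_true] at hc
      subst hc
      simp only
      omega

/-- vertices outside of the box are isolated in the box -/
theorem F3_iso {b : ℕ} {G : Set Edg} (hG : G ⊆ ↑(boxE b)) {v p : Vtx}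
    (hv : (b:ℤ) < v.1 ∨ v.1 < -(b:ℤ)) (h : Reach G v p) : p = v := by
  rcases Relation.ReflTransGen.cases_head h with h | ⟨z, ⟨g, hg, hc⟩, -⟩
  · exact h.symm
  · exfalso
    have h1 := ends_RE (hG hg)
    unfold inR at h1
    rcases hc with ⟨h2, h3⟩ | ⟨h2, h3⟩
    · rw [h2] at h1; omega
    · rw [h3] at h1; omega

theorem F3_stay {b : ℕ} {G : Set Edg} (hG : G ⊆ ↑(boxE b)) {v p : Vtx}
    (hv : -(b:ℤ) ≤ v.1 ∧ v.1 ≤ b) (h : Reach G v p) : -(b:ℤ) ≤ p.1 ∧ p.1 ≤ b := by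
  induction h with
  | refl => exact hv
  | @tail y z _ hs _ =>
    obtain ⟨g, hg, hc⟩ := hs
    have h1 := ends_RE (hG hg)
    unfold inR at h1
    rcases hc with ⟨h2, h3⟩ | ⟨h2, h3⟩
    · rw [h3] at h1; omega
    · rw [h2] at h1; omega

theorem F3_exit_lf {b ρ : ℕ} {G : Set Edg} (hG : G ⊆ ↑(boxE b)) {v p : Vtx} {y0 : ℤ}
    (hv : v.1 = b) (hv2 : y0 - ρ ≤ v.2 ∧ v.2 ≤ y0 + ρ) (h : Reach G v p)
    (hp : p.2 ≤ y0 - ρ ∨ y0 + ρ ≤ p.2) :
    ∃ r ∈ rimE Dir.lf b y0 ρ, Reach (G ∩ ↑(hbE Dir.lf b y0 ρ)) v r := by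
  obtain ⟨r, hr1, hr2, hr3⟩ := first_exit (a := (b:ℤ) - ρ) (b := (b:ℤ) + 1) (c := y0 - ρ)
    (d := y0 + ρ) (u := v) (v := p) (G := G) (by unfold inR; omega) h (by omega)
  have hst := F3_stay hG (v := v) (p := r) (by omega) (hr3.mono Set.inter_subset_left)
  refine ⟨r, ?_, ?_⟩
  · show inR ((b:ℤ) - ρ) b (y0 - ρ) (y0 + ρ) r ∧ _
    unfold inR at hr1 ⊢
    omega
  · refine hr3.mono ?_
    rintro g ⟨h1, h2⟩
    refine ⟨h1, ?_⟩
    have h3 := hG h1
    rw [Finset.mem_coe] at h2 h3 ⊢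
    show g ∈ RE ((b:ℤ) - ρ) b (y0 - ρ) (y0 + ρ)
    obtain ⟨x, y, _ | _⟩ := g
    · simp only [boxE, mem_RE_false] at h2 h3 ⊢; omega
    · simp only [boxE, mem_RE_true] at h2 h3 ⊢; omega

theorem F3_exit_rt {b ρ : ℕ} {G : Set Edg} (hG : G ⊆ ↑(boxE b)) {v p : Vtx} {y0 : ℤ}
    (hv : v.1 = -(b:ℤ)) (hv2 : y0 - ρ ≤ v.2 ∧ v.2 ≤ y0 + ρ) (h : Reach G v p)
    (hp : p.2 ≤ y0 - ρ ∨ y0 + ρ ≤ p.2) :
    ∃ r ∈ rimE Dir.rt (-(b:ℤ)) y0 ρ, Reach (G ∩ ↑(hbE Dir.rt (-(b:ℤ)) y0 ρ)) v r := by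
  obtain ⟨r, hr1, hr2, hr3⟩ := first_exit (a := -(b:ℤ) - 1) (b := -(b:ℤ) + ρ) (c := y0 - ρ)
    (d := y0 + ρ) (u := v) (v := p) (G := G) (by unfold inR; omega) h (by omega)
  have hst := F3_stay hG (v := v) (p := r) (by omega) (hr3.mono Set.inter_subset_left)
  refine ⟨r, ?_, ?_⟩
  · show inR (-(b:ℤ)) (-(b:ℤ) + ρ) (y0 - ρ) (y0 + ρ) r ∧ _
    unfold inR at hr1 ⊢
    omega
  · refine hr3.mono ?_
    rintro g ⟨h1, h2⟩
    refine ⟨h1, ?_⟩
    have h3 := hG h1
    rw [Finset.mem_coe] at h2 h3 ⊢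
    show g ∈ RE (-(b:ℤ)) (-(b:ℤ) + ρ) (y0 - ρ) (y0 + ρ)
    obtain ⟨x, y, _ | _⟩ := g
    · simp only [boxE, mem_RE_false] at h2 h3 ⊢; omega
    · simp only [boxE, mem_RE_true] at h2 h3 ⊢; omega

theorem fail3_det {b w N ρ l : ℕ} (hl : 1 ≤ l) (h1 : 32 * l ≤ ρ) (h2 : 32 * ρ ≤ w)
    (hwb : 4 * w ≤ b) (hbN : 2 * b ≤ N) {e : Edg} (he : e ∈ boxE (b / 2)) {F : Finset Edg}
    (hF : F ⊆ boxE N) (hY : Y2 b w N e (↑F : Set Edg)) (hB : ¬ Bad3 b w ρ l F) :
    NFar src tgt (botV N) (topV N) e (↑(XH b w N \ boxE b) : Set Edg) (Nr (4 * l))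
      ((↑(F ∩ boxE b) : Set Edg) ∪ ↑(boxE N \ XH b w N)) ∧
    ∀ g ∈ boxE N \ XH b w N, src g ∈ Cl src tgt (botV N) (((↑(F ∩ boxE b) : Set Edg) ∪
        ↑(boxE N \ XH b w N)) \ {e}) ∨ src g ∈ Cl src tgt (topV N)
        (((↑(F ∩ boxE b) : Set Edg) ∪ ↑(boxE N \ XH b w N)) \ {e}) := by
  have heb : e ∈ boxE b := boxE_mono (by omega) he
  have hee := ends_RE he
  have hno : ¬ Cn (botV N) (topV N)
      (((↑(F ∩ boxE b) : Set Edg) ∪ ↑(boxE N \ XH b w N)) \ {e}) := by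
    have := hY.2
    rwa [← Finset.coe_inter] at this
  have hsub : (↑(boxE N \ XH b w N) : Set Edg) ⊆
      ((↑(F ∩ boxE b) : Set Edg) ∪ ↑(boxE N \ XH b w N)) \ {e} := by
    intro g hg
    refine ⟨Or.inr hg, ?_⟩
    rintro rfl
    rw [Finset.mem_coe, F3_mem] at hg
    exact hg.2.1 heb
  have hsb : ((↑(F ∩ boxE b) : Set Edg) \ {e}) ⊆ ↑(boxE b) := by
    rintro g ⟨hg, -⟩
    rw [Finset.mem_coe, Finset.mem_inter] at hg
    exact hg.2
  have hsb2 : ((↑(F ∩ boxE b) : Set Edg) \ {e}) ⊆ (↑(F ∩ boxE b) : Set Edg) :=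
    Set.sdiff_subset
  have hsb3 : ((↑(F ∩ boxE b) : Set Edg) \ {e}) ⊆ (↑F : Set Edg) := by
    rintro g ⟨hg, -⟩
    rw [Finset.mem_coe, Finset.mem_inter] at hg
    exact hg.1
  constructor
  · intro v hv v' hv' hvD hvD' hnear
    obtain ⟨p, hp1, hp2⟩ := F3_bot (by omega) heb hno hv
    obtain ⟨p', hp1', hp2'⟩ := F3_top (by omega) heb hno hv'
    have hD := F3_VD (by omega) hvD
    have hD' := F3_VD (by omega) hvD'
    obtain ⟨hn1, hn2⟩ := hnear
    rw [abs_le] at hn1 hn2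
    -- connection between the two clusters is impossible
    have hcon : ¬ Reach (((↑(F ∩ boxE b) : Set Edg) ∪ ↑(boxE N \ XH b w N)) \ {e}) v v' := by
      intro hr
      obtain ⟨u, hu, huv⟩ := hv
      obtain ⟨u', hu', huv'⟩ := hv'
      exact hno ⟨u, hu, u', hu', (Reach.trans huv hr).trans (Reach.symm huv')⟩
    -- corner at the top
    have hcT : (v.1 = b ∨ v.1 = -(b:ℤ)) → (w:ℤ) - 4 * ρ ≤ v.2 → False := by
      intro hx hy
      apply hB
      left
      refine ⟨(v.1, (w:ℤ)), hx, Or.inl rfl, v, p, ?_, ?_, hp1.mono hsb2⟩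
      · unfold inR; simp only; push_cast; omega
      · right; right; left; simp only; push_cast; omega
    have hcB : (v'.1 = b ∨ v'.1 = -(b:ℤ)) → v'.2 ≤ -(w:ℤ) + 4 * ρ → False := by
      intro hx hy
      apply hB
      left
      refine ⟨(v'.1, -(w:ℤ)), hx, Or.inr rfl, v', p', ?_, ?_, hp1'.mono hsb2⟩
      · unfold inR; simp only; push_cast; omega
      · right; right; right; simp only; push_cast; omega
    by_cases hvx : (b:ℤ) < v.1 ∨ v.1 < -(b:ℤ)
    · have hpv : p = v := F3_iso hsb hvx hp1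
      subst hpv
      by_cases hvx' : (b:ℤ) < v'.1 ∨ v'.1 < -(b:ℤ)
      · have hpv' : p' = v' := F3_iso hsb hvx' hp1'
        subst hpv'
        omega
      · exact hcB (by omega) (by omega)
    · by_cases hvx' : (b:ℤ) < v'.1 ∨ v'.1 < -(b:ℤ)
      · have hpv' : p' = v' := F3_iso hsb hvx' hp1'
        subst hpv'
        exact hcT (by omega) (by omega)
      · have hsame : v'.1 = v.1 := by omega
        by_cases hc1 : (w:ℤ) - 2 * ρ ≤ v.2
        · exact hcT (by omega) (by omega)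
        · by_cases hc2 : v.2 ≤ -(w:ℤ) + 2 * ρ
          · exact hcB (by omega) (by omega)
          · -- half ball
            have hlpos : (0:ℤ) < l := by omega
            set i : ℤ := v.2 / (l:ℤ) with hi
            have hi1 : (l:ℤ) * i ≤ v.2 := Int.mul_ediv_self_le (by omega)
            have hi2 : v.2 < (l:ℤ) * i + l := by
              have := Int.lt_mul_ediv_self_add (x := v.2) hlpos
              exact this
            apply hB
            right
            refine ⟨i, ?_, ?_⟩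
            · have : |(l:ℤ) * i| ≤ w - ρ := by rw [abs_le]; omega
              omega
            · generalize (l:ℤ) * i = y0 at hi1 hi2
              by_cases hvb : v.1 = b
              · left
                refine ⟨v, ?_, v', ?_, ?_, ?_, ?_⟩
                · show v.1 = b ∧ y0 - (8 * l : ℕ) ≤ v.2 ∧ v.2 ≤ y0 + (8 * l : ℕ)
                  push_cast; omega
                · show v'.1 = b ∧ y0 - (8 * l : ℕ) ≤ v'.2 ∧ v'.2 ≤ y0 + (8 * l : ℕ)
                  push_cast; omega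
                · obtain ⟨r, hr1, hr2⟩ := F3_exit_lf hsb hvb (y0 := y0) (ρ := ρ) (by omega) hp1
                    (by omega)
                  exact ⟨r, hr1, hr2.mono (Set.inter_subset_inter_left _ hsb3)⟩
                · obtain ⟨r, hr1, hr2⟩ := F3_exit_lf hsb (hsame.trans hvb) (y0 := y0) (ρ := ρ)
                    (by omega) hp1' (by omega)
                  exact ⟨r, hr1, hr2.mono (Set.inter_subset_inter_left _ hsb3)⟩
                · intro hr
                  apply hcon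
                  refine hr.mono ?_
                  rintro g ⟨hg1, hg2⟩
                  have hgb : g ∈ RE ((b:ℤ) - ρ) b (y0 - ρ) (y0 + ρ) := hg2
                  have hge := ends_RE hgb
                  refine ⟨Or.inl ?_, ?_⟩
                  · rw [Finset.mem_coe, Finset.mem_inter]
                    refine ⟨hg1, ?_⟩
                    unfold boxE
                    exact RE_subset (by omega) (by omega) (by omega) (by omega) hgb
                  · rintro rfl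
                    unfold inR at hge hee
                    omega
              · right
                have hvb' : v.1 = -(b:ℤ) := by omega
                refine ⟨v, ?_, v', ?_, ?_, ?_, ?_⟩
                · show v.1 = -(b:ℤ) ∧ y0 - (8 * l : ℕ) ≤ v.2 ∧ v.2 ≤ y0 + (8 * l : ℕ)
                  push_cast; omega
                · show v'.1 = -(b:ℤ) ∧ y0 - (8 * l : ℕ) ≤ v'.2 ∧ v'.2 ≤ y0 + (8 * l : ℕ)
                  push_cast; omega
                · obtain ⟨r, hr1, hr2⟩ := F3_exit_rt hsb hvb' (y0 := y0) (ρ := ρ) (by omega) hp1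
                    (by omega)
                  exact ⟨r, hr1, hr2.mono (Set.inter_subset_inter_left _ hsb3)⟩
                · obtain ⟨r, hr1, hr2⟩ := F3_exit_rt hsb (hsame.trans hvb') (y0 := y0) (ρ := ρ)
                    (by omega) hp1' (by omega)
                  exact ⟨r, hr1, hr2.mono (Set.inter_subset_inter_left _ hsb3)⟩
                · intro hr
                  apply hcon
                  refine hr.mono ?_
                  rintro g ⟨hg1, hg2⟩
                  have hgb : g ∈ RE (-(b:ℤ)) (-(b:ℤ) + ρ) (y0 - ρ) (y0 + ρ) := hg2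
                  have hge := ends_RE hgb
                  refine ⟨Or.inl ?_, ?_⟩
                  · rw [Finset.mem_coe, Finset.mem_inter]
                    refine ⟨hg1, ?_⟩
                    unfold boxE
                    exact RE_subset (by omega) (by omega) (by omega) (by omega) hgb
                  · rintro rfl
                    unfold inR at hge hee
                    omega
  · intro g hg
    rcases F3_out hg with ⟨_, _, t, ht, hr⟩ | ⟨_, _, t, ht, hr⟩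
    · right
      exact ⟨t, ht, (hr.mono hsub).symm⟩
    · left
      exact ⟨t, ht, (hr.mono hsub).symm⟩

end H12S
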