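import Pool.Agent.H12R2.Sep.Defs2

/-! # Task B2: sum over the blocks of a grid, with forced open edges -/

namespace H12S

open H974 Finset

theorem GR_inter {O : Set Edg} {c : ℤ × ℤ} {R : ℕ} (hO : Disjoint O ↑(blk c R))
    (F : Set Edg) : (F ∪ O) ∩ ↑(blk c R) = F ∩ ↑(blk c R) := by
  rw [Set.union_inter_distrib_right, hO.inter_eq, Set.union_empty]

theorem GR_far_reach {O : Set Edg} {c : ℤ × ℤ} {m : ℕ} (hO : Disjoint O ↑(blk c (3 * m)))
    {F : Set Edg} {x y : Vtx} (hx : inR (c.1 - m) (c.1 + m) (c.2 - m) (c.2 + m) x)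
    (hy : BSfar c (3 * m) y) (hxy : Reach (F ∪ O) x y) :
    ∃ w : Vtx, BSfar c (3 * m) w ∧ Reach (F ∩ ↑(blk c (3 * m))) x w := by
  obtain ⟨w, k1, k2, k3⟩ := first_exit (a := c.1 - (3 * m : ℕ)) (b := c.1 + (3 * m : ℕ))
    (c := c.2 - (3 * m : ℕ)) (d := c.2 + (3 * m : ℕ)) (u := x)
    (by unfold inR at hx ⊢; push_cast; omega) hxy hy
  refine ⟨w, by unfold BSfar; omega, ?_⟩
  have e := GR_inter hO F
  unfold blk at e ⊢
  rw [e] at k3
  exact k3

/-- On the circuit event the edges of the block do not matter (adding). -/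
theorem GR_cnU {I J : Set Vtx} {O : Set Edg} {c : ℤ × ℤ} {m : ℕ} (hm : 1 ≤ m)
    (hIJ : ∀ v ∈ I ∪ J, BSfar c (3 * m) v) (hO : Disjoint O ↑(blk c (3 * m))) {F : Finset Edg}
    (hU : BSU c m F) (h : Cn I J (((↑F : Set Edg) ∪ O) ∪ ↑(blk c m))) :
    Cn I J ((↑F : Set Edg) ∪ O) := by
  obtain ⟨z, hz⟩ := BSU_meet hm hU
  obtain ⟨u, hu, v, hv, huv⟩ := h
  have hz' : ∀ x y : Vtx, inR (c.1 - m) (c.1 + m) (c.2 - m) (c.2 + m) x →
      BSfar c (3 * m) y → Reach ((↑F : Set Edg) ∪ O) x y → Reach ((↑F : Set Edg) ∪ O) x z := by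
    intro x y hx hy hxy
    obtain ⟨w, hw, hxw⟩ := GR_far_reach hO hx hy hxy
    exact (hz x w hx hw (hxw.mono Set.inter_subset_left)).mono Set.subset_union_left
  have key : ∀ a w : Vtx, Reach (((↑F : Set Edg) ∪ O) ∪ ↑(blk c m)) a w →
      Reach ((↑F : Set Edg) ∪ O) a w ∨ ∃ x, inR (c.1 - m) (c.1 + m) (c.2 - m) (c.2 + m) x ∧
        Reach ((↑F : Set Edg) ∪ O) a x := by
    intro a w hw
    induction hw with
    | refl => exact Or.inl (Reach.refl _ _)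
    | @tail w w' _ hs ih =>
      rcases ih with ih | ih
      · obtain ⟨e, he, hc⟩ := hs
        rcases he with he | he
        · exact Or.inl (ih.trans (Adj.reach ⟨e, he, hc⟩))
        · right
          have hb := BS_adj_box (Finset.mem_coe.mp he)
          refine ⟨w, ?_, ih⟩
          rcases hc with ⟨h1, h2⟩ | ⟨h1, h2⟩
          · rw [← h1]; exact hb.1
          · rw [← h2]; exact hb.2
      · exact Or.inr ih
  rcases key u v huv with h1 | ⟨x, hx, h1⟩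
  · exact ⟨u, hu, v, hv, h1⟩
  · rcases key v u huv.symm with h2 | ⟨y, hy, h2⟩
    · exact ⟨u, hu, v, hv, h2.symm⟩
    · have g1 := hz' x u hx (hIJ u (Or.inl hu)) h1.symm
      have g2 := hz' y v hy (hIJ v (Or.inr hv)) h2.symm
      exact ⟨u, hu, v, hv, h1.trans (g1.trans (g2.symm.trans h2.symm))⟩

/-- On the blocking event the edges of the block do not matter (removing). -/
theorem GR_cnD {I J : Set Vtx} {O : Set Edg} {c : ℤ × ℤ} {m : ℕ}
    (hIJ : ∀ v ∈ I ∪ J, BSfar c (3 * m) v) (hO : Disjoint O ↑(blk c (3 * m))) {F : Finset Edg}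
    (hD : BSD c m F) (h : Cn I J ((↑F : Set Edg) ∪ O)) :
    Cn I J (((↑F : Set Edg) ∪ O) \ ↑(blk c m)) := by
  obtain ⟨u, hu, v, hv, huv⟩ := h
  refine ⟨u, hu, v, hv, ?_⟩
  clear hv
  induction huv with
  | refl => exact Reach.refl _ _
  | @tail w w' hw hs ih =>
    obtain ⟨e, he, hc⟩ := hs
    have hne : e ∉ blk c m := by
      intro hb
      have hb' := BS_adj_box hb
      have hwb : inR (c.1 - m) (c.1 + m) (c.2 - m) (c.2 + m) w := by
        rcases hc with ⟨h1, h2⟩ | ⟨h1, h2⟩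
        · rw [← h1]; exact hb'.1
        · rw [← h2]; exact hb'.2
      obtain ⟨w1, hw1, hr1⟩ := GR_far_reach hO hwb (hIJ u (Or.inl hu)) (Reach.symm hw)
      apply hD
      exact ⟨w, w1, hwb, hw1, hr1.mono Set.inter_subset_left⟩
    exact ih.trans (Adj.reach ⟨e, ⟨he, fun h => hne (Finset.mem_coe.mp h)⟩, hc⟩)

theorem GR_infl {q : ℝ} (h0 : 0 ≤ q) (h1 : q ≤ 1) {S : Finset Edg} {I J : Set Vtx} {O : Set Edg} {c : ℤ × ℤ}
    {m : ℕ} (hm : 1 ≤ m) (hU : 0 < PQ q S (BSU c m))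
    (hD : 0 < PQ q S (BSD c m)) (hIJ : ∀ v ∈ I ∪ J, BSfar c (3 * m) v)
    (hO : Disjoint O ↑(blk c (3 * m))) :
    PQ q S (fun F => BPv I J (blk c m) (↑F ∪ O)) ≤
      Ex (fun _ => q) S (fun F => ind (Cn I J ((↑F : Set Edg) ∪ O)) * BSV q S c m F) := by
  classical
  set b := blk c m with hb
  have a1 : PQ q S (fun F => BPv I J b (↑F ∪ O)) =
      PQ q S (fun F => Cn I J (((↑F : Set Edg) ∪ O) ∪ ↑b)) -
        PQ q S (fun F => Cn I J (((↑F : Set Edg) ∪ O) \ ↑b)) := by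
    unfold PQ Pr
    rw [← Ex_sub]
    apply Ex_congr
    intro F _
    by_cases k1 : Cn I J (((↑F : Set Edg) ∪ O) \ ↑b)
    · have k2 : Cn I J (((↑F : Set Edg) ∪ O) ∪ ↑b) :=
        BS_Cn_mono (fun e he => Or.inl he.1) k1
      rw [ind_of k1, ind_of k2, ind_not_of (fun h => h.2 k1)]
      ring
    · by_cases k2 : Cn I J (((↑F : Set Edg) ∪ O) ∪ ↑b)
      · rw [ind_not_of k1, ind_of k2, ind_of (show BPv I J b (↑F ∪ O) from ⟨k2, k1⟩)]
        ring
      · rw [ind_not_of k1, ind_not_of k2, ind_not_of (fun h => k2 h.1)]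
        ring
  have a2 : PQ q S (fun F => Cn I J (((↑F : Set Edg) ∪ O) ∪ ↑b)) ≤
      (PQ q S (BSU c m))⁻¹ * PQ q S (fun F => Cn I J ((↑F : Set Edg) ∪ O) ∧ BSU c m F) := by
    have g1 : PQ q S (fun F => Cn I J (((↑F : Set Edg) ∪ O) ∪ ↑b)) * PQ q S (BSU c m) ≤
        PQ q S (fun F => Cn I J ((↑F : Set Edg) ∪ O) ∧ BSU c m F) := by
      refine (Pr_harris (okq h0 h1) (A := fun F => Cn I J (((↑F : Set Edg) ∪ O) ∪ ↑b)) (B := BSU c m)
        ?_ ?_).trans ?_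
      · intro F G hFG _ hF
        exact BS_Cn_mono (Set.union_subset_union_left _ (Set.union_subset_union_left _
          (by exact_mod_cast hFG))) hF
      · intro F G hFG _ hF
        exact BSU_mono hFG hF
      · apply Pr_mono (okq h0 h1)
        rintro F _ ⟨k1, k2⟩
        exact ⟨GR_cnU hm hIJ hO k2 k1, k2⟩
    rw [inv_mul_eq_div, le_div_iff₀ hU]
    exact g1
  have a3 : (PQ q S (BSD c m))⁻¹ * PQ q S (fun F => Cn I J ((↑F : Set Edg) ∪ O) ∧ BSD c m F) ≤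
      PQ q S (fun F => Cn I J (((↑F : Set Edg) ∪ O) \ ↑b)) := by
    have g1 : PQ q S (fun F => Cn I J ((↑F : Set Edg) ∪ O) ∧ BSD c m F) ≤
        PQ q S (fun F => Cn I J (((↑F : Set Edg) ∪ O) \ ↑b)) * PQ q S (BSD c m) := by
      refine le_trans ?_ (Pr_harris_decr (okq h0 h1)
        (A := fun F => Cn I J (((↑F : Set Edg) ∪ O) \ ↑b)) (B := BSD c m) ?_ ?_)
      · apply Pr_mono (okq h0 h1)
        rintro F _ ⟨k1, k2⟩
        exact ⟨GR_cnD hIJ hO k2 k1, k2⟩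
      · intro F G hFG _ hF
        exact BS_Cn_mono (Set.sdiff_subset_sdiff_left (Set.union_subset_union_left _
          (by exact_mod_cast hFG))) hF
      · intro F G hFG _ hF
        unfold BSD at hF ⊢
        rw [not_not] at hF ⊢
        exact BS_crs_mono (by exact_mod_cast hFG) hF
    rw [inv_mul_eq_div, div_le_iff₀ hD]
    exact g1
  have a4 : Ex (fun _ => q) S (fun F => ind (Cn I J ((↑F : Set Edg) ∪ O)) * BSV q S c m F) =
      (PQ q S (BSU c m))⁻¹ * PQ q S (fun F => Cn I J ((↑F : Set Edg) ∪ O) ∧ BSU c m F) -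
      (PQ q S (BSD c m))⁻¹ * PQ q S (fun F => Cn I J ((↑F : Set Edg) ∪ O) ∧ BSD c m F) := by
    unfold PQ Pr
    rw [← Ex_mul_left, ← Ex_mul_left, ← Ex_sub]
    apply Ex_congr
    intro F _
    rw [ind_and, ind_and]
    unfold BSV PQ Pr
    ring
  rw [a1, a4]
  linarith

theorem GR_sum {q κ : ℝ} (h0 : 0 ≤ q) (h1 : q ≤ 1) (hκ : 0 < κ) (hκ2 : κ ≤ 1 / 2) {S : Finset Edg}
    {I J : Set Vtx} {O : Set Edg} {T : Finset (ℤ × ℤ)} {ρ : ℤ × ℤ → ℕ} (hρ : ∀ c ∈ T, 1 ≤ ρ c)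
    (hS : ∀ c ∈ T, blk c (3 * ρ c) ⊆ S)
    (hd : ∀ c ∈ T, ∀ c' ∈ T, c ≠ c' → Disjoint (blk c (3 * ρ c)) (blk c' (3 * ρ c')))
    (hIJ : ∀ c ∈ T, ∀ v ∈ I ∪ J, BSfar c (3 * ρ c) v)
    (hO : ∀ c ∈ T, Disjoint O ↑(blk c (3 * ρ c)))
    (hU : ∀ c ∈ T, κ ^ 4 ≤ PQ q S (BSU c (ρ c))) (hD : ∀ c ∈ T, κ ^ 4 ≤ PQ q S (BSD c (ρ c))) :
    ∑ c ∈ T, PQ q S (fun F => BPv I J (blk c (ρ c)) (↑F ∪ O)) ≤ 2 * κ⁻¹ ^ 4 * Real.sqrt T.card := by
  have hk4 : 0 < κ ^ 4 := by positivity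
  have hU' : ∀ c ∈ T, 0 < PQ q S (BSU c (ρ c)) := fun c hc => hk4.trans_le (hU c hc)
  have hD' : ∀ c ∈ T, 0 < PQ q S (BSD c (ρ c)) := fun c hc => hk4.trans_le (hD c hc)
  set f : Finset Edg → ℝ := fun F => ind (Cn I J ((↑F : Set Edg) ∪ O)) with hf
  set g : Finset Edg → ℝ := fun F => ∑ c ∈ T, BSV q S c (ρ c) F with hg
  have b1 : ∑ c ∈ T, PQ q S (fun F => BPv I J (blk c (ρ c)) (↑F ∪ O)) ≤
      Ex (fun _ => q) S (fun F => f F * g F) := by
    have e1 : Ex (fun _ => q) S (fun F => f F * g F) =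
        ∑ c ∈ T, Ex (fun _ => q) S (fun F => f F * BSV q S c (ρ c) F) := by
      rw [← Ex_sum]
      apply Ex_congr
      intro F _
      rw [hg, Finset.mul_sum]
    rw [e1]
    apply Finset.sum_le_sum
    intro c hc
    exact GR_infl h0 h1 (hρ c hc) (hU' c hc) (hD' c hc) (hIJ c hc) (hO c hc)
  have b2 : Ex (fun _ => q) S (fun F => (f F) ^ 2) ≤ 1 := by
    apply Ex_le_of_le (okq h0 h1)
    intro F _
    have p1 := ind_nonneg (Cn I J ((↑F : Set Edg) ∪ O))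
    have p2 := ind_le_one (Cn I J ((↑F : Set Edg) ∪ O))
    exact pow_le_one₀ p1 p2
  have b3 : Ex (fun _ => q) S (fun F => (g F) ^ 2) =
      ∑ c ∈ T, Ex (fun _ => q) S (fun F => BSV q S c (ρ c) F * BSV q S c (ρ c) F) := by
    have e1 : Ex (fun _ => q) S (fun F => (g F) ^ 2) =
        ∑ c ∈ T, ∑ c' ∈ T, Ex (fun _ => q) S (fun F => BSV q S c (ρ c) F * BSV q S c' (ρ c') F) := by
      have e2 : ∀ F : Finset Edg, F ⊆ S → (g F) ^ 2 =
          ∑ c ∈ T, ∑ c' ∈ T, BSV q S c (ρ c) F * BSV q S c' (ρ c') F := by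
        intro F _
        rw [hg, sq, Finset.sum_mul_sum]
      rw [Ex_congr e2, Ex_sum]
      apply Finset.sum_congr rfl
      intro c _
      rw [Ex_sum]
    rw [e1]
    apply Finset.sum_congr rfl
    intro c hc
    rw [Finset.sum_eq_single c]
    · intro c' hc' hne
      rw [Ex_mul_indep (hS c hc) (hS c' hc') (hd c hc c' hc' (Ne.symm hne))
        (fun F _ => BSV_local q S c (ρ c) F) (fun F _ => BSV_local q S c' (ρ c') F),
        BSV_mean (hU' c hc) (hD' c hc), zero_mul]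
    · intro h; exact absurd hc h
  have b4 : Ex (fun _ => q) S (fun F => (g F) ^ 2) ≤ T.card * (2 * κ⁻¹ ^ 4) := by
    rw [b3]
    have : ∀ c ∈ T, Ex (fun _ => q) S (fun F => BSV q S c (ρ c) F * BSV q S c (ρ c) F) ≤
        2 * κ⁻¹ ^ 4 := by
      intro c hc
      refine (BSV_sq h0 h1 (hU' c hc) (hD' c hc)).trans ?_
      have i1 : (PQ q S (BSU c (ρ c)))⁻¹ ≤ κ⁻¹ ^ 4 := by
        rw [inv_pow]; exact inv_anti₀ hk4 (hU c hc)
      have i2 : (PQ q S (BSD c (ρ c)))⁻¹ ≤ κ⁻¹ ^ 4 := by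
        rw [inv_pow]; exact inv_anti₀ hk4 (hD c hc)
      linarith
    refine (Finset.sum_le_sum this).trans ?_
    rw [Finset.sum_const, nsmul_eq_mul]
  have b5 := Ex_cs (okq h0 h1) S f g
  have hg0 : 0 ≤ Ex (fun _ => q) S (fun F => (g F) ^ 2) :=
    Ex_nonneg (okq h0 h1) (fun F _ => sq_nonneg _)
  have b6 : (Ex (fun _ => q) S (fun F => f F * g F)) ^ 2 ≤ T.card * (2 * κ⁻¹ ^ 4) := by
    refine b5.trans ?_
    calc Ex (fun _ => q) S (fun F => (f F) ^ 2) * Ex (fun _ => q) S (fun F => (g F) ^ 2)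
        ≤ 1 * Ex (fun _ => q) S (fun F => (g F) ^ 2) := mul_le_mul_of_nonneg_right b2 hg0
      _ ≤ _ := by rw [one_mul]; exact b4
  refine b1.trans ?_
  have hinv : 1 ≤ κ⁻¹ ^ 4 := by
    apply one_le_pow₀
    rw [one_le_inv₀ hκ]
    linarith
  have hT0 : (0:ℝ) ≤ T.card := Nat.cast_nonneg _
  apply le_trans (le_abs_self _)
  apply abs_le_of_sq_le_sq _ (by positivity)
  rw [mul_pow, Real.sq_sqrt hT0]
  refine b6.trans ?_
  nlinarith [mul_nonneg hT0 (show 0 ≤ κ⁻¹ ^ 4 by positivity)]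

/-- The sum over disjoint blocks, with forced open edges. -/
theorem GR_blk_sum {q κ : ℝ} {n : ℕ} (h : Win q κ n) {S : Finset Edg} {I J : Set Vtx}
    {O : Set Edg} {T : Finset (ℤ × ℤ)} {ρ : ℤ × ℤ → ℕ} (hρ : ∀ c ∈ T, 1 ≤ ρ c ∧ 2 * ρ c ≤ n)
    (hS : ∀ c ∈ T, blk c (3 * ρ c) ⊆ S)
    (hd : ∀ c ∈ T, ∀ c' ∈ T, c ≠ c' → Disjoint (blk c (3 * ρ c)) (blk c' (3 * ρ c')))
    (hIJ : ∀ c ∈ T, ∀ v ∈ I ∪ J, ¬ (|v.1 - c.1| < 3 * ρ c ∧ |v.2 - c.2| < 3 * ρ c))
    (hO : ∀ c ∈ T, Disjoint O ↑(blk c (3 * ρ c))) :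
    ∑ c ∈ T, PQ q S (fun F => BPv I J (blk c (ρ c)) (↑F ∪ O)) ≤
      2 * κ⁻¹ ^ 4 * Real.sqrt T.card := by
  apply GR_sum (by linarith [h.lo]) (by linarith [h.hi]) h.kpos h.kle (fun c hc => (hρ c hc).1) hS hd
  · intro c hc v hv
    have := hIJ c hc v hv
    rw [not_and_or, abs_lt, abs_lt] at this
    unfold BSfar
    push_cast
    omega
  · exact hO
  · intro c hc
    refine (win_circ h (hρ c hc).1 (hρ c hc).2 c.1 c.2 S ?_).1
    have := hS c hc
    unfold blk at this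
    push_cast at this
    exact this
  · intro c hc
    exact (win_blk h (hρ c hc).1 (hρ c hc).2 c.1 c.2 S).1

theorem GR_blk_disj {c c' : ℤ × ℤ} {R : ℕ} (h : c.1 + 2 * R < c'.1 ∨ c'.1 + 2 * R < c.1 ∨
    c.2 + 2 * R < c'.2 ∨ c'.2 + 2 * R < c.2) : Disjoint (blk c R) (blk c' R) := by
  rw [Finset.disjoint_left]
  intro e he he'
  have h1 := (BS_adj_box he).1
  have h2 := (BS_adj_box he').1
  unfold inR at h1 h2
  omega

/-- All blocks have radius `t·s`, and centres in the grid `s·ℤ²`. -/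
theorem grid_sum (κ : ℝ) (hκ : 0 < κ) (t : ℕ) (ht : 1 ≤ t) : ∃ C : ℝ, 0 < C ∧ ∀ (q : ℝ) (n : ℕ),
    Win q κ n → ∀ (S : Finset Edg) (I J : Set Vtx) (O : Set Edg) (s : ℕ) (T : Finset (ℤ × ℤ)),
      1 ≤ s → 2 * t * s ≤ n → (∀ k ∈ T, blk (s * k.1, s * k.2) (3 * (t * s)) ⊆ S) →
      (∀ k ∈ T, Disjoint O ↑(blk (s * k.1, s * k.2) (3 * (t * s)))) →
      (∀ k ∈ T, ∀ v ∈ I ∪ J,
        ¬ (|v.1 - s * k.1| < (3 * (t * s) : ℕ) ∧ |v.2 - s * k.2| < (3 * (t * s) : ℕ))) →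
      ∑ k ∈ T, PQ q S (fun F => BPv I J (blk (s * k.1, s * k.2) (t * s)) (↑F ∪ O)) ≤
        C * Real.sqrt T.card := by
  classical
  refine ⟨((6 * t + 1 : ℕ) : ℝ) ^ 2 * (2 * κ⁻¹ ^ 4), by positivity, ?_⟩
  intro q n hW S I J O s T hs hn hS hO hIJ
  set M : ℕ := 6 * t + 1 with hM
  have hM0 : 0 < M := by omega
  set cls : ℤ × ℤ → ℕ × ℕ := fun k => ((k.1 % M).toNat, (k.2 % M).toNat) with hcls
  have hmaps : ∀ k ∈ T, cls k ∈ range M ×ˢ range M := by
    intro k _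
    rw [mem_product, mem_range, mem_range]
    have h1 := Int.emod_lt_of_pos k.1 (show (0 : ℤ) < M by omega)
    have h2 := Int.emod_lt_of_pos k.2 (show (0 : ℤ) < M by omega)
    have h3 := Int.emod_nonneg k.1 (show (M : ℤ) ≠ 0 by omega)
    have h4 := Int.emod_nonneg k.2 (show (M : ℤ) ≠ 0 by omega)
    simp only [hcls]
    omega
  rw [← sum_fiberwise_of_maps_to hmaps]
  have hone : ∀ ab ∈ range M ×ˢ range M, ∑ k ∈ T.filter (fun k => cls k = ab),
      PQ q S (fun F => BPv I J (blk (s * k.1, s * k.2) (t * s)) (↑F ∪ O)) ≤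
        2 * κ⁻¹ ^ 4 * Real.sqrt T.card := by
    intro ab _
    set Tc := T.filter (fun k => cls k = ab) with hTc
    have hinj : ∀ k ∈ Tc, ∀ k' ∈ Tc, (((s : ℤ) * k.1, (s : ℤ) * k.2) : ℤ × ℤ) =
        ((s : ℤ) * k'.1, (s : ℤ) * k'.2) → k = k' := by
      intro k _ k' _ h
      rw [Prod.mk.injEq] at h
      have hs0 : (s : ℤ) ≠ 0 := by omega
      exact Prod.ext (mul_left_cancel₀ hs0 h.1) (mul_left_cancel₀ hs0 h.2)
    set T' : Finset (ℤ × ℤ) := Tc.image (fun k => (((s : ℤ) * k.1, (s : ℤ) * k.2) : ℤ × ℤ)) with hT'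
    have hTcT : ∀ k ∈ Tc, k ∈ T := fun k hk => (mem_filter.1 hk).1
    have h1 : ∑ c ∈ T', PQ q S (fun F => BPv I J (blk c (t * s)) (↑F ∪ O)) =
        ∑ k ∈ Tc, PQ q S (fun F => BPv I J (blk (s * k.1, s * k.2) (t * s)) (↑F ∪ O)) := by
      rw [hT', sum_image (fun k hk k' hk' h => hinj k hk k' hk' h)]
    rw [← h1]
    have h2 : (T'.card : ℝ) ≤ T.card := by
      have h3 : T'.card ≤ Tc.card := card_image_le
      have h4 : Tc.card ≤ T.card := card_filter_le _ _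
      exact_mod_cast h3.trans h4
    refine (GR_blk_sum hW (ρ := fun _ => t * s) ?_ ?_ ?_ ?_ ?_).trans ?_
    · intro c _
      have : 1 ≤ t * s := Nat.mul_pos ht hs
      refine ⟨this, ?_⟩
      rw [← mul_assoc]; exact hn
    · intro c hc
      rw [hT', mem_image] at hc
      obtain ⟨k, hk, rfl⟩ := hc
      exact hS k (hTcT k hk)
    · intro c hc c' hc' hne
      rw [hT', mem_image] at hc hc'
      obtain ⟨k, hk, rfl⟩ := hc
      obtain ⟨k', hk', rfl⟩ := hc'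
      have hkk : k ≠ k' := fun h => hne (by rw [h])
      have hc1 : cls k = cls k' := by
        rw [(mem_filter.1 hk).2, (mem_filter.1 hk').2]
      apply GR_blk_disj
      simp only
      have hM0' : (0 : ℤ) < M := by omega
      have e1 : k.1 % M = k'.1 % M := by
        have h3 := congrArg Prod.fst hc1
        simp only [hcls] at h3
        have h4 := Int.emod_nonneg k.1 hM0'.ne'
        have h5 := Int.emod_nonneg k'.1 hM0'.ne'
        omega
      have e2 : k.2 % M = k'.2 % M := by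
        have h3 := congrArg Prod.snd hc1
        simp only [hcls] at h3
        have h4 := Int.emod_nonneg k.2 hM0'.ne'
        have h5 := Int.emod_nonneg k'.2 hM0'.ne'
        omega
      have hgap : ∀ a b : ℤ, a % M = b % M → a ≠ b → a + M ≤ b ∨ b + M ≤ a := by
        intro a b h hab
        have h3 : (M : ℤ) ∣ a - b := Int.ModEq.dvd (show b ≡ a [ZMOD M] from h.symm)
        obtain ⟨x, hx⟩ := h3
        have hx0 : x ≠ 0 := by
          rintro rfl
          apply hab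
          linarith
        rcases lt_or_gt_of_ne hx0 with h4 | h4
        · left; nlinarith
        · right; nlinarith
      have hs0 : (0 : ℤ) < s := by omega
      have hMt : (M : ℤ) = 6 * t + 1 := by rw [hM]; push_cast; ring
      have hfin : ∀ a b : ℤ, a + M ≤ b → s * a + 2 * ((3 * (t * s) : ℕ) : ℤ) < s * b := by
        intro a b h
        have h3 : (s : ℤ) * (a + M) ≤ s * b := mul_le_mul_of_nonneg_left h hs0.le
        rw [hMt] at h3
        push_cast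
        nlinarith
      by_cases h3 : k.1 = k'.1
      · have h4 : k.2 ≠ k'.2 := fun h4 => hkk (Prod.ext h3 h4)
        rcases hgap _ _ e2 h4 with h5 | h5
        · exact Or.inr (Or.inr (Or.inl (hfin _ _ h5)))
        · exact Or.inr (Or.inr (Or.inr (hfin _ _ h5)))
      · rcases hgap _ _ e1 h3 with h5 | h5
        · exact Or.inl (hfin _ _ h5)
        · exact Or.inr (Or.inl (hfin _ _ h5))
    · intro c hc v hv
      rw [hT', mem_image] at hc
      obtain ⟨k, hk, rfl⟩ := hc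
      have := hIJ k (hTcT k hk) v hv
      push_cast at this ⊢
      exact this
    · intro c hc
      rw [hT', mem_image] at hc
      obtain ⟨k, hk, rfl⟩ := hc
      exact hO k (hTcT k hk)
    · apply mul_le_mul_of_nonneg_left _ (by positivity)
      exact Real.sqrt_le_sqrt h2
  refine (sum_le_sum hone).trans ?_
  rw [sum_const, card_product, card_range, nsmul_eq_mul]
  push_cast
  rw [sq]
  exact le_of_eq (by ring)

end H12S
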