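import Pool.Agent.H12R2.Sep.Defs2

/-! # Task HD: derivative of the crossing probabilities (helper409) -/

namespace H12S

open H974 Finset

/-- The statement of `total`. -/
def HD_Total : Prop := ∀ (κ : ℝ), 0 < κ → ∀ (K : ℕ), 1 ≤ K → ∃ C : ℝ, 0 < C ∧ ∀ (q : ℝ) (n : ℕ),
    Win q κ n → ∀ (A ε : ℝ), 1 ≤ A → 0 < ε → ε ≤ 1 / 8 → A4le q A ε n → ∀ (m ρ : ℕ), 1 ≤ m →
      m ≤ n → 1 ≤ ρ → m ≤ K * ρ → ∀ (a b c d : ℤ), b - a ≤ K * m → d - c ≤ m →
      ∀ (S : Finset Edg), S ⊆ RE a b c d → RE (a + 1) (b - 1) (c + 1) (d - 1) ⊆ S →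
      ∀ (I J : Set Vtx), (∀ v ∈ I ∪ J, ¬ (a < v.1 ∧ v.1 < b ∧ c < v.2 ∧ v.2 < d)) →
      ∀ (p : ℤ × ℤ) (O : Set Edg), O ⊆ ↑(blk p ρ) →
      ∑ e ∈ S \ blk p (2 * ρ), PQ q (S \ blk p ρ) (fun F => Pv I J e (↑F ∪ O)) ≤
        C * A * (m:ℝ) ^ (3/4 + ε)

/-- Vertical side of a rectangle. -/
def HD_side (x h : ℤ) : Set Vtx := {v | v.1 = x ∧ 0 ≤ v.2 ∧ v.2 ≤ h}

theorem HD_LRc_iff {w h : ℤ} {F : Finset Edg} (hF : F ⊆ LRE 0 w 0 h) :
    LRc 0 w 0 h F ↔ Cn (HD_side 0 h) (HD_side w h) (↑F : Set Edg) := by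
  have e : (↑F : Set Edg) ∩ ↑(LRE 0 w 0 h) = ↑F :=
    Set.inter_eq_left.mpr (by exact_mod_cast hF)
  unfold LRc
  rw [e]
  constructor
  · rintro ⟨y, y', h1, h2, h3⟩
    exact ⟨(0, y), ⟨rfl, h1.1, h1.2⟩, (w, y'), ⟨rfl, h2.1, h2.2⟩, h3⟩
  · rintro ⟨⟨x, y⟩, ⟨h0, h1, h2⟩, ⟨x', y'⟩, ⟨h0', h1', h2'⟩, h3⟩
    simp only at h0 h1 h2 h0' h1' h2'
    subst h0 h0'
    exact ⟨y, y', ⟨h1, h2⟩, ⟨h1', h2'⟩, h3⟩

theorem HD_pv (q : ℝ) (w h : ℤ) (e : Edg) (he : e ∈ LRE 0 w 0 h) :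
    Ex (fun _ => q) ((LRE 0 w 0 h).erase e)
      (fun F => ind (LRc 0 w 0 h (insert e F)) - ind (LRc 0 w 0 h F)) =
    PQ q (LRE 0 w 0 h) (fun F => Pv (HD_side 0 h) (HD_side w h) e ↑F) := by
  have hne : e ∉ (LRE 0 w 0 h).erase e := Finset.notMem_erase _ _
  have key : ∀ F, F ⊆ (LRE 0 w 0 h).erase e →
      ind (Pv (HD_side 0 h) (HD_side w h) e (↑F : Set Edg)) =
        ind (LRc 0 w 0 h (insert e F)) - ind (LRc 0 w 0 h F) ∧
      ind (Pv (HD_side 0 h) (HD_side w h) e (↑(insert e F) : Set Edg)) =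
        ind (LRc 0 w 0 h (insert e F)) - ind (LRc 0 w 0 h F) := by
    intro F hF
    have heF : e ∉ F := fun h => hne (hF h)
    have h1 : F ⊆ LRE 0 w 0 h := hF.trans (Finset.erase_subset _ _)
    have h2 : insert e F ⊆ LRE 0 w 0 h := Finset.insert_subset he h1
    have e1 : (↑F : Set Edg) \ {e} = ↑F := by
      ext x
      constructor
      · exact fun h => h.1
      · exact fun h => ⟨h, fun h' => heF (by rw [Set.mem_singleton_iff] at h'; rwa [← h'])⟩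
    have e2 : (↑(insert e F) : Set Edg) \ {e} = ↑F := by
      rw [Finset.coe_insert]
      ext x
      constructor
      · rintro ⟨h | h, h'⟩
        · exact absurd h h'
        · exact h
      · exact fun h => ⟨Or.inr h, fun h' => heF (by rw [Set.mem_singleton_iff] at h'; rwa [← h'])⟩
    have e3 : insert e (↑F : Set Edg) = ↑(insert e F) := by rw [Finset.coe_insert]
    have e4 : insert e (↑(insert e F) : Set Edg) = ↑(insert e F) := by
      rw [Finset.coe_insert, Set.insert_eq_of_mem (Set.mem_insert _ _)]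
    have h3 : (LRc 0 w 0 h (insert e F) ∧ ¬ LRc 0 w 0 h F) ↔
        (Cn (HD_side 0 h) (HD_side w h) (↑(insert e F) : Set Edg) ∧
          ¬ Cn (HD_side 0 h) (HD_side w h) (↑F : Set Edg)) := by
      rw [HD_LRc_iff h1, HD_LRc_iff h2]
    have h4 : ind (LRc 0 w 0 h (insert e F) ∧ ¬ LRc 0 w 0 h F) =
        ind (LRc 0 w 0 h (insert e F)) - ind (LRc 0 w 0 h F) := by
      by_cases a : LRc 0 w 0 h F
      · have b : LRc 0 w 0 h (insert e F) := a.mono (Finset.subset_insert _ _)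
        rw [ind_of a, ind_of b, ind_not_of (fun h => h.2 a)]
        ring
      · by_cases b : LRc 0 w 0 h (insert e F)
        · rw [ind_not_of a, ind_of b, ind_of ⟨b, a⟩]
          ring
        · rw [ind_not_of a, ind_not_of b, ind_not_of (fun h => b h.1)]
          ring
    rw [← h4]
    constructor
    · apply ind_congr
      rw [h3]
      unfold Pv
      rw [e1, e3]
    · apply ind_congr
      rw [h3]
      unfold Pv
      rw [e2, e4]
  unfold PQ Pr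
  conv_rhs => rw [← Finset.insert_erase he]
  rw [Ex_insert _ hne]
  have k1 : Ex (fun _ => q) ((LRE 0 w 0 h).erase e)
      (fun F => ind (Pv (HD_side 0 h) (HD_side w h) e (↑(insert e F) : Set Edg))) =
      Ex (fun _ => q) ((LRE 0 w 0 h).erase e)
      (fun F => ind (LRc 0 w 0 h (insert e F)) - ind (LRc 0 w 0 h F)) :=
    Ex_congr fun F hF => (key F hF).2
  have k2 : Ex (fun _ => q) ((LRE 0 w 0 h).erase e)
      (fun F => ind (Pv (HD_side 0 h) (HD_side w h) e (↑F : Set Edg))) =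
      Ex (fun _ => q) ((LRE 0 w 0 h).erase e)
      (fun F => ind (LRc 0 w 0 h (insert e F)) - ind (LRc 0 w 0 h F)) :=
    Ex_congr fun F hF => (key F hF).1
  rw [k1, k2]
  ring

theorem HD_blk_disj {h ρ : ℕ} (hh1 : 1 ≤ h) (hρ : ρ ≤ 2 * h) :
    LRE 0 (16 * (h:ℤ)) 0 h \ blk (20 * (h:ℤ), 0) ρ = LRE 0 (16 * (h:ℤ)) 0 h := by
  rw [Finset.sdiff_eq_self_iff_disjoint, Finset.disjoint_left]
  rintro ⟨x, y, _ | _⟩ h1 h2
  · unfold blk at h2
    rw [mem_LRE_false] at h1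
    rw [mem_RE_false] at h2
    simp only at h2
    omega
  · unfold blk at h2
    rw [mem_LRE_true] at h1
    rw [mem_RE_true] at h2
    simp only at h2
    omega

/-- Derivative of the crossing probabilities, from `total`. -/
theorem hh_deriv_of (tot : HD_Total) (κ : ℝ) (hκ : 0 < κ) : ∃ C : ℝ, 0 < C ∧ ∀ (q : ℝ) (n : ℕ),
    Win q κ n → ∀ (A ε : ℝ), 1 ≤ A → 0 < ε → ε ≤ 1 / 8 → A4le q A ε n → ∀ (h : ℕ), 1 ≤ h →
      h ≤ n → ∃ D : ℝ, HasDerivAt (fun q => hh q (16 * h) h) D q ∧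
        |D| ≤ C * A * (h:ℝ) ^ (3/4 + ε) := by
  obtain ⟨C, hC, H⟩ := tot κ hκ 16 (by norm_num)
  refine ⟨C, hC, fun q n hw A ε hA hε hε1 hA4 h hh1 hhn => ?_⟩
  have h0 : 0 ≤ q := by linarith [hw.lo]
  have h1 : q ≤ 1 := by linarith [hw.hi]
  have h2 := H q n hw A ε hA hε hε1 hA4 h h hh1 hhn hh1 (by omega) 0 (16 * (h:ℤ)) 0 h
    (by push_cast; omega) (by omega) (LRE 0 (16 * (h:ℤ)) 0 h) LRE_subset_RE (by
      rintro ⟨x, y, _ | _⟩ k
      · rw [mem_RE_false] at k; rw [mem_LRE_false]; omega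
      · rw [mem_RE_true] at k; rw [mem_LRE_true]; omega)
    (HD_side 0 h) (HD_side (16 * (h:ℤ)) h) (by
      rintro v (⟨k, -, -⟩ | ⟨k, -, -⟩) <;> omega) (20 * (h:ℤ), 0) ∅ (Set.empty_subset _)
  rw [HD_blk_disj hh1 le_rfl, HD_blk_disj hh1 (by omega)] at h2
  simp only [Set.union_empty] at h2
  have h3 := Ex_hasDerivAt (fun (q : ℝ) (_ : Edg) => q) (fun _ => 1) q (fun _ => hasDerivAt_id q)
    (LRE 0 (16 * (h:ℤ)) 0 h) (fun F => ind (LRc 0 (16 * (h:ℤ)) 0 h F))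
  simp only [one_mul] at h3
  refine ⟨_, h3, ?_⟩
  rw [Finset.sum_congr rfl fun e he => HD_pv q (16 * (h:ℤ)) h e he]
  rw [abs_of_nonneg (Finset.sum_nonneg fun e _ => Pr_nonneg (okq h0 h1) _ _)]
  exact h2

end H12S
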