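import Pool.Agent.H12R2.Sep.Trap
import Pool.Agent.H12R2.Sep.Win1

/-! Task TR, final form. -/

namespace H12S

open H974 Finset

theorem trap_prob {q κ : ℝ} {n : ℕ} (h : Win q κ n) {l N : ℕ} (hl : 1 ≤ l) (hln : 2 * l ≤ n)
    (c1 c2 : ℤ) (S : Finset Edg) :
    κ ^ (4 * (2 * N + 1) ^ 2) ≤ PQ q S (fun F => ∀ v w : Vtx,
        inR (c1 - N * l) (c1 + N * l) (c2 - N * l) (c2 + N * l) v → Reach (↑F : Set Edg) v w →
        |v.1 - w.1| ≤ 4 * l ∧ |v.2 - w.2| ≤ 4 * l) ∧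
    κ ^ (4 * (2 * N + 1) ^ 2) ≤ PQ q S (fun F => ∀ v w : Vtx,
        inR (c1 - N * l) (c1 + N * l) (c2 - N * l) (c2 + N * l) v →
        DReach (↑(S \ F) : Set Edg) v w →
        |v.1 - w.1| ≤ 4 * l ∧ |v.2 - w.2| ≤ 4 * l) :=
  trap_prob_of h hl c1 c2 S (fun a b => win_blk h hl hln a b S)

end H12S
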