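import Pool.Agent.H12R2.Sep.InD
import Pool.Agent.H12R2.Sep.TrapP

/-!
I1 (helper231): first step of the inward gluing, from its deterministic part.
-/

namespace H12S

open H974 Finset

/-- The statement of `in1_det`. -/
def In1Det : Prop := ∀ {L M1 M2 B P1 P2 r m s l : ℕ} {γ c0 : ℤ × ℤ}
    (_ : InD L M1 M2 B P1 P2 r m s γ c0) (_ : 1 ≤ l) (_ : 16 * l ≤ r)
    {S : Finset Edg} (_ : blk c0 (2 * s) ⊆ S) {I J : Set Vtx} (_ : FarS (I ∪ J) c0 (2 * s))
    {d d' : Dir} {k k' : ℤ} {σ σ' : Bool} {k1 k2 : ℤ} {Q1 Q3 : Finset (ℤ × ℤ)}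
    (_ : SepQ Q1 Q3)
    (_ : (CorX L M2 B γ d k σ k1 Q1 ∧ CorX L M2 B γ d' k' σ' k2 Q3) ∨
        (CorX L M2 B γ d k σ' k2 Q1 ∧ CorX L M2 B γ d' k' σ k1 Q3))
    {QV : Finset Edg} (_ : QV = QE r (Q1 ∪ Q3)) {e : Edg} (_ : e ∈ boxE (m / 4))
    {F : Finset Edg} (_ : F ⊆ S)
    (_ : ESev I J c0 s r (P1 * r) (P2 * r) d k d' k' ((↑F : Set Edg) \ ↑(boI c0 s)))
    (_ : Sev L m r (m / M1) σ (2 * r * k1) σ' (2 * r * k2) e (↑(F ∩ SR L m) : Set Edg)),
    Cn I J (insert e ((↑(F ∩ (((S \ boI c0 s) ∪ SR L m) \ QV)) : Set Edg) ∪ ↑QV)) ∧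
      ¬ Cn I J (((↑(F ∩ (((S \ boI c0 s) ∪ SR L m) \ QV)) : Set Edg) ∪ ↑QV) \ {e}) ∧
      NFar src tgt I J e (↑(boI c0 s \ (SR L m ∪ QV)) : Set Edg) (Nr (4 * l))
        ((↑(F ∩ (((S \ boI c0 s) ∪ SR L m) \ QV)) : Set Edg) ∪ ↑QV) ∧
      ∀ g ∈ QV, src g ∈ Cl src tgt I
          (((↑(F ∩ (((S \ boI c0 s) ∪ SR L m) \ QV)) : Set Edg) ∪ ↑QV) \ {e}) ∨
        src g ∈ Cl src tgt J
          (((↑(F ∩ (((S \ boI c0 s) ∪ SR L m) \ QV)) : Set Edg) ∪ ↑QV) \ {e})

theorem in1_mem_boI {c : ℤ × ℤ} {s : ℕ} {g : Edg} : g ∈ boI c s ↔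
    g ∈ blk c s ∧ Tch {v : Vtx | |v.1 - c.1| < s ∧ |v.2 - c.2| < s} g := by
  classical
  unfold boI
  rw [Finset.mem_filter]

/-- The thin box is inside the open block. -/
theorem in1_SR {L M1 M2 B P1 P2 r m s : ℕ} {γ c0 : ℤ × ℤ} (h : InD L M1 M2 B P1 P2 r m s γ c0) :
    SR L m ⊆ boI c0 s := by
  obtain ⟨hL, hM1, hM2, hP1, hP2, hB, hr, hm, hs, hc1, hc2, g1, g2⟩ := h
  have hr' : (1:ℤ) ≤ r := by exact_mod_cast hr
  have hms : (m:ℤ) = M2 * r := by rw [hm]; push_cast; ring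
  have hss : (s:ℤ) = B * r := by rw [hs]; push_cast; ring
  have e1 : |c0.1| + 4 * L * m + 4 * r ≤ s := by
    rw [hc1, abs_mul, hms, hss, abs_of_nonneg (by omega : (0:ℤ) ≤ r)]
    nlinarith
  have e2 : |c0.2| + 4 * L * m + 4 * r ≤ s := by
    rw [hc2, abs_mul, hms, hss, abs_of_nonneg (by omega : (0:ℤ) ≤ r)]
    nlinarith
  have hL' : (2:ℤ) ≤ L := by exact_mod_cast hL
  have hm0 : (0:ℤ) ≤ m := Int.natCast_nonneg m
  have hLm : (m:ℤ) ≤ L * m := by nlinarith
  have a1 := neg_abs_le c0.1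
  have a2 := le_abs_self c0.1
  have a3 := neg_abs_le c0.2
  have a4 := le_abs_self c0.2
  have hcast : ((2 * L * m : ℕ) : ℤ) = 2 * (L * m) := by push_cast; ring
  have e1' : |c0.1| + 4 * (L * m) + 4 * r ≤ s := by linarith
  have e2' : |c0.2| + 4 * (L * m) + 4 * r ≤ s := by linarith
  rintro ⟨x, y, β⟩ hg
  have hmem : ((x, y, β) : Edg) ∈ blk c0 s ∧ |x - c0.1| < s ∧ |y - c0.2| < s := by
    rw [abs_lt, abs_lt]
    unfold SR at hg
    unfold blk
    cases β
    · rw [mem_RE_false, hcast] at hg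
      rw [mem_RE_false]
      generalize (L:ℤ) * m = Lm at *
      omega
    · rw [mem_RE_true, hcast] at hg
      rw [mem_RE_true]
      generalize (L:ℤ) * m = Lm at *
      omega
  exact in1_mem_boI.mpr ⟨hmem.1, Or.inl hmem.2⟩

/-- The corridors avoid the middle of the thin box. -/
theorem in1_avo {L M2 B r m : ℕ} {γ : ℤ × ℤ} {d : Dir} {k : ℤ} {σ : Bool} {k1 : ℤ}
    {Q : Finset (ℤ × ℤ)} (hL : 2 ≤ L) (hM2 : 64 ≤ M2) (hr : 1 ≤ r) (hm : m = M2 * r)
    (hc : CorX L M2 B γ d k σ k1 Q) {e : Edg} (he : e ∈ boxE (m / 4)) :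
    ∀ z ∈ Q, e ∉ sqE r z := by
  rintro ⟨z1, z2⟩ hzQ hez
  have hr' : (1:ℤ) ≤ r := by exact_mod_cast hr
  have hL' : (2:ℤ) ≤ L := by exact_mod_cast hL
  have hM' : (64:ℤ) ≤ M2 := by exact_mod_cast hM2
  have hms : (m:ℤ) = r * M2 := by rw [hm]; push_cast; ring
  have key : (r:ℤ) * z1 ≤ m ∧ -(m:ℤ) ≤ (r:ℤ) * (z1 + 1) ∧ (r:ℤ) * z2 < m ∧
      -(m:ℤ) < (r:ℤ) * (z2 + 1) := by
    have hm1 : 64 ≤ m := by rw [hm]; nlinarith
    have h1 : (r:ℤ) * (z1 + 1) = r * z1 + r := by ring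
    have h2 : (r:ℤ) * (z2 + 1) = r * z2 + r := by ring
    rw [h1, h2]
    obtain ⟨x, y, β⟩ := e
    unfold boxE at he
    unfold sqE at hez
    cases β
    · rw [mem_RE_false] at he hez
      simp only at hez
      omega
    · rw [mem_RE_true] at he hez
      simp only at hez
      omega
  obtain ⟨k1', k2', k3', k4'⟩ := key
  rw [hms] at k1' k2' k3' k4'
  have b1 : z1 ≤ M2 := by
    by_contra hcon
    push Not at hcon
    nlinarith
  have b2 : -(M2:ℤ) ≤ z1 + 1 := by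
    by_contra hcon
    push Not at hcon
    nlinarith
  have b3 : z2 < M2 := by
    by_contra hcon
    push Not at hcon
    nlinarith
  have b4 : -(M2:ℤ) < z2 + 1 := by
    by_contra hcon
    push Not at hcon
    nlinarith
  have hLM : (M2:ℤ) ≤ 2 * L * M2 := by nlinarith
  have h5 := (hc.avo (z1, z2) hzQ (by simp only; linarith) (by simp only; linarith)
    (by simp only; linarith) (by simp only; linarith)).1
  simp only at h5
  unfold hz at h5
  split_ifs at h5 <;> omega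

/-- First step of the inward gluing, from its deterministic part. -/
theorem in1_of (hdet : In1Det) (κ : ℝ) (hκ : 0 < κ) (L M1 M2 B P1 P2 : ℕ) :
    ∃ (Mr : ℕ) (c : ℝ), 1 ≤ Mr ∧ 0 < c ∧
    ∀ (q : ℝ) (n : ℕ), Win q κ n → ∀ (r m s : ℕ) (γ c0 : ℤ × ℤ),
      InD L M1 M2 B P1 P2 r m s γ c0 → Mr ≤ r → s ≤ n →
      ∀ (S : Finset Edg) (I J : Set Vtx), blk c0 (2 * s) ⊆ S → FarS (I ∪ J) c0 (2 * s) →
      ∀ (d d' : Dir) (k k' : ℤ) (σ σ' : Bool) (k1 k2 : ℤ) (Q1 Q3 : Finset (ℤ × ℤ)), SepQ Q1 Q3 →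
      ((CorX L M2 B γ d k σ k1 Q1 ∧ CorX L M2 B γ d' k' σ' k2 Q3) ∨
        (CorX L M2 B γ d k σ' k2 Q1 ∧ CorX L M2 B γ d' k' σ k1 Q3)) →
      ∀ QV : Finset Edg, QV = QE r (Q1 ∪ Q3) → ∀ e ∈ boxE (m / 4),
      c * (PQ q S (fun F => ESev I J c0 s r (P1 * r) (P2 * r) d k d' k'
            ((↑F : Set Edg) \ ↑(boI c0 s))) *
          PQ q (SR L m) (fun F => Sev L m r (m / M1) σ (2 * r * k1) σ' (2 * r * k2) e ↑F)) ≤
        PQ q (S \ QV) (fun F => Z1 I J QV e ↑F) := by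
  refine ⟨16, κ ^ (4 * (2 * (32 * B) + 1) ^ 2), by norm_num, by positivity, ?_⟩
  intro q n hw r m s γ c0 hD hr hsn S I J hS hI d d' k k' σ σ' k1 k2 Q1 Q3 hsep hcor QV hQV e he
  have hp : Ok (fun _ : Edg => q) := okq (by linarith [hw.lo]) (by linarith [hw.hi])
  have hr1 : 1 ≤ r := hD.hr
  set l : ℕ := r / 16 with hl
  have hl1 : 1 ≤ l := by omega
  have hlr : 16 * l ≤ r := by omega
  have hrl : r ≤ 32 * l := by omega
  have hM2 : 64 ≤ M2 := by
    have := hD.hM1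
    have := hD.hM2
    omega
  set S0 : Finset Edg := ((S \ boI c0 s) ∪ SR L m) \ QV with hS0
  set D : Finset Edg := boI c0 s \ (SR L m ∪ QV) with hDD
  -- geometry
  have hSRb : SR L m ⊆ boI c0 s := in1_SR hD
  have hboS : boI c0 s ⊆ S := by
    intro g hg
    apply hS
    have h1 := (in1_mem_boI.mp hg).1
    unfold blk at h1 ⊢
    exact RE_subset (by push_cast; omega) (by push_cast; omega) (by push_cast; omega)
      (by push_cast; omega) h1
  have heSR : e ∈ SR L m := by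
    have h1 : boxE (m / 4) ⊆ SR L m := by
      have hL := hD.hL
      have hLm : m ≤ 2 * L * m := by
        have : m ≤ L * m := Nat.le_mul_of_pos_left _ (by omega)
        nlinarith
      unfold boxE SR
      exact RE_subset (by omega) (by omega) (by omega) (by omega)
    exact h1 he
  have heQV : e ∉ QV := by
    intro hg
    rw [hQV] at hg
    unfold QE at hg
    rw [Finset.mem_biUnion] at hg
    obtain ⟨z, hz, hgz⟩ := hg
    rw [Finset.mem_union] at hz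
    rcases hz with hz | hz <;> rcases hcor with ⟨h1, h3⟩ | ⟨h1, h3⟩
    · exact in1_avo hD.hL hM2 hr1 hD.hm h1 he z hz hgz
    · exact in1_avo hD.hL hM2 hr1 hD.hm h1 he z hz hgz
    · exact in1_avo hD.hL hM2 hr1 hD.hm h3 he z hz hgz
    · exact in1_avo hD.hL hM2 hr1 hD.hm h3 he z hz hgz
  have he0 : e ∈ S0 := Finset.mem_sdiff.mpr ⟨Finset.mem_union_right _ heSR, heQV⟩
  have hSD : Disjoint S0 D := by
    rw [Finset.disjoint_left]
    intro g h1 h2
    have h3 := (Finset.mem_sdiff.mp h2).2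
    have h4 := (Finset.mem_sdiff.mp h2).1
    rcases Finset.mem_union.mp (Finset.mem_sdiff.mp h1).1 with h5 | h5
    · exact (Finset.mem_sdiff.mp h5).2 h4
    · exact h3 (Finset.mem_union_left _ h5)
  have hunion : S0 ∪ D = S \ QV := by
    ext g
    simp only [hS0, hDD, Finset.mem_union, Finset.mem_sdiff]
    constructor
    · rintro (⟨h1 | h1, h2⟩ | ⟨h1, h2⟩)
      · exact ⟨h1.1, h2⟩
      · exact ⟨hboS (hSRb h1), h2⟩
      · exact ⟨hboS h1, fun h => h2 (Or.inr h)⟩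
    · rintro ⟨h1, h2⟩
      by_cases h3 : g ∈ SR L m
      · exact Or.inl ⟨Or.inr h3, h2⟩
      · by_cases h4 : g ∈ boI c0 s
        · exact Or.inr ⟨h4, fun h => h.elim h3 h2⟩
        · exact Or.inl ⟨Or.inl ⟨h1, h4⟩, h2⟩
  have hS0S : S0 ⊆ S := by
    intro g hg
    have h1 : g ∈ S0 ∪ D := Finset.mem_union_left _ hg
    rw [hunion] at h1
    exact (Finset.mem_sdiff.mp h1).1
  have hO1 : Disjoint (↑QV : Set Edg) ↑(S0 ∪ D) := by
    rw [hunion, Set.disjoint_left]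
    intro g h1 h2
    have h2' : g ∈ S \ QV := by exact_mod_cast h2
    exact (Finset.mem_sdiff.mp h2').2 (by exact_mod_cast h1)
  -- the gluing lemma
  have hglue := unforceG hp src tgt hSD (subset_refl (↑QV : Set Edg)) hO1 (I := I) (J := J) he0
    (Nr (4 * l)) (H := fun _ => True) (fun _ _ _ _ => trivial) (fun _ => Iff.rfl)
  -- first factor
  have h1 : PQ q S (fun F => ESev I J c0 s r (P1 * r) (P2 * r) d k d' k'
            ((↑F : Set Edg) \ ↑(boI c0 s))) *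
          PQ q (SR L m) (fun F => Sev L m r (m / M1) σ (2 * r * k1) σ' (2 * r * k2) e ↑F) ≤
      Pr (fun _ => q) (S0 ∪ D) (fun F =>
        (CnG src tgt I J (insert e ((↑(F ∩ S0) : Set Edg) ∪ ↑QV)) ∧
        ¬ CnG src tgt I J (((↑(F ∩ S0) : Set Edg) ∪ ↑QV) \ {e})) ∧
        NFar src tgt I J e ↑D (Nr (4 * l)) ((↑(F ∩ S0) : Set Edg) ∪ ↑QV) ∧
        (∀ g ∈ (↑QV : Set Edg), src g ∈ Cl src tgt I (((↑(F ∩ S0) : Set Edg) ∪ ↑QV) \ {e}) ∨
          src g ∈ Cl src tgt J (((↑(F ∩ S0) : Set Edg) ∪ ↑QV) \ {e}))) := by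
    rw [Pr_local (S := S0 ∪ D) (S' := S0) Finset.subset_union_left (fun F _ => by
      simp only [Finset.inter_assoc, Finset.inter_self])]
    rw [← Pr_local (S := S) (S' := S0) hS0S (fun F _ => by
      simp only [Finset.inter_assoc, Finset.inter_self])]
    have hloc : PQ q (SR L m) (fun F =>
          Sev L m r (m / M1) σ (2 * r * k1) σ' (2 * r * k2) e (↑F : Set Edg)) =
        PQ q S (fun F =>
          Sev L m r (m / M1) σ (2 * r * k1) σ' (2 * r * k2) e (↑(F ∩ SR L m) : Set Edg)) := by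
      unfold PQ
      rw [Pr_local (S := S) (S' := SR L m) (hSRb.trans hboS) (fun F _ => by
        simp only [Finset.inter_assoc, Finset.inter_self])]
      apply Pr_congr
      intro F hF
      rw [Finset.inter_eq_left.mpr hF]
    rw [hloc]
    unfold PQ
    rw [← Pr_indep (p := fun _ : Edg => q) (U := S) (S := S \ boI c0 s) (T := SR L m)
      (A := fun F => ESev I J c0 s r (P1 * r) (P2 * r) d k d' k'
            ((↑F : Set Edg) \ ↑(boI c0 s)))
      (B := fun F => Sev L m r (m / M1) σ (2 * r * k1) σ' (2 * r * k2) e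
        (↑(F ∩ SR L m) : Set Edg)) Finset.sdiff_subset (hSRb.trans hboS) ?_ ?_ ?_]
    · apply Pr_mono hp
      rintro F hF ⟨hE, hSev⟩
      obtain ⟨d1, d2, d3, d4⟩ := hdet hD hl1 hlr hS hI hsep hcor hQV he hF hE hSev
      exact ⟨⟨d1, d2⟩, d3, fun g hg => d4 g (by exact_mod_cast hg)⟩
    · rw [Finset.disjoint_left]
      intro g h1 h2
      exact (Finset.mem_sdiff.mp h1).2 (hSRb h2)
    · intro F hF
      have : ((↑(F ∩ (S \ boI c0 s)) : Set Edg) \ ↑(boI c0 s)) =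
          (↑F : Set Edg) \ ↑(boI c0 s) := by
        rw [← Finset.coe_sdiff, ← Finset.coe_sdiff]
        congr 1
        ext g
        simp only [Finset.mem_inter, Finset.mem_sdiff]
        constructor
        · rintro ⟨⟨h1, h2, h3⟩, h4⟩; exact ⟨h1, h4⟩
        · rintro ⟨h1, h2⟩; exact ⟨⟨h1, hF h1, h2⟩, h2⟩
      simp only [this]
    · intro F _
      simp only [Finset.inter_assoc, Finset.inter_self]
  -- second factor
  have h2 : κ ^ (4 * (2 * (32 * B) + 1) ^ 2) ≤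
      Pr (fun _ => q) (S0 ∪ D) (fun F => TrapG src tgt (↑D : Set Edg) (Nr (4 * l)) ↑F ∧ True) := by
    have hrs : r ≤ s := by
      have hB := hD.hB
      have hP1 := hD.hP1
      have hP2 := hD.hP2
      have hL := hD.hL
      have : 1 ≤ 4 * L * M2 := by
        have : 0 < 4 * L * M2 := by positivity
        omega
      have hB1 : 1 ≤ B := by omega
      rw [hD.hs]
      nlinarith
    have hln : 2 * l ≤ n := by omega
    refine (trap_prob hw (N := 32 * B) hl1 hln c0.1 c0.2 (S0 ∪ D)).1.trans (Pr_mono hp ?_)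
    intro F _ hF
    refine ⟨?_, trivial⟩
    intro v hv w _ hvw
    have hbl : (s:ℤ) ≤ ((32 * B : ℕ) : ℤ) * (l : ℤ) := by
      have : s ≤ 32 * B * l := by
        rw [hD.hs]
        calc B * r ≤ B * (32 * l) := by gcongr
          _ = 32 * B * l := by ring
      exact_mod_cast this
    have hvb : inR (c0.1 - ((32 * B : ℕ) : ℤ) * l) (c0.1 + ((32 * B : ℕ) : ℤ) * l)
        (c0.2 - ((32 * B : ℕ) : ℤ) * l) (c0.2 + ((32 * B : ℕ) : ℤ) * l) v := by
      obtain ⟨g, hg, hgv⟩ := hv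
      have hgD : g ∈ blk c0 s := by
        have h3 : g ∈ D := by exact_mod_cast hg
        exact (in1_mem_boI.mp (Finset.mem_sdiff.mp h3).1).1
      unfold inR
      generalize ((32 * B : ℕ) : ℤ) * (l : ℤ) = Z at *
      obtain ⟨x, y, _ | _⟩ := g
      · unfold blk at hgD
        rw [mem_RE_false] at hgD
        rcases hgv with h | h
        · rw [← h]; simp only [src_mk]; omega
        · rw [← h]; simp only [tgt_false]; omega
      · unfold blk at hgD
        rw [mem_RE_true] at hgD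
        rcases hgv with h | h
        · rw [← h]; simp only [src_mk]; omega
        · rw [← h]; simp only [tgt_true]; omega
    exact hF v w hvb hvw
  -- conclusion
  have h3 : Pr (fun _ => q) (S0 ∪ D) (fun F =>
      (CnG src tgt I J (insert e ((↑(F ∩ S0) : Set Edg) ∪ ↑QV)) ∧
        ¬ CnG src tgt I J (((↑F : Set Edg) ∪ ↑QV) \ {e})) ∧ True) ≤
      PQ q (S \ QV) (fun F => Z1 I J QV e ↑F) := by
    rw [hunion]
    apply Pr_mono hp
    rintro F hF ⟨⟨c1, c2⟩, -⟩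
    refine ⟨?_, c2⟩
    refine uf2_cn_mono ?_ c1
    refine Set.insert_subset_insert ?_
    refine Set.union_subset_union_left _ ?_
    rw [Finset.coe_inter]
    exact Set.inter_subset_left
  have hnn : 0 ≤ PQ q S (fun F => ESev I J c0 s r (P1 * r) (P2 * r) d k d' k'
            ((↑F : Set Edg) \ ↑(boI c0 s))) *
          PQ q (SR L m) (fun F => Sev L m r (m / M1) σ (2 * r * k1) σ' (2 * r * k2) e ↑F) :=
    mul_nonneg (Pr_nonneg hp _ _) (Pr_nonneg hp _ _)
  have hpos : 0 ≤ κ ^ (4 * (2 * (32 * B) + 1) ^ 2) := by positivity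
  rw [mul_comm]
  exact ((mul_le_mul h1 h2 hpos (hnn.trans h1)).trans hglue).trans h3

end H12S
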