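import Pool.Agent.H12R2.Sep.InD
import Pool.Agent.H12R2.Sep.Coarse

/-!
Task I1D: first step of the inward gluing, deterministic part.
-/

set_option maxHeartbeats 1000000
set_option linter.unusedSimpArgs false
set_option linter.deprecated false

namespace H12S

open H974 Finset

/-! ### Arithmetic of the data -/

/-- Numerical facts. -/
structure I1N (L r m s ρ : ℕ) (p1 p2 : ℕ) (c0 : ℤ × ℤ) : Prop where
  r1 : 1 ≤ r
  a1 : 8 * r ≤ ρ
  a2 : 64 * ρ ≤ m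
  a3 : 2 * m ≤ L * m
  a4 : |c0.1| + 4 * ((L * m : ℕ) : ℤ) + 4 * r ≤ s
  a5 : |c0.2| + 4 * ((L * m : ℕ) : ℤ) + 4 * r ≤ s
  a6 : 2 * r ≤ p1
  a7 : 2 * r ≤ p2
  a8 : 4 * p2 ≤ s

theorem i1_num {L M1 M2 B P1 P2 r m s : ℕ} {γ c0 : ℤ × ℤ}
    (h : InD L M1 M2 B P1 P2 r m s γ c0) : I1N L r m s (m / M1) (P1 * r) (P2 * r) c0 := by
  obtain ⟨hL, hM1, hM2, hP1, hP2, hB, hr, hm, hs, c1, c2, g1, g2⟩ := h
  have hM20 : 1 ≤ M2 := by omega
  have hLM : 1 ≤ L * M2 := Nat.mul_pos (by omega) (by omega)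
  have e0 : 4 * L * M2 = 4 * (L * M2) := by ring
  have e1 : (4:ℤ) * L * M2 = 4 * ((L * M2 : ℕ) : ℤ) := by push_cast; ring
  rw [e0] at hP1
  rw [e1] at g1 g2
  have hLm : L * m = (L * M2) * r := by rw [hm]; ring
  have hr0 : (0:ℤ) ≤ r := by omega
  have key : ∀ g : ℤ, |g| + 4 * ((L * M2 : ℕ) : ℤ) + 4 ≤ B →
      |(r:ℤ) * g| + 4 * ((L * m : ℕ) : ℤ) + 4 * r ≤ s := by
    intro g hg
    have h1 := mul_le_mul_of_nonneg_left hg hr0
    rw [abs_mul, abs_of_nonneg hr0, hLm, hs]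
    push_cast at h1 ⊢
    linarith
  refine ⟨hr, ?_, ?_, ?_, ?_, ?_, ?_, ?_, ?_⟩
  · rw [Nat.le_div_iff_mul_le (by omega), hm]
    calc 8 * r * M1 = (8 * M1) * r := by ring
      _ ≤ M2 * r := Nat.mul_le_mul_right _ hM2
  · calc 64 * (m / M1) ≤ M1 * (m / M1) := Nat.mul_le_mul_right _ hM1
      _ ≤ m := Nat.mul_div_le _ _
  · exact Nat.mul_le_mul_right _ hL
  · rw [c1]; exact key _ g1
  · rw [c2]; exact key _ g2
  · exact Nat.mul_le_mul_right _ (by omega)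
  · exact Nat.mul_le_mul_right _ (by omega)
  · rw [hs, ← mul_assoc]
    exact Nat.mul_le_mul_right _ (by omega)

/-! ### Squares of the corridors -/

/-- Squares near the boundary of the block touch it. -/
theorem i1_touch {B r s : ℕ} {γ c0 z : ℤ × ℤ} {v : Vtx} (hs : s = B * r)
    (c1 : c0.1 = r * γ.1) (c2 : c0.2 = r * γ.2)
    (hz : γ.1 - B ≤ z.1 ∧ z.1 + 1 ≤ γ.1 + B ∧ γ.2 - B ≤ z.2 ∧ z.2 + 1 ≤ γ.2 + B)
    (hv : inR (r * z.1) (r * z.1 + r) (r * z.2) (r * z.2 + r) v) {t : ℤ} (ht : t < r)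
    (h : s - t ≤ |v.1 - c0.1| ∨ s - t ≤ |v.2 - c0.2|) :
    z.1 = γ.1 - B ∨ z.1 + 1 = γ.1 + B ∨ z.2 = γ.2 - B ∨ z.2 + 1 = γ.2 + B := by
  by_contra hcon
  push Not at hcon
  have hr0 : (0:ℤ) ≤ r := by omega
  have k1 : γ.1 - B + 1 ≤ z.1 := by omega
  have k2 : z.1 + 2 ≤ γ.1 + B := by omega
  have k3 : γ.2 - B + 1 ≤ z.2 := by omega
  have k4 : z.2 + 2 ≤ γ.2 + B := by omega
  have m1 := mul_le_mul_of_nonneg_left k1 hr0
  have m2 := mul_le_mul_of_nonneg_left k2 hr0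
  have m3 := mul_le_mul_of_nonneg_left k3 hr0
  have m4 := mul_le_mul_of_nonneg_left k4 hr0
  have hs' : (s:ℤ) = r * B := by rw [hs]; push_cast; ring
  have e1 : (r:ℤ) * (γ.1 - B + 1) = r * γ.1 - r * B + r := by ring
  have e2 : (r:ℤ) * (z.1 + 2) = r * z.1 + 2 * r := by ring
  have e3 : (r:ℤ) * (γ.1 + B) = r * γ.1 + r * B := by ring
  have e4 : (r:ℤ) * (γ.2 - B + 1) = r * γ.2 - r * B + r := by ring
  have e5 : (r:ℤ) * (z.2 + 2) = r * z.2 + 2 * r := by ring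
  have e6 : (r:ℤ) * (γ.2 + B) = r * γ.2 + r * B := by ring
  rw [e1] at m1
  rw [e2, e3] at m2
  rw [e4] at m3
  rw [e5, e6] at m4
  unfold inR at hv
  rw [le_abs, le_abs] at h
  omega

/-- The squares of `inSq` are next to the cell. -/
theorem i1_inSq {B r s : ℕ} {γ c0 z : ℤ × ℤ} {v : Vtx} {d : Dir} {k : ℤ} (hs : s = B * r)
    (c1 : c0.1 = r * γ.1) (c2 : c0.2 = r * γ.2) (hz : z ∈ inSq γ B d k)
    (hv : inR (r * z.1) (r * z.1 + r) (r * z.2) (r * z.2 + r) v) :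
    match d with
    | Dir.up => |v.1 - (c0.1 + 2 * r * k)| ≤ r ∧ c0.2 + s - r ≤ v.2 ∧ v.2 ≤ c0.2 + s
    | Dir.dn => |v.1 - (c0.1 + 2 * r * k)| ≤ r ∧ c0.2 - s ≤ v.2 ∧ v.2 ≤ c0.2 - s + r
    | Dir.rt => |v.2 - (c0.2 + 2 * r * k)| ≤ r ∧ c0.1 + s - r ≤ v.1 ∧ v.1 ≤ c0.1 + s
    | Dir.lf => |v.2 - (c0.2 + 2 * r * k)| ≤ r ∧ c0.1 - s ≤ v.1 ∧ v.1 ≤ c0.1 - s + r := by
  have hs' : (s:ℤ) = r * B := by rw [hs]; push_cast; ring
  have e3 : ∀ g : ℤ, (r:ℤ) * (g + B - 1) = r * g + r * B - r := by intro g; ring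
  have e4 : ∀ g : ℤ, (r:ℤ) * (g - B) = r * g - r * B := by intro g; ring
  have e5 : ∀ g : ℤ, (r:ℤ) * (g + 2 * k - 1) = r * g + 2 * (r * k) - r := by intro g; ring
  have e6 : ∀ g : ℤ, (r:ℤ) * (g + 2 * k) = r * g + 2 * (r * k) := by intro g; ring
  have e7 : (2:ℤ) * r * k = 2 * (r * k) := by ring
  unfold inR at hv
  cases d <;> simp only [inSq, Finset.mem_insert, Finset.mem_singleton] at hz ⊢ <;>
    rw [abs_le, e7] <;> rcases hz with hz | hz <;> subst hz <;>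
    simp only [e3, e4, e5, e6] at hv <;> omega

/-- A vertex of the cell is in the squares. -/
theorem i1_cell_VQ {B r s : ℕ} {γ c0 : ℤ × ℤ} {d : Dir} {k : ℤ} {Q : Finset (ℤ × ℤ)}
    (hs : s = B * r) (c1 : c0.1 = r * γ.1) (c2 : c0.2 = r * γ.2)
    (hQ : inSq γ B d k ⊆ Q) : cellB c0 s r d k ⊆ VQ r Q := by
  have hs' : (s:ℤ) = r * B := by rw [hs]; push_cast; ring
  have e3 : ∀ g : ℤ, (r:ℤ) * (g + B - 1) = r * g + r * B - r := by intro g; ring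
  have e4 : ∀ g : ℤ, (r:ℤ) * (g - B) = r * g - r * B := by intro g; ring
  have e5 : ∀ g : ℤ, (r:ℤ) * (g + 2 * k - 1) = r * g + 2 * (r * k) - r := by intro g; ring
  have e6 : ∀ g : ℤ, (r:ℤ) * (g + 2 * k) = r * g + 2 * (r * k) := by intro g; ring
  have e7 : (2:ℤ) * r * k = 2 * (r * k) := by ring
  intro v hv
  unfold cellB at hv
  cases d
  · simp only [segD, cenB, Set.mem_setOf_eq] at hv
    rw [e7] at hv
    rcases le_total v.1 (c0.1 + 2 * (r * k)) with h1 | h1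
    · refine ⟨_, hQ (by simp only [inSq, Finset.mem_insert, Finset.mem_singleton]; left; rfl), ?_⟩
      simp only [inR, e3, e4, e5, e6]; omega
    · refine ⟨_, hQ (by simp only [inSq, Finset.mem_insert, Finset.mem_singleton]; right; rfl), ?_⟩
      simp only [inR, e3, e4, e5, e6]; omega
  · simp only [segD, cenB, Set.mem_setOf_eq] at hv
    rw [e7] at hv
    rcases le_total v.1 (c0.1 + 2 * (r * k)) with h1 | h1
    · refine ⟨_, hQ (by simp only [inSq, Finset.mem_insert, Finset.mem_singleton]; left; rfl), ?_⟩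
      simp only [inR, e3, e4, e5, e6]; omega
    · refine ⟨_, hQ (by simp only [inSq, Finset.mem_insert, Finset.mem_singleton]; right; rfl), ?_⟩
      simp only [inR, e3, e4, e5, e6]; omega
  · simp only [segD, cenB, Set.mem_setOf_eq] at hv
    rw [e7] at hv
    rcases le_total v.2 (c0.2 + 2 * (r * k)) with h1 | h1
    · refine ⟨_, hQ (by simp only [inSq, Finset.mem_insert, Finset.mem_singleton]; left; rfl), ?_⟩
      simp only [inR, e3, e4, e5, e6]; omega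
    · refine ⟨_, hQ (by simp only [inSq, Finset.mem_insert, Finset.mem_singleton]; right; rfl), ?_⟩
      simp only [inR, e3, e4, e5, e6]; omega
  · simp only [segD, cenB, Set.mem_setOf_eq] at hv
    rw [e7] at hv
    rcases le_total v.2 (c0.2 + 2 * (r * k)) with h1 | h1
    · refine ⟨_, hQ (by simp only [inSq, Finset.mem_insert, Finset.mem_singleton]; left; rfl), ?_⟩
      simp only [inR, e3, e4, e5, e6]; omega
    · refine ⟨_, hQ (by simp only [inSq, Finset.mem_insert, Finset.mem_singleton]; right; rfl), ?_⟩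
      simp only [inR, e3, e4, e5, e6]; omega

/-- Cells are on the boundary of the block. -/
theorem i1_cell_bd {r s p1 p2 L m ρ : ℕ} {c0 : ℤ × ℤ} (hn : I1N L r m s ρ p1 p2 c0) {d : Dir}
    {k : ℤ} (hk : |2 * (r:ℤ) * k| + 2 * p2 ≤ s) {v : Vtx} (hv : v ∈ cellB c0 s r d k) :
    v ∈ bdB c0 s := by
  have h7 := hn.a7
  have h8 := hn.a8
  unfold cellB at hv
  unfold bdB
  rw [Set.mem_setOf_eq]
  generalize (2 * (r:ℤ) * k) = K at hk hv
  have hk' := abs_le.mp (by linarith : |K| ≤ (s:ℤ) - 2 * p2)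
  cases d <;> simp only [segD, cenB, Set.mem_setOf_eq] at hv
  · refine ⟨by rw [abs_le]; omega, by rw [abs_le]; omega, Or.inr ?_⟩
    rw [hv.1, add_sub_cancel_left]; exact abs_of_nonneg (by omega)
  · refine ⟨by rw [abs_le]; omega, by rw [abs_le]; omega, Or.inr ?_⟩
    rw [hv.1, sub_sub_cancel_left, abs_neg]; exact abs_of_nonneg (by omega)
  · refine ⟨by rw [abs_le]; omega, by rw [abs_le]; omega, Or.inl ?_⟩
    rw [hv.1, add_sub_cancel_left]; exact abs_of_nonneg (by omega)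
  · refine ⟨by rw [abs_le]; omega, by rw [abs_le]; omega, Or.inl ?_⟩
    rw [hv.1, sub_sub_cancel_left, abs_neg]; exact abs_of_nonneg (by omega)

/-- The open square of the block. -/
def i1O (c0 : ℤ × ℤ) (s : ℕ) (v : Vtx) : Prop := |v.1 - c0.1| < s ∧ |v.2 - c0.2| < s

/-- A vertex of a corridor outside the open block is in the boundary cell. -/
theorem i1_F1 {L M1 M2 B P1 P2 r m s : ℕ} {γ c0 : ℤ × ℤ}
    (h : InD L M1 M2 B P1 P2 r m s γ c0) {d : Dir} {k : ℤ} {σ : Bool} {k1 : ℤ}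
    {Q : Finset (ℤ × ℤ)} (hc : CorX L M2 B γ d k σ k1 Q)
    (hk : |2 * (r:ℤ) * k| + 2 * (P2 * r : ℕ) ≤ s) {v : Vtx} (hv : v ∈ VQ r Q)
    (ho : ¬ i1O c0 s v) : v ∈ cellB c0 s r d k := by
  have hn := i1_num h
  have h1 := hn.r1
  have h7 := hn.a7
  have h8 := hn.a8
  obtain ⟨z, hz, hzv⟩ := hv
  have ho' : (s:ℤ) - 0 ≤ |v.1 - c0.1| ∨ (s:ℤ) - 0 ≤ |v.2 - c0.2| := by
    unfold i1O at ho
    rcases lt_or_ge |v.1 - c0.1| (s:ℤ) with h2 | h2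
    · right
      rcases lt_or_ge |v.2 - c0.2| (s:ℤ) with h3 | h3
      · exact absurd ⟨h2, h3⟩ ho
      · linarith
    · left; linarith
  have ht := i1_touch h.hs h.c1 h.c2 (hc.inb z hz) hzv (t := 0) (by omega) ho'
  have hsq := i1_inSq h.hs h.c1 h.c2 (hc.bd z hz ht) hzv
  generalize P2 * r = p2 at hk h7 h8
  unfold cellB
  generalize (2 * (r:ℤ) * k) = K at hk hsq
  have hk' := abs_le.mp (by linarith : |K| ≤ (s:ℤ) - 2 * p2)
  rw [le_abs, le_abs] at ho'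
  cases d <;> simp only [segD, cenB, Set.mem_setOf_eq] at hsq ⊢ <;> rw [abs_le] at hsq <;> omega

/-- A vertex of a corridor near the boundary of the block is near the boundary cell. -/
theorem i1_F2 {L M1 M2 B P1 P2 r m s : ℕ} {γ c0 : ℤ × ℤ}
    (h : InD L M1 M2 B P1 P2 r m s γ c0) {d : Dir} {k : ℤ} {σ : Bool} {k1 : ℤ}
    {Q : Finset (ℤ × ℤ)} (hc : CorX L M2 B γ d k σ k1 Q) {t : ℤ} (ht : t < r)
    {v w : Vtx} (hv : v ∈ bdB c0 s) (hw : w ∈ VQ r Q) (hvw : Nr t v w) :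
    ∃ w' ∈ cellB c0 s r d k, Nr r w w' := by
  obtain ⟨z, hz, hzw⟩ := hw
  obtain ⟨-, -, hb⟩ := hv
  obtain ⟨hn1, hn2⟩ := hvw
  rw [abs_le] at hn1 hn2
  have ho' : (s:ℤ) - t ≤ |w.1 - c0.1| ∨ (s:ℤ) - t ≤ |w.2 - c0.2| := by
    rcases hb with hb | hb
    · left
      rcases abs_choice (v.1 - c0.1) with h2 | h2 <;> rw [h2] at hb <;> rw [le_abs] <;> omega
    · right
      rcases abs_choice (v.2 - c0.2) with h2 | h2 <;> rw [h2] at hb <;> rw [le_abs] <;> omega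
  have htt := i1_touch h.hs h.c1 h.c2 (hc.inb z hz) hzw ht ho'
  have hsq := i1_inSq h.hs h.c1 h.c2 (hc.bd z hz htt) hzw
  have h1 := h.hr
  unfold cellB
  generalize (2 * (r:ℤ) * k) = K at hsq ⊢
  cases d <;> simp only at hsq <;> rw [abs_le] at hsq
  · refine ⟨(w.1, c0.2 + s), ?_, ?_⟩
    · simp only [segD, cenB, Set.mem_setOf_eq, true_and]; omega
    · constructor <;> rw [abs_le] <;> simp only <;> omega
  · refine ⟨(w.1, c0.2 - s), ?_, ?_⟩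
    · simp only [segD, cenB, Set.mem_setOf_eq, true_and]; omega
    · constructor <;> rw [abs_le] <;> simp only <;> omega
  · refine ⟨(c0.1 + s, w.2), ?_, ?_⟩
    · simp only [segD, cenB, Set.mem_setOf_eq, true_and]; omega
    · constructor <;> rw [abs_le] <;> simp only <;> omega
  · refine ⟨(c0.1 - s, w.2), ?_, ?_⟩
    · simp only [segD, cenB, Set.mem_setOf_eq, true_and]; omega
    · constructor <;> rw [abs_le] <;> simp only <;> omega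

/-- Squares of a corridor near the thin box. -/
theorem i1_avo {L M1 M2 B P1 P2 r m s : ℕ} {γ c0 : ℤ × ℤ}
    (h : InD L M1 M2 B P1 P2 r m s γ c0) {d : Dir} {k : ℤ} {σ : Bool} {k1 : ℤ}
    {Q : Finset (ℤ × ℤ)} (hc : CorX L M2 B γ d k σ k1 Q) {t : ℤ} (ht : t < r)
    {v w : Vtx} (hv1 : |v.1| ≤ 2 * ((L * m : ℕ) : ℤ)) (hv2 : |v.2| ≤ m) (hw : w ∈ VQ r Q)
    (hvw : Nr t v w) :
    |w.1 - 2 * r * k1| ≤ r ∧ (if σ then (m:ℤ) ≤ w.2 ∧ w.2 ≤ m + r else -m - r ≤ w.2 ∧ w.2 ≤ -m) := by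
  obtain ⟨z, hzQ, hzw⟩ := hw
  obtain ⟨hn1, hn2⟩ := hvw
  have hr := h.hr
  have hr0 : (0:ℤ) < r := by omega
  have hm : (m:ℤ) = r * M2 := by rw [h.hm]; push_cast; ring
  have hLm : ((L * m : ℕ) : ℤ) = r * (L * M2) := by rw [h.hm]; push_cast; ring
  rw [abs_le] at hn1 hn2 hv1 hv2
  unfold inR at hzw
  have q1 : -(2 * L * M2 : ℤ) ≤ z.1 + 1 := by
    by_contra hcon
    have k1 : z.1 + 1 ≤ -(2 * L * M2 : ℤ) - 1 := by omega
    have m1 := mul_le_mul_of_nonneg_left k1 hr0.le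
    have e1 : (r:ℤ) * (z.1 + 1) = r * z.1 + r := by ring
    have e2 : (r:ℤ) * (-(2 * L * M2 : ℤ) - 1) = -2 * (r * (L * M2)) - r := by ring
    rw [e1, e2] at m1
    omega
  have q2 : z.1 ≤ 2 * L * M2 := by
    by_contra hcon
    have k1 : (2 * L * M2 : ℤ) + 1 ≤ z.1 := by omega
    have m1 := mul_le_mul_of_nonneg_left k1 hr0.le
    have e2 : (r:ℤ) * ((2 * L * M2 : ℤ) + 1) = 2 * (r * (L * M2)) + r := by ring
    rw [e2] at m1
    omega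
  have q3 : -(M2:ℤ) ≤ z.2 + 1 := by
    by_contra hcon
    have k1 : z.2 + 1 ≤ -(M2 : ℤ) - 1 := by omega
    have m1 := mul_le_mul_of_nonneg_left k1 hr0.le
    have e1 : (r:ℤ) * (z.2 + 1) = r * z.2 + r := by ring
    have e2 : (r:ℤ) * (-(M2 : ℤ) - 1) = -(r * M2) - r := by ring
    rw [e1, e2] at m1
    omega
  have q4 : z.2 ≤ M2 := by
    by_contra hcon
    have k1 : (M2 : ℤ) + 1 ≤ z.2 := by omega
    have m1 := mul_le_mul_of_nonneg_left k1 hr0.le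
    have e2 : (r:ℤ) * ((M2 : ℤ) + 1) = r * M2 + r := by ring
    rw [e2] at m1
    omega
  obtain ⟨h1, h2⟩ := hc.avo z hzQ q1 q2 q3 q4
  have e7 : (2:ℤ) * r * k1 = 2 * (r * k1) := by ring
  rw [h1] at hzw
  have e8 : (r:ℤ) * hz M2 σ = if σ then (m:ℤ) else -m - r := by
    unfold hz
    cases σ
    · simp only [Bool.false_eq_true, if_false]; rw [hm]; ring
    · simp only [if_true]; rw [hm]
  rw [e8] at hzw
  rw [abs_le, e7]
  have e9 : (r:ℤ) * (2 * k1 - 1) = 2 * (r * k1) - r := by ring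
  have e10 : (r:ℤ) * (2 * k1) = 2 * (r * k1) := by ring
  rcases h2 with h2 | h2 <;> rw [h2] at hzw <;> cases σ <;>
    simp only [Bool.false_eq_true, if_false, if_true, e9, e10] at hzw ⊢ <;> omega

/-! ### The two halves -/

/-- Data of one of the two clusters: exterior part `E`, corridor `Q`, inner part `R`. -/
structure I1H (L M2 B r m s ρ p2 : ℕ) (γ c0 : ℤ × ℤ) (d : Dir) (k : ℤ) (σ : Bool) (kk : ℤ)
    (Q : Finset (ℤ × ℤ)) (E R : Set Vtx) : Prop where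
  cor : CorX L M2 B γ d k σ kk Q
  k0 : |2 * (r:ℤ) * k| + 2 * p2 ≤ s
  cE : cellB c0 s r d k ⊆ E
  cR : cell σ m (2 * r * kk) r ⊆ R
  oE : ∀ x ∈ E, ¬ i1O c0 s x
  iR : ∀ x ∈ R, |x.1| ≤ ((L * m : ℕ) : ℤ) + 2 * ρ ∧ |x.2| ≤ m

/-- Separation of the two clusters. -/
structure I1X (r m s ρ p1 : ℕ) (c0 : ℤ × ℤ) (σ : Bool) (k1 : ℤ) (σ' : Bool) (k2 : ℤ)
    (Q1 Q3 : Finset (ℤ × ℤ)) (E1 R1 E3 R3 : Set Vtx) : Prop where
  q : SepQ Q1 Q3
  e0 : ∀ x ∈ E1, x ∉ E3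
  e1 : ∀ v ∈ E1, ∀ v' ∈ E3, v ∈ bdB c0 s → v' ∈ bdB c0 s → ¬ Nr p1 v v'
  r0 : ∀ x ∈ R1, x ∉ R3
  r1 : ∀ x ∈ R1, x ∉ cell σ' m (2 * r * k2) (2 * ρ)
  r3 : ∀ x ∈ R3, x ∉ cell σ m (2 * r * k1) (2 * ρ)
  rr : ∀ v ∈ R1, ∀ v' ∈ R3, |v.2| = m → v'.2 = v.2 → (ρ:ℤ) < |v.1 - v'.1|

theorem i1_Nr_symm {t : ℤ} {v w : Vtx} (h : Nr t v w) : Nr t w v := by
  unfold Nr at h ⊢
  rw [abs_sub_comm w.1, abs_sub_comm w.2]
  exact h

theorem I1X.symm {r m s ρ p1 : ℕ} {c0 : ℤ × ℤ} {σ : Bool} {k1 : ℤ} {σ' : Bool} {k2 : ℤ}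
    {Q1 Q3 : Finset (ℤ × ℤ)} {E1 R1 E3 R3 : Set Vtx}
    (h : I1X r m s ρ p1 c0 σ k1 σ' k2 Q1 Q3 E1 R1 E3 R3) :
    I1X r m s ρ p1 c0 σ' k2 σ k1 Q3 Q1 E3 R3 E1 R1 := by
  refine ⟨?_, ?_, ?_, ?_, h.r3, h.r1, ?_⟩
  · intro z hz z' hz' hc
    rw [abs_sub_comm z.1, abs_sub_comm z.2] at hc
    exact h.q z' hz' z hz hc
  · exact fun x h3 h1 => h.e0 x h1 h3
  · exact fun v hv v' hv' b1 b2 hn => h.e1 v' hv' v hv b2 b1 (i1_Nr_symm hn)
  · exact fun x h3 h1 => h.r0 x h1 h3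
  · intro v hv v' hv' h1 h2
    rw [abs_sub_comm]
    exact h.rr v' hv' v hv (by rw [h2]; exact h1) h2.symm

section far

variable {L M1 M2 B P1 P2 r m s : ℕ} {γ c0 : ℤ × ℤ} {d d' : Dir} {k k' : ℤ} {σ σ' : Bool}
  {k1 k2 : ℤ} {Q1 Q3 : Finset (ℤ × ℤ)} {E1 R1 E3 R3 : Set Vtx}

theorem i1_thin_open (h : InD L M1 M2 B P1 P2 r m s γ c0) {x : Vtx}
    (h1 : |x.1| ≤ 2 * ((L * m : ℕ) : ℤ)) (h2 : |x.2| ≤ m) : i1O c0 s x := by
  have hn := i1_num h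
  have hr := hn.r1
  have a1 := hn.a1
  have a2 := hn.a2
  have a3 := hn.a3
  have a4 := hn.a4
  have a5 := hn.a5
  generalize L * m = LM at *
  rw [abs_le] at h1 h2
  have b1 := neg_abs_le c0.1
  have b2 := le_abs_self c0.1
  have b3 := neg_abs_le c0.2
  have b4 := le_abs_self c0.2
  unfold i1O
  rw [abs_lt, abs_lt]
  omega

/-- A corridor vertex in the closed thin box is in the cell. -/
theorem i1_F3 (h : InD L M1 M2 B P1 P2 r m s γ c0) (hc : CorX L M2 B γ d k σ k1 Q1) {v : Vtx}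
    (hv : v ∈ VQ r Q1) (hv1 : |v.1| ≤ 2 * ((L * m : ℕ) : ℤ)) (hv2 : |v.2| ≤ m) :
    v ∈ cell σ m (2 * r * k1) r := by
  have hr := h.hr
  obtain ⟨h1, h2⟩ := i1_avo h hc (t := 0) (by omega) hv1 hv2 hv
    ⟨by rw [sub_self, abs_zero], by rw [sub_self, abs_zero]⟩
  rw [mem_cell]
  unfold sy
  rw [abs_le] at h1 hv2
  generalize (2 * (r:ℤ) * k1) = K at *
  cases σ
  · simp only [Bool.false_eq_true, if_false] at h2 ⊢; omega
  · simp only [if_true] at h2 ⊢; omega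

/-- A point of a horizontal side of the thin box near a corridor is near the cell. -/
theorem i1_F4 (h : InD L M1 M2 B P1 P2 r m s γ c0) (hc : CorX L M2 B γ d k σ k1 Q1) {t : ℤ}
    (ht : 4 * t ≤ r) {v w : Vtx} (hv : v ∈ VQ r Q1)
    (hw1 : |w.1| ≤ ((L * m : ℕ) : ℤ) + 2 * (m / M1 : ℕ)) (hw2 : |w.2| = m) (hvw : Nr t w v) :
    w ∈ cell σ m (2 * r * k1) (2 * (m / M1)) := by
  have hn := i1_num h
  have hr := hn.r1
  have a1 := hn.a1
  have a2 := hn.a2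
  have a3 := hn.a3
  generalize hρ : m / M1 = ρ at *
  obtain ⟨h1, h2⟩ := i1_avo h hc (t := t) (by omega) (v := w) (by omega) hw2.le hv hvw
  obtain ⟨n1, n2⟩ := hvw
  rw [mem_cell]
  unfold sy
  rw [abs_le] at h1 n1 n2
  generalize (2 * (r:ℤ) * k1) = K at *
  have hm2 : w.2 = m ∨ w.2 = -m := by
    rcases abs_choice w.2 with h3 | h3 <;> omega
  cases σ
  · simp only [Bool.false_eq_true, if_false] at h2 ⊢
    push_cast
    omega
  · simp only [if_true] at h2 ⊢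
    push_cast
    omega

theorem i1_cell_sub {ρ' : ℕ} (h : r ≤ ρ') {x : ℤ} : cell σ m x r ⊆ cell σ m x ρ' := by
  intro v hv
  rw [mem_cell] at hv ⊢
  omega

/-- The two clusters are disjoint. -/
theorem i1_dis (h : InD L M1 M2 B P1 P2 r m s γ c0)
    (h1 : I1H L M2 B r m s (m / M1) (P2 * r) γ c0 d k σ k1 Q1 E1 R1)
    (h3 : I1H L M2 B r m s (m / M1) (P2 * r) γ c0 d' k' σ' k2 Q3 E3 R3)
    (hx : I1X r m s (m / M1) (P1 * r) c0 σ k1 σ' k2 Q1 Q3 E1 R1 E3 R3) {x : Vtx}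
    (hx1 : x ∈ E1 ∨ x ∈ VQ r Q1 ∨ x ∈ R1) (hx3 : x ∈ E3 ∨ x ∈ VQ r Q3 ∨ x ∈ R3) : False := by
  have hn := i1_num h
  have hr := hn.r1
  have a1 := hn.a1
  have a2 := hn.a2
  have a3 := hn.a3
  have thin : ∀ y : Vtx, |y.1| ≤ ((L * m : ℕ) : ℤ) + 2 * (m / M1 : ℕ) → |y.2| ≤ m →
      i1O c0 s y := fun y hy1 hy2 => i1_thin_open h (by omega) hy2
  rcases hx1 with hx1 | hx1 | hx1 <;> rcases hx3 with hx3 | hx3 | hx3
  · exact hx.e0 x hx1 hx3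
  · exact hx.e0 x hx1 (h3.cE (i1_F1 h h3.cor h3.k0 hx3 (h1.oE x hx1)))
  · exact h1.oE x hx1 (thin x (h3.iR x hx3).1 (h3.iR x hx3).2)
  · exact hx.e0 x (h1.cE (i1_F1 h h1.cor h1.k0 hx1 (h3.oE x hx3))) hx3
  · rcases VQ_dist hr hx.q hx1 hx3 with h4 | h4 <;> rw [sub_self, abs_zero] at h4 <;> omega
  · obtain ⟨i1, i2⟩ := h3.iR x hx3
    exact hx.r3 x hx3 (i1_cell_sub (by omega) (i1_F3 h h1.cor hx1 (by omega) i2))
  · exact h3.oE x hx3 (thin x (h1.iR x hx1).1 (h1.iR x hx1).2)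
  · obtain ⟨i1, i2⟩ := h1.iR x hx1
    exact hx.r1 x hx1 (i1_cell_sub (by omega) (i1_F3 h h3.cor hx3 (by omega) i2))
  · exact hx.r0 x hx1 hx3

/-- Vertices of the random edges between the two parts. -/
def i1V (L m s : ℕ) (c0 : ℤ × ℤ) (v : Vtx) : Prop :=
  (|v.1 - c0.1| ≤ s ∧ |v.2 - c0.2| ≤ s) ∧ ¬ (|v.1| < 2 * ((L * m : ℕ) : ℤ) ∧ |v.2| < m)

theorem i1_bdB {v : Vtx} (hv : i1V L m s c0 v) (ho : ¬ i1O c0 s v) : v ∈ bdB c0 s := by
  obtain ⟨⟨h1, h2⟩, -⟩ := hv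
  refine ⟨h1, h2, ?_⟩
  by_contra hc
  push Not at hc
  exact ho ⟨lt_of_le_of_ne h1 hc.1, lt_of_le_of_ne h2 hc.2⟩

/-- The exterior part is far from the inner part. -/
theorem i1_ER (h : InD L M1 M2 B P1 P2 r m s γ c0) {t : ℤ} (ht : 4 * t ≤ r) {v w : Vtx}
    (hv : v ∈ bdB c0 s) (hw1 : |w.1| ≤ ((L * m : ℕ) : ℤ) + 2 * (m / M1 : ℕ)) (hw2 : |w.2| ≤ m)
    (hvw : Nr t v w) : False := by
  have hn := i1_num h
  have hr := hn.r1
  have a1 := hn.a1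
  have a2 := hn.a2
  have a3 := hn.a3
  have a4 := hn.a4
  have a5 := hn.a5
  generalize m / M1 = ρ at *
  generalize L * m = LM at *
  obtain ⟨-, -, hb⟩ := hv
  obtain ⟨n1, n2⟩ := hvw
  rw [abs_le] at n1 n2 hw1 hw2
  have b1 := neg_abs_le c0.1
  have b2 := le_abs_self c0.1
  have b3 := neg_abs_le c0.2
  have b4 := le_abs_self c0.2
  rcases hb with hb | hb
  · rcases abs_choice (v.1 - c0.1) with h2 | h2 <;> rw [h2] at hb <;> omega
  · rcases abs_choice (v.2 - c0.2) with h2 | h2 <;> rw [h2] at hb <;> omega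

/-- Case exterior / corridor. -/
theorem i1_EV (h : InD L M1 M2 B P1 P2 r m s γ c0)
    (h1 : I1H L M2 B r m s (m / M1) (P2 * r) γ c0 d k σ k1 Q1 E1 R1)
    (h3 : I1H L M2 B r m s (m / M1) (P2 * r) γ c0 d' k' σ' k2 Q3 E3 R3)
    (hx : I1X r m s (m / M1) (P1 * r) c0 σ k1 σ' k2 Q1 Q3 E1 R1 E3 R3) {t : ℤ} (ht : 4 * t ≤ r)
    {v w : Vtx} (hv : v ∈ E1) (hvV : i1V L m s c0 v) (hw : w ∈ VQ r Q3) (hvw : Nr t v w) :
    False := by
  have hn := i1_num h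
  have hr := hn.r1
  have a6 := hn.a6
  have hvb := i1_bdB hvV (h1.oE v hv)
  obtain ⟨w', hw', n3, n4⟩ := i1_F2 h h3.cor (t := t) (by omega) hvb hw hvw
  obtain ⟨n1, n2⟩ := hvw
  refine hx.e1 v hv w' (h3.cE hw') hvb (i1_cell_bd hn h3.k0 hw') ?_
  rw [abs_le] at n1 n2 n3 n4
  constructor <;> rw [abs_le] <;> omega

/-- Case corridor / inner part. -/
theorem i1_VR (h : InD L M1 M2 B P1 P2 r m s γ c0)
    (h1 : I1H L M2 B r m s (m / M1) (P2 * r) γ c0 d k σ k1 Q1 E1 R1)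
    (h3 : I1H L M2 B r m s (m / M1) (P2 * r) γ c0 d' k' σ' k2 Q3 E3 R3)
    (hx : I1X r m s (m / M1) (P1 * r) c0 σ k1 σ' k2 Q1 Q3 E1 R1 E3 R3) {t : ℤ} (ht : 4 * t ≤ r)
    {v w : Vtx} (hv : v ∈ VQ r Q1) (hw : w ∈ R3) (hwV : i1V L m s c0 w) (hvw : Nr t v w) :
    False := by
  have hn := i1_num h
  have a1 := hn.a1
  have a2 := hn.a2
  have a3 := hn.a3
  have hr := hn.r1
  obtain ⟨i1, i2⟩ := h3.iR w hw
  have hw2 : |w.2| = m := by
    by_contra hc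
    exact hwV.2 ⟨by omega, lt_of_le_of_ne i2 hc⟩
  exact hx.r3 w hw (i1_F4 h h1.cor ht hv i1 hw2 (i1_Nr_symm hvw))

/-- The two clusters are far from each other along the random edges. -/
theorem i1_far (h : InD L M1 M2 B P1 P2 r m s γ c0)
    (h1 : I1H L M2 B r m s (m / M1) (P2 * r) γ c0 d k σ k1 Q1 E1 R1)
    (h3 : I1H L M2 B r m s (m / M1) (P2 * r) γ c0 d' k' σ' k2 Q3 E3 R3)
    (hx : I1X r m s (m / M1) (P1 * r) c0 σ k1 σ' k2 Q1 Q3 E1 R1 E3 R3) {t : ℤ} (ht : 4 * t ≤ r)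
    {v w : Vtx} (hv : v ∈ E1 ∨ v ∈ VQ r Q1 ∨ v ∈ R1) (hw : w ∈ E3 ∨ w ∈ VQ r Q3 ∨ w ∈ R3)
    (hvV : i1V L m s c0 v) (hwV : i1V L m s c0 w) (hvw : Nr t v w) : False := by
  have hn := i1_num h
  have a1 := hn.a1
  have a2 := hn.a2
  have a3 := hn.a3
  have a6 := hn.a6
  have hr := hn.r1
  have hwv := i1_Nr_symm hvw
  rcases hv with hv | hv | hv <;> rcases hw with hw | hw | hw
  · refine hx.e1 v hv w hw (i1_bdB hvV (h1.oE v hv)) (i1_bdB hwV (h3.oE w hw)) ?_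
    obtain ⟨n1, n2⟩ := hvw
    exact ⟨by omega, by omega⟩
  · exact i1_EV h h1 h3 hx ht hv hvV hw hvw
  · exact i1_ER h ht (i1_bdB hvV (h1.oE v hv)) (h3.iR w hw).1 (h3.iR w hw).2 hvw
  · exact i1_EV h h3 h1 hx.symm ht hw hwV hv hwv
  · obtain ⟨n1, n2⟩ := hvw
    rcases VQ_dist hr hx.q hv hw with h4 | h4 <;> omega
  · exact i1_VR h h1 h3 hx ht hv hw hwV hvw
  · exact i1_ER h ht (i1_bdB hwV (h3.oE w hw)) (h1.iR v hv).1 (h1.iR v hv).2 hwv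
  · exact i1_VR h h3 h1 hx.symm ht hw hv hvV hwv
  · obtain ⟨i1, i2⟩ := h1.iR v hv
    obtain ⟨i3, i4⟩ := h3.iR w hw
    obtain ⟨n1, n2⟩ := hvw
    have hv2 : |v.2| = m := by
      by_contra hc
      exact hvV.2 ⟨by omega, lt_of_le_of_ne i2 hc⟩
    have hw2 : |w.2| = m := by
      by_contra hc
      exact hwV.2 ⟨by omega, lt_of_le_of_ne i4 hc⟩
    have hvw2 : w.2 = v.2 := by
      rw [abs_le] at n2
      rcases abs_choice v.2 with c1 | c1 <;> rcases abs_choice w.2 with c2 | c2 <;> omega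
    have := hx.rr v hv w hw hv2 hvw2
    omega

end far

/-! ### Edges -/

theorem i1_mem_boI {c : ℤ × ℤ} {s : ℕ} {g : Edg} : g ∈ boI c s ↔
    g ∈ blk c s ∧ Tch {v : Vtx | |v.1 - c.1| < s ∧ |v.2 - c.2| < s} g := by
  classical
  unfold boI
  rw [Finset.mem_filter]

/-- An edge with an end in the open block is in `boI`. -/
theorem i1_open_boI {c0 : ℤ × ℤ} {s : ℕ} {g : Edg} (h : i1O c0 s (src g) ∨ i1O c0 s (tgt g)) :
    g ∈ boI c0 s := by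
  rw [i1_mem_boI]
  refine ⟨?_, h⟩
  unfold blk
  unfold i1O at h
  obtain ⟨x, y, _ | _⟩ := g
  · rw [mem_RE_false]
    simp only [src_mk, tgt_false, abs_lt] at h
    omega
  · rw [mem_RE_true]
    simp only [src_mk, tgt_true, abs_lt] at h
    omega

theorem i1_adj_ends {F : Set Edg} {x y : Vtx} (h : GAdj src tgt F x y) :
    ∃ g ∈ F, (src g = x ∨ tgt g = x) ∧ (src g = y ∨ tgt g = y) ∧
      ((src g = x ∧ tgt g = y) ∨ (src g = y ∧ tgt g = x)) := by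
  obtain ⟨g, hg, h1 | h1⟩ := h
  · exact ⟨g, hg, Or.inl h1.1, Or.inr h1.2, Or.inl h1⟩
  · exact ⟨g, hg, Or.inr h1.2, Or.inl h1.1, Or.inr h1⟩

/-- Ends of the random edges. -/
theorem i1_VD {L m s : ℕ} {c0 : ℤ × ℤ} {QV : Finset Edg} {v : Vtx}
    (hv : v ∈ VD src tgt (↑(boI c0 s \ (SR L m ∪ QV)) : Set Edg)) : i1V L m s c0 v := by
  obtain ⟨g, hg, hgv⟩ := hv
  rw [Finset.mem_coe, Finset.mem_sdiff, Finset.mem_union, not_or, i1_mem_boI] at hg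
  obtain ⟨⟨h1, -⟩, h2, -⟩ := hg
  have e : ((2 * L * m : ℕ) : ℤ) = 2 * ((L * m : ℕ) : ℤ) := by push_cast; ring
  unfold SR at h2
  rw [e] at h2
  unfold blk at h1
  unfold i1V
  rw [abs_le, abs_le, abs_lt, abs_lt]
  generalize ((L * m : ℕ) : ℤ) = LM at *
  obtain ⟨x, y, _ | _⟩ := g
  · rw [mem_RE_false] at h1 h2
    simp only [src_mk, tgt_false] at hgv
    rcases hgv with rfl | rfl
    · simp only; omega
    · simp only; omega
  · rw [mem_RE_true] at h1 h2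
    simp only [src_mk, tgt_true] at hgv
    rcases hgv with rfl | rfl
    · simp only; omega
    · simp only; omega

/-- Ends of the edges of the thin box. -/
theorem i1_SR_ends {L m : ℕ} {g : Edg} (hg : g ∈ SR L m) {v : Vtx}
    (hv : src g = v ∨ tgt g = v) : |v.1| ≤ 2 * ((L * m : ℕ) : ℤ) ∧ |v.2| ≤ m := by
  have e : ((2 * L * m : ℕ) : ℤ) = 2 * ((L * m : ℕ) : ℤ) := by push_cast; ring
  unfold SR at hg
  rw [e] at hg
  rw [abs_le, abs_le]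
  generalize ((L * m : ℕ) : ℤ) = LM at *
  obtain ⟨x, y, _ | _⟩ := g
  · rw [mem_RE_false] at hg
    simp only [src_mk, tgt_false] at hv
    rcases hv with rfl | rfl
    · simp only; omega
    · simp only; omega
  · rw [mem_RE_true] at hg
    simp only [src_mk, tgt_true] at hv
    rcases hv with rfl | rfl
    · simp only; omega
    · simp only; omega

/-- The exterior clusters stay outside the open block. -/
theorem i1_E_out {s : ℕ} {c0 : ℤ × ℤ} {X : Set Vtx} (hX : ∀ x ∈ X, ¬ i1O c0 s x) {F : Set Edg} :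
    ∀ v ∈ Cl src tgt X (F \ ↑(boI c0 s)), ¬ i1O c0 s v := by
  rintro v ⟨u, hu, huv⟩
  induction huv with
  | refl => exact hX u hu
  | @tail x y _ hs _ =>
    intro ho
    obtain ⟨g, hg, -, hgy, -⟩ := i1_adj_ends hs
    apply hg.2
    rw [Finset.mem_coe]
    apply i1_open_boI
    rcases hgy with h | h
    · left; rw [h]; exact ho
    · right; rw [h]; exact ho

section closed

variable {L M1 M2 B P1 P2 r m s : ℕ} {γ c0 : ℤ × ℤ} {d d' : Dir} {k k' : ℤ} {σ σ' : Bool}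
  {k1 k2 : ℤ} {Q1 Q3 : Finset (ℤ × ℤ)} {E1 R1 E3 R3 : Set Vtx}

/-- The set `E1 ∪ VQ Q1 ∪ R1` is closed. -/
theorem i1_closed (h : InD L M1 M2 B P1 P2 r m s γ c0)
    (h1 : I1H L M2 B r m s (m / M1) (P2 * r) γ c0 d k σ k1 Q1 E1 R1)
    (h3 : I1H L M2 B r m s (m / M1) (P2 * r) γ c0 d' k' σ' k2 Q3 E3 R3)
    (hx : I1X r m s (m / M1) (P1 * r) c0 σ k1 σ' k2 Q1 Q3 E1 R1 E3 R3)
    {S F QV : Finset Edg} {e : Edg} (hQV : QV = QE r Q1 ∪ QE r Q3)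
    (hE : ∀ x ∈ E1, ∀ y, GAdj src tgt ((↑F : Set Edg) \ ↑(boI c0 s)) x y → y ∈ E1)
    (hR : ∀ x ∈ R1, ∀ y, GAdj src tgt ((↑(F ∩ SR L m) : Set Edg) \ {e}) x y → y ∈ R1)
    {x y : Vtx} (hx1 : x ∈ E1 ∨ x ∈ VQ r Q1 ∨ x ∈ R1)
    (hxy : GAdj src tgt (((↑(F ∩ (((S \ boI c0 s) ∪ SR L m) \ QV)) : Set Edg) ∪ ↑QV) \ {e}) x y) :
    y ∈ E1 ∨ y ∈ VQ r Q1 ∨ y ∈ R1 := by
  have hn := i1_num h
  have hr := hn.r1
  have a1 := hn.a1
  have a2 := hn.a2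
  have a3 := hn.a3
  obtain ⟨g, ⟨hg, hge⟩, hgx, hgy, hcase⟩ := i1_adj_ends hxy
  rcases hg with hg | hg
  · rw [Finset.mem_coe, Finset.mem_inter, Finset.mem_sdiff, Finset.mem_union,
      Finset.mem_sdiff] at hg
    obtain ⟨hgF, hg2, -⟩ := hg
    rcases hg2 with ⟨-, hg2⟩ | hg2
    · -- exterior edge
      have hadj : GAdj src tgt ((↑F : Set Edg) \ ↑(boI c0 s)) x y := ⟨g, ⟨hgF, hg2⟩, hcase⟩
      have hxo : ¬ i1O c0 s x := by
        intro ho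
        apply hg2
        apply i1_open_boI
        rcases hgx with h4 | h4
        · left; rw [h4]; exact ho
        · right; rw [h4]; exact ho
      rcases hx1 with hx1 | hx1 | hx1
      · exact Or.inl (hE x hx1 y hadj)
      · exact Or.inl (hE x (h1.cE (i1_F1 h h1.cor h1.k0 hx1 hxo)) y hadj)
      · exfalso
        obtain ⟨i1, i2⟩ := h1.iR x hx1
        exact hxo (i1_thin_open h (by omega) i2)
    · -- inner edge
      have hadj : GAdj src tgt ((↑(F ∩ SR L m) : Set Edg) \ {e}) x y :=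
        ⟨g, ⟨by rw [Finset.mem_coe, Finset.mem_inter]; exact ⟨hgF, hg2⟩, hge⟩, hcase⟩
      obtain ⟨j1, j2⟩ := i1_SR_ends hg2 hgx
      rcases hx1 with hx1 | hx1 | hx1
      · exact absurd (i1_thin_open h j1 j2) (h1.oE x hx1)
      · exact Or.inr (Or.inr (hR x (h1.cR (i1_F3 h h1.cor hx1 j1 j2)) y hadj))
      · exact Or.inr (Or.inr (hR x hx1 y hadj))
  · rw [hQV, Finset.mem_coe, Finset.mem_union] at hg
    rcases hg with hg | hg
    · obtain ⟨j1, j2⟩ := QE_ends hg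
      right; left
      rcases hgy with h4 | h4
      · rw [← h4]; exact j1
      · rw [← h4]; exact j2
    · exfalso
      obtain ⟨j1, j2⟩ := QE_ends hg
      refine i1_dis h h1 h3 hx hx1 (Or.inr (Or.inl ?_))
      rcases hgx with h4 | h4
      · rw [← h4]; exact j1
      · rw [← h4]; exact j2

end closed

/-- The inner cell is in the corridor. -/
theorem i1_icell_VQ {L M2 B r m : ℕ} {γ : ℤ × ℤ} {d : Dir} {k : ℤ} {σ : Bool} {k1 : ℤ}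
    {Q : Finset (ℤ × ℤ)} (hm : m = M2 * r) (hc : CorX L M2 B γ d k σ k1 Q) :
    cell σ m (2 * r * k1) r ⊆ VQ r Q := by
  have hm' : (m:ℤ) = r * M2 := by rw [hm]; push_cast; ring
  have e8 : (r:ℤ) * hz M2 σ = if σ then (m:ℤ) else -m - r := by
    unfold hz
    cases σ
    · simp only [Bool.false_eq_true, if_false]; rw [hm']; ring
    · simp only [if_true]; rw [hm']
  have e9 : (r:ℤ) * (2 * k1 - 1) = 2 * (r * k1) - r := by ring
  have e10 : (r:ℤ) * (2 * k1) = 2 * (r * k1) := by ring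
  have e7 : (2:ℤ) * r * k1 = 2 * (r * k1) := by ring
  intro v hv
  rw [mem_cell, e7] at hv
  unfold sy at hv
  rcases le_total v.1 (2 * (r * k1)) with h1 | h1
  · refine ⟨_, hc.cl1, ?_⟩
    simp only [inR, e8, e9]
    cases σ
    · simp only [Bool.false_eq_true, if_false] at hv ⊢; omega
    · simp only [if_true] at hv ⊢; omega
  · refine ⟨_, hc.cl2, ?_⟩
    simp only [inR, e8, e10]
    cases σ
    · simp only [Bool.false_eq_true, if_false] at hv ⊢; omega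
    · simp only [if_true] at hv ⊢; omega

/-- The middle edge is not in the corridors. -/
theorem i1_e_QE {L M1 M2 B P1 P2 r m s : ℕ} {γ c0 : ℤ × ℤ}
    (h : InD L M1 M2 B P1 P2 r m s γ c0) {d : Dir} {k : ℤ} {σ : Bool} {k1 : ℤ}
    {Q : Finset (ℤ × ℤ)} (hc : CorX L M2 B γ d k σ k1 Q) {e : Edg} (he : e ∈ boxE (m / 4)) :
    e ∉ QE r Q := by
  intro hcon
  have hn := i1_num h
  have hr := hn.r1
  have a1 := hn.a1
  have a2 := hn.a2
  have a3 := hn.a3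
  obtain ⟨⟨s1, s2⟩, -⟩ := ends_box he
  have hv := (QE_ends hcon).1
  have h4 := i1_F3 h hc hv (by omega) (by omega)
  rw [mem_cell] at h4
  have h5 := h4.1
  unfold sy at h5
  rw [abs_le] at s2
  cases σ
  · simp only [Bool.false_eq_true, if_false] at h5; omega
  · simp only [if_true] at h5; omega

/-- The statement with the cells attached to the corridors `Q1`, `Q3`. -/
theorem i1_main {L M1 M2 B P1 P2 r m s l : ℕ} {γ c0 : ℤ × ℤ}
    (h : InD L M1 M2 B P1 P2 r m s γ c0) (hl : 1 ≤ l) (hlr : 16 * l ≤ r)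
    {S : Finset Edg} {I J : Set Vtx} (hI : FarS (I ∪ J) c0 (2 * s))
    {d d' : Dir} {k k' : ℤ} {σ σ' : Bool} {k1 k2 : ℤ} {Q1 Q3 : Finset (ℤ × ℤ)}
    (hsep : SepQ Q1 Q3) (hc1 : CorX L M2 B γ d k σ k1 Q1) (hc3 : CorX L M2 B γ d' k' σ' k2 Q3)
    {QV : Finset Edg} (hQV : QV = QE r (Q1 ∪ Q3)) {e : Edg} (he : e ∈ boxE (m / 4))
    {F : Finset Edg} (hF : F ⊆ S)
    (hE : ESev I J c0 s r (P1 * r) (P2 * r) d k d' k' ((↑F : Set Edg) \ ↑(boI c0 s)))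
    {a b : Vtx} (hab : (src e = a ∧ tgt e = b) ∨ (src e = b ∧ tgt e = a))
    (hca : ∃ u ∈ cell σ m (2 * r * k1) r, Reach ((↑(F ∩ SR L m) : Set Edg) \ {e}) a u)
    (hcb : ∃ u ∈ cell σ' m (2 * r * k2) r, Reach ((↑(F ∩ SR L m) : Set Edg) \ {e}) b u)
    (hs13 : ∀ u ∈ cell σ m (2 * r * k1) r, ∀ w ∈ cell σ' m (2 * r * k2) (2 * (m / M1)),
      ¬ Reach ((↑(F ∩ SR L m) : Set Edg) \ {e}) u w)
    (hs31 : ∀ u ∈ cell σ' m (2 * r * k2) r, ∀ w ∈ cell σ m (2 * r * k1) (2 * (m / M1)),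
      ¬ Reach ((↑(F ∩ SR L m) : Set Edg) \ {e}) u w)
    (hs2 : ∀ u ∈ cell σ m (2 * r * k1) r, ∀ u' ∈ cell σ' m (2 * r * k2) r, ∀ v v' : Vtx,
      Reach ((↑(F ∩ SR L m) : Set Edg) \ {e}) u v →
      Reach ((↑(F ∩ SR L m) : Set Edg) \ {e}) u' v' → |v.2| = m → v'.2 = v.2 →
      ((m / M1 : ℕ):ℤ) < |v.1 - v'.1|)
    (hs3 : ∀ u ∈ cell σ m (2 * r * k1) r ∪ cell σ' m (2 * r * k2) r, ∀ v : Vtx,
      Reach ((↑(F ∩ SR L m) : Set Edg) \ {e}) u v → |v.1| ≤ (L * m : ℕ) + 2 * (m / M1 : ℕ)) :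
    Cn I J (insert e ((↑(F ∩ (((S \ boI c0 s) ∪ SR L m) \ QV)) : Set Edg) ∪ ↑QV)) ∧
      ¬ Cn I J (((↑(F ∩ (((S \ boI c0 s) ∪ SR L m) \ QV)) : Set Edg) ∪ ↑QV) \ {e}) ∧
      NFar src tgt I J e (↑(boI c0 s \ (SR L m ∪ QV)) : Set Edg) (Nr (4 * l))
        ((↑(F ∩ (((S \ boI c0 s) ∪ SR L m) \ QV)) : Set Edg) ∪ ↑QV) ∧
      ∀ g ∈ QV, src g ∈ Cl src tgt I
          (((↑(F ∩ (((S \ boI c0 s) ∪ SR L m) \ QV)) : Set Edg) ∪ ↑QV) \ {e}) ∨
        src g ∈ Cl src tgt J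
          (((↑(F ∩ (((S \ boI c0 s) ∪ SR L m) \ QV)) : Set Edg) ∪ ↑QV) \ {e}) := by
  have hn := i1_num h
  have hr := hn.r1
  have a1 := hn.a1
  have a2 := hn.a2
  have a3 := hn.a3
  have a8 := hn.a8
  have a7 := hn.a7
  obtain ⟨⟨hk, hk'⟩, ⟨u1, hu1, hu1I⟩, ⟨u3, hu3, hu3J⟩, hfar, hno⟩ := hE
  have hQV' : QV = QE r Q1 ∪ QE r Q3 := by rw [hQV, QE_union]
  have hpc : ((P2 * r : ℕ) : ℤ) = (P2 * r : ℕ) := rfl
  -- the sets
  let Fe : Set Edg := (↑F : Set Edg) \ ↑(boI c0 s)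
  let Fi : Set Edg := (↑(F ∩ SR L m) : Set Edg) \ {e}
  let G : Set Edg := ((↑(F ∩ (((S \ boI c0 s) ∪ SR L m) \ QV)) : Set Edg) ∪ ↑QV) \ {e}
  let E1 : Set Vtx := Cl src tgt (I ∪ cellB c0 s r d k) Fe
  let E3 : Set Vtx := Cl src tgt (J ∪ cellB c0 s r d' k') Fe
  let R1 : Set Vtx := {v | ∃ u ∈ cell σ m (2 * r * k1) r, Reach Fi u v}
  let R3 : Set Vtx := {v | ∃ u ∈ cell σ' m (2 * r * k2) r, Reach Fi u v}
  have hsub : (F ∩ SR L m : Finset Edg) ⊆ SR L m := Finset.inter_subset_right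
  have hFi : Fi ⊆ ↑(RE (-(2 * L * m : ℕ)) (2 * L * m : ℕ) (-m) m) := by
    rintro x ⟨hx, -⟩
    exact hsub hx
  have hIo : ∀ x ∈ I ∪ J, ¬ i1O c0 s x := by
    rintro x hx ⟨h4, h5⟩
    rcases hI x hx with h6 | h6 <;> push_cast at h6 <;> omega
  have hbo : ∀ x ∈ bdB c0 s, ¬ i1O c0 s x := by
    rintro x ⟨-, -, h4⟩ ⟨h5, h6⟩
    omega
  have hcb1 : ∀ x ∈ cellB c0 s r d k, x ∈ bdB c0 s := fun x hx => i1_cell_bd hn hk hx
  have hcb3 : ∀ x ∈ cellB c0 s r d' k', x ∈ bdB c0 s := fun x hx => i1_cell_bd hn hk' hx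
  have hc8 : (r : ℤ) ≤ 2 * ((m / M1 : ℕ) : ℤ) := by omega
  -- halves
  have H1 : I1H L M2 B r m s (m / M1) (P2 * r) γ c0 d k σ k1 Q1 E1 R1 := by
    refine ⟨hc1, hk, fun x hx => ⟨x, Or.inr hx, GR.refl _ _⟩, fun x hx => ⟨x, hx, Reach.refl _ _⟩,
      i1_E_out ?_, ?_⟩
    · rintro x (hx | hx)
      · exact hIo x (Or.inl hx)
      · exact hbo x (hcb1 x hx)
    · rintro x ⟨u, hu, hux⟩
      refine ⟨hs3 u (Or.inl hu) x hux, ?_⟩
      rw [abs_le]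
      refine reach_strip hFi ?_ hux
      rw [mem_cell] at hu
      rw [hu.1]
      unfold sy
      cases σ
      · simp only [Bool.false_eq_true, if_false]; omega
      · simp only [if_true]; omega
  have H3 : I1H L M2 B r m s (m / M1) (P2 * r) γ c0 d' k' σ' k2 Q3 E3 R3 := by
    refine ⟨hc3, hk', fun x hx => ⟨x, Or.inr hx, GR.refl _ _⟩, fun x hx => ⟨x, hx, Reach.refl _ _⟩,
      i1_E_out ?_, ?_⟩
    · rintro x (hx | hx)
      · exact hIo x (Or.inr hx)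
      · exact hbo x (hcb3 x hx)
    · rintro x ⟨u, hu, hux⟩
      refine ⟨hs3 u (Or.inr hu) x hux, ?_⟩
      rw [abs_le]
      refine reach_strip hFi ?_ hux
      rw [mem_cell] at hu
      rw [hu.1]
      unfold sy
      cases σ'
      · simp only [Bool.false_eq_true, if_false]; omega
      · simp only [if_true]; omega
  -- separation
  have HX : I1X r m s (m / M1) (P1 * r) c0 σ k1 σ' k2 Q1 Q3 E1 R1 E3 R3 := by
    refine ⟨hsep, ?_, ?_, ?_, ?_, ?_, ?_⟩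
    · rintro x hx1 hx3
      have hx1' := hx1
      have hx3' := hx3
      obtain ⟨u, hu, hux⟩ := hx1
      obtain ⟨w, hw, hwx⟩ := hx3
      have hself : ∀ y, y ∈ E1 → y ∈ E3 → y ∈ bdB c0 s → False := by
        intro y h4 h5 h6
        refine hfar y h4 y h5 h6 h6 ⟨?_, ?_⟩ <;> rw [sub_self, abs_zero] <;> positivity
      rcases hw with hw | hw
      · rcases hu with hu | hu
        · exact hno ⟨u, hu, w, hw, hux.trans hwx.symm⟩
        · exact hself u ⟨u, Or.inr hu, GR.refl _ _⟩ ⟨w, Or.inl hw, hwx.trans hux.symm⟩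
            (hcb1 u hu)
      · exact hself w ⟨u, hu, hux.trans hwx.symm⟩ ⟨w, Or.inr hw, GR.refl _ _⟩ (hcb3 w hw)
    · exact hfar
    · rintro x ⟨u, hu, hux⟩ ⟨w, hw, hwx⟩
      exact hs13 u hu w (i1_cell_sub (by omega) hw) (hux.trans hwx.symm)
    · rintro x ⟨u, hu, hux⟩ hx
      exact hs13 u hu x hx hux
    · rintro x ⟨u, hu, hux⟩ hx
      exact hs31 u hu x hx hux
    · rintro v ⟨u, hu, huv⟩ v' ⟨u', hu', huv'⟩ h4 h5
      exact hs2 u hu u' hu' v v' huv huv' h4 h5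
  -- closedness
  have hE1 : ∀ x ∈ E1, ∀ y, GAdj src tgt Fe x y → y ∈ E1 := fun x hx y hxy => uf_cl_step hx hxy
  have hE3 : ∀ x ∈ E3, ∀ y, GAdj src tgt Fe x y → y ∈ E3 := fun x hx y hxy => uf_cl_step hx hxy
  have hR1 : ∀ x ∈ R1, ∀ y, GAdj src tgt Fi x y → y ∈ R1 := by
    rintro x ⟨u, hu, hux⟩ y hxy
    exact ⟨u, hu, hux.trans hxy.gr⟩
  have hR3 : ∀ x ∈ R3, ∀ y, GAdj src tgt Fi x y → y ∈ R3 := by
    rintro x ⟨u, hu, hux⟩ y hxy
    exact ⟨u, hu, hux.trans hxy.gr⟩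
  have clI : ∀ v ∈ Cl src tgt I G, v ∈ E1 ∨ v ∈ VQ r Q1 ∨ v ∈ R1 := by
    rintro v ⟨u, hu, huv⟩
    induction huv with
    | refl => exact Or.inl ⟨u, Or.inl hu, GR.refl _ _⟩
    | @tail x y _ hs ih => exact i1_closed h H1 H3 HX hQV' hE1 hR1 ih hs
  have clJ : ∀ v ∈ Cl src tgt J G, v ∈ E3 ∨ v ∈ VQ r Q3 ∨ v ∈ R3 := by
    rintro v ⟨u, hu, huv⟩
    induction huv with
    | refl => exact Or.inl ⟨u, Or.inl hu, GR.refl _ _⟩
    | @tail x y _ hs ih =>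
      exact i1_closed h H3 H1 HX.symm (by rw [hQV', Finset.union_comm]) hE3 hR3 ih hs
  -- inclusions in `G`
  have heQ : e ∉ QV := by
    rw [hQV', Finset.mem_union, not_or]
    exact ⟨i1_e_QE h hc1 he, i1_e_QE h hc3 he⟩
  have heB : e ∈ boI c0 s := by
    apply i1_open_boI
    left
    obtain ⟨⟨s1, s2⟩, -⟩ := ends_box he
    exact i1_thin_open h (by omega) (by omega)
  have subQ : (↑QV : Set Edg) ⊆ G := by
    intro g hg
    refine ⟨Or.inr hg, ?_⟩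
    rintro rfl
    exact heQ hg
  have subQ1 : (↑(QE r Q1) : Set Edg) ⊆ G := by
    intro g hg
    apply subQ
    rw [hQV', Finset.mem_coe, Finset.mem_union]
    exact Or.inl hg
  have subQ3 : (↑(QE r Q3) : Set Edg) ⊆ G := by
    intro g hg
    apply subQ
    rw [hQV', Finset.mem_coe, Finset.mem_union]
    exact Or.inr hg
  have subE : Fe ⊆ G := by
    rintro g ⟨hg1, hg2⟩
    refine ⟨?_, ?_⟩
    · by_cases hgQ : g ∈ QV
      · exact Or.inr hgQ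
      · left
        rw [Finset.mem_coe, Finset.mem_inter, Finset.mem_sdiff, Finset.mem_union,
          Finset.mem_sdiff]
        exact ⟨hg1, Or.inl ⟨hF hg1, hg2⟩, hgQ⟩
    · rintro rfl
      exact hg2 heB
  have subI : Fi ⊆ G := by
    rintro g ⟨hg1, hg2⟩
    rw [Finset.mem_coe, Finset.mem_inter] at hg1
    refine ⟨?_, hg2⟩
    by_cases hgQ : g ∈ QV
    · exact Or.inr hgQ
    · left
      rw [Finset.mem_coe, Finset.mem_inter, Finset.mem_sdiff, Finset.mem_union]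
      exact ⟨hg1.1, Or.inr hg1.2, hgQ⟩
  -- clusters of the corridors
  have hu1Q : u1 ∈ VQ r Q1 := i1_cell_VQ h.hs h.c1 h.c2 hc1.mo hu1
  have hu3Q : u3 ∈ VQ r Q3 := i1_cell_VQ h.hs h.c1 h.c2 hc3.mo hu3
  have cl1 : ∀ v ∈ VQ r Q1, v ∈ Cl src tgt I G := by
    intro v hv
    exact uf_cl_gr (uf_cl_mono subE hu1I) ((hc1.con r hr u1 hu1Q v hv).mono subQ1)
  have cl3 : ∀ v ∈ VQ r Q3, v ∈ Cl src tgt J G := by
    intro v hv
    exact uf_cl_gr (uf_cl_mono subE hu3J) ((hc3.con r hr u3 hu3Q v hv).mono subQ3)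
  refine ⟨?_, ?_, ?_, ?_⟩
  · -- the connection
    obtain ⟨ua, hua, hra⟩ := hca
    obtain ⟨ub, hub, hrb⟩ := hcb
    obtain ⟨i, hi, hiu⟩ := cl1 ua (i1_icell_VQ h.hm hc1 hua)
    obtain ⟨j, hj, hju⟩ := cl3 ub (i1_icell_VQ h.hm hc3 hub)
    have hG : G ⊆ insert e ((↑(F ∩ (((S \ boI c0 s) ∪ SR L m) \ QV)) : Set Edg) ∪ ↑QV) :=
      fun g hg => Or.inr hg.1
    have w1 : Reach G i a := Reach.trans hiu (hra.mono subI).symm
    have w3 : Reach G b j := Reach.trans (hrb.mono subI) (Reach.symm hju)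
    refine ⟨i, hi, j, hj, (w1.mono hG).trans (Reach.trans ?_ (w3.mono hG))⟩
    exact Adj.reach ⟨e, Set.mem_insert _ _, hab⟩
  · rintro ⟨u, hu, v, hv, huv⟩
    have h4 := clI v ⟨u, hu, huv⟩
    exact i1_dis h H1 H3 HX h4 (Or.inl ⟨v, Or.inl hv, GR.refl _ _⟩)
  · intro v hv w hw hvD hwD hvw
    exact i1_far h H1 H3 HX (t := 4 * l) (by omega) (clI v hv) (clJ w hw) (i1_VD hvD) (i1_VD hwD)
      hvw
  · intro g hg
    rw [hQV', Finset.mem_union] at hg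
    rcases hg with hg | hg
    · exact Or.inl (cl1 _ (QE_ends hg).1)
    · exact Or.inr (cl3 _ (QE_ends hg).1)

theorem in1_det {L M1 M2 B P1 P2 r m s l : ℕ} {γ c0 : ℤ × ℤ}
    (h : InD L M1 M2 B P1 P2 r m s γ c0) (hl : 1 ≤ l) (hlr : 16 * l ≤ r)
    {S : Finset Edg} (_hS : blk c0 (2 * s) ⊆ S) {I J : Set Vtx} (hI : FarS (I ∪ J) c0 (2 * s))
    {d d' : Dir} {k k' : ℤ} {σ σ' : Bool} {k1 k2 : ℤ} {Q1 Q3 : Finset (ℤ × ℤ)}
    (hsep : SepQ Q1 Q3)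
    (hcor : (CorX L M2 B γ d k σ k1 Q1 ∧ CorX L M2 B γ d' k' σ' k2 Q3) ∨
        (CorX L M2 B γ d k σ' k2 Q1 ∧ CorX L M2 B γ d' k' σ k1 Q3))
    {QV : Finset Edg} (hQV : QV = QE r (Q1 ∪ Q3)) {e : Edg} (he : e ∈ boxE (m / 4))
    {F : Finset Edg} (hF : F ⊆ S)
    (hE : ESev I J c0 s r (P1 * r) (P2 * r) d k d' k' ((↑F : Set Edg) \ ↑(boI c0 s)))
    (hSv : Sev L m r (m / M1) σ (2 * r * k1) σ' (2 * r * k2) e (↑(F ∩ SR L m) : Set Edg)) :
    Cn I J (insert e ((↑(F ∩ (((S \ boI c0 s) ∪ SR L m) \ QV)) : Set Edg) ∪ ↑QV)) ∧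
      ¬ Cn I J (((↑(F ∩ (((S \ boI c0 s) ∪ SR L m) \ QV)) : Set Edg) ∪ ↑QV) \ {e}) ∧
      NFar src tgt I J e (↑(boI c0 s \ (SR L m ∪ QV)) : Set Edg) (Nr (4 * l))
        ((↑(F ∩ (((S \ boI c0 s) ∪ SR L m) \ QV)) : Set Edg) ∪ ↑QV) ∧
      ∀ g ∈ QV, src g ∈ Cl src tgt I
          (((↑(F ∩ (((S \ boI c0 s) ∪ SR L m) \ QV)) : Set Edg) ∪ ↑QV) \ {e}) ∨
        src g ∈ Cl src tgt J
          (((↑(F ∩ (((S \ boI c0 s) ∪ SR L m) \ QV)) : Set Edg) ∪ ↑QV) \ {e}) := by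
  obtain ⟨⟨q1, q2, q3, q4⟩, q5, q6⟩ := hSv
  rcases hcor with ⟨hc1, hc3⟩ | ⟨hc1, hc3⟩
  · exact i1_main h hl hlr hI hsep hc1 hc3 hQV he hF hE (Or.inl ⟨rfl, rfl⟩) q1 q2 q3 q4 q5 q6
  · refine i1_main h hl hlr hI hsep hc1 hc3 hQV he hF hE (Or.inr ⟨rfl, rfl⟩) q2 q1 q4 q3 ?_ ?_
    · intro u hu u' hu' v v' h1 h2 h3 h4
      rw [abs_sub_comm]
      exact q5 u' hu' u hu v' v h2 h1 (by rw [h4]; exact h3) h4.symm
    · intro u hu v huv
      exact q6 u hu.symm v huv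

end H12S
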