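import Pool.Agent.H12R2.Sep.In1D
import Pool.Agent.H12R2.Sep.In1

/-! First step of the inward gluing, complete. -/

namespace H12S

open H974 Finset

theorem in1_det' : In1Det := by
  intro L M1 M2 B P1 P2 r m s l γ c0 h hl hlr S hS I J hI d d' k k' σ σ' k1 k2 Q1 Q3 hsep hcor
    QV hQV e he F hF hE hSv
  exact in1_det h hl hlr hS hI hsep hcor hQV he hF hE hSv

theorem in1 (κ : ℝ) (hκ : 0 < κ) (L M1 M2 B P1 P2 : ℕ) : ∃ (Mr : ℕ) (c : ℝ), 1 ≤ Mr ∧ 0 < c ∧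
    ∀ (q : ℝ) (n : ℕ), Win q κ n → ∀ (r m s : ℕ) (γ c0 : ℤ × ℤ),
      InD L M1 M2 B P1 P2 r m s γ c0 → Mr ≤ r → s ≤ n →
      ∀ (S : Finset Edg) (I J : Set Vtx), blk c0 (2 * s) ⊆ S → FarS (I ∪ J) c0 (2 * s) →
      ∀ (d d' : Dir) (k k' : ℤ) (σ σ' : Bool) (k1 k2 : ℤ) (Q1 Q3 : Finset (ℤ × ℤ)), SepQ Q1 Q3 →
      ((CorX L M2 B γ d k σ k1 Q1 ∧ CorX L M2 B γ d' k' σ' k2 Q3) ∨
        (CorX L M2 B γ d k σ' k2 Q1 ∧ CorX L M2 B γ d' k' σ k1 Q3)) →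
      ∀ QV : Finset Edg, QV = QE r (Q1 ∪ Q3) → ∀ e ∈ boxE (m / 4),
      c * (PQ q S (fun F => ESev I J c0 s r (P1 * r) (P2 * r) d k d' k'
            ((↑F : Set Edg) \ ↑(boI c0 s))) *
          PQ q (SR L m) (fun F => Sev L m r (m / M1) σ (2 * r * k1) σ' (2 * r * k2) e ↑F)) ≤
        PQ q (S \ QV) (fun F => Z1 I J QV e ↑F) :=
  in1_of in1_det' κ hκ L M1 M2 B P1 P2

end H12S
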