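import Pool.Agent.H12R2.Sep.Loc

/-!
The local events are independent (task LP).
-/

set_option maxHeartbeats 400000

namespace H12S

open H974 Finset

theorem LP_src_trl (s t : ℤ) (e : Edg) : src ((trl s t).φ e) = (trl s t).ψ (src e) := by
  obtain ⟨x, y, b⟩ := e
  rfl

theorem LP_tgt_trl (s t : ℤ) (e : Edg) : tgt ((trl s t).φ e) = (trl s t).ψ (tgt e) := by
  obtain ⟨x, y, _ | _⟩ := e
  · rw [trl_φ, tgt_false, tgt_false, trl_ψ, Prod.mk.injEq]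
    exact ⟨rfl, by ring⟩
  · rw [trl_φ, tgt_true, tgt_true, trl_ψ, Prod.mk.injEq]
    exact ⟨by ring, rfl⟩

/-- Translation of the four-arm event. -/
theorem LP_A4_trl {a b c d s t : ℤ} {e : Edg} {F : Finset Edg}
    (h : A4 (a + s) (b + s) (c + t) (d + t) ((trl s t).φ e) ↑((trl s t).mp F)) :
    A4 a b c d e (↑F : Set Edg) := by
  have hset : ((↑((trl s t).mp F) : Set Edg) ∩ ↑(RE (a + s) (b + s) (c + t) (d + t))) \
      {(trl s t).φ e} = (trl s t).φ '' (((↑F : Set Edg) ∩ ↑(RE a b c d)) \ {e}) := by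
    rw [Set.image_sdiff (trl s t).φ.injective, LSym.image_inter, trl_RE, Set.image_singleton]
  have hb : ∀ w, w ∈ bdR (a + s) (b + s) (c + t) (d + t) →
      ∃ w0 ∈ bdR a b c d, (trl s t).ψ w0 = w := by
    rintro ⟨w1, w2⟩ ⟨hw, hw2⟩
    unfold inR at hw
    simp only at hw hw2
    refine ⟨(w1 - s, w2 - t), ⟨?_, ?_⟩, ?_⟩
    · unfold inR; simp only; omega
    · simp only; omega
    · rw [trl_ψ, sub_add_cancel, sub_add_cancel]
  unfold A4 at h ⊢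
  rw [hset, LP_src_trl, LP_tgt_trl, LSym.reach_iff] at h
  obtain ⟨⟨w, hw, h1⟩, ⟨w', hw', h2⟩, h3⟩ := h
  obtain ⟨w0, hw0, rfl⟩ := hb w hw
  obtain ⟨w0', hw0', rfl⟩ := hb w' hw'
  rw [LSym.reach_iff] at h1 h2
  exact ⟨⟨w0, hw0, h1⟩, ⟨w0', hw0', h2⟩, h3⟩

/-- The box of radius `k` around the edge `e`. -/
noncomputable def ebx (e : Edg) (k : ℕ) : Finset Edg :=
  RE (e.1 - k) (e.1 + k) (e.2.1 - k) (e.2.1 + k)

/-- The four-arm event around `e`. -/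
def A4e (k : ℕ) (e : Edg) (F : Set Edg) : Prop :=
  A4 (e.1 - k) (e.1 + k) (e.2.1 - k) (e.2.1 + k) e F

theorem mem_ebx {e : Edg} {k : ℕ} (hk : 1 ≤ k) : e ∈ ebx e k := by
  unfold ebx
  obtain ⟨x, y, _ | _⟩ := e
  · rw [mem_RE_false]; simp only; omega
  · rw [mem_RE_true]; simp only; omega

theorem ebx_sub {e : Edg} {k s : ℕ} {c : ℤ × ℤ} (h2 : |e.1 - c.1| + k ≤ s)
    (h3 : |e.2.1 - c.2| + k ≤ s) : ebx e k ⊆ blk c s := by
  have i1 := abs_le.mp (le_refl |e.1 - c.1|)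
  have i2 := abs_le.mp (le_refl |e.2.1 - c.2|)
  exact RE_subset (by omega) (by omega) (by omega) (by omega)

theorem A4e_local {k : ℕ} {e : Edg} {F G : Set Edg} (h : F ∩ ↑(ebx e k) = G ∩ ↑(ebx e k)) :
    A4e k e F ↔ A4e k e G := by
  unfold ebx at h
  unfold A4e A4
  rw [h]

theorem LP_a4_nonneg {q : ℝ} (h0 : 0 ≤ q) (h1 : q ≤ 1) (k : ℕ) : 0 ≤ a4 q k :=
  add_nonneg (Pr_nonneg (okq h0 h1) _ _) (Pr_nonneg (okq h0 h1) _ _)

theorem pr_A4e {q : ℝ} (h0 : 0 ≤ q) (h1 : q ≤ 1) {S : Finset Edg} {k : ℕ} {e : Edg}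
    (hS : ebx e k ⊆ S) : PQ q S (fun F => A4e k e ↑F) ≤ a4 q k := by
  have e1 : PQ q S (fun F => A4e k e ↑F) = PQ q (ebx e k) (fun F => A4e k e ↑F) := by
    apply Pr_local hS
    intro F _
    apply A4e_local
    rw [Finset.coe_inter, Set.inter_assoc, Set.inter_self]
  rw [e1]
  have e2 : ebx e k = (trl e.1 e.2.1).mp (boxE k) := by
    unfold ebx boxE
    rw [trl_RE]
    congr 1 <;> ring
  rw [e2]
  unfold PQ
  rw [LSym.pr]
  have e3 : Pr (fun _ => q) (boxE k) (fun F => A4e k e ↑((trl e.1 e.2.1).mp F)) ≤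
      Pr (fun _ => q) (boxE k) (fun F => A4 (-k) k (-k) k (e0 e.2.2) ↑F) := by
    apply Pr_mono (okq h0 h1)
    intro F _ hF
    apply LP_A4_trl (s := e.1) (t := e.2.1)
    unfold A4e at hF
    have f1 : (trl e.1 e.2.1).φ (e0 e.2.2) = e := by
      obtain ⟨x, y, b⟩ := e
      unfold e0
      rw [trl_φ, zero_add, zero_add]
    have f2 : -(k:ℤ) + e.1 = e.1 - k := by ring
    have f3 : (k:ℤ) + e.1 = e.1 + k := by ring
    have f4 : -(k:ℤ) + e.2.1 = e.2.1 - k := by ring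
    have f5 : (k:ℤ) + e.2.1 = e.2.1 + k := by ring
    rw [f1, f2, f3, f4, f5]
    exact hF
  refine e3.trans ?_
  unfold a4
  have n1 : 0 ≤ PQ q (boxE k) (fun F => A4 (-k) k (-k) k (e0 true) ↑F) :=
    Pr_nonneg (okq h0 h1) _ _
  have n2 : 0 ≤ PQ q (boxE k) (fun F => A4 (-k) k (-k) k (e0 false) ↑F) :=
    Pr_nonneg (okq h0 h1) _ _
  rcases e.2.2 with _ | _
  · change PQ q (boxE k) (fun F => A4 (-k) k (-k) k (e0 false) ↑F) ≤ _
    linarith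
  · change PQ q (boxE k) (fun F => A4 (-k) k (-k) k (e0 true) ↑F) ≤ _
    linarith

/-- Independence of the four-arm event around `e` and of an event on disjoint edges. -/
theorem pr_A4e_and {q : ℝ} (h0 : 0 ≤ q) (h1 : q ≤ 1) {S T : Finset Edg} {k : ℕ} {e : Edg}
    (hS : ebx e k ⊆ S) (hT : T ⊆ S) (hd : Disjoint (ebx e k) T) {B : Finset Edg → Prop}
    (hB : ∀ F, F ⊆ S → (B F ↔ B (F ∩ T))) :
    PQ q S (fun F => A4e k e ↑F ∧ B F) ≤ a4 q k * PQ q S B := by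
  have e1 : PQ q S (fun F => A4e k e ↑F ∧ B F) =
      PQ q S (fun F => A4e k e ↑F) * PQ q S B := by
    refine Pr_indep (A := fun F => A4e k e (↑F : Set Edg)) (B := B) hS hT hd ?_ hB
    intro F _
    apply A4e_local
    rw [Finset.coe_inter, Set.inter_assoc, Set.inter_self]
  rw [e1]
  exact mul_le_mul_of_nonneg_right (pr_A4e h0 h1 hS) (Pr_nonneg (okq h0 h1) _ _)

/-- `BPv` depends on the edges outside the block. -/
theorem BPv_local {I J : Set Vtx} {b S : Finset Edg} {O : Set Edg} (F : Finset Edg) (hF : F ⊆ S) :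
    BPv I J b (↑F ∪ O) ↔ BPv I J b (↑(F ∩ (S \ b)) ∪ O) := by
  have e1 : ((↑F : Set Edg) ∪ O) ∪ ↑b = ((↑(F ∩ (S \ b)) : Set Edg) ∪ O) ∪ ↑b := by
    ext x
    simp only [Finset.coe_inter, Finset.coe_sdiff, Set.mem_union, Set.mem_inter_iff,
      Set.mem_sdiff, Finset.mem_coe]
    have := @hF x
    tauto
  have e2 : ((↑F : Set Edg) ∪ O) \ ↑b = ((↑(F ∩ (S \ b)) : Set Edg) ∪ O) \ ↑b := by
    ext x
    simp only [Finset.coe_inter, Finset.coe_sdiff, Set.mem_union, Set.mem_inter_iff,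
      Set.mem_sdiff, Finset.mem_coe]
    have := @hF x
    tauto
  unfold BPv
  rw [e1, e2]

theorem ebx_out {I J : Set Vtx} {c : ℤ × ℤ} {s k : ℕ}
    (hIJ : ∀ v ∈ I ∪ J, ¬ (|v.1 - c.1| < s ∧ |v.2 - c.2| < s)) {e : Edg}
    (h2 : |e.1 - c.1| + k ≤ s) (h3 : |e.2.1 - c.2| + k ≤ s) :
    ∀ v ∈ I ∪ J, ¬ (e.1 - k < v.1 ∧ v.1 < e.1 + k ∧ e.2.1 - k < v.2 ∧ v.2 < e.2.1 + k) := by
  intro v hv h
  apply hIJ v hv
  have i1 := abs_le.mp (le_refl |e.1 - c.1|)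
  have i2 := abs_le.mp (le_refl |e.2.1 - c.2|)
  rw [abs_lt, abs_lt]
  omega

/-- One edge in a block. -/
theorem one_in_blk {q : ℝ} (h0 : 0 ≤ q) (h1 : q ≤ 1) {S : Finset Edg} {I J : Set Vtx}
    {O : Set Edg} {c : ℤ × ℤ} {s k : ℕ} (hk : 1 ≤ k) (hS : blk c s ⊆ S)
    (hO : Disjoint O ↑(blk c s))
    (hIJ : ∀ v ∈ I ∪ J, ¬ (|v.1 - c.1| < s ∧ |v.2 - c.2| < s)) {e : Edg}
    (h2 : |e.1 - c.1| + k ≤ s) (h3 : |e.2.1 - c.2| + k ≤ s) :
    PQ q S (fun F => Pv I J e (↑F ∪ O)) ≤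
      a4 q k * PQ q S (fun F => BPv I J (blk c s) (↑F ∪ O)) := by
  have hsub := ebx_sub h2 h3
  refine le_trans (Pr_mono (okq h0 h1) (B := fun F => A4e k e ↑F ∧
    BPv I J (blk c s) (↑F ∪ O)) ?_) (pr_A4e_and h0 h1 (hsub.trans hS)
    (T := S \ blk c s) Finset.sdiff_subset
    (Finset.disjoint_of_subset_left hsub Finset.disjoint_sdiff) (fun F hF => BPv_local F hF))
  intro F _ hF
  refine ⟨?_, pv_blk (hsub (mem_ebx hk)) hF⟩
  have h4 : A4e k e (↑F ∪ O) := loc_a4 (mem_ebx hk) (ebx_out hIJ h2 h3) hF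
  refine (A4e_local ?_).mp h4
  ext x
  constructor
  · rintro ⟨k1 | k1, k2⟩
    · exact ⟨k1, k2⟩
    · exact absurd (hsub (Finset.mem_coe.mp k2)) (fun h => Set.disjoint_left.mp hO k1
        (Finset.mem_coe.mpr h))
  · rintro ⟨k1, k2⟩
    exact ⟨Or.inl k1, k2⟩

theorem LP_inter_aux {F S b b' : Finset Edg} (hF : F ⊆ S) (hd : Disjoint b b') :
    (↑F : Set Edg) ∩ ↑b' = ↑(F ∩ (S \ b)) ∩ ↑b' := by
  ext x
  rw [Set.mem_inter_iff, Set.mem_inter_iff, Finset.mem_coe, Finset.mem_coe, Finset.mem_coe,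
    Finset.mem_inter, Finset.mem_sdiff]
  constructor
  · rintro ⟨h1, h2⟩
    exact ⟨⟨h1, hF h1, fun h => (Finset.disjoint_left.mp hd) h h2⟩, h2⟩
  · rintro ⟨⟨h1, -⟩, h2⟩
    exact ⟨h1, h2⟩

theorem LP_inter_aux2 {F S b B : Finset Edg} (hb : b ⊆ B) :
    F ∩ (S \ b) ∩ (S \ B) = F ∩ (S \ B) := by
  ext x
  rw [Finset.mem_inter, Finset.mem_inter, Finset.mem_inter, Finset.mem_sdiff, Finset.mem_sdiff]
  constructor
  · rintro ⟨⟨h1, -⟩, h2⟩
    exact ⟨h1, h2⟩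
  · rintro ⟨h1, h2, h3⟩
    exact ⟨⟨h1, h2, fun h => h3 (hb h)⟩, h2, h3⟩

/-- Two edges at distance `≥ 2k+2` in a block. -/
theorem two_in_blk {q : ℝ} (h0 : 0 ≤ q) (h1 : q ≤ 1) {S : Finset Edg} {I J : Set Vtx}
    {c : ℤ × ℤ} {s k : ℕ} (hk : 1 ≤ k) (hS : blk c s ⊆ S)
    (hIJ : ∀ v ∈ I ∪ J, ¬ (|v.1 - c.1| < s ∧ |v.2 - c.2| < s)) {e e' : Edg}
    (h2 : |e.1 - c.1| + k ≤ s) (h3 : |e.2.1 - c.2| + k ≤ s)
    (h4 : |e'.1 - c.1| + k ≤ s) (h5 : |e'.2.1 - c.2| + k ≤ s) (hd : 2 * (k:ℤ) + 2 ≤ edist e e') :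
    PQ q S (fun F => Flip I J e e' ↑F) ≤
      a4 q k ^ 2 * PQ q S (fun F => BPv I J (blk c s) ↑F) := by
  have hsub := ebx_sub h2 h3
  have hsub' := ebx_sub h4 h5
  have hdist : 2 * (k:ℤ) + 2 ≤ |e.1 - e'.1| ∨ 2 * (k:ℤ) + 2 ≤ |e.2.1 - e'.2.1| := by
    unfold edist at hd
    exact le_max_iff.mp hd
  have hdis : Disjoint (ebx e k) (ebx e' k) := by
    rw [Finset.disjoint_left]
    unfold ebx
    rintro ⟨x, y, _ | _⟩ g1 g2
    · rw [mem_RE_false] at g1 g2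
      rcases hdist with g | g
      · rw [le_abs] at g; omega
      · rw [le_abs] at g; omega
    · rw [mem_RE_true] at g1 g2
      rcases hdist with g | g
      · rw [le_abs] at g; omega
      · rw [le_abs] at g; omega
  have hne : e ≠ e' := by
    rintro rfl
    exact (Finset.disjoint_left.mp hdis) (mem_ebx hk) (mem_ebx hk)
  have hn1 : e' ∉ ebx e k := fun h => (Finset.disjoint_left.mp hdis) h (mem_ebx hk)
  have hn2 : e ∉ ebx e' k := fun h => (Finset.disjoint_left.mp hdis) (mem_ebx hk) h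
  have hBl : ∀ F, F ⊆ S → (BPv I J (blk c s) (↑F : Set Edg) ↔
      BPv I J (blk c s) (↑(F ∩ (S \ blk c s)) : Set Edg)) := by
    intro F hF
    have := BPv_local (I := I) (J := J) (b := blk c s) (O := ∅) F hF
    rwa [Set.union_empty, Set.union_empty] at this
  have s1 : PQ q S (fun F => Flip I J e e' ↑F) ≤
      PQ q S (fun F => A4e k e ↑F ∧ (A4e k e' ↑F ∧ BPv I J (blk c s) ↑F)) := by
    apply Pr_mono (okq h0 h1)
    intro F _ hF
    exact ⟨flip_1 hne (mem_ebx hk) hn1 (ebx_out hIJ h2 h3) hF,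
      flip_2 hne (mem_ebx hk) hn2 (ebx_out hIJ h4 h5) hF,
      flip_blk hne (hsub (mem_ebx hk)) (hsub' (mem_ebx hk)) hF⟩
  have s2 : PQ q S (fun F => A4e k e ↑F ∧ (A4e k e' ↑F ∧ BPv I J (blk c s) ↑F)) ≤
      a4 q k * PQ q S (fun F => A4e k e' ↑F ∧ BPv I J (blk c s) ↑F) := by
    refine pr_A4e_and h0 h1 (hsub.trans hS) (T := S \ ebx e k) Finset.sdiff_subset
      Finset.disjoint_sdiff (B := fun F => A4e k e' ↑F ∧ BPv I J (blk c s) ↑F) ?_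
    intro F hF
    refine and_congr ?_ ?_
    · exact A4e_local (LP_inter_aux hF hdis)
    · rw [hBl F hF, hBl (F ∩ (S \ ebx e k)) (Finset.inter_subset_left.trans hF)]
      rw [LP_inter_aux2 hsub]
  have s3 : PQ q S (fun F => A4e k e' ↑F ∧ BPv I J (blk c s) ↑F) ≤
      a4 q k * PQ q S (fun F => BPv I J (blk c s) ↑F) :=
    pr_A4e_and h0 h1 (hsub'.trans hS) (T := S \ blk c s) Finset.sdiff_subset
      (Finset.disjoint_of_subset_left hsub' Finset.disjoint_sdiff)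
      (B := fun F => BPv I J (blk c s) ↑F) hBl
  calc PQ q S (fun F => Flip I J e e' ↑F) ≤ _ := s1
    _ ≤ _ := s2
    _ ≤ a4 q k * (a4 q k * PQ q S (fun F => BPv I J (blk c s) ↑F)) :=
        mul_le_mul_of_nonneg_left s3 (LP_a4_nonneg h0 h1 k)
    _ = _ := by ring

end H12S
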