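import Pool.Agent.H12R2.Sep.Defs6
import Pool.Agent.H12R2.Sep.Coarse
import Pool.Agent.H12R2.Sep.LocP

/-!
# Task I2 (helper509): second (dual) step of the inward gluing
-/

namespace H12S

open H974 Finset

/-- The statement of `step2`. -/
def In2Step2 : Prop := ∀ (κ : ℝ) (_ : 0 < κ) (K : ℕ) (δ : ℝ) (_ : 0 < δ), ∃ (Mr : ℕ) (c : ℝ),
    1 ≤ Mr ∧ 0 < c ∧ ∀ (q : ℝ) (n : ℕ), Win q κ n → ∀ (r : ℕ) (Q : Finset (ℤ × ℤ))
      (S0 D O O' : Finset Edg) (I J : Set Vtx) (e : Edg), Env2 r K Q S0 D O O' I J e → Mr ≤ r →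
      2 * r ≤ n → ∀ M : ℝ, 0 ≤ M →
      (∀ B : Finset Edg → Prop, (∀ F G : Finset Edg, (∀ g, nearQ r Q g → (g ∈ F ↔ g ∈ G)) →
          (B F ↔ B G)) →
        PQ q (S0 ∪ D) (fun F => Ev1 I J S0 O O' e F ∧ B F) ≤ M * PQ q (S0 ∪ D) B) →
      c * (PQ q (S0 ∪ D) (Ev1 I J S0 O O' e) - δ * M) ≤
        PQ q (S0 ∪ D) (Ev2 I J S0 O O' e)

namespace I2

theorem dl_eq {e f : Edg} : f = dl e ↔ dl.symm f = e := by
  constructor
  · intro h; rw [h]; simp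
  · intro h; rw [← h]; simp

theorem pv_dual {S : Finset Edg} {I J I' J' : Set Vtx} (h : DomD S I J I' J') {e : Edg}
    (he : e ∈ S) {F : Finset Edg} (hF : F ⊆ S) :
    Pv I J e (↑F : Set Edg) ↔ Pv I' J' (dl e) (↑(dmp (S \ F)) : Set Edg) := by
  have h1 := h (insert e F) (Finset.insert_subset he hF)
  have h2 := h (F \ {e}) (Finset.sdiff_subset.trans hF)
  have e1 : (↑(dmp (S \ insert e F)) : Set Edg) = ↑(dmp (S \ F)) \ {dl e} := by
    ext g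
    rw [Finset.mem_coe, mem_dmp, Set.mem_sdiff, Set.mem_singleton_iff, Finset.mem_coe, mem_dmp,
      Finset.mem_sdiff, Finset.mem_sdiff, Finset.mem_insert, dl_eq]
    tauto
  have e2 : (↑(dmp (S \ (F \ {e}))) : Set Edg) = insert (dl e) ↑(dmp (S \ F)) := by
    ext g
    rw [Finset.mem_coe, mem_dmp, Set.mem_insert_iff, Finset.mem_coe, mem_dmp,
      Finset.mem_sdiff, Finset.mem_sdiff, Finset.mem_sdiff, Finset.mem_singleton, dl_eq]
    constructor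
    · intro h3
      tauto
    · rintro (h3 | h3)
      · rw [h3]
        exact ⟨he, fun h4 => h4.2 rfl⟩
      · exact ⟨h3.1, fun h4 => h3.2 h4.1⟩
  rw [e1, Finset.coe_insert] at h1
  rw [e2, Finset.coe_sdiff, Finset.coe_singleton] at h2
  unfold Pv
  rw [h1, h2, not_not]
  exact and_comm

/-- Product by a mesh. -/
theorem mul_le {r : ℕ} {x y : ℤ} (h : x ≤ y) : (r:ℤ) * x ≤ r * y :=
  mul_le_mul_of_nonneg_left h (Int.natCast_nonneg r)

section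

variable {L M1 M2 B P1 P2 r m s : ℕ} {γ c0 : ℤ × ℤ}

theorem m_eq (h : InD L M1 M2 B P1 P2 r m s γ c0) : (m:ℤ) = r * M2 := by
  rw [h.hm]; push_cast; ring

theorem s_eq (h : InD L M1 M2 B P1 P2 r m s γ c0) : (s:ℤ) = r * B := by
  rw [h.hs]; push_cast; ring

/-- `m ≥ 512 r`. -/
theorem m_ge (h : InD L M1 M2 B P1 P2 r m s γ c0) : 512 * (r:ℤ) ≤ m := by
  have h1 : (512:ℤ) ≤ M2 := by
    have h2 := h.hM1
    have h3 := h.hM2
    omega
  have h2 := mul_le (r := r) h1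
  rw [m_eq h]
  linarith

/-- The box of size `m` is inside the block. -/
theorem c_le (h : InD L M1 M2 B P1 P2 r m s γ c0) :
    |c0.1| + 8 * m + 4 * r ≤ s ∧ |c0.2| + 8 * m + 4 * r ≤ s := by
  have hL : (2:ℤ) ≤ L := by exact_mod_cast h.hL
  have hM : (0:ℤ) ≤ M2 := Int.natCast_nonneg M2
  have hr : (0:ℤ) ≤ r := Int.natCast_nonneg r
  have h1 : (8:ℤ) * M2 ≤ 4 * L * M2 := by nlinarith
  have e1 : |c0.1| = r * |γ.1| := by
    rw [h.c1, abs_mul, abs_of_nonneg hr]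
  have e2 : |c0.2| = r * |γ.2| := by
    rw [h.c2, abs_mul, abs_of_nonneg hr]
  have g1 : |γ.1| + 8 * M2 + 4 ≤ (B:ℤ) := by linarith [h.g1]
  have g2 : |γ.2| + 8 * M2 + 4 ≤ (B:ℤ) := by linarith [h.g2]
  have k1 := mul_le (r := r) g1
  have k2 := mul_le (r := r) g2
  rw [e1, e2, m_eq h, s_eq h]
  constructor
  · linarith
  · linarith

theorem rs_le (h : InD L M1 M2 B P1 P2 r m s γ c0) : 4 * (r:ℤ) ≤ s := by
  have h1 := (c_le h).1
  have h2 := abs_nonneg c0.1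
  have h3 : (0:ℤ) ≤ m := Int.natCast_nonneg m
  linarith

/-- Position of the vertices of the coarse squares of a corridor. -/
theorem FQ_pos (h : InD L M1 M2 B P1 P2 r m s γ c0) {d : Dir} {k : ℤ} {σ : Bool} {k1 : ℤ}
    {Q : Finset (ℤ × ℤ)} (hQ : CorX L M2 B γ d k σ k1 Q) {z : ℤ × ℤ} (hzQ : z ∈ Q) :
    ((c0.1 - s ≤ r * z.1 ∧ r * z.1 + r ≤ c0.1 + s) ∧
      (c0.2 - s ≤ r * z.2 ∧ r * z.2 + r ≤ c0.2 + s)) ∧
      (r * z.1 + r ≤ -(m:ℤ) ∨ (m:ℤ) ≤ r * z.1 ∨ r * z.2 + r ≤ -(m:ℤ) ∨ (m:ℤ) ≤ r * z.2) := by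
  obtain ⟨h1, h2, h3, h4⟩ := hQ.inb z hzQ
  have k1 := mul_le (r := r) h1
  have k2 := mul_le (r := r) h2
  have k3 := mul_le (r := r) h3
  have k4 := mul_le (r := r) h4
  have e1 := h.c1
  have e2 := h.c2
  have e3 := s_eq h
  have e4 := m_eq h
  refine ⟨⟨⟨by rw [e1, e3]; linarith, by rw [e1, e3]; linarith⟩,
    ⟨by rw [e2, e3]; linarith, by rw [e2, e3]; linarith⟩⟩, ?_⟩
  have hL : (2:ℤ) ≤ L := by exact_mod_cast h.hL
  have hM : (0:ℤ) ≤ M2 := Int.natCast_nonneg M2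
  have hLM : (M2:ℤ) ≤ 2 * L * M2 := by nlinarith
  by_cases a1 : -(2 * L * M2 : ℤ) ≤ z.1 + 1
  · by_cases a2 : z.1 ≤ 2 * L * M2
    · by_cases a3 : -(M2:ℤ) ≤ z.2 + 1
      · by_cases a4 : z.2 ≤ M2
        · have h5 := (hQ.avo z hzQ a1 a2 a3 a4).1
          unfold hz at h5
          split_ifs at h5
          · right; right; right
            rw [e4, h5]
          · right; right; left
            rw [e4, h5]
            linarith
        · right; right; right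
          have := mul_le (r := r) (not_le.mp a4).le
          rw [e4]
          linarith
      · right; right; left
        have := mul_le (r := r) (not_le.mp a3).le
        rw [e4]
        linarith
    · right; left
      have h6 : (M2:ℤ) ≤ z.1 := by linarith [(not_le.mp a2).le]
      have := mul_le (r := r) h6
      rw [e4]
      linarith
  · left
    have h6 : z.1 + 1 ≤ -(M2:ℤ) := by linarith [(not_le.mp a1).le]
    have := mul_le (r := r) h6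
    rw [e4]
    linarith

end

/-- Position of the squares of `Q`. -/
def Pos (r m s : ℕ) (c0 : ℤ × ℤ) (Q : Finset (ℤ × ℤ)) : Prop :=
  ∀ z ∈ Q, ((c0.1 - s ≤ r * z.1 ∧ r * z.1 + r ≤ c0.1 + s) ∧
      (c0.2 - s ≤ r * z.2 ∧ r * z.2 + r ≤ c0.2 + s)) ∧
      (r * z.1 + r ≤ -(m:ℤ) ∨ (m:ℤ) ≤ r * z.1 ∨ r * z.2 + r ≤ -(m:ℤ) ∨ (m:ℤ) ≤ r * z.2)

variable {r m s : ℕ} {c0 : ℤ × ℤ} {Q : Finset (ℤ × ℤ)}

theorem FQ_far (hr : 1 ≤ r) (hp : Pos r m s c0 Q) {u : Vtx} (hu : u ∈ FQ r Q) :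
    ((c0.1 - s ≤ u.1 ∧ u.1 < c0.1 + s) ∧ (c0.2 - s ≤ u.2 ∧ u.2 < c0.2 + s)) ∧
      (u.1 < -(m:ℤ) ∨ (m:ℤ) ≤ u.1 ∨ u.2 < -(m:ℤ) ∨ (m:ℤ) ≤ u.2) := by
  obtain ⟨x, y⟩ := u
  obtain ⟨z, hz, h1, h2⟩ := (CQ_memFQ hr).1 hu
  obtain ⟨h3, h4⟩ := hp z hz
  simp only
  omega

theorem QE_sub (hp : Pos r m s c0 Q) : QE r Q ⊆ blk c0 s := by
  intro g hg
  unfold QE at hg
  rw [Finset.mem_biUnion] at hg
  obtain ⟨z, hz, hg⟩ := hg
  obtain ⟨⟨⟨h1, h2⟩, h3, h4⟩, -⟩ := hp z hz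
  exact RE_subset h1 h2 h3 h4 hg

theorem blk_mono {c : ℤ × ℤ} {a b : ℕ} (h : a ≤ b) : blk c a ⊆ blk c b := by
  have h' : (a:ℤ) ≤ b := by exact_mod_cast h
  exact RE_subset (by omega) (by omega) (by omega) (by omega)

/-- The edges of `Q` are far from the origin. -/
theorem QE_far (hr : 1 ≤ r) (hm : 512 * (r:ℤ) ≤ m) (hp : Pos r m s c0 Q) {g : Edg}
    (hg : g ∈ QE r Q) :
    g.1 ≤ -(m:ℤ) ∨ (m:ℤ) ≤ g.1 ∨ g.2.1 ≤ -(m:ℤ) ∨ (m:ℤ) ≤ g.2.1 := by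
  unfold QE at hg
  rw [Finset.mem_biUnion] at hg
  obtain ⟨z, hz, hg⟩ := hg
  obtain ⟨-, h⟩ := hp z hz
  obtain ⟨x, y, _ | _⟩ := g
  · unfold sqE at hg
    rw [mem_RE_false] at hg
    simp only
    omega
  · unfold sqE at hg
    rw [mem_RE_true] at hg
    simp only
    omega

theorem e_abs {e : Edg} (he : e ∈ boxE (m / 4)) :
    (-((m / 4 : ℕ) : ℤ) ≤ e.1 ∧ e.1 ≤ ((m / 4 : ℕ) : ℤ)) ∧
      (-((m / 4 : ℕ) : ℤ) ≤ e.2.1 ∧ e.2.1 ≤ ((m / 4 : ℕ) : ℤ)) := by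
  unfold boxE at he
  obtain ⟨x, y, _ | _⟩ := e
  · rw [mem_RE_false] at he
    simp only
    omega
  · rw [mem_RE_true] at he
    simp only
    omega

theorem src_dl_pos (e : Edg) : ((src (dl e)).1 = e.1 ∧ (src (dl e)).2 = e.2.1 - 1) ∨
    ((src (dl e)).1 = e.1 - 1 ∧ (src (dl e)).2 = e.2.1) := by
  obtain ⟨x, y, _ | _⟩ := e
  · right
    rw [dl_f]
    exact ⟨rfl, rfl⟩
  · left
    rw [dl_t]
    exact ⟨rfl, rfl⟩

theorem mem_blk_of {e : Edg} {c : ℤ × ℤ} {t : ℕ}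
    (h : (c.1 - t ≤ e.1 ∧ e.1 < c.1 + t) ∧ (c.2 - t ≤ e.2.1 ∧ e.2.1 < c.2 + t)) :
    e ∈ blk c t := by
  unfold blk
  obtain ⟨x, y, _ | _⟩ := e
  · rw [mem_RE_false]
    simp only at h
    omega
  · rw [mem_RE_true]
    simp only at h
    omega

theorem e_blk (hm : 512 * (r:ℤ) ≤ m) (hr : 1 ≤ r)
    (hc : |c0.1| + 8 * m + 4 * r ≤ s ∧ |c0.2| + 8 * m + 4 * r ≤ s) {e : Edg}
    (he : e ∈ boxE (m / 4)) : e ∈ blk c0 s := by
  obtain ⟨⟨h1, h2⟩, h3, h4⟩ := e_abs he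
  have i1 := abs_le.mp (le_refl |c0.1|)
  have i2 := abs_le.mp (le_refl |c0.2|)
  obtain ⟨h5, h6⟩ := hc
  apply mem_blk_of
  omega

theorem env {K : ℕ} (hr : 1 ≤ r) (hm : 512 * (r:ℤ) ≤ m)
    (hc : |c0.1| + 8 * m + 4 * r ≤ s ∧ |c0.2| + 8 * m + 4 * r ≤ s)
    (hp : Pos r m s c0 Q) (hK : ∀ z ∈ Q, |z.1| ≤ K ∧ |z.2| ≤ K) {S : Finset Edg}
    (hS : blk c0 (3 * s) ⊆ S) {I' J' : Set Vtx} (hI : FarS (I' ∪ J') c0 (3 * s)) {e : Edg}
    (he : e ∈ boxE (m / 4)) :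
    Env2 r K Q (dmp (S \ QE r Q)) (dmp (QE r Q)) ∅ ∅ I' J' (dl e) := by
  have ea := e_abs he
  have es := src_dl_pos e
  have hr1 : (1:ℤ) ≤ r := by exact_mod_cast hr
  have a1 := abs_nonneg c0.1
  have a2 := abs_nonneg c0.2
  obtain ⟨c1, c2⟩ := hc
  refine ⟨hr, hK, ?_, ?_, ?_, ?_, ?_, ?_, ?_, ?_, ?_, ?_⟩
  · rw [Finset.disjoint_left]
    intro g hg hg'
    rw [mem_dmp] at hg hg'
    exact (Finset.mem_sdiff.1 hg).2 hg'
  · exact Finset.disjoint_empty_left _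
  · exact Finset.Subset.refl _
  · intro g hg
    rw [mem_dmp, mem_QE_dl hr, Equiv.apply_symm_apply] at hg
    exact hg
  · intro g hg
    rw [Finset.union_empty, mem_dmp, Finset.mem_sdiff, mem_QE_dl hr, Equiv.apply_symm_apply] at hg
    exact hg.2
  · intro g hg
    exact absurd hg (Finset.notMem_empty g)
  · rw [mem_dmp, Equiv.symm_apply_apply, Finset.mem_sdiff]
    refine ⟨hS (blk_mono (by omega) (e_blk hm hr ⟨c1, c2⟩ he)), ?_⟩
    intro h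
    have := QE_far hr hm hp h
    omega
  · intro u hu
    obtain ⟨-, h⟩ := FQ_far hr hp hu
    rw [le_abs, le_abs]
    omega
  · intro v hv u hu
    obtain ⟨h, -⟩ := FQ_far hr hp hu
    have h2 := hI v hv
    rw [le_abs, le_abs] at h2 ⊢
    push_cast at h2
    omega
  · rintro ζ ⟨z0, hz0, hz1, hz2⟩
    refine ⟨true, ?_⟩
    rintro z ⟨hz3, hz4⟩ hzQ
    left
    refine ⟨?_, ?_⟩
    · intro g hg1 hg2
      rw [mem_dmp, Finset.mem_sdiff]
      constructor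
      · obtain ⟨⟨⟨p1, p2⟩, p3, p4⟩, -⟩ := hp z0 hz0
        have d1 : z.1 = z0.1 ∨ z.1 = z0.1 + 1 ∨ z.1 = z0.1 - 1 := by omega
        have d2 : z.2 = z0.2 ∨ z.2 = z0.2 + 1 ∨ z.2 = z0.2 - 1 := by omega
        have f1 : (r:ℤ) * z.1 = r * z0.1 ∨ (r:ℤ) * z.1 = r * z0.1 + r ∨
            (r:ℤ) * z.1 = r * z0.1 - r := by
          rcases d1 with d | d | d
          · left; rw [d]
          · right; left; rw [d]; ring
          · right; right; rw [d]; ring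
        have f2 : (r:ℤ) * z.2 = r * z0.2 ∨ (r:ℤ) * z.2 = r * z0.2 + r ∨
            (r:ℤ) * z.2 = r * z0.2 - r := by
          rcases d2 with d | d | d
          · left; rw [d]
          · right; left; rw [d]; ring
          · right; right; rw [d]; ring
        obtain ⟨x, y, _ | _⟩ := g
        · rw [dls_f]
          rw [src_mk] at hg1
          obtain ⟨⟨g1, g2⟩, g3, g4⟩ := (CQ_fl hr).1 hg1
          apply hS
          apply mem_blk_of
          simp only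
          push_cast
          omega
        · rw [dls_t]
          rw [src_mk] at hg1
          obtain ⟨⟨g1, g2⟩, g3, g4⟩ := (CQ_fl hr).1 hg1
          apply hS
          apply mem_blk_of
          simp only
          push_cast
          omega
      · rw [mem_QE_dl hr, Equiv.apply_symm_apply]
        rintro (h | h)
        · exact hzQ (hg1 ▸ h)
        · exact hzQ (hg2 ▸ h)
    · intro g hg
      exact absurd hg (Finset.notMem_empty g)

theorem ev1_iff {S QV : Finset Edg} (hQ : QV ⊆ S) {I J I' J' : Set Vtx}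
    (h : DomD S I J I' J') {e : Edg} (he : e ∈ S) {F : Finset Edg} (hF : F ⊆ S) :
    Ev1 I' J' (dmp (S \ QV)) ∅ ∅ (dl e) (dmp (S \ F)) ↔ Z1 I J QV e (↑F : Set Edg) := by
  have h1 := pv_dual h he (Finset.union_subset hF hQ)
  have e1 : (↑(dmp (S \ F) ∩ dmp (S \ QV)) : Set Edg) ∪ ↑(∅ : Finset Edg) =
      ↑(dmp (S \ (F ∪ QV))) := by
    rw [Finset.coe_empty, Set.union_empty]
    ext g
    rw [Finset.mem_coe, Finset.mem_coe, Finset.mem_inter, mem_dmp, mem_dmp, mem_dmp,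
      Finset.mem_sdiff, Finset.mem_sdiff, Finset.mem_sdiff, Finset.mem_union]
    tauto
  rw [Finset.coe_union] at h1
  unfold Ev1
  rw [e1]
  exact h1.symm

theorem ev2_imp {S QV : Finset Edg} {I J I' J' : Set Vtx}
    (h : DomD S I J I' J') {e : Edg} (he : e ∈ S) {F : Finset Edg} (hF : F ⊆ S)
    (h2 : Ev2 I' J' (dmp (S \ QV)) ∅ ∅ (dl e) (dmp (S \ F))) : Pv I J e (↑F : Set Edg) := by
  rw [pv_dual h he hF]
  obtain ⟨k1, k2⟩ := h2
  rw [Finset.coe_empty, Set.union_empty] at k1 k2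
  refine ⟨Cn_mono ?_ k1, k2⟩
  apply Set.insert_subset_insert
  rw [Finset.coe_inter]
  exact Set.inter_subset_left

theorem z1_local {S QV : Finset Edg} {I J : Set Vtx} {e : Edg} {F : Finset Edg} (hF : F ⊆ S) :
    Z1 I J QV e (↑F : Set Edg) ↔ Z1 I J QV e (↑(F ∩ (S \ QV)) : Set Edg) := by
  have e1 : (↑F : Set Edg) ∪ ↑QV = ↑(F ∩ (S \ QV)) ∪ ↑QV := by
    ext g
    rw [Set.mem_union, Set.mem_union, Finset.mem_coe, Finset.mem_coe, Finset.mem_coe,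
      Finset.mem_inter, Finset.mem_sdiff]
    have := @hF g
    tauto
  unfold Z1
  rw [e1]

/-- Z1 implies the four-arm event and the pivotality of the block. -/
theorem z1_imp {QV b : Finset Edg} {I J : Set Vtx} {e : Edg} {k : ℕ} (hk : 1 ≤ k)
    (hQ : QV ⊆ b) (hQ2 : Disjoint QV (ebx e k)) (heb : e ∈ b)
    (hIJ : ∀ v ∈ I ∪ J, ¬ (e.1 - k < v.1 ∧ v.1 < e.1 + k ∧ e.2.1 - k < v.2 ∧ v.2 < e.2.1 + k))
    {F : Finset Edg} (h : Z1 I J QV e (↑F : Set Edg)) :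
    A4e k e (↑F : Set Edg) ∧ BPv I J b (↑F : Set Edg) := by
  have h0 : Pv I J e ((↑F : Set Edg) ∪ ↑QV) := h
  constructor
  · have h1 : A4e k e ((↑F : Set Edg) ∪ ↑QV) := loc_a4 (mem_ebx hk) hIJ h0
    refine (A4e_local ?_).1 h1
    ext g
    constructor
    · rintro ⟨g1 | g1, g2⟩
      · exact ⟨g1, g2⟩
      · exact absurd (Finset.mem_coe.1 g2)
          (fun h => Finset.disjoint_left.1 hQ2 (Finset.mem_coe.1 g1) h)
    · rintro ⟨g1, g2⟩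
      exact ⟨Or.inl g1, g2⟩
  · obtain ⟨h1, h2⟩ := pv_blk heb h0
    constructor
    · refine Cn_mono ?_ h1
      rintro g ((g1 | g1) | g1)
      · exact Or.inl g1
      · exact Or.inr (Finset.mem_coe.2 (hQ (Finset.mem_coe.1 g1)))
      · exact Or.inr g1
    · intro h3
      apply h2
      refine Cn_mono ?_ h3
      rintro g ⟨g1, g2⟩
      exact ⟨Or.inl g1, g2⟩

theorem near_out (hr : 1 ≤ r) (hm : 512 * (r:ℤ) ≤ m)
    (hc : |c0.1| + 8 * m + 4 * r ≤ s ∧ |c0.2| + 8 * m + 4 * r ≤ s)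
    (hp : Pos r m s c0 Q) {e : Edg} (he : e ∈ boxE (m / 4)) {f : Edg} (hf : nearQ r Q (dl f)) :
    f ∉ ebx e (m / 8) ∧ f ∈ blk c0 (3 * s) := by
  have ea := e_abs he
  have es := src_dl_pos f
  have hr1 : (1:ℤ) ≤ r := by exact_mod_cast hr
  have a1 := abs_nonneg c0.1
  have a2 := abs_nonneg c0.2
  obtain ⟨c1, c2⟩ := hc
  obtain ⟨u, hu, h1, h2⟩ := hf
  rw [abs_le] at h1 h2
  obtain ⟨h3, h4⟩ := FQ_far hr hp hu
  constructor
  · intro hfe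
    have hb : (e.1 - ((m / 8 : ℕ) : ℤ) ≤ f.1 ∧ f.1 ≤ e.1 + ((m / 8 : ℕ) : ℤ)) ∧
        (e.2.1 - ((m / 8 : ℕ) : ℤ) ≤ f.2.1 ∧ f.2.1 ≤ e.2.1 + ((m / 8 : ℕ) : ℤ)) := by
      unfold ebx at hfe
      obtain ⟨x, y, _ | _⟩ := f
      · rw [mem_RE_false] at hfe
        simp only
        omega
      · rw [mem_RE_true] at hfe
        simp only
        omega
    omega
  · apply mem_blk_of
    push_cast
    omega

/-- The localised estimate. -/
theorem loc {q κ : ℝ} {n : ℕ} (hW : Win q κ n) (hr : 1 ≤ r) (hm : 512 * (r:ℤ) ≤ m)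
    (hc : |c0.1| + 8 * m + 4 * r ≤ s ∧ |c0.2| + 8 * m + 4 * r ≤ s)
    (hp : Pos r m s c0 Q) {S : Finset Edg} (hS : blk c0 (3 * s) ⊆ S) {I J : Set Vtx}
    (hIJ : FarS (I ∪ J) c0 (3 * s)) {e : Edg} (he : e ∈ boxE (m / 4)) {A : Finset Edg → Prop}
    (hA : ∀ F, F ⊆ S → A F → Z1 I J (QE r Q) e (↑F : Set Edg)) {B : Finset Edg → Prop}
    (hB : ∀ F G : Finset Edg, (∀ g, nearQ r Q g → (g ∈ F ↔ g ∈ G)) → (B F ↔ B G)) :
    PQ q S (fun F => A F ∧ B (dmp (S \ F))) ≤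
      a4 q (m / 8) * PQ q S (fun F => BPv I J (blk c0 (3 * s)) ↑F) *
        PQ q S (fun F => B (dmp (S \ F))) := by
  have hr1 : (1:ℤ) ≤ r := by exact_mod_cast hr
  have hk : 1 ≤ m / 8 := by omega
  have ea := e_abs he
  have i1 := abs_le.mp (le_refl |c0.1|)
  have i2 := abs_le.mp (le_refl |c0.2|)
  have b1 : |e.1 - c0.1| + ((m / 8 : ℕ) : ℤ) ≤ ((3 * s : ℕ) : ℤ) := by
    have : |e.1 - c0.1| ≤ ((3 * s : ℕ) : ℤ) - ((m / 8 : ℕ) : ℤ) := by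
      rw [abs_le]
      push_cast
      omega
    linarith
  have b2 : |e.2.1 - c0.2| + ((m / 8 : ℕ) : ℤ) ≤ ((3 * s : ℕ) : ℤ) := by
    have : |e.2.1 - c0.2| ≤ ((3 * s : ℕ) : ℤ) - ((m / 8 : ℕ) : ℤ) := by
      rw [abs_le]
      push_cast
      omega
    linarith
  have hsub : ebx e (m / 8) ⊆ blk c0 (3 * s) := ebx_sub b1 b2
  have hQs : QE r Q ⊆ blk c0 (3 * s) := (QE_sub hp).trans (blk_mono (by omega))
  have hQd : Disjoint (QE r Q) (ebx e (m / 8)) := by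
    rw [Finset.disjoint_left]
    intro g hg hg2
    have h1 := QE_far hr hm hp hg
    unfold ebx at hg2
    obtain ⟨x, y, _ | _⟩ := g
    · rw [mem_RE_false] at hg2
      simp only at h1
      omega
    · rw [mem_RE_true] at hg2
      simp only at h1
      omega
  have heb : e ∈ blk c0 (3 * s) := hsub (mem_ebx hk)
  have hout := ebx_out (I := I) (J := J) (c := c0) (s := 3 * s) (by
    intro v hv h
    have := hIJ v hv
    omega) b1 b2
  have s1 : PQ q S (fun F => A F ∧ B (dmp (S \ F))) ≤ PQ q S (fun F => A4e (m / 8) e ↑F ∧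
      (BPv I J (blk c0 (3 * s)) ↑F ∧ B (dmp (S \ F)))) := by
    apply Pr_mono hW.ok
    rintro F hF ⟨h1, h2⟩
    obtain ⟨h3, h4⟩ := z1_imp hk hQs hQd heb hout (hA F hF h1)
    exact ⟨h3, h4, h2⟩
  have hBl : ∀ F, F ⊆ S → (BPv I J (blk c0 (3 * s)) (↑F : Set Edg) ↔
      BPv I J (blk c0 (3 * s)) (↑(F ∩ (S \ blk c0 (3 * s))) : Set Edg)) := by
    intro F hF
    have := BPv_local (I := I) (J := J) (b := blk c0 (3 * s)) (O := ∅) F hF
    rwa [Set.union_empty, Set.union_empty] at this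
  have s2 : PQ q S (fun F => A4e (m / 8) e ↑F ∧
      (BPv I J (blk c0 (3 * s)) ↑F ∧ B (dmp (S \ F)))) ≤
      a4 q (m / 8) * PQ q S (fun F => BPv I J (blk c0 (3 * s)) ↑F ∧ B (dmp (S \ F))) := by
    refine pr_A4e_and hW.q0 hW.q1 (hsub.trans hS) (T := S \ ebx e (m / 8)) Finset.sdiff_subset
      Finset.disjoint_sdiff
      (B := fun F => BPv I J (blk c0 (3 * s)) ↑F ∧ B (dmp (S \ F))) ?_
    intro F hF
    refine and_congr ?_ ?_
    · rw [hBl F hF, hBl (F ∩ (S \ ebx e (m / 8))) (Finset.inter_subset_left.trans hF)]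
      rw [LP_inter_aux2 hsub]
    · apply hB
      intro g hg
      rw [← Equiv.apply_symm_apply dl g] at hg
      have h1 := (near_out hr hm hc hp he hg).1
      rw [mem_dmp, mem_dmp, Finset.mem_sdiff, Finset.mem_sdiff, Finset.mem_inter,
        Finset.mem_sdiff]
      tauto
  have s3 : PQ q S (fun F => BPv I J (blk c0 (3 * s)) ↑F ∧ B (dmp (S \ F))) =
      PQ q S (fun F => BPv I J (blk c0 (3 * s)) ↑F) * PQ q S (fun F => B (dmp (S \ F))) := by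
    refine Pr_indep (A := fun F => BPv I J (blk c0 (3 * s)) (↑F : Set Edg))
      (B := fun F => B (dmp (S \ F))) (S := S \ blk c0 (3 * s)) (T := blk c0 (3 * s))
      Finset.sdiff_subset hS Finset.sdiff_disjoint hBl ?_
    intro F _
    apply hB
    intro g hg
    rw [← Equiv.apply_symm_apply dl g] at hg
    have h1 := (near_out hr hm hc hp he hg).2
    rw [mem_dmp, mem_dmp, Finset.mem_sdiff, Finset.mem_sdiff, Finset.mem_inter]
    tauto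
  rw [s3] at s2
  calc PQ q S (fun F => A F ∧ B (dmp (S \ F))) ≤ _ := s1
    _ ≤ _ := s2
    _ = _ := by ring

end I2

open I2 in
theorem in2_of (hst : In2Step2) (κ : ℝ) (hκ : 0 < κ) (L M1 M2 B P1 P2 : ℕ) (δ : ℝ) (hδ : 0 < δ) :
    ∃ (Mr : ℕ) (c : ℝ), 1 ≤ Mr ∧ 0 < c ∧
    ∀ (q : ℝ) (n : ℕ), Win q κ n → ∀ (r m s : ℕ) (γ c0 : ℤ × ℤ),
      InD L M1 M2 B P1 P2 r m s γ c0 → Mr ≤ r → s ≤ n →
      ∀ (S : Finset Edg) (I J I' J' : Set Vtx), blk c0 (3 * s) ⊆ S → DomD S I J I' J' →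
      FarS (I ∪ J) c0 (3 * s) → FarS (I' ∪ J') c0 (3 * s) →
      ∀ (d d' : Dir) (k k' : ℤ) (σ σ' : Bool) (k1 k2 : ℤ) (Q1 Q3 : Finset (ℤ × ℤ)), SepQ Q1 Q3 →
      CorX L M2 B γ d k σ k1 Q1 → CorX L M2 B γ d' k' σ' k2 Q3 →
      ∀ QV : Finset Edg, QV = QE r (Q1 ∪ Q3) → ∀ e ∈ boxE (m / 4),
      c * (PQ q (S \ QV) (fun F => Z1 I J QV e ↑F) -
          δ * (a4 q (m / 8) * PQ q S (fun F => BPv I J (blk c0 (3 * s)) ↑F))) ≤
        PQ q S (fun F => Pv I J e ↑F) := by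
  obtain ⟨Mr, c, hMr, hc, H⟩ := hst κ hκ (2 * B) δ hδ
  refine ⟨Mr, c, hMr, hc, ?_⟩
  intro q n hW r m s γ c0 hD hr hsn S I J I' J' hS hdom hIJ hIJ' d d' k k' σ σ' k1 k2 Q1 Q3 _
    hc1 hc3 QV hQV e he
  subst hQV
  have hr1 := hD.hr
  have hm := m_ge hD
  have hcl := c_le hD
  have hp : Pos r m s c0 (Q1 ∪ Q3) := by
    intro z hz
    rcases Finset.mem_union.1 hz with h | h
    · exact FQ_pos hD hc1 h
    · exact FQ_pos hD hc3 h
  have hK : ∀ z ∈ Q1 ∪ Q3, |z.1| ≤ ((2 * B : ℕ) : ℤ) ∧ |z.2| ≤ ((2 * B : ℕ) : ℤ) := by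
    have g1 := hD.g1
    have g2 := hD.g2
    have hpos : (0:ℤ) ≤ 4 * L * M2 := by positivity
    have i1 := abs_le.mp (le_refl |γ.1|)
    have i2 := abs_le.mp (le_refl |γ.2|)
    intro z hz
    have hb : γ.1 - B ≤ z.1 ∧ z.1 + 1 ≤ γ.1 + B ∧ γ.2 - B ≤ z.2 ∧ z.2 + 1 ≤ γ.2 + B := by
      rcases Finset.mem_union.1 hz with h | h
      · exact hc1.inb z h
      · exact hc3.inb z h
    rw [abs_le, abs_le]
    push_cast
    obtain ⟨b1, b2, b3, b4⟩ := hb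
    exact ⟨⟨by linarith, by linarith⟩, ⟨by linarith, by linarith⟩⟩
  have henv := env hr1 hm hcl hp hK hS hIJ' he
  have hsub : QE r (Q1 ∪ Q3) ⊆ S := (QE_sub hp).trans ((blk_mono (by omega)).trans hS)
  have heS : e ∈ S := hS (blk_mono (by omega) (e_blk hm hr1 hcl he))
  have hun : dmp (S \ QE r (Q1 ∪ Q3)) ∪ dmp (QE r (Q1 ∪ Q3)) = dmp S := by
    ext g
    rw [Finset.mem_union, mem_dmp, mem_dmp, mem_dmp, Finset.mem_sdiff]
    have := @hsub (dl.symm g)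
    tauto
  have hrn : 2 * r ≤ n := by
    have := rs_le hD
    omega
  have hM : 0 ≤ a4 q (m / 8) * PQ q S (fun F => BPv I J (blk c0 (3 * s)) ↑F) :=
    mul_nonneg (LP_a4_nonneg hW.q0 hW.q1 _) (Pr_nonneg hW.ok _ _)
  have key := H (1 - q) n hW.symm r (Q1 ∪ Q3) _ _ ∅ ∅ I' J' (dl e) henv hr hrn _ hM (by
    intro A hA
    rw [hun, ← pr_dual, ← pr_dual]
    exact loc hW hr1 hm hcl hp hS hIJ he
      (A := fun F => Ev1 I' J' (dmp (S \ QE r (Q1 ∪ Q3))) ∅ ∅ (dl e) (dmp (S \ F)))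
      (fun F hF h => (I2.ev1_iff hsub hdom heS hF).1 h) hA)
  rw [hun, ← pr_dual, ← pr_dual] at key
  have e1 : PQ q S (fun F => Ev1 I' J' (dmp (S \ QE r (Q1 ∪ Q3))) ∅ ∅ (dl e) (dmp (S \ F))) =
      PQ q (S \ QE r (Q1 ∪ Q3)) (fun F => Z1 I J (QE r (Q1 ∪ Q3)) e ↑F) := by
    have e2 : PQ q S (fun F => Ev1 I' J' (dmp (S \ QE r (Q1 ∪ Q3))) ∅ ∅ (dl e) (dmp (S \ F))) =
        PQ q S (fun F => Z1 I J (QE r (Q1 ∪ Q3)) e ↑F) :=
      Pr_congr (fun F hF => I2.ev1_iff hsub hdom heS hF)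
    rw [e2]
    exact Pr_local (A := fun F => Z1 I J (QE r (Q1 ∪ Q3)) e (↑F : Set Edg)) Finset.sdiff_subset
      (fun F hF => z1_local hF)
  rw [e1] at key
  exact key.trans (Pr_mono hW.ok (fun F hF h => I2.ev2_imp hdom heS hF h))

end H12S
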