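import Pool.Agent.H12R2.Sep.InD

/-!
Task SY (helper501): symmetries for the inward inequality.
-/

namespace H12S

open H974 Finset

/-- The inward inequality for landing cells on the side `d`; `t` is the distance of the dual
sets. -/
def SY_In (c δ q K : ℝ) (r P1 P2 s t : ℕ) (d : Dir) : Prop :=
  ∀ (c0 : ℤ × ℤ) (S : Finset Edg) (I J I' J' : Set Vtx), blk c0 (3 * s) ⊆ S →
      DomD S I J I' J' → FarS (I ∪ J) c0 (3 * s) → FarS (I' ∪ J') c0 t →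
      ∀ (k : ℤ) (d' : Dir) (k' : ℤ),
      c * (PQ q S (fun F => ESev I J c0 s r (P1 * r) (P2 * r) d k d' k'
            ((↑F : Set Edg) \ ↑(boI c0 s))) -
          δ * PQ q S (fun F => BPv I J (blk c0 (3 * s)) ↑F)) * K ≤
        ∑ e ∈ blk c0 s, PQ q S (fun F => Pv I J e ↑F)

theorem SY_far_mono {X : Set Vtx} {c : ℤ × ℤ} {t t' : ℕ} (h : t ≤ t') (hX : FarS X c t') :
    FarS X c t := by
  intro v hv
  have ht : (t:ℤ) ≤ t' := by exact_mod_cast h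
  rcases hX v hv with h1 | h1
  · left; omega
  · right; omega

theorem SY_mono {c δ q K : ℝ} {r P1 P2 s t t' : ℕ} {d : Dir} (h : t ≤ t')
    (hX : SY_In c δ q K r P1 P2 s t d) : SY_In c δ q K r P1 P2 s t' d := by
  intro c0 S I J I' J' h1 h2 h3 h4
  exact hX c0 S I J I' J' h1 h2 h3 (SY_far_mono h h4)

/-! ### General symmetries -/

theorem SY_cn (g : LSym) {I J : Set Vtx} {F : Set Edg} :
    Cn (g.ψ '' I) (g.ψ '' J) (g.φ '' F) ↔ Cn I J F := by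
  constructor
  · rintro ⟨_, ⟨u, hu, rfl⟩, _, ⟨v, hv, rfl⟩, h⟩
    exact ⟨u, hu, v, hv, g.reach_iff.1 h⟩
  · rintro ⟨u, hu, v, hv, h⟩
    exact ⟨_, ⟨u, hu, rfl⟩, _, ⟨v, hv, rfl⟩, g.reach_iff.2 h⟩

theorem SY_pv (g : LSym) {I J : Set Vtx} {e : Edg} {F : Finset Edg} :
    Pv (g.ψ '' I) (g.ψ '' J) (g.φ e) ↑(g.mp F) ↔ Pv I J e ↑F := by
  unfold Pv
  rw [LSym.coe_mp, ← Set.image_insert_eq, ← Set.image_singleton,
    ← Set.image_sdiff g.φ.injective, SY_cn, SY_cn]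

theorem SY_bpv (g : LSym) {I J : Set Vtx} {b F : Finset Edg} :
    BPv (g.ψ '' I) (g.ψ '' J) (g.mp b) ↑(g.mp F) ↔ BPv I J b ↑F := by
  unfold BPv
  rw [LSym.coe_mp, LSym.coe_mp, ← Set.image_union, ← Set.image_sdiff g.φ.injective, SY_cn, SY_cn]

theorem SY_cl (g : LSym) {I : Set Vtx} {F : Set Edg} {v : Vtx} :
    g.ψ v ∈ Cl src tgt (g.ψ '' I) (g.φ '' F) ↔ v ∈ Cl src tgt I F := by
  constructor
  · rintro ⟨_, ⟨u, hu, rfl⟩, h⟩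
    exact ⟨u, hu, g.reach_iff.1 h⟩
  · rintro ⟨u, hu, h⟩
    exact ⟨_, ⟨u, hu, rfl⟩, g.reach_iff.2 h⟩

/-- The dual symmetry `g'` of `g`. -/
theorem SY_dom (g g' : LSym) (hgg : ∀ e, dl (g.φ e) = g'.φ (dl e)) {S : Finset Edg}
    {I J I' J' : Set Vtx} (h : DomD S I J I' J') :
    DomD (g.mp S) (g.ψ '' I) (g.ψ '' J) (g'.ψ '' I') (g'.ψ '' J') := by
  intro G hG
  obtain ⟨G0, rfl⟩ : ∃ G0, G = g.mp G0 := by
    refine ⟨g.inv.mp G, ?_⟩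
    ext e
    rw [LSym.mem_mp, LSym.mem_mp]
    simp [LSym.inv]
  have hG0 : G0 ⊆ S := by
    intro e he
    have h1 : g.φ e ∈ g.mp S := hG (by rw [LSym.mem_mp]; simpa using he)
    rw [LSym.mem_mp] at h1
    simpa using h1
  have e1 : dmp (g.mp S \ g.mp G0) = g'.mp (dmp (S \ G0)) := by
    rw [← LSym.mp_sdiff]
    apply Finset.coe_injective
    rw [coe_dmp, LSym.coe_mp, LSym.coe_mp, coe_dmp, Set.image_image, Set.image_image]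
    congr 1
    ext e
    · rw [hgg]
    · rw [hgg]
    · rw [hgg]
  rw [LSym.coe_mp, SY_cn, h G0 hG0, e1, LSym.coe_mp, SY_cn]


theorem SY_esev (g : LSym) {I J : Set Vtx} {c c' : ℤ × ℤ} {s r ρ1 ρ2 : ℕ} {d d' e e' : Dir}
    {k k' l l' : ℤ} {F : Set Edg} (h1 : g.ψ '' cellB c s r d k = cellB c' s r e l)
    (h1' : g.ψ '' cellB c s r d' k' = cellB c' s r e' l') (h2 : |l| = |k|) (h2' : |l'| = |k'|)
    (h3 : ∀ v, g.ψ v ∈ bdB c' s ↔ v ∈ bdB c s)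
    (h4 : ∀ v v', Nr ρ1 (g.ψ v) (g.ψ v') ↔ Nr ρ1 v v') :
    ESev (g.ψ '' I) (g.ψ '' J) c' s r ρ1 ρ2 e l e' l' (g.φ '' F) ↔
      ESev I J c s r ρ1 ρ2 d k d' k' F := by
  unfold ESev
  rw [← h1, ← h1', ← Set.image_union, ← Set.image_union]
  have a1 : |2 * (r:ℤ) * l| = |2 * (r:ℤ) * k| := by rw [abs_mul, abs_mul _ k, h2]
  have a2 : |2 * (r:ℤ) * l'| = |2 * (r:ℤ) * k'| := by rw [abs_mul, abs_mul _ k', h2']
  rw [a1, a2]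
  refine and_congr Iff.rfl (and_congr ?_ (and_congr ?_ (and_congr ?_ (not_congr (SY_cn g)))))
  · constructor
    · rintro ⟨_, ⟨u, hu, rfl⟩, h⟩
      exact ⟨u, hu, (SY_cl g).1 h⟩
    · rintro ⟨u, hu, h⟩
      exact ⟨_, ⟨u, hu, rfl⟩, (SY_cl g).2 h⟩
  · constructor
    · rintro ⟨_, ⟨u, hu, rfl⟩, h⟩
      exact ⟨u, hu, (SY_cl g).1 h⟩
    · rintro ⟨u, hu, h⟩
      exact ⟨_, ⟨u, hu, rfl⟩, (SY_cl g).2 h⟩
  · constructor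
    · intro h v hv v' hv' hb hb' hn
      exact h (g.ψ v) ((SY_cl g).2 hv) (g.ψ v') ((SY_cl g).2 hv') ((h3 v).2 hb) ((h3 v').2 hb')
        ((h4 v v').2 hn)
    · intro h w hw w' hw' hb hb' hn
      obtain ⟨v, rfl⟩ := g.ψ.surjective w
      obtain ⟨v', rfl⟩ := g.ψ.surjective w'
      exact h v ((SY_cl g).1 hw) v' ((SY_cl g).1 hw') ((h3 v).1 hb) ((h3 v').1 hb')
        ((h4 v v').1 hn)

theorem SY_step (g g' : LSym) (hgg : ∀ e, dl (g.φ e) = g'.φ (dl e)) {s t t' r P1 P2 : ℕ}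
    (hblk : ∀ (c : ℤ × ℤ) (s : ℕ), g.mp (blk c s) = blk (g.ψ c) s)
    (hboI : ∀ (c : ℤ × ℤ) (s : ℕ), g.mp (boI c s) = boI (g.ψ c) s)
    (hfar : ∀ (X : Set Vtx) (c : ℤ × ℤ) (t : ℕ), FarS X c t → FarS (g.ψ '' X) (g.ψ c) t)
    (hfar' : ∀ (X : Set Vtx) (c : ℤ × ℤ), FarS X c t' → FarS (g'.ψ '' X) (g.ψ c) t)
    (hbd : ∀ (c : ℤ × ℤ) (v : Vtx), g.ψ v ∈ bdB (g.ψ c) s ↔ v ∈ bdB c s)
    (hNr : ∀ (ρ : ℤ) v v', Nr ρ (g.ψ v) (g.ψ v') ↔ Nr ρ v v')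
    (hcell : ∀ (d' : Dir) (k' : ℤ), ∃ (e' : Dir) (l' : ℤ), |l'| = |k'| ∧
      ∀ c : ℤ × ℤ, g.ψ '' cellB c s r d' k' = cellB (g.ψ c) s r e' l') {d e : Dir}
    (hd : ∀ k : ℤ, ∃ l : ℤ, |l| = |k| ∧ ∀ c : ℤ × ℤ,
      g.ψ '' cellB c s r d k = cellB (g.ψ c) s r e l)
    {c δ q K : ℝ} (hX : SY_In c δ q K r P1 P2 s t e) : SY_In c δ q K r P1 P2 s t' d := by
  intro c0 S I J I' J' h1 h2 h3 h4 k d' k'
  obtain ⟨l, hl, hcl⟩ := hd k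
  obtain ⟨e', l', hl', hcl'⟩ := hcell d' k'
  have := hX (g.ψ c0) (g.mp S) (g.ψ '' I) (g.ψ '' J) (g'.ψ '' I') (g'.ψ '' J')
    (by rw [← hblk]; exact g.mp_mono h1) (SY_dom g g' hgg h2)
    (by rw [← Set.image_union]; exact hfar _ _ _ h3)
    (by rw [← Set.image_union]; exact hfar' _ _ h4) l e' l'
  have e1 : PQ q (g.mp S) (fun F => ESev (g.ψ '' I) (g.ψ '' J) (g.ψ c0) s r (P1 * r) (P2 * r) e l
      e' l' ((↑F : Set Edg) \ ↑(boI (g.ψ c0) s))) =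
      PQ q S (fun F => ESev I J c0 s r (P1 * r) (P2 * r) d k d' k'
            ((↑F : Set Edg) \ ↑(boI c0 s))) := by
    unfold PQ
    rw [g.pr]
    congr 1
    funext F
    rw [← hboI, LSym.coe_mp, LSym.coe_mp, ← Set.image_sdiff g.φ.injective]
    exact propext (SY_esev g (hcl c0) (hcl' c0) hl hl' (hbd c0) (hNr _))
  have e2 : PQ q (g.mp S) (fun F => BPv (g.ψ '' I) (g.ψ '' J) (blk (g.ψ c0) (3 * s)) ↑F) =
      PQ q S (fun F => BPv I J (blk c0 (3 * s)) ↑F) := by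
    unfold PQ
    rw [g.pr]
    congr 1
    funext F
    rw [← hblk]
    exact propext (SY_bpv g)
  have e3 : (∑ e ∈ blk (g.ψ c0) s, PQ q (g.mp S) (fun F => Pv (g.ψ '' I) (g.ψ '' J) e ↑F)) =
      ∑ e ∈ blk c0 s, PQ q S (fun F => Pv I J e ↑F) := by
    rw [← hblk]
    unfold LSym.mp
    rw [Finset.sum_map]
    refine Finset.sum_congr rfl fun e _ => ?_
    change PQ q (g.mp S) _ = _
    unfold PQ
    rw [g.pr]
    congr 1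
    funext F
    exact propext (SY_pv g)
  rw [e1, e2, e3] at this
  exact this

theorem SY_mem_boI {c : ℤ × ℤ} {s : ℕ} {e : Edg} :
    e ∈ boI c s ↔ e ∈ blk c s ∧ Tch {v : Vtx | |v.1 - c.1| < s ∧ |v.2 - c.2| < s} e := by
  classical
  unfold boI
  rw [Finset.mem_filter]

theorem SY_boI (g : LSym) {c : ℤ × ℤ} {s : ℕ} (hblk : g.mp (blk c s) = blk (g.ψ c) s)
    (hsq : ∀ v : Vtx, (|(g.ψ v).1 - (g.ψ c).1| < s ∧ |(g.ψ v).2 - (g.ψ c).2| < s) ↔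
      (|v.1 - c.1| < s ∧ |v.2 - c.2| < s)) : g.mp (boI c s) = boI (g.ψ c) s := by
  ext e'
  obtain ⟨e, rfl⟩ := g.φ.surjective e'
  rw [LSym.mem_mp, Equiv.symm_apply_apply, SY_mem_boI, SY_mem_boI, ← hblk, LSym.mem_mp,
    Equiv.symm_apply_apply]
  refine and_congr Iff.rfl ?_
  unfold Tch
  simp only [Set.mem_ofPred_eq]
  rcases g.compat e with ⟨h1, h2⟩ | ⟨h1, h2⟩
  · rw [h1, h2, hsq, hsq]
  · rw [h1, h2, hsq, hsq, or_comm]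

/-! ### The reflection `y ↦ -y` -/

theorem SY_rfy_dl (e : Edg) : dl ((rfy 0).φ e) = (rfy (-1)).φ (dl e) := by
  obtain ⟨x, y, _ | _⟩ := e
  · rw [rfy_φf, dl_f, dl_f, rfy_φt]
    simp only [Prod.mk.injEq, true_and, and_true]
    omega
  · rw [rfy_φt, dl_t, dl_t, rfy_φf]
    simp only [Prod.mk.injEq, true_and, and_true]
    omega

theorem SY_rfy_blk (c : ℤ × ℤ) (s : ℕ) : (rfy 0).mp (blk c s) = blk ((rfy 0).ψ c) s := by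
  obtain ⟨c1, c2⟩ := c
  unfold blk
  rw [rfy_RE, rfy_ψ]
  congr 1 <;> simp only <;> ring

theorem SY_rfy_boI (c : ℤ × ℤ) (s : ℕ) : (rfy 0).mp (boI c s) = boI ((rfy 0).ψ c) s := by
  apply SY_boI _ (SY_rfy_blk c s)
  rintro ⟨x, y⟩
  obtain ⟨c1, c2⟩ := c
  rw [rfy_ψ, rfy_ψ]
  simp only [abs_lt]
  omega

theorem SY_rfy_far (X : Set Vtx) (c : ℤ × ℤ) (t : ℕ) (h : FarS X c t) :
    FarS ((rfy 0).ψ '' X) ((rfy 0).ψ c) t := by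
  rintro _ ⟨⟨x, y⟩, hv, rfl⟩
  obtain ⟨c1, c2⟩ := c
  have := h _ hv
  rw [rfy_ψ, rfy_ψ]
  simp only [le_abs] at this ⊢
  omega

theorem SY_rfy_far' (X : Set Vtx) (c : ℤ × ℤ) (t : ℕ) (h : FarS X c (t + 1)) :
    FarS ((rfy (-1)).ψ '' X) ((rfy 0).ψ c) t := by
  rintro _ ⟨⟨x, y⟩, hv, rfl⟩
  obtain ⟨c1, c2⟩ := c
  have := h _ hv
  rw [rfy_ψ, rfy_ψ]
  simp only [le_abs] at this ⊢
  push_cast at this
  omega

theorem SY_abs_eq {a : ℤ} {s : ℕ} : |a| = (s:ℤ) ↔ a = s ∨ a = -s := by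
  constructor
  · intro h
    rcases abs_choice a with h1 | h1 <;> omega
  · rintro (h | h) <;> rw [h]
    · simp
    · simp

theorem SY_rfy_bd (s : ℕ) (c : ℤ × ℤ) (v : Vtx) :
    (rfy 0).ψ v ∈ bdB ((rfy 0).ψ c) s ↔ v ∈ bdB c s := by
  obtain ⟨x, y⟩ := v
  obtain ⟨c1, c2⟩ := c
  rw [rfy_ψ, rfy_ψ]
  unfold bdB
  simp only [Set.mem_ofPred_eq, abs_le, SY_abs_eq]
  omega

theorem SY_rfy_nr (ρ : ℤ) (v v' : Vtx) : Nr ρ ((rfy 0).ψ v) ((rfy 0).ψ v') ↔ Nr ρ v v' := by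
  obtain ⟨x, y⟩ := v
  obtain ⟨x', y'⟩ := v'
  rw [rfy_ψ, rfy_ψ]
  unfold Nr
  simp only [abs_le]
  omega

theorem SY_image_eq (g : LSym) {A B : Set Vtx} (h : ∀ v, g.ψ v ∈ B ↔ v ∈ A) : g.ψ '' A = B := by
  ext w
  obtain ⟨v, rfl⟩ := g.ψ.surjective w
  rw [h v, g.ψ.injective.mem_set_image]

/-- the reflected directions -/
def SY_ry (d : Dir) : Dir :=
  match d with
  | Dir.up => Dir.dn
  | Dir.dn => Dir.up
  | Dir.rt => Dir.rt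
  | Dir.lf => Dir.lf

/-- the reflected index -/
def SY_ryk (d : Dir) (k : ℤ) : ℤ :=
  match d with
  | Dir.up => k
  | Dir.dn => k
  | Dir.rt => -k
  | Dir.lf => -k

theorem SY_rfy_cell (s r : ℕ) (d : Dir) (k : ℤ) (c : ℤ × ℤ) :
    (rfy 0).ψ '' cellB c s r d k = cellB ((rfy 0).ψ c) s r (SY_ry d) (SY_ryk d k) := by
  obtain ⟨c1, c2⟩ := c
  apply SY_image_eq
  rintro ⟨x, y⟩
  rw [rfy_ψ, rfy_ψ]
  cases d
  · simp only [cellB, cenB, segD, SY_ry, SY_ryk, Set.mem_ofPred_eq]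
    omega
  · simp only [cellB, cenB, segD, SY_ry, SY_ryk, Set.mem_ofPred_eq]
    omega
  · simp only [cellB, cenB, segD, SY_ry, SY_ryk, Set.mem_ofPred_eq]
    rw [mul_neg]
    omega
  · simp only [cellB, cenB, segD, SY_ry, SY_ryk, Set.mem_ofPred_eq]
    rw [mul_neg]
    omega

theorem SY_ryk_abs (d : Dir) (k : ℤ) : |SY_ryk d k| = |k| := by
  cases d <;> simp [SY_ryk]

theorem SY_up_dn {c δ q K : ℝ} {r P1 P2 s t : ℕ} (h : SY_In c δ q K r P1 P2 s t Dir.up) :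
    SY_In c δ q K r P1 P2 s (t + 1) Dir.dn :=
  SY_step (rfy 0) (rfy (-1)) SY_rfy_dl SY_rfy_blk SY_rfy_boI SY_rfy_far
    (fun X c => SY_rfy_far' X c t) (SY_rfy_bd s) SY_rfy_nr
    (fun d' k' => ⟨_, _, SY_ryk_abs d' k', fun c => SY_rfy_cell s r d' k' c⟩)
    (fun k => ⟨_, SY_ryk_abs Dir.dn k, fun c => SY_rfy_cell s r Dir.dn k c⟩) h

/-! ### The transposition -/

theorem SY_tps_dl (e : Edg) : dl (tps.φ e) = tps.φ (dl e) := by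
  obtain ⟨x, y, _ | _⟩ := e
  · rw [tps_φ, Bool.not_false, dl_t, dl_f, tps_φ, Bool.not_true]
  · rw [tps_φ, Bool.not_true, dl_f, dl_t, tps_φ, Bool.not_false]

theorem SY_tps_blk (c : ℤ × ℤ) (s : ℕ) : tps.mp (blk c s) = blk (tps.ψ c) s := by
  obtain ⟨c1, c2⟩ := c
  unfold blk
  rw [tps_RE, tps_ψ]

theorem SY_tps_boI (c : ℤ × ℤ) (s : ℕ) : tps.mp (boI c s) = boI (tps.ψ c) s := by
  apply SY_boI _ (SY_tps_blk c s)
  rintro ⟨x, y⟩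
  obtain ⟨c1, c2⟩ := c
  rw [tps_ψ, tps_ψ]
  simp only
  rw [and_comm]

theorem SY_tps_far (X : Set Vtx) (c : ℤ × ℤ) (t : ℕ) (h : FarS X c t) :
    FarS (tps.ψ '' X) (tps.ψ c) t := by
  rintro _ ⟨⟨x, y⟩, hv, rfl⟩
  obtain ⟨c1, c2⟩ := c
  have := h _ hv
  rw [tps_ψ, tps_ψ]
  exact this.symm

theorem SY_tps_bd (s : ℕ) (c : ℤ × ℤ) (v : Vtx) :
    tps.ψ v ∈ bdB (tps.ψ c) s ↔ v ∈ bdB c s := by
  obtain ⟨x, y⟩ := v
  obtain ⟨c1, c2⟩ := c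
  rw [tps_ψ, tps_ψ]
  unfold bdB
  simp only [Set.mem_ofPred_eq]
  tauto

theorem SY_tps_nr (ρ : ℤ) (v v' : Vtx) : Nr ρ (tps.ψ v) (tps.ψ v') ↔ Nr ρ v v' := by
  obtain ⟨x, y⟩ := v
  obtain ⟨x', y'⟩ := v'
  rw [tps_ψ, tps_ψ]
  unfold Nr
  simp only
  rw [and_comm]

/-- the transposed directions -/
def SY_tr (d : Dir) : Dir :=
  match d with
  | Dir.up => Dir.rt
  | Dir.dn => Dir.lf
  | Dir.rt => Dir.up
  | Dir.lf => Dir.dn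

theorem SY_tps_cell (s r : ℕ) (d : Dir) (k : ℤ) (c : ℤ × ℤ) :
    tps.ψ '' cellB c s r d k = cellB (tps.ψ c) s r (SY_tr d) k := by
  obtain ⟨c1, c2⟩ := c
  apply SY_image_eq
  rintro ⟨x, y⟩
  rw [tps_ψ, tps_ψ]
  cases d <;> simp only [cellB, cenB, segD, SY_tr, Set.mem_ofPred_eq]

theorem SY_tps (d : Dir) {c δ q K : ℝ} {r P1 P2 s t : ℕ}
    (h : SY_In c δ q K r P1 P2 s t (SY_tr d)) : SY_In c δ q K r P1 P2 s t d :=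
  SY_step tps tps SY_tps_dl SY_tps_blk SY_tps_boI SY_tps_far
    (fun X c => SY_tps_far X c t) (SY_tps_bd s) SY_tps_nr
    (fun d' k' => ⟨_, k', rfl, fun c => SY_tps_cell s r d' k' c⟩)
    (fun k => ⟨k, rfl, fun c => SY_tps_cell s r d k c⟩) h

theorem SY_all {c δ q K : ℝ} {r P1 P2 s t : ℕ} (h : SY_In c δ q K r P1 P2 s t Dir.up) (d : Dir) :
    SY_In c δ q K r P1 P2 s (t + 1) d := by
  cases d
  · exact SY_mono (Nat.le_succ t) h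
  · exact SY_up_dn h
  · exact SY_tps Dir.rt (SY_mono (Nat.le_succ t) h)
  · exact SY_tps Dir.lf (SY_up_dn h)

/-- The statement of `in_top` (task IT). -/
def InTop : Prop := ∀ (κ : ℝ) (_ : 0 < κ) (L M1 M2 B P1 P2 : ℕ) (C1 δ : ℝ) (_ : 0 < C1)
    (_ : 0 < δ), ∃ (Mr : ℕ) (c : ℝ), 1 ≤ Mr ∧ 0 < c ∧
    ∀ (q : ℝ) (n : ℕ), Win q κ n → ∀ (r m s : ℕ),
      InD L M1 M2 B P1 P2 r m s (0, 0) (0, 0) → Mr ≤ r → s ≤ n →
      a4 q (m / 8) ≤ C1 * a4 q (4 * L * m) →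
      ∀ (σ1 σ2 : Bool) (k1 k2 : ℤ), |2 * k1| ≤ L * M2 + 1 → |2 * k2| ≤ L * M2 + 1 →
      (m:ℝ) ^ 2 * a4 q (4 * L * m) ≤ C1 * TS q L m r (m / M1) σ1 k1 σ2 k2 →
      ∀ (c0 : ℤ × ℤ) (S : Finset Edg) (I J I' J' : Set Vtx), blk c0 (3 * s) ⊆ S →
      DomD S I J I' J' → FarS (I ∪ J) c0 (3 * s) → FarS (I' ∪ J') c0 (3 * s) →
      ∀ (k : ℤ) (d' : Dir) (k' : ℤ),
      c * (PQ q S (fun F => ESev I J c0 s r (P1 * r) (P2 * r) Dir.up k d' k'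
            ((↑F : Set Edg) \ ↑(boI c0 s))) -
          δ * PQ q S (fun F => BPv I J (blk c0 (3 * s)) ↑F)) * ((m:ℝ) ^ 2 * a4 q (4 * L * m)) ≤
        ∑ e ∈ blk c0 s, PQ q S (fun F => Pv I J e ↑F)

theorem in_all_of (hT : InTop) (κ : ℝ) (hκ : 0 < κ) (L M1 M2 B P1 P2 : ℕ) (C1 δ : ℝ)
    (hC1 : 0 < C1) (hδ : 0 < δ) :
    ∃ (Mr : ℕ) (c : ℝ), 1 ≤ Mr ∧ 0 < c ∧
    ∀ (q : ℝ) (n : ℕ), Win q κ n → ∀ (r m s : ℕ),
      InD L M1 M2 B P1 P2 r m s (0, 0) (0, 0) → Mr ≤ r → s ≤ n →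
      a4 q (m / 8) ≤ C1 * a4 q (4 * L * m) →
      ∀ (σ1 σ2 : Bool) (k1 k2 : ℤ), |2 * k1| ≤ L * M2 + 1 → |2 * k2| ≤ L * M2 + 1 →
      (m:ℝ) ^ 2 * a4 q (4 * L * m) ≤ C1 * TS q L m r (m / M1) σ1 k1 σ2 k2 →
      ∀ (c0 : ℤ × ℤ) (S : Finset Edg) (I J I' J' : Set Vtx), blk c0 (3 * s) ⊆ S →
      DomD S I J I' J' → FarS (I ∪ J) c0 (3 * s) → FarS (I' ∪ J') c0 (3 * s + 1) →
      ∀ (d : Dir) (k : ℤ) (d' : Dir) (k' : ℤ),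
      c * (PQ q S (fun F => ESev I J c0 s r (P1 * r) (P2 * r) d k d' k'
            ((↑F : Set Edg) \ ↑(boI c0 s))) -
          δ * PQ q S (fun F => BPv I J (blk c0 (3 * s)) ↑F)) * ((m:ℝ) ^ 2 * a4 q (4 * L * m)) ≤
        ∑ e ∈ blk c0 s, PQ q S (fun F => Pv I J e ↑F) := by
  obtain ⟨Mr, c, h1, h2, h3⟩ := hT κ hκ L M1 M2 B P1 P2 C1 δ hC1 hδ
  refine ⟨Mr, c, h1, h2, ?_⟩
  intro q n hW r m s hD hr hs ha σ1 σ2 k1 k2 hk1 hk2 hTS c0 S I J I' J' hS hdom hf hf' d k d' k'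
  have hup : SY_In c δ q ((m:ℝ) ^ 2 * a4 q (4 * L * m)) r P1 P2 s (3 * s) Dir.up :=
    h3 q n hW r m s hD hr hs ha σ1 σ2 k1 k2 hk1 hk2 hTS
  exact SY_all hup d c0 S I J I' J' hS hdom hf hf' k d' k'

end H12S
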