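import Pool.Agent.H12R2.Sep.Defs5

/-! The common data `InD` of the inward gluing (batch 5), copied from `Sep/Stubs5.lean`. -/

namespace H12S

open H974 Finset

/-- Common data of the inward gluing: mesh `r`, `m = M2·r`, `s = B·r`, `ρ1 = P1·r`, `ρ2 = P2·r`,
block centre `c0 = r·γ`. -/
structure InD (L M1 M2 B P1 P2 r m s : ℕ) (γ c0 : ℤ × ℤ) : Prop where
  hL : 2 ≤ L
  hM1 : 64 ≤ M1
  hM2 : 8 * M1 ≤ M2
  hP1 : 64 * (4 * L * M2) ≤ P1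
  hP2 : 64 * P1 ≤ P2
  hB : 64 * P2 ≤ B
  hr : 1 ≤ r
  hm : m = M2 * r
  hs : s = B * r
  c1 : c0.1 = r * γ.1
  c2 : c0.2 = r * γ.2
  /-- the thin box is inside the block -/
  g1 : |γ.1| + 4 * L * M2 + 4 ≤ B
  g2 : |γ.2| + 4 * L * M2 + 4 ≤ B

end H12S
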