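import Pool.Agent.H12R2.Sep.Loc

/-!
Sum over the edges in the middle: comparison of the four-arm probabilities in the thin box, in
balls around an edge, and at the origin (task KY1).
-/

set_option maxHeartbeats 400000

namespace H12S

open H974 Finset

/-- The four-arm event around `(x,y,b)` in the ball of radius `k` is the translate of the event
at the origin. -/
theorem A4_trl {x y : ℤ} {k : ℕ} {b : Bool} {F : Set Edg} :
    A4 (x - k) (x + k) (y - k) (y + k) (x, y, b) ((trl x y).φ '' F) ↔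
      A4 (-k) k (-k) k (e0 b) F := by
  have e1 : (trl x y).φ (e0 b) = (x, y, b) := by simp [e0]
  have e2 : (↑(RE (x - k) (x + k) (y - k) (y + k)) : Set Edg) =
      (trl x y).φ '' ↑(RE (-k) k (-k) k) := by
    rw [← LSym.coe_mp, trl_RE]
    congr 2 <;> ring
  have e3 : ((trl x y).φ '' F ∩ ↑(RE (x - k) (x + k) (y - k) (y + k))) \ {(x, y, b)} =
      (trl x y).φ '' ((F ∩ ↑(RE (-k) k (-k) k)) \ {e0 b}) := by
    rw [e2, Set.image_sdiff (trl x y).φ.injective, Set.image_inter (trl x y).φ.injective,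
      Set.image_singleton, e1]
  have e4 : src (x, y, b) = (trl x y).ψ (src (e0 b)) := by
    simp [e0]
  have e5 : tgt (x, y, b) = (trl x y).ψ (tgt (e0 b)) := by
    cases b
    · simp [e0]; ring
    · simp [e0]; ring
  have e6 : ∀ w : Vtx, (trl x y).ψ w ∈ bdR (x - k) (x + k) (y - k) (y + k) ↔
      w ∈ bdR (-k) k (-k) k := by
    rintro ⟨w1, w2⟩
    rw [trl_ψ]
    unfold bdR inR
    simp only [Set.mem_setOf_eq]
    omega
  have e7 : ∀ (G : Set Edg) (v : Vtx),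
      (∃ w ∈ bdR (x - k) (x + k) (y - k) (y + k), Reach ((trl x y).φ '' G) ((trl x y).ψ v) w) ↔
        ∃ w ∈ bdR (-k) k (-k) k, Reach G v w := by
    intro G v
    constructor
    · rintro ⟨w, h1, h2⟩
      obtain ⟨w', rfl⟩ := (trl x y).ψ.surjective w
      exact ⟨w', (e6 w').mp h1, (trl x y).reach_iff.mp h2⟩
    · rintro ⟨w, h1, h2⟩
      exact ⟨_, (e6 w).mpr h1, (trl x y).reach_iff.mpr h2⟩
  unfold A4
  rw [e3, e4, e5, e7, e7, LSym.reach_iff]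

theorem A4_inter {a b c d : ℤ} {e : Edg} {F S : Finset Edg} (hS : RE a b c d ⊆ S) :
    A4 a b c d e ↑F ↔ A4 a b c d e ↑(F ∩ S) := by
  unfold A4
  rw [coe_inter_eq hS]

/-- Probability of the four-arm event in a ball around an edge. -/
theorem pr_A4_ball {q : ℝ} {x y : ℤ} {k : ℕ} {b : Bool} {S : Finset Edg}
    (hS : RE (x - k) (x + k) (y - k) (y + k) ⊆ S) :
    PQ q S (fun F => A4 (x - k) (x + k) (y - k) (y + k) (x, y, b) ↑F) =
      PQ q (boxE k) (fun F => A4 (-k) k (-k) k (e0 b) ↑F) := by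
  have e0' : PQ q S (fun F => A4 (x - k) (x + k) (y - k) (y + k) (x, y, b) ↑F) =
      PQ q (RE (x - k) (x + k) (y - k) (y + k))
        (fun F => A4 (x - k) (x + k) (y - k) (y + k) (x, y, b) ↑F) :=
    Pr_local hS (fun F _ => A4_inter (Finset.Subset.refl _))
  have e1 : RE (x - k) (x + k) (y - k) (y + k) = (trl x y).mp (boxE k) := by
    unfold boxE
    rw [trl_RE]
    congr 1 <;> ring
  have e2 : PQ q (RE (x - k) (x + k) (y - k) (y + k))
        (fun F => A4 (x - k) (x + k) (y - k) (y + k) (x, y, b) ↑F) =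
      PQ q (boxE k)
        (fun F => A4 (x - k) (x + k) (y - k) (y + k) (x, y, b) ↑((trl x y).mp F)) := by
    rw [e1]
    exact LSym.pr _ _ _ _
  rw [e0', e2]
  apply Pr_congr
  intro F _
  rw [LSym.coe_mp]
  exact A4_trl

/-- Half of `a4`. -/
noncomputable def a4b (q : ℝ) (k : ℕ) (b : Bool) : ℝ :=
  PQ q (boxE k) (fun F => A4 (-k) k (-k) k (e0 b) ↑F)

theorem a4_eq (q : ℝ) (k : ℕ) : a4 q k = a4b q k true + a4b q k false := rfl

theorem a4b_nonneg {q : ℝ} (h0 : 0 ≤ q) (h1 : q ≤ 1) (k : ℕ) (b : Bool) : 0 ≤ a4b q k b :=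
  Pr_nonneg (okq h0 h1) _ _

theorem a4b_le_one {q : ℝ} (h0 : 0 ≤ q) (h1 : q ≤ 1) (k : ℕ) (b : Bool) : a4b q k b ≤ 1 :=
  Pr_le_one (okq h0 h1) _ _

theorem a4b_le {q : ℝ} (h0 : 0 ≤ q) (h1 : q ≤ 1) (k : ℕ) (b : Bool) : a4b q k b ≤ a4 q k := by
  rw [a4_eq]
  have h2 := a4b_nonneg h0 h1 k true
  have h3 := a4b_nonneg h0 h1 k false
  cases b <;> linarith

theorem a4b_anti {q : ℝ} (h0 : 0 ≤ q) (h1 : q ≤ 1) {j k : ℕ} (hj : 1 ≤ j) (h : j ≤ k) (b : Bool) :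
    a4b q k b ≤ a4b q j b := by
  have he : e0 b ∈ RE (-(j:ℤ)) j (-j) j := by
    unfold e0
    cases b
    · rw [mem_RE_false]; omega
    · rw [mem_RE_true]; omega
  have h2 : PQ q (boxE k) (fun F => A4 (-j) j (-j) j (e0 b) ↑F) = a4b q j b :=
    Pr_local (S' := boxE j) (boxE_mono h) (fun F _ => A4_inter (Finset.Subset.refl _))
  rw [← h2]
  apply Pr_mono (okq h0 h1)
  intro F _ hF
  exact A4_sub (by omega) (by omega) (by omega) (by omega) he hF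

/-- Monotonicity of the four-arm probability (the case `j = 0` is degenerate: `a4 q 0 = 0`). -/
theorem a4_anti {q : ℝ} (h0 : 0 ≤ q) (h1 : q ≤ 1) {j k : ℕ} (hj : 1 ≤ j) (h : j ≤ k) :
    a4 q k ≤ a4 q j := by
  rw [a4_eq, a4_eq]
  exact add_le_add (a4b_anti h0 h1 hj h true) (a4b_anti h0 h1 hj h false)

theorem a4_le_two {q : ℝ} (h0 : 0 ≤ q) (h1 : q ≤ 1) (k : ℕ) : a4 q k ≤ 2 := by
  rw [a4_eq]
  have h2 := a4b_le_one h0 h1 k true
  have h3 := a4b_le_one h0 h1 k false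
  linarith

theorem a4_nonneg {q : ℝ} (h0 : 0 ≤ q) (h1 : q ≤ 1) (k : ℕ) : 0 ≤ a4 q k := by
  rw [a4_eq]
  have h2 := a4b_nonneg h0 h1 k true
  have h3 := a4b_nonneg h0 h1 k false
  linarith

/-- Coordinates of the edges of a box. -/
theorem mem_boxE_bounds {n : ℕ} {x y : ℤ} {b : Bool} (h : (x, y, b) ∈ boxE n) :
    -n ≤ x ∧ x ≤ n ∧ -n ≤ y ∧ y ≤ n := by
  unfold boxE at h
  cases b
  · rw [mem_RE_false] at h; omega
  · rw [mem_RE_true] at h; omega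

/-- The four-arm probability in the thin box dominates the one in a large ball. -/
theorem thin_ge {q : ℝ} (h0 : 0 ≤ q) (h1 : q ≤ 1) {L m : ℕ} (hL : 2 ≤ L) (hm : 64 ≤ m)
    {x y : ℤ} {b : Bool} (he : (x, y, b) ∈ boxE (m / 4)) :
    a4b q (4 * L * m) b ≤ PQ q (SR L m)
      (fun F => A4 (-(2 * L * m : ℕ)) (2 * L * m : ℕ) (-m) m (x, y, b) ↑F) := by
  obtain ⟨N, hN⟩ : ∃ N : ℕ, N = L * m := ⟨_, rfl⟩
  have hN2 : 2 * L * m = 2 * N := by rw [hN]; ring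
  have hN4 : 4 * L * m = 4 * N := by rw [hN]; ring
  have hNm : 2 * m ≤ N := by rw [hN]; exact Nat.mul_le_mul_right _ hL
  unfold SR
  rw [hN2, hN4]
  have hb := mem_boxE_bounds he
  have hsub : RE (-((2 * N : ℕ) : ℤ)) ((2 * N : ℕ) : ℤ) (-m) m ⊆
      RE (x - (4 * N : ℕ)) (x + (4 * N : ℕ)) (y - (4 * N : ℕ)) (y + (4 * N : ℕ)) :=
    RE_subset (by omega) (by omega) (by omega) (by omega)
  have hmem : (x, y, b) ∈ RE (-((2 * N : ℕ) : ℤ)) ((2 * N : ℕ) : ℤ) (-m) m := by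
    unfold boxE at he
    cases b
    · rw [mem_RE_false] at he ⊢; omega
    · rw [mem_RE_true] at he ⊢; omega
  have e1 : PQ q (RE (x - (4 * N : ℕ)) (x + (4 * N : ℕ)) (y - (4 * N : ℕ)) (y + (4 * N : ℕ)))
      (fun F => A4 (-((2 * N : ℕ) : ℤ)) ((2 * N : ℕ) : ℤ) (-m) m (x, y, b) ↑F) =
      PQ q (RE (-((2 * N : ℕ) : ℤ)) ((2 * N : ℕ) : ℤ) (-m) m)
      (fun F => A4 (-((2 * N : ℕ) : ℤ)) ((2 * N : ℕ) : ℤ) (-m) m (x, y, b) ↑F) :=
    Pr_local hsub (fun F _ => A4_inter (Finset.Subset.refl _))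
  have e2 : a4b q (4 * N) b = _ :=
    (pr_A4_ball (q := q) (x := x) (y := y) (k := 4 * N) (b := b) (Finset.Subset.refl _)).symm
  rw [e2, ← e1]
  apply Pr_mono (okq h0 h1)
  intro F _ hF
  exact A4_sub (by omega) (by omega) (by omega) (by omega) hmem hF

/-- Lower bound for sums of a function of the orientation. -/
theorem sum_orient_ge {n : ℕ} {f : Bool → ℝ} (hf : ∀ b, 0 ≤ f b) :
    (2 * (n:ℝ)) ^ 2 * (f true + f false) ≤ ∑ e ∈ boxE n, f e.2.2 := by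
  have hsub : (Ico (-(n:ℤ)) n) ×ˢ ((Ico (-(n:ℤ)) n) ×ˢ (univ : Finset Bool)) ⊆ boxE n := by
    rintro ⟨x, y, b⟩ h
    rw [Finset.mem_product, Finset.mem_product, Finset.mem_Ico, Finset.mem_Ico] at h
    unfold boxE
    simp only at h
    cases b
    · rw [mem_RE_false]; omega
    · rw [mem_RE_true]; omega
  refine le_trans (le_of_eq ?_) (Finset.sum_le_sum_of_subset_of_nonneg hsub
    (fun e _ _ => hf e.2.2))
  rw [Finset.sum_product]
  have hc : (Ico (-(n:ℤ)) n).card = 2 * n := by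
    rw [Int.card_Ico]; omega
  have h1 : ∀ x ∈ Ico (-(n:ℤ)) n,
      ∑ p ∈ (Ico (-(n:ℤ)) n) ×ˢ (univ : Finset Bool), f (x, p).2.2 =
        (2 * (n:ℝ)) * (f true + f false) := by
    intro x _
    rw [Finset.sum_product]
    simp only [Fintype.sum_bool, Finset.sum_const, hc, nsmul_eq_mul]
    push_cast
    ring
  rw [Finset.sum_congr rfl h1, Finset.sum_const, hc, nsmul_eq_mul]
  push_cast
  ring

/-- `(m²/8)·a4(4Lm) ≤ Σ_{e in the middle} P(A4(thin box) e)`. -/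
theorem a4_sum_ge {q : ℝ} (h0 : 0 ≤ q) (h1 : q ≤ 1) {L m : ℕ} (hL : 2 ≤ L) (hm : 64 ≤ m) :
    (m:ℝ) ^ 2 / 8 * a4 q (4 * L * m) ≤ ∑ e ∈ boxE (m / 4), PQ q (SR L m)
      (fun F => A4 (-(2 * L * m : ℕ)) (2 * L * m : ℕ) (-m) m e ↑F) := by
  have hn : (m:ℝ) - 3 ≤ 4 * ((m / 4 : ℕ) : ℝ) := by
    have : m ≤ 4 * (m / 4) + 3 := by omega
    have h2 : (m:ℝ) ≤ 4 * ((m / 4 : ℕ) : ℝ) + 3 := by exact_mod_cast this
    linarith
  have hm' : (64:ℝ) ≤ m := by exact_mod_cast hm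
  have h3 := sum_orient_ge (n := m / 4) (f := a4b q (4 * L * m)) (a4b_nonneg h0 h1 _)
  have h4 : (m:ℝ) ^ 2 / 8 ≤ (2 * ((m / 4 : ℕ) : ℝ)) ^ 2 := by nlinarith
  have h5 : 0 ≤ a4 q (4 * L * m) := a4_nonneg h0 h1 _
  calc (m:ℝ) ^ 2 / 8 * a4 q (4 * L * m)
      ≤ (2 * ((m / 4 : ℕ) : ℝ)) ^ 2 * a4 q (4 * L * m) := mul_le_mul_of_nonneg_right h4 h5
    _ ≤ ∑ e ∈ boxE (m / 4), a4b q (4 * L * m) e.2.2 := h3
    _ ≤ _ := by
        apply Finset.sum_le_sum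
        rintro ⟨x, y, b⟩ he
        exact thin_ge h0 h1 hL hm he

/-- `Q_ij` implies that `e` is pivotal. -/
theorem Qev_Pv {m r ρ : ℕ} (hr : r ≤ 2 * ρ) {σ σ' : Bool} {x x' : ℤ} {e : Edg} {F : Set Edg}
    (h : Qev m r ρ σ x σ' x' e F) : Pv (cell σ m x r) (cell σ' m x' r) e F := by
  obtain ⟨⟨u, hu, hru⟩, ⟨v, hv, hrv⟩, h3, -⟩ := h
  have hsub : F \ {e} ⊆ insert e F := fun z hz => Or.inr hz.1
  refine ⟨⟨u, hu, v, hv, ?_⟩, ?_⟩
  · have h4 : Reach (insert e F) (src e) (tgt e) :=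
      Adj.reach ⟨e, Set.mem_insert _ _, Or.inl ⟨rfl, rfl⟩⟩
    exact ((hru.symm.mono hsub).trans h4).trans (hrv.mono hsub)
  · rintro ⟨a, ha, b, hb, hab⟩
    refine h3 a ha b ?_ hab
    rw [mem_cell] at hb ⊢
    push_cast
    omega

theorem TQ_le_TP {q : ℝ} (h0 : 0 ≤ q) (h1 : q ≤ 1) (L m : ℕ) {r ρ : ℕ} (hr : r ≤ 2 * ρ)
    (σ : Bool) (k : ℤ) (σ' : Bool) (k' : ℤ) :
    TQ q L m r ρ σ k σ' k' ≤ TP q L m r σ k σ' k' := by
  unfold TQ TP
  apply Finset.sum_le_sum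
  intro e _
  exact Pr_mono (okq h0 h1) (fun F _ hF => Qev_Pv hr hF)

theorem card_boxE_le {m : ℕ} (hm : 16 ≤ m) : ((boxE (m / 4)).card : ℝ) ≤ (m:ℝ) ^ 2 := by
  have h1 : (boxE (m / 4)).card ≤ (2 * (m / 4) + 1) * ((2 * (m / 4) + 1) * 2) := by
    unfold boxE RE
    refine (Finset.card_filter_le _ _).trans ?_
    rw [Finset.card_product, Finset.card_product, Int.card_Icc]
    have e1 : (((m / 4 : ℕ) : ℤ) + 1 - (-((m / 4 : ℕ) : ℤ))).toNat = 2 * (m / 4) + 1 := by omega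
    rw [e1]
    simp
  have h2 : ((boxE (m / 4)).card : ℝ) ≤
      (2 * ((m / 4 : ℕ) : ℝ) + 1) * ((2 * ((m / 4 : ℕ) : ℝ) + 1) * 2) := by exact_mod_cast h1
  have h3 : 4 * ((m / 4 : ℕ) : ℝ) ≤ m := by
    have : 4 * (m / 4) ≤ m := by omega
    exact_mod_cast this
  have h4 : (16:ℝ) ≤ m := by exact_mod_cast hm
  have h5 : (0:ℝ) ≤ ((m / 4 : ℕ) : ℝ) := Nat.cast_nonneg _
  nlinarith

/-- The sum of the pivotal probabilities is at most `m² a4(m/2)`. -/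
theorem tp_le {q : ℝ} (h0 : 0 ≤ q) (h1 : q ≤ 1) {L m r : ℕ} (hm : 16 ≤ m) (hL : 2 ≤ L) (σ : Bool)
    (k1 : ℤ) (σ' : Bool) (k2 : ℤ) : TP q L m r σ k1 σ' k2 ≤ (m:ℝ) ^ 2 * a4 q (m / 2) := by
  obtain ⟨N, hN⟩ : ∃ N : ℕ, N = L * m := ⟨_, rfl⟩
  have hN2 : 2 * L * m = 2 * N := by rw [hN]; ring
  have hNm : 2 * m ≤ N := by rw [hN]; exact Nat.mul_le_mul_right _ hL
  have key : ∀ e ∈ boxE (m / 4), PQ q (SR L m)
      (fun F => Pv (cell σ m (2 * r * k1) r) (cell σ' m (2 * r * k2) r) e ↑F) ≤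
        a4 q (m / 2) := by
    rintro ⟨x, y, b⟩ he
    refine le_trans ?_ (a4b_le h0 h1 (m / 2) b)
    have hb := mem_boxE_bounds he
    have hS : RE (x - (m / 2 : ℕ)) (x + (m / 2 : ℕ)) (y - (m / 2 : ℕ)) (y + (m / 2 : ℕ)) ⊆
        SR L m := by
      unfold SR
      rw [hN2]
      exact RE_subset (by omega) (by omega) (by omega) (by omega)
    have e2 : PQ q (SR L m) (fun F => A4 (x - (m / 2 : ℕ)) (x + (m / 2 : ℕ)) (y - (m / 2 : ℕ))
        (y + (m / 2 : ℕ)) (x, y, b) ↑F) = a4b q (m / 2) b := pr_A4_ball hS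
    rw [← e2]
    apply Pr_mono (okq h0 h1)
    intro F _ hF
    refine loc_a4 ?_ ?_ hF
    · cases b
      · rw [mem_RE_false]; omega
      · rw [mem_RE_true]; omega
    · rintro v (hv | hv)
      · rw [mem_cell] at hv
        unfold sy at hv
        intro hc
        cases σ
        · simp only [Bool.false_eq_true, if_false] at hv; omega
        · simp only [if_true] at hv; omega
      · rw [mem_cell] at hv
        unfold sy at hv
        intro hc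
        cases σ'
        · simp only [Bool.false_eq_true, if_false] at hv; omega
        · simp only [if_true] at hv; omega
  unfold TP
  calc _ ≤ ∑ _e ∈ boxE (m / 4), a4 q (m / 2) := Finset.sum_le_sum key
    _ = ((boxE (m / 4)).card : ℝ) * a4 q (m / 2) := by
        rw [Finset.sum_const, nsmul_eq_mul]
    _ ≤ (m:ℝ) ^ 2 * a4 q (m / 2) :=
        mul_le_mul_of_nonneg_right (card_boxE_le hm) (a4_nonneg h0 h1 _)

end H12S
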