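import Pool.Agent.H12R2.Sep.InD
import Pool.Agent.H12R2.Sep.InAll
import Pool.Agent.H12R2.Sep.Key1
import Pool.Agent.H12R2.Sep.CorX

/-!
IT (helper655): the inward inequality for a landing cell on the top side.
-/

set_option maxHeartbeats 400000

namespace H12S

open H974 Finset

/-! ### Symmetries -/

theorem it_cn (g : LSym) {I J : Set Vtx} {F : Set Edg} :
    Cn (g.ψ '' I) (g.ψ '' J) (g.φ '' F) ↔ Cn I J F := by
  unfold Cn
  constructor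
  · rintro ⟨_, ⟨u, hu, rfl⟩, _, ⟨v, hv, rfl⟩, h⟩
    exact ⟨u, hu, v, hv, g.reach_iff.1 h⟩
  · rintro ⟨u, hu, v, hv, h⟩
    exact ⟨_, ⟨u, hu, rfl⟩, _, ⟨v, hv, rfl⟩, g.reach_iff.2 h⟩

theorem it_pv (g : LSym) {I J : Set Vtx} {e : Edg} {F : Set Edg} :
    Pv (g.ψ '' I) (g.ψ '' J) (g.φ e) (g.φ '' F) ↔ Pv I J e F := by
  unfold Pv
  rw [← Set.image_insert_eq, ← Set.image_singleton, ← Set.image_sdiff g.φ.injective, it_cn, it_cn]

theorem it_bpv (g : LSym) {I J : Set Vtx} {b : Finset Edg} {F : Set Edg} :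
    BPv (g.ψ '' I) (g.ψ '' J) (g.mp b) (g.φ '' F) ↔ BPv I J b F := by
  unfold BPv
  rw [LSym.coe_mp, ← Set.image_union, ← Set.image_sdiff g.φ.injective, it_cn, it_cn]

theorem it_cl (g : LSym) {X : Set Vtx} {F : Set Edg} {x : Vtx} :
    g.ψ x ∈ Cl src tgt (g.ψ '' X) (g.φ '' F) ↔ x ∈ Cl src tgt X F := by
  unfold Cl
  constructor
  · rintro ⟨_, ⟨u, hu, rfl⟩, h⟩
    exact ⟨u, hu, g.reach_iff.1 h⟩
  · rintro ⟨u, hu, h⟩
    exact ⟨_, ⟨u, hu, rfl⟩, g.reach_iff.2 h⟩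

theorem it_mem (a b : ℤ) {X : Set Vtx} {v : Vtx} :
    v ∈ (trl a b).ψ '' X ↔ (v.1 - a, v.2 - b) ∈ X := by
  obtain ⟨x, y⟩ := v
  constructor
  · rintro ⟨⟨x', y'⟩, h, h'⟩
    rw [trl_ψ, Prod.mk.injEq] at h'
    obtain ⟨rfl, rfl⟩ := h'
    simpa using h
  · intro h
    exact ⟨_, h, by rw [trl_ψ]; simp⟩

theorem it_cellB (a b : ℤ) (c : ℤ × ℤ) (s r : ℕ) (d : Dir) (k : ℤ) :
    cellB (c.1 + a, c.2 + b) s r d k = (trl a b).ψ '' cellB c s r d k := by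
  ext ⟨x, y⟩
  rw [it_mem]
  cases d <;> simp only [cellB, cenB, segD, Set.mem_ofPred_eq] <;> omega

theorem it_bdB (a b : ℤ) (c : ℤ × ℤ) (s : ℕ) :
    bdB (c.1 + a, c.2 + b) s = (trl a b).ψ '' bdB c s := by
  ext ⟨x, y⟩
  rw [it_mem]
  simp only [bdB, Set.mem_ofPred_eq]
  rw [show x - (c.1 + a) = x - a - c.1 by ring, show y - (c.2 + b) = y - b - c.2 by ring]

theorem it_esev (a b : ℤ) {I J : Set Vtx} {c : ℤ × ℤ} {s r ρ1 ρ2 : ℕ} {d : Dir} {k : ℤ}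
    {d' : Dir} {k' : ℤ} {F : Set Edg} :
    ESev ((trl a b).ψ '' I) ((trl a b).ψ '' J) (c.1 + a, c.2 + b) s r ρ1 ρ2 d k d' k'
      ((trl a b).φ '' F) ↔ ESev I J c s r ρ1 ρ2 d k d' k' F := by
  unfold ESev
  rw [it_cellB, it_cellB, it_bdB, ← Set.image_union, ← Set.image_union]
  refine and_congr Iff.rfl (and_congr ?_ (and_congr ?_ (and_congr ?_ (not_congr (it_cn _)))))
  · constructor
    · rintro ⟨_, ⟨u, hu, rfl⟩, h⟩
      exact ⟨u, hu, (it_cl _).1 h⟩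
    · rintro ⟨u, hu, h⟩
      exact ⟨_, ⟨u, hu, rfl⟩, (it_cl _).2 h⟩
  · constructor
    · rintro ⟨_, ⟨u, hu, rfl⟩, h⟩
      exact ⟨u, hu, (it_cl _).1 h⟩
    · rintro ⟨u, hu, h⟩
      exact ⟨_, ⟨u, hu, rfl⟩, (it_cl _).2 h⟩
  · have hN : ∀ v w : Vtx, Nr ρ1 ((trl a b).ψ v) ((trl a b).ψ w) ↔ Nr ρ1 v w := by
      rintro ⟨v1, v2⟩ ⟨w1, w2⟩
      rw [trl_ψ, trl_ψ]
      unfold Nr
      simp only
      rw [show v1 + a - (w1 + a) = v1 - w1 by ring, show v2 + b - (w2 + b) = v2 - w2 by ring]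
    constructor
    · intro h v hv v' hv' h1 h2 h3
      exact h _ ((it_cl _).2 hv) _ ((it_cl _).2 hv') ⟨v, h1, rfl⟩ ⟨v', h2, rfl⟩ ((hN _ _).2 h3)
    · intro h v hv v' hv' h1 h2 h3
      obtain ⟨w, hw, rfl⟩ := h1
      obtain ⟨w', hw', rfl⟩ := h2
      exact h w ((it_cl _).1 hv) w' ((it_cl _).1 hv') hw hw' ((hN _ _).1 h3)

theorem it_blk (a b : ℤ) (c : ℤ × ℤ) (s : ℕ) :
    blk (c.1 + a, c.2 + b) s = (trl a b).mp (blk c s) := by
  unfold blk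
  rw [trl_RE]
  congr 1 <;> simp only <;> ring

theorem it_boI (a b : ℤ) (c : ℤ × ℤ) (s : ℕ) :
    boI (c.1 + a, c.2 + b) s = (trl a b).mp (boI c s) := by
  classical
  have hmem : ∀ (c : ℤ × ℤ) (e : Edg), e ∈ boI c s ↔
      e ∈ blk c s ∧ Tch {v : Vtx | |v.1 - c.1| < s ∧ |v.2 - c.2| < s} e := by
    intro c e
    unfold boI
    rw [Finset.mem_filter]
  ext e
  rw [LSym.mem_mp, hmem, hmem, it_blk, LSym.mem_mp]
  refine and_congr Iff.rfl ?_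
  obtain ⟨x, y, _ | _⟩ := e
  · rw [trl_φs]
    simp only [Tch, src_mk, tgt_false, Set.mem_ofPred_eq]
    rw [show x - (c.1 + a) = x - a - c.1 by ring, show y - (c.2 + b) = y - b - c.2 by ring,
      show y + 1 - (c.2 + b) = y - b + 1 - c.2 by ring]
  · rw [trl_φs]
    simp only [Tch, src_mk, tgt_true, Set.mem_ofPred_eq]
    rw [show x - (c.1 + a) = x - a - c.1 by ring, show y - (c.2 + b) = y - b - c.2 by ring,
      show x + 1 - (c.1 + a) = x - a + 1 - c.1 by ring]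

theorem it_dmp (a b : ℤ) (F : Finset Edg) : dmp ((trl a b).mp F) = (trl a b).mp (dmp F) := by
  ext ⟨x, y, _ | _⟩
  · rw [mem_dmp, dls_f, LSym.mem_mp, LSym.mem_mp, trl_φs, trl_φs, mem_dmp, dls_f,
      show y + 1 - b = y - b + 1 by ring]
  · rw [mem_dmp, dls_t, LSym.mem_mp, LSym.mem_mp, trl_φs, trl_φs, mem_dmp, dls_t,
      show x + 1 - a = x - a + 1 by ring]

theorem it_dom (a b : ℤ) {S : Finset Edg} {I J I' J' : Set Vtx} (h : DomD S I J I' J') :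
    DomD ((trl a b).mp S) ((trl a b).ψ '' I) ((trl a b).ψ '' J) ((trl a b).ψ '' I')
      ((trl a b).ψ '' J') := by
  intro G hG
  obtain ⟨G', hG', rfl⟩ : ∃ G' ⊆ S, G = (trl a b).mp G' := by
    refine ⟨(trl a b).inv.mp G, ?_, ?_⟩
    · intro e he
      rw [LSym.mem_mp] at he
      have h1 := hG he
      rw [LSym.mem_mp] at h1
      simpa [LSym.inv] using h1
    · ext e
      rw [LSym.mem_mp, LSym.mem_mp]
      simp [LSym.inv]
  rw [LSym.coe_mp, it_cn, h G' hG', ← LSym.mp_sdiff, it_dmp, LSym.coe_mp, it_cn]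

theorem it_far (a b : ℤ) {X : Set Vtx} {c : ℤ × ℤ} {t : ℕ} (h : FarS X c t) :
    FarS ((trl a b).ψ '' X) (c.1 + a, c.2 + b) t := by
  rintro _ ⟨⟨x, y⟩, hv, rfl⟩
  have h1 := h _ hv
  rw [trl_ψ]
  simp only at h1 ⊢
  rwa [show x + a - (c.1 + a) = x - c.1 by ring, show y + b - (c.2 + b) = y - c.2 by ring]

theorem it_blk_mono {c : ℤ × ℤ} {s t : ℕ} (h : s ≤ t) : blk c s ⊆ blk c t := by
  unfold blk
  apply RE_subset <;> omega

theorem it_far_mono {X : Set Vtx} {c : ℤ × ℤ} {s t : ℕ} (h : s ≤ t) (hX : FarS X c t) :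
    FarS X c s := by
  intro v hv
  rcases hX v hv with h1 | h1
  · left; exact le_trans (by exact_mod_cast h) h1
  · right; exact le_trans (by exact_mod_cast h) h1

/-! ### Impossible parameters -/

theorem it_center (c : ℤ × ℤ) (s r : ℕ) (d : Dir) (k : ℤ) :
    cenB c s d (2 * r * k) ∈ cellB c s r d k := by
  have hr : (0:ℤ) ≤ r := by positivity
  have h1 : ∀ x : ℤ, x - r ≤ x := fun x => by linarith
  have h2 : ∀ x : ℤ, x ≤ x + r := fun x => by linarith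
  cases d
  · exact ⟨rfl, h1 _, h2 _⟩
  · exact ⟨rfl, h1 _, h2 _⟩
  · exact ⟨rfl, h1 _, h2 _⟩
  · exact ⟨rfl, h1 _, h2 _⟩

theorem it_no_esev {I J : Set Vtx} {c : ℤ × ℤ} {s r ρ1 ρ2 : ℕ} {k k' : ℤ} {F : Set Edg}
    (h : |2 * (r:ℤ) * k - 2 * r * k'| ≤ ρ1) :
    ¬ ESev I J c s r ρ1 ρ2 Dir.up k Dir.up k' F := by
  rintro ⟨⟨h1, h2⟩, _, _, h3, _⟩
  rw [abs_mul, abs_mul] at h1 h2
  refine h3 _ ⟨_, Or.inr (it_center c s r Dir.up k), Relation.ReflTransGen.refl⟩ _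
    ⟨_, Or.inr (it_center c s r Dir.up k'), Relation.ReflTransGen.refl⟩ ?_ ?_ ?_
  · refine ⟨?_, ?_, Or.inr ?_⟩
    · simp only [cenB]
      rw [show c.1 + 2 * (r:ℤ) * k - c.1 = 2 * r * k by ring, abs_mul, abs_mul]
      omega
    · simp only [cenB]
      rw [show c.2 + (s:ℤ) - c.2 = s by ring]
      simp
    · simp only [cenB]
      rw [show c.2 + (s:ℤ) - c.2 = s by ring]
      simp
  · refine ⟨?_, ?_, Or.inr ?_⟩
    · simp only [cenB]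
      rw [show c.1 + 2 * (r:ℤ) * k' - c.1 = 2 * r * k' by ring, abs_mul, abs_mul]
      omega
    · simp only [cenB]
      rw [show c.2 + (s:ℤ) - c.2 = s by ring]
      simp
    · simp only [cenB]
      rw [show c.2 + (s:ℤ) - c.2 = s by ring]
      simp
  · refine ⟨?_, ?_⟩
    · simp only [cenB]
      rw [show c.1 + 2 * (r:ℤ) * k - (c.1 + 2 * (r:ℤ) * k') = 2 * (r:ℤ) * k - 2 * r * k' by ring]
      exact h
    · simp only [cenB]
      rw [show c.2 + (s:ℤ) - (c.2 + s) = 0 by ring, abs_zero]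
      positivity

theorem it_no_sev {L m r ρ : ℕ} {σ : Bool} {x x' : ℤ} {e : Edg} {F : Set Edg}
    (h : |x - x'| ≤ ρ) : ¬ Sev L m r ρ σ x σ x' e F := by
  rintro ⟨_, h2, _⟩
  have hm : ∀ z : ℤ, (z, if σ then (m:ℤ) else -m) ∈ cell σ m z r := by
    intro z
    have hr : (0:ℤ) ≤ r := by positivity
    have h1 : ∀ x : ℤ, x - r ≤ x := fun x => by linarith
    have h2 : ∀ x : ℤ, x ≤ x + r := fun x => by linarith
    exact ⟨rfl, h1 _, h2 _⟩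
  have h3 := h2 _ (hm x) _ (hm x') _ _ (Reach.refl _ _) (Reach.refl _ _) (by
    simp only
    split_ifs <;> simp) rfl
  exact absurd h3 (not_lt.2 h)

/-- The statement of `in1`. -/
def ItIn1 : Prop := ∀ (κ : ℝ) (_ : 0 < κ) (L M1 M2 B P1 P2 : ℕ),
    ∃ (Mr : ℕ) (c : ℝ), 1 ≤ Mr ∧ 0 < c ∧
    ∀ (q : ℝ) (n : ℕ), Win q κ n → ∀ (r m s : ℕ) (γ c0 : ℤ × ℤ),
      InD L M1 M2 B P1 P2 r m s γ c0 → Mr ≤ r → s ≤ n →
      ∀ (S : Finset Edg) (I J : Set Vtx), blk c0 (2 * s) ⊆ S → FarS (I ∪ J) c0 (2 * s) →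
      ∀ (d d' : Dir) (k k' : ℤ) (σ σ' : Bool) (k1 k2 : ℤ) (Q1 Q3 : Finset (ℤ × ℤ)), SepQ Q1 Q3 →
      ((CorX L M2 B γ d k σ k1 Q1 ∧ CorX L M2 B γ d' k' σ' k2 Q3) ∨
        (CorX L M2 B γ d k σ' k2 Q1 ∧ CorX L M2 B γ d' k' σ k1 Q3)) →
      ∀ QV : Finset Edg, QV = QE r (Q1 ∪ Q3) → ∀ e ∈ boxE (m / 4),
      c * (PQ q S (fun F => ESev I J c0 s r (P1 * r) (P2 * r) d k d' k'
            ((↑F : Set Edg) \ ↑(boI c0 s))) *
          PQ q (SR L m) (fun F => Sev L m r (m / M1) σ (2 * r * k1) σ' (2 * r * k2) e ↑F)) ≤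
        PQ q (S \ QV) (fun F => Z1 I J QV e ↑F)

/-- The statement of `in2`. -/
def ItIn2 : Prop := ∀ (κ : ℝ) (_ : 0 < κ) (L M1 M2 B P1 P2 : ℕ) (δ : ℝ) (_ : 0 < δ),
    ∃ (Mr : ℕ) (c : ℝ), 1 ≤ Mr ∧ 0 < c ∧
    ∀ (q : ℝ) (n : ℕ), Win q κ n → ∀ (r m s : ℕ) (γ c0 : ℤ × ℤ),
      InD L M1 M2 B P1 P2 r m s γ c0 → Mr ≤ r → s ≤ n →
      ∀ (S : Finset Edg) (I J I' J' : Set Vtx), blk c0 (3 * s) ⊆ S → DomD S I J I' J' →
      FarS (I ∪ J) c0 (3 * s) → FarS (I' ∪ J') c0 (3 * s) →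
      ∀ (d d' : Dir) (k k' : ℤ) (σ σ' : Bool) (k1 k2 : ℤ) (Q1 Q3 : Finset (ℤ × ℤ)), SepQ Q1 Q3 →
      CorX L M2 B γ d k σ k1 Q1 → CorX L M2 B γ d' k' σ' k2 Q3 →
      ∀ QV : Finset Edg, QV = QE r (Q1 ∪ Q3) → ∀ e ∈ boxE (m / 4),
      c * (PQ q (S \ QV) (fun F => Z1 I J QV e ↑F) -
          δ * (a4 q (m / 8) * PQ q S (fun F => BPv I J (blk c0 (3 * s)) ↑F))) ≤
        PQ q S (fun F => Pv I J e ↑F)

/-! ### The theorem with the thin box at the origin -/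

theorem it_core (in1 : ItIn1) (in2 : ItIn2) (κ : ℝ) (hκ : 0 < κ) (L M1 M2 B P1 P2 : ℕ) (C1 δ : ℝ) (hC1 : 0 < C1)
    (hδ : 0 < δ) : ∃ (Mr : ℕ) (c : ℝ), 1 ≤ Mr ∧ 0 < c ∧
    ∀ (q : ℝ) (n : ℕ), Win q κ n → ∀ (r m s : ℕ),
      InD L M1 M2 B P1 P2 r m s (0, 0) (0, 0) → Mr ≤ r → s ≤ n →
      a4 q (m / 8) ≤ C1 * a4 q (4 * L * m) →
      ∀ (σ1 σ2 : Bool) (k1 k2 : ℤ), |2 * k1| ≤ L * M2 + 1 → |2 * k2| ≤ L * M2 + 1 →
      (m:ℝ) ^ 2 * a4 q (4 * L * m) ≤ C1 * TS q L m r (m / M1) σ1 k1 σ2 k2 →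
      ∀ (c0 : ℤ × ℤ) (S : Finset Edg) (I J I' J' : Set Vtx), blk c0 (3 * s) ⊆ S →
      DomD S I J I' J' → FarS (I ∪ J) c0 (3 * s) → FarS (I' ∪ J') c0 (3 * s) →
      ∀ (k : ℤ) (d' : Dir) (k' : ℤ), |2 * k| + 2 * P2 ≤ B → |2 * k'| + 2 * P2 ≤ B →
      (d' = Dir.up → (P1:ℤ) < |2 * k - 2 * k'|) →
      (σ1 = σ2 → 4 ≤ |k1 - k2|) →
      c0 = ((r:ℤ) * (-(2 * k)), (r:ℤ) * (4 * L * M2 + 8 - B)) →
      c * (PQ q S (fun F => ESev I J c0 s r (P1 * r) (P2 * r) Dir.up k d' k'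
            ((↑F : Set Edg) \ ↑(boI c0 s))) -
          δ * PQ q S (fun F => BPv I J (blk c0 (3 * s)) ↑F)) * ((m:ℝ) ^ 2 * a4 q (4 * L * m)) ≤
        ∑ e ∈ blk c0 s, PQ q S (fun F => Pv I J e ↑F) := by
  obtain ⟨Mr1, c1, hMr1, hc1, H1⟩ := in1 κ hκ L M1 M2 B P1 P2
  have hδ' : 0 < δ * c1 / C1 ^ 2 := by positivity
  obtain ⟨Mr2, c2, hMr2, hc2, H2⟩ := in2 κ hκ L M1 M2 B P1 P2 (δ * c1 / C1 ^ 2) hδ'
  refine ⟨max Mr1 Mr2, c1 * c2 / C1, le_max_of_le_left hMr1, by positivity, ?_⟩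
  intro q n hW r m s hD hr hsn ha4 σ1 σ2 k1 k2 hk1 hk2 hTS c0 S I J I' J' hS hDom hI hI'
    k d' k' hk hk' hsep hσ hc0
  have hok := hW.ok
  have hL := hD.hL
  have hM1 := hD.hM1
  have hM2 := hD.hM2
  have hP1 := hD.hP1
  have hP2 := hD.hP2
  have hB := hD.hB
  have hr1 := hD.hr
  have hm := hD.hm
  have hs := hD.hs
  have hM64 : 64 ≤ M2 := by omega
  -- the block centre
  set γ : ℤ × ℤ := (-(2 * k), 4 * L * M2 + 8 - B) with hγ
  have hLM : (L:ℤ) * M2 = ((L * M2 : ℕ) : ℤ) := by push_cast; ring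
  have hP1' : 64 * (4 * (L * M2)) ≤ P1 := by rw [← mul_assoc 4]; exact hP1
  have h128 : 128 ≤ L * M2 := by nlinarith
  have hDγ : InD L M1 M2 B P1 P2 r m s γ c0 := by
    refine ⟨hL, hM1, hM2, hP1, hP2, hB, hr1, hm, hs, ?_, ?_, ?_, ?_⟩
    · rw [hc0]
    · rw [hc0]
    · rw [hγ]
      simp only
      rw [abs_neg, mul_assoc (4:ℤ), hLM]
      omega
    · rw [hγ]
      simp only
      rw [mul_assoc (4:ℤ), hLM, abs_of_nonpos (by omega)]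
      omega
  obtain ⟨Q1, Q3, hSep, hCor⟩ := corx_exists hL hM64 hP1 hP2 hB hk hk' hsep
    (γ := γ) rfl (by rw [hγ]; ring) hk1 hk2 hσ
  set QV : Finset Edg := QE r (Q1 ∪ Q3) with hQV
  have hS2 : blk c0 (2 * s) ⊆ S := (it_blk_mono (by omega)).trans hS
  have hI2 : FarS (I ∪ J) c0 (2 * s) := it_far_mono (by omega) hI
  set PE : ℝ := PQ q S (fun F => ESev I J c0 s r (P1 * r) (P2 * r) Dir.up k d' k'
    ((↑F : Set Edg) \ ↑(boI c0 s))) with hPE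
  set PB : ℝ := PQ q S (fun F => BPv I J (blk c0 (3 * s)) ↑F) with hPB
  have hPE0 : 0 ≤ PE := Pr_nonneg hok _ _
  have hPB0 : 0 ≤ PB := Pr_nonneg hok _ _
  have ha0 : 0 ≤ a4 q (4 * L * m) := a4_nonneg hW.q0 hW.q1 _
  have h1 : ∀ e ∈ boxE (m / 4), c1 * (PE * PQ q (SR L m) (fun F =>
      Sev L m r (m / M1) σ1 (2 * r * k1) σ2 (2 * r * k2) e ↑F)) ≤
        PQ q (S \ QV) (fun F => Z1 I J QV e ↑F) := by
    intro e he
    exact H1 q n hW r m s γ c0 hDγ ((le_max_left _ _).trans hr) hsn S I J hS2 hI2 Dir.up d' k k'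
      σ1 σ2 k1 k2 Q1 Q3 hSep hCor QV hQV e he
  have h2 : ∀ e ∈ boxE (m / 4), c2 * (PQ q (S \ QV) (fun F => Z1 I J QV e ↑F) -
          (δ * c1 / C1 ^ 2) * (a4 q (m / 8) * PB)) ≤
        PQ q S (fun F => Pv I J e ↑F) := by
    intro e he
    rcases hCor with ⟨hA, hA'⟩ | ⟨hA, hA'⟩
    · exact H2 q n hW r m s γ c0 hDγ ((le_max_right _ _).trans hr) hsn S I J I' J' hS hDom hI hI'
        Dir.up d' k k' σ1 σ2 k1 k2 Q1 Q3 hSep hA hA' QV hQV e he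
    · exact H2 q n hW r m s γ c0 hDγ ((le_max_right _ _).trans hr) hsn S I J I' J' hS hDom hI hI'
        Dir.up d' k k' σ2 σ1 k2 k1 Q1 Q3 hSep hA hA' QV hQV e he
  have hm16 : 16 ≤ m := by rw [hm]; nlinarith
  have hcard := card_boxE_le hm16
  -- the sum over the edges in the middle
  have hsum : c2 * (c1 * (PE * TS q L m r (m / M1) σ1 k1 σ2 k2) -
      (m:ℝ) ^ 2 * ((δ * c1 / C1 ^ 2) * (a4 q (m / 8) * PB))) ≤
      ∑ e ∈ boxE (m / 4), PQ q S (fun F => Pv I J e ↑F) := by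
    have ha8 : 0 ≤ a4 q (m / 8) := a4_nonneg hW.q0 hW.q1 _
    have hX0 : 0 ≤ (δ * c1 / C1 ^ 2) * (a4 q (m / 8) * PB) := by positivity
    calc c2 * (c1 * (PE * TS q L m r (m / M1) σ1 k1 σ2 k2) -
          (m:ℝ) ^ 2 * ((δ * c1 / C1 ^ 2) * (a4 q (m / 8) * PB)))
        ≤ c2 * (c1 * (PE * TS q L m r (m / M1) σ1 k1 σ2 k2) -
          ((boxE (m / 4)).card : ℝ) * ((δ * c1 / C1 ^ 2) * (a4 q (m / 8) * PB))) := by
          apply mul_le_mul_of_nonneg_left _ hc2.le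
          have := mul_le_mul_of_nonneg_right hcard hX0
          linarith
      _ = ∑ e ∈ boxE (m / 4), c2 * (c1 * (PE * PQ q (SR L m) (fun F =>
            Sev L m r (m / M1) σ1 (2 * r * k1) σ2 (2 * r * k2) e ↑F)) -
            (δ * c1 / C1 ^ 2) * (a4 q (m / 8) * PB)) := by
          rw [← Finset.mul_sum, Finset.sum_sub_distrib, Finset.sum_const, nsmul_eq_mul,
            ← Finset.mul_sum, ← Finset.mul_sum]
          rfl
      _ ≤ ∑ e ∈ boxE (m / 4), PQ q S (fun F => Pv I J e ↑F) := by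
          apply Finset.sum_le_sum
          intro e he
          refine le_trans ?_ (h2 e he)
          apply mul_le_mul_of_nonneg_left _ hc2.le
          have := h1 e he
          linarith
  have hsub : boxE (m / 4) ⊆ blk c0 s := by
    unfold boxE blk
    have hP2r : 2 * (P2 * r) ≤ s := by rw [hs]; nlinarith
    have hm4 : m / 4 ≤ P2 * r := by
      have : m ≤ P2 * r := by rw [hm]; exact Nat.mul_le_mul_right r (by nlinarith)
      omega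
    have e1 : |(r:ℤ) * (2 * k)| + 2 * (P2 * r : ℕ) ≤ s := by
      rw [abs_mul, Nat.abs_cast, hs]
      push_cast
      have h3 := mul_le_mul_of_nonneg_left hk (show (0:ℤ) ≤ r by positivity)
      nlinarith
    have e2 := abs_le.1 (show |(r:ℤ) * (2 * k)| ≤ s - 2 * (P2 * r : ℕ) by linarith)
    have e3 : (r:ℤ) * (4 * L * M2 + 8 - B) = 4 * (L * (M2 * r : ℕ)) + 8 * r - s := by
      rw [hs]; push_cast; ring
    have e4 : 4 * (L * (M2 * r)) + 8 * r ≤ P2 * r := by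
      have h5 : 4 * (L * M2) + 8 ≤ P2 := by omega
      calc 4 * (L * (M2 * r)) + 8 * r = (4 * (L * M2) + 8) * r := by ring
        _ ≤ P2 * r := Nat.mul_le_mul_right r h5
    have e5 : (0:ℤ) ≤ 4 * ((L:ℤ) * (M2 * r : ℕ)) := by positivity
    have e6 : m ≤ 4 * (L * (M2 * r)) := by rw [← hm]; nlinarith
    have e6' : (m:ℤ) ≤ 4 * ((L:ℤ) * (M2 * r : ℕ)) := by exact_mod_cast e6
    have e4' : 4 * ((L:ℤ) * (M2 * r : ℕ)) + 8 * r ≤ (P2 * r : ℕ) := by exact_mod_cast e4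
    have e7 : (r:ℤ) * (-(2 * k)) = -((r:ℤ) * (2 * k)) := by ring
    rw [hc0]
    simp only
    rw [e3, e7]
    apply RE_subset <;> omega
  have hle : ∑ e ∈ boxE (m / 4), PQ q S (fun F => Pv I J e ↑F) ≤
      ∑ e ∈ blk c0 s, PQ q S (fun F => Pv I J e ↑F) :=
    Finset.sum_le_sum_of_subset_of_nonneg hsub fun e _ _ => Pr_nonneg hok _ _
  refine le_trans ?_ (hsum.trans hle)
  -- real arithmetic
  set T := TS q L m r (m / M1) σ1 k1 σ2 k2 with hT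
  set A := (m:ℝ) ^ 2 * a4 q (4 * L * m) with hA
  have hA0 : 0 ≤ A := by positivity
  have f1 : c1 * c2 / C1 * PE * A ≤ c2 * (c1 * (PE * T)) := by
    have : c1 * c2 / C1 * PE * A ≤ c1 * c2 / C1 * PE * (C1 * T) :=
      mul_le_mul_of_nonneg_left hTS (by positivity)
    refine this.trans (le_of_eq ?_)
    field_simp
  have f2 : c2 * ((m:ℝ) ^ 2 * ((δ * c1 / C1 ^ 2) * (a4 q (m / 8) * PB))) ≤
      c1 * c2 / C1 * (δ * PB) * A := by
    have h3 : (m:ℝ) ^ 2 * a4 q (m / 8) ≤ C1 * A := by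
      rw [hA]
      have := mul_le_mul_of_nonneg_left ha4 (show (0:ℝ) ≤ (m:ℝ) ^ 2 by positivity)
      linarith
    have h4 := mul_le_mul_of_nonneg_left h3 (show 0 ≤ c2 * (δ * c1 / C1 ^ 2) * PB by positivity)
    calc c2 * ((m:ℝ) ^ 2 * ((δ * c1 / C1 ^ 2) * (a4 q (m / 8) * PB)))
        = c2 * (δ * c1 / C1 ^ 2) * PB * ((m:ℝ) ^ 2 * a4 q (m / 8)) := by ring
      _ ≤ c2 * (δ * c1 / C1 ^ 2) * PB * (C1 * A) := h4
      _ = c1 * c2 / C1 * (δ * PB) * A := by field_simp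
  have f3 : c1 * c2 / C1 * (PE - δ * PB) * A =
      c1 * c2 / C1 * PE * A - c1 * c2 / C1 * (δ * PB) * A := by ring
  rw [f3]
  linarith

/-- `in_top` from `in1` and `in2`. -/
theorem in_top_of (in1 : ItIn1) (in2 : ItIn2) (κ : ℝ) (hκ : 0 < κ) (L M1 M2 B P1 P2 : ℕ) (C1 δ : ℝ) (hC1 : 0 < C1) (hδ : 0 < δ) :
    ∃ (Mr : ℕ) (c : ℝ), 1 ≤ Mr ∧ 0 < c ∧
    ∀ (q : ℝ) (n : ℕ), Win q κ n → ∀ (r m s : ℕ),
      InD L M1 M2 B P1 P2 r m s (0, 0) (0, 0) → Mr ≤ r → s ≤ n →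
      a4 q (m / 8) ≤ C1 * a4 q (4 * L * m) →
      ∀ (σ1 σ2 : Bool) (k1 k2 : ℤ), |2 * k1| ≤ L * M2 + 1 → |2 * k2| ≤ L * M2 + 1 →
      (m:ℝ) ^ 2 * a4 q (4 * L * m) ≤ C1 * TS q L m r (m / M1) σ1 k1 σ2 k2 →
      ∀ (c0 : ℤ × ℤ) (S : Finset Edg) (I J I' J' : Set Vtx), blk c0 (3 * s) ⊆ S →
      DomD S I J I' J' → FarS (I ∪ J) c0 (3 * s) → FarS (I' ∪ J') c0 (3 * s) →
      ∀ (k : ℤ) (d' : Dir) (k' : ℤ),
      c * (PQ q S (fun F => ESev I J c0 s r (P1 * r) (P2 * r) Dir.up k d' k'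
            ((↑F : Set Edg) \ ↑(boI c0 s))) -
          δ * PQ q S (fun F => BPv I J (blk c0 (3 * s)) ↑F)) * ((m:ℝ) ^ 2 * a4 q (4 * L * m)) ≤
        ∑ e ∈ blk c0 s, PQ q S (fun F => Pv I J e ↑F) := by
  obtain ⟨Mr, c, hMr, hc, H⟩ := it_core in1 in2 κ hκ L M1 M2 B P1 P2 C1 δ hC1 hδ
  refine ⟨Mr, c, hMr, hc, ?_⟩
  intro q n hW r m s hD hr hsn ha4 σ1 σ2 k1 k2 hk1 hk2 hTS c0 S I J I' J' hS hDom hI hI' k d' k'
  have hok := hW.ok
  have hr1 := hD.hr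
  have hs := hD.hs
  have hm := hD.hm
  have hM1 := hD.hM1
  have hM2 := hD.hM2
  have ha0 : 0 ≤ a4 q (4 * L * m) := a4_nonneg hW.q0 hW.q1 _
  have hA0 : 0 ≤ (m:ℝ) ^ 2 * a4 q (4 * L * m) := by positivity
  have hPB0 : 0 ≤ PQ q S (fun F => BPv I J (blk c0 (3 * s)) ↑F) := Pr_nonneg hok _ _
  have hR0 : 0 ≤ ∑ e ∈ blk c0 s, PQ q S (fun F => Pv I J e ↑F) :=
    Finset.sum_nonneg fun e _ => Pr_nonneg hok _ _
  -- if the event is impossible there is nothing to prove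
  have hzero : ∀ {T : Finset Edg} {E : Finset Edg → Prop}, (∀ F, ¬ E F) → PQ q T E = 0 := by
    intro T E hE
    have h1 : PQ q T E = PQ q T (fun _ => False) := Pr_congr fun F _ => by
      rw [iff_false]; exact hE F
    rw [h1]
    unfold PQ Pr
    have : (fun F : Finset Edg => ind False) = fun _ => (0:ℝ) := by
      funext F; exact ind_not_of (fun h => h)
    rw [this, Ex_const]
  have himp : (∀ F : Finset Edg, ¬ ESev I J c0 s r (P1 * r) (P2 * r) Dir.up k d' k'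
      ((↑F : Set Edg) \ ↑(boI c0 s))) →
      c * (PQ q S (fun F => ESev I J c0 s r (P1 * r) (P2 * r) Dir.up k d' k'
            ((↑F : Set Edg) \ ↑(boI c0 s))) -
          δ * PQ q S (fun F => BPv I J (blk c0 (3 * s)) ↑F)) * ((m:ℝ) ^ 2 * a4 q (4 * L * m)) ≤
        ∑ e ∈ blk c0 s, PQ q S (fun F => Pv I J e ↑F) := by
    intro h
    rw [hzero h]
    refine le_trans ?_ hR0
    have h1 : c * (0 - δ * PQ q S (fun F => BPv I J (blk c0 (3 * s)) ↑F)) ≤ 0 := by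
      have : 0 ≤ c * (δ * PQ q S (fun F => BPv I J (blk c0 (3 * s)) ↑F)) := by positivity
      linarith
    exact mul_nonpos_of_nonpos_of_nonneg h1 hA0
  have hrZ : (0:ℤ) < r := by exact_mod_cast hr1
  have habs : ∀ z : ℤ, |2 * (r:ℤ) * z| = r * |2 * z| := by
    intro z
    rw [show 2 * (r:ℤ) * z = r * (2 * z) by ring, abs_mul, Nat.abs_cast]
  by_cases hk : |2 * k| + 2 * P2 ≤ (B:ℤ)
  swap
  · apply himp
    rintro F ⟨⟨h1, _⟩, _⟩
    apply hk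
    rw [habs, hs] at h1
    push_cast at h1
    have h2 : (r:ℤ) * (|2 * k| + 2 * P2) ≤ r * B := by linarith
    exact le_of_mul_le_mul_left h2 hrZ
  by_cases hk' : |2 * k'| + 2 * P2 ≤ (B:ℤ)
  swap
  · apply himp
    rintro F ⟨⟨_, h1⟩, _⟩
    apply hk'
    rw [habs, hs] at h1
    push_cast at h1
    have h2 : (r:ℤ) * (|2 * k'| + 2 * P2) ≤ r * B := by linarith
    exact le_of_mul_le_mul_left h2 hrZ
  by_cases hsep : d' = Dir.up → (P1:ℤ) < |2 * k - 2 * k'|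
  swap
  · push Not at hsep
    obtain ⟨rfl, hsep⟩ := hsep
    apply himp
    intro F
    apply it_no_esev
    rw [show 2 * (r:ℤ) * k - 2 * r * k' = r * (2 * k - 2 * k') by ring, abs_mul, Nat.abs_cast]
    push_cast
    nlinarith
  by_cases hσ : σ1 = σ2 → 4 ≤ |k1 - k2|
  swap
  · push Not at hσ
    obtain ⟨rfl, hσ⟩ := hσ
    have hT : TS q L m r (m / M1) σ1 k1 σ1 k2 = 0 := by
      unfold TS
      refine Finset.sum_eq_zero fun e _ => hzero fun F => it_no_sev ?_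
      have h8 : 8 * r ≤ m / M1 := by
        rw [Nat.le_div_iff_mul_le (by omega), hm]
        nlinarith
      rw [show 2 * (r:ℤ) * k1 - 2 * r * k2 = r * (2 * (k1 - k2)) by ring, abs_mul, abs_mul,
        Nat.abs_cast]
      have h9 : (8:ℤ) * r ≤ (m / M1 : ℕ) := by exact_mod_cast h8
      have h10 : |(2:ℤ)| = 2 := by norm_num
      rw [h10]
      nlinarith
    rw [hT, mul_zero] at hTS
    have hA : (m:ℝ) ^ 2 * a4 q (4 * L * m) = 0 := le_antisymm hTS hA0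
    rw [hA, mul_zero]
    exact hR0
  -- translation
  set a : ℤ := (r:ℤ) * (-(2 * k)) - c0.1 with ha
  set b : ℤ := (r:ℤ) * (4 * L * M2 + 8 - B) - c0.2 with hb
  have hc : (c0.1 + a, c0.2 + b) = ((r:ℤ) * (-(2 * k)), (r:ℤ) * (4 * L * M2 + 8 - B)) := by
    rw [ha, hb]
    congr 1 <;> ring
  have hmain := H q n hW r m s hD hr hsn ha4 σ1 σ2 k1 k2 hk1 hk2 hTS (c0.1 + a, c0.2 + b)
    ((trl a b).mp S) ((trl a b).ψ '' I) ((trl a b).ψ '' J) ((trl a b).ψ '' I')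
    ((trl a b).ψ '' J') (by rw [it_blk]; exact LSym.mp_mono _ hS) (it_dom a b hDom)
    (by rw [← Set.image_union]; exact it_far a b hI)
    (by rw [← Set.image_union]; exact it_far a b hI') k d' k' hk hk' hsep hσ hc
  have g1 : PQ q ((trl a b).mp S) (fun F => ESev ((trl a b).ψ '' I) ((trl a b).ψ '' J)
      (c0.1 + a, c0.2 + b) s r (P1 * r) (P2 * r) Dir.up k d' k'
      ((↑F : Set Edg) \ ↑(boI (c0.1 + a, c0.2 + b) s))) =
      PQ q S (fun F => ESev I J c0 s r (P1 * r) (P2 * r) Dir.up k d' k'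
            ((↑F : Set Edg) \ ↑(boI c0 s))) := by
    refine (LSym.pr _ _ _ _).trans (Pr_congr fun F _ => ?_)
    rw [it_boI, LSym.coe_mp, LSym.coe_mp, ← Set.image_sdiff (trl a b).φ.injective, it_esev]
  have g2 : PQ q ((trl a b).mp S) (fun F => BPv ((trl a b).ψ '' I) ((trl a b).ψ '' J)
      (blk (c0.1 + a, c0.2 + b) (3 * s)) ↑F) =
      PQ q S (fun F => BPv I J (blk c0 (3 * s)) ↑F) := by
    refine (LSym.pr _ _ _ _).trans (Pr_congr fun F _ => ?_)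
    rw [it_blk, LSym.coe_mp, it_bpv]
  have g3 : ∑ e ∈ blk (c0.1 + a, c0.2 + b) s, PQ q ((trl a b).mp S)
      (fun F => Pv ((trl a b).ψ '' I) ((trl a b).ψ '' J) e ↑F) =
      ∑ e ∈ blk c0 s, PQ q S (fun F => Pv I J e ↑F) := by
    rw [it_blk]
    unfold LSym.mp
    rw [Finset.sum_map]
    refine Finset.sum_congr rfl fun e _ => ?_
    refine (LSym.pr (trl a b) _ _ _).trans (Pr_congr fun F _ => ?_)
    rw [LSym.coe_mp]
    exact it_pv _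
  rw [g1, g2, g3] at hmain
  exact hmain

/-- `in_all` from `in1` and `in2`. -/
theorem inTop_of (in1 : ItIn1) (in2 : ItIn2) : InTop := fun κ hκ L M1 M2 B P1 P2 C1 δ hC1 hδ =>
  in_top_of in1 in2 κ hκ L M1 M2 B P1 P2 C1 δ hC1 hδ

end H12S
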