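import Pool.Agent.H12R2.Sep.Defs5
import Pool.Agent.H974R2.RSW2

/-!
Task RD (helper501): planar duality in a rectangle.
-/

namespace H12S

open H974 Finset

/-- Move the dead ends into the rectangle. -/
def RD_cl (a b : ℤ) (v : Vtx) : Vtx :=
  if v.1 = a - 1 then (a, v.2) else if v.1 = b then (b - 1, v.2) else v

theorem RD_cl_snd (a b : ℤ) (v : Vtx) : (RD_cl a b v).2 = v.2 := by
  unfold RD_cl
  split_ifs <;> rfl

/-- dead ends can be removed from the dual paths -/
theorem RD_clamp {a b c d : ℤ} (hab : a < b) {H : Set Edg} (hH : H ⊆ ↑(dmp (RE a b c d)))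
    {u w : Vtx} (h : Reach H u w) :
    Reach (H ∩ ↑(RE a (b - 1) (c - 1) d)) (RD_cl a b u) (RD_cl a b w) := by
  induction h with
  | refl => exact Reach.refl _ _
  | @tail w w' _ hs ih =>
    refine ih.trans ?_
    obtain ⟨e, he, hcase⟩ := hs
    have key : Reach (H ∩ ↑(RE a (b - 1) (c - 1) d)) (RD_cl a b (src e))
        (RD_cl a b (tgt e)) := by
      have hb : e ∈ dmp (RE a b c d) := Finset.mem_coe.1 (hH he)
      rw [mem_dmp] at hb
      obtain ⟨x, y, _ | _⟩ := e
      · rw [dls_f] at hb
        rw [mem_RE_true] at hb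
        rw [src_mk, tgt_false]
        have e1 : RD_cl a b (x, y) = (x, y) := by
          unfold RD_cl
          rw [if_neg (by simp only; omega), if_neg (by simp only; omega)]
        have e2 : RD_cl a b (x, y + 1) = (x, y + 1) := by
          unfold RD_cl
          rw [if_neg (by simp only; omega), if_neg (by simp only; omega)]
        rw [e1, e2]
        refine Adj.reach ⟨(x, y, false), ⟨he, ?_⟩, Or.inl ⟨rfl, rfl⟩⟩
        rw [Finset.mem_coe, mem_RE_false]
        omega
      · rw [dls_t] at hb
        rw [mem_RE_false] at hb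
        rw [src_mk, tgt_true]
        rcases lt_trichotomy x a with h1 | h1 | h1
        · have hx : x = a - 1 := by omega
          have e1 : RD_cl a b (x, y) = (a, y) := by
            unfold RD_cl; rw [if_pos hx]
          have e2 : RD_cl a b (x + 1, y) = (a, y) := by
            unfold RD_cl
            rw [if_neg (by simp only; omega), if_neg (by simp only; omega), hx]
            congr 1
            ring
          rw [e1, e2]
          exact Reach.refl _ _
        · by_cases h2 : x = b - 1
          · have e1 : RD_cl a b (x, y) = (b - 1, y) := by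
              unfold RD_cl
              rw [if_neg (by simp only; omega), if_neg (by simp only; omega), h2]
            have e2 : RD_cl a b (x + 1, y) = (b - 1, y) := by
              unfold RD_cl
              rw [if_neg (by simp only; omega), if_pos (by simp only; omega)]
            rw [e1, e2]
            exact Reach.refl _ _
          · have e1 : RD_cl a b (x, y) = (x, y) := by
              unfold RD_cl
              rw [if_neg (by simp only; omega), if_neg (by simp only; omega)]
            have e2 : RD_cl a b (x + 1, y) = (x + 1, y) := by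
              unfold RD_cl
              rw [if_neg (by simp only; omega), if_neg (by simp only; omega)]
            rw [e1, e2]
            refine Adj.reach ⟨(x, y, true), ⟨he, ?_⟩, Or.inl ⟨rfl, rfl⟩⟩
            rw [Finset.mem_coe, mem_RE_true]
            omega
        · by_cases h2 : x = b - 1
          · have e1 : RD_cl a b (x, y) = (b - 1, y) := by
              unfold RD_cl
              rw [if_neg (by simp only; omega), if_neg (by simp only; omega), h2]
            have e2 : RD_cl a b (x + 1, y) = (b - 1, y) := by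
              unfold RD_cl
              rw [if_neg (by simp only; omega), if_pos (by simp only; omega)]
            rw [e1, e2]
            exact Reach.refl _ _
          · have e1 : RD_cl a b (x, y) = (x, y) := by
              unfold RD_cl
              rw [if_neg (by simp only; omega), if_neg (by simp only; omega)]
            have e2 : RD_cl a b (x + 1, y) = (x + 1, y) := by
              unfold RD_cl
              rw [if_neg (by simp only; omega), if_neg (by simp only; omega)]
            rw [e1, e2]
            refine Adj.reach ⟨(x, y, true), ⟨he, ?_⟩, Or.inl ⟨rfl, rfl⟩⟩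
            rw [Finset.mem_coe, mem_RE_true]
            omega
    rcases hcase with ⟨h1, h2⟩ | ⟨h1, h2⟩
    · rw [← h1, ← h2]; exact key
    · rw [← h1, ← h2]; exact key.symm

theorem rect_dual {a b c d : ℤ} (hab : a < b) (hcd : c < d) :
    DomD (RE a b c d) (lsd a c d) (lsd b c d) {v | v.2 = c - 1} {v | v.2 = d} := by
  intro G hG
  constructor
  · rintro ⟨u, hu, v, hv, hr⟩ ⟨f, hf, g, hg, hd⟩
    -- the primal crossing
    have hu' : u.1 = a := hu.1
    have hv' : v.1 = b := hv.1
    obtain ⟨y1, y2, -, hy2, hP, -⟩ := sub_LR (G := (↑G : Set Edg)) (a := a) (b := b)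
      (c := c) (d := d) hab (by
        intro x y h _ _
        have := hG (Finset.mem_coe.1 h)
        rw [mem_RE_true] at this
        omega) (by
        intro x y h _ _
        have := hG (Finset.mem_coe.1 h)
        rw [mem_RE_false] at this
        omega) hr hu'.le hv'.ge
    -- the dual crossing
    have hf' : f.2 = c - 1 := hf
    have hg' : g.2 = d := hg
    have hsub : (↑(dmp (RE a b c d \ G)) : Set Edg) ⊆ ↑(dmp (RE a b c d)) := by
      intro e he
      rw [Finset.mem_coe, mem_dmp] at he ⊢
      exact (Finset.mem_sdiff.1 he).1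
    have hc := RD_clamp hab hsub hd
    obtain ⟨x1, x2, hx1, -, hD, -⟩ := sub_TB
      (G := (↑(dmp (RE a b c d \ G)) : Set Edg) ∩ ↑(RE a (b - 1) (c - 1) d))
      (a := a) (b := b - 1) (c := c - 1) (d := d) (by omega) (by
        rintro x y ⟨-, h⟩ _ _
        rw [Finset.mem_coe, mem_RE_false] at h
        omega) (by
        rintro x y ⟨-, h⟩ _ _
        rw [Finset.mem_coe, mem_RE_true] at h
        omega) hc (by rw [RD_cl_snd]; exact hf'.le) (by rw [RD_cl_snd]; exact hg'.ge)
    have hD2 : Reach (dl '' ((↑G : Set Edg)ᶜ ∩ ↑(LRE a b c d)))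
        (x1, c - 1) (x2, d) := by
      refine hD.mono ?_
      rintro e ⟨⟨h1, -⟩, h2⟩
      rw [Finset.mem_coe, mem_dmp, Finset.mem_sdiff] at h1
      refine ⟨dl.symm e, ⟨?_, ?_⟩, by simp⟩
      · intro h3
        exact h1.2 (Finset.mem_coe.1 h3)
      · rw [Finset.mem_coe, ← mem_dmp, dmp_LRE]
        exact Finset.mem_coe.1 h2
    rw [reach_dl] at hD2
    exact no_both (F := (↑G : Set Edg)) (a := a) (b := b) (c := c) (d := d)
      hcd.le hy2 (by omega) hP hD2
  · intro hno
    by_contra hcon
    apply hno
    set W : Vtx → Prop := fun v => ∃ y : ℤ, (c ≤ y ∧ y ≤ d) ∧ Reach (↑G : Set Edg) (a, y) v with hW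
    have hL : ∀ y, c ≤ y → y ≤ d → W (a, y) := fun y h1 h2 => ⟨y, ⟨h1, h2⟩, Reach.refl _ _⟩
    have hR : ∀ y, c ≤ y → y ≤ d → ¬ W (b, y) := by
      rintro y h1 h2 ⟨y', ⟨h3, h4⟩, hx⟩
      exact hcon ⟨(a, y'), ⟨rfl, h3, h4⟩, (b, y), ⟨rfl, h1, h2⟩, hx⟩
    obtain ⟨x, x', -, -, hr⟩ := dual_crossing hab.le hcd.le W hL hR
    refine ⟨(x, c - 1), rfl, (x', d), rfl, ?_⟩
    rw [coe_dmp, reach_dl]
    refine hr.mono ?_
    rintro e ⟨he1, he2⟩
    rw [Finset.coe_sdiff]
    constructor
    · exact Finset.mem_coe.2 (LRE_subset_RE (Finset.mem_coe.1 he2))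
    · intro h2
      apply he1
      have hadj : Adj (↑G : Set Edg) (src e) (tgt e) := ⟨e, h2, Or.inl ⟨rfl, rfl⟩⟩
      constructor
      · rintro ⟨y0, h3, h4⟩
        exact ⟨y0, h3, h4.trans hadj.reach⟩
      · rintro ⟨y0, h3, h4⟩
        exact ⟨y0, h3, h4.trans hadj.symm.reach⟩

end H12S
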