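import Pool.Agent.H12R2.Sep.InD
import Pool.Agent.H12R2.Sep.RectDual

/-! # Task IN: the inward inequality (assembly of batch 5) -/

namespace H12S

open H974 Finset

theorem IN_small {K c0 ε : ℝ} (hc0 : 0 < c0) (hε : 0 < ε) :
    ∃ N : ℕ, 64 ≤ N ∧ ∀ t : ℕ, N ≤ t → K * (1 / (t:ℝ)) ^ c0 ≤ ε := by
  have h1 : Filter.Tendsto (fun t : ℕ => K * ((t:ℝ)) ^ (-c0)) Filter.atTop (nhds (K * 0)) :=
    ((tendsto_rpow_neg_atTop hc0).comp tendsto_natCast_atTop_atTop).const_mul K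
  rw [mul_zero] at h1
  have h2 := (h1.eventually (ge_mem_nhds hε)).and (Filter.eventually_ge_atTop 64)
  obtain ⟨N, hN⟩ := Filter.eventually_atTop.mp h2
  refine ⟨max N 64, le_max_right _ _, fun t ht => ?_⟩
  have h3 := (hN t ((le_max_left _ _).trans ht)).1
  rw [Real.rpow_neg (by positivity)] at h3
  rw [one_div, Real.inv_rpow (by positivity)]
  exact h3

theorem IN_card_Dir : Fintype.card Dir = 4 := rfl

theorem IN_sub {p : ℤ × ℤ} {s : ℕ} (hs : 1 ≤ s) : blk p (s - 1) ⊆ boI p s := by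
  classical
  intro g hg
  obtain ⟨x, y, b⟩ := g
  have hs' : ((s - 1 : ℕ) : ℤ) = s - 1 := by omega
  simp only [boI, Finset.mem_filter]
  unfold blk at hg ⊢
  rw [hs'] at hg
  cases b
  · rw [mem_RE_false] at hg
    refine ⟨?_, Or.inl ?_⟩
    · rw [mem_RE_false]
      omega
    · simp only [src, Set.mem_ofPred_eq, abs_lt]
      omega
  · rw [mem_RE_true] at hg
    refine ⟨?_, Or.inl ?_⟩
    · rw [mem_RE_true]
      omega
    · simp only [src, Set.mem_ofPred_eq, abs_lt]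
      omega

theorem IN_BPv_mono {I J : Set Vtx} {b b' : Finset Edg} (h : b ⊆ b') {F : Set Edg}
    (hF : BPv I J b F) : BPv I J b' F := by
  obtain ⟨⟨u, hu, v, hv, h1⟩, h2⟩ := hF
  refine ⟨⟨u, hu, v, hv, h1.mono ?_⟩, ?_⟩
  · exact Set.union_subset_union_right _ (by exact_mod_cast h)
  · rintro ⟨u, hu, v, hv, h3⟩
    exact h2 ⟨u, hu, v, hv, h3.mono (Set.sdiff_subset_sdiff_right (by exact_mod_cast h))⟩

theorem IN_blk_sub {a b c d : ℤ} {p : ℤ × ℤ} {k : ℕ} (h1 : a + k ≤ p.1) (h2 : p.1 + k ≤ b)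
    (h3 : c + k ≤ p.2) (h4 : p.2 + k ≤ d) : blk p k ⊆ RE a b c d := by
  unfold blk
  exact RE_subset (by omega) (by omega) (by omega) (by omega)

/-- INWARD, from the exterior exit lemma, the inward inequality for one cell, and duality. -/
theorem inward_of (κ : ℝ)
    (hext : ∃ C c0 : ℝ, 0 < C ∧ 0 < c0 ∧ ∀ (q : ℝ) (n : ℕ),
    Win q κ n → ∀ (c : ℤ × ℤ) (s r ρ1 ρ2 : ℕ), 1 ≤ r → 8 * r ≤ ρ1 → 64 * ρ1 ≤ ρ2 → 64 * ρ2 ≤ s →
      s ≤ n → ∀ (S : Finset Edg) (I J : Set Vtx), blk c (3 * s) ⊆ S → FarS (I ∪ J) c (3 * s) →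
      PQ q S (fun F => BPv I J (boI c s) ↑F) ≤
        (∑ d : Dir, ∑ d' : Dir, ∑ k ∈ Icc (-(s / r : ℕ) : ℤ) (s / r : ℕ),
          ∑ k' ∈ Icc (-(s / r : ℕ) : ℤ) (s / r : ℕ),
            PQ q S (fun F => ESev I J c s r ρ1 ρ2 d k d' k' ((↑F : Set Edg) \ ↑(boI c s)))) +
        C * (((ρ2:ℝ) / s) ^ c0 + ((s:ℝ) / ρ1) * ((ρ1:ℝ) / ρ2) ^ (1 + c0) +
          ((s:ℝ) / r) * ((r:ℝ) / ρ1) ^ (1 + c0)) *
          PQ q S (fun F => BPv I J (blk c (3 * s)) ↑F))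
    (hin : ∀ (L M1 M2 B P1 P2 : ℕ) (C1 δ : ℝ), 0 < C1 → 0 < δ →
    ∃ (Mr : ℕ) (c : ℝ), 1 ≤ Mr ∧ 0 < c ∧
    ∀ (q : ℝ) (n : ℕ), Win q κ n → ∀ (r m s : ℕ),
      InD L M1 M2 B P1 P2 r m s (0, 0) (0, 0) → Mr ≤ r → s ≤ n →
      a4 q (m / 8) ≤ C1 * a4 q (4 * L * m) →
      ∀ (σ1 σ2 : Bool) (k1 k2 : ℤ), |2 * k1| ≤ L * M2 + 1 → |2 * k2| ≤ L * M2 + 1 →
      (m:ℝ) ^ 2 * a4 q (4 * L * m) ≤ C1 * TS q L m r (m / M1) σ1 k1 σ2 k2 →
      ∀ (c0 : ℤ × ℤ) (S : Finset Edg) (I J I' J' : Set Vtx), blk c0 (3 * s) ⊆ S →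
      DomD S I J I' J' → FarS (I ∪ J) c0 (3 * s) → FarS (I' ∪ J') c0 (3 * s + 1) →
      ∀ (d : Dir) (k : ℤ) (d' : Dir) (k' : ℤ),
      c * (PQ q S (fun F => ESev I J c0 s r (P1 * r) (P2 * r) d k d' k'
            ((↑F : Set Edg) \ ↑(boI c0 s))) -
          δ * PQ q S (fun F => BPv I J (blk c0 (3 * s)) ↑F)) * ((m:ℝ) ^ 2 * a4 q (4 * L * m)) ≤
        ∑ e ∈ blk c0 s, PQ q S (fun F => Pv I J e ↑F))
    (δ : ℝ) (hδ : 0 < δ) : ∃ t M20 : ℕ, 1 ≤ t ∧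
    ∀ (L M1 M2 : ℕ), 2 ≤ L → 64 ≤ M1 → 8 * M1 ≤ M2 → M20 ≤ M2 → ∀ C1 : ℝ, 0 < C1 →
    ∃ (Mr : ℕ) (C : ℝ), 1 ≤ Mr ∧ 0 < C ∧ ∀ (q : ℝ) (n : ℕ), Win q κ n → ∀ (r m s : ℕ), Mr ≤ r →
      m = M2 * r → s = 256 * t * L * m → s ≤ n → a4 q (m / 8) ≤ C1 * a4 q (4 * L * m) →
      ∀ (σ1 σ2 : Bool) (k1 k2 : ℤ), |2 * k1| ≤ L * M2 + 1 → |2 * k2| ≤ L * M2 + 1 →
      (m:ℝ) ^ 2 * a4 q (4 * L * m) ≤ C1 * TS q L m r (m / M1) σ1 k1 σ2 k2 →
      ∀ (a b c d : ℤ) (p : ℤ × ℤ), a + 4 * s ≤ p.1 → p.1 + 4 * s ≤ b → c + 4 * s ≤ p.2 →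
      p.2 + 4 * s ≤ d →
      (PQ q (RE a b c d) (fun F => BPv (lsd a c d) (lsd b c d) (blk p (s - 1)) ↑F) -
        δ * PQ q (RE a b c d) (fun F => BPv (lsd a c d) (lsd b c d) (blk p (3 * s)) ↑F)) *
          ((m:ℝ) ^ 2 * a4 q (4 * L * m)) ≤
        C * ∑ e ∈ blk p s, PQ q (RE a b c d) (fun F => Pv (lsd a c d) (lsd b c d) e ↑F) := by
  classical
  obtain ⟨Ce, c0, hCe, hc0, hext⟩ := hext
  obtain ⟨t3, ht3, H3'⟩ := IN_small (K := Ce) hc0 (by positivity : (0:ℝ) < δ / 6)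
  have H3 := H3' t3 le_rfl
  obtain ⟨t2, ht2, H2'⟩ := IN_small (K := Ce * t3) hc0 (by positivity : (0:ℝ) < δ / 6)
  have H2 := H2' t2 le_rfl
  obtain ⟨M20, hM20, H1⟩ := IN_small (K := Ce * t2 * t3) hc0 (by positivity : (0:ℝ) < δ / 6)
  refine ⟨t2 * t3, M20, Nat.mul_pos (by omega) (by omega), ?_⟩
  intro L M1 M2 hL hM1 hM2 hM C1 hC1
  set P1 : ℕ := 256 * L * M2 with hP1
  set P2 : ℕ := t2 * P1 with hP2
  set B : ℕ := t3 * P2 with hB
  have hM2pos : 1 ≤ M2 := by omega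
  have hLM : 1 ≤ L * M2 := Nat.mul_pos (by omega) hM2pos
  have hP1pos : 256 ≤ P1 := by
    rw [hP1, mul_assoc]; omega
  have hP2pos : 64 * P1 ≤ P2 := Nat.mul_le_mul_right _ ht2
  have hBpos : 64 * P2 ≤ B := Nat.mul_le_mul_right _ ht3
  set num : ℝ := 16 * (2 * (B:ℝ) + 1) ^ 2 with hnum
  have hnum0 : 0 < num := by positivity
  obtain ⟨Mr, c, hMr, hc, hin⟩ := hin L M1 M2 B P1 P2 C1 (δ / (2 * num)) hC1 (by positivity)
  refine ⟨Mr, num / c, hMr, by positivity, ?_⟩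
  intro q n hw r m s hr hm hs hsn ha4 σ1 σ2 k1 k2 hk1 hk2 hTS a b c' d p hp1 hp2 hp3 hp4
  have hr1 : 1 ≤ r := hMr.trans hr
  have hsB : s = B * r := by
    rw [hs, hm, hB, hP2, hP1]; ring
  have hs1 : 1 ≤ s := by
    rw [hsB]; exact Nat.mul_pos (by omega) hr1
  have hsr : s / r = B := by
    rw [hsB]; exact Nat.mul_div_cancel _ hr1
  have hInD : InD L M1 M2 B P1 P2 r m s (0, 0) (0, 0) := by
    refine ⟨hL, hM1, hM2, ?_, hP2pos, hBpos, hr1, hm, hsB, by simp, by simp, ?_, ?_⟩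
    · rw [hP1]; exact le_of_eq (by ring)
    · have h1 : P1 = 256 * (L * M2) := by rw [hP1]; ring
      have h2 : ((B:ℕ):ℤ) ≥ 64 * (64 * (256 * (L * M2 : ℕ))) := by
        have : B ≥ 64 * (64 * (256 * (L * M2))) := by rw [← h1]; omega
        exact_mod_cast this
      push_cast at h2
      have h3 : (1:ℤ) ≤ (L:ℤ) * M2 := by exact_mod_cast hLM
      simp only [abs_zero, zero_add]
      nlinarith
    · have h1 : P1 = 256 * (L * M2) := by rw [hP1]; ring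
      have h2 : ((B:ℕ):ℤ) ≥ 64 * (64 * (256 * (L * M2 : ℕ))) := by
        have : B ≥ 64 * (64 * (256 * (L * M2))) := by rw [← h1]; omega
        exact_mod_cast this
      push_cast at h2
      have h3 : (1:ℤ) ≤ (L:ℤ) * M2 := by exact_mod_cast hLM
      simp only [abs_zero, zero_add]
      nlinarith
  have hblk : blk p (3 * s) ⊆ RE a b c' d :=
    IN_blk_sub (by push_cast; omega) (by push_cast; omega) (by push_cast; omega)
      (by push_cast; omega)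
  have hab : a < b := by omega
  have hcd : c' < d := by omega
  have hfar : FarS (lsd a c' d ∪ lsd b c' d) p (3 * s) := by
    rintro v (hv | hv)
    · left
      have : v.1 = a := hv.1
      rw [this, abs_sub_comm, abs_of_nonneg (by omega)]
      push_cast
      omega
    · left
      have : v.1 = b := hv.1
      rw [this, abs_of_nonneg (by omega)]
      push_cast
      omega
  have hfar' : FarS ({v : Vtx | v.2 = c' - 1} ∪ {v : Vtx | v.2 = d}) p (3 * s + 1) := by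
    rintro v (hv | hv)
    · right
      have : v.2 = c' - 1 := hv
      rw [this, abs_sub_comm, abs_of_nonneg (by omega)]
      push_cast
      omega
    · right
      have : v.2 = d := hv
      rw [this, abs_of_nonneg (by omega)]
      push_cast
      omega
  set A : ℝ := (m:ℝ) ^ 2 * a4 q (4 * L * m) with hA
  have hA0 : 0 ≤ A := by
    refine mul_nonneg (by positivity) ?_
    exact add_nonneg (Pr_nonneg hw.ok _ _) (Pr_nonneg hw.ok _ _)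
  set S : Finset Edg := RE a b c' d with hS
  set I : Set Vtx := lsd a c' d with hI
  set J : Set Vtx := lsd b c' d with hJ
  set Pm : ℝ := PQ q S (fun F => BPv I J (blk p (3 * s)) ↑F) with hPm
  have hPm0 : 0 ≤ Pm := Pr_nonneg hw.ok _ _
  set Es : ℝ := ∑ e ∈ blk p s, PQ q S (fun F => Pv I J e ↑F) with hEs
  set f : Dir → Dir → ℤ → ℤ → ℝ := fun d d' k k' =>
    PQ q S (fun F => ESev I J p s r (P1 * r) (P2 * r) d k d' k' ((↑F : Set Edg) \ ↑(boI p s)))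
    with hf
  have h1 : ∀ d d' k k', f d d' k k' * A ≤ Es / c + δ / (2 * num) * Pm * A := by
    intro d d' k k'
    have := hin q n hw r m s hInD hr hsn ha4 σ1 σ2 k1 k2 hk1 hk2 hTS p S I J _ _ hblk
      (rect_dual hab hcd) hfar hfar' d k d' k'
    have h2 : (f d d' k k' - δ / (2 * num) * Pm) * A ≤ Es / c := by
      rw [le_div_iff₀ hc]
      calc _ = c * (f d d' k k' - δ / (2 * num) * Pm) * A := by ring
        _ ≤ Es := this
    linarith [h2, sub_mul (f d d' k k') (δ / (2 * num) * Pm) A]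
  have h2 := hext q n hw p s r (P1 * r) (P2 * r) hr1 (Nat.mul_le_mul_right _ (by omega))
    (by rw [← mul_assoc]; exact Nat.mul_le_mul_right _ hP2pos)
    (by rw [hsB, ← mul_assoc]; exact Nat.mul_le_mul_right _ hBpos) hsn S I J hblk hfar
  rw [hsr] at h2
  have h3 : (∑ d : Dir, ∑ d' : Dir, ∑ k ∈ Icc (-(B : ℕ) : ℤ) (B : ℕ),
      ∑ k' ∈ Icc (-(B : ℕ) : ℤ) (B : ℕ), f d d' k k') * A ≤
      num * (Es / c + δ / (2 * num) * Pm * A) := by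
    have hcard : (Icc (-(B : ℕ) : ℤ) (B : ℕ)).card = 2 * B + 1 := by
      rw [Int.card_Icc]; omega
    simp only [Finset.sum_mul]
    calc _ ≤ ∑ d : Dir, ∑ d' : Dir, ∑ k ∈ Icc (-(B : ℕ) : ℤ) (B : ℕ),
          ∑ k' ∈ Icc (-(B : ℕ) : ℤ) (B : ℕ), (Es / c + δ / (2 * num) * Pm * A) :=
          Finset.sum_le_sum fun d _ => Finset.sum_le_sum fun d' _ => Finset.sum_le_sum fun k _ =>
            Finset.sum_le_sum fun k' _ => h1 d d' k k'
      _ = num * (Es / c + δ / (2 * num) * Pm * A) := by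
          simp only [Finset.sum_const, Finset.card_univ, IN_card_Dir, hcard, nsmul_eq_mul]
          push_cast
          rw [hnum]
          ring
  have h4 : PQ q S (fun F => BPv I J (blk p (s - 1)) ↑F) ≤
      PQ q S (fun F => BPv I J (boI p s) ↑F) :=
    Pr_mono hw.ok fun F _ hF => IN_BPv_mono (IN_sub hs1) hF
  have hrR : (0:ℝ) < r := by exact_mod_cast hr1
  have hP1R : (0:ℝ) < P1 := by exact_mod_cast (by omega : 0 < P1)
  have ht2R : (0:ℝ) < t2 := by exact_mod_cast (by omega : 0 < t2)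
  have ht3R : (0:ℝ) < t3 := by exact_mod_cast (by omega : 0 < t3)
  have hM2R : (0:ℝ) < M2 := by exact_mod_cast (by omega : 0 < M2)
  have hP2e : (P2:ℝ) = t2 * P1 := by rw [hP2]; push_cast; rfl
  have hBe : (B:ℝ) = t3 * (t2 * P1) := by rw [hB]; push_cast; rw [hP2e]
  have hse : (s:ℝ) = t3 * (t2 * P1) * r := by rw [hsB]; push_cast; rw [hBe]
  have e1 : (((P2 * r : ℕ):ℝ) / s) = 1 / t3 := by
    rw [hse]; push_cast; rw [hP2e]; field_simp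
  have e2 : ((s:ℝ) / ((P1 * r : ℕ):ℝ)) = t2 * t3 := by
    rw [hse]; push_cast; field_simp
  have e3 : (((P1 * r : ℕ):ℝ) / ((P2 * r : ℕ):ℝ)) = 1 / t2 := by
    push_cast; rw [hP2e]; field_simp
  have e4 : ((s:ℝ) / r) = t3 * (t2 * P1) := by
    rw [hse]; field_simp
  have e5 : ((r:ℝ) / ((P1 * r : ℕ):ℝ)) = 1 / P1 := by
    push_cast; field_simp
  have h5 : Ce * ((((P2 * r : ℕ):ℝ) / s) ^ c0 +
      ((s:ℝ) / ((P1 * r : ℕ):ℝ)) * (((P1 * r : ℕ):ℝ) / ((P2 * r : ℕ):ℝ)) ^ (1 + c0) +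
      ((s:ℝ) / r) * ((r:ℝ) / ((P1 * r : ℕ):ℝ)) ^ (1 + c0)) ≤ δ / 2 := by
    rw [e1, e2, e3, e4, e5, Real.rpow_add (by positivity), Real.rpow_add (by positivity),
      Real.rpow_one, Real.rpow_one]
    have g1 : (1 / (P1:ℝ)) ^ c0 ≤ (1 / (M2:ℝ)) ^ c0 := by
      apply Real.rpow_le_rpow (by positivity) _ hc0.le
      apply one_div_le_one_div_of_le hM2R
      have : M2 ≤ P1 := by
        rw [hP1]; nlinarith
      exact_mod_cast this
    have g2 := H1 M2 hM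
    have g3 : Ce * t2 * t3 * (1 / (P1:ℝ)) ^ c0 ≤ Ce * t2 * t3 * (1 / (M2:ℝ)) ^ c0 :=
      mul_le_mul_of_nonneg_left g1 (by positivity)
    have g4 : Ce * ((1 / (t3:ℝ)) ^ c0 + (t2:ℝ) * t3 * (1 / (t2:ℝ) * (1 / (t2:ℝ)) ^ c0) +
        (t3:ℝ) * (t2 * P1) * (1 / (P1:ℝ) * (1 / (P1:ℝ)) ^ c0)) =
        Ce * (1 / (t3:ℝ)) ^ c0 + Ce * t3 * (1 / (t2:ℝ)) ^ c0 +
          Ce * t2 * t3 * (1 / (P1:ℝ)) ^ c0 := by
      field_simp
    rw [g4]
    linarith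
  have h6 : PQ q S (fun F => BPv I J (blk p (s - 1)) ↑F) ≤
      (∑ d : Dir, ∑ d' : Dir, ∑ k ∈ Icc (-(B : ℕ) : ℤ) (B : ℕ),
      ∑ k' ∈ Icc (-(B : ℕ) : ℤ) (B : ℕ), f d d' k k') + δ / 2 * Pm := by
    refine (h4.trans h2).trans ?_
    gcongr
  have h7 : (PQ q S (fun F => BPv I J (blk p (s - 1)) ↑F) - δ * Pm) * A ≤
      ((∑ d : Dir, ∑ d' : Dir, ∑ k ∈ Icc (-(B : ℕ) : ℤ) (B : ℕ),
      ∑ k' ∈ Icc (-(B : ℕ) : ℤ) (B : ℕ), f d d' k k') - δ / 2 * Pm) * A :=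
    mul_le_mul_of_nonneg_right (by linarith) hA0
  have h8 : num * (Es / c + δ / (2 * num) * Pm * A) = num / c * Es + δ / 2 * Pm * A := by
    field_simp
  rw [h8] at h3
  rw [sub_mul (∑ d : Dir, ∑ d' : Dir, ∑ k ∈ Icc (-(B : ℕ) : ℤ) (B : ℕ),
      ∑ k' ∈ Icc (-(B : ℕ) : ℤ) (B : ℕ), f d d' k k')] at h7
  linarith

end H12S
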