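import Pool.Agent.H12R2.Sep.Defs

/-!
PART III, PG: pigeonhole over scales.
-/

namespace H12S

/-- Either there is a regular scale between `n^(1-ε)` and `n`, or `a n` is tiny. -/
theorem pigeon {L : ℕ} (hL : 2 ≤ L) {ε : ℝ} (h0 : 0 < ε) (h1 : ε < 1) :
    ∃ n0 : ℕ, ∀ (a : ℕ → ℝ), (∀ k, 0 ≤ a k) → (∀ k, a k ≤ 2) → (∀ j k, j ≤ k → a k ≤ a j) →
      ∀ n, n0 ≤ n → a n ≤ (n:ℝ) ^ (-(2:ℝ)) ∨
        ∃ m : ℕ, (n:ℝ) ^ (1 - ε) ≤ m ∧ 4 * L * m ≤ n ∧
          a (m / 4) ≤ (64 * L : ℝ) ^ (8 / ε) * a (4 * L * m) := by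
  have hLr : (2:ℝ) ≤ L := by exact_mod_cast hL
  have hq1 : (1:ℝ) < 16 * L := by linarith
  have hq0 : (0:ℝ) < 16 * L := by linarith
  have hlq : 0 < Real.log (16 * L) := Real.log_pos hq1
  refine ⟨⌈(16 * L : ℝ) ^ (1 / ε)⌉₊ + 2, ?_⟩
  intro a ha0 ha2 hanti n hn
  have hn2 : (2:ℝ) ≤ n := by
    have : 2 ≤ n := by omega
    exact_mod_cast this
  have hnpos : (0:ℝ) < n := by linarith
  have hnq : (16 * L : ℝ) ^ (1 / ε) ≤ n := by
    have h2 := Nat.le_ceil ((16 * L : ℝ) ^ (1 / ε))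
    have h3 : ((⌈(16 * L : ℝ) ^ (1 / ε)⌉₊ : ℕ) : ℝ) ≤ n := by
      have : ⌈(16 * L : ℝ) ^ (1 / ε)⌉₊ ≤ n := by omega
      exact_mod_cast this
    linarith
  have hlogn : 0 < Real.log n := Real.log_pos (by linarith)
  -- the number of steps
  set J : ℕ := ⌊ε * Real.log n / Real.log (16 * L)⌋₊ with hJ
  have hnonneg : 0 ≤ ε * Real.log n / Real.log (16 * L) := by positivity
  have hJ1 : (J:ℝ) * Real.log (16 * L) ≤ ε * Real.log n := by
    have := Nat.floor_le hnonneg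
    rw [← hJ] at this
    rwa [le_div_iff₀ hlq] at this
  have hJ2 : ε * Real.log n < ((J:ℝ) + 1) * Real.log (16 * L) := by
    have := Nat.lt_floor_add_one (ε * Real.log n / Real.log (16 * L))
    rw [← hJ] at this
    rwa [div_lt_iff₀ hlq] at this
  have hJpos : 1 ≤ J := by
    rw [hJ]
    apply Nat.le_floor
    rw [Nat.cast_one, le_div_iff₀ hlq, one_mul]
    have h4 := Real.log_le_log (by positivity) hnq
    rw [Real.log_rpow hq0, one_div, inv_mul_le_iff₀ h0] at h4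
    exact h4
  have hpowJ : (16 * L : ℝ) ^ J ≤ (n:ℝ) ^ ε := by
    rw [← Real.rpow_natCast, Real.rpow_def_of_pos hq0, Real.rpow_def_of_pos hnpos]
    apply Real.exp_le_exp.2
    linarith
  by_contra hcon
  rw [not_or] at hcon
  obtain ⟨hbig, hno⟩ := hcon
  have hno' : ∀ m : ℕ, (n:ℝ) ^ (1 - ε) ≤ m → 4 * L * m ≤ n →
      (64 * L : ℝ) ^ (8 / ε) * a (4 * L * m) ≤ a (m / 4) := by
    intro m hm1 hm2
    by_contra h
    exact hno ⟨m, hm1, hm2, (not_le.1 h).le⟩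
  set K : ℝ := (64 * L : ℝ) ^ (8 / ε) with hK
  have hKpos : 0 < K := by
    rw [hK]
    positivity
  -- the scales
  let m : ℕ → ℕ := fun j => n / (4 * L * (16 * L) ^ j)
  have hm_succ : ∀ j, m (j + 1) = m j / (16 * L) := by
    intro j
    simp only [m]
    rw [Nat.div_div_eq_div_mul, pow_succ, mul_assoc (4 * L)]
  have hm_le : ∀ j, 4 * L * m j ≤ n := by
    intro j
    simp only [m]
    have h5 : 1 ≤ (16 * L) ^ j := Nat.one_le_pow _ _ (by omega)
    calc 4 * L * (n / (4 * L * (16 * L) ^ j)) ≤ 4 * L * (16 * L) ^ j * (n / (4 * L * (16 * L) ^ j)) := by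
          apply Nat.mul_le_mul_right
          exact Nat.le_mul_of_pos_right _ h5
      _ ≤ n := Nat.mul_div_le _ _
  have hm_ge : ∀ j, j < J → (n:ℝ) ^ (1 - ε) ≤ m j := by
    intro j hj
    have h6 : (n:ℝ) ^ (1 - ε) * (n:ℝ) ^ ε = n := by
      rw [← Real.rpow_add hnpos]
      simp
    have h7 : (1:ℝ) ≤ (n:ℝ) ^ (1 - ε) := Real.one_le_rpow (by linarith) (by linarith)
    have hLpos : 0 < 4 * L * (16 * L) ^ j := by positivity
    have h8 : ((4 * L * (16 * L) ^ j : ℕ) : ℝ) ≤ (n:ℝ) ^ ε / 4 := by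
      push_cast
      have h9 : (16 * L : ℝ) ^ (j + 1) ≤ (16 * L : ℝ) ^ J := pow_le_pow_right₀ hq1.le (by omega)
      rw [pow_succ] at h9
      linarith
    have h10 : (n:ℝ) / ((4 * L * (16 * L) ^ j : ℕ) : ℝ) < (m j : ℝ) + 1 := by
      rw [div_lt_iff₀ (by exact_mod_cast hLpos)]
      have h11 := Nat.lt_div_mul_add (a := n) hLpos
      have h12 : n < (m j + 1) * (4 * L * (16 * L) ^ j) := by
        simp only [m]
        calc n < n / (4 * L * (16 * L) ^ j) * (4 * L * (16 * L) ^ j) + 4 * L * (16 * L) ^ j := h11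
          _ = _ := by ring
      exact_mod_cast h12
    have h13 : 4 * (n:ℝ) ^ (1 - ε) ≤ (n:ℝ) / ((4 * L * (16 * L) ^ j : ℕ) : ℝ) := by
      rw [le_div_iff₀ (by exact_mod_cast hLpos)]
      have h14 : (0:ℝ) ≤ (n:ℝ) ^ (1 - ε) := by linarith
      nlinarith [mul_le_mul_of_nonneg_left h8 h14]
    linarith
  -- the chain
  have hchain : ∀ j, j ≤ J → K ^ j * a n ≤ a (4 * L * m j) := by
    intro j
    induction j with
    | zero =>
      intro _
      rw [pow_zero, one_mul]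
      exact hanti _ _ (hm_le 0)
    | succ j ih =>
      intro hj
      have h15 := ih (by omega)
      have h16 := hno' (m j) (hm_ge j (by omega)) (hm_le j)
      have h17 : a (m j / 4) ≤ a (4 * L * m (j + 1)) := by
        apply hanti
        rw [hm_succ, Nat.le_div_iff_mul_le (by norm_num)]
        calc 4 * L * (m j / (16 * L)) * 4 = 16 * L * (m j / (16 * L)) := by ring
          _ ≤ m j := Nat.mul_div_le _ _
      calc K ^ (j + 1) * a n = K * (K ^ j * a n) := by ring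
        _ ≤ K * a (4 * L * m j) := by gcongr
        _ ≤ a (m j / 4) := h16
        _ ≤ _ := h17
  have h18 := (hchain J le_rfl).trans (ha2 _)
  -- K^J is large
  have hKJ : (n:ℝ) ^ (4:ℝ) ≤ K ^ J := by
    have h19 : Real.log (16 * L) ≤ Real.log (64 * L) :=
      Real.log_le_log hq0 (by linarith)
    rw [hK, ← Real.rpow_natCast, ← Real.rpow_mul (by positivity),
      Real.rpow_def_of_pos hnpos, Real.rpow_def_of_pos (by positivity : (0:ℝ) < 64 * L)]
    apply Real.exp_le_exp.2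
    have hJr : (1:ℝ) ≤ J := by exact_mod_cast hJpos
    have h20 : ε * Real.log n ≤ 2 * J * Real.log (16 * L) := by nlinarith
    have h21 : ε * Real.log n ≤ 2 * J * Real.log (64 * L) := by
      have : 2 * (J:ℝ) * Real.log (16 * L) ≤ 2 * J * Real.log (64 * L) := by gcongr
      linarith
    have h22 : Real.log n ≤ 2 * J * Real.log (64 * L) / ε := by
      rw [le_div_iff₀ h0]
      linarith
    calc Real.log n * 4 ≤ 2 * J * Real.log (64 * L) / ε * 4 := by gcongr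
      _ = Real.log (64 * L) * (8 / ε * J) := by ring
  apply hbig
  have h23 : (n:ℝ) ^ (4:ℝ) * a n ≤ 2 := by
    have := mul_le_mul_of_nonneg_right hKJ (ha0 n)
    linarith
  have h24 : (n:ℝ) ^ (4:ℝ) = (n:ℝ) ^ (2:ℝ) * (n:ℝ) ^ (2:ℝ) := by
    rw [← Real.rpow_add hnpos]
    norm_num
  have h25 : (2:ℝ) ≤ (n:ℝ) ^ (2:ℝ) := by
    rw [Real.rpow_two]
    nlinarith
  rw [Real.rpow_neg hnpos.le, ← one_div, le_div_iff₀ (by positivity)]
  have h26 : 0 ≤ a n := ha0 n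
  have h27 : 0 ≤ a n * (n:ℝ) ^ (2:ℝ) := by positivity
  rw [h24] at h23
  have h28 : (n:ℝ) ^ (2:ℝ) * (a n * (n:ℝ) ^ (2:ℝ)) ≤ 2 := by
    calc (n:ℝ) ^ (2:ℝ) * (a n * (n:ℝ) ^ (2:ℝ)) = (n:ℝ) ^ (2:ℝ) * (n:ℝ) ^ (2:ℝ) * a n := by ring
      _ ≤ 2 := h23
  have h29 := mul_le_mul_of_nonneg_right h25 h27
  linarith

end H12S
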