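import Pool.Agent.H12R2.Sep.Defs3
import Pool.Agent.H12R2.Sep.Pigeon
import Pool.Agent.H12R2.Sep.Key1

/-!
PART III, KEY: a regular scale and a pair of cells carrying a positive fraction of the sum of the
four-arm probabilities of a thin box. Generic version (the events `X` and the index sets are
parameters).
-/

set_option maxHeartbeats 400000

namespace H12S

open H974 Finset

theorem KY_choose_L (C c s : ℝ) (hc : 0 < c) :
    ∃ L : ℕ, 2 ≤ L ∧ C * Real.exp (-c * L) * (64 * (3 * L : ℕ) : ℝ) ^ s ≤ 1 / 32 := by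
  have h1 := tendsto_rpow_mul_exp_neg_mul_atTop_nhds_zero s c hc
  have h2 := (h1.comp (tendsto_natCast_atTop_atTop (R := ℝ))).const_mul (C * (192:ℝ) ^ s)
  rw [mul_zero] at h2
  have h3 := (h2.eventually (ge_mem_nhds (show (0:ℝ) < 1 / 32 by norm_num))).and
    (Filter.eventually_ge_atTop 2)
  obtain ⟨L, h4, h5⟩ := h3.exists
  refine ⟨L, h5, ?_⟩
  have e1 : (64 * (3 * L : ℕ) : ℝ) ^ s = (192:ℝ) ^ s * (L:ℝ) ^ s := by
    rw [← Real.mul_rpow (by norm_num) (by positivity)]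
    congr 1
    push_cast
    ring
  rw [e1]
  simp only [Function.comp_apply] at h4
  calc C * Real.exp (-c * L) * ((192:ℝ) ^ s * (L:ℝ) ^ s)
      = C * (192:ℝ) ^ s * ((L:ℝ) ^ s * Real.exp (-c * L)) := by ring
    _ ≤ 1 / 32 := h4

theorem KY_card {m : ℕ} (hm : 64 ≤ m) : ((boxE (m / 4)).card : ℝ) ≤ (m:ℝ) ^ 2 := by
  have h1 : (boxE (m / 4)).card ≤ (2 * (m / 4) + 1) * ((2 * (m / 4) + 1) * 2) := by
    unfold boxE RE
    refine (Finset.card_filter_le _ _).trans ?_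
    rw [Finset.card_product, Finset.card_product, Int.card_Icc]
    have e1 : (((m / 4 : ℕ) : ℤ) + 1 - -((m / 4 : ℕ) : ℤ)).toNat = 2 * (m / 4) + 1 := by omega
    rw [e1]
    simp
  have h2 : (2 * (m / 4) + 1) * ((2 * (m / 4) + 1) * 2) ≤ m ^ 2 := by
    have h3 : 2 * (2 * (m / 4) + 1) ≤ m + 2 := by omega
    have h4 := Nat.pow_le_pow_left h3 2
    generalize 2 * (m / 4) + 1 = t at *
    nlinarith
  exact_mod_cast h1.trans h2

theorem key_gen {κ ε : ℝ} (hε : 0 < ε) (hε1 : ε < 1)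
    (X : ℝ → ℕ → ℕ → ℕ → ℕ → (Bool × ℤ) × (Bool × ℤ) → Edg → ℝ)
    (idx : ℕ → ℕ → ℕ → ℕ → Finset ((Bool × ℤ) × (Bool × ℤ))) (cd : ℕ → ℕ)
    (hcard : ∀ L m r N, (idx L m r N).card ≤ cd N)
    (hne : ∀ L m r N, (idx L m r N).Nonempty)
    (hexit : ∃ C c : ℝ, 0 < C ∧ 0 < c ∧ ∀ (L : ℕ) (δ : ℝ), 2 ≤ L →
      0 < δ → ∃ M1 M2 N : ℕ, 64 ≤ M1 ∧ 8 * M1 ≤ M2 ∧ ∀ (q : ℝ) (n : ℕ), Win q κ n → ∀ m : ℕ,
        M2 ≤ m → 4 * L * m ≤ n → ∀ e ∈ boxE (m / 4),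
        PQ q (SR L m) (fun F => A4 (-(2 * L * m : ℕ)) (2 * L * m : ℕ) (-m) m e ↑F) ≤
          (∑ p ∈ idx L m (m / M2) N, X q L m (m / M2) (m / M1) p e) +
          (δ + C * Real.exp (-c * L)) * a4 q (m / 8))
    (hanti : ∀ {q : ℝ}, 0 ≤ q → q ≤ 1 → ∀ {j k : ℕ}, 1 ≤ j → j ≤ k → a4 q k ≤ a4 q j)
    (htwo : ∀ {q : ℝ}, 0 ≤ q → q ≤ 1 → ∀ k : ℕ, a4 q k ≤ 2)
    (hsum : ∀ {q : ℝ}, 0 ≤ q → q ≤ 1 → ∀ {L m : ℕ}, 2 ≤ L → 64 ≤ m →
      (m:ℝ) ^ 2 / 8 * a4 q (4 * L * m) ≤ ∑ e ∈ boxE (m / 4), PQ q (SR L m)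
        (fun F => A4 (-(2 * L * m : ℕ)) (2 * L * m : ℕ) (-m) m e ↑F)) :
    ∃ (L M1 M2 N : ℕ) (C : ℝ) (k0 : ℕ), 2 ≤ L ∧ 64 ≤ M1 ∧ 8 * M1 ≤ M2 ∧ 0 < C ∧
      ∀ (q : ℝ) (n : ℕ), Win q κ n → ∀ k : ℕ, k0 ≤ k → k ≤ n →
        a4 q k ≤ (k:ℝ) ^ (-(2:ℝ)) ∨
        ∃ m : ℕ, M2 ≤ m ∧ M2 ∣ m ∧ (k:ℝ) ^ (1 - ε) ≤ m ∧ 4 * L * m ≤ k ∧
          a4 q (m / 8) ≤ C * a4 q (4 * L * m) ∧
          ∃ p ∈ idx L m (m / M2) N, (m:ℝ) ^ 2 * a4 q (4 * L * m) ≤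
            C * ∑ e ∈ boxE (m / 4), X q L m (m / M2) (m / M1) p e := by
  obtain ⟨C, c, hC, hc, hex⟩ := hexit
  obtain ⟨L, hL, hLK⟩ := KY_choose_L C c (8 / ε) hc
  have hL0 : (0:ℝ) < (3 * L : ℕ) := by
    have : 0 < 3 * L := by omega
    exact_mod_cast this
  obtain ⟨K, hK⟩ : ∃ K : ℝ, K = (64 * (3 * L : ℕ) : ℝ) ^ (8 / ε) := ⟨_, rfl⟩
  have hK0 : 0 < K := by rw [hK]; positivity
  rw [← hK] at hLK
  obtain ⟨M1, M2, N, hM1, hM2, hex2⟩ := hex L (1 / (32 * K)) hL (by positivity)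
  obtain ⟨n0, hpig⟩ := pigeon (L := 3 * L) (by omega) hε hε1
  have hM2pos : 0 < M2 := by omega
  have hM2r : (0:ℝ) < M2 := by exact_mod_cast hM2pos
  refine ⟨L, M1, M2, N, K + 16 * cd N, max n0 (⌈(M2:ℝ) ^ (1 / (1 - ε))⌉₊ + 1), hL, hM1, hM2,
    by positivity, ?_⟩
  intro q n hW k hk hkn
  have h0 : 0 ≤ q := by linarith [hW.lo]
  have h1 : q ≤ 1 := by linarith [hW.hi]
  have ha0 : ∀ j, 0 ≤ a4 q j := fun j =>
    add_nonneg (Pr_nonneg (okq h0 h1) _ _) (Pr_nonneg (okq h0 h1) _ _)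
  have hk1 : 1 ≤ k := by
    have := (le_max_right n0 (⌈(M2:ℝ) ^ (1 / (1 - ε))⌉₊ + 1)).trans hk
    omega
  rcases hpig (fun j => a4 q (max j 1)) (fun j => ha0 _) (fun j => htwo h0 h1 _)
    (fun j k h => hanti h0 h1 (le_max_right _ _) (max_le_max_right 1 h)) k
    ((le_max_left _ _).trans hk) with h | ⟨m', hm1, hm2, hm3⟩
  · left
    rwa [max_eq_left hk1] at h
  right
  rw [← hK] at hm3
  -- the scale is large
  have hkM : (M2:ℝ) ≤ (k:ℝ) ^ (1 - ε) := by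
    have h3 : (M2:ℝ) ^ (1 / (1 - ε)) ≤ k := by
      refine (Nat.le_ceil _).trans ?_
      have := (le_max_right n0 (⌈(M2:ℝ) ^ (1 / (1 - ε))⌉₊ + 1)).trans hk
      exact_mod_cast (Nat.le_succ _).trans this
    calc (M2:ℝ) = ((M2:ℝ) ^ (1 / (1 - ε))) ^ (1 - ε) := by
          rw [← Real.rpow_mul hM2r.le, one_div_mul_cancel (by linarith), Real.rpow_one]
      _ ≤ _ := Real.rpow_le_rpow (by positivity) h3 (by linarith)
  have hM2m : M2 ≤ m' := by exact_mod_cast hkM.trans hm1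
  obtain ⟨m, hm⟩ : ∃ m : ℕ, m = M2 * (2 * m' / M2 + 1) := ⟨_, rfl⟩
  have hmlo : 2 * m' ≤ m := by
    rw [hm]; exact (Nat.lt_mul_div_succ _ hM2pos).le
  have hmhi : m ≤ 3 * m' := by
    rw [hm, Nat.mul_add, Nat.mul_one]
    have := Nat.mul_div_le (2 * m') M2
    omega
  have hmM : M2 ≤ m := by omega
  have hm64 : 64 ≤ m := by omega
  have h4 : 4 * L * m ≤ 4 * (3 * L) * m' := by
    calc 4 * L * m ≤ 4 * L * (3 * m') := Nat.mul_le_mul_left _ hmhi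
      _ = _ := by ring
  have h4k : 4 * L * m ≤ k := h4.trans hm2
  have h4pos : 1 ≤ 4 * L * m := Nat.one_le_iff_ne_zero.mpr (by positivity)
  rw [max_eq_left (show 1 ≤ m' / 4 by omega), max_eq_left (h4pos.trans h4)] at hm3
  have h8 : a4 q (m / 8) ≤ K * a4 q (4 * L * m) := by
    calc a4 q (m / 8) ≤ a4 q (m' / 4) := hanti h0 h1 (by omega) (by omega)
      _ ≤ K * a4 q (4 * (3 * L) * m') := hm3
      _ ≤ K * a4 q (4 * L * m) := mul_le_mul_of_nonneg_left (hanti h0 h1 h4pos h4) hK0.le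
  refine ⟨m, hmM, ⟨_, hm⟩, hm1.trans ?_, h4k, ?_, ?_⟩
  · have : m' ≤ m := by omega
    exact_mod_cast this
  · refine h8.trans (mul_le_mul_of_nonneg_right ?_ (ha0 _))
    have : (0:ℝ) ≤ 16 * cd N := by positivity
    linarith
  -- the sum
  set T : (Bool × ℤ) × (Bool × ℤ) → ℝ := fun p =>
    ∑ e ∈ boxE (m / 4), X q L m (m / M2) (m / M1) p e with hT
  have hs := hsum h0 h1 hL hm64
  have hm0 : (0:ℝ) < m := by
    have : 0 < m := by omega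
    exact_mod_cast this
  have hη : (1 / (32 * K) + C * Real.exp (-c * L)) * K ≤ 1 / 16 := by
    have e1 : 1 / (32 * K) * K = 1 / 32 := by field_simp
    calc (1 / (32 * K) + C * Real.exp (-c * L)) * K
        = 1 / (32 * K) * K + C * Real.exp (-c * L) * K := by ring
      _ ≤ 1 / 32 + 1 / 32 := by rw [e1]; linarith
      _ = 1 / 16 := by norm_num
  have hη0 : 0 ≤ 1 / (32 * K) + C * Real.exp (-c * L) := by positivity
  have hs2 : ∑ e ∈ boxE (m / 4), PQ q (SR L m)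
        (fun F => A4 (-(2 * L * m : ℕ)) (2 * L * m : ℕ) (-m) m e ↑F) ≤
      ∑ p ∈ idx L m (m / M2) N, T p + (m:ℝ) ^ 2 / 16 * a4 q (4 * L * m) := by
    refine (Finset.sum_le_sum fun e he => hex2 q n hW m hmM (h4k.trans hkn) e he).trans ?_
    rw [Finset.sum_add_distrib, Finset.sum_comm, Finset.sum_const, nsmul_eq_mul]
    refine add_le_add le_rfl ?_
    calc ((boxE (m / 4)).card : ℝ) * ((1 / (32 * K) + C * Real.exp (-c * L)) * a4 q (m / 8))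
        ≤ (m:ℝ) ^ 2 * ((1 / (32 * K) + C * Real.exp (-c * L)) * (K * a4 q (4 * L * m))) := by
          apply mul_le_mul (KY_card hm64) _ (mul_nonneg hη0 (ha0 _)) (by positivity)
          exact mul_le_mul_of_nonneg_left h8 hη0
      _ = (m:ℝ) ^ 2 * ((1 / (32 * K) + C * Real.exp (-c * L)) * K) * a4 q (4 * L * m) := by ring
      _ ≤ (m:ℝ) ^ 2 * (1 / 16) * a4 q (4 * L * m) := by
          apply mul_le_mul_of_nonneg_right _ (ha0 _)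
          exact mul_le_mul_of_nonneg_left hη (by positivity)
      _ = _ := by ring
  have hs3 : (m:ℝ) ^ 2 / 16 * a4 q (4 * L * m) ≤ ∑ p ∈ idx L m (m / M2) N, T p := by
    have e1 : (m:ℝ) ^ 2 / 8 * a4 q (4 * L * m) = (m:ℝ) ^ 2 / 16 * a4 q (4 * L * m) +
        (m:ℝ) ^ 2 / 16 * a4 q (4 * L * m) := by ring
    linarith
  obtain ⟨p, hp, hmax⟩ := Finset.exists_max_image (idx L m (m / M2) N) T (hne _ _ _ _)
  refine ⟨p, hp, ?_⟩
  change (m:ℝ) ^ 2 * a4 q (4 * L * m) ≤ (K + 16 * cd N) * T p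
  have hs4 : ∑ p ∈ idx L m (m / M2) N, T p ≤ ((idx L m (m / M2) N).card : ℝ) * T p := by
    rw [← nsmul_eq_mul]
    exact Finset.sum_le_card_nsmul _ _ _ hmax
  have hcpos : (0:ℝ) < ((idx L m (m / M2) N).card : ℝ) := by
    exact_mod_cast Finset.card_pos.mpr (hne _ _ _ _)
  have hL0' : 0 ≤ (m:ℝ) ^ 2 / 16 * a4 q (4 * L * m) := mul_nonneg (by positivity) (ha0 _)
  have hTp : 0 ≤ T p := by
    by_contra hneg
    push Not at hneg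
    have := mul_neg_of_pos_of_neg hcpos hneg
    linarith
  have hcd : ((idx L m (m / M2) N).card : ℝ) ≤ cd N := by exact_mod_cast hcard _ _ _ _
  calc (m:ℝ) ^ 2 * a4 q (4 * L * m) = 16 * ((m:ℝ) ^ 2 / 16 * a4 q (4 * L * m)) := by ring
    _ ≤ 16 * (((idx L m (m / M2) N).card : ℝ) * T p) := by linarith
    _ ≤ 16 * (cd N * T p) := by
        have := mul_le_mul_of_nonneg_right hcd hTp
        linarith
    _ ≤ (K + 16 * cd N) * T p := by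
        have := mul_nonneg hK0.le hTp
        nlinarith

/-- KEY with `Sev`, from the statement `exit_prob2` (the set `prs L m (m / M2) N` is written
out). -/
theorem key2_of (κ : ℝ) (ε : ℝ) (hε : 0 < ε) (hε1 : ε < 1)
    (hexit : ∃ C c : ℝ, 0 < C ∧ 0 < c ∧ ∀ (L : ℕ) (δ : ℝ), 2 ≤ L →
      0 < δ → ∃ M1 M2 N : ℕ, 64 ≤ M1 ∧ 8 * M1 ≤ M2 ∧ ∀ (q : ℝ) (n : ℕ), Win q κ n → ∀ m : ℕ,
        M2 ≤ m → 4 * L * m ≤ n → ∀ e ∈ boxE (m / 4),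
        PQ q (SR L m) (fun F => A4 (-(2 * L * m : ℕ)) (2 * L * m : ℕ) (-m) m e ↑F) ≤
          (∑ p ∈ (((univ : Finset Bool) ×ˢ Icc (-(N:ℤ)) N) ×ˢ
              ((univ : Finset Bool) ×ˢ Icc (-(N:ℤ)) N)).filter (fun p =>
              |2 * ((m / M2 : ℕ) : ℤ) * p.1.2| ≤ (L * m : ℕ) + ((m / M2 : ℕ) : ℤ) ∧
              |2 * ((m / M2 : ℕ) : ℤ) * p.2.2| ≤ (L * m : ℕ) + ((m / M2 : ℕ) : ℤ)),
            PQ q (SR L m) (fun F =>
            Sev L m (m / M2) (m / M1) p.1.1 (2 * (m / M2 : ℕ) * p.1.2) p.2.1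
              (2 * (m / M2 : ℕ) * p.2.2) e ↑F)) +
          (δ + C * Real.exp (-c * L)) * a4 q (m / 8)) :
    ∃ (L M1 M2 : ℕ) (C : ℝ) (k0 : ℕ), 2 ≤ L ∧ 64 ≤ M1 ∧ 8 * M1 ≤ M2 ∧ 0 < C ∧
      ∀ (q : ℝ) (n : ℕ), Win q κ n → ∀ k : ℕ, k0 ≤ k → k ≤ n →
        a4 q k ≤ (k:ℝ) ^ (-(2:ℝ)) ∨
        ∃ m : ℕ, M2 ≤ m ∧ M2 ∣ m ∧ (k:ℝ) ^ (1 - ε) ≤ m ∧ 4 * L * m ≤ k ∧
          a4 q (m / 8) ≤ C * a4 q (4 * L * m) ∧
          ∃ (σ : Bool) (k1 : ℤ) (σ' : Bool) (k2 : ℤ),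
            |2 * (m / M2 : ℕ) * k1| ≤ (L * m : ℕ) + (m / M2 : ℕ) ∧
            |2 * (m / M2 : ℕ) * k2| ≤ (L * m : ℕ) + (m / M2 : ℕ) ∧
            (m:ℝ) ^ 2 * a4 q (4 * L * m) ≤ C * TS q L m (m / M2) (m / M1) σ k1 σ' k2 := by
  obtain ⟨L, M1, M2, N, C, k0, h1, h2, h3, h4, h5⟩ := key_gen (κ := κ) hε hε1
    (fun q L m r ρ p e => PQ q (SR L m) (fun F =>
      Sev L m r ρ p.1.1 (2 * r * p.1.2) p.2.1 (2 * r * p.2.2) e ↑F))
    (fun L m r N => (((univ : Finset Bool) ×ˢ Icc (-(N:ℤ)) N) ×ˢ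
      ((univ : Finset Bool) ×ˢ Icc (-(N:ℤ)) N)).filter (fun p =>
        |2 * (r:ℤ) * p.1.2| ≤ (L * m : ℕ) + (r:ℤ) ∧ |2 * (r:ℤ) * p.2.2| ≤ (L * m : ℕ) + (r:ℤ)))
    (fun N => (2 * (2 * N + 1)) * (2 * (2 * N + 1)))
    (by
      intro L m r N
      refine (Finset.card_filter_le _ _).trans ?_
      rw [Finset.card_product, Finset.card_product, Int.card_Icc, Finset.card_univ,
        Fintype.card_bool]
      have : ((N:ℤ) + 1 - -(N:ℤ)).toNat = 2 * N + 1 := by omega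
      rw [this])
    (by
      intro L m r N
      refine ⟨((true, 0), (true, 0)), ?_⟩
      simp only [Finset.mem_filter, Finset.mem_product, Finset.mem_Icc, Finset.mem_univ, true_and,
        mul_zero, abs_zero]
      refine ⟨⟨⟨by omega, by omega⟩, ⟨by omega, by omega⟩⟩, ?_, ?_⟩ <;> positivity)
    hexit (fun h0 h1 _ _ hj h => a4_anti h0 h1 hj h) (fun h0 h1 k => a4_le_two h0 h1 k)
    (fun h0 h1 _ _ hL hm => a4_sum_ge h0 h1 hL hm)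
  refine ⟨L, M1, M2, C, k0, h1, h2, h3, h4, ?_⟩
  intro q n hW k hk hkn
  rcases h5 q n hW k hk hkn with h | ⟨m, g1, g2, g3, g4, g5, p, hp, g6⟩
  · exact Or.inl h
  · right
    rw [Finset.mem_filter] at hp
    exact ⟨m, g1, g2, g3, g4, g5, p.1.1, p.1.2, p.2.1, p.2.2, hp.2.1, hp.2.2, g6⟩

end H12S
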