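import Pool.Agent.H12R2.Sep.Exit4
import Pool.Agent.H12R2.Sep.Key2

/-!
KEY with `Sev`, closed.
-/

namespace H12S

open H974 Finset

/-- KEY with `Sev`. -/
theorem key2 (κ : ℝ) (hκ : 0 < κ) (ε : ℝ) (hε : 0 < ε) (hε1 : ε < 1) :
    ∃ (L M1 M2 : ℕ) (C : ℝ) (k0 : ℕ), 2 ≤ L ∧ 64 ≤ M1 ∧ 8 * M1 ≤ M2 ∧ 0 < C ∧
      ∀ (q : ℝ) (n : ℕ), Win q κ n → ∀ k : ℕ, k0 ≤ k → k ≤ n →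
        a4 q k ≤ (k:ℝ) ^ (-(2:ℝ)) ∨
        ∃ m : ℕ, M2 ≤ m ∧ M2 ∣ m ∧ (k:ℝ) ^ (1 - ε) ≤ m ∧ 4 * L * m ≤ k ∧
          a4 q (m / 8) ≤ C * a4 q (4 * L * m) ∧
          ∃ (σ : Bool) (k1 : ℤ) (σ' : Bool) (k2 : ℤ),
            |2 * (m / M2 : ℕ) * k1| ≤ (L * m : ℕ) + (m / M2 : ℕ) ∧
            |2 * (m / M2 : ℕ) * k2| ≤ (L * m : ℕ) + (m / M2 : ℕ) ∧
            (m:ℝ) ^ 2 * a4 q (4 * L * m) ≤ C * TS q L m (m / M2) (m / M1) σ k1 σ' k2 :=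
  key2_of κ ε hε hε1 (exit_prob2 κ hκ)

end H12S
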