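import Pool.Agent.H12R2.Sep.Defs4
import Pool.Agent.H12R2.Sep.Exit4
import Pool.Agent.H12R2.Sep.Key2

/-!
KEY for the central edges (task KC): a regular scale and a pair of cells which carry a positive
fraction of the four-arm probability at the origin.
-/

set_option maxHeartbeats 400000

namespace H12S

open H974 Finset

theorem kc_choose_L (C c s : ℝ) (hc : 0 < c) :
    ∃ L : ℕ, 2 ≤ L ∧ C * Real.exp (-c * L) * (64 * (12 * L : ℕ) : ℝ) ^ s ≤ 1 / 32 := by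
  obtain ⟨L, hL, h⟩ := KY_choose_L (C * (4:ℝ) ^ s) c s hc
  refine ⟨L, hL, ?_⟩
  have e1 : (64 * (12 * L : ℕ) : ℝ) ^ s = (4:ℝ) ^ s * (64 * (3 * L : ℕ) : ℝ) ^ s := by
    rw [← Real.mul_rpow (by norm_num) (by positivity)]
    congr 1
    push_cast
    ring
  rw [e1]
  calc C * Real.exp (-c * L) * ((4:ℝ) ^ s * (64 * (3 * L : ℕ) : ℝ) ^ s)
      = C * (4:ℝ) ^ s * Real.exp (-c * L) * (64 * (3 * L : ℕ) : ℝ) ^ s := by ring
    _ ≤ 1 / 32 := h

theorem kc_e0_mem {m : ℕ} (hm : 64 ≤ m) (β : Bool) : e0 β ∈ boxE (m / 4) := by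
  unfold boxE e0
  cases β
  · rw [mem_RE_false]; omega
  · rw [mem_RE_true]; omega

theorem kc_prs_card (L m r N : ℕ) :
    (prs L m r N).card ≤ (2 * (2 * N + 1)) * (2 * (2 * N + 1)) := by
  unfold prs
  refine (Finset.card_filter_le _ _).trans ?_
  rw [Finset.card_product, Finset.card_product, Int.card_Icc, Finset.card_univ,
    Fintype.card_bool]
  have : ((N:ℤ) + 1 - -(N:ℤ)).toNat = 2 * N + 1 := by omega
  rw [this]

theorem kc_prs_ne (L m r N : ℕ) : (prs L m r N).Nonempty := by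
  refine ⟨((true, 0), (true, 0)), ?_⟩
  unfold prs
  simp only [Finset.mem_filter, Finset.mem_product, Finset.mem_Icc, Finset.mem_univ, true_and,
    mul_zero, abs_zero]
  refine ⟨⟨⟨by omega, by omega⟩, ⟨by omega, by omega⟩⟩, ?_, ?_⟩ <;> positivity

/-- KEY for the central edges. -/
theorem key_center (κ : ℝ) (hκ : 0 < κ) (ε : ℝ) (hε : 0 < ε) (hε1 : ε < 1) :
    ∃ (L M1 M2 : ℕ) (C : ℝ), 2 ≤ L ∧ 64 ≤ M1 ∧ 8 * M1 ≤ M2 ∧ 0 < C ∧ ∀ Mr : ℕ, ∃ k0 : ℕ,
      ∀ (q : ℝ) (n : ℕ), Win q κ n → ∀ k : ℕ, k0 ≤ k → k ≤ n →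
        a4 q k ≤ (k:ℝ) ^ (-(2:ℝ)) ∨
        ∃ r m : ℕ, Mr ≤ r ∧ m = M2 * r ∧ (k:ℝ) ^ (1 - ε) ≤ m ∧ 16 * L * m ≤ k ∧
          a4 q (m / 8) ≤ C * a4 q (4 * L * m) ∧
          ∃ (σ : Bool) (k1 : ℤ) (σ' : Bool) (k2 : ℤ) (β : Bool),
            |2 * k1| ≤ L * M2 + 1 ∧ |2 * k2| ≤ L * M2 + 1 ∧
            a4 q (4 * L * m) ≤ C * PQ q (SR L m) (fun F =>
              Sev L m r (m / M1) σ (2 * r * k1) σ' (2 * r * k2) (e0 β) ↑F) := by
  obtain ⟨C, c, hC, hc, hex⟩ := exit_prob2 κ hκ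
  obtain ⟨L, hL, hLK⟩ := kc_choose_L C c (8 / ε) hc
  have hL0 : (0:ℝ) < (12 * L : ℕ) := by
    have : 0 < 12 * L := by omega
    exact_mod_cast this
  obtain ⟨K, hK⟩ : ∃ K : ℝ, K = (64 * (12 * L : ℕ) : ℝ) ^ (8 / ε) := ⟨_, rfl⟩
  have hK0 : 0 < K := by rw [hK]; positivity
  rw [← hK] at hLK
  obtain ⟨M1, M2, N, hM1, hM2, hex2⟩ := hex L (1 / (32 * K)) hL (by positivity)
  obtain ⟨n0, hpig⟩ := pigeon (L := 12 * L) (by omega) hε hε1
  have hM2pos : 0 < M2 := by omega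
  have hM2r : (0:ℝ) < M2 := by exact_mod_cast hM2pos
  obtain ⟨cd, hcd⟩ : ∃ cd : ℕ, cd = (2 * (2 * N + 1)) * (2 * (2 * N + 1)) := ⟨_, rfl⟩
  refine ⟨L, M1, M2, K + 4 * cd, hL, hM1, hM2, by positivity, fun Mr => ?_⟩
  obtain ⟨B, hB⟩ : ∃ B : ℕ, B = M2 * (Mr + 1) := ⟨_, rfl⟩
  have hBpos : 0 < B := by rw [hB]; positivity
  have hBr : (0:ℝ) < B := by exact_mod_cast hBpos
  refine ⟨max n0 (⌈(B:ℝ) ^ (1 / (1 - ε))⌉₊ + 1), ?_⟩
  intro q n hW k hk hkn
  have h0 : 0 ≤ q := by linarith [hW.lo]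
  have h1 : q ≤ 1 := by linarith [hW.hi]
  have ha0 : ∀ j, 0 ≤ a4 q j := fun j => a4_nonneg h0 h1 j
  have hk1 : 1 ≤ k := by
    have := (le_max_right n0 (⌈(B:ℝ) ^ (1 / (1 - ε))⌉₊ + 1)).trans hk
    omega
  rcases hpig (fun j => a4 q (max j 1)) (fun j => ha0 _) (fun j => a4_le_two h0 h1 _)
    (fun j k h => a4_anti h0 h1 (le_max_right _ _) (max_le_max_right 1 h)) k
    ((le_max_left _ _).trans hk) with h | ⟨m', hm1, hm2, hm3⟩
  · left
    rwa [max_eq_left hk1] at h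
  right
  rw [← hK] at hm3
  -- the scale is large
  have hkB : (B:ℝ) ≤ (k:ℝ) ^ (1 - ε) := by
    have h3 : (B:ℝ) ^ (1 / (1 - ε)) ≤ k := by
      refine (Nat.le_ceil _).trans ?_
      have := (le_max_right n0 (⌈(B:ℝ) ^ (1 / (1 - ε))⌉₊ + 1)).trans hk
      exact_mod_cast (Nat.le_succ _).trans this
    calc (B:ℝ) = ((B:ℝ) ^ (1 / (1 - ε))) ^ (1 - ε) := by
          rw [← Real.rpow_mul hBr.le, one_div_mul_cancel (by linarith), Real.rpow_one]
      _ ≤ _ := Real.rpow_le_rpow (by positivity) h3 (by linarith)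
  have hBm : B ≤ m' := by exact_mod_cast hkB.trans hm1
  have hM2m : M2 ≤ m' := by
    refine le_trans ?_ hBm
    rw [hB]
    exact Nat.le_mul_of_pos_right _ (by omega)
  obtain ⟨r, hr⟩ : ∃ r : ℕ, r = 2 * m' / M2 + 1 := ⟨_, rfl⟩
  obtain ⟨m, hm⟩ : ∃ m : ℕ, m = M2 * r := ⟨_, rfl⟩
  have hmlo : 2 * m' ≤ m := by
    rw [hm, hr]; exact (Nat.lt_mul_div_succ _ hM2pos).le
  have hmhi : m ≤ 3 * m' := by
    rw [hm, hr, Nat.mul_add, Nat.mul_one]
    have := Nat.mul_div_le (2 * m') M2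
    omega
  have hrpos : 0 < r := by rw [hr]; exact Nat.succ_pos _
  have hMr : Mr ≤ r := by
    have h2 : M2 * (Mr + 1) ≤ M2 * r := by
      rw [← hB, ← hm]
      omega
    have := Nat.le_of_mul_le_mul_left h2 hM2pos
    omega
  have hmM : M2 ≤ m := by omega
  have hm64 : 64 ≤ m := by omega
  have hmr : m / M2 = r := by
    rw [hm]
    exact Nat.mul_div_cancel_left _ hM2pos
  obtain ⟨t, ht⟩ : ∃ t : ℕ, t = L * m := ⟨_, rfl⟩
  obtain ⟨t', ht'⟩ : ∃ t' : ℕ, t' = L * m' := ⟨_, rfl⟩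
  have htt : t ≤ 3 * t' := by
    rw [ht, ht']
    calc L * m ≤ L * (3 * m') := Nat.mul_le_mul_left _ hmhi
      _ = 3 * (L * m') := by ring
  have e4 : 4 * L * m = 4 * t := by rw [ht]; ring
  have e16 : 16 * L * m = 16 * t := by rw [ht]; ring
  have e48 : 4 * (12 * L) * m' = 48 * t' := by rw [ht']; ring
  have htpos : 1 ≤ t := by
    rw [ht]; exact Nat.one_le_iff_ne_zero.mpr (by positivity)
  rw [e48] at hm2 hm3
  have h16k : 16 * L * m ≤ k := by omega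
  have h4k : 4 * L * m ≤ k := by omega
  rw [max_eq_left (show 1 ≤ m' / 4 by omega), max_eq_left (show 1 ≤ 48 * t' by omega)] at hm3
  have h8 : a4 q (m / 8) ≤ K * a4 q (4 * L * m) := by
    calc a4 q (m / 8) ≤ a4 q (m' / 4) := a4_anti h0 h1 (by omega) (by omega)
      _ ≤ K * a4 q (48 * t') := hm3
      _ ≤ K * a4 q (4 * L * m) :=
          mul_le_mul_of_nonneg_left (a4_anti h0 h1 (by omega) (by omega)) hK0.le
  refine ⟨r, m, hMr, hm, hm1.trans ?_, h16k, ?_, ?_⟩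
  · have : m' ≤ m := by omega
    exact_mod_cast this
  · refine h8.trans (mul_le_mul_of_nonneg_right ?_ (ha0 _))
    have : (0:ℝ) ≤ 4 * cd := by positivity
    linarith
  -- the sum over the two central edges
  set T : Bool → (Bool × ℤ) × (Bool × ℤ) → ℝ := fun β p => PQ q (SR L m) (fun F =>
      Sev L m r (m / M1) p.1.1 (2 * r * p.1.2) p.2.1 (2 * r * p.2.2) (e0 β) ↑F) with hT
  set a : ℝ := a4 q (4 * L * m) with hadef
  have hT0 : ∀ β p, 0 ≤ T β p := fun β p => Pr_nonneg (okq h0 h1) _ _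
  have hη : (1 / (32 * K) + C * Real.exp (-c * L)) * K ≤ 1 / 16 := by
    have e1 : 1 / (32 * K) * K = 1 / 32 := by field_simp
    calc (1 / (32 * K) + C * Real.exp (-c * L)) * K
        = 1 / (32 * K) * K + C * Real.exp (-c * L) * K := by ring
      _ ≤ 1 / 32 + 1 / 32 := by rw [e1]; linarith
      _ = 1 / 16 := by norm_num
  have hη0 : 0 ≤ 1 / (32 * K) + C * Real.exp (-c * L) := by positivity
  have hβ : ∀ β : Bool, a4b q (4 * L * m) β ≤ ∑ p ∈ prs L m r N, T β p + 1 / 16 * a := by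
    intro β
    have s1 : a4b q (4 * L * m) β ≤ PQ q (SR L m)
        (fun F => A4 (-(2 * L * m : ℕ)) (2 * L * m : ℕ) (-m) m (e0 β) ↑F) :=
      thin_ge h0 h1 hL hm64 (x := 0) (y := 0) (b := β) (kc_e0_mem hm64 β)
    have s2 := hex2 q n hW m hmM (h4k.trans hkn) (e0 β) (kc_e0_mem hm64 β)
    rw [hmr] at s2
    refine s1.trans (s2.trans (add_le_add le_rfl ?_))
    calc (1 / (32 * K) + C * Real.exp (-c * L)) * a4 q (m / 8)
        ≤ (1 / (32 * K) + C * Real.exp (-c * L)) * (K * a) :=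
          mul_le_mul_of_nonneg_left h8 hη0
      _ = ((1 / (32 * K) + C * Real.exp (-c * L)) * K) * a := by ring
      _ ≤ 1 / 16 * a := mul_le_mul_of_nonneg_right hη (ha0 _)
  obtain ⟨pt, hpt, hmt⟩ := Finset.exists_max_image (prs L m r N) (T true) (kc_prs_ne _ _ _ _)
  obtain ⟨pf, hpf, hmf⟩ := Finset.exists_max_image (prs L m r N) (T false) (kc_prs_ne _ _ _ _)
  have hcard : ((prs L m r N).card : ℝ) ≤ cd := by
    rw [hcd]
    exact_mod_cast kc_prs_card L m r N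
  have hst : ∑ p ∈ prs L m r N, T true p ≤ cd * T true pt := by
    refine (Finset.sum_le_card_nsmul _ _ _ hmt).trans ?_
    rw [nsmul_eq_mul]
    exact mul_le_mul_of_nonneg_right hcard (hT0 _ _)
  have hsf : ∑ p ∈ prs L m r N, T false p ≤ cd * T false pf := by
    refine (Finset.sum_le_card_nsmul _ _ _ hmf).trans ?_
    rw [nsmul_eq_mul]
    exact mul_le_mul_of_nonneg_right hcard (hT0 _ _)
  have ha2 : a ≤ cd * T true pt + cd * T false pf + 1 / 8 * a := by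
    have h3 := hβ true
    have h4 := hβ false
    have h5 : a = a4b q (4 * L * m) true + a4b q (4 * L * m) false := a4_eq q _
    linarith
  -- conditions on the cells
  have hcell : ∀ p ∈ prs L m r N, |2 * p.1.2| ≤ (L:ℤ) * M2 + 1 ∧ |2 * p.2.2| ≤ (L:ℤ) * M2 + 1 := by
    intro p hp
    unfold prs at hp
    rw [Finset.mem_filter] at hp
    obtain ⟨-, g1, g2⟩ := hp
    have hrz : (0:ℤ) < r := by exact_mod_cast hrpos
    have key : ∀ x : ℤ, |2 * (r:ℤ) * x| ≤ ((L * m : ℕ) : ℤ) + (r:ℤ) → |2 * x| ≤ (L:ℤ) * M2 + 1 := by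
      intro x hx
      have e1 : |2 * (r:ℤ) * x| = (r:ℤ) * |2 * x| := by
        rw [show 2 * (r:ℤ) * x = (r:ℤ) * (2 * x) by ring, abs_mul, abs_of_pos hrz]
      have e2 : ((L * m : ℕ) : ℤ) + (r:ℤ) = (r:ℤ) * ((L:ℤ) * M2 + 1) := by
        rw [hm]; push_cast; ring
      rw [e1, e2] at hx
      exact le_of_mul_le_mul_left hx hrz
    exact ⟨key _ g1, key _ g2⟩
  have hcd0 : (0:ℝ) ≤ cd := Nat.cast_nonneg _
  rcases le_total (T false pf) (T true pt) with hle | hle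
  · refine ⟨pt.1.1, pt.1.2, pt.2.1, pt.2.2, true, (hcell pt hpt).1, (hcell pt hpt).2, ?_⟩
    change a ≤ (K + 4 * cd) * T true pt
    have h3 : cd * T false pf ≤ cd * T true pt := mul_le_mul_of_nonneg_left hle hcd0
    have h4 := mul_nonneg hK0.le (hT0 true pt)
    have h5 := ha0 (4 * L * m)
    nlinarith [mul_nonneg hcd0 (hT0 true pt)]
  · refine ⟨pf.1.1, pf.1.2, pf.2.1, pf.2.2, false, (hcell pf hpf).1, (hcell pf hpf).2, ?_⟩
    change a ≤ (K + 4 * cd) * T false pf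
    have h3 : cd * T true pt ≤ cd * T false pf := mul_le_mul_of_nonneg_left hle hcd0
    have h4 := mul_nonneg hK0.le (hT0 false pf)
    have h5 := ha0 (4 * L * m)
    nlinarith [mul_nonneg hcd0 (hT0 false pf)]

end H12S
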