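import Pool.Agent.H12R2.Sep.Defs

/-! Stopping sets (task MK of `h12_tasks`, helper804). -/

namespace H12S

open H974 Finset

section Markov
variable {E : Type*} [DecidableEq E]

/-- `K` is a stopping map. -/
def Stop (S : Finset E) (K : Finset E → Finset E) : Prop :=
  ∀ F F', F ⊆ S → F' ⊆ S → F ∩ K F = F' ∩ K F → K F' = K F

theorem MK_false (p : E → ℝ) (S : Finset E) {X : Finset E → Prop} (h : ∀ F, F ⊆ S → ¬ X F) :
    Pr p S X = 0 := by
  unfold Pr
  rw [Ex_congr (g := fun _ => 0) (fun F hF => ind_not_of (h F hF)), Ex_const]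

theorem MK_inter {S F : Finset E} (hF : F ⊆ S) (K : Finset E) : F ∩ (K ∩ S) = F ∩ K := by
  ext x
  simp only [Finset.mem_inter]
  constructor
  · rintro ⟨h1, h2, -⟩; exact ⟨h1, h2⟩
  · rintro ⟨h1, h2⟩; exact ⟨h1, h2, hF h1⟩

theorem MK_sdiff {S F : Finset E} (hF : F ⊆ S) (K : Finset E) : F \ (K ∩ S) = F \ K := by
  ext x
  simp only [Finset.mem_sdiff, Finset.mem_inter, not_and]
  constructor
  · rintro ⟨h1, h2⟩; exact ⟨h1, fun h => h2 h (hF h1)⟩
  · rintro ⟨h1, h2⟩; exact ⟨h1, fun h => absurd h h2⟩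

theorem MK_cell {p : E → ℝ} {S : Finset E} {K : Finset E → Finset E}
    (hK : Stop S K) {A B : Finset E → Prop}
    (hA : ∀ F F', F ⊆ S → F' ⊆ S → F ∩ K F = F' ∩ K F → A F → A F') (K0 T : Finset E) :
    Pr p S (fun F => (K F ∩ S = K0 ∧ F ∩ K0 = T) ∧ (A F ∧ B (F \ K F))) =
      Pr p S (fun F => (K F ∩ S = K0 ∧ F ∩ K0 = T) ∧ A F) * Pr p S (fun F => B (F \ K0)) := by
  by_cases h : ∃ F1, F1 ⊆ S ∧ K F1 ∩ S = K0 ∧ F1 ∩ K0 = T ∧ A F1
  · obtain ⟨F1, hF1, hK1, hT1, hA1⟩ := h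
    have hK0 : K0 ⊆ S := by rw [← hK1]; exact Finset.inter_subset_right
    have key : ∀ F, F ⊆ S → F ∩ K0 = T → (K F ∩ S = K0 ∧ A F) := by
      intro F hF hFT
      have e : F1 ∩ K F1 = F ∩ K F1 := by
        rw [← MK_inter hF1 (K F1), ← MK_inter hF (K F1), hK1, hT1, hFT]
      have h2 : K F = K F1 := hK F1 F hF1 hF e
      exact ⟨by rw [h2, hK1], hA F1 F hF1 hF e hA1⟩
    have e1 : Pr p S (fun F => (K F ∩ S = K0 ∧ F ∩ K0 = T) ∧ (A F ∧ B (F \ K F))) =
        Pr p S (fun F => F ∩ K0 = T ∧ B (F \ K0)) := by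
      apply Pr_congr
      intro F hF
      constructor
      · rintro ⟨⟨h1, h2⟩, -, h3⟩
        refine ⟨h2, ?_⟩
        rw [← MK_sdiff hF, h1] at h3
        exact h3
      · rintro ⟨h1, h2⟩
        obtain ⟨h3, h4⟩ := key F hF h1
        refine ⟨⟨h3, h1⟩, h4, ?_⟩
        rw [← MK_sdiff hF, h3]
        exact h2
    have e2 : Pr p S (fun F => (K F ∩ S = K0 ∧ F ∩ K0 = T) ∧ A F) =
        Pr p S (fun F => F ∩ K0 = T) := by
      apply Pr_congr
      intro F hF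
      constructor
      · rintro ⟨⟨-, h2⟩, -⟩; exact h2
      · intro h1
        obtain ⟨h3, h4⟩ := key F hF h1
        exact ⟨⟨h3, h1⟩, h4⟩
    rw [e1, e2]
    refine Pr_indep (S := K0) (T := S \ K0) hK0 Finset.sdiff_subset Finset.disjoint_sdiff ?_ ?_
    · intro F _
      rw [Finset.inter_assoc, Finset.inter_self]
    · intro F hF
      have : F \ K0 = (F ∩ (S \ K0)) \ K0 := by
        ext x
        simp only [Finset.mem_sdiff, Finset.mem_inter]
        constructor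
        · rintro ⟨h1, h2⟩; exact ⟨⟨h1, hF h1, h2⟩, h2⟩
        · rintro ⟨⟨h1, -, -⟩, h2⟩; exact ⟨h1, h2⟩
      rw [← this]
  · rw [MK_false p S, MK_false p S (X := fun F => (K F ∩ S = K0 ∧ F ∩ K0 = T) ∧ A F), zero_mul]
    · rintro F hF ⟨⟨h1, h2⟩, h3⟩
      exact h ⟨F, hF, h1, h2, h3⟩
    · rintro F hF ⟨⟨h1, h2⟩, h3, -⟩
      exact h ⟨F, hF, h1, h2, h3⟩

theorem MK_part (p : E → ℝ) (S : Finset E) (K : Finset E → Finset E) (X : Finset E → Prop) :
    Pr p S X = ∑ K0 ∈ S.powerset, ∑ T ∈ S.powerset,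
      Pr p S (fun F => (K F ∩ S = K0 ∧ F ∩ K0 = T) ∧ X F) := by
  unfold Pr
  simp only [← Ex_sum]
  apply Ex_congr
  intro F hF
  rw [Finset.sum_eq_single (K F ∩ S), Finset.sum_eq_single (F ∩ (K F ∩ S))]
  · exact ind_congr ⟨fun h => ⟨⟨rfl, rfl⟩, h⟩, fun h => h.2⟩
  · intro T _ hT
    exact ind_not_of fun h => hT h.1.2.symm
  · intro h
    exact absurd (Finset.mem_powerset.2 (Finset.inter_subset_left.trans hF)) h
  · intro K0 _ hK0
    exact Finset.sum_eq_zero fun T _ => ind_not_of fun h => hK0 h.1.1.symm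
  · intro h
    exact absurd (Finset.mem_powerset.2 Finset.inter_subset_right) h

theorem markov_le {p : E → ℝ} (hp : Ok p) {S : Finset E} {K : Finset E → Finset E}
    (hK : Stop S K) {A B : Finset E → Prop}
    (hA : ∀ F F', F ⊆ S → F' ⊆ S → F ∩ K F = F' ∩ K F → A F → A F')
    (hB : ∀ F G : Finset E, F ⊆ G → B F → B G) :
    Pr p S (fun F => A F ∧ B (F \ K F)) ≤ Pr p S A * Pr p S B := by
  rw [MK_part p S K (fun F => A F ∧ B (F \ K F)), MK_part p S K A, Finset.sum_mul]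
  refine Finset.sum_le_sum fun K0 _ => ?_
  rw [Finset.sum_mul]
  refine Finset.sum_le_sum fun T _ => ?_
  rw [MK_cell hK hA K0 T]
  exact mul_le_mul_of_nonneg_left
    (Pr_mono hp fun F _ h => hB _ _ Finset.sdiff_subset h) (Pr_nonneg hp _ _)

theorem markov_ge {p : E → ℝ} (hp : Ok p) {S : Finset E} {K : Finset E → Finset E}
    (hK : Stop S K) {A B : Finset E → Prop}
    (hA : ∀ F F', F ⊆ S → F' ⊆ S → F ∩ K F = F' ∩ K F → A F → A F')
    (hB : ∀ F G : Finset E, F ⊆ G → B G → B F) :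
    Pr p S A * Pr p S B ≤ Pr p S (fun F => A F ∧ B (F \ K F)) := by
  rw [MK_part p S K (fun F => A F ∧ B (F \ K F)), MK_part p S K A, Finset.sum_mul]
  refine Finset.sum_le_sum fun K0 _ => ?_
  rw [Finset.sum_mul]
  refine Finset.sum_le_sum fun T _ => ?_
  rw [MK_cell hK hA K0 T]
  exact mul_le_mul_of_nonneg_left
    (Pr_mono hp fun F _ h => hB _ _ Finset.sdiff_subset h) (Pr_nonneg hp _ _)

end Markov

end H12S
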