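import Pool.Agent.H12R2.Sep.Defs2

/-! # Task NR: the sum over the near pairs -/

namespace H12S

open H974 Finset

/-- Statement of `grid_sum`. -/
def GridSumStmt : Prop := ∀ (κ : ℝ) (_hκ : 0 < κ) (t : ℕ) (_ht : 1 ≤ t), ∃ C : ℝ, 0 < C ∧
    ∀ (q : ℝ) (n : ℕ),
    Win q κ n → ∀ (S : Finset Edg) (I J : Set Vtx) (O : Set Edg) (s : ℕ) (T : Finset (ℤ × ℤ)),
      1 ≤ s → 2 * t * s ≤ n → (∀ k ∈ T, blk (s * k.1, s * k.2) (3 * (t * s)) ⊆ S) →
      (∀ k ∈ T, Disjoint O ↑(blk (s * k.1, s * k.2) (3 * (t * s)))) →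
      (∀ k ∈ T, ∀ v ∈ I ∪ J,
        ¬ (|v.1 - s * k.1| < (3 * (t * s) : ℕ) ∧ |v.2 - s * k.2| < (3 * (t * s) : ℕ))) →
      ∑ k ∈ T, PQ q S (fun F => BPv I J (blk (s * k.1, s * k.2) (t * s)) (↑F ∪ O)) ≤
        C * Real.sqrt T.card

/-- Statement of `flip_blk`. -/
def FlipBlkStmt : Prop := ∀ {I J : Set Vtx} {e e' : Edg} {G : Set Edg} (_hne : e ≠ e')
    {b : Finset Edg} (_he : e ∈ b) (_he' : e' ∈ b) (_h : Flip I J e e' G), BPv I J b G

/-- Statement of `two_in_blk`. -/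
def TwoInBlkStmt : Prop := ∀ {q : ℝ} (_h0 : 0 ≤ q) (_h1 : q ≤ 1) {S : Finset Edg} {I J : Set Vtx}
    {c : ℤ × ℤ} {s k : ℕ} (_hk : 1 ≤ k) (_hS : blk c s ⊆ S)
    (_hIJ : ∀ v ∈ I ∪ J, ¬ (|v.1 - c.1| < s ∧ |v.2 - c.2| < s)) {e e' : Edg}
    (_h2 : |e.1 - c.1| + k ≤ s) (_h3 : |e.2.1 - c.2| + k ≤ s)
    (_h4 : |e'.1 - c.1| + k ≤ s) (_h5 : |e'.2.1 - c.2| + k ≤ s)
    (_hd : 2 * (k:ℤ) + 2 ≤ edist e e'),
    PQ q S (fun F => Flip I J e e' ↑F) ≤
      a4 q k ^ 2 * PQ q S (fun F => BPv I J (blk c s) ↑F)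

/-- The cell of an edge. -/
def NRk (s : ℕ) (e : Edg) : ℤ × ℤ := (e.1 / s, e.2.1 / s)

/-- The index set of the blocks. -/
noncomputable def NRT (m s : ℕ) : Finset (ℤ × ℤ) :=
  Icc (-(((m / 4) / s : ℕ) : ℤ) - 1) (((m / 4) / s : ℕ) + 1) ×ˢ
    Icc (-(((m / 4) / s : ℕ) : ℤ) - 1) (((m / 4) / s : ℕ) + 1)

theorem NR_box_bd {n : ℕ} {e : Edg} (he : e ∈ boxE n) :
    -(n:ℤ) ≤ e.1 ∧ e.1 ≤ n ∧ -(n:ℤ) ≤ e.2.1 ∧ e.2.1 ≤ n := by
  obtain ⟨x, y, _ | _⟩ := e
  · unfold boxE at he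
    rw [mem_RE_false] at he
    simp only
    omega
  · unfold boxE at he
    rw [mem_RE_true] at he
    simp only
    omega

theorem NR_fib (s : ℕ) (hs : 1 ≤ s) (U : Finset Edg) (k : ℤ × ℤ) :
    (U.filter (fun e => NRk s e = k)).card ≤ 2 * s ^ 2 := by
  have hs' : (0:ℤ) < s := by exact_mod_cast hs
  have hsub : U.filter (fun e => NRk s e = k) ⊆
      Ico (s * k.1) (s * k.1 + s) ×ˢ (Ico (s * k.2) (s * k.2 + s) ×ˢ univ) := by
    intro e he
    rw [mem_filter] at he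
    obtain ⟨_, he⟩ := he
    have h1 : e.1 / s = k.1 := congrArg Prod.fst he
    have h2 : e.2.1 / s = k.2 := congrArg Prod.snd he
    rw [Int.ediv_eq_iff_of_pos hs'] at h1 h2
    rw [mem_product, mem_product, mem_Ico, mem_Ico]
    simp only [mem_univ, and_true]
    refine ⟨⟨?_, ?_⟩, ?_, ?_⟩ <;> nlinarith
  refine (card_le_card hsub).trans ?_
  rw [card_product, card_product, Int.card_Ico, Int.card_Ico]
  simp
  nlinarith

theorem NR_near (w : ℕ) (U : Finset Edg) (e : Edg) :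
    (U.filter (fun e' => edist e e' ≤ w)).card ≤ 2 * (2 * w + 1) ^ 2 := by
  have hsub : U.filter (fun e' => edist e e' ≤ w) ⊆
      Icc (e.1 - w) (e.1 + w) ×ˢ (Icc (e.2.1 - w) (e.2.1 + w) ×ˢ univ) := by
    intro e' he
    rw [mem_filter] at he
    obtain ⟨_, he⟩ := he
    unfold edist at he
    have h1 := (le_max_left _ _).trans he
    have h2 := (le_max_right _ _).trans he
    rw [abs_le] at h1 h2
    rw [mem_product, mem_product, mem_Icc, mem_Icc]
    simp only [mem_univ, and_true]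
    omega
  refine (card_le_card hsub).trans ?_
  rw [card_product, card_product, Int.card_Icc, Int.card_Icc]
  have e1 : (e.1 + (w:ℤ) + 1 - (e.1 - w)).toNat = 2 * w + 1 := by omega
  have e2 : (e.2.1 + (w:ℤ) + 1 - (e.2.1 - w)).toNat = 2 * w + 1 := by omega
  rw [e1, e2]
  simp
  nlinarith

theorem NR_mem {m s : ℕ} (hs : 1 ≤ s) {e : Edg} (he : e ∈ boxE (m / 4)) : NRk s e ∈ NRT m s := by
  have hs' : (0:ℤ) < s := by exact_mod_cast hs
  obtain ⟨h1, h2, h3, h4⟩ := NR_box_bd he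
  have key : ∀ x : ℤ, -((m / 4 : ℕ) : ℤ) ≤ x → x ≤ ((m / 4 : ℕ) : ℤ) →
      -(((m / 4) / s : ℕ) : ℤ) - 1 ≤ x / s ∧ x / s ≤ (((m / 4) / s : ℕ) : ℤ) + 1 := by
    intro x hx1 hx2
    have a1 : x / (s:ℤ) ≤ ((m / 4 : ℕ) : ℤ) / s := Int.ediv_le_ediv hs' hx2
    have a2 : ((m / 4 : ℕ) : ℤ) / s = (((m / 4) / s : ℕ) : ℤ) := by push_cast; rfl
    refine ⟨?_, by omega⟩
    rw [Int.le_ediv_iff_mul_le hs']
    have a3 : ((m / 4 : ℕ) : ℤ) < (((m / 4) / s : ℕ) : ℤ) * s + s := by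
      have := Nat.lt_div_mul_add (a := m / 4) (b := s) (by omega)
      exact_mod_cast this
    nlinarith
  unfold NRT NRk
  rw [mem_product, mem_Icc, mem_Icc]
  exact ⟨key _ h1 h2, key _ h3 h4⟩

theorem NR_sqrt (m s : ℕ) : Real.sqrt (NRT m s).card = 2 * ((m / 4) / s : ℕ) + 3 := by
  have : (NRT m s).card = (2 * ((m / 4) / s) + 3) ^ 2 := by
    unfold NRT
    rw [card_product, Int.card_Icc]
    have e1 : ((((m / 4) / s : ℕ) : ℤ) + 1 + 1 - (-(((m / 4) / s : ℕ) : ℤ) - 1)).toNat =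
        2 * ((m / 4) / s) + 3 := by omega
    rw [e1, sq]
  rw [this]
  push_cast
  rw [Real.sqrt_sq (by positivity)]

/-- One scale. -/
theorem NR_scale {q : ℝ} (h0 : 0 ≤ q) (h1 : q ≤ 1) {S : Finset Edg} {I J : Set Vtx} {m s w : ℕ}
    (hs : 1 ≤ s) (R : Edg → Edg → Prop) [∀ e, DecidablePred (R e)] {β G : ℝ} (hβ : 0 ≤ β)
    (hR : ∀ e e', R e e' → edist e e' ≤ w)
    (hP : ∀ e ∈ boxE (m / 4), ∀ e' ∈ S, R e e' → PQ q S (fun F => Flip I J e e' ↑F) ≤
      β * PQ q S (fun F => BPv I J (blk (s * (NRk s e).1, s * (NRk s e).2) (10 * s)) ↑F))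
    (hG : ∑ k ∈ NRT m s, PQ q S (fun F => BPv I J (blk (s * k.1, s * k.2) (10 * s)) ↑F) ≤ G) :
    ∑ e ∈ boxE (m / 4), ∑ e' ∈ S.filter (R e), PQ q S (fun F => Flip I J e e' ↑F) ≤
      β * (2 * (2 * w + 1) ^ 2) * (2 * s ^ 2) * G := by
  classical
  set g : ℤ × ℤ → ℝ := fun k =>
    PQ q S (fun F => BPv I J (blk (s * k.1, s * k.2) (10 * s)) ↑F) with hg
  have hg0 : ∀ k, 0 ≤ g k := fun k => Pr_nonneg (okq h0 h1) _ _
  have step1 : ∀ e ∈ boxE (m / 4), ∑ e' ∈ S.filter (R e), PQ q S (fun F => Flip I J e e' ↑F) ≤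
      β * (2 * (2 * w + 1) ^ 2) * g (NRk s e) := by
    intro e he
    have hcard : ((S.filter (R e)).card : ℝ) ≤ 2 * (2 * w + 1) ^ 2 := by
      have h2 : (S.filter (R e)).card ≤ 2 * (2 * w + 1) ^ 2 := by
        refine le_trans (card_le_card ?_) (NR_near w S e)
        intro e' he'
        rw [mem_filter] at he' ⊢
        exact ⟨he'.1, hR e e' he'.2⟩
      exact_mod_cast h2
    calc ∑ e' ∈ S.filter (R e), PQ q S (fun F => Flip I J e e' ↑F)
        ≤ ∑ e' ∈ S.filter (R e), β * g (NRk s e) := by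
          refine sum_le_sum fun e' he' => ?_
          rw [mem_filter] at he'
          exact hP e he e' he'.1 he'.2
      _ = (S.filter (R e)).card * (β * g (NRk s e)) := by rw [sum_const, nsmul_eq_mul]
      _ ≤ (2 * (2 * w + 1) ^ 2) * (β * g (NRk s e)) :=
          mul_le_mul_of_nonneg_right hcard (mul_nonneg hβ (hg0 _))
      _ = _ := by ring
  refine (sum_le_sum step1).trans ?_
  rw [← mul_sum]
  have step2 : ∑ e ∈ boxE (m / 4), g (NRk s e) ≤ (2 * s ^ 2) * G := by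
    have e1 : ∑ e ∈ boxE (m / 4), g (NRk s e) =
        ∑ k ∈ NRT m s, ∑ e ∈ (boxE (m / 4)).filter (fun e => NRk s e = k), g (NRk s e) :=
      (sum_fiberwise_of_maps_to (fun e he => NR_mem hs he) _).symm
    rw [e1]
    calc ∑ k ∈ NRT m s, ∑ e ∈ (boxE (m / 4)).filter (fun e => NRk s e = k), g (NRk s e)
        ≤ ∑ k ∈ NRT m s, (2 * s ^ 2) * g k := by
          refine sum_le_sum fun k _ => ?_
          have e2 : ∑ e ∈ (boxE (m / 4)).filter (fun e => NRk s e = k), g (NRk s e) =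
              ((boxE (m / 4)).filter (fun e => NRk s e = k)).card * g k := by
            rw [← nsmul_eq_mul, ← sum_const]
            refine sum_congr rfl fun e he => ?_
            rw [(mem_filter.1 he).2]
          rw [e2]
          refine mul_le_mul_of_nonneg_right ?_ (hg0 k)
          exact_mod_cast NR_fib s hs _ k
      _ = (2 * s ^ 2) * ∑ k ∈ NRT m s, g k := by rw [mul_sum]
      _ ≤ (2 * s ^ 2) * G := mul_le_mul_of_nonneg_left hG (by positivity)
  calc β * (2 * (2 * w + 1) ^ 2) * ∑ e ∈ boxE (m / 4), g (NRk s e)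
      ≤ β * (2 * (2 * w + 1) ^ 2) * ((2 * s ^ 2) * G) :=
        mul_le_mul_of_nonneg_left step2 (by positivity)
    _ = _ := by ring

theorem NR_geom {r : ℝ} (hr : 4 / 3 ≤ r) (N : ℕ) : ∑ i ∈ range (N + 1), r ^ i ≤ 4 * r ^ N := by
  induction N with
  | zero => simp
  | succ N ih =>
    rw [sum_range_succ]
    have : 0 < r ^ N := by positivity
    rw [pow_succ]
    nlinarith

/-- Trivial bound. -/
theorem NR_small {q : ℝ} (h0 : 0 ≤ q) (h1 : q ≤ 1) {m : ℕ} (hm : m < 1000) (S : Finset Edg)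
    (I J : Set Vtx) :
    ∑ e ∈ boxE (m / 4), ∑ e' ∈ S.filter (fun e' => e ≠ e' ∧ edist e e' ≤ (m / 64 : ℕ)),
        PQ q S (fun F => Flip I J e e' ↑F) ≤ 1000000000 := by
  have c1 : ∀ e ∈ boxE (m / 4),
      ∑ e' ∈ S.filter (fun e' => e ≠ e' ∧ edist e e' ≤ (m / 64 : ℕ)),
        PQ q S (fun F => Flip I J e e' ↑F) ≤ 2000 := by
    intro e _
    have hc : ((S.filter (fun e' => e ≠ e' ∧ edist e e' ≤ (m / 64 : ℕ))).card : ℝ) ≤ 2000 := by
      have h2 : (S.filter (fun e' => e ≠ e' ∧ edist e e' ≤ (m / 64 : ℕ))).card ≤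
          2 * (2 * (m / 64) + 1) ^ 2 := by
        refine le_trans (card_le_card ?_) (NR_near (m / 64) S e)
        intro e' he'
        rw [mem_filter] at he' ⊢
        exact ⟨he'.1, he'.2.2⟩
      have h3 : m / 64 ≤ 15 := by omega
      have h4 : 2 * (2 * (m / 64) + 1) ^ 2 ≤ 2000 := by
        generalize m / 64 = u at h3
        calc 2 * (2 * u + 1) ^ 2 ≤ 2 * (2 * 15 + 1) ^ 2 := by gcongr
          _ ≤ 2000 := by norm_num
      exact_mod_cast h2.trans h4
    calc ∑ e' ∈ S.filter (fun e' => e ≠ e' ∧ edist e e' ≤ (m / 64 : ℕ)),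
          PQ q S (fun F => Flip I J e e' ↑F)
        ≤ ∑ e' ∈ S.filter (fun e' => e ≠ e' ∧ edist e e' ≤ (m / 64 : ℕ)), (1:ℝ) :=
          sum_le_sum fun e' _ => Pr_le_one (okq h0 h1) _ _
      _ ≤ 2000 := by rw [sum_const, nsmul_eq_mul, mul_one]; exact hc
  refine (sum_le_sum c1).trans ?_
  rw [sum_const, nsmul_eq_mul]
  have c2 : (boxE (m / 4)).card ≤ 2 * (2 * (m / 4) + 1) ^ 2 := by
    refine le_trans (card_le_card ?_) (NR_near (m / 4) (boxE (m / 4)) (0, 0, true))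
    intro e he
    rw [mem_filter]
    refine ⟨he, ?_⟩
    have := NR_box_bd he
    unfold edist
    simp only
    rw [max_le_iff, abs_le, abs_le]
    omega
  have c3 : m / 4 ≤ 249 := by omega
  have c4 : 2 * (2 * (m / 4) + 1) ^ 2 ≤ 498002 := by
    generalize m / 4 = u at c3
    calc 2 * (2 * u + 1) ^ 2 ≤ 2 * (2 * 249 + 1) ^ 2 := by gcongr
      _ ≤ 498002 := by norm_num
  have c5 : ((boxE (m / 4)).card : ℝ) ≤ 498002 := by exact_mod_cast c2.trans c4
  nlinarith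

theorem near_sum_of (GS : GridSumStmt) (FB : FlipBlkStmt) (TB : TwoInBlkStmt)
    (κ : ℝ) (hκ : 0 < κ) : ∃ C : ℝ, 0 < C ∧ ∀ (q : ℝ) (n : ℕ),
    Win q κ n → ∀ (A ε : ℝ), 1 ≤ A → 0 < ε → ε ≤ 1 / 8 → A4le q A ε n → ∀ (m : ℕ), 1 ≤ m →
      m ≤ n → ∀ (S : Finset Edg), boxE (m / 2) ⊆ S → ∀ (I J : Set Vtx),
      (∀ v ∈ I ∪ J, ¬ (|v.1| < (m / 2 : ℕ) ∧ |v.2| < (m / 2 : ℕ))) →
      ∑ e ∈ boxE (m / 4), ∑ e' ∈ S.filter (fun e' => e ≠ e' ∧ edist e e' ≤ (m / 64 : ℕ)),
        PQ q S (fun F => Flip I J e e' ↑F) ≤ C * A ^ 2 * (m:ℝ) ^ (3/2 + 2 * ε) := by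
  obtain ⟨C, hC, hGS⟩ := GS κ hκ 10 (by norm_num)
  refine ⟨1000000000 + 4820 * C, by positivity, ?_⟩
  intro q n hW A ε hA hε hε1 hA4 m hm hmn S hS I J hIJ
  have h0 : 0 ≤ q := by linarith [hW.lo]
  have h1 : q ≤ 1 := by linarith [hW.hi]
  have hmR : (1:ℝ) ≤ m := by exact_mod_cast hm
  have hm0 : (0:ℝ) < m := by linarith
  have hA2 : 1 ≤ A ^ 2 := one_le_pow₀ hA
  have hpw : (m:ℝ) ≤ (m:ℝ) ^ (3/2 + 2 * ε) := by
    conv_lhs => rw [← Real.rpow_one (m:ℝ)]
    exact Real.rpow_le_rpow_of_exponent_le hmR (by linarith)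
  have hpw1 : (1:ℝ) ≤ (m:ℝ) ^ (3/2 + 2 * ε) := hmR.trans hpw
  have hAm : (m:ℝ) ≤ A ^ 2 * (m:ℝ) ^ (3/2 + 2 * ε) := by
    calc (m:ℝ) = 1 * m := by ring
      _ ≤ A ^ 2 * (m:ℝ) ^ (3/2 + 2 * ε) := mul_le_mul hA2 hpw hm0.le (by positivity)
  rcases lt_or_ge m 1000 with hsm | hlg
  · refine (NR_small h0 h1 hsm S I J).trans ?_
    have : (1:ℝ) ≤ A ^ 2 * (m:ℝ) ^ (3/2 + 2 * ε) := hmR.trans hAm
    rw [mul_assoc]
    nlinarith [mul_pos hC (lt_of_lt_of_le one_pos this)]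
  -- the blocks
  have hblk : ∀ s : ℕ, 1 ≤ s → 256 * s ≤ m ∨ s = 1 → ∀ k ∈ NRT m s, ∀ x y : ℤ,
      |x - s * k.1| ≤ 30 * s → |y - s * k.2| ≤ 30 * s →
      -((m / 2 : ℕ) : ℤ) < x ∧ x < (m / 2 : ℕ) ∧ -((m / 2 : ℕ) : ℤ) < y ∧ y < (m / 2 : ℕ) := by
    intro s hs hsm k hk x y hx hy
    unfold NRT at hk
    rw [mem_product, mem_Icc, mem_Icc] at hk
    rw [abs_le] at hx hy
    have hb : (((m / 4) / s : ℕ) : ℤ) * s ≤ (m / 4 : ℕ) := by
      exact_mod_cast Nat.div_mul_le_self (m / 4) s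
    have hs' : (0:ℤ) < s := by exact_mod_cast hs
    have k1 : (s:ℤ) * k.1 ≤ (m / 4 : ℕ) + s := by nlinarith [hk.1.2]
    have k2 : -((m / 4 : ℕ) : ℤ) - s ≤ (s:ℤ) * k.1 := by nlinarith [hk.1.1]
    have k3 : (s:ℤ) * k.2 ≤ (m / 4 : ℕ) + s := by nlinarith [hk.2.2]
    have k4 : -((m / 4 : ℕ) : ℤ) - s ≤ (s:ℤ) * k.2 := by nlinarith [hk.2.1]
    have h8 : 256 * s ≤ m ∨ s = 1 := hsm
    have h9 : m / 4 + 31 * s < m / 2 := by
      rcases h8 with h8 | h8
      · omega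
      · subst h8; omega
    generalize (s:ℤ) * k.1 = u at *
    generalize (s:ℤ) * k.2 = v at *
    omega
  -- grid sum at scale s
  have hG : ∀ s : ℕ, 1 ≤ s → 256 * s ≤ m ∨ s = 1 →
      ∑ k ∈ NRT m s, PQ q S (fun F => BPv I J (blk (s * k.1, s * k.2) (10 * s)) ↑F) ≤
        C * (m / s) := by
    intro s hs hsm
    have hs' : (0:ℝ) < s := by exact_mod_cast hs
    have h2 := hGS q n hW S I J ∅ s (NRT m s) hs (by rcases hsm with h | h <;> omega) (by
      intro k hk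
      refine Finset.Subset.trans ?_ hS
      intro e he
      have h3 := BS_adj_box he
      unfold inR src at h3
      simp only at h3
      have h4 := hblk s hs hsm k hk (src e).1 (src e).2 (by
        rw [abs_le]; unfold src; push_cast at h3; omega) (by
        rw [abs_le]; unfold src; push_cast at h3; omega)
      obtain ⟨x, y, _ | _⟩ := e
      · unfold boxE
        rw [mem_RE_false]
        simp only [src_mk] at h4
        omega
      · unfold boxE
        rw [mem_RE_true]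
        simp only [src_mk] at h4
        omega) (by
      intro k _
      exact Set.empty_disjoint _) (by
      intro k hk v hv ⟨h3, h4⟩
      push_cast at h3 h4
      have h5 := hblk s hs hsm k hk v.1 v.2 (by linarith) (by linarith)
      apply hIJ v hv
      rw [abs_lt, abs_lt]
      omega)
    simp only [Set.union_empty] at h2
    refine h2.trans ?_
    refine mul_le_mul_of_nonneg_left ?_ hC.le
    rw [NR_sqrt]
    rw [le_div_iff₀ hs']
    have h6 : (((m / 4) / s : ℕ) : ℝ) * s ≤ (m / 4 : ℕ) := by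
      exact_mod_cast Nat.div_mul_le_self (m / 4) s
    have h7 : 2 * (m / 4) + 3 * s ≤ m := by rcases hsm with h | h <;> omega
    have h8 : 2 * ((m / 4 : ℕ) : ℝ) + 3 * s ≤ m := by exact_mod_cast h7
    nlinarith
  -- distance to the grid
  have hnr : ∀ s : ℕ, 1 ≤ s → ∀ x : ℤ, 0 ≤ x - s * (x / s) ∧ x - s * (x / s) < s := by
    intro s hs x
    have hs' : (0:ℤ) < s := by exact_mod_cast hs
    have e1 := Int.emod_nonneg x hs'.ne'
    have e2 := Int.emod_lt_of_pos x hs'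
    have e3 := Int.emod_add_mul_ediv x s
    constructor <;> linarith
  -- the very near pairs
  have near0 : ∑ e ∈ boxE (m / 4), ∑ e' ∈ S.filter (fun e' => e ≠ e' ∧ edist e e' ≤ 3),
        PQ q S (fun F => Flip I J e e' ↑F) ≤ 196 * C * m := by
    have h2 := NR_scale (w := 3) h0 h1 (S := S) (I := I) (J := J) (m := m) (s := 1) le_rfl
      (fun e e' => e ≠ e' ∧ edist e e' ≤ 3) (β := 1) zero_le_one
      (fun e e' h => by exact_mod_cast h.2) (by
        intro e he e' _ hee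
        rw [one_mul]
        refine Pr_mono (okq h0 h1) fun F _ hF => ?_
        refine FB hee.1 ?_ ?_ hF
        · obtain ⟨x, y, _ | _⟩ := e
          · unfold blk NRk; rw [mem_RE_false]; simp only [Nat.cast_one, Int.ediv_one]
            push_cast; omega
          · unfold blk NRk; rw [mem_RE_true]; simp only [Nat.cast_one, Int.ediv_one]
            push_cast; omega
        · have h3 := hee.2
          unfold edist at h3
          have h4 := (le_max_left _ _).trans h3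
          have h5 := (le_max_right _ _).trans h3
          rw [abs_le] at h4 h5
          obtain ⟨x', y', _ | _⟩ := e'
          · unfold blk NRk; rw [mem_RE_false]; simp only [Nat.cast_one, Int.ediv_one] at h4 h5 ⊢
            push_cast; omega
          · unfold blk NRk; rw [mem_RE_true]; simp only [Nat.cast_one, Int.ediv_one] at h4 h5 ⊢
            push_cast; omega) (hG 1 le_rfl (Or.inr rfl))
    refine h2.trans (le_of_eq ?_)
    push_cast
    ring
  -- the dyadic scales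
  have dy : ∀ i : ℕ, 256 * 2 ^ i ≤ m →
      ∑ e ∈ boxE (m / 4), ∑ e' ∈ S.filter (fun e' => 4 * 2 ^ i ≤ edist e e' ∧
        edist e e' < 8 * 2 ^ i), PQ q S (fun F => Flip I J e e' ↑F) ≤
        1156 * C * A ^ 2 * m * ((2:ℝ) ^ (1/2 + 2 * ε)) ^ i := by
    intro i hi
    set s : ℕ := 2 ^ i with hs
    have hs1 : 1 ≤ s := Nat.one_le_two_pow
    have hsR : (1:ℝ) ≤ s := by exact_mod_cast hs1
    have hs0 : (0:ℝ) < s := by linarith
    have hsZ : (2:ℤ) ^ i = s := by rw [hs]; push_cast; rfl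
    rw [hsZ]
    have h2 := NR_scale (w := 8 * s) h0 h1 (S := S) (I := I) (J := J) (m := m) (s := s) hs1
      (fun e e' => 4 * (s:ℤ) ≤ edist e e' ∧ edist e e' < 8 * s) (β := a4 q s ^ 2) (sq_nonneg _)
      (fun e e' h => by push_cast; exact h.2.le) (by
        intro e he e' _ hee
        have hk := NR_mem hs1 he
        have g1 := hnr s hs1 e.1
        have g2 := hnr s hs1 e.2.1
        have h3 := hee.2
        unfold edist at h3
        have h4 := (le_max_left _ _).trans_lt h3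
        have h5 := (le_max_right _ _).trans_lt h3
        rw [abs_lt] at h4 h5
        have hd := hee.1
        refine TB h0 h1 (s := 10 * s) (k := s) hs1 ?_ ?_ ?_ ?_ ?_ ?_ (by
          have : (1:ℤ) ≤ s := by exact_mod_cast hs1
          omega)
        · refine Finset.Subset.trans ?_ hS
          intro f hf
          have h3 := BS_adj_box hf
          unfold inR src at h3
          simp only at h3
          have h4 := hblk s hs1 (Or.inl hi) _ hk (src f).1 (src f).2 (by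
            rw [abs_le]; unfold src; push_cast at h3; simp only; omega) (by
            rw [abs_le]; unfold src; push_cast at h3; simp only; omega)
          obtain ⟨x, y, _ | _⟩ := f
          · unfold boxE
            rw [mem_RE_false]
            simp only [src_mk] at h4
            omega
          · unfold boxE
            rw [mem_RE_true]
            simp only [src_mk] at h4
            omega
        · intro v hv ⟨h3, h4⟩
          push_cast at h3 h4
          have : (1:ℤ) ≤ s := by exact_mod_cast hs1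
          have h5 := hblk s hs1 (Or.inl hi) _ hk v.1 v.2 (by linarith) (by linarith)
          apply hIJ v hv
          rw [abs_lt, abs_lt]
          omega
        · show |e.1 - s * (e.1 / s)| + s ≤ ((10 * s : ℕ) : ℤ)
          rw [abs_of_nonneg g1.1]
          push_cast
          linarith
        · show |e.2.1 - s * (e.2.1 / s)| + s ≤ ((10 * s : ℕ) : ℤ)
          rw [abs_of_nonneg g2.1]
          push_cast
          linarith
        · show |e'.1 - s * (e.1 / s)| + s ≤ ((10 * s : ℕ) : ℤ)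
          have : |e'.1 - s * (e.1 / s)| ≤ 9 * s := by rw [abs_le]; constructor <;> linarith
          push_cast
          linarith
        · show |e'.2.1 - s * (e.2.1 / s)| + s ≤ ((10 * s : ℕ) : ℤ)
          have : |e'.2.1 - s * (e.2.1 / s)| ≤ 9 * s := by rw [abs_le]; constructor <;> linarith
          push_cast
          linarith) (hG s hs1 (Or.inl hi))
    refine h2.trans ?_
    have a1 : a4 q s ≤ A * (s:ℝ) ^ (-(5/4 : ℝ) + ε) := by
      refine (hA4 s (by omega)).trans ?_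
      refine mul_le_mul_of_nonneg_left ?_ (by linarith)
      exact Real.rpow_le_rpow_of_nonpos hs0 (by linarith) (by linarith)
    have a0 : 0 ≤ a4 q s :=
      add_nonneg (Pr_nonneg (okq h0 h1) _ _) (Pr_nonneg (okq h0 h1) _ _)
    have a2 : a4 q s ^ 2 ≤ A ^ 2 * ((s:ℝ) ^ (-(5/4 : ℝ) + ε)) ^ 2 := by
      rw [← mul_pow]
      exact pow_le_pow_left₀ a0 a1 2
    have a3 : ((s:ℝ) ^ (-(5/4 : ℝ) + ε)) ^ 2 * s ^ 3 = ((2:ℝ) ^ (1/2 + 2 * ε)) ^ i := by
      have e1 : ((2:ℝ) ^ (1/2 + 2 * ε)) ^ i = (s:ℝ) ^ (1/2 + 2 * ε) := by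
        rw [hs]
        push_cast
        rw [← Real.rpow_natCast, ← Real.rpow_natCast, ← Real.rpow_mul (by norm_num),
          ← Real.rpow_mul (by norm_num), mul_comm]
      rw [e1, ← Real.rpow_natCast ((s:ℝ) ^ (-(5/4 : ℝ) + ε)) 2, ← Real.rpow_mul hs0.le,
        ← Real.rpow_natCast (s:ℝ) 3, ← Real.rpow_add hs0]
      congr 1
      push_cast
      ring
    have a4' : (2 * (2 * ((8 * s : ℕ) : ℝ) + 1) ^ 2) ≤ 578 * s ^ 2 := by
      push_cast
      nlinarith
    have hmC : 0 ≤ C * (m / s) := by positivity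
    calc a4 q s ^ 2 * (2 * (2 * ((8 * s : ℕ) : ℝ) + 1) ^ 2) * (2 * s ^ 2) * (C * (m / s))
        ≤ (A ^ 2 * ((s:ℝ) ^ (-(5/4 : ℝ) + ε)) ^ 2) * (578 * s ^ 2) * (2 * s ^ 2) *
            (C * (m / s)) := by
          refine mul_le_mul_of_nonneg_right ?_ hmC
          refine mul_le_mul_of_nonneg_right ?_ (by positivity)
          exact mul_le_mul a2 a4' (by positivity) (by positivity)
      _ = 1156 * C * A ^ 2 * m * (((s:ℝ) ^ (-(5/4 : ℝ) + ε)) ^ 2 * s ^ 3) := by
          field_simp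
          ring
      _ = _ := by rw [a3]
  -- sum over the scales
  set N : ℕ := Nat.log 2 (m / 256) with hN
  have hNm : 256 * 2 ^ N ≤ m := by
    have h2 := Nat.pow_log_le_self 2 (x := m / 256) (by omega)
    rw [← hN] at h2
    omega
  have hsplit : ∀ e ∈ boxE (m / 4),
      ∑ e' ∈ S.filter (fun e' => e ≠ e' ∧ edist e e' ≤ (m / 64 : ℕ)),
        PQ q S (fun F => Flip I J e e' ↑F) ≤
      ∑ e' ∈ S.filter (fun e' => e ≠ e' ∧ edist e e' ≤ 3), PQ q S (fun F => Flip I J e e' ↑F) +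
      ∑ i ∈ range (N + 1), ∑ e' ∈ S.filter (fun e' => 4 * 2 ^ i ≤ edist e e' ∧
        edist e e' < 8 * 2 ^ i), PQ q S (fun F => Flip I J e e' ↑F) := by
    intro e _
    simp only [sum_filter]
    rw [sum_comm, ← sum_add_distrib]
    refine sum_le_sum fun e' _ => ?_
    have hp : 0 ≤ PQ q S (fun F => Flip I J e e' ↑F) := Pr_nonneg (okq h0 h1) _ _
    have hnn : ∀ i ∈ range (N + 1), 0 ≤ (if 4 * 2 ^ i ≤ edist e e' ∧ edist e e' < 8 * 2 ^ i then
        PQ q S (fun F => Flip I J e e' ↑F) else 0) := by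
      intro i _
      split_ifs
      · exact hp
      · exact le_rfl
    by_cases hc : e ≠ e' ∧ edist e e' ≤ (m / 64 : ℕ)
    · rw [if_pos hc]
      by_cases h3 : edist e e' ≤ 3
      · rw [if_pos ⟨hc.1, h3⟩]
        exact le_add_of_nonneg_right (sum_nonneg hnn)
      · rw [if_neg (fun h => h3 h.2), zero_add]
        -- find the scale
        obtain ⟨d, hd⟩ : ∃ d : ℕ, edist e e' = d := ⟨(edist e e').toNat, by omega⟩
        have hd4 : 4 ≤ d := by omega
        have hdm : d ≤ m / 64 := by have := hc.2; omega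
        set i := Nat.log 2 (d / 4) with hi
        have i1 : 2 ^ i ≤ d / 4 := Nat.pow_log_le_self 2 (by omega)
        have i2 : d / 4 < 2 ^ (i + 1) := Nat.lt_pow_succ_log_self (by norm_num) _
        have i3 : i ≤ N := Nat.log_mono_right (by omega)
        have i4 : (4 * 2 ^ i ≤ edist e e' ∧ edist e e' < 8 * 2 ^ i) := by
          rw [hd]
          rw [pow_succ] at i2
          have j1 : 4 * 2 ^ i ≤ d := by omega
          have j2 : d < 8 * 2 ^ i := by omega
          constructor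
          · exact_mod_cast j1
          · exact_mod_cast j2
        have := single_le_sum hnn (mem_range.2 (by omega : i < N + 1))
        rw [if_pos i4] at this
        exact this
    · rw [if_neg hc]
      refine add_nonneg ?_ (sum_nonneg hnn)
      split_ifs
      · exact hp
      · exact le_rfl
  refine (sum_le_sum hsplit).trans ?_
  rw [sum_add_distrib, sum_comm]
  have hr : 4 / 3 ≤ (2:ℝ) ^ (1/2 + 2 * ε) := by
    have e1 : (2:ℝ) ^ (1/2 : ℝ) ≤ (2:ℝ) ^ (1/2 + 2 * ε) :=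
      Real.rpow_le_rpow_of_exponent_le (by norm_num) (by linarith)
    rw [← Real.sqrt_eq_rpow] at e1
    have e2 : 4 / 3 ≤ Real.sqrt 2 := by
      apply Real.le_sqrt_of_sq_le
      norm_num
    linarith
  have dsum : ∑ i ∈ range (N + 1), ∑ e ∈ boxE (m / 4),
      ∑ e' ∈ S.filter (fun e' => 4 * 2 ^ i ≤ edist e e' ∧ edist e e' < 8 * 2 ^ i),
        PQ q S (fun F => Flip I J e e' ↑F) ≤ 4624 * C * (A ^ 2 * (m:ℝ) ^ (3/2 + 2 * ε)) := by
    calc ∑ i ∈ range (N + 1), ∑ e ∈ boxE (m / 4),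
          ∑ e' ∈ S.filter (fun e' => 4 * 2 ^ i ≤ edist e e' ∧ edist e e' < 8 * 2 ^ i),
          PQ q S (fun F => Flip I J e e' ↑F)
        ≤ ∑ i ∈ range (N + 1), 1156 * C * A ^ 2 * m * ((2:ℝ) ^ (1/2 + 2 * ε)) ^ i := by
          refine sum_le_sum fun i hi => dy i ?_
          have := Nat.pow_le_pow_right (n := 2) (by norm_num) (Nat.lt_succ_iff.1 (mem_range.1 hi))
          omega
      _ = 1156 * C * A ^ 2 * m * ∑ i ∈ range (N + 1), ((2:ℝ) ^ (1/2 + 2 * ε)) ^ i := by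
          rw [mul_sum]
      _ ≤ 1156 * C * A ^ 2 * m * (4 * ((2:ℝ) ^ (1/2 + 2 * ε)) ^ N) :=
          mul_le_mul_of_nonneg_left (NR_geom hr N) (by positivity)
      _ ≤ 1156 * C * A ^ 2 * m * (4 * (m:ℝ) ^ (1/2 + 2 * ε)) := by
          refine mul_le_mul_of_nonneg_left ?_ (by positivity)
          refine mul_le_mul_of_nonneg_left ?_ (by norm_num)
          have e1 : ((2:ℝ) ^ (1/2 + 2 * ε)) ^ N = ((2:ℝ) ^ N) ^ (1/2 + 2 * ε) := by
            rw [← Real.rpow_natCast, ← Real.rpow_natCast, ← Real.rpow_mul (by norm_num),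
              ← Real.rpow_mul (by norm_num), mul_comm]
          rw [e1]
          refine Real.rpow_le_rpow (by positivity) ?_ (by linarith)
          have : 2 ^ N ≤ m := by omega
          exact_mod_cast this
      _ = 4624 * C * (A ^ 2 * (m:ℝ) ^ (3/2 + 2 * ε)) := by
          have e1 : (m:ℝ) ^ (3/2 + 2 * ε) = m * (m:ℝ) ^ (1/2 + 2 * ε) := by
            rw [show (3/2 + 2 * ε : ℝ) = 1 + (1/2 + 2 * ε) by ring, Real.rpow_add hm0,
              Real.rpow_one]
          rw [e1]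
          ring
  have fin1 : 196 * C * m ≤ 196 * C * (A ^ 2 * (m:ℝ) ^ (3/2 + 2 * ε)) :=
    mul_le_mul_of_nonneg_left hAm (by positivity)
  have fin2 : 0 ≤ (A ^ 2 * (m:ℝ) ^ (3/2 + 2 * ε)) := by positivity
  rw [mul_assoc]
  have : (1000000000 + 4820 * C) * (A ^ 2 * (m:ℝ) ^ (3/2 + 2 * ε)) =
      1000000000 * (A ^ 2 * (m:ℝ) ^ (3/2 + 2 * ε)) + 196 * C * (A ^ 2 * (m:ℝ) ^ (3/2 + 2 * ε)) +
      4624 * C * (A ^ 2 * (m:ℝ) ^ (3/2 + 2 * ε)) := by ring
  rw [this]
  linarith [near0, dsum]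

end H12S
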