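import Pool.Agent.H12R2.Sep.Defs4
import Pool.Agent.H12R2.Sep.Key3

/-! PG2: assembly of the plus event from the three steps (with the three steps and the existence
of corridors as hypotheses; the closed form is in `PlusGlueC`). -/

namespace H12S

open H974 Finset

def CorS : Prop := ∀ (L M2 B W : ℕ), 2 ≤ L → 64 ≤ M2 → B = 4 * L * M2 →
    W = M2 → ∀ (σ σ' : Bool) (k k' : ℤ), |2 * k| ≤ L * M2 + 1 → |2 * k'| ≤ L * M2 + 1 →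
    (σ = σ' → 4 ≤ |k - k'|) →
    ∃ Q1 Q3 : Finset (ℤ × ℤ), SepQ Q1 Q3 ∧
      ((Cor L M2 B W σ k false Q1 ∧ Cor L M2 B W σ' k' true Q3) ∨
        (Cor L M2 B W σ' k' false Q1 ∧ Cor L M2 B W σ k true Q3))

def Step1S : Prop := ∀ (κ : ℝ), 0 < κ → ∀ (L M1 M2 : ℕ), 2 ≤ L → 64 ≤ M1 →
    8 * M1 ≤ M2 → ∃ (Mr : ℕ) (c : ℝ), 1 ≤ Mr ∧ 0 < c ∧ ∀ (q : ℝ) (n : ℕ), Win q κ n →
      ∀ r m b : ℕ, Mr ≤ r → m = M2 * r → b = 4 * L * m → 16 * L * m ≤ n →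
      ∀ (σ σ' : Bool) (k k' : ℤ) (Q1 Q3 : Finset (ℤ × ℤ)), SepQ Q1 Q3 →
      ((Cor L M2 (4 * L * M2) M2 σ k false Q1 ∧ Cor L M2 (4 * L * M2) M2 σ' k' true Q3) ∨
        (Cor L M2 (4 * L * M2) M2 σ' k' false Q1 ∧ Cor L M2 (4 * L * M2) M2 σ k true Q3)) →
      ∀ (β : Bool) (QV : Finset Edg), QV = QE r (Q1 ∪ Q3 ∪ tubQ (4 * L * M2) M2 (16 * L * M2)) →
      c * PQ q (SR L m) (fun F => Sev L m r (m / M1) σ (2 * r * k) σ' (2 * r * k') (e0 β) ↑F) ≤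
        PQ q (boxE b \ QV) (fun F => Y1 b m (16 * L * m) QV (e0 β) ↑F)

def Step2S : Prop := ∀ (κ : ℝ), 0 < κ → ∀ (L M2 : ℕ), 2 ≤ L → 512 ≤ M2 → ∀ (δ : ℝ),
    0 < δ → ∃ (Mr : ℕ) (c : ℝ), 1 ≤ Mr ∧ 0 < c ∧ ∀ (q : ℝ) (n : ℕ), Win q κ n →
      ∀ r m b : ℕ, Mr ≤ r → m = M2 * r → b = 4 * L * m → 16 * L * m ≤ n →
      ∀ (σ σ' : Bool) (k k' : ℤ) (Q1 Q3 : Finset (ℤ × ℤ)), SepQ Q1 Q3 →
      Cor L M2 (4 * L * M2) M2 σ k false Q1 → Cor L M2 (4 * L * M2) M2 σ' k' true Q3 →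
      ∀ (β : Bool) (QV : Finset Edg), QV = QE r (Q1 ∪ Q3 ∪ tubQ (4 * L * M2) M2 (16 * L * M2)) →
      c * (PQ q (boxE b \ QV) (fun F => Y1 b m (16 * L * m) QV (e0 β) ↑F) - δ * a4 q (m / 8)) ≤
        PQ q (boxE (16 * L * m)) (fun F => Y2 b m (16 * L * m) (e0 β) ↑F)

def Step3S : Prop := ∀ (κ : ℝ), 0 < κ → ∀ (L M2 : ℕ), 2 ≤ L → 512 ≤ M2 → ∀ (δ : ℝ),
    0 < δ → ∃ (Mr : ℕ) (c : ℝ), 1 ≤ Mr ∧ 0 < c ∧ ∀ (q : ℝ) (n : ℕ), Win q κ n →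
      ∀ r m b : ℕ, Mr ≤ r → m = M2 * r → b = 4 * L * m → 16 * L * m ≤ n → ∀ β : Bool,
      c * (PQ q (boxE (16 * L * m)) (fun F => Y2 b m (16 * L * m) (e0 β) ↑F) - δ * a4 q (m / 8)) ≤
        PQ q (boxE (16 * L * m)) (fun F => Plus b m (16 * L * m) (e0 β) ↑F)

/-- Two cells at small distance: `Sev` is impossible. -/
theorem sev_false {L M1 M2 m r : ℕ} (hM1 : 64 ≤ M1) (hM2 : 8 * M1 ≤ M2) (hr : 1 ≤ r)
    (hm : m = M2 * r) {σ : Bool} {k k' : ℤ} (hk : |k - k'| < 4) (e : Edg) (F : Set Edg) :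
    ¬ Sev L m r (m / M1) σ (2 * r * k) σ (2 * r * k') e F := by
  rintro ⟨_, h, _⟩
  have hu : ∀ j : ℤ, ((2 * r * j, if σ then (m:ℤ) else -m) : Vtx) ∈ cell σ m (2 * r * j) r := by
    intro j
    refine ⟨rfl, ?_, ?_⟩
    · show 2 * (r:ℤ) * j - r ≤ 2 * r * j
      omega
    · show 2 * (r:ℤ) * j ≤ 2 * r * j + r
      omega
  have h1 := h _ (hu k) _ (hu k') _ _ (Reach.refl _ _) (Reach.refl _ _) (by
    show |if σ then (m:ℤ) else -m| = m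
    cases σ <;> simp) rfl
  have h2 : |2 * (r:ℤ) * k - 2 * r * k'| ≤ 6 * r := by
    rw [← mul_sub, abs_mul, abs_of_nonneg (by positivity : (0:ℤ) ≤ 2 * (r:ℤ))]
    have : |k - k'| ≤ 3 := by omega
    calc 2 * (r:ℤ) * |k - k'| ≤ 2 * r * 3 := by gcongr
      _ = 6 * r := by ring
  have h3 : 8 * r ≤ m / M1 := by
    rw [Nat.le_div_iff_mul_le (by omega), hm]
    calc 8 * r * M1 = (8 * M1) * r := by ring
      _ ≤ M2 * r := Nat.mul_le_mul_right _ hM2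
  have h4 : ((8 * r : ℕ) : ℤ) ≤ ((m / M1 : ℕ) : ℤ) := by exact_mod_cast h3
  have h5 : ((m / M1 : ℕ) : ℤ) < |2 * (r:ℤ) * k - 2 * r * k'| := h1
  push_cast at h4 h5
  omega

theorem plus_glue_of (hCor : CorS) (hS1 : Step1S) (hS2 : Step2S) (hS3 : Step3S)
    (κ : ℝ) (hκ : 0 < κ) (L M1 M2 : ℕ) (hL : 2 ≤ L) (hM1 : 64 ≤ M1)
    (hM2 : 8 * M1 ≤ M2) (δ : ℝ) (hδ : 0 < δ) : ∃ (Mr : ℕ) (c : ℝ), 1 ≤ Mr ∧ 0 < c ∧
      ∀ (q : ℝ) (n : ℕ), Win q κ n → ∀ r m : ℕ, Mr ≤ r → m = M2 * r → 16 * L * m ≤ n →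
      ∀ (σ σ' : Bool) (k k' : ℤ), |2 * k| ≤ L * M2 + 1 → |2 * k'| ≤ L * M2 + 1 → ∀ β : Bool,
      c * (PQ q (SR L m) (fun F => Sev L m r (m / M1) σ (2 * r * k) σ' (2 * r * k') (e0 β) ↑F)
          - δ * a4 q (m / 8)) ≤
        PQ q (boxE (16 * L * m)) (fun F => Plus (4 * L * m) m (16 * L * m) (e0 β) ↑F) := by
  obtain ⟨R1, c1, hR1, hc1, H1⟩ := hS1 κ hκ L M1 M2 hL hM1 hM2
  have hM2' : 512 ≤ M2 := by omega
  obtain ⟨R2, c2, hR2, hc2, H2⟩ := hS2 κ hκ L M2 hL hM2' (c1 * δ / 2) (by positivity)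
  obtain ⟨R3, c3, hR3, hc3, H3⟩ := hS3 κ hκ L M2 hL hM2' (c1 * c2 * δ / 2) (by positivity)
  refine ⟨max R1 (max R2 R3), c1 * c2 * c3, le_max_of_le_left hR1, by positivity, ?_⟩
  intro q n hw r m hr hm hn σ σ' k k' hk hk' β
  have hr1 : R1 ≤ r := (le_max_left _ _).trans hr
  have hr2 : R2 ≤ r := ((le_max_left _ _).trans (le_max_right _ _)).trans hr
  have hr3 : R3 ≤ r := ((le_max_right _ _).trans (le_max_right _ _)).trans hr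
  have ok := hw.ok
  have ha4 : 0 ≤ a4 q (m / 8) := a4_nonneg hw.q0 hw.q1 _
  by_cases hs : σ = σ' → 4 ≤ |k - k'|
  · obtain ⟨Q1, Q3, hsep, hc⟩ := hCor L M2 (4 * L * M2) M2 hL (by omega) rfl rfl σ σ' k k' hk hk' hs
    have e1 := H1 q n hw r m (4 * L * m) hr1 hm rfl hn σ σ' k k' Q1 Q3 hsep hc β _ rfl
    have e3 := H3 q n hw r m (4 * L * m) hr3 hm rfl hn β
    have e2 : c2 * (PQ q (boxE (4 * L * m) \ QE r (Q1 ∪ Q3 ∪ tubQ (4 * L * M2) M2 (16 * L * M2)))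
        (fun F => Y1 (4 * L * m) m (16 * L * m)
          (QE r (Q1 ∪ Q3 ∪ tubQ (4 * L * M2) M2 (16 * L * M2))) (e0 β) ↑F) -
          c1 * δ / 2 * a4 q (m / 8)) ≤
        PQ q (boxE (16 * L * m)) (fun F => Y2 (4 * L * m) m (16 * L * m) (e0 β) ↑F) := by
      rcases hc with ⟨h1, h3⟩ | ⟨h1, h3⟩
      · exact H2 q n hw r m (4 * L * m) hr2 hm rfl hn σ σ' k k' Q1 Q3 hsep h1 h3 β _ rfl
      · exact H2 q n hw r m (4 * L * m) hr2 hm rfl hn σ' σ k' k Q1 Q3 hsep h1 h3 β _ rfl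
    set S := PQ q (SR L m) (fun F => Sev L m r (m / M1) σ (2 * r * k) σ' (2 * r * k') (e0 β) ↑F)
    set y1 := PQ q (boxE (4 * L * m) \ QE r (Q1 ∪ Q3 ∪ tubQ (4 * L * M2) M2 (16 * L * M2)))
        (fun F => Y1 (4 * L * m) m (16 * L * m)
          (QE r (Q1 ∪ Q3 ∪ tubQ (4 * L * M2) M2 (16 * L * M2))) (e0 β) ↑F)
    set y2 := PQ q (boxE (16 * L * m)) (fun F => Y2 (4 * L * m) m (16 * L * m) (e0 β) ↑F)
    set y3 := PQ q (boxE (16 * L * m)) (fun F => Plus (4 * L * m) m (16 * L * m) (e0 β) ↑F)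
    set a := a4 q (m / 8)
    calc c1 * c2 * c3 * (S - δ * a)
        = c3 * (c2 * (c1 * S - c1 * δ / 2 * a) - c1 * c2 * δ / 2 * a) := by ring
      _ ≤ c3 * (c2 * (y1 - c1 * δ / 2 * a) - c1 * c2 * δ / 2 * a) := by gcongr
      _ ≤ c3 * (y2 - c1 * c2 * δ / 2 * a) := by gcongr
      _ ≤ y3 := e3
  · rw [Classical.not_imp, not_le] at hs
    obtain ⟨rfl, hlt⟩ := hs
    have h0 : PQ q (SR L m)
        (fun F => Sev L m r (m / M1) σ (2 * r * k) σ (2 * r * k') (e0 β) ↑F) ≤ 0 := by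
      have h1 : PQ q (SR L m)
          (fun F => Sev L m r (m / M1) σ (2 * r * k) σ (2 * r * k') (e0 β) ↑F) ≤
          PQ q (SR L m) (fun _ => False) := by
        apply Pr_mono ok
        intro F _ hF
        exact sev_false hM1 hM2 (hR1.trans hr1) hm hlt _ _ hF
      refine h1.trans ?_
      apply le_of_eq
      show Ex _ _ _ = 0
      have h2 : (fun _ : Finset Edg => ind False) = fun _ => (0:ℝ) := by
        funext _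
        exact ind_not_of (fun h => h)
      rw [h2, Ex_const]
    have h3 : 0 ≤ PQ q (boxE (16 * L * m))
        (fun F => Plus (4 * L * m) m (16 * L * m) (e0 β) ↑F) := Pr_nonneg ok _ _
    have h4 : c1 * c2 * c3 * (PQ q (SR L m)
        (fun F => Sev L m r (m / M1) σ (2 * r * k) σ (2 * r * k') (e0 β) ↑F)
          - δ * a4 q (m / 8)) ≤ 0 := by
      apply mul_nonpos_of_nonneg_of_nonpos (by positivity)
      have : 0 ≤ δ * a4 q (m / 8) := by positivity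
      linarith
    linarith

end H12S
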