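import Pool.Agent.H12R2.Sep.Defs4
import Pool.Agent.H12R2.Sep.Key1

/-!
Task PK: separation of four arms (`plus_key`) from `key_center` and `plus_glue`.
-/

namespace H12S

open H974 Finset

/-- The statement of `plus_glue`. -/
def PlusGlueS : Prop := ∀ (κ : ℝ) (_ : 0 < κ) (L M1 M2 : ℕ) (_ : 2 ≤ L) (_ : 64 ≤ M1)
    (_ : 8 * M1 ≤ M2) (δ : ℝ) (_ : 0 < δ), ∃ (Mr : ℕ) (c : ℝ), 1 ≤ Mr ∧ 0 < c ∧
      ∀ (q : ℝ) (n : ℕ), Win q κ n → ∀ r m : ℕ, Mr ≤ r → m = M2 * r → 16 * L * m ≤ n →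
      ∀ (σ σ' : Bool) (k k' : ℤ), |2 * k| ≤ L * M2 + 1 → |2 * k'| ≤ L * M2 + 1 → ∀ β : Bool,
      c * (PQ q (SR L m) (fun F => Sev L m r (m / M1) σ (2 * r * k) σ' (2 * r * k') (e0 β) ↑F)
          - δ * a4 q (m / 8)) ≤
        PQ q (boxE (16 * L * m)) (fun F => Plus (4 * L * m) m (16 * L * m) (e0 β) ↑F)

/-- The statement of `key_center`. -/
def KeyCenterS : Prop := ∀ (κ : ℝ) (_ : 0 < κ) (ε : ℝ) (_ : 0 < ε) (_ : ε < 1),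
    ∃ (L M1 M2 : ℕ) (C : ℝ), 2 ≤ L ∧ 64 ≤ M1 ∧ 8 * M1 ≤ M2 ∧ 0 < C ∧ ∀ Mr : ℕ, ∃ k0 : ℕ,
      ∀ (q : ℝ) (n : ℕ), Win q κ n → ∀ k : ℕ, k0 ≤ k → k ≤ n →
        a4 q k ≤ (k:ℝ) ^ (-(2:ℝ)) ∨
        ∃ r m : ℕ, Mr ≤ r ∧ m = M2 * r ∧ (k:ℝ) ^ (1 - ε) ≤ m ∧ 16 * L * m ≤ k ∧
          a4 q (m / 8) ≤ C * a4 q (4 * L * m) ∧
          ∃ (σ : Bool) (k1 : ℤ) (σ' : Bool) (k2 : ℤ) (β : Bool),
            |2 * k1| ≤ L * M2 + 1 ∧ |2 * k2| ≤ L * M2 + 1 ∧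
            a4 q (4 * L * m) ≤ C * PQ q (SR L m) (fun F =>
              Sev L m r (m / M1) σ (2 * r * k1) σ' (2 * r * k2) (e0 β) ↑F)

/-- Separation of four arms: at every window, `a4 q k ≤ k^(-2)` or it is bounded by the
probability of a plus event at a comparable scale. -/
theorem plus_key_of (hK : KeyCenterS) (hG : PlusGlueS) (κ : ℝ) (hκ : 0 < κ) (ε : ℝ) (hε : 0 < ε)
    (hε1 : ε < 1) :
    ∃ (L : ℕ) (C : ℝ) (k0 : ℕ), 2 ≤ L ∧ 0 < C ∧ ∀ (q : ℝ) (n : ℕ), Win q κ n → ∀ k : ℕ, k0 ≤ k →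
      k ≤ n → a4 q k ≤ (k:ℝ) ^ (-(2:ℝ)) ∨ ∃ (m : ℕ) (β : Bool), 1 ≤ m ∧ (k:ℝ) ^ (1 - ε) ≤ m ∧
        16 * L * m ≤ k ∧ a4 q k ≤ C * PQ q (boxE (16 * L * m))
          (fun F => Plus (4 * L * m) m (16 * L * m) (e0 β) ↑F) := by
  obtain ⟨L, M1, M2, C, hL, hM1, hM2, hC, hkey⟩ := hK κ hκ ε hε hε1
  obtain ⟨Mr, c, hMr, hc, hglue⟩ := hG κ hκ L M1 M2 hL hM1 hM2 (1 / (2 * C ^ 2)) (by positivity)
  obtain ⟨k0, hk0⟩ := hkey Mr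
  refine ⟨L, 2 * C / c, k0, hL, by positivity, ?_⟩
  intro q n hW k hk hkn
  rcases hk0 q n hW k hk hkn with h | ⟨r, m, hr, hm, hkm, hmk, ha, σ, k1, σ', k2, β, hk1, hk2, hb⟩
  · exact Or.inl h
  · right
    have hm1 : 1 ≤ m := by
      rw [hm]
      exact Nat.mul_pos (by omega) (by omega)
    refine ⟨m, β, hm1, hkm, hmk, ?_⟩
    have hq0 : 0 ≤ q := by linarith [hW.lo]
    have hq1 : q ≤ 1 := by linarith [hW.hi]
    have hgl := hglue q n hW r m hr hm (hmk.trans hkn) σ σ' k1 k2 hk1 hk2 β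
    set P : ℝ := PQ q (SR L m) (fun F =>
      Sev L m r (m / M1) σ (2 * r * k1) σ' (2 * r * k2) (e0 β) ↑F) with hP
    set X : ℝ := PQ q (boxE (16 * L * m))
      (fun F => Plus (4 * L * m) m (16 * L * m) (e0 β) ↑F) with hX
    have hLm : 4 * L * m ≤ k := by
      have : 4 * L * m ≤ 16 * L * m := by nlinarith
      omega
    have hLm1 : 1 ≤ 4 * L * m := Nat.mul_pos (by omega) (by omega)
    have h1 : a4 q k ≤ a4 q (4 * L * m) := a4_anti hq0 hq1 hLm1 hLm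
    have h2 : a4 q (m / 8) ≤ C * (C * P) := ha.trans (mul_le_mul_of_nonneg_left hb hC.le)
    have h3 : 1 / (2 * C ^ 2) * a4 q (m / 8) ≤ P / 2 := by
      calc 1 / (2 * C ^ 2) * a4 q (m / 8) ≤ 1 / (2 * C ^ 2) * (C * (C * P)) :=
            mul_le_mul_of_nonneg_left h2 (by positivity)
        _ = P / 2 := by field_simp
    have h4 : c * (P / 2) ≤ X := le_trans (mul_le_mul_of_nonneg_left (by linarith) hc.le) hgl
    calc a4 q k ≤ C * P := h1.trans hb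
      _ = 2 * C / c * (c * (P / 2)) := by field_simp
      _ ≤ 2 * C / c * X := mul_le_mul_of_nonneg_left h4 (by positivity)

end H12S
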