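import Pool.Agent.H12R2.Sep.Defs4
import Pool.Agent.H12R2.Sep.TrapP

/-!
S1 (helper666): first step of the construction of the plus event.
-/

namespace H12S

open H974 Finset

/-- The statement of `step1_det`. -/
def Step1Det : Prop := ∀ {L M1 M2 : ℕ} (_ : 2 ≤ L) (_ : 64 ≤ M1) (_ : 8 * M1 ≤ M2)
    {r m b N l : ℕ} (_ : 1 ≤ l) (_ : 16 * l ≤ r) (_ : m = M2 * r) (_ : b = 4 * L * m)
    (_ : N = 16 * L * m)
    {σ σ' : Bool} {k k' : ℤ} {Q1 Q3 : Finset (ℤ × ℤ)} (_ : SepQ Q1 Q3)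
    (_ : (Cor L M2 (4 * L * M2) M2 σ k false Q1 ∧ Cor L M2 (4 * L * M2) M2 σ' k' true Q3) ∨
        (Cor L M2 (4 * L * M2) M2 σ' k' false Q1 ∧ Cor L M2 (4 * L * M2) M2 σ k true Q3))
    {β : Bool} {QV O : Finset Edg} (_ : QV = QE r (Q1 ∪ Q3 ∪ tubQ (4 * L * M2) M2 (16 * L * M2)))
    (_ : O = boxE N \ ((boxE b \ QV) ∪ (XH b m N \ boxE b))) {F : Finset Edg} (_ : F ⊆ SR L m)
    (_ : Sev L m r (m / M1) σ (2 * r * k) σ' (2 * r * k') (e0 β) (↑F : Set Edg)),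
    Cn (botV N) (topV N) (insert (e0 β) ((↑(F \ QV) : Set Edg) ∪ ↑QV)) ∧
      ¬ Cn (botV N) (topV N) (((↑(F \ QV) : Set Edg) ∪ ↑O) \ {e0 β}) ∧
      NFar src tgt (botV N) (topV N) (e0 β) (↑(boxE b \ (SR L m ∪ QV)) : Set Edg) (Nr (4 * l))
        ((↑(F \ QV) : Set Edg) ∪ ↑O) ∧
      ∀ g ∈ O, src g ∈ Cl src tgt (botV N) (((↑(F \ QV) : Set Edg) ∪ ↑O) \ {e0 β}) ∨
        src g ∈ Cl src tgt (topV N) (((↑(F \ QV) : Set Edg) ∪ ↑O) \ {e0 β})

/-- Coarse coordinates of a number. -/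
theorem s1_le {r z x : ℤ} (hr : 1 ≤ r) {a : ℤ} (h : r * z ≤ x) (h2 : x < r * (a + 1)) : z ≤ a := by
  by_contra hc
  push Not at hc
  have : r * (a + 1) ≤ r * z := mul_le_mul_of_nonneg_left (by omega) (by omega)
  omega

/-- The edge at the origin in a closed coarse square. -/
theorem s1_e0 {r : ℕ} (hr : 1 ≤ r) {z : ℤ × ℤ} {β : Bool} (h : e0 β ∈ sqE r z) :
    (-1 ≤ z.1 ∧ z.1 ≤ 0) ∧ (-1 ≤ z.2 ∧ z.2 ≤ 0) := by
  have hr' : (1:ℤ) ≤ r := by exact_mod_cast hr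
  obtain ⟨z1, z2⟩ := z
  have key : (r:ℤ) * z1 ≤ 0 ∧ 0 ≤ (r:ℤ) * z1 + r ∧ (r:ℤ) * z2 ≤ 0 ∧ 0 ≤ (r:ℤ) * z2 + r := by
    cases β
    · have h' : ((0:ℤ), (0:ℤ), false) ∈ RE (r * z1) (r * z1 + r) (r * z2) (r * z2 + r) := h
      rw [mem_RE_false] at h'
      omega
    · have h' : ((0:ℤ), (0:ℤ), true) ∈ RE (r * z1) (r * z1 + r) (r * z2) (r * z2 + r) := h
      rw [mem_RE_true] at h'
      omega
  obtain ⟨h1, h2, h3, h4⟩ := key
  simp only
  refine ⟨⟨?_, ?_⟩, ⟨?_, ?_⟩⟩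
  · by_contra hc
    push Not at hc
    nlinarith
  · by_contra hc
    push Not at hc
    nlinarith
  · by_contra hc
    push Not at hc
    nlinarith
  · by_contra hc
    push Not at hc
    nlinarith

/-- The squares of a corridor are in the big box. -/
theorem s1_cor_sub {L M2 W r m b : ℕ} (hm : m = M2 * r) (hb : b = 4 * L * m)
    {σ : Bool} {k : ℤ} {τ : Bool} {Q : Finset (ℤ × ℤ)} (hQ : Cor L M2 (4 * L * M2) W σ k τ Q) :
    ∀ z ∈ Q, sqE r z ⊆ boxE b := by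
  intro z hz
  obtain ⟨h1, h2, h3, h4⟩ := hQ.inx z hz
  have hbb : (b:ℤ) = r * ((4 * L * M2 : ℕ) : ℤ) := by
    rw [hb, hm]; push_cast; ring
  have hr0 : (0:ℤ) ≤ r := Int.natCast_nonneg r
  unfold sqE boxE
  apply RE_subset
  · rw [hbb, ← mul_neg]
    exact mul_le_mul_of_nonneg_left h1.le hr0
  · rw [hbb, show (r:ℤ) * z.1 + r = r * (z.1 + 1) by ring]
    exact mul_le_mul_of_nonneg_left h2.le hr0
  · rw [hbb, ← mul_neg]
    exact mul_le_mul_of_nonneg_left h3 hr0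
  · rw [hbb, show (r:ℤ) * z.2 + r = r * (z.2 + 1) by ring]
    exact mul_le_mul_of_nonneg_left h4 hr0

/-- The corridors avoid the edge at the origin. -/
theorem s1_cor_e0 {L M2 W r : ℕ} (hr : 1 ≤ r) (hL : 2 ≤ L) (hM : 64 ≤ M2)
    {σ : Bool} {k : ℤ} {τ : Bool} {Q : Finset (ℤ × ℤ)} (hQ : Cor L M2 (4 * L * M2) W σ k τ Q)
    {β : Bool} : ∀ z ∈ Q, e0 β ∉ sqE r z := by
  intro z hzQ he
  obtain ⟨⟨h1, h2⟩, h3, h4⟩ := s1_e0 hr he
  have hpos : (0:ℤ) ≤ 2 * L * M2 := by positivity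
  have h5 := (hQ.avo z hzQ (by omega) (by omega) (by omega) (by omega)).1
  unfold hz at h5
  split_ifs at h5 <;> omega

/-- The edges of the vertical tubes. -/
theorem s1_tub {L M2 r m b N : ℕ} (hr : 1 ≤ r) (hm : m = M2 * r) (hb : b = 4 * L * m)
    (hN : N = 16 * L * m) (hm1 : 1 ≤ m) (hL : 2 ≤ L) :
    ∀ z ∈ tubQ (4 * L * M2) M2 (16 * L * M2), sqE r z ⊆ boxE N \ (XH b m N \ boxE b) ∧
      ∀ β : Bool, e0 β ∉ sqE r z := by
  intro z hz
  have hr0 : (0:ℤ) ≤ r := Int.natCast_nonneg r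
  have hbb : (b:ℤ) = r * ((4 * L * M2 : ℕ) : ℤ) := by
    rw [hb, hm]; push_cast; ring
  have hNN : (N:ℤ) = r * ((16 * L * M2 : ℕ) : ℤ) := by
    rw [hN, hm]; push_cast; ring
  have hmm : (m:ℤ) = r * (M2 : ℤ) := by
    rw [hm]; push_cast; ring
  have hmb : (m:ℤ) < b := by
    rw [hb]; push_cast
    have : (1:ℤ) ≤ m := by exact_mod_cast hm1
    have : (2:ℤ) ≤ L := by exact_mod_cast hL
    nlinarith
  have hmN : (m:ℤ) ≤ N := by
    rw [hN]; push_cast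
    have : (1:ℤ) ≤ m := by exact_mod_cast hm1
    have : (2:ℤ) ≤ L := by exact_mod_cast hL
    nlinarith
  have hm0 : (0:ℤ) ≤ m := Int.natCast_nonneg m
  have hbN : (b:ℤ) ≤ N := by
    rw [hb, hN]; push_cast
    have : (2:ℤ) ≤ L := by exact_mod_cast hL
    nlinarith
  unfold tubQ at hz
  simp only [Finset.mem_product, Finset.mem_Ico, Finset.mem_union] at hz
  obtain ⟨⟨h1, h2⟩, h3⟩ := hz
  have a1 : -(m:ℤ) ≤ r * z.1 := by
    rw [hmm, ← mul_neg]; exact mul_le_mul_of_nonneg_left h1 hr0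
  have a2 : r * z.1 + r ≤ (m:ℤ) := by
    rw [hmm, show (r:ℤ) * z.1 + r = r * (z.1 + 1) by ring]
    exact mul_le_mul_of_nonneg_left (by omega) hr0
  have a3 : (-(N:ℤ) ≤ r * z.2 ∧ r * z.2 + r ≤ -(b:ℤ)) ∨ ((b:ℤ) ≤ r * z.2 ∧ r * z.2 + r ≤ (N:ℤ)) := by
    rcases h3 with ⟨h3, h4⟩ | ⟨h3, h4⟩
    · left
      constructor
      · rw [hNN, ← mul_neg]; exact mul_le_mul_of_nonneg_left h3 hr0
      · rw [hbb, ← mul_neg, show (r:ℤ) * z.2 + r = r * (z.2 + 1) by ring]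
        exact mul_le_mul_of_nonneg_left (by omega) hr0
    · right
      constructor
      · rw [hbb]; exact mul_le_mul_of_nonneg_left h3 hr0
      · rw [hNN, show (r:ℤ) * z.2 + r = r * (z.2 + 1) by ring]
        exact mul_le_mul_of_nonneg_left (by omega) hr0
  constructor
  · rintro ⟨x, y, _ | _⟩ h
    · unfold sqE at h
      rw [mem_RE_false] at h
      simp only [XH, boxE, Finset.mem_sdiff, Finset.mem_union, mem_RE_false]
      omega
    · unfold sqE at h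
      rw [mem_RE_true] at h
      simp only [XH, boxE, Finset.mem_sdiff, Finset.mem_union, mem_RE_true]
      omega
  · intro β he
    obtain ⟨_, h6, h7⟩ := s1_e0 hr he
    have hr1 : (1:ℤ) ≤ r := by exact_mod_cast hr
    have b1 : r * z.2 ≤ 0 := by nlinarith
    have b2 : -(r:ℤ) ≤ r * z.2 := by nlinarith
    have b3 : 0 < (b:ℤ) := by omega
    omega

/-- Step 1, from its deterministic part. -/
theorem step1_of (hdet : Step1Det) (κ : ℝ) (hκ : 0 < κ) (L M1 M2 : ℕ) (hL : 2 ≤ L)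
    (hM1 : 64 ≤ M1) (hM2 : 8 * M1 ≤ M2) : ∃ (Mr : ℕ) (c : ℝ), 1 ≤ Mr ∧ 0 < c ∧
      ∀ (q : ℝ) (n : ℕ), Win q κ n →
      ∀ r m b : ℕ, Mr ≤ r → m = M2 * r → b = 4 * L * m → 16 * L * m ≤ n →
      ∀ (σ σ' : Bool) (k k' : ℤ) (Q1 Q3 : Finset (ℤ × ℤ)), SepQ Q1 Q3 →
      ((Cor L M2 (4 * L * M2) M2 σ k false Q1 ∧ Cor L M2 (4 * L * M2) M2 σ' k' true Q3) ∨
        (Cor L M2 (4 * L * M2) M2 σ' k' false Q1 ∧ Cor L M2 (4 * L * M2) M2 σ k true Q3)) →
      ∀ (β : Bool) (QV : Finset Edg), QV = QE r (Q1 ∪ Q3 ∪ tubQ (4 * L * M2) M2 (16 * L * M2)) →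
      c * PQ q (SR L m) (fun F => Sev L m r (m / M1) σ (2 * r * k) σ' (2 * r * k') (e0 β) ↑F) ≤
        PQ q (boxE b \ QV) (fun F => Y1 b m (16 * L * m) QV (e0 β) ↑F) := by
  refine ⟨16, κ ^ (4 * (2 * (128 * L * M2) + 1) ^ 2), by norm_num, by positivity, ?_⟩
  intro q n hw r m b hr hm hb hn σ σ' k k' Q1 Q3 hsep hcor β QV hQV
  have hp : Ok (fun _ : Edg => q) := okq (by linarith [hw.lo]) (by linarith [hw.hi])
  have hr1 : 1 ≤ r := by omega
  have hM2' : 512 ≤ M2 := by omega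
  have hm1 : 1 ≤ m := by
    rw [hm]; exact Nat.mul_pos (by omega) (by omega)
  obtain ⟨N, hN⟩ : ∃ N, N = 16 * L * m := ⟨_, rfl⟩
  rw [← hN]
  set l : ℕ := r / 16 with hl
  have hl1 : 1 ≤ l := by omega
  have hlr : 16 * l ≤ r := by omega
  have hrl : r ≤ 32 * l := by omega
  set S0 : Finset Edg := SR L m \ QV with hS0
  set D : Finset Edg := boxE b \ (SR L m ∪ QV) with hD
  obtain ⟨O, hO⟩ : ∃ O : Finset Edg, O = boxE N \ ((boxE b \ QV) ∪ (XH b m N \ boxE b)) := ⟨_, rfl⟩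
  -- geometry
  have hL' : (2:ℤ) ≤ L := by exact_mod_cast hL
  have hm' : (1:ℤ) ≤ m := by exact_mod_cast hm1
  have hLm : 2 * L * m ≤ b := by rw [hb]; nlinarith
  have hmb : m ≤ b := by rw [hb]; nlinarith
  have hbN : b ≤ N := by rw [hb, hN]; nlinarith
  have hSRb : SR L m ⊆ boxE b := by
    unfold SR boxE
    apply RE_subset <;> omega
  have hbbN : boxE b ⊆ boxE N := by
    unfold boxE
    apply RE_subset <;> omega
  have hsub1 : ∀ z ∈ Q1, sqE r z ⊆ boxE b ∧ e0 β ∉ sqE r z := by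
    rcases hcor with ⟨h1, _⟩ | ⟨h1, _⟩
    · exact fun z hz => ⟨s1_cor_sub hm hb h1 z hz, s1_cor_e0 hr1 hL (by omega) h1 z hz⟩
    · exact fun z hz => ⟨s1_cor_sub hm hb h1 z hz, s1_cor_e0 hr1 hL (by omega) h1 z hz⟩
  have hsub3 : ∀ z ∈ Q3, sqE r z ⊆ boxE b ∧ e0 β ∉ sqE r z := by
    rcases hcor with ⟨_, h1⟩ | ⟨_, h1⟩
    · exact fun z hz => ⟨s1_cor_sub hm hb h1 z hz, s1_cor_e0 hr1 hL (by omega) h1 z hz⟩
    · exact fun z hz => ⟨s1_cor_sub hm hb h1 z hz, s1_cor_e0 hr1 hL (by omega) h1 z hz⟩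
  have htub := s1_tub (r := r) hr1 hm hb hN hm1 hL
  have hQVmem : ∀ g ∈ QV, g ∈ boxE N ∧ g ∉ XH b m N \ boxE b := by
    intro g hg
    rw [hQV] at hg
    unfold QE at hg
    rw [Finset.mem_biUnion] at hg
    obtain ⟨z, hz, hgz⟩ := hg
    rw [Finset.mem_union, Finset.mem_union] at hz
    rcases hz with (hz | hz) | hz
    · have := (hsub1 z hz).1 hgz
      exact ⟨hbbN this, fun h => (Finset.mem_sdiff.mp h).2 this⟩
    · have := (hsub3 z hz).1 hgz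
      exact ⟨hbbN this, fun h => (Finset.mem_sdiff.mp h).2 this⟩
    · exact Finset.mem_sdiff.mp ((htub z hz).1 hgz)
  have he0QV : e0 β ∉ QV := by
    intro hg
    rw [hQV] at hg
    unfold QE at hg
    rw [Finset.mem_biUnion] at hg
    obtain ⟨z, hz, hgz⟩ := hg
    rw [Finset.mem_union, Finset.mem_union] at hz
    rcases hz with (hz | hz) | hz
    · exact (hsub1 z hz).2 hgz
    · exact (hsub3 z hz).2 hgz
    · exact (htub z hz).2 β hgz
  have he0SR : e0 β ∈ SR L m := by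
    have : (0:ℤ) < ((2 * L * m : ℕ) : ℤ) := by push_cast; positivity
    cases β
    · change ((0:ℤ), (0:ℤ), false) ∈ SR L m
      unfold SR
      rw [mem_RE_false]
      omega
    · change ((0:ℤ), (0:ℤ), true) ∈ SR L m
      unfold SR
      rw [mem_RE_true]
      omega
  have he : e0 β ∈ S0 := Finset.mem_sdiff.mpr ⟨he0SR, he0QV⟩
  have hSD : Disjoint S0 D := by
    rw [Finset.disjoint_left]
    intro g h1 h2
    exact (Finset.mem_sdiff.mp h2).2 (Finset.mem_union_left _ (Finset.mem_sdiff.mp h1).1)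
  have hunion : S0 ∪ D = boxE b \ QV := by
    ext g
    simp only [hS0, hD, Finset.mem_union, Finset.mem_sdiff]
    constructor
    · rintro (⟨h1, h2⟩ | ⟨h1, h2⟩)
      · exact ⟨hSRb h1, h2⟩
      · exact ⟨h1, fun h => h2 (Or.inr h)⟩
    · rintro ⟨h1, h2⟩
      by_cases h3 : g ∈ SR L m
      · exact Or.inl ⟨h3, h2⟩
      · exact Or.inr ⟨h1, fun h => h.elim h3 h2⟩
  have hOO : (↑QV : Set Edg) ⊆ ↑O := by
    intro g hg
    have hg' : g ∈ QV := by exact_mod_cast hg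
    obtain ⟨h1, h2⟩ := hQVmem g hg'
    rw [hO]
    simp only [Finset.coe_sdiff, Finset.coe_union]
    refine ⟨h1, ?_⟩
    rintro (h3 | h3)
    · exact h3.2 hg
    · exact h2 (by exact_mod_cast h3)
  have hO1 : Disjoint (↑O : Set Edg) ↑(S0 ∪ D) := by
    rw [hunion, Set.disjoint_left]
    intro g h1 h2
    rw [hO] at h1
    simp only [Finset.coe_sdiff, Finset.coe_union] at h1 h2
    exact h1.2 (Or.inl h2)
  -- the gluing lemma
  have hglue := unforceG hp src tgt hSD hOO hO1 (I := botV N) (J := topV N) he (Nr (4 * l))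
    (H := fun _ => True) (fun _ _ _ _ => trivial) (fun _ => Iff.rfl)
  -- first factor
  have h1 : PQ q (SR L m) (fun F => Sev L m r (m / M1) σ (2 * r * k) σ' (2 * r * k') (e0 β) ↑F) ≤
      Pr (fun _ => q) (S0 ∪ D) (fun F =>
        (CnG src tgt (botV N) (topV N) (insert (e0 β) ((↑(F ∩ S0) : Set Edg) ∪ ↑QV)) ∧
        ¬ CnG src tgt (botV N) (topV N) (((↑(F ∩ S0) : Set Edg) ∪ ↑O) \ {e0 β})) ∧
        NFar src tgt (botV N) (topV N) (e0 β) ↑D (Nr (4 * l)) ((↑(F ∩ S0) : Set Edg) ∪ ↑O) ∧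
        (∀ g ∈ (↑O : Set Edg), src g ∈ Cl src tgt (botV N) (((↑(F ∩ S0) : Set Edg) ∪ ↑O) \ {e0 β}) ∨
          src g ∈ Cl src tgt (topV N) (((↑(F ∩ S0) : Set Edg) ∪ ↑O) \ {e0 β}))) := by
    rw [Pr_local (S := S0 ∪ D) (S' := S0) Finset.subset_union_left (fun F _ => by
      simp only [Finset.inter_assoc, Finset.inter_self])]
    rw [← Pr_local (S := SR L m) (S' := S0) Finset.sdiff_subset (fun F _ => by
      simp only [Finset.inter_assoc, Finset.inter_self])]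
    apply Pr_mono hp
    intro F hF hSev
    have hFS : F ∩ S0 = F \ QV := by
      ext g
      simp only [hS0, Finset.mem_inter, Finset.mem_sdiff]
      constructor
      · rintro ⟨h1, h2, h3⟩; exact ⟨h1, h3⟩
      · rintro ⟨h1, h2⟩; exact ⟨h1, hF h1, h2⟩
    rw [hFS]
    obtain ⟨d1, d2, d3, d4⟩ := hdet hL hM1 hM2 hl1 hlr hm hb hN hsep hcor hQV hO hF hSev
    exact ⟨⟨d1, d2⟩, d3, fun g hg => d4 g (by exact_mod_cast hg)⟩
  -- second factor
  have h2 : κ ^ (4 * (2 * (128 * L * M2) + 1) ^ 2) ≤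
      Pr (fun _ => q) (S0 ∪ D) (fun F => TrapG src tgt (↑D : Set Edg) (Nr (4 * l)) ↑F ∧ True) := by
    have hln : 2 * l ≤ n := by
      have : r ≤ m := by rw [hm]; nlinarith
      have : m ≤ 16 * L * m := by nlinarith
      omega
    refine (trap_prob hw (N := 128 * L * M2) hl1 hln 0 0 (S0 ∪ D)).1.trans (Pr_mono hp ?_)
    intro F _ hF
    refine ⟨?_, trivial⟩
    intro v hv w _ hvw
    have hbl : (b:ℤ) ≤ ((128 * L * M2 : ℕ) : ℤ) * (l : ℤ) := by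
      have : b ≤ 128 * L * M2 * l := by
        rw [hb, hm]
        calc 4 * L * (M2 * r) ≤ 4 * L * (M2 * (32 * l)) := by gcongr
          _ = 128 * L * M2 * l := by ring
      exact_mod_cast this
    have hvb : inR (0 - ((128 * L * M2 : ℕ) : ℤ) * l) (0 + ((128 * L * M2 : ℕ) : ℤ) * l)
        (0 - ((128 * L * M2 : ℕ) : ℤ) * l) (0 + ((128 * L * M2 : ℕ) : ℤ) * l) v := by
      obtain ⟨g, hg, hgv⟩ := hv
      have hgD : g ∈ boxE b := by
        have : g ∈ D := by exact_mod_cast hg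
        exact (Finset.mem_sdiff.mp this).1
      unfold inR
      obtain ⟨x, y, _ | _⟩ := g
      · unfold boxE at hgD
        rw [mem_RE_false] at hgD
        rcases hgv with h | h
        · rw [← h]; simp only [src_mk]; omega
        · rw [← h]; simp only [tgt_false]; omega
      · unfold boxE at hgD
        rw [mem_RE_true] at hgD
        rcases hgv with h | h
        · rw [← h]; simp only [src_mk]; omega
        · rw [← h]; simp only [tgt_true]; omega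
    have := hF v w hvb hvw
    exact this
  -- conclusion
  have h3 : Pr (fun _ => q) (S0 ∪ D) (fun F =>
      (CnG src tgt (botV N) (topV N) (insert (e0 β) ((↑(F ∩ S0) : Set Edg) ∪ ↑QV)) ∧
        ¬ CnG src tgt (botV N) (topV N) (((↑F : Set Edg) ∪ ↑O) \ {e0 β})) ∧ True) ≤
      PQ q (boxE b \ QV) (fun F => Y1 b m N QV (e0 β) ↑F) := by
    rw [hunion]
    apply Pr_mono hp
    rintro F hF ⟨⟨c1, c2⟩, -⟩
    have hFi : (↑F : Set Edg) ∩ ↑(boxE b \ QV) = ↑F := Set.inter_eq_left.mpr (by exact_mod_cast hF)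
    unfold Y1
    rw [hFi, ← hO]
    refine ⟨?_, c2⟩
    refine uf2_cn_mono ?_ c1
    refine Set.insert_subset_insert ?_
    refine Set.union_subset_union_left _ ?_
    rw [Finset.coe_inter]
    exact Set.inter_subset_left
  have hnn := Pr_nonneg hp (SR L m)
    (fun F => Sev L m r (m / M1) σ (2 * r * k) σ' (2 * r * k') (e0 β) ↑F)
  have hpos : 0 ≤ κ ^ (4 * (2 * (128 * L * M2) + 1) ^ 2) := by positivity
  calc κ ^ (4 * (2 * (128 * L * M2) + 1) ^ 2) *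
        PQ q (SR L m) (fun F => Sev L m r (m / M1) σ (2 * r * k) σ' (2 * r * k') (e0 β) ↑F)
      = PQ q (SR L m) (fun F => Sev L m r (m / M1) σ (2 * r * k) σ' (2 * r * k') (e0 β) ↑F) *
          κ ^ (4 * (2 * (128 * L * M2) + 1) ^ 2) := mul_comm _ _
    _ ≤ _ := mul_le_mul h1 h2 hpos (hnn.trans h1)
    _ ≤ _ := hglue
    _ ≤ _ := h3

end H12S
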