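import Pool.Agent.H12R2.Sep.Defs4
import Pool.Agent.H12R2.Sep.Loc

/-!
S1D: first step of the plus event, deterministic part.
-/

set_option maxHeartbeats 1000000

namespace H12S

open H974 Finset

/-! ### Coarse squares -/

theorem s1d_QE_ends {r : ℕ} {Q : Finset (ℤ × ℤ)} {e : Edg} (he : e ∈ QE r Q) :
    src e ∈ VQ r Q ∧ tgt e ∈ VQ r Q := by
  unfold QE at he
  rw [Finset.mem_biUnion] at he
  obtain ⟨z, hz, he⟩ := he
  exact ⟨⟨z, hz, (ends_RE he).1⟩, ⟨z, hz, (ends_RE he).2⟩⟩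

theorem s1d_VQ_dist {r : ℕ} (hr : 1 ≤ r) {Q1 Q3 : Finset (ℤ × ℤ)} (h : SepQ Q1 Q3) {u v : Vtx}
    (hu : u ∈ VQ r Q1) (hv : v ∈ VQ r Q3) : (r:ℤ) ≤ |u.1 - v.1| ∨ (r:ℤ) ≤ |u.2 - v.2| := by
  obtain ⟨z, hz, ⟨a1, a2⟩, a3, a4⟩ := hu
  obtain ⟨z', hz', ⟨b1, b2⟩, b3, b4⟩ := hv
  have hr' : (0:ℤ) < r := by exact_mod_cast hr
  by_contra hc
  push Not at hc
  obtain ⟨c1, c2⟩ := hc
  rw [abs_lt] at c1 c2
  apply h z hz z' hz'
  have e1 : z.1 < z'.1 + 2 := lt_of_mul_lt_mul_left (a := (r:ℤ)) (by linarith) hr'.le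
  have e2 : z'.1 < z.1 + 2 := lt_of_mul_lt_mul_left (a := (r:ℤ)) (by linarith) hr'.le
  have e3 : z.2 < z'.2 + 2 := lt_of_mul_lt_mul_left (a := (r:ℤ)) (by linarith) hr'.le
  have e4 : z'.2 < z.2 + 2 := lt_of_mul_lt_mul_left (a := (r:ℤ)) (by linarith) hr'.le
  rw [abs_le, abs_le]
  omega

/-- The corridor stays in the box, away from three sides. -/
theorem s1d_box {L M2 B W : ℕ} {σ : Bool} {k : ℤ} {τ : Bool} {Q : Finset (ℤ × ℤ)}
    (hc : Cor L M2 B W σ k τ Q) {r : ℕ} {b : ℤ} (hb : b = r * B) {v : Vtx}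
    (hv : v ∈ VQ r Q) : -b + r ≤ v.1 ∧ v.1 ≤ b - r ∧ -b ≤ v.2 ∧ v.2 ≤ b ∧
      (τ = false → v.2 ≤ b - r) ∧ (τ = true → -b + r ≤ v.2) := by
  obtain ⟨z, hz, ⟨a1, a2⟩, a3, a4⟩ := hv
  have hr' : (0:ℤ) ≤ r := Nat.cast_nonneg r
  obtain ⟨c1, c2, c3, c4⟩ := hc.inx z hz
  have d1 : (r:ℤ) * (-B + 1) ≤ r * z.1 := mul_le_mul_of_nonneg_left (by omega) hr'
  have d2 : (r:ℤ) * (z.1 + 2) ≤ r * B := mul_le_mul_of_nonneg_left (by omega) hr'
  have d3 : (r:ℤ) * (-B) ≤ r * z.2 := mul_le_mul_of_nonneg_left (by omega) hr'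
  have d4 : (r:ℤ) * (z.2 + 1) ≤ r * B := mul_le_mul_of_nonneg_left (by omega) hr'
  rw [hb]
  refine ⟨by linarith, by linarith, by linarith, by linarith, fun hτ => ?_, fun hτ => ?_⟩
  · have h1 : z.2 + 1 ≠ B := by
      intro h
      have := (hc.top z hz h).1
      rw [hτ] at this
      exact absurd this (by simp)
    have d5 : (r:ℤ) * (z.2 + 2) ≤ r * B := mul_le_mul_of_nonneg_left (by omega) hr'
    linarith
  · have h1 : z.2 ≠ -(B:ℤ) := by
      intro h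
      have := (hc.bot z hz h).1
      rw [hτ] at this
      exact absurd this (by simp)
    have d5 : (r:ℤ) * (-B + 1) ≤ r * z.2 := mul_le_mul_of_nonneg_left (by omega) hr'
    linarith

/-- The corridor meets the neighbourhood of the thin box only at its cell. -/
theorem s1d_thin {L M2 B W : ℕ} {σ : Bool} {k : ℤ} {τ : Bool} {Q : Finset (ℤ × ℤ)}
    (hc : Cor L M2 B W σ k τ Q) {r : ℕ} (hr : 1 ≤ r) {T2 m l : ℤ}
    (hT : T2 = r * (2 * L * M2)) (hm : m = r * M2) (hl : l < r) {v : Vtx} (hv : v ∈ VQ r Q)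
    (h1 : -T2 - l ≤ v.1) (h2 : v.1 ≤ T2 + l) (h3 : -m - l ≤ v.2) (h4 : v.2 ≤ m + l) :
    2 * r * k - r ≤ v.1 ∧ v.1 ≤ 2 * r * k + r ∧ (σ = true → m ≤ v.2) ∧ (σ = false → v.2 ≤ -m) := by
  obtain ⟨z, hzQ, ⟨a1, a2⟩, a3, a4⟩ := hv
  have hr' : (0:ℤ) < r := by exact_mod_cast hr
  have e1 : z.1 < 2 * L * M2 + 1 := lt_of_mul_lt_mul_left (a := (r:ℤ)) (by linarith) hr'.le
  have e2 : -(2 * L * M2 : ℤ) - 1 < z.1 + 1 :=
    lt_of_mul_lt_mul_left (a := (r:ℤ)) (by linarith) hr'.le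
  have e3 : z.2 < M2 + 1 := lt_of_mul_lt_mul_left (a := (r:ℤ)) (by linarith) hr'.le
  have e4 : -(M2 : ℤ) - 1 < z.2 + 1 :=
    lt_of_mul_lt_mul_left (a := (r:ℤ)) (by linarith) hr'.le
  obtain ⟨f1, f2⟩ := hc.avo z hzQ (by omega) (by omega) (by omega) (by omega)
  unfold hz at f1
  have g1 : (r:ℤ) * (2 * k - 1) ≤ r * z.1 :=
    mul_le_mul_of_nonneg_left (by rcases f2 with f2 | f2 <;> omega) hr'.le
  have g2 : (r:ℤ) * z.1 ≤ r * (2 * k) :=
    mul_le_mul_of_nonneg_left (by rcases f2 with f2 | f2 <;> omega) hr'.le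
  refine ⟨by linarith, by linarith, fun hσ => ?_, fun hσ => ?_⟩
  · rw [hσ, if_pos rfl] at f1
    rw [f1] at a3
    rw [hm]
    exact a3
  · rw [hσ, if_neg (by simp)] at f1
    rw [f1] at a4
    rw [hm]
    linarith

/-- The cell belongs to the corridor. -/
theorem s1d_cell {L M2 B W : ℕ} {σ : Bool} {k : ℤ} {τ : Bool} {Q : Finset (ℤ × ℤ)}
    (hc : Cor L M2 B W σ k τ Q) {r m : ℕ} (hm : m = M2 * r) {v : Vtx}
    (hv : v ∈ cell σ m (2 * r * k) r) : v ∈ VQ r Q := by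
  rw [mem_cell] at hv
  obtain ⟨h1, h2, h3⟩ := hv
  have hr' : (0:ℤ) ≤ r := Nat.cast_nonneg r
  have hm' : (m:ℤ) = M2 * r := by exact_mod_cast hm
  have hy : (r:ℤ) * hz M2 σ ≤ v.2 ∧ v.2 ≤ r * hz M2 σ + r := by
    rw [h1]
    unfold sy hz
    cases σ
    · simp only [Bool.false_eq_true, if_false]
      rw [hm']
      constructor <;> nlinarith
    · simp only [if_true]
      rw [hm']
      constructor <;> nlinarith
  by_cases hx : v.1 ≤ 2 * r * k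
  · refine ⟨_, hc.cl1, ⟨?_, ?_⟩, hy.1, hy.2⟩
    · change (r:ℤ) * (2 * k - 1) ≤ v.1
      linarith
    · change v.1 ≤ (r:ℤ) * (2 * k - 1) + r
      linarith
  · push Not at hx
    refine ⟨_, hc.cl2, ⟨?_, ?_⟩, hy.1, hy.2⟩
    · change (r:ℤ) * (2 * k) ≤ v.1
      linarith
    · change v.1 ≤ (r:ℤ) * (2 * k) + r
      linarith

/-! ### Vertical paths -/

theorem s1d_vert {G : Set Edg} {x y1 y2 : ℤ} (h12 : y1 ≤ y2)
    (h : ∀ y, y1 ≤ y → y < y2 → ((x, y, false) : Edg) ∈ G) : Reach G (x, y1) (x, y2) := by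
  obtain ⟨n, hn⟩ := Int.le.dest h12
  subst hn
  induction n with
  | zero => simpa using Reach.refl _ _
  | succ n ih =>
    have h1 := ih (by omega) (fun y hy1 hy2 => h y hy1 (by push_cast; omega))
    refine h1.trans (Adj.reach ⟨(x, y1 + n, false), h _ (by omega) (by push_cast; omega), Or.inl
      ⟨rfl, ?_⟩⟩)
    rw [tgt_false]
    congr 1
    push_cast
    ring

/-! ### Regions -/

/-- lower (`false`) or upper (`true`) outer region. -/
def s1dR (b m : ℤ) (τ : Bool) : Set Vtx :=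
  {v | if τ then (v.1 ≤ -b ∨ b ≤ v.1 ∨ b ≤ v.2) ∧ m ≤ v.2
    else (v.1 ≤ -b ∨ b ≤ v.1 ∨ v.2 ≤ -b) ∧ v.2 ≤ -m}

theorem s1dR_true {b m : ℤ} {v : Vtx} :
    v ∈ s1dR b m true ↔ (v.1 ≤ -b ∨ b ≤ v.1 ∨ b ≤ v.2) ∧ m ≤ v.2 := by
  unfold s1dR
  simp

theorem s1dR_false {b m : ℤ} {v : Vtx} :
    v ∈ s1dR b m false ↔ (v.1 ≤ -b ∨ b ≤ v.1 ∨ v.2 ≤ -b) ∧ v.2 ≤ -m := by
  unfold s1dR
  simp

/-- The invariant set of the cluster of the side `τ`. -/
theorem s1d_inv {L M2 : ℕ} {r : ℕ} (hr : 1 ≤ r) {b m T : ℤ} (hm0 : 0 < m)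
    (hT : 2 * m ≤ T) (hbT : b = 4 * T) (hb : b = r * ((4 * L * M2 : ℕ) : ℤ))
    (hmr : m = r * M2) (hT2 : 2 * T = r * (2 * L * M2))
    {τ : Bool} {σa σc : Bool} {ka kc : ℤ} {Qa Qc : Finset (ℤ × ℤ)}
    (ha : Cor L M2 (4 * L * M2) M2 σa ka τ Qa) (hc : Cor L M2 (4 * L * M2) M2 σc kc (!τ) Qc)
    (hdist : ∀ u ∈ VQ r Qa, ∀ v ∈ VQ r Qc, (r:ℤ) ≤ |u.1 - v.1| ∨ (r:ℤ) ≤ |u.2 - v.2|)
    {F0 G : Set Edg} {ca cc : Set Vtx}
    (hca : ∀ v : Vtx, 2 * r * ka - r ≤ v.1 → v.1 ≤ 2 * r * ka + r →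
      v.2 = (if σa then m else -m) → v ∈ ca)
    (hcc : ∀ v : Vtx, 2 * r * kc - r ≤ v.1 → v.1 ≤ 2 * r * kc + r →
      v.2 = (if σc then m else -m) → v ∈ cc)
    (hno : ∀ u ∈ ca, ∀ w ∈ cc, ¬ Reach F0 u w)
    (hG : ∀ g ∈ G, (g ∈ F0 ∧ inR (-(2 * T)) (2 * T) (-m) m (src g) ∧
        inR (-(2 * T)) (2 * T) (-m) m (tgt g)) ∨ g ∈ QE r Qa ∨ g ∈ QE r Qc ∨
        (src g ∈ s1dR b m τ ∧ tgt g ∈ s1dR b m τ) ∨
        (src g ∈ s1dR b m (!τ) ∧ tgt g ∈ s1dR b m (!τ)))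
    {I : Set Vtx} (hI : I ⊆ s1dR b m τ) {v : Vtx} (hv : v ∈ Cl src tgt I G) :
    v ∈ VQ r Qa ∨ v ∈ s1dR b m τ ∨ (inR (-(2 * T)) (2 * T) (-m) m v ∧ ∃ u ∈ ca, Reach F0 u v) := by
  have hr' : (0:ℤ) < r := by exact_mod_cast hr
  -- a point of the corridor in the thin box is in the cell
  have hcella : ∀ v : Vtx, v ∈ VQ r Qa → inR (-(2 * T)) (2 * T) (-m) m v → v ∈ ca := by
    rintro v hv ⟨⟨i1, i2⟩, i3, i4⟩
    obtain ⟨j1, j2, j3, j4⟩ := s1d_thin ha hr hT2 hmr (l := 0) hr' hv (by linarith) (by linarith)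
      (by linarith) (by linarith)
    refine hca v j1 j2 ?_
    cases σa
    · have := j4 rfl
      simp only [Bool.false_eq_true, if_false]
      omega
    · have := j3 rfl
      simp only [if_true]
      omega
  have hcellc : ∀ v : Vtx, v ∈ VQ r Qc → inR (-(2 * T)) (2 * T) (-m) m v → v ∈ cc := by
    rintro v hv ⟨⟨i1, i2⟩, i3, i4⟩
    obtain ⟨j1, j2, j3, j4⟩ := s1d_thin hc hr hT2 hmr (l := 0) hr' hv (by linarith) (by linarith)
      (by linarith) (by linarith)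
    refine hcc v j1 j2 ?_
    cases σc
    · have := j4 rfl
      simp only [Bool.false_eq_true, if_false]
      omega
    · have := j3 rfl
      simp only [if_true]
      omega
  -- the forbidden regions
  have hx1 : ∀ v : Vtx, v ∈ s1dR b m τ → v ∈ s1dR b m (!τ) → False := by
    intro v h1 h2
    cases τ
    · rw [s1dR_false] at h1
      rw [Bool.not_false, s1dR_true] at h2
      omega
    · rw [s1dR_true] at h1
      rw [Bool.not_true, s1dR_false] at h2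
      omega
  have hx2 : ∀ v : Vtx, v ∈ VQ r Qa → v ∈ s1dR b m (!τ) → False := by
    intro v h1 h2
    obtain ⟨i1, i2, i3, i4, i5, i6⟩ := s1d_box ha hb h1
    cases τ
    · rw [Bool.not_false, s1dR_true] at h2
      have := i5 rfl
      omega
    · rw [Bool.not_true, s1dR_false] at h2
      have := i6 rfl
      omega
  have hx3 : ∀ v : Vtx, v ∈ VQ r Qc → v ∈ s1dR b m τ → False := by
    intro v h1 h2
    obtain ⟨i1, i2, i3, i4, i5, i6⟩ := s1d_box hc hb h1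
    cases τ
    · rw [s1dR_false] at h2
      have := i6 rfl
      omega
    · rw [s1dR_true] at h2
      have := i5 rfl
      omega
  have hx4 : ∀ (τ' : Bool) (v : Vtx), inR (-(2 * T)) (2 * T) (-m) m v → v ∈ s1dR b m τ' →
      False := by
    rintro τ' v ⟨⟨i1, i2⟩, i3, i4⟩ h2
    cases τ'
    · rw [s1dR_false] at h2
      omega
    · rw [s1dR_true] at h2
      omega
  have hx5 : ∀ v : Vtx, v ∈ VQ r Qa → v ∈ VQ r Qc → False := by
    intro v h1 h2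
    have := hdist v h1 v h2
    simp at this
    omega
  have hx6 : ∀ v : Vtx, (inR (-(2 * T)) (2 * T) (-m) m v ∧ ∃ u ∈ ca, Reach F0 u v) →
      v ∈ VQ r Qc → False := by
    rintro v ⟨h1, u, hu, huv⟩ h2
    exact hno u hu v (hcellc v h2 h1) huv
  obtain ⟨u, hu, huv⟩ := hv
  induction huv with
  | refl => exact Or.inr (Or.inl (hI hu))
  | @tail y z _ hs ih =>
    obtain ⟨g, hg, hcase⟩ := hs
    -- both ends
    have key : (y = src g ∧ z = tgt g) ∨ (y = tgt g ∧ z = src g) := by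
      rcases hcase with ⟨h1, h2⟩ | ⟨h1, h2⟩
      · exact Or.inl ⟨h1.symm, h2.symm⟩
      · exact Or.inr ⟨h2.symm, h1.symm⟩
    rcases hG g hg with ⟨h1, h2, h3⟩ | h1 | h1 | ⟨h1, h2⟩ | ⟨h1, h2⟩
    · have hy : inR (-(2 * T)) (2 * T) (-m) m y := by
        rcases key with ⟨k1, -⟩ | ⟨k1, -⟩ <;> rw [k1] <;> assumption
      have hz : inR (-(2 * T)) (2 * T) (-m) m z := by
        rcases key with ⟨-, k1⟩ | ⟨-, k1⟩ <;> rw [k1] <;> assumption
      have hadj : Reach F0 y z := Adj.reach ⟨g, h1, hcase⟩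
      rcases ih with ih | ih | ⟨-, w, hw, hwy⟩
      · exact Or.inr (Or.inr ⟨hz, y, hcella y ih hy, hadj⟩)
      · exact (hx4 _ y hy ih).elim
      · exact Or.inr (Or.inr ⟨hz, w, hw, hwy.trans hadj⟩)
    · obtain ⟨h2, h3⟩ := s1d_QE_ends h1
      left
      rcases key with ⟨-, k1⟩ | ⟨-, k1⟩ <;> rw [k1] <;> assumption
    · exfalso
      obtain ⟨h2, h3⟩ := s1d_QE_ends h1
      have hy : y ∈ VQ r Qc := by
        rcases key with ⟨k1, -⟩ | ⟨k1, -⟩ <;> rw [k1] <;> assumption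
      rcases ih with ih | ih | ih
      · exact hx5 y ih hy
      · exact hx3 y hy ih
      · exact hx6 y ih hy
    · right; left
      rcases key with ⟨-, k1⟩ | ⟨-, k1⟩ <;> rw [k1] <;> assumption
    · exfalso
      have hy : y ∈ s1dR b m (!τ) := by
        rcases key with ⟨k1, -⟩ | ⟨k1, -⟩ <;> rw [k1] <;> assumption
      rcases ih with ih | ih | ⟨ih, -⟩
      · exact hx2 y ih hy
      · exact hx1 y ih hy
      · exact hx4 _ y ih hy

/-! ### The forced edges -/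

theorem s1d_RE_of_ends {a b c d : ℤ} {g : Edg} (h1 : inR a b c d (src g))
    (h2 : inR a b c d (tgt g)) : g ∈ RE a b c d := by
  unfold inR at h1 h2
  obtain ⟨x, y, _ | _⟩ := g
  · rw [mem_RE_false]
    simp only [src_mk, tgt_false] at h1 h2
    omega
  · rw [mem_RE_true]
    simp only [src_mk, tgt_true] at h1 h2
    omega

theorem s1d_mem_O {b m N : ℕ} {QV : Finset Edg} {g : Edg}
    (h1 : g ∈ boxE N) (h2 : g ∉ boxE b) (h3 : g ∉ RE (-N) N (-m) m) :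
    g ∈ boxE N \ ((boxE b \ QV) ∪ (XH b m N \ boxE b)) := by
  rw [Finset.mem_sdiff, Finset.mem_union, Finset.mem_sdiff, Finset.mem_sdiff]
  refine ⟨h1, ?_⟩
  rintro (h | h)
  · exact h2 h.1
  · unfold XH at h
    rw [Finset.mem_union] at h
    rcases h.1 with h4 | h4
    · exact h2 h4
    · exact h3 h4

/-- Ends of the edges of the vertical tubes. -/
theorem s1d_tub_ends {r B W N' : ℕ} {m b N : ℤ} (hm : m = r * W) (hb : b = r * B)
    (hN : N = r * N') {g : Edg} (hg : g ∈ QE r (tubQ B W N')) :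
    (inR (-m) m (-N) (-b) (src g) ∧ inR (-m) m (-N) (-b) (tgt g)) ∨
      (inR (-m) m b N (src g) ∧ inR (-m) m b N (tgt g)) := by
  unfold QE at hg
  rw [Finset.mem_biUnion] at hg
  obtain ⟨z, hzQ, hg⟩ := hg
  unfold tubQ at hzQ
  rw [Finset.mem_product, Finset.mem_union, Finset.mem_Ico, Finset.mem_Ico, Finset.mem_Ico] at hzQ
  obtain ⟨⟨h1, h2⟩, h3⟩ := hzQ
  obtain ⟨⟨⟨i1, i2⟩, i3, i4⟩, ⟨j1, j2⟩, j3, j4⟩ := ends_RE hg
  have hr' : (0:ℤ) ≤ r := Nat.cast_nonneg r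
  have d1 : (r:ℤ) * (-W) ≤ r * z.1 := mul_le_mul_of_nonneg_left (by omega) hr'
  have d2 : (r:ℤ) * (z.1 + 1) ≤ r * W := mul_le_mul_of_nonneg_left (by omega) hr'
  rcases h3 with ⟨h3, h4⟩ | ⟨h3, h4⟩
  · left
    have d3 : (r:ℤ) * (-N') ≤ r * z.2 := mul_le_mul_of_nonneg_left (by omega) hr'
    have d4 : (r:ℤ) * (z.2 + 1) ≤ r * (-B) := mul_le_mul_of_nonneg_left (by omega) hr'
    rw [hm, hb, hN]
    exact ⟨⟨⟨by linarith, by linarith⟩, by linarith, by linarith⟩,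
      ⟨⟨by linarith, by linarith⟩, by linarith, by linarith⟩⟩
  · right
    have d3 : (r:ℤ) * B ≤ r * z.2 := mul_le_mul_of_nonneg_left (by omega) hr'
    have d4 : (r:ℤ) * (z.2 + 1) ≤ r * N' := mul_le_mul_of_nonneg_left (by omega) hr'
    rw [hm, hb, hN]
    exact ⟨⟨⟨by linarith, by linarith⟩, by linarith, by linarith⟩,
      ⟨⟨by linarith, by linarith⟩, by linarith, by linarith⟩⟩

/-- Vertical edges of the tubes. -/
theorem s1d_tub_mem {r B W N' : ℕ} (hr : 1 ≤ r) (hW : 1 ≤ W) {b N : ℤ} (hb : b = r * B)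
    (hN : N = r * N') {y : ℤ} (hy : (-N ≤ y ∧ y < -b) ∨ (b ≤ y ∧ y < N)) :
    ((0, y, false) : Edg) ∈ QE r (tubQ B W N') := by
  have hr' : (0:ℤ) < r := by exact_mod_cast hr
  unfold QE
  rw [Finset.mem_biUnion]
  refine ⟨(0, y / r), ?_, ?_⟩
  · unfold tubQ
    rw [Finset.mem_product, Finset.mem_union, Finset.mem_Ico, Finset.mem_Ico, Finset.mem_Ico]
    refine ⟨⟨by simp, by simp only; omega⟩, ?_⟩
    rcases hy with ⟨h1, h2⟩ | ⟨h1, h2⟩
    · left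
      refine ⟨(Int.le_ediv_iff_mul_le hr').2 ?_, (Int.ediv_lt_iff_lt_mul hr').2 ?_⟩
      · rw [hN] at h1; linarith
      · rw [hb] at h2; linarith
    · right
      refine ⟨(Int.le_ediv_iff_mul_le hr').2 ?_, (Int.ediv_lt_iff_lt_mul hr').2 ?_⟩
      · rw [hb] at h1; linarith
      · rw [hN] at h2; linarith
  · unfold sqE
    rw [mem_RE_false]
    have h1 := Int.mul_ediv_add_emod y r
    have h2 := Int.emod_nonneg y hr'.ne'
    have h3 := Int.emod_lt_of_pos y hr'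
    refine ⟨by simp, by simpa using hr'.le, ?_, ?_⟩
    · change (r:ℤ) * (y / r) ≤ y
      linarith
    · change y < (r:ℤ) * (y / r) + r
      linarith

section env

variable {L M2 r m b N T : ℕ} {σ1 σ3 : Bool} {k1 k3 : ℤ} {Q1 Q3 : Finset (ℤ × ℤ)}
  {QV O : Finset Edg}

/-- The edges `QV` are forced open. -/
theorem s1d_QV_sub (hm0 : 0 < m) (hT : 2 * m ≤ T) (hbT : b = 4 * T) (hNT : N = 16 * T)
    (hmr : (m:ℤ) = r * M2) (hb : (b:ℤ) = r * ((4 * L * M2 : ℕ) : ℤ))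
    (hN : (N:ℤ) = r * ((16 * L * M2 : ℕ) : ℤ))
    (h1 : Cor L M2 (4 * L * M2) M2 σ1 k1 false Q1) (h3 : Cor L M2 (4 * L * M2) M2 σ3 k3 true Q3)
    (hQV : QV = QE r (Q1 ∪ Q3 ∪ tubQ (4 * L * M2) M2 (16 * L * M2)))
    (hO : O = boxE N \ ((boxE b \ QV) ∪ (XH b m N \ boxE b))) : QV ⊆ O := by
  intro g hg
  have hcases : g ∈ QE r Q1 ∨ g ∈ QE r Q3 ∨ g ∈ QE r (tubQ (4 * L * M2) M2 (16 * L * M2)) := by
    rw [hQV] at hg
    unfold QE at hg ⊢
    rw [Finset.mem_biUnion] at hg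
    obtain ⟨z, hz1, hz2⟩ := hg
    rw [Finset.mem_union, Finset.mem_union] at hz1
    simp only [Finset.mem_biUnion]
    rcases hz1 with (hz1 | hz1) | hz1
    · exact Or.inl ⟨z, hz1, hz2⟩
    · exact Or.inr (Or.inl ⟨z, hz1, hz2⟩)
    · exact Or.inr (Or.inr ⟨z, hz1, hz2⟩)
  have key : g ∈ boxE N ∧ (g ∈ boxE b ∨ g ∉ RE (-N) N (-m) m) := by
    rcases hcases with h | h | h
    · obtain ⟨i1, i2⟩ := s1d_QE_ends h
      obtain ⟨j1, j2, j3, j4, -, -⟩ := s1d_box h1 hb i1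
      obtain ⟨l1, l2, l3, l4, -, -⟩ := s1d_box h1 hb i2
      have hgb : g ∈ boxE b := s1d_RE_of_ends ⟨⟨by omega, by omega⟩, by omega, by omega⟩
        ⟨⟨by omega, by omega⟩, by omega, by omega⟩
      exact ⟨boxE_mono (by omega) hgb, Or.inl hgb⟩
    · obtain ⟨i1, i2⟩ := s1d_QE_ends h
      obtain ⟨j1, j2, j3, j4, -, -⟩ := s1d_box h3 hb i1
      obtain ⟨l1, l2, l3, l4, -, -⟩ := s1d_box h3 hb i2
      have hgb : g ∈ boxE b := s1d_RE_of_ends ⟨⟨by omega, by omega⟩, by omega, by omega⟩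
        ⟨⟨by omega, by omega⟩, by omega, by omega⟩
      exact ⟨boxE_mono (by omega) hgb, Or.inl hgb⟩
    · rcases s1d_tub_ends hmr hb hN h with ⟨⟨⟨i1, i2⟩, i3, i4⟩, ⟨j1, j2⟩, j3, j4⟩ |
        ⟨⟨⟨i1, i2⟩, i3, i4⟩, ⟨j1, j2⟩, j3, j4⟩
      · refine ⟨s1d_RE_of_ends ⟨⟨by omega, by omega⟩, by omega, by omega⟩
          ⟨⟨by omega, by omega⟩, by omega, by omega⟩, Or.inr fun hc => ?_⟩
        obtain ⟨⟨-, l3, l4⟩, -⟩ := ends_RE hc
        omega
      · refine ⟨s1d_RE_of_ends ⟨⟨by omega, by omega⟩, by omega, by omega⟩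
          ⟨⟨by omega, by omega⟩, by omega, by omega⟩, Or.inr fun hc => ?_⟩
        obtain ⟨⟨-, l3, l4⟩, -⟩ := ends_RE hc
        omega
  rw [hO, Finset.mem_sdiff, Finset.mem_union, Finset.mem_sdiff, Finset.mem_sdiff]
  refine ⟨key.1, ?_⟩
  rintro (h | h)
  · exact h.2 hg
  · rcases key.2 with h4 | h4
    · exact h.2 h4
    · unfold XH at h
      rw [Finset.mem_union] at h
      rcases h.1 with h5 | h5
      · exact h.2 h5
      · exact h4 h5

/-- Classification of the edges outside. -/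
theorem s1d_out {g : Edg} (hm0 : 0 < m) (hmb : m ≤ b) (h1 : g ∈ boxE N) (h2 : g ∉ boxE b)
    (h3 : g ∉ RE (-N) N (-m) m) :
    (src g ∈ s1dR b m false ∧ tgt g ∈ s1dR b m false) ∨
      (src g ∈ s1dR b m true ∧ tgt g ∈ s1dR b m true) := by
  rw [s1dR_false, s1dR_false, s1dR_true, s1dR_true]
  unfold boxE at h1 h2
  obtain ⟨x, y, _ | _⟩ := g
  · rw [mem_RE_false] at h1 h2 h3
    simp only [src_mk, tgt_false]
    omega
  · rw [mem_RE_true] at h1 h2 h3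
    simp only [src_mk, tgt_true]
    omega

theorem s1d_O_out (hO : O = boxE N \ ((boxE b \ QV) ∪ (XH b m N \ boxE b))) {g : Edg}
    (hg : g ∈ O) (hgQ : g ∉ QV) : g ∈ boxE N ∧ g ∉ boxE b ∧ g ∉ RE (-N) N (-m) m := by
  rw [hO, Finset.mem_sdiff, Finset.mem_union, Finset.mem_sdiff, Finset.mem_sdiff] at hg
  obtain ⟨h1, h2⟩ := hg
  have h3 : g ∉ boxE b := fun h => h2 (Or.inl ⟨h, hgQ⟩)
  refine ⟨h1, h3, fun h => h2 (Or.inr ⟨?_, h3⟩)⟩
  unfold XH
  exact Finset.mem_union_right _ h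

/-- A straight way down. -/
theorem s1d_col_low (hmb : m ≤ b) (hbN : b < N)
    (hO : O = boxE N \ ((boxE b \ QV) ∪ (XH b m N \ boxE b))) {x y : ℤ}
    (hx1 : -(N:ℤ) ≤ x) (hx2 : x ≤ N) (hy : -(N:ℤ) ≤ y) (hym : y ≤ -(m:ℤ))
    (hc : x < -b ∨ (b:ℤ) < x ∨ y ≤ -b) : Reach (↑O : Set Edg) (x, -(N:ℤ)) (x, y) := by
  refine s1d_vert hy fun y' h1 h2 => ?_
  rw [Finset.mem_coe, hO]
  refine s1d_mem_O ?_ ?_ ?_
  · unfold boxE
    rw [mem_RE_false]; omega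
  · unfold boxE
    rw [mem_RE_false]; omega
  · rw [mem_RE_false]; omega

/-- A straight way up. -/
theorem s1d_col_up (hmb : m ≤ b) (hbN : b < N)
    (hO : O = boxE N \ ((boxE b \ QV) ∪ (XH b m N \ boxE b))) {x y : ℤ}
    (hx1 : -(N:ℤ) ≤ x) (hx2 : x ≤ N) (hy : y ≤ (N:ℤ)) (hym : (m:ℤ) ≤ y)
    (hc : x < -b ∨ (b:ℤ) < x ∨ (b:ℤ) ≤ y) : Reach (↑O : Set Edg) (x, y) (x, (N:ℤ)) := by
  refine s1d_vert hy fun y' h1 h2 => ?_
  rw [Finset.mem_coe, hO]
  refine s1d_mem_O ?_ ?_ ?_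
  · unfold boxE
    rw [mem_RE_false]; omega
  · unfold boxE
    rw [mem_RE_false]; omega
  · rw [mem_RE_false]; omega

/-- The outer forced edges are attached. -/
theorem s1d_att_out (hm0 : 0 < m) (hmb : m ≤ b) (hbN : b < N)
    (hO : O = boxE N \ ((boxE b \ QV) ∪ (XH b m N \ boxE b))) {g : Edg}
    (hg : g ∈ O) (hgQ : g ∉ QV) :
    (∃ x : ℤ, Reach (↑O : Set Edg) (x, -(N:ℤ)) (src g)) ∨
      ∃ x : ℤ, Reach (↑O : Set Edg) (x, (N:ℤ)) (src g) := by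
  obtain ⟨h1, h2, h3⟩ := s1d_O_out hO hg hgQ
  have hback : Reach (↑O : Set Edg) (tgt g) (src g) := Adj.reach ⟨g, hg, Or.inr ⟨rfl, rfl⟩⟩
  unfold boxE at h1 h2
  obtain ⟨x, y, _ | _⟩ := g
  · rw [mem_RE_false] at h1 h2 h3
    rw [src_mk]
    rcases le_total y 0 with hy0 | hy0
    · left
      exact ⟨x, s1d_col_low hmb hbN hO (by omega) (by omega) (by omega) (by omega) (by omega)⟩
    · right
      exact ⟨x, (s1d_col_up hmb hbN hO (by omega) (by omega) (by omega) (by omega)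
        (by omega)).symm⟩
  · rw [mem_RE_true] at h1 h2 h3
    rw [src_mk, tgt_true] at hback
    rw [src_mk]
    rcases le_total y 0 with hy0 | hy0
    · left
      by_cases hxb : x = b ∧ -(b:ℤ) < y
      · exact ⟨x + 1, (s1d_col_low hmb hbN hO (by omega) (by omega) (by omega) (by omega)
          (by omega)).trans hback⟩
      · exact ⟨x, s1d_col_low hmb hbN hO (by omega) (by omega) (by omega) (by omega) (by omega)⟩
    · right
      by_cases hxb : x = b ∧ y < (b:ℤ)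
      · exact ⟨x + 1, (s1d_col_up hmb hbN hO (by omega) (by omega) (by omega) (by omega)
          (by omega)).symm.trans hback⟩
      · exact ⟨x, (s1d_col_up hmb hbN hO (by omega) (by omega) (by omega) (by omega)
          (by omega)).symm⟩

end env

/-! ### Assembly -/

section core

variable {L M2 r m b N T ρ l : ℕ} {σ1 σ3 : Bool} {k1 k3 : ℤ} {Q1 Q3 : Finset (ℤ × ℤ)}
  {QV O : Finset Edg}

/-- The statement with the bottom cell `(σ1,k1)` and the top cell `(σ3,k3)`. -/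
theorem s1d_core (hr : 1 ≤ r) (hl : 1 ≤ l) (hlr : 16 * l ≤ r) (hM2 : 512 ≤ M2) (hm : m = M2 * r)
    (hLT : T = L * m) (hT : 2 * m ≤ T) (hbT : b = 4 * T) (hNT : N = 16 * T)
    (hρ1 : 8 * r ≤ ρ) (hρ2 : 64 * ρ ≤ m)
    (h1 : Cor L M2 (4 * L * M2) M2 σ1 k1 false Q1) (h3 : Cor L M2 (4 * L * M2) M2 σ3 k3 true Q3)
    (hsep : SepQ Q1 Q3)
    (hQV : QV = QE r (Q1 ∪ Q3 ∪ tubQ (4 * L * M2) M2 (16 * L * M2)))
    (hO : O = boxE N \ ((boxE b \ QV) ∪ (XH b m N \ boxE b))) {F : Finset Edg}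
    (hF : F ⊆ RE (-(2 * T : ℕ)) (2 * T : ℕ) (-m) m) {e : Edg} (he : e ∈ boxE 1)
    (hcon : ∃ u ∈ cell σ1 m (2 * r * k1) r, ∃ w ∈ cell σ3 m (2 * r * k3) r,
      Reach (insert e (↑F : Set Edg)) u w)
    (hb1 : ∀ u ∈ cell σ1 m (2 * r * k1) r, ∀ w ∈ cell σ3 m (2 * r * k3) (2 * ρ),
      ¬ Reach ((↑F : Set Edg) \ {e}) u w)
    (hb3 : ∀ u ∈ cell σ3 m (2 * r * k3) r, ∀ w ∈ cell σ1 m (2 * r * k1) (2 * ρ),
      ¬ Reach ((↑F : Set Edg) \ {e}) u w)
    (hland : ∀ u ∈ cell σ1 m (2 * r * k1) r, ∀ u' ∈ cell σ3 m (2 * r * k3) r, ∀ v v' : Vtx,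
      Reach ((↑F : Set Edg) \ {e}) u v → Reach ((↑F : Set Edg) \ {e}) u' v' →
      |v.2| = m → v'.2 = v.2 → (ρ:ℤ) < |v.1 - v'.1|)
    (hfar1 : ∀ u ∈ cell σ1 m (2 * r * k1) r, ∀ v : Vtx,
      Reach ((↑F : Set Edg) \ {e}) u v → |v.1| ≤ T + 2 * ρ)
    (hfar3 : ∀ u ∈ cell σ3 m (2 * r * k3) r, ∀ v : Vtx,
      Reach ((↑F : Set Edg) \ {e}) u v → |v.1| ≤ T + 2 * ρ) :
    Cn (botV N) (topV N) (insert e ((↑(F \ QV) : Set Edg) ∪ ↑QV)) ∧
      ¬ Cn (botV N) (topV N) (((↑(F \ QV) : Set Edg) ∪ ↑O) \ {e}) ∧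
      NFar src tgt (botV N) (topV N) e
        (↑(boxE b \ (RE (-(2 * T : ℕ)) (2 * T : ℕ) (-m) m ∪ QV)) : Set Edg) (Nr (4 * l))
        ((↑(F \ QV) : Set Edg) ∪ ↑O) ∧
      ∀ g ∈ O, src g ∈ Cl src tgt (botV N) (((↑(F \ QV) : Set Edg) ∪ ↑O) \ {e}) ∨
        src g ∈ Cl src tgt (topV N) (((↑(F \ QV) : Set Edg) ∪ ↑O) \ {e}) := by
  -- numbers
  have hmr : (m:ℤ) = r * M2 := by rw [hm]; push_cast; ring
  have hb : (b:ℤ) = r * ((4 * L * M2 : ℕ) : ℤ) := by rw [hbT, hLT, hm]; push_cast; ring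
  have hN : (N:ℤ) = r * ((16 * L * M2 : ℕ) : ℤ) := by rw [hNT, hLT, hm]; push_cast; ring
  have hT2 : 2 * (T:ℤ) = r * (2 * L * M2) := by rw [hLT, hm]; push_cast; ring
  have hm0 : 0 < m := by omega
  have hr' : (0:ℤ) < r := by exact_mod_cast hr
  have hmz : (0:ℤ) < m := by exact_mod_cast hm0
  have hTz : 2 * (m:ℤ) ≤ T := by exact_mod_cast hT
  have hbz : (b:ℤ) = 4 * T := by rw [hbT]; push_cast; ring
  have hcast : ((2 * T : ℕ) : ℤ) = 2 * T := by push_cast; ring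
  rw [hcast] at hF ⊢
  have hQVO : QV ⊆ O := s1d_QV_sub hm0 hT hbT hNT hmr hb hN h1 h3 hQV hO
  have hQmem : ∀ g, g ∈ QV ↔ g ∈ QE r Q1 ∨ g ∈ QE r Q3 ∨
      g ∈ QE r (tubQ (4 * L * M2) M2 (16 * L * M2)) := by
    intro g
    rw [hQV]
    unfold QE
    rw [Finset.mem_biUnion, Finset.mem_biUnion, Finset.mem_biUnion, Finset.mem_biUnion]
    constructor
    · rintro ⟨z, hz1, hz2⟩
      rw [Finset.mem_union, Finset.mem_union] at hz1
      rcases hz1 with (hz1 | hz1) | hz1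
      · exact Or.inl ⟨z, hz1, hz2⟩
      · exact Or.inr (Or.inl ⟨z, hz1, hz2⟩)
      · exact Or.inr (Or.inr ⟨z, hz1, hz2⟩)
    · rintro (⟨z, hz1, hz2⟩ | ⟨z, hz1, hz2⟩ | ⟨z, hz1, hz2⟩)
      · exact ⟨z, Finset.mem_union_left _ (Finset.mem_union_left _ hz1), hz2⟩
      · exact ⟨z, Finset.mem_union_left _ (Finset.mem_union_right _ hz1), hz2⟩
      · exact ⟨z, Finset.mem_union_right _ hz1, hz2⟩
  -- classification of `O`
  have hOcl : ∀ g ∈ O, g ∈ QE r Q1 ∨ g ∈ QE r Q3 ∨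
      (src g ∈ s1dR b m false ∧ tgt g ∈ s1dR b m false) ∨
      (src g ∈ s1dR b m true ∧ tgt g ∈ s1dR b m true) := by
    intro g hg
    by_cases hgQ : g ∈ QV
    · rcases (hQmem g).1 hgQ with h | h | h
      · exact Or.inl h
      · exact Or.inr (Or.inl h)
      · right; right
        rw [s1dR_false, s1dR_false, s1dR_true, s1dR_true]
        rcases s1d_tub_ends hmr hb hN h with ⟨⟨⟨i1, i2⟩, i3, i4⟩, ⟨j1, j2⟩, j3, j4⟩ |
          ⟨⟨⟨i1, i2⟩, i3, i4⟩, ⟨j1, j2⟩, j3, j4⟩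
        · left; omega
        · right; omega
    · obtain ⟨i1, i2, i3⟩ := s1d_O_out hO hg hgQ
      rcases s1d_out hm0 (by omega) i1 i2 i3 with h | h
      · exact Or.inr (Or.inr (Or.inl h))
      · exact Or.inr (Or.inr (Or.inr h))
  -- the edge `e` is not forced
  have hse : inR (-1) 1 (-1) 1 (src e) := by
    have := (ends_RE he).1
    simpa using this
  have heO : e ∉ O := by
    intro heO
    obtain ⟨⟨s1, s2⟩, s3, s4⟩ := hse
    rcases hOcl e heO with h | h | ⟨h, -⟩ | ⟨h, -⟩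
    · obtain ⟨i1, i2⟩ := s1d_QE_ends h
      obtain ⟨-, -, j3, j4⟩ := s1d_thin h1 hr hT2 hmr (l := 0) hr' i1 (by omega) (by omega)
        (by omega) (by omega)
      cases σ1
      · have := j4 rfl
        omega
      · have := j3 rfl
        omega
    · obtain ⟨i1, i2⟩ := s1d_QE_ends h
      obtain ⟨-, -, j3, j4⟩ := s1d_thin h3 hr hT2 hmr (l := 0) hr' i1 (by omega) (by omega)
        (by omega) (by omega)
      cases σ3
      · have := j4 rfl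
        omega
      · have := j3 rfl
        omega
    · rw [s1dR_false] at h
      omega
    · rw [s1dR_true] at h
      omega
  obtain ⟨G, hG⟩ : ∃ G : Set Edg, G = ((↑(F \ QV) : Set Edg) ∪ ↑O) \ {e} := ⟨_, rfl⟩
  have hOG : (↑O : Set Edg) ⊆ G := by
    intro g hg
    rw [hG]
    refine ⟨Or.inr hg, ?_⟩
    rintro (rfl : g = e)
    exact heO hg
  -- membership in cells
  have hcellmem : ∀ (σ : Bool) (k : ℤ) (v : Vtx), 2 * r * k - r ≤ v.1 → v.1 ≤ 2 * r * k + r →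
      v.2 = (if σ then (m:ℤ) else -m) → v ∈ cell σ m (2 * r * k) r := by
    intro σ k v i1 i2 i3
    rw [mem_cell]
    exact ⟨i3, i1, i2⟩
  have hcell2 : ∀ (σ : Bool) (k : ℤ) (v : Vtx), v ∈ cell σ m (2 * r * k) r →
      v ∈ cell σ m (2 * r * k) (2 * ρ) := by
    intro σ k v hv
    rw [mem_cell] at hv ⊢
    push_cast
    omega
  have hd13 : ∀ u ∈ VQ r Q1, ∀ v ∈ VQ r Q3, (r:ℤ) ≤ |u.1 - v.1| ∨ (r:ℤ) ≤ |u.2 - v.2| :=
    fun u hu v hv => s1d_VQ_dist hr hsep hu hv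
  have hd31 : ∀ u ∈ VQ r Q3, ∀ v ∈ VQ r Q1, (r:ℤ) ≤ |u.1 - v.1| ∨ (r:ℤ) ≤ |u.2 - v.2| := by
    intro u hu v hv
    rw [abs_sub_comm u.1, abs_sub_comm u.2]
    exact hd13 v hv u hu
  have hGF : ∀ g ∈ G, (g ∈ (↑F : Set Edg) \ {e} ∧ inR (-(2 * T)) (2 * T) (-m) m (src g) ∧
      inR (-(2 * T)) (2 * T) (-m) m (tgt g)) ∨ g ∈ O := by
    intro g hg
    rw [hG] at hg
    obtain ⟨hg1 | hg1, hg2⟩ := hg
    · left
      rw [Finset.mem_coe, Finset.mem_sdiff] at hg1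
      exact ⟨⟨hg1.1, hg2⟩, ends_RE (hF hg1.1)⟩
    · exact Or.inr hg1
  have hI1 : botV N ⊆ s1dR b m false := by
    intro v hv
    have : v.2 = -(N:ℤ) := hv
    rw [s1dR_false]
    omega
  have hI3 : topV N ⊆ s1dR b m true := by
    intro v hv
    have : v.2 = (N:ℤ) := hv
    rw [s1dR_true]
    omega
  have inv1 : ∀ v ∈ Cl src tgt (botV N) G, v ∈ VQ r Q1 ∨ v ∈ s1dR b m false ∨
      (inR (-(2 * T)) (2 * T) (-m) m v ∧ ∃ u ∈ cell σ1 m (2 * r * k1) r,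
        Reach ((↑F : Set Edg) \ {e}) u v) := by
    intro v hv
    refine s1d_inv hr hmz hTz hbz hb hmr hT2 (τ := false) h1 h3 hd13 (hcellmem σ1 k1)
      (hcellmem σ3 k3) (fun u hu w hw => hb1 u hu w (hcell2 _ _ _ hw)) ?_ hI1 hv
    intro g hg
    rcases hGF g hg with h | h
    · exact Or.inl h
    · exact Or.inr (hOcl g h)
  have inv3 : ∀ v ∈ Cl src tgt (topV N) G, v ∈ VQ r Q3 ∨ v ∈ s1dR b m true ∨
      (inR (-(2 * T)) (2 * T) (-m) m v ∧ ∃ u ∈ cell σ3 m (2 * r * k3) r,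
        Reach ((↑F : Set Edg) \ {e}) u v) := by
    intro v hv
    refine s1d_inv hr hmz hTz hbz hb hmr hT2 (τ := true) h3 h1 hd31 (hcellmem σ3 k3)
      (hcellmem σ1 k1) (fun u hu w hw => hb3 u hu w (hcell2 _ _ _ hw)) ?_ hI3 hv
    intro g hg
    rcases hGF g hg with h | h
    · exact Or.inl h
    · rcases hOcl g h with h | h | h | h
      · exact Or.inr (Or.inr (Or.inl h))
      · exact Or.inr (Or.inl h)
      · exact Or.inr (Or.inr (Or.inr (Or.inr h)))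
      · exact Or.inr (Or.inr (Or.inr (Or.inl h)))
  -- mouths
  have hm1 : ((0, -(b:ℤ)) : Vtx) ∈ VQ r Q1 := by
    refine ⟨_, h1.mou 0 (by simp) (by omega), ⟨?_, ?_⟩, ?_, ?_⟩
    · simp
    · simp
    · simp only [Bool.false_eq_true, if_false]
      rw [hb]; linarith
    · simp only [Bool.false_eq_true, if_false]
      rw [hb]; linarith
  have hm3 : ((0, (b:ℤ)) : Vtx) ∈ VQ r Q3 := by
    refine ⟨_, h3.mou 0 (by simp) (by omega), ⟨?_, ?_⟩, ?_, ?_⟩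
    · simp
    · simp
    · simp only [if_true]
      rw [hb]; linarith
    · simp only [if_true]
      rw [hb]; linarith
  have hq1 : (↑(QE r Q1) : Set Edg) ⊆ ↑QV := by
    intro g hg
    exact (hQmem g).2 (Or.inl hg)
  have hq3 : (↑(QE r Q3) : Set Edg) ⊆ ↑QV := by
    intro g hg
    exact (hQmem g).2 (Or.inr (Or.inl hg))
  have ht1 : Reach (↑QV : Set Edg) (0, -(N:ℤ)) (0, -(b:ℤ)) := by
    refine s1d_vert (by omega) fun y i1 i2 => ?_
    exact (hQmem _).2 (Or.inr (Or.inr (s1d_tub_mem hr (by omega) hb hN (Or.inl ⟨i1, i2⟩))))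
  have ht3 : Reach (↑QV : Set Edg) (0, (b:ℤ)) (0, (N:ℤ)) := by
    refine s1d_vert (by omega) fun y i1 i2 => ?_
    exact (hQmem _).2 (Or.inr (Or.inr (s1d_tub_mem hr (by omega) hb hN (Or.inr ⟨i1, i2⟩))))
  refine ⟨?_, ?_, ?_, ?_⟩
  · -- connection
    obtain ⟨u, hu, w, hw, huw⟩ := hcon
    have s1 : (↑QV : Set Edg) ⊆ insert e ((↑(F \ QV) : Set Edg) ∪ ↑QV) :=
      fun g hg => Or.inr (Or.inr hg)
    have s2 : insert e (↑F : Set Edg) ⊆ insert e ((↑(F \ QV) : Set Edg) ∪ ↑QV) := by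
      rintro g (rfl | hg)
      · exact Or.inl rfl
      · right
        by_cases hgQ : g ∈ QV
        · exact Or.inr hgQ
        · left
          rw [Finset.mem_coe, Finset.mem_sdiff]
          exact ⟨hg, hgQ⟩
    have p1 : Reach (↑QV : Set Edg) (0, -(b:ℤ)) u :=
      (h1.con r hr _ hm1 _ (s1d_cell h1 hm hu)).mono hq1
    have p3 : Reach (↑QV : Set Edg) w (0, (b:ℤ)) :=
      (h3.con r hr _ (s1d_cell h3 hm hw) _ hm3).mono hq3
    exact ⟨(0, -(N:ℤ)), rfl, (0, (N:ℤ)), rfl,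
      ((((ht1.trans p1).mono s1).trans (huw.mono s2)).trans (p3.mono s1)).trans (ht3.mono s1)⟩
  · -- no connection
    rw [← hG]
    rintro ⟨u, hu, v, hv, huv⟩
    have hv2 : v.2 = (N:ℤ) := hv
    rcases inv1 v ⟨u, hu, huv⟩ with h | h | ⟨⟨-, h4, h5⟩, -⟩
    · obtain ⟨-, -, -, j4, -, -⟩ := s1d_box h1 hb h
      omega
    · rw [s1dR_false] at h
      omega
    · omega
  · -- separation
    intro v hv w hw hvD hwD hnear
    rw [← hG] at hv hw
    obtain ⟨n1, n2⟩ := hnear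
    rw [abs_le] at n1 n2
    -- the edges of `D` are outside the thin box
    have hbd : ∀ x : Vtx, x ∈ VD src tgt
        (↑(boxE b \ (RE (-(2 * T)) (2 * T) (-m) m ∪ QV)) : Set Edg) →
        inR (-(2 * T)) (2 * T) (-m) m x → |x.1| ≤ T + 2 * ρ → x.2 = m ∨ x.2 = -m := by
      rintro x ⟨g, hg, hgx⟩ ⟨⟨i1, i2⟩, i3, i4⟩ i5
      rw [Finset.mem_coe, Finset.mem_sdiff, Finset.mem_union] at hg
      rw [abs_le] at i5
      by_contra hcon2
      push Not at hcon2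
      apply hg.2
      left
      obtain ⟨gx, gy, _ | _⟩ := g
      · rw [mem_RE_false]
        simp only [src_mk, tgt_false] at hgx
        rcases hgx with rfl | rfl <;> simp only at * <;> omega
      · rw [mem_RE_true]
        simp only [src_mk, tgt_true] at hgx
        rcases hgx with rfl | rfl <;> simp only at * <;> omega
    -- a corridor near a landing point of the other cluster
    have hmix : ∀ (σ : Bool) (k : ℤ) (τ : Bool) (Q : Finset (ℤ × ℤ)),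
        Cor L M2 (4 * L * M2) M2 σ k τ Q → ∀ x y : Vtx, x ∈ VQ r Q →
        (y.2 = m ∨ y.2 = -m) → |y.1| ≤ T + 2 * ρ → -(4 * (l:ℤ)) ≤ x.1 - y.1 →
        x.1 - y.1 ≤ 4 * l → -(4 * (l:ℤ)) ≤ x.2 - y.2 → x.2 - y.2 ≤ 4 * l →
        y ∈ cell σ m (2 * r * k) (2 * ρ) := by
      intro σ k τ Q hc x y hx hy1 hy2 d1 d2 d3 d4
      rw [abs_le] at hy2
      obtain ⟨j1, j2, j3, j4⟩ := s1d_thin hc hr hT2 hmr (l := 4 * l) (by omega) hx (by omega)
        (by omega) (by omega) (by omega)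
      rw [mem_cell]
      unfold sy
      cases σ
      · have := j4 rfl
        simp only [Bool.false_eq_true, if_false]
        push_cast
        omega
      · have := j3 rfl
        simp only [if_true]
        push_cast
        omega
    rcases inv1 v hv with h | h | ⟨h, u, hu, huv⟩
    · rcases inv3 w hw with h' | h' | ⟨h', u', hu', huw⟩
      · have := hd13 v h w h'
        rw [le_abs, le_abs] at this
        omega
      · obtain ⟨j1, j2, j3, j4, j5, -⟩ := s1d_box h1 hb h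
        have := j5 rfl
        rw [s1dR_true] at h'
        omega
      · have hf := hfar3 u' hu' w huw
        have hy := hbd w hwD h' hf
        exact hb3 u' hu' w (hmix σ1 k1 false Q1 h1 v w h hy hf (by omega) (by omega)
          (by omega) (by omega)) huw
    · rcases inv3 w hw with h' | h' | ⟨⟨⟨i1, i2⟩, i3, i4⟩, u', hu', huw⟩
      · obtain ⟨j1, j2, j3, j4, -, j6⟩ := s1d_box h3 hb h'
        have := j6 rfl
        rw [s1dR_false] at h
        omega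
      · rw [s1dR_false] at h
        rw [s1dR_true] at h'
        omega
      · have hf := hfar3 u' hu' w huw
        rw [abs_le] at hf
        rw [s1dR_false] at h
        have hy := hbd w hwD ⟨⟨i1, i2⟩, i3, i4⟩ (abs_le.2 hf)
        omega
    · have hf := hfar1 u hu v huv
      have hy := hbd v hvD h hf
      rcases inv3 w hw with h' | h' | ⟨h', u', hu', huw⟩
      · exact hb1 u hu v (hmix σ3 k3 true Q3 h3 w v h' hy hf (by omega) (by omega)
          (by omega) (by omega)) huv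
      · rw [abs_le] at hf
        rw [s1dR_true] at h'
        obtain ⟨⟨i1, i2⟩, i3, i4⟩ := h
        omega
      · have hf' := hfar3 u' hu' w huw
        have hy' := hbd w hwD h' hf'
        have hland' := hland u hu u' hu' v w huv huw
          (by
            rcases hy with hy | hy
            · rw [hy, abs_of_pos hmz]
            · rw [hy, abs_neg, abs_of_pos hmz]) (by omega)
        rw [lt_abs] at hland'
        omega
  · -- attachment
    intro g hg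
    rw [← hG]
    have fin : (∃ x : ℤ, Reach (↑O : Set Edg) (x, -(N:ℤ)) (src g)) ∨
        ∃ x : ℤ, Reach (↑O : Set Edg) (x, (N:ℤ)) (src g) := by
      by_cases hgQ : g ∈ QV
      · have hQO : (↑QV : Set Edg) ⊆ ↑O := by exact_mod_cast hQVO
        rcases (hQmem g).1 hgQ with h | h | h
        · left
          exact ⟨0, (ht1.trans ((h1.con r hr _ hm1 _ (s1d_QE_ends h).1).mono hq1)).mono hQO⟩
        · right
          exact ⟨0, (ht3.symm.trans ((h3.con r hr _ hm3 _ (s1d_QE_ends h).1).mono hq3)).mono hQO⟩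
        · obtain ⟨sx, sy', sb⟩ := g
          rw [src_mk]
          rcases s1d_tub_ends hmr hb hN h with ⟨⟨⟨i1, i2⟩, i3, i4⟩, -⟩ |
            ⟨⟨⟨i1, i2⟩, i3, i4⟩, -⟩
          · left
            rw [src_mk] at i1 i2 i3 i4
            simp only at i1 i2 i3 i4
            exact ⟨sx, s1d_col_low (m := m) (b := b) (by omega) (by omega) hO (by omega)
              (by omega) (by omega) (by omega) (by omega)⟩
          · right
            rw [src_mk] at i1 i2 i3 i4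
            simp only at i1 i2 i3 i4
            exact ⟨sx, (s1d_col_up (m := m) (b := b) (by omega) (by omega) hO (by omega)
              (by omega) (by omega) (by omega) (by omega)).symm⟩
      · exact s1d_att_out hm0 (by omega) (by omega) hO hg hgQ
    rcases fin with ⟨x, hx⟩ | ⟨x, hx⟩
    · left
      exact ⟨(x, -(N:ℤ)), rfl, hx.mono hOG⟩
    · right
      exact ⟨(x, (N:ℤ)), rfl, hx.mono hOG⟩

end core

theorem step1_det {L M1 M2 : ℕ} (hL : 2 ≤ L) (hM1 : 64 ≤ M1) (hM2 : 8 * M1 ≤ M2) {r m b N l : ℕ}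
    (hl : 1 ≤ l) (hlr : 16 * l ≤ r) (hm : m = M2 * r) (hb : b = 4 * L * m) (hN : N = 16 * L * m)
    {σ σ' : Bool} {k k' : ℤ} {Q1 Q3 : Finset (ℤ × ℤ)} (hsep : SepQ Q1 Q3)
    (hcor : (Cor L M2 (4 * L * M2) M2 σ k false Q1 ∧ Cor L M2 (4 * L * M2) M2 σ' k' true Q3) ∨
        (Cor L M2 (4 * L * M2) M2 σ' k' false Q1 ∧ Cor L M2 (4 * L * M2) M2 σ k true Q3))
    {β : Bool} {QV O : Finset Edg} (hQV : QV = QE r (Q1 ∪ Q3 ∪ tubQ (4 * L * M2) M2 (16 * L * M2)))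
    (hO : O = boxE N \ ((boxE b \ QV) ∪ (XH b m N \ boxE b))) {F : Finset Edg} (hF : F ⊆ SR L m)
    (hS : Sev L m r (m / M1) σ (2 * r * k) σ' (2 * r * k') (e0 β) (↑F : Set Edg)) :
    Cn (botV N) (topV N) (insert (e0 β) ((↑(F \ QV) : Set Edg) ∪ ↑QV)) ∧
      ¬ Cn (botV N) (topV N) (((↑(F \ QV) : Set Edg) ∪ ↑O) \ {e0 β}) ∧
      NFar src tgt (botV N) (topV N) (e0 β) (↑(boxE b \ (SR L m ∪ QV)) : Set Edg) (Nr (4 * l))
        ((↑(F \ QV) : Set Edg) ∪ ↑O) ∧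
      ∀ g ∈ O, src g ∈ Cl src tgt (botV N) (((↑(F \ QV) : Set Edg) ∪ ↑O) \ {e0 β}) ∨
        src g ∈ Cl src tgt (topV N) (((↑(F \ QV) : Set Edg) ∪ ↑O) \ {e0 β}) := by
  obtain ⟨⟨⟨u1, hu1, hr1⟩, ⟨u3, hu3, hr3⟩, hq1, hq3⟩, hland, hfar⟩ := hS
  have hSR : SR L m = RE (-(2 * (L * m) : ℕ)) (2 * (L * m) : ℕ) (-m) m := by
    unfold SR
    rw [Nat.mul_assoc]
  have h512 : 512 ≤ M2 := by omega
  have hr0 : 1 ≤ r := by omega
  have hLm : 2 * m ≤ L * m := Nat.mul_le_mul_right m hL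
  have hbT : b = 4 * (L * m) := by rw [hb]; ring
  have hNT : N = 16 * (L * m) := by rw [hN]; ring
  have hρ1 : 8 * r ≤ m / M1 := by
    rw [Nat.le_div_iff_mul_le (by omega), hm]
    calc 8 * r * M1 = (8 * M1) * r := by ring
      _ ≤ M2 * r := Nat.mul_le_mul_right r hM2
  have hρ2 : 64 * (m / M1) ≤ m := by
    calc 64 * (m / M1) ≤ M1 * (m / M1) := Nat.mul_le_mul_right _ hM1
      _ ≤ m := Nat.mul_div_le m M1
  have he : e0 β ∈ boxE 1 := by
    unfold e0 boxE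
    cases β <;> simp
  have hsub : ((↑F : Set Edg) \ {e0 β}) ⊆ insert (e0 β) (↑F : Set Edg) := fun g hg =>
    Or.inr hg.1
  have hstep : Reach (insert (e0 β) (↑F : Set Edg)) (src (e0 β)) (tgt (e0 β)) :=
    Adj.reach ⟨e0 β, Or.inl rfl, Or.inl ⟨rfl, rfl⟩⟩
  have hconn : Reach (insert (e0 β) (↑F : Set Edg)) u1 u3 :=
    ((hr1.mono hsub).symm.trans hstep).trans (hr3.mono hsub)
  have hcast : ((L * m : ℕ) : ℤ) = ((L * m : ℕ) : ℤ) := rfl
  rw [hSR] at hF ⊢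
  rcases hcor with ⟨c1, c3⟩ | ⟨c1, c3⟩
  · exact s1d_core (T := L * m) (ρ := m / M1) hr0 hl hlr h512 hm rfl hLm hbT hNT hρ1 hρ2 c1 c3
      hsep hQV hO hF he ⟨u1, hu1, u3, hu3, hconn⟩ hq1 hq3 hland
      (fun u hu v hv => hfar u (Or.inl hu) v hv) (fun u hu v hv => hfar u (Or.inr hu) v hv)
  · refine s1d_core (T := L * m) (ρ := m / M1) hr0 hl hlr h512 hm rfl hLm hbT hNT hρ1 hρ2 c1 c3
      hsep hQV hO hF he ⟨u3, hu3, u1, hu1, hconn.symm⟩ hq3 hq1 ?_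
      (fun u hu v hv => hfar u (Or.inr hu) v hv) (fun u hu v hv => hfar u (Or.inl hu) v hv)
    intro u hu u' hu' v v' h1 h2 h3 h4
    rw [abs_sub_comm]
    exact hland u' hu' u hu v' v h2 h1 (by rw [h4]; exact h3) h4.symm

end H12S
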