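import Pool.Agent.H12R2.Sep.Fail2P
import Pool.Agent.H12R2.Sep.Fail2
import Pool.Agent.H12R2.Sep.TrapP
import Pool.Agent.H12R2.Sep.Unforce2

/-!
Task S2 (helper227): the closing step.
-/

namespace H12S

open H974 Finset

open FP2 EP2 in
theorem step2 (κ : ℝ) (hκ : 0 < κ) (K : ℕ) (δ : ℝ) (hδ : 0 < δ) : ∃ (Mr : ℕ) (c : ℝ), 1 ≤ Mr ∧
    0 < c ∧ ∀ (q : ℝ) (n : ℕ), Win q κ n → ∀ (r : ℕ) (Q : Finset (ℤ × ℤ))
      (S0 D O O' : Finset Edg) (I J : Set Vtx) (e : Edg), Env2 r K Q S0 D O O' I J e → Mr ≤ r →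
      2 * r ≤ n → ∀ M : ℝ, 0 ≤ M →
      (∀ B : Finset Edg → Prop, (∀ F G : Finset Edg, (∀ g, nearQ r Q g → (g ∈ F ↔ g ∈ G)) →
          (B F ↔ B G)) →
        PQ q (S0 ∪ D) (fun F => Ev1 I J S0 O O' e F ∧ B F) ≤ M * PQ q (S0 ∪ D) B) →
      c * (PQ q (S0 ∪ D) (Ev1 I J S0 O O' e) - δ * M) ≤
        PQ q (S0 ∪ D) (Ev2 I J S0 O O' e) := by
  obtain ⟨M3, M4, hM3, hM4, hbad⟩ := bad2_prob κ hκ K δ hδ
  have hM3p : 0 < M3 := by omega
  have hM4p : 0 < M4 := by omega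
  set N : ℕ := 2 * (K + 2) * M4 with hN
  refine ⟨M4, κ ^ (4 * (2 * N + 1) ^ 2), by omega, by positivity, ?_⟩
  intro q n hW r Q S0 D O O' I J e h hr hrn M hM hloc
  obtain ⟨h0, h1⟩ := win01 hW
  have ok := okq h0 h1
  set ρ := r / M3 with hρ
  set l := r / M4 with hl
  have hl1 : 1 ≤ l := (Nat.one_le_div_iff hM4p).2 hr
  have hlr : l * M4 ≤ r := Nat.div_mul_le_self r M4
  have hρr : ρ * M3 ≤ r := Nat.div_mul_le_self r M3
  have h32l : 32 * l ≤ ρ := by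
    rw [hρ, Nat.le_div_iff_mul_le hM3p]
    calc 32 * l * M3 = l * (32 * M3) := by ring
      _ ≤ l * M4 := Nat.mul_le_mul_left _ hM4
      _ ≤ r := hlr
  have h32ρ : 32 * ρ ≤ r := by
    calc 32 * ρ = ρ * 32 := by ring
      _ ≤ ρ * M3 := Nat.mul_le_mul_left _ hM3
      _ ≤ r := hρr
  have hr2l : r ≤ 2 * M4 * l := by
    have e1 := Nat.div_add_mod r M4
    have e2 := Nat.mod_lt r hM4p
    rw [← hl] at e1
    nlinarith
  have hNl : (K + 1) * r + 1 ≤ N * l := by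
    have e1 : (K + 1) * r ≤ (K + 1) * (2 * M4 * l) := Nat.mul_le_mul_left _ hr2l
    have e2 : N * l = (K + 1) * (2 * M4 * l) + 2 * M4 * l := by rw [hN]; ring
    have e3 : 1 ≤ 2 * M4 * l := Nat.mul_pos (by omega) hl1
    omega
  -- the bad event
  have hB : PQ q (S0 ∪ D) (Bad2 r ρ l Q S0) ≤ δ :=
    hbad q n hW r hr (by omega) Q h.box S0 (S0 ∪ D) Finset.subset_union_left
  have hB2 : PQ q (S0 ∪ D) (fun F => Ev1 I J S0 O O' e F ∧ Bad2 r ρ l Q S0 F) ≤ δ * M := by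
    refine (hloc _ fun F G hFG => bad2_local hl1 h32l h32ρ hFG).trans ?_
    rw [mul_comm]
    exact mul_le_mul_of_nonneg_right hB hM
  -- the good event
  set X : Finset Edg → Prop := fun F => (CnG src tgt I J (insert e ((↑(F ∩ S0) : Set Edg) ∪ ↑O')) ∧
        ¬ CnG src tgt I J (((↑(F ∩ S0) : Set Edg) ∪ ↑O) \ {e})) ∧
        NFar src tgt I J e (↑D : Set Edg) (Nr (4 * l)) ((↑(F ∩ S0) : Set Edg) ∪ ↑O) ∧
        (∀ g ∈ (↑O : Set Edg), src g ∈ Cl src tgt I (((↑(F ∩ S0) : Set Edg) ∪ ↑O) \ {e}) ∨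
          src g ∈ Cl src tgt J (((↑(F ∩ S0) : Set Edg) ∪ ↑O) \ {e})) with hX
  have heO : e ∉ O := fun h' => Finset.disjoint_left.1 h.dO h' (Finset.mem_union_left _ h.he)
  have hgood : PQ q (S0 ∪ D) (fun F => Ev1 I J S0 O O' e F ∧ ¬ Bad2 r ρ l Q S0 F) ≤
      PQ q (S0 ∪ D) X := by
    refine Pr_mono ok fun F hF hE => ?_
    obtain ⟨hE1, hE2⟩ := hE
    have hsub : (↑O : Set Edg) ⊆ ((↑(F ∩ S0) : Set Edg) ∪ ↑O) \ {e} := by
      intro g hg
      refine ⟨Or.inr hg, ?_⟩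
      rintro rfl
      exact heO hg
    refine ⟨hE1, fail2_det h hl1 h32l h32ρ hF hE1 hE2, fun g hg => ?_⟩
    rcases h.hO g hg with h3 | h3
    · exact Or.inl (uf_cl_mono hsub h3)
    · exact Or.inr (uf_cl_mono hsub h3)
  have hsplit : PQ q (S0 ∪ D) (Ev1 I J S0 O O' e) ≤
      PQ q (S0 ∪ D) (fun F => Ev1 I J S0 O O' e F ∧ Bad2 r ρ l Q S0 F) +
      PQ q (S0 ∪ D) (fun F => Ev1 I J S0 O O' e F ∧ ¬ Bad2 r ρ l Q S0 F) := by
    refine le_trans (Pr_mono ok (B := fun F => (Ev1 I J S0 O O' e F ∧ Bad2 r ρ l Q S0 F) ∨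
      (Ev1 I J S0 O O' e F ∧ ¬ Bad2 r ρ l Q S0 F)) fun F _ hE => ?_) (Pr_or_le ok _ _ _)
    by_cases hb : Bad2 r ρ l Q S0 F
    · exact Or.inl ⟨hE, hb⟩
    · exact Or.inr ⟨hE, hb⟩
  -- the trap
  have htrap : κ ^ (4 * (2 * N + 1) ^ 2) ≤ PQ q (S0 ∪ D)
      (fun F => TrapG src tgt (↑D : Set Edg) (Nr (4 * l)) (↑F : Set Edg) ∧ True) := by
    refine ((trap_prob hW hl1 (by omega) 0 0 (S0 ∪ D) (N := N)).1).trans ?_
    refine Pr_mono ok fun F _ hE => ⟨?_, trivial⟩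
    intro v hv w _ hvw
    refine hE v w ?_ hvw
    obtain ⟨g, hg, hgv⟩ := hv
    have hT := h.hD g hg
    -- vertices of the coarse set
    have hbox : ∀ u ∈ FQ r Q, |u.1| ≤ ((K:ℤ) + 1) * r ∧ |u.2| ≤ ((K:ℤ) + 1) * r := by
      intro u hu
      have hr' : (0:ℤ) < r := by exact_mod_cast h.r1
      obtain ⟨q1, q2⟩ := h.box _ hu
      unfold fl at q1 q2
      simp only at q1 q2
      have key : ∀ a : ℤ, |a / (r:ℤ)| ≤ K → |a| ≤ ((K:ℤ) + 1) * r := by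
        intro a ha
        rw [abs_le] at ha ⊢
        have e1 := Int.emod_add_mul_ediv a r
        have e2 := Int.emod_nonneg a hr'.ne'
        have e3 := Int.emod_lt_of_pos a hr'
        constructor <;> nlinarith
      exact ⟨key _ q1, key _ q2⟩
    have hNl' : ((K:ℤ) + 1) * r + 1 ≤ N * l := by exact_mod_cast hNl
    have hends : (|(src g).1| ≤ ((K:ℤ) + 1) * r + 1 ∧ |(src g).2| ≤ ((K:ℤ) + 1) * r + 1) ∧
        (|(tgt g).1| ≤ ((K:ℤ) + 1) * r + 1 ∧ |(tgt g).2| ≤ ((K:ℤ) + 1) * r + 1) := by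
      obtain ⟨x, y, _ | _⟩ := g
      · rcases hT with hT | hT
        · obtain ⟨b1, b2⟩ := hbox _ hT
          simp only [src_mk, tgt_false, abs_le] at *
          omega
        · obtain ⟨b1, b2⟩ := hbox _ hT
          simp only [src_mk, tgt_false, abs_le] at *
          omega
      · rcases hT with hT | hT
        · obtain ⟨b1, b2⟩ := hbox _ hT
          simp only [src_mk, tgt_true, abs_le] at *
          omega
        · obtain ⟨b1, b2⟩ := hbox _ hT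
          simp only [src_mk, tgt_true, abs_le] at *
          omega
    have hvb : |v.1| ≤ ((K:ℤ) + 1) * r + 1 ∧ |v.2| ≤ ((K:ℤ) + 1) * r + 1 := by
      rcases hgv with rfl | rfl
      · exact hends.1
      · exact hends.2
    obtain ⟨v1, v2⟩ := hvb
    rw [abs_le] at v1 v2
    unfold inR
    constructor <;> constructor <;> omega
  have hun := unforceG ok src tgt h.dS (O := (↑O : Set Edg)) (O' := (↑O' : Set Edg))
    (Finset.coe_subset.2 h.hOO) (Finset.disjoint_coe.2 h.dO) (I := I) (J := J) h.he (Nr (4 * l))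
    (H := fun _ => True) (fun _ _ _ _ => trivial) (fun _ => Iff.rfl)
  have hXnn : 0 ≤ PQ q (S0 ∪ D) X := Pr_nonneg ok _ _
  have hfin : PQ q (S0 ∪ D) X * PQ q (S0 ∪ D)
      (fun F => TrapG src tgt (↑D : Set Edg) (Nr (4 * l)) (↑F : Set Edg) ∧ True) ≤
      PQ q (S0 ∪ D) (Ev2 I J S0 O O' e) := by
    refine hun.trans (Pr_mono ok fun F _ hE => ?_)
    exact hE.1
  calc κ ^ (4 * (2 * N + 1) ^ 2) * (PQ q (S0 ∪ D) (Ev1 I J S0 O O' e) - δ * M)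
      ≤ κ ^ (4 * (2 * N + 1) ^ 2) * PQ q (S0 ∪ D) X :=
        mul_le_mul_of_nonneg_left (by linarith) (by positivity)
    _ ≤ PQ q (S0 ∪ D) (fun F => TrapG src tgt (↑D : Set Edg) (Nr (4 * l)) (↑F : Set Edg) ∧ True) *
          PQ q (S0 ∪ D) X := mul_le_mul_of_nonneg_right htrap hXnn
    _ = PQ q (S0 ∪ D) X * PQ q (S0 ∪ D)
          (fun F => TrapG src tgt (↑D : Set Edg) (Nr (4 * l)) (↑F : Set Edg) ∧ True) := mul_comm _ _
    _ ≤ _ := hfin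

end H12S
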