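import Pool.Agent.H12R2.Sep.Coarse
import Pool.Agent.H12R2.Sep.DualBox
import Pool.Agent.H12R2.Sep.Loc
import Pool.Agent.H12R2.Sep.Win1
import Pool.Agent.H12R2.Sep.Step2
import Pool.Agent.H12R2.Sep.EnvPlus

/-! Task S2P (helper726): second step for the plus event. -/

namespace H12S

open H974 Finset

/-- Geometry: points of the coarse set are far from the origin. -/
theorem SP_far {L M2 : ℕ} (hL : 2 ≤ L) {r m : ℕ} (hr : 1 ≤ r)
    (hm : m = M2 * r) {σ σ' : Bool} {k k' : ℤ} {Q1 Q3 : Finset (ℤ × ℤ)}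
    (h1 : Cor L M2 (4 * L * M2) M2 σ k false Q1) (h3 : Cor L M2 (4 * L * M2) M2 σ' k' true Q3)
    {u : Vtx} (hu : u ∈ FQ r (Q1 ∪ Q3 ∪ tubQ (4 * L * M2) M2 (16 * L * M2))) :
    (m:ℤ) ≤ |u.1| ∨ (m:ℤ) ≤ |u.2| := by
  obtain ⟨x, y⟩ := u
  rw [CQ_memFQ hr] at hu
  obtain ⟨z, hzQ, ⟨hx1, hx2⟩, hy1, hy2⟩ := hu
  by_contra hcon
  rw [not_or, not_le, not_le, abs_lt, abs_lt] at hcon
  simp only at hcon
  obtain ⟨⟨c1, c2⟩, c3, c4⟩ := hcon
  have hmz : (m:ℤ) = r * M2 := by rw [hm]; push_cast; ring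
  have hr0 : (0:ℤ) < r := by omega
  have hLM : (M2:ℤ) ≤ 2 * L * M2 := by
    have : (1:ℤ) * M2 ≤ (2 * L) * M2 := mul_le_mul_of_nonneg_right (by omega) (by omega)
    linarith
  have d1 : z.1 < M2 := by
    have : (r:ℤ) * z.1 < r * M2 := by rw [← hmz]; omega
    exact lt_of_mul_lt_mul_left this hr0.le
  have d2 : -(M2:ℤ) < z.1 + 1 := by
    have : (r:ℤ) * (-(M2:ℤ)) < r * (z.1 + 1) := by
      have e1 : (r:ℤ) * (-(M2:ℤ)) = -m := by rw [hmz]; ring
      have e2 : (r:ℤ) * (z.1 + 1) = r * z.1 + r := by ring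
      rw [e1, e2]; omega
    exact lt_of_mul_lt_mul_left this hr0.le
  have d3 : z.2 < M2 := by
    have : (r:ℤ) * z.2 < r * M2 := by rw [← hmz]; omega
    exact lt_of_mul_lt_mul_left this hr0.le
  have d4 : -(M2:ℤ) < z.2 + 1 := by
    have : (r:ℤ) * (-(M2:ℤ)) < r * (z.2 + 1) := by
      have e1 : (r:ℤ) * (-(M2:ℤ)) = -m := by rw [hmz]; ring
      have e2 : (r:ℤ) * (z.2 + 1) = r * z.2 + r := by ring
      rw [e1, e2]; omega
    exact lt_of_mul_lt_mul_left this hr0.le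
  have hM0 : (0:ℤ) ≤ M2 := by omega
  rw [Finset.mem_union, Finset.mem_union] at hzQ
  rcases hzQ with (hzQ | hzQ) | hzQ
  · have := (h1.avo z hzQ (by omega) (by omega) (by omega) (by omega)).1
    unfold hz at this
    split_ifs at this <;> omega
  · have := (h3.avo z hzQ (by omega) (by omega) (by omega) (by omega)).1
    unfold hz at this
    split_ifs at this <;> omega
  · unfold tubQ at hzQ
    rw [Finset.mem_product, Finset.mem_union, Finset.mem_Ico, Finset.mem_Ico, Finset.mem_Ico] at hzQ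
    have hB : (M2:ℤ) ≤ ((4 * L * M2 : ℕ) : ℤ) := by
      push_cast
      have : (1:ℤ) * M2 ≤ (4 * L) * M2 := mul_le_mul_of_nonneg_right (by omega) (by omega)
      linarith
    omega

/-- Geometry: the union of the big box and the coarse set. -/
theorem SP_XV {L M2 : ℕ} (hL : 2 ≤ L) {r m b N : ℕ} (hr : 1 ≤ r) (hM : 1 ≤ M2)
    (hm : m = M2 * r) (hb : b = 4 * L * m) (hN : N = 16 * L * m)
    {σ σ' : Bool} {k k' : ℤ} {Q1 Q3 : Finset (ℤ × ℤ)}
    (h1 : Cor L M2 (4 * L * M2) M2 σ k false Q1) (h3 : Cor L M2 (4 * L * M2) M2 σ' k' true Q3) :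
    boxE b ∪ QE r (Q1 ∪ Q3 ∪ tubQ (4 * L * M2) M2 (16 * L * M2)) = XV b m N := by
  have hmz : (r:ℤ) * M2 = m := by rw [hm]; push_cast; ring
  have hbz : (r:ℤ) * ((4 * L * M2 : ℕ) : ℤ) = b := by rw [hb, hm]; push_cast; ring
  have hNz : (r:ℤ) * ((16 * L * M2 : ℕ) : ℤ) = N := by rw [hN, hm]; push_cast; ring
  have hr0 : (0:ℤ) ≤ r := by omega
  have hmb : m ≤ b := by
    rw [hb]
    calc m = 1 * m := (one_mul _).symm
      _ ≤ 4 * L * m := Nat.mul_le_mul_right _ (by omega)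
  have hbN : b ≤ N := by
    rw [hb, hN]
    exact Nat.mul_le_mul_right _ (by omega)
  have hsub : ∀ {Q : Finset (ℤ × ℤ)} {σ : Bool} {k : ℤ} {τ : Bool},
      Cor L M2 (4 * L * M2) M2 σ k τ Q → QE r Q ⊆ boxE b := by
    intro Q σ k τ h
    unfold QE
    rw [Finset.biUnion_subset]
    intro z hz
    obtain ⟨a1, a2, a3, a4⟩ := h.inx z hz
    unfold sqE boxE
    have e1 : (r:ℤ) * (-((4 * L * M2 : ℕ) : ℤ)) = -(b:ℤ) := by rw [← hbz]; ring
    have f1 := mul_le_mul_of_nonneg_left a1.le hr0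
    have f2 := mul_le_mul_of_nonneg_left a2.le hr0
    have f3 := mul_le_mul_of_nonneg_left a3 hr0
    have f4 := mul_le_mul_of_nonneg_left a4 hr0
    rw [e1] at f1 f3
    rw [hbz] at f2 f4
    refine RE_subset f1 ?_ f3 ?_
    · have : (r:ℤ) * z.1 + r = r * (z.1 + 1) := by ring
      rw [this]; exact f2
    · have : (r:ℤ) * z.2 + r = r * (z.2 + 1) := by ring
      rw [this]; exact f4
  have ht : QE r (tubQ (4 * L * M2) M2 (16 * L * M2)) =
      RE (-(m:ℤ)) m (-(N:ℤ)) (-(b:ℤ)) ∪ RE (-(m:ℤ)) m b N := by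
    unfold tubQ
    have hLM : 0 < L * M2 := Nat.mul_pos (by omega) hM
    rw [Finset.product_union, QE_union, QE_rect hr (by omega) (by
      have e1 : 4 * L * M2 = 4 * (L * M2) := by ring
      have e2 : 16 * L * M2 = 16 * (L * M2) := by ring
      rw [e1, e2]; omega), QE_rect hr (by omega) (by
      have e1 : 4 * L * M2 = 4 * (L * M2) := by ring
      have e2 : 16 * L * M2 = 16 * (L * M2) := by ring
      rw [e1, e2]; omega)]
    rw [mul_neg, mul_neg, mul_neg, hmz, hbz, hNz]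
  rw [QE_union, QE_union, ht]
  unfold XV
  have s1 := hsub h1
  have s3 := hsub h3
  ext g
  simp only [Finset.mem_union]
  constructor
  · rintro (h | (h | h) | h | h)
    · exact Or.inl h
    · exact Or.inl (s1 h)
    · exact Or.inl (s3 h)
    · right
      exact RE_subset le_rfl le_rfl (by omega) (by omega) h
    · right
      exact RE_subset le_rfl le_rfl (by omega) (by omega) h
  · rintro (h | h)
    · exact Or.inl h
    · obtain ⟨x, y, _ | _⟩ := g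
      · simp only [boxE, mem_RE_false] at h ⊢; omega
      · simp only [boxE, mem_RE_true] at h ⊢; omega

/-- The statement of `step2` (task S2). -/
def Step2St : Prop := ∀ (κ : ℝ) (_ : 0 < κ) (K : ℕ) (δ : ℝ) (_ : 0 < δ), ∃ (Mr : ℕ) (c : ℝ),
    1 ≤ Mr ∧ 0 < c ∧ ∀ (q : ℝ) (n : ℕ), Win q κ n → ∀ (r : ℕ) (Q : Finset (ℤ × ℤ))
      (S0 D O O' : Finset Edg) (I J : Set Vtx) (e : Edg), Env2 r K Q S0 D O O' I J e → Mr ≤ r →
      2 * r ≤ n → ∀ M : ℝ, 0 ≤ M →
      (∀ B : Finset Edg → Prop, (∀ F G : Finset Edg, (∀ g, nearQ r Q g → (g ∈ F ↔ g ∈ G)) →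
          (B F ↔ B G)) →
        PQ q (S0 ∪ D) (fun F => Ev1 I J S0 O O' e F ∧ B F) ≤ M * PQ q (S0 ∪ D) B) →
      c * (PQ q (S0 ∪ D) (Ev1 I J S0 O O' e) - δ * M) ≤
        PQ q (S0 ∪ D) (Ev2 I J S0 O O' e)

/-- The statement of `env_plus` (task S2E). -/
def EnvPlusSt : Prop := ∀ {L M2 : ℕ} (_ : 2 ≤ L) (_ : 512 ≤ M2) {r m b N : ℕ} (_ : 1 ≤ r)
    (_ : m = M2 * r) (_ : b = 4 * L * m) (_ : N = 16 * L * m)
    {σ σ' : Bool} {k k' : ℤ} {Q1 Q3 : Finset (ℤ × ℤ)} (_ : SepQ Q1 Q3)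
    (_ : Cor L M2 (4 * L * M2) M2 σ k false Q1) (_ : Cor L M2 (4 * L * M2) M2 σ' k' true Q3)
    {β : Bool} {QV : Finset Edg}
    (_ : QV = QE r (Q1 ∪ Q3 ∪ tubQ (4 * L * M2) M2 (16 * L * M2))),
    Env2 r (16 * L * M2 + 1) (Q1 ∪ Q3 ∪ tubQ (4 * L * M2) M2 (16 * L * M2))
      (dmp (boxE b \ QV)) (dmp QV) (dmp (boxE N \ (boxE b ∪ QV))) (dmp (XH b m N \ boxE b))
      (lefV N) (rigV N) (dl (e0 β))

theorem SP_dmp_union (A B : Finset Edg) : dmp A ∪ dmp B = dmp (A ∪ B) := by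
  unfold dmp
  rw [Finset.map_union]

theorem step2_plus_of (hS : Step2St) (hE : EnvPlusSt) (κ : ℝ) (hκ : 0 < κ) (L M2 : ℕ)
    (hL : 2 ≤ L) (hM2 : 512 ≤ M2) (δ : ℝ)
    (hδ : 0 < δ) : ∃ (Mr : ℕ) (c : ℝ), 1 ≤ Mr ∧ 0 < c ∧ ∀ (q : ℝ) (n : ℕ), Win q κ n →
      ∀ r m b : ℕ, Mr ≤ r → m = M2 * r → b = 4 * L * m → 16 * L * m ≤ n →
      ∀ (σ σ' : Bool) (k k' : ℤ) (Q1 Q3 : Finset (ℤ × ℤ)), SepQ Q1 Q3 →
      Cor L M2 (4 * L * M2) M2 σ k false Q1 → Cor L M2 (4 * L * M2) M2 σ' k' true Q3 →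
      ∀ (β : Bool) (QV : Finset Edg), QV = QE r (Q1 ∪ Q3 ∪ tubQ (4 * L * M2) M2 (16 * L * M2)) →
      c * (PQ q (boxE b \ QV) (fun F => Y1 b m (16 * L * m) QV (e0 β) ↑F) - δ * a4 q (m / 8)) ≤
        PQ q (boxE (16 * L * m)) (fun F => Y2 b m (16 * L * m) (e0 β) ↑F) := by
  obtain ⟨Mr, c, hMr, hc, H⟩ := hS κ hκ (16 * L * M2 + 1) δ hδ
  refine ⟨Mr, c, hMr, hc, ?_⟩
  intro q n hW r m b hr hm hb hn σ σ' k k' Q1 Q3 hsep h1 h3 β QV hQV
  have hr1 : 1 ≤ r := hMr.trans hr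
  have hE' := hE (β := β) hL hM2 hr1 hm hb rfl hsep h1 h3 hQV
  set Q : Finset (ℤ × ℤ) := Q1 ∪ Q3 ∪ tubQ (4 * L * M2) M2 (16 * L * M2) with hQdef
  set N : ℕ := 16 * L * m with hNdef
  have hmr : 512 * r ≤ m := by rw [hm]; exact Nat.mul_le_mul_right _ hM2
  have hmb : 8 * m ≤ b := by
    rw [hb]; exact Nat.mul_le_mul_right _ (by omega)
  have hbN : 2 * b ≤ N := by
    rw [hb, hNdef]
    have e1 : 2 * (4 * L * m) = 8 * (L * m) := by ring
    have e2 : 16 * L * m = 16 * (L * m) := by ring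
    rw [e1, e2]; omega
  have hfar : ∀ u ∈ FQ r Q, (m:ℤ) ≤ |u.1| ∨ (m:ℤ) ≤ |u.2| := fun u hu =>
    SP_far hL hr1 hm h1 h3 hu
  have hXV : boxE b ∪ QV = XV b m N := by
    rw [hQV]; exact SP_XV hL hr1 (by omega) hm hb hNdef h1 h3
  have hQVN : QV ⊆ boxE N := by
    have e1 : QV ⊆ XV b m N := by rw [← hXV]; exact Finset.subset_union_right
    refine e1.trans ?_
    unfold XV
    refine Finset.union_subset (DU_boxE_mono (by omega)) ?_
    unfold boxE
    exact RE_subset (by omega) (by omega) le_rfl le_rfl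
  have hdisj : Disjoint QV (XH b m N \ boxE b) := by
    rw [Finset.disjoint_left]
    intro g hg hg2
    have e1 : g ∈ XV b m N := by rw [← hXV]; exact Finset.mem_union_right _ hg
    rw [Finset.mem_sdiff, XH, Finset.mem_union] at hg2
    unfold XV at e1
    rw [Finset.mem_union] at e1
    obtain ⟨hg2, hg3⟩ := hg2
    have hg2 := hg2.resolve_left hg3
    have e1 := e1.resolve_left hg3
    obtain ⟨x, y, _ | _⟩ := g
    · simp only [boxE, mem_RE_false] at hg2 hg3 e1; omega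
    · simp only [boxE, mem_RE_true] at hg2 hg3 e1; omega
  set K : ℕ := m / 8 with hK
  have hK64 : 64 ≤ K := by omega
  have hKm : 8 * K ≤ m := by omega
  -- the small box does not meet the coarse set
  have hsmall : ∀ g ∈ boxE K, g ∉ QV := by
    intro g hg hgQ
    rw [hQV, mem_QE hr1] at hgQ
    obtain ⟨x, y, _ | _⟩ := g
    · simp only [boxE, mem_RE_false] at hg
      simp only [dsrc, dtgt, Bool.false_eq_true, if_false] at hgQ
      rcases hgQ with h | h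
      · have := hfar _ h; simp only [le_abs] at this; omega
      · have := hfar _ h; simp only [le_abs] at this; omega
    · simp only [boxE, mem_RE_true] at hg
      simp only [dsrc, dtgt, if_true] at hgQ
      rcases hgQ with h | h
      · have := hfar _ h; simp only [le_abs] at this; omega
      · have := hfar _ h; simp only [le_abs] at this; omega
  have hnear : ∀ g, nearQ r Q g → dl.symm g ∉ boxE K := by
    rintro g ⟨u, hu, hn1, hn2⟩ hg
    have hf := hfar u hu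
    obtain ⟨x, y, _ | _⟩ := g
    · simp only [dls_f, boxE, mem_RE_true] at hg
      simp only [src_mk] at hn1 hn2
      rw [abs_le] at hn1 hn2
      rw [le_abs, le_abs] at hf
      omega
    · simp only [dls_t, boxE, mem_RE_false] at hg
      simp only [src_mk] at hn1 hn2
      rw [abs_le] at hn1 hn2
      rw [le_abs, le_abs] at hf
      omega
  have he0 : e0 β ∈ boxE K := by
    unfold e0 boxE
    cases β
    · rw [mem_RE_false]; omega
    · rw [mem_RE_true]; omega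
  have hKb : boxE K ⊆ boxE b := DU_boxE_mono (by omega)
  have heb : e0 β ∈ boxE b \ QV := Finset.mem_sdiff.2 ⟨hKb he0, hsmall _ he0⟩
  set S : Finset Edg := boxE b ∪ QV with hSdef
  have hun : dmp (boxE b \ QV) ∪ dmp QV = dmp S := by
    rw [SP_dmp_union, Finset.sdiff_union_self_eq_union]
  have hok := hW.ok
  -- the events
  have hev1 : ∀ F : Finset Edg, F ⊆ S → (Ev1 (lefV N) (rigV N) (dmp (boxE b \ QV))
      (dmp (boxE N \ (boxE b ∪ QV))) (dmp (XH b m N \ boxE b)) (dl (e0 β)) (dmp (S \ F)) ↔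
        Y1 b m N QV (e0 β) (↑F : Set Edg)) := fun F hF =>
    ev1_iff (by omega) (by omega) (by omega) hQVN hdisj heb hF
  have hev2 : ∀ F : Finset Edg, F ⊆ S → Ev2 (lefV N) (rigV N) (dmp (boxE b \ QV))
      (dmp (boxE N \ (boxE b ∪ QV))) (dmp (XH b m N \ boxE b)) (dl (e0 β)) (dmp (S \ F)) →
        Y2 b m N (e0 β) (↑F : Set Edg) := fun F hF h =>
    ev2_imp (by omega) (by omega) (by omega) hQVN hdisj hXV heb hF h
  have hA4 : ∀ F : Finset Edg, Y1 b m N QV (e0 β) (↑F : Set Edg) →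
      A4 (-K) K (-K) K (e0 β) (↑F : Set Edg) := by
    intro F hY
    set O1 : Finset Edg := boxE N \ ((boxE b \ QV) ∪ (XH b m N \ boxE b)) with hO1
    have hQO : (↑QV : Set Edg) ⊆ ↑O1 := by
      intro g hg
      rw [Finset.mem_coe] at hg ⊢
      rw [hO1, Finset.mem_sdiff, Finset.mem_union, not_or]
      exact ⟨hQVN hg, fun h => (Finset.mem_sdiff.1 h).2 hg,
        fun h => Finset.disjoint_left.1 hdisj hg h⟩
    have hPv : Pv (botV N) (topV N) (e0 β) (((↑F : Set Edg) ∩ ↑(boxE b \ QV)) ∪ ↑O1) := by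
      refine ⟨Cn_mono ?_ hY.1, hY.2⟩
      exact Set.insert_subset_insert (Set.union_subset_union_right _ hQO)
    have hl := loc_a4 (a := -(K:ℤ)) (b := K) (c := -(K:ℤ)) (d := K) he0 (by
      rintro v (hv | hv)
      · have : v.2 = -(N:ℤ) := hv
        omega
      · have : v.2 = (N:ℤ) := hv
        omega) hPv
    refine A4_local ?_ hl
    ext g
    simp only [Set.mem_sdiff, Set.mem_inter_iff, Set.mem_union]
    constructor
    · rintro ⟨⟨hg, hgK⟩, hge⟩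
      refine ⟨⟨?_, hgK⟩, hge⟩
      rcases hg with hg | hg
      · exact hg.1
      · exfalso
        have hgK' : g ∈ boxE K := hgK
        rw [Finset.mem_coe, hO1, Finset.mem_sdiff, Finset.mem_union, not_or] at hg
        exact hg.2.1 (Finset.mem_sdiff.2 ⟨hKb hgK', hsmall g hgK'⟩)
    · rintro ⟨⟨hg, hgK⟩, hge⟩
      have hgK' : g ∈ boxE K := hgK
      exact ⟨⟨Or.inl ⟨hg, Finset.mem_coe.2 (Finset.mem_sdiff.2 ⟨hKb hgK', hsmall g hgK'⟩)⟩, hgK⟩,
        hge⟩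
  have hA4i : ∀ F : Finset Edg, (A4 (-K) K (-K) K (e0 β) (↑F : Set Edg) ↔
      A4 (-K) K (-K) K (e0 β) (↑(F ∩ boxE K) : Set Edg)) := by
    intro F
    have : ((↑F : Set Edg) ∩ ↑(RE (-(K:ℤ)) K (-(K:ℤ)) K)) \ {e0 β} =
        ((↑(F ∩ boxE K) : Set Edg) ∩ ↑(RE (-(K:ℤ)) K (-(K:ℤ)) K)) \ {e0 β} := by
      rw [Finset.coe_inter]
      unfold boxE
      rw [Set.inter_assoc, Set.inter_self]
    exact ⟨A4_local this, A4_local this.symm⟩
  have ha4 : ∀ β' : Bool, 0 ≤ PQ q (boxE K) (fun F => A4 (-K) K (-K) K (e0 β') (↑F : Set Edg)) :=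
    fun β' => Pr_nonneg hok _ _
  have ha4n : 0 ≤ a4 q K := by
    unfold a4
    exact add_nonneg (ha4 true) (ha4 false)
  have ha4le : PQ q (boxE K) (fun F => A4 (-K) K (-K) K (e0 β) (↑F : Set Edg)) ≤ a4 q K := by
    unfold a4
    cases β
    · exact le_add_of_nonneg_left (ha4 true)
    · exact le_add_of_nonneg_right (ha4 false)
  have key := H (1 - q) n hW.symm r Q _ _ _ _ _ _ _ hE' hr (by omega) (a4 q K) ha4n (by
    intro B hB
    rw [hun, ← pr_dual, ← pr_dual]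
    have hle : PQ q S (fun F => Ev1 (lefV N) (rigV N) (dmp (boxE b \ QV))
        (dmp (boxE N \ (boxE b ∪ QV))) (dmp (XH b m N \ boxE b)) (dl (e0 β)) (dmp (S \ F)) ∧
          B (dmp (S \ F))) ≤
        PQ q S (fun F => A4 (-K) K (-K) K (e0 β) (↑F : Set Edg) ∧ B (dmp (S \ F))) := by
      apply Pr_mono hok
      intro F hF h
      exact ⟨hA4 F ((hev1 F hF).1 h.1), h.2⟩
    refine hle.trans ?_
    have hKS : boxE K ⊆ S := hKb.trans Finset.subset_union_left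
    have hind := Pr_indep (p := fun _ : Edg => q) (U := S) (S := boxE K) (T := S \ boxE K)
      hKS Finset.sdiff_subset Finset.disjoint_sdiff
      (A := fun F => A4 (-K) K (-K) K (e0 β) (↑F : Set Edg)) (B := fun F => B (dmp (S \ F)))
      (fun F _ => hA4i F) (by
        intro F _
        apply hB
        intro g hg
        have hgK := hnear g hg
        rw [mem_dmp, mem_dmp, Finset.mem_sdiff, Finset.mem_sdiff, Finset.mem_inter,
          Finset.mem_sdiff]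
        tauto)
    unfold PQ
    rw [hind]
    refine mul_le_mul_of_nonneg_right ?_ (Pr_nonneg hok _ _)
    have hloc := Pr_local (p := fun _ : Edg => q) hKS
      (A := fun F => A4 (-K) K (-K) K (e0 β) (↑F : Set Edg)) (fun F _ => hA4i F)
    rw [hloc]
    exact ha4le)
  rw [hun, ← pr_dual, ← pr_dual] at key
  have hL1 : PQ q S (fun F => Ev1 (lefV N) (rigV N) (dmp (boxE b \ QV))
      (dmp (boxE N \ (boxE b ∪ QV))) (dmp (XH b m N \ boxE b)) (dl (e0 β)) (dmp (S \ F))) =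
      PQ q (boxE b \ QV) (fun F => Y1 b m N QV (e0 β) ↑F) := by
    have e1 : PQ q S (fun F => Ev1 (lefV N) (rigV N) (dmp (boxE b \ QV))
        (dmp (boxE N \ (boxE b ∪ QV))) (dmp (XH b m N \ boxE b)) (dl (e0 β)) (dmp (S \ F))) =
        PQ q S (fun F => Y1 b m N QV (e0 β) ↑F) := Pr_congr (fun F hF => hev1 F hF)
    rw [e1]
    apply Pr_local (Finset.sdiff_subset.trans Finset.subset_union_left)
    intro F _
    have e2 : ((↑F : Set Edg) ∩ ↑(boxE b \ QV)) =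
        ((↑(F ∩ (boxE b \ QV)) : Set Edg) ∩ ↑(boxE b \ QV)) := by
      rw [Finset.coe_inter, Set.inter_assoc, Set.inter_self]
    unfold Y1
    rw [← e2]
  have hL2 : PQ q S (fun F => Ev2 (lefV N) (rigV N) (dmp (boxE b \ QV))
      (dmp (boxE N \ (boxE b ∪ QV))) (dmp (XH b m N \ boxE b)) (dl (e0 β)) (dmp (S \ F))) ≤
      PQ q (boxE N) (fun F => Y2 b m N (e0 β) ↑F) := by
    have e1 : PQ q S (fun F => Ev2 (lefV N) (rigV N) (dmp (boxE b \ QV))
        (dmp (boxE N \ (boxE b ∪ QV))) (dmp (XH b m N \ boxE b)) (dl (e0 β)) (dmp (S \ F))) ≤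
        PQ q S (fun F => Y2 b m N (e0 β) ↑F) := Pr_mono hok (fun F hF h => hev2 F hF h)
    refine e1.trans (le_of_eq ?_)
    symm
    apply Pr_local (Finset.union_subset (DU_boxE_mono (by omega)) hQVN)
    intro F _
    have e2 : ((↑F : Set Edg) ∩ ↑(XV b m N)) = ((↑(F ∩ S) : Set Edg) ∩ ↑(XV b m N)) := by
      rw [Finset.coe_inter, Set.inter_assoc, hXV, Set.inter_self]
    have e3 : ((↑F : Set Edg) ∩ ↑(boxE b)) = ((↑(F ∩ S) : Set Edg) ∩ ↑(boxE b)) := by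
      rw [Finset.coe_inter, Set.inter_assoc]
      congr 1
      rw [Set.inter_eq_self_of_subset_right]
      exact_mod_cast (Finset.subset_union_left : boxE b ⊆ S)
    unfold Y2
    rw [← e2, ← e3]
  rw [hL1] at key
  exact key.trans hL2

theorem step2_plus (κ : ℝ) (hκ : 0 < κ) (L M2 : ℕ) (hL : 2 ≤ L) (hM2 : 512 ≤ M2) (δ : ℝ)
    (hδ : 0 < δ) : ∃ (Mr : ℕ) (c : ℝ), 1 ≤ Mr ∧ 0 < c ∧ ∀ (q : ℝ) (n : ℕ), Win q κ n →
      ∀ r m b : ℕ, Mr ≤ r → m = M2 * r → b = 4 * L * m → 16 * L * m ≤ n →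
      ∀ (σ σ' : Bool) (k k' : ℤ) (Q1 Q3 : Finset (ℤ × ℤ)), SepQ Q1 Q3 →
      Cor L M2 (4 * L * M2) M2 σ k false Q1 → Cor L M2 (4 * L * M2) M2 σ' k' true Q3 →
      ∀ (β : Bool) (QV : Finset Edg), QV = QE r (Q1 ∪ Q3 ∪ tubQ (4 * L * M2) M2 (16 * L * M2)) →
      c * (PQ q (boxE b \ QV) (fun F => Y1 b m (16 * L * m) QV (e0 β) ↑F) - δ * a4 q (m / 8)) ≤
        PQ q (boxE (16 * L * m)) (fun F => Y2 b m (16 * L * m) (e0 β) ↑F) :=
  step2_plus_of step2 @env_plus κ hκ L M2 hL hM2 δ hδ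

end H12S
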