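import Pool.Agent.H12R2.Sep.Defs4
import Pool.Agent.H12R2.Sep.TrapP
import Pool.Agent.H12R2.Sep.Win2
import Pool.Agent.H12R2.Sep.Loc
import Pool.Agent.H12R2.Sep.Key1
import Pool.Agent.H12R2.Sep.Exit2
import Pool.Agent.H12R2.Sep.H4
import Pool.Agent.H12R2.Sep.Fail3

/-!
Task S3 (helper793): the third step (opening of the horizontal tubes), as a consequence of the
bound for `H4` and of the deterministic failure lemma (`step3_of`).
-/

namespace H12S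

open H974 Finset

namespace S3

open EP2

/-- Short name. -/
abbrev Bad (b w ρ l : ℕ) (F : Finset Edg) : Prop := Bad3 b w ρ l F

/-- The statement of `fail3_det`. -/
def Fail3 : Prop := ∀ {b w N ρ l : ℕ}, 1 ≤ l → 32 * l ≤ ρ → 32 * ρ ≤ w →
    4 * w ≤ b → 2 * b ≤ N → ∀ {e : Edg}, e ∈ boxE (b / 2) → ∀ {F : Finset Edg},
    F ⊆ boxE N → Y2 b w N e (↑F : Set Edg) → ¬ Bad b w ρ l F →
    NFar src tgt (botV N) (topV N) e (↑(XH b w N \ boxE b) : Set Edg) (Nr (4 * l))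
      ((↑(F ∩ boxE b) : Set Edg) ∪ ↑(boxE N \ XH b w N)) ∧
    ∀ g ∈ boxE N \ XH b w N, src g ∈ Cl src tgt (botV N) (((↑(F ∩ boxE b) : Set Edg) ∪
        ↑(boxE N \ XH b w N)) \ {e}) ∨ src g ∈ Cl src tgt (topV N)
        (((↑(F ∩ boxE b) : Set Edg) ∪ ↑(boxE N \ XH b w N)) \ {e})

/-- The statement of `H4_bound`. -/
def H4B (κ C c : ℝ) : Prop := ∀ (q : ℝ) (n : ℕ),
    Win q κ n → ∀ r ρ : ℕ, 1 ≤ r → r ≤ ρ → ρ ≤ n → ∀ (d : Dir) (x0 y0 : ℤ) (S : Finset Edg),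
      hbE d x0 y0 ρ ⊆ S →
      PQ q S (fun F => H4 d x0 y0 r ρ ↑F) ≤ C * ((r:ℝ) / ρ) ^ (1 + c)

/-! ### sets of edges -/

theorem XH_sub {b w N : ℕ} (hb : b ≤ N) (hw : w ≤ N) : XH b w N ⊆ boxE N := by
  unfold XH
  refine Finset.union_subset (boxE_mono hb) ?_
  unfold boxE
  exact RE_subset (by omega) (by omega) (by omega) (by omega)

theorem XV_sub {b w N : ℕ} (hb : b ≤ N) (hw : w ≤ N) : XV b w N ⊆ boxE N := by
  unfold XV
  refine Finset.union_subset (boxE_mono hb) ?_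
  unfold boxE
  exact RE_subset (by omega) (by omega) (by omega) (by omega)

theorem XV_XH {b w N : ℕ} (hw : w ≤ b) {g : Edg} (h1 : g ∈ XV b w N) (h2 : g ∈ XH b w N) :
    g ∈ boxE b := by
  unfold XV at h1
  unfold XH at h2
  rcases Finset.mem_union.1 h1 with h1 | h1
  · exact h1
  rcases Finset.mem_union.1 h2 with h2 | h2
  · exact h2
  unfold boxE
  obtain ⟨x, y, _ | _⟩ := g
  · rw [mem_RE_false] at *
    omega
  · rw [mem_RE_true] at *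
    omega

theorem e0_mem {k : ℕ} (hk : 1 ≤ k) (β : Bool) : e0 β ∈ RE (-(k:ℤ)) k (-k) k := by
  unfold e0
  cases β
  · rw [mem_RE_false]; omega
  · rw [mem_RE_true]; omega

/-- `Y2` implies four arms in the boxes around the origin. -/
theorem y2_a4 {b w N k : ℕ} (hk : 1 ≤ k) (hkb : k ≤ b) (hbN : b ≤ N) (hwb : w ≤ b) {β : Bool}
    {F : Finset Edg} (hF : F ⊆ boxE N) (h : Y2 b w N (e0 β) (↑F : Set Edg)) :
    A4 (-k) k (-k) k (e0 β) (↑F : Set Edg) := by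
  set G : Set Edg := ((↑F : Set Edg) ∩ ↑(boxE b)) ∪ ↑(boxE N \ XH b w N) with hG
  have hsub : (↑F : Set Edg) ∩ ↑(XV b w N) ⊆ G := by
    rintro g ⟨h1, h2⟩
    by_cases h3 : g ∈ XH b w N
    · exact Or.inl ⟨h1, XV_XH hwb h2 h3⟩
    · right
      rw [Finset.mem_coe, Finset.mem_sdiff]
      exact ⟨hF h1, h3⟩
  have hPv : Pv (botV N) (topV N) (e0 β) G :=
    ⟨Cn_mono (Set.insert_subset_insert hsub) h.1, h.2⟩
  have hA := loc_a4 (a := -(k:ℤ)) (b := k) (c := -(k:ℤ)) (d := k) (e0_mem hk β) (by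
    rintro v (hv | hv)
    · have : v.2 = -(N:ℤ) := hv
      omega
    · have : v.2 = (N:ℤ) := hv
      omega) hPv
  refine A4_local ?_ hA
  congr 1
  ext g
  constructor
  · rintro ⟨h1 | h1, h2⟩
    · exact ⟨h1.1, h2⟩
    · exfalso
      rw [Finset.mem_coe, Finset.mem_sdiff] at h1
      apply h1.2
      unfold XH
      exact Finset.mem_union_left _ (boxE_mono hkb h2)
  · rintro ⟨h1, h2⟩
    exact ⟨Or.inl ⟨h1, boxE_mono hkb h2⟩, h2⟩

/-! ### the bad event is independent of the centre -/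

theorem not_box {k : ℕ} {g : Edg} (h : (k:ℤ) < g.1 ∨ g.1 < -(k:ℤ)) : g ∉ boxE k := by
  intro hg
  unfold boxE at hg
  obtain ⟨x, y, _ | _⟩ := g
  · rw [mem_RE_false] at hg
    simp only at h
    omega
  · rw [mem_RE_true] at hg
    simp only at h
    omega

theorem crs_loc {b w k N ρ : ℕ} (hk : k + w < b) (hbN : b ≤ N) {c : ℤ × ℤ}
    (hc : c.1 = b ∨ c.1 = -(b:ℤ)) {F G : Finset Edg}
    (hFG : ∀ g : Edg, g ∈ boxE N → g ∉ boxE k → (g ∈ F → g ∈ G))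
    (h : Crs c.1 c.2 (4 * ρ) (w / 2) (↑(F ∩ boxE b) : Set Edg)) :
    Crs c.1 c.2 (4 * ρ) (w / 2) (↑(G ∩ boxE b) : Set Edg) := by
  refine WA_crs_local ?_ h
  intro g hg hgF
  obtain ⟨h1, -⟩ := WA_T_prim hg
  rw [Finset.mem_coe, Finset.mem_inter] at hgF ⊢
  refine ⟨hFG g (boxE_mono hbN hgF.2) ?_ hgF.1, hgF.2⟩
  apply not_box
  have h2 : c.1 - ((w / 2 : ℕ) : ℤ) ≤ g.1 ∧ g.1 ≤ c.1 + ((w / 2 : ℕ) : ℤ) := h1.1
  omega

theorem h4_loc {d : Dir} {x0 y0 : ℤ} {r ρ : ℕ} {F G : Finset Edg}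
    (h : ∀ g ∈ hbE d x0 y0 ρ, (g ∈ F ↔ g ∈ G)) (hF : H4 d x0 y0 r ρ (↑F : Set Edg)) :
    H4 d x0 y0 r ρ (↑G : Set Edg) := by
  have e : (↑F : Set Edg) ∩ ↑(hbE d x0 y0 ρ) = (↑G : Set Edg) ∩ ↑(hbE d x0 y0 ρ) := by
    ext g
    constructor
    · rintro ⟨h1, h2⟩
      exact ⟨(h g h2).1 h1, h2⟩
    · rintro ⟨h1, h2⟩
      exact ⟨(h g h2).2 h1, h2⟩
  unfold H4 H3g at hF ⊢
  rw [← e]
  exact hF

theorem hb_lf {b w N k ρ l : ℕ} (hk : k + w < b) (hbN : b ≤ N) {i : ℤ}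
    (hi : |(l:ℤ) * i| + ρ ≤ w) {g : Edg} (hg : g ∈ hbE Dir.lf b (l * i) ρ) :
    g ∈ boxE N ∧ g ∉ boxE k := by
  have h1 : -((w:ℤ) - ρ) ≤ (l:ℤ) * i ∧ (l:ℤ) * i ≤ (w:ℤ) - ρ := abs_le.1 (by omega)
  have hg' : g ∈ RE ((b:ℤ) - ρ) b ((l:ℤ) * i - ρ) ((l:ℤ) * i + ρ) := hg
  set z : ℤ := (l:ℤ) * i with hz
  constructor
  · have : RE ((b:ℤ) - ρ) b (z - ρ) (z + ρ) ⊆ boxE N := by
      unfold boxE
      exact RE_subset (by omega) (by omega) (by omega) (by omega)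
    exact this hg'
  · apply not_box
    obtain ⟨x, y, _ | _⟩ := g
    · rw [mem_RE_false] at hg'
      simp only
      omega
    · rw [mem_RE_true] at hg'
      simp only
      omega

theorem hb_rt {b w N k ρ l : ℕ} (hk : k + w < b) (hbN : b ≤ N) {i : ℤ}
    (hi : |(l:ℤ) * i| + ρ ≤ w) {g : Edg} (hg : g ∈ hbE Dir.rt (-b) (l * i) ρ) :
    g ∈ boxE N ∧ g ∉ boxE k := by
  have h1 : -((w:ℤ) - ρ) ≤ (l:ℤ) * i ∧ (l:ℤ) * i ≤ (w:ℤ) - ρ := abs_le.1 (by omega)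
  have hg' : g ∈ RE (-(b:ℤ)) (-(b:ℤ) + ρ) ((l:ℤ) * i - ρ) ((l:ℤ) * i + ρ) := hg
  set z : ℤ := (l:ℤ) * i with hz
  constructor
  · have : RE (-(b:ℤ)) (-(b:ℤ) + ρ) (z - ρ) (z + ρ) ⊆ boxE N := by
      unfold boxE
      exact RE_subset (by omega) (by omega) (by omega) (by omega)
    exact this hg'
  · apply not_box
    obtain ⟨x, y, _ | _⟩ := g
    · rw [mem_RE_false] at hg'
      simp only
      omega
    · rw [mem_RE_true] at hg'
      simp only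
      omega

theorem bad_loc {b w N k ρ l : ℕ} (hk : k + w < b) (hbN : b ≤ N) {F G : Finset Edg}
    (hFG : ∀ g : Edg, g ∈ boxE N → g ∉ boxE k → (g ∈ F ↔ g ∈ G)) (h : Bad b w ρ l F) :
    Bad b w ρ l G := by
  rcases h with ⟨c, h1, h2, h3⟩ | ⟨i, h1, h2⟩
  · exact Or.inl ⟨c, h1, h2, crs_loc hk hbN h1 (fun g hg hg' => (hFG g hg hg').1) h3⟩
  · right
    refine ⟨i, h1, ?_⟩
    rcases h2 with h2 | h2
    · left
      exact h4_loc (fun g hg => hFG g (hb_lf hk hbN h1 hg).1 (hb_lf hk hbN h1 hg).2) h2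
    · right
      exact h4_loc (fun g hg => hFG g (hb_rt hk hbN h1 hg).1 (hb_rt hk hbN h1 hg).2) h2

theorem indep {q : ℝ} (h0 : 0 ≤ q) (h1 : q ≤ 1) {b w N k ρ l : ℕ} (hk : 1 ≤ k)
    (hkw : k + w < b) (hbN : b ≤ N) (β : Bool) :
    PQ q (boxE N) (fun F => Y2 b w N (e0 β) ↑F ∧ Bad b w ρ l F) ≤
      a4 q k * PQ q (boxE N) (Bad b w ρ l) := by
  have hok : Ok (fun _ : Edg => q) := okq h0 h1
  have hkN : k ≤ N := by omega
  have hstep : PQ q (boxE N) (fun F => Y2 b w N (e0 β) ↑F ∧ Bad b w ρ l F) ≤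
      PQ q (boxE N) (fun F => A4 (-k) k (-k) k (e0 β) ↑F ∧ Bad b w ρ l F) := by
    apply Pr_mono hok
    rintro F hF ⟨h2, h3⟩
    exact ⟨y2_a4 hk (by omega) hbN (by omega) hF h2, h3⟩
  refine hstep.trans ?_
  have hind := Pr_indep (p := fun _ : Edg => q) (U := boxE N)
    (S := boxE k) (T := boxE N \ boxE k)
    (A := fun F => A4 (-k) k (-k) k (e0 β) ↑F) (B := Bad b w ρ l)
    (boxE_mono hkN) Finset.sdiff_subset Finset.disjoint_sdiff
    (fun F _ => A4_inter (Finset.Subset.refl _)) (by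
      intro F hF
      have key : ∀ g : Edg, g ∈ boxE N → g ∉ boxE k → (g ∈ F ↔ g ∈ F ∩ (boxE N \ boxE k)) := by
        intro g hg hg'
        rw [Finset.mem_inter, Finset.mem_sdiff]
        exact ⟨fun h => ⟨h, hg, hg'⟩, fun h => h.1⟩
      exact ⟨bad_loc hkw hbN key, bad_loc hkw hbN (fun g hg hg' => (key g hg hg').symm)⟩)
  unfold PQ
  rw [hind]
  refine mul_le_mul_of_nonneg_right ?_ (Pr_nonneg hok _ _)
  have h2 : Pr (fun _ : Edg => q) (boxE N) (fun F => A4 (-k) k (-k) k (e0 β) ↑F) = a4b q k β :=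
    Pr_local (S' := boxE k) (boxE_mono hkN) (fun F _ => A4_inter (Finset.Subset.refl _))
  rw [h2]
  exact a4b_le h0 h1 k β

/-! ### the probability of the bad event -/

theorem choose_M0 {C d c ε : ℝ} (hd : 0 ≤ d) (hc : 0 < c) (hε : 0 < ε) (N0 : ℕ) :
    ∃ M : ℕ, N0 ≤ M ∧ C * (d / M) ^ c ≤ ε := by
  have h1 : Filter.Tendsto (fun M : ℕ => (C * d ^ c) * (M:ℝ) ^ (-c)) Filter.atTop
      (nhds ((C * d ^ c) * 0)) :=
    ((tendsto_rpow_neg_atTop hc).comp tendsto_natCast_atTop_atTop).const_mul _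
  rw [mul_zero] at h1
  have h2 := (h1.eventually (gt_mem_nhds hε)).and
    ((Filter.eventually_ge_atTop N0).and (Filter.eventually_ge_atTop 1))
  obtain ⟨M, h3, h4, h5⟩ := h2.exists
  refine ⟨M, h4, ?_⟩
  have hM0 : (0:ℝ) < M := by exact_mod_cast h5
  refine le_trans (le_of_eq ?_) h3.le
  rw [Real.div_rpow hd hM0.le, Real.rpow_neg hM0.le, div_eq_mul_inv, mul_assoc]

/-- The four corners. -/
def corners (b w : ℕ) : Finset (ℤ × ℤ) :=
  {((b:ℤ), (w:ℤ)), ((b:ℤ), -(w:ℤ)), (-(b:ℤ), (w:ℤ)), (-(b:ℤ), -(w:ℤ))}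

theorem corners_card (b w : ℕ) : (corners b w).card ≤ 4 := by
  unfold corners
  exact Finset.card_le_four

theorem mem_corners {b w : ℕ} {c : ℤ × ℤ} (h1 : c.1 = b ∨ c.1 = -(b:ℤ))
    (h2 : c.2 = w ∨ c.2 = -(w:ℤ)) : c ∈ corners b w := by
  obtain ⟨x, y⟩ := c
  simp only at h1 h2
  unfold corners
  simp only [Finset.mem_insert, Finset.mem_singleton, Prod.mk.injEq]
  omega

theorem bad_prob (κ : ℝ) (hκ : 0 < κ) {C4 c4 : ℝ} (hC4 : 0 < C4) (hc4 : 0 < c4)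
    (h4 : H4B κ C4 c4) (δ : ℝ) (hδ : 0 < δ) : ∃ M3 M4 : ℕ, 32 ≤ M3 ∧ 32 * M3 ≤ M4 ∧
      ∀ (q : ℝ) (n : ℕ), Win q κ n → ∀ w b N : ℕ, M4 ≤ w → 4 * w ≤ b → b ≤ N → w ≤ n →
        PQ q (boxE N) (Bad b w (w / M3) (w / M4)) ≤ δ := by
  obtain ⟨C1, c1, hC1, hc1, harm⟩ := win_arm_of
    (@fun _ _ _ h _ hm hmn a b S => win_blk h hm hmn a b S) κ hκ
  obtain ⟨M3, hM3, hM3'⟩ := choose_M0 (C := 4 * C1) (d := 16) (by norm_num) hc1
    (half_pos hδ) 32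
  obtain ⟨M4, hM4, hM4'⟩ := choose_M 4 1 (2 * C4) (16 * M3) (by norm_num) (by norm_num)
    (by positivity) (by positivity) hc4 (half_pos hδ) (32 * M3)
  refine ⟨M3, M4, hM3, hM4, ?_⟩
  intro q n hW w b N hw hwb hbN hwn
  have h0 := hW.q0
  have h1 := hW.q1
  have hok := hW.ok
  have hM3w : M3 ≤ w := by omega
  set ρ := w / M3 with hρ
  set l := w / M4 with hl
  have hl1 : 1 ≤ l := (Nat.one_le_div_iff (by omega)).mpr hw
  have hlM : l * M4 ≤ w := Nat.div_mul_le_self w M4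
  have hρM : ρ * M3 ≤ w := Nat.div_mul_le_self w M3
  have hlρ : 32 * l ≤ ρ := by
    rw [hρ, Nat.le_div_iff_mul_le (by omega)]
    calc 32 * l * M3 = l * (32 * M3) := by ring
      _ ≤ l * M4 := Nat.mul_le_mul_left _ hM4
      _ ≤ w := hlM
  have hρw : 32 * ρ ≤ w := by
    calc 32 * ρ = ρ * 32 := by ring
      _ ≤ ρ * M3 := Nat.mul_le_mul_left _ hM3
      _ ≤ w := hρM
  have hρn : ρ ≤ n := by omega
  have hwR : (0:ℝ) < w := by
    have : 0 < w := by omega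
    exact_mod_cast this
  have hM3R : (0:ℝ) < M3 := by
    have : 0 < M3 := by omega
    exact_mod_cast this
  have hM4R : (0:ℝ) < M4 := by
    have : 0 < M4 := by omega
    exact_mod_cast this
  have hρR : (w:ℝ) / (2 * M3) ≤ ρ := div_ge (by omega) hM3w
  have hρ0 : (0:ℝ) < ρ := lt_of_lt_of_le (by positivity) hρR
  have hlR : (l:ℝ) ≤ w / M4 := by
    rw [le_div_iff₀ hM4R]
    exact_mod_cast hlM
  have hρR' : (ρ:ℝ) ≤ w / M3 := by
    rw [le_div_iff₀ hM3R]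
    exact_mod_cast hρM
  -- corners
  have hcor : ∀ c ∈ corners b w, PQ q (boxE N) (fun F =>
      Crs c.1 c.2 (4 * ρ) (w / 2) (↑(F ∩ boxE b) : Set Edg)) ≤ C1 * (16 / M3) ^ c1 := by
    intro c _
    have i1 := (harm q n hW (4 * ρ) (w / 2) (by omega) (by omega) (by omega) c.1 c.2 (boxE N)).1
    have i2 : PQ q (boxE N) (fun F => Crs c.1 c.2 (4 * ρ) (w / 2) (↑(F ∩ boxE b) : Set Edg)) ≤
        PQ q (boxE N) (fun F => Crs c.1 c.2 (4 * ρ) (w / 2) (↑F : Set Edg)) := by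
      apply Pr_mono hok
      rintro F _ ⟨x, y, k1, k2, k3⟩
      refine ⟨x, y, k1, k2, k3.mono ?_⟩
      rw [Finset.coe_inter]
      exact Set.inter_subset_left
    refine i2.trans (i1.trans ?_)
    have hw2 : (w:ℝ) / 4 ≤ ((w / 2 : ℕ) : ℝ) := by
      have : w ≤ 4 * (w / 2) := by omega
      have : (w:ℝ) ≤ 4 * ((w / 2 : ℕ) : ℝ) := by exact_mod_cast this
      linarith
    have hw20 : (0:ℝ) < ((w / 2 : ℕ) : ℝ) := lt_of_lt_of_le (by positivity) hw2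
    refine mul_le_mul_of_nonneg_left ?_ hC1.le
    refine Real.rpow_le_rpow (by positivity) ?_ hc1.le
    rw [div_le_div_iff₀ hw20 hM3R]
    push_cast
    have : (ρ:ℝ) * M3 ≤ w := by exact_mod_cast hρM
    nlinarith
  have hP1 : PQ q (boxE N) (fun F => ∃ c ∈ corners b w,
      Crs c.1 c.2 (4 * ρ) (w / 2) (↑(F ∩ boxE b) : Set Edg)) ≤ δ / 2 := by
    refine (pr_biUnion h0 h1 (boxE N) (corners b w) (fun c F =>
      Crs c.1 c.2 (4 * ρ) (w / 2) (↑(F ∩ boxE b) : Set Edg))).trans ?_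
    refine (Finset.sum_le_card_nsmul _ _ _ hcor).trans ?_
    rw [nsmul_eq_mul]
    have hcc : ((corners b w).card : ℝ) ≤ 4 := by exact_mod_cast corners_card b w
    have hpos : 0 ≤ C1 * (16 / (M3:ℝ)) ^ c1 := by positivity
    calc ((corners b w).card : ℝ) * (C1 * (16 / (M3:ℝ)) ^ c1) ≤ 4 * (C1 * (16 / (M3:ℝ)) ^ c1) :=
          mul_le_mul_of_nonneg_right hcc hpos
      _ = 4 * C1 * (16 / (M3:ℝ)) ^ c1 := by ring
      _ ≤ δ / 2 := hM3'
  -- half balls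
  have hratio : ((8 * l : ℕ) : ℝ) / ρ ≤ 16 * M3 / M4 := by
    rw [div_le_div_iff₀ hρ0 hM4R]
    push_cast
    have e1 : (l:ℝ) * M4 ≤ w := by exact_mod_cast hlM
    have e2 : (w:ℝ) ≤ 2 * M3 * ρ := by
      rw [div_le_iff₀ (by positivity)] at hρR
      linarith
    nlinarith
  have hterm : ∀ i : ℤ, |(l:ℤ) * i| + ρ ≤ w → PQ q (boxE N) (fun F =>
      H4 Dir.lf b (l * i) (8 * l) ρ (↑F : Set Edg) ∨
        H4 Dir.rt (-b) (l * i) (8 * l) ρ (↑F : Set Edg)) ≤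
      2 * C4 * (16 * M3 / M4) ^ (1 + c4) := by
    intro i hi
    have j1 := h4 q n hW (8 * l) ρ (by omega) (by omega) hρn Dir.lf b (l * i) (boxE N)
      (fun g hg => (hb_lf (k := 0) (by omega) hbN hi hg).1)
    have j2 := h4 q n hW (8 * l) ρ (by omega) (by omega) hρn Dir.rt (-b) (l * i) (boxE N)
      (fun g hg => (hb_rt (k := 0) (by omega) hbN hi hg).1)
    have j3 := ratio_le (c := c4) (by positivity) hratio hc4
    have j4 := mul_le_mul_of_nonneg_left j3 hC4.le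
    refine (Pr_or_le hok _ _ _).trans ?_
    unfold PQ at j1 j2
    linarith
  have hfin : ∀ i : ℤ, |(l:ℤ) * i| + ρ ≤ w → i ∈ Finset.Icc (-(2 * M4 : ℤ)) (2 * M4) := by
    intro i hi
    have e1 : w < 2 * M4 * l := by
      have e2 : w < M4 * (w / M4) + M4 := by
        have := Nat.div_add_mod w M4
        have := Nat.mod_lt w (show M4 > 0 by omega)
        omega
      calc w < M4 * l + M4 := e2
        _ ≤ M4 * l + M4 * l := by
            have : M4 * 1 ≤ M4 * l := Nat.mul_le_mul_left _ hl1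
            omega
        _ = 2 * M4 * l := by ring
    have e3 : (l:ℤ) * |i| < (l:ℤ) * (2 * M4) := by
      have e4 : |(l:ℤ) * i| = (l:ℤ) * |i| := by
        rw [abs_mul, Nat.abs_cast]
      rw [← e4]
      have : (w:ℤ) < 2 * M4 * l := by exact_mod_cast e1
      have : (2:ℤ) * M4 * l = (l:ℤ) * (2 * M4) := by ring
      omega
    have e5 : |i| < 2 * M4 := lt_of_mul_lt_mul_left e3 (by positivity)
    rw [Finset.mem_Icc]
    exact ⟨by have := neg_abs_le i; omega, by have := le_abs_self i; omega⟩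
  have hP2 : PQ q (boxE N) (fun F => ∃ i : ℤ, |(l:ℤ) * i| + ρ ≤ w ∧
      (H4 Dir.lf b (l * i) (8 * l) ρ (↑F : Set Edg) ∨
        H4 Dir.rt (-b) (l * i) (8 * l) ρ (↑F : Set Edg))) ≤ δ / 2 := by
    have e1 : PQ q (boxE N) (fun F => ∃ i : ℤ, |(l:ℤ) * i| + ρ ≤ w ∧
        (H4 Dir.lf b (l * i) (8 * l) ρ (↑F : Set Edg) ∨
        H4 Dir.rt (-b) (l * i) (8 * l) ρ (↑F : Set Edg))) ≤
        PQ q (boxE N) (fun F => ∃ i ∈ (Finset.Icc (-(2 * M4 : ℤ)) (2 * M4)).filter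
          (fun i : ℤ => |(l:ℤ) * i| + ρ ≤ w),
          (H4 Dir.lf b (l * i) (8 * l) ρ (↑F : Set Edg) ∨
          H4 Dir.rt (-b) (l * i) (8 * l) ρ (↑F : Set Edg))) := by
      apply Pr_mono hok
      rintro F _ ⟨i, k1, k2⟩
      exact ⟨i, Finset.mem_filter.2 ⟨hfin i k1, k1⟩, k2⟩
    refine e1.trans ((pr_biUnion h0 h1 (boxE N) _ (fun (i : ℤ) F =>
      (H4 Dir.lf b (l * i) (8 * l) ρ (↑F : Set Edg) ∨
          H4 Dir.rt (-b) (l * i) (8 * l) ρ (↑F : Set Edg)))).trans ?_)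
    refine (Finset.sum_le_card_nsmul _ _ _ (fun i hi =>
      hterm i (Finset.mem_filter.1 hi).2)).trans ?_
    rw [nsmul_eq_mul]
    have hcc : (((Finset.Icc (-(2 * M4 : ℤ)) (2 * M4)).filter
          (fun i : ℤ => |(l:ℤ) * i| + ρ ≤ w)).card : ℝ) ≤ 4 * M4 + 1 := by
      have e2 : ((Finset.Icc (-(2 * M4 : ℤ)) (2 * M4)).filter
          (fun i : ℤ => |(l:ℤ) * i| + ρ ≤ w)).card ≤ 4 * M4 + 1 := by
        refine (Finset.card_filter_le _ _).trans ?_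
        rw [Int.card_Icc]
        omega
      exact_mod_cast e2
    have hpos : 0 ≤ 2 * C4 * (16 * M3 / (M4:ℝ)) ^ (1 + c4) := by positivity
    exact (mul_le_mul_of_nonneg_right hcc hpos).trans hM4'
  have hmain : PQ q (boxE N) (Bad b w ρ l) ≤ PQ q (boxE N) (fun F => (∃ c ∈ corners b w,
      Crs c.1 c.2 (4 * ρ) (w / 2) (↑(F ∩ boxE b) : Set Edg)) ∨ (∃ i : ℤ, |(l:ℤ) * i| + ρ ≤ w ∧
      (H4 Dir.lf b (l * i) (8 * l) ρ (↑F : Set Edg) ∨
        H4 Dir.rt (-b) (l * i) (8 * l) ρ (↑F : Set Edg)))) := by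
    apply Pr_mono hok
    rintro F _ (⟨c, k1, k2, k3⟩ | h)
    · exact Or.inl ⟨c, mem_corners k1 k2, k3⟩
    · exact Or.inr h
  refine hmain.trans ((Pr_or_le hok _ _ _).trans ?_)
  unfold PQ at hP1 hP2
  linarith

/-! ### opening the tubes -/

theorem open_tubes (hfail : Fail3) {q κ : ℝ} {n : ℕ} (hW : Win q κ n) {b w N ρ l : ℕ}
    (hl : 1 ≤ l) (h1 : 32 * l ≤ ρ) (h2 : 32 * ρ ≤ w) (hwb : 4 * w ≤ b) (hbN : 2 * b ≤ N)
    (hln : 2 * l ≤ n) {N' : ℕ} (hN' : N + 1 ≤ N' * l) {e : Edg} (he : e ∈ boxE (b / 2)) :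
    PQ q (boxE N) (fun F => Y2 b w N e ↑F ∧ ¬ Bad b w ρ l F) * κ ^ (4 * (2 * N' + 1) ^ 2) ≤
      PQ q (boxE N) (fun F => Plus b w N e ↑F) := by
  have hok := hW.ok
  have hbN' : b ≤ N := by omega
  have hwN' : w ≤ N := by omega
  have hXH : XH b w N ⊆ boxE N := XH_sub hbN' hwN'
  have hXV : XV b w N ⊆ boxE N := XV_sub hbN' hwN'
  have hbXH : boxE b ⊆ XH b w N := by
    unfold XH
    exact Finset.subset_union_left
  have hbXV : boxE b ⊆ XV b w N := by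
    unfold XV
    exact Finset.subset_union_left
  set T' : Finset Edg := boxE N \ XH b w N with hT'
  set D : Finset Edg := XH b w N \ boxE b with hD
  have hun : boxE N = T' ∪ (boxE b ∪ D) := by
    rw [hD, Finset.union_sdiff_of_subset hbXH, hT', Finset.sdiff_union_of_subset hXH]
  have hXHun : boxE b ∪ D = XH b w N := by
    rw [hD, Finset.union_sdiff_of_subset hbXH]
  have hdis : Disjoint T' (boxE b ∪ D) := by
    rw [hXHun, hT']
    exact Finset.sdiff_disjoint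
  have heb : e ∈ boxE b := boxE_mono (Nat.div_le_self b 2) he
  -- the trap probability
  have htrap : κ ^ (4 * (2 * N' + 1) ^ 2) ≤ Pr (fun _ : Edg => q) (boxE b ∪ D)
      (fun F => TrapG src tgt (↑D : Set Edg) (Nr (4 * l)) (↑F : Set Edg) ∧ True) := by
    refine (trap_prob hW hl hln (N := N') 0 0 (boxE b ∪ D)).1.trans (Pr_mono hok ?_)
    intro F _ hF
    refine ⟨?_, trivial⟩
    intro v hv v' _ hr
    refine hF v v' ?_ hr
    have hN2 : (N:ℤ) + 1 ≤ N' * l := by exact_mod_cast hN'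
    obtain ⟨g, hg, hgv⟩ := hv
    have hg2 : g ∈ RE (-(N:ℤ)) N (-N) N := by
      rw [Finset.mem_coe, hD, Finset.mem_sdiff] at hg
      exact hXH hg.1
    obtain ⟨k1, k2⟩ := ends_RE hg2
    unfold inR at *
    rcases hgv with rfl | rfl
    · constructor <;> constructor <;> linarith [k1.1.1, k1.1.2, k1.2.1, k1.2.2]
    · constructor <;> constructor <;> linarith [k2.1.1, k2.1.2, k2.2.1, k2.2.2]
  have hκ0 : (0:ℝ) ≤ κ ^ (4 * (2 * N' + 1) ^ 2) := pow_nonneg hW.kpos.le _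
  -- fibre by fibre
  unfold PQ Pr
  rw [hun, Ex_union hdis, Ex_union hdis, ← Ex_mul_right]
  apply Ex_mono hok
  intro F2 hF2
  have hF2' : ∀ g ∈ F2, g ∈ boxE N ∧ g ∉ XH b w N := fun g hg => Finset.mem_sdiff.1 (hF2 hg)
  set O' : Set Edg := (↑(F2 ∩ XV b w N) : Set Edg) with hO'
  have hOO : O' ⊆ (↑T' : Set Edg) := by
    intro g hg
    rw [hO', Finset.mem_coe, Finset.mem_inter] at hg
    exact hF2 hg.1
  have hO1 : Disjoint (↑T' : Set Edg) ↑(boxE b ∪ D) := by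
    rw [Finset.disjoint_coe]
    exact hdis
  have huf := unforceG hok src tgt (S0 := boxE b) (D := D) (by
      rw [hD]; exact Finset.disjoint_sdiff) (O := (↑T' : Set Edg)) (O' := O') hOO hO1
    (I := botV N) (J := topV N) (e := e) heb (Nr (4 * l)) (H := fun _ => True)
    (fun _ _ _ _ => trivial) (fun _ => Iff.rfl)
  -- identities of sets
  have key : ∀ F1, F1 ⊆ boxE b ∪ D → (F2 ∪ F1 ⊆ boxE N ∧
      ((↑(F2 ∪ F1) : Set Edg) ∩ ↑(XV b w N) = ↑(F1 ∩ boxE b) ∪ O') ∧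
      (F2 ∪ F1) ∩ boxE b = F1 ∩ boxE b ∧ (↑(F2 ∪ F1) : Set Edg) ∩ ↑(XH b w N) = ↑F1) := by
    intro F1 hF1
    have hF1' : F1 ⊆ XH b w N := by rwa [hXHun] at hF1
    refine ⟨?_, ?_, ?_, ?_⟩
    · exact Finset.union_subset (fun g hg => (hF2' g hg).1) (hF1'.trans hXH)
    · ext g
      simp only [hO', Set.mem_inter_iff, Finset.mem_coe, Finset.mem_union, Set.mem_union,
        Finset.mem_inter]
      constructor
      · rintro ⟨k1 | k1, k2⟩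
        · exact Or.inr ⟨k1, k2⟩
        · exact Or.inl ⟨k1, XV_XH (by omega) k2 (hF1' k1)⟩
      · rintro (⟨k1, k2⟩ | ⟨k1, k2⟩)
        · exact ⟨Or.inr k1, hbXV k2⟩
        · exact ⟨Or.inl k1, k2⟩
    · ext g
      simp only [Finset.mem_union, Finset.mem_inter]
      constructor
      · rintro ⟨k1 | k1, k2⟩
        · exact absurd (hbXH k2) (hF2' g k1).2
        · exact ⟨k1, k2⟩
      · rintro ⟨k1, k2⟩
        exact ⟨Or.inr k1, k2⟩
    · ext g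
      simp only [Set.mem_inter_iff, Finset.mem_coe, Finset.mem_union]
      constructor
      · rintro ⟨k1 | k1, k2⟩
        · exact absurd k2 (hF2' g k1).2
        · exact k1
      · intro k1
        exact ⟨Or.inr k1, hF1' k1⟩
  have hleft : Pr (fun _ : Edg => q) (boxE b ∪ D)
      (fun F1 => Y2 b w N e (↑(F2 ∪ F1) : Set Edg) ∧ ¬ Bad b w ρ l (F2 ∪ F1)) ≤
      Pr (fun _ : Edg => q) (boxE b ∪ D) (fun F =>
        (CnG src tgt (botV N) (topV N) (insert e (↑(F ∩ boxE b) ∪ O')) ∧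
        ¬ CnG src tgt (botV N) (topV N) ((↑(F ∩ boxE b) ∪ (↑T' : Set Edg)) \ {e})) ∧
        NFar src tgt (botV N) (topV N) e ↑D (Nr (4 * l)) (↑(F ∩ boxE b) ∪ (↑T' : Set Edg)) ∧
        (∀ g ∈ (↑T' : Set Edg),
          src g ∈ Cl src tgt (botV N) ((↑(F ∩ boxE b) ∪ (↑T' : Set Edg)) \ {e}) ∨
          src g ∈ Cl src tgt (topV N) ((↑(F ∩ boxE b) ∪ (↑T' : Set Edg)) \ {e}))) := by
    apply Pr_mono hok
    rintro F1 hF1 ⟨hY, hB⟩
    obtain ⟨k1, k2, k3, -⟩ := key F1 hF1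
    obtain ⟨f1, f2⟩ := hfail hl h1 h2 hwb hbN he k1 hY hB
    obtain ⟨y1, y2⟩ := hY
    rw [k2] at y1
    rw [← Finset.coe_inter, k3] at y2
    rw [k3] at f1 f2
    exact ⟨⟨y1, y2⟩, f1, fun g hg => f2 g hg⟩
  have hright : Pr (fun _ : Edg => q) (boxE b ∪ D) (fun F =>
      (CnG src tgt (botV N) (topV N) (insert e (↑(F ∩ boxE b) ∪ O')) ∧
        ¬ CnG src tgt (botV N) (topV N) ((↑F ∪ (↑T' : Set Edg)) \ {e})) ∧ True) ≤
      Pr (fun _ : Edg => q) (boxE b ∪ D) (fun F1 => Plus b w N e (↑(F2 ∪ F1) : Set Edg)) := by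
    apply Pr_mono hok
    rintro F1 hF1 ⟨⟨y1, y2⟩, -⟩
    obtain ⟨-, k2, -, k4⟩ := key F1 hF1
    unfold Plus
    rw [k2, k4]
    exact ⟨y1, y2⟩
  have hnn : 0 ≤ Pr (fun _ : Edg => q) (boxE b ∪ D)
      (fun F1 => Y2 b w N e (↑(F2 ∪ F1) : Set Edg) ∧ ¬ Bad b w ρ l (F2 ∪ F1)) :=
    Pr_nonneg hok _ _
  calc Ex (fun _ : Edg => q) (boxE b ∪ D) (fun F1 =>
        ind (Y2 b w N e (↑(F2 ∪ F1) : Set Edg) ∧ ¬ Bad b w ρ l (F2 ∪ F1))) *
          κ ^ (4 * (2 * N' + 1) ^ 2)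
      ≤ _ := mul_le_mul hleft htrap hκ0 (hnn.trans hleft)
    _ ≤ _ := huf
    _ ≤ _ := hright

end S3

/-- Third step, from the bound for `H4` and the deterministic failure lemma. -/
theorem step3_of (κ : ℝ) (hκ : 0 < κ) {C4 c4 : ℝ} (hC4 : 0 < C4) (hc4 : 0 < c4)
    (h4 : S3.H4B κ C4 c4) (hfail : S3.Fail3) (L M2 : ℕ) (hL : 2 ≤ L) (hM2 : 512 ≤ M2) (δ : ℝ)
    (hδ : 0 < δ) : ∃ (Mr : ℕ) (c : ℝ), 1 ≤ Mr ∧ 0 < c ∧ ∀ (q : ℝ) (n : ℕ), Win q κ n →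
      ∀ r m b : ℕ, Mr ≤ r → m = M2 * r → b = 4 * L * m → 16 * L * m ≤ n → ∀ β : Bool,
      c * (PQ q (boxE (16 * L * m)) (fun F => Y2 b m (16 * L * m) (e0 β) ↑F) - δ * a4 q (m / 8)) ≤
        PQ q (boxE (16 * L * m)) (fun F => Plus b m (16 * L * m) (e0 β) ↑F) := by
  obtain ⟨M3, M4, hM3, hM4, hbad⟩ := S3.bad_prob κ hκ hC4 hc4 h4 δ hδ
  refine ⟨M4, κ ^ (4 * (2 * (32 * L * M4 + 1) + 1) ^ 2), by omega, pow_pos hκ _, ?_⟩
  intro q n hW r m b hr hm hb hn β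
  have h0 := hW.q0
  have h1 := hW.q1
  have hok := hW.ok
  have hrm : r ≤ m := by
    rw [hm]
    exact Nat.le_mul_of_pos_left _ (by omega)
  have hM2m : M2 ≤ m := by
    rw [hm]
    exact Nat.le_mul_of_pos_right _ (by omega)
  have hM4m : M4 ≤ m := hr.trans hrm
  have hLm : m ≤ L * m := Nat.le_mul_of_pos_left _ (by omega)
  have hb' : b = 4 * (L * m) := by rw [hb]; ring
  have hN' : 16 * L * m = 16 * (L * m) := by ring
  have hLm2 : 2 * m ≤ L * m := Nat.mul_le_mul_right _ hL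
  set N : ℕ := 16 * L * m with hN
  set l := m / M4 with hl
  set ρ := m / M3 with hρ
  have hl1 : 1 ≤ l := (Nat.one_le_div_iff (by omega)).mpr hM4m
  have hlM : l * M4 ≤ m := Nat.div_mul_le_self m M4
  have hρM : ρ * M3 ≤ m := Nat.div_mul_le_self m M3
  have hlρ : 32 * l ≤ ρ := by
    rw [hρ, Nat.le_div_iff_mul_le (by omega)]
    calc 32 * l * M3 = l * (32 * M3) := by ring
      _ ≤ l * M4 := Nat.mul_le_mul_left _ hM4
      _ ≤ m := hlM
  have hρw : 32 * ρ ≤ m := by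
    calc 32 * ρ = ρ * 32 := by ring
      _ ≤ ρ * M3 := Nat.mul_le_mul_left _ hM3
      _ ≤ m := hρM
  have hNl : N + 1 ≤ (32 * L * M4 + 1) * l := by
    have e2 : m < M4 * l + M4 := by
      have e2' : m < M4 * (m / M4) + M4 := by
        have := Nat.div_add_mod m M4
        have := Nat.mod_lt m (show M4 > 0 by omega)
        omega
      exact e2'
    have e3 : M4 * 1 ≤ M4 * l := Nat.mul_le_mul_left _ hl1
    have e4 : m ≤ 2 * (M4 * l) := by omega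
    have e5 : L * m ≤ L * (2 * (M4 * l)) := Nat.mul_le_mul_left _ e4
    have e6 : (32 * L * M4 + 1) * l = 16 * (L * (2 * (M4 * l))) + l := by ring
    omega
  have hopen := S3.open_tubes hfail hW (b := b) (w := m) (N := N) (ρ := ρ) (l := l) hl1 hlρ hρw
    (by omega) (by omega) (by omega) hNl (e := e0 β) (by
      unfold boxE
      exact S3.e0_mem (by omega) β)
  have hind := S3.indep h0 h1 (b := b) (w := m) (N := N) (k := m / 8) (ρ := ρ) (l := l)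
    (by omega) (by omega) (by omega) β
  have hB := hbad q n hW m b N hM4m (by omega) (by omega) (by omega)
  have ha4 : 0 ≤ a4 q (m / 8) := a4_nonneg h0 h1 _
  have hsplit : PQ q (boxE N) (fun F => Y2 b m N (e0 β) ↑F) ≤
      PQ q (boxE N) (fun F => Y2 b m N (e0 β) ↑F ∧ ¬ S3.Bad b m ρ l F) +
        PQ q (boxE N) (fun F => Y2 b m N (e0 β) ↑F ∧ S3.Bad b m ρ l F) := by
    refine le_trans (Pr_mono hok ?_) (Pr_or_le hok _ _ _)
    intro F _ hF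
    by_cases hbF : S3.Bad b m ρ l F
    · exact Or.inr ⟨hF, hbF⟩
    · exact Or.inl ⟨hF, hbF⟩
  have hbd : PQ q (boxE N) (fun F => Y2 b m N (e0 β) ↑F ∧ S3.Bad b m ρ l F) ≤
      δ * a4 q (m / 8) := by
    refine hind.trans ?_
    rw [mul_comm δ]
    exact mul_le_mul_of_nonneg_left hB ha4
  have hκp : 0 < κ ^ (4 * (2 * (32 * L * M4 + 1) + 1) ^ 2) := pow_pos hκ _
  calc κ ^ (4 * (2 * (32 * L * M4 + 1) + 1) ^ 2) *
        (PQ q (boxE N) (fun F => Y2 b m N (e0 β) ↑F) - δ * a4 q (m / 8))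
      ≤ κ ^ (4 * (2 * (32 * L * M4 + 1) + 1) ^ 2) *
        PQ q (boxE N) (fun F => Y2 b m N (e0 β) ↑F ∧ ¬ S3.Bad b m ρ l F) :=
        mul_le_mul_of_nonneg_left (by linarith) hκp.le
    _ = PQ q (boxE N) (fun F => Y2 b m N (e0 β) ↑F ∧ ¬ S3.Bad b m ρ l F) *
        κ ^ (4 * (2 * (32 * L * M4 + 1) + 1) ^ 2) := mul_comm _ _
    _ ≤ _ := hopen

/-- Third step. -/
theorem step3 (κ : ℝ) (hκ : 0 < κ) (L M2 : ℕ) (hL : 2 ≤ L) (hM2 : 512 ≤ M2) (δ : ℝ)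
    (hδ : 0 < δ) : ∃ (Mr : ℕ) (c : ℝ), 1 ≤ Mr ∧ 0 < c ∧ ∀ (q : ℝ) (n : ℕ), Win q κ n →
      ∀ r m b : ℕ, Mr ≤ r → m = M2 * r → b = 4 * L * m → 16 * L * m ≤ n → ∀ β : Bool,
      c * (PQ q (boxE (16 * L * m)) (fun F => Y2 b m (16 * L * m) (e0 β) ↑F) - δ * a4 q (m / 8)) ≤
        PQ q (boxE (16 * L * m)) (fun F => Plus b m (16 * L * m) (e0 β) ↑F) := by
  obtain ⟨C4, c4, hC4, hc4, h4⟩ := H4_bound κ hκ
  exact step3_of κ hκ hC4 hc4 h4 (fun hl h1 h2 hwb hbN _ he _ hF hY hB =>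
    fail3_det hl h1 h2 hwb hbN he hF hY hB) L M2 hL hM2 δ hδ

end H12S
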