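import Pool.Agent.H12R2.Sep.Cor
import Pool.Agent.H12R2.Sep.Step1
import Pool.Agent.H12R2.Sep.Step1D
import Pool.Agent.H12R2.Sep.Step2
import Pool.Agent.H12R2.Sep.Step2P
import Pool.Agent.H12R2.Sep.EnvPlus
import Pool.Agent.H12R2.Sep.Step3
import Pool.Agent.H12R2.Sep.KeyC
import Pool.Agent.H12R2.Sep.PlusGlue
import Pool.Agent.H12R2.Sep.PlusKey

/-! The plus event, closed form: `plus_glue` and `plus_key` without hypotheses. -/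

namespace H12S

open H974 Finset

theorem corS : CorS := by
  intro L M2 B W hL hM hB hW σ σ' k k' hk hk' hs
  exact cor_exists hL hM hB hW hk hk' hs

theorem step1Det : Step1Det := by
  intro L M1 M2 h1 h2 h3 r m b N l h4 h5 h6 h7 h8 σ σ' k k' Q1 Q3 h9 h10 β QV O h11 h12 F h13 h14
  exact step1_det h1 h2 h3 h4 h5 h6 h7 h8 h9 h10 h11 h12 h13 h14

theorem step1S : Step1S := by
  intro κ hκ L M1 M2 hL hM1 hM2
  exact step1_of step1Det κ hκ L M1 M2 hL hM1 hM2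

theorem envPlusSt : EnvPlusSt := by
  intro L M2 h1 h2 r m b N h3 h4 h5 h6 σ σ' k k' Q1 Q3 h7 h8 h9 β QV h10
  exact env_plus h1 h2 h3 h4 h5 h6 h7 h8 h9 h10

theorem step2S : Step2S := by
  intro κ hκ L M2 hL hM2 δ hδ
  exact step2_plus_of (fun κ hκ K δ hδ => step2 κ hκ K δ hδ) envPlusSt κ hκ L M2 hL hM2 δ hδ

theorem step3S : Step3S := fun κ hκ L M2 hL hM2 δ hδ => step3 κ hκ L M2 hL hM2 δ hδ

/-- PG. -/
theorem plus_glue (κ : ℝ) (hκ : 0 < κ) (L M1 M2 : ℕ) (hL : 2 ≤ L) (hM1 : 64 ≤ M1)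
    (hM2 : 8 * M1 ≤ M2) (δ : ℝ) (hδ : 0 < δ) : ∃ (Mr : ℕ) (c : ℝ), 1 ≤ Mr ∧ 0 < c ∧
      ∀ (q : ℝ) (n : ℕ), Win q κ n → ∀ r m : ℕ, Mr ≤ r → m = M2 * r → 16 * L * m ≤ n →
      ∀ (σ σ' : Bool) (k k' : ℤ), |2 * k| ≤ L * M2 + 1 → |2 * k'| ≤ L * M2 + 1 → ∀ β : Bool,
      c * (PQ q (SR L m) (fun F => Sev L m r (m / M1) σ (2 * r * k) σ' (2 * r * k') (e0 β) ↑F)
          - δ * a4 q (m / 8)) ≤
        PQ q (boxE (16 * L * m)) (fun F => Plus (4 * L * m) m (16 * L * m) (e0 β) ↑F) :=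
  plus_glue_of corS step1S step2S step3S κ hκ L M1 M2 hL hM1 hM2 δ hδ

/-- Separation of four arms. -/
theorem plus_key (κ : ℝ) (hκ : 0 < κ) (ε : ℝ) (hε : 0 < ε) (hε1 : ε < 1) :
    ∃ (L : ℕ) (C : ℝ) (k0 : ℕ), 2 ≤ L ∧ 0 < C ∧ ∀ (q : ℝ) (n : ℕ), Win q κ n → ∀ k : ℕ, k0 ≤ k →
      k ≤ n → a4 q k ≤ (k:ℝ) ^ (-(2:ℝ)) ∨ ∃ (m : ℕ) (β : Bool), 1 ≤ m ∧ (k:ℝ) ^ (1 - ε) ≤ m ∧
        16 * L * m ≤ k ∧ a4 q k ≤ C * PQ q (boxE (16 * L * m))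
          (fun F => Plus (4 * L * m) m (16 * L * m) (e0 β) ↑F) :=
  plus_key_of (fun κ hκ ε hε hε1 => key_center κ hκ ε hε hε1)
    (fun κ hκ L M1 M2 hL hM1 hM2 δ hδ => plus_glue κ hκ L M1 M2 hL hM1 hM2 δ hδ) κ hκ ε hε hε1

end H12S
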