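import Pool.Agent.H12R2.Sep.Defs2

/-!
ST: stability of the RSW window and of the four-arm upper bounds (continuous induction).
(helper806) The inputs of the other tasks are hypotheses of `stab_of`.
-/

set_option maxHeartbeats 1000000

namespace H12S

open H974 Finset

namespace STx

/-- a finite family of continuous functions which improves itself -/
theorem cont_ind {ι : Type*} (I : Finset ι) (f : ι → ℝ → ℝ) (b : ι → ℝ) (s : ℝ)
    (hc : ∀ i ∈ I, Continuous (f i)) (h0 : ∀ i ∈ I, f i 0 < b i)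
    (hstep : ∀ t, 0 ≤ t → t ≤ s → (∀ t', 0 ≤ t' → t' ≤ t → ∀ i ∈ I, f i t' ≤ b i) →
      ∀ i ∈ I, f i t < b i) : ∀ t, 0 ≤ t → t ≤ s → ∀ i ∈ I, f i t ≤ b i := by
  by_contra hcon
  push Not at hcon
  obtain ⟨t1, ht1, ht1s, i1, hi1, hf1⟩ := hcon
  let Bad : Set ℝ := Set.Icc 0 s ∩ ⋃ i ∈ I, {t | b i ≤ f i t}
  have hcl : IsClosed (⋃ i ∈ I, {t | b i ≤ f i t}) :=
    isClosed_biUnion_finset fun i hi => isClosed_le continuous_const (hc i hi)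
  have hcp : IsCompact Bad := isCompact_Icc.inter_right hcl
  have hne : Bad.Nonempty := ⟨t1, ⟨ht1, ht1s⟩, Set.mem_biUnion hi1 hf1.le⟩
  obtain ⟨t0, ht0, hmin⟩ := hcp.exists_isLeast hne
  have hlt : ∀ t', 0 ≤ t' → t' < t0 → ∀ i ∈ I, f i t' < b i := by
    intro t' h1 h2 i hi
    by_contra h3
    push Not at h3
    have : t0 ≤ t' := hmin ⟨⟨h1, h2.le.trans ht0.1.2⟩, Set.mem_biUnion hi h3⟩
    linarith
  have h00 : 0 < t0 := by
    rcases ht0.1.1.eq_or_lt with h | h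
    · exfalso
      obtain ⟨i, hi, hb⟩ := Set.mem_iUnion₂.1 ht0.2
      have := h0 i hi
      rw [← h] at hb
      simp only [Set.mem_ofPred_eq] at hb
      linarith
    · exact h
  have hle : ∀ t', 0 ≤ t' → t' ≤ t0 → ∀ i ∈ I, f i t' ≤ b i := by
    intro t' h1 h2 i hi
    rcases h2.eq_or_lt with h | h
    · rw [h]
      refine le_of_tendsto (((hc i hi).tendsto t0).mono_left nhdsWithin_le_nhds :
        Filter.Tendsto (f i) (nhdsWithin t0 (Set.Iio t0)) _) ?_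
      filter_upwards [Ioo_mem_nhdsLT h00] with u hu
      exact (hlt u hu.1.le hu.2 i hi).le
    · exact (hlt t' h1 h i hi).le
  obtain ⟨i, hi, hb⟩ := Set.mem_iUnion₂.1 ht0.2
  have := hstep t0 ht0.1.1 ht0.1.2 hle i hi
  simp only [Set.mem_ofPred_eq] at hb
  linarith

/-- mean value inequality -/
theorem mv {f : ℝ → ℝ} {p q C : ℝ}
    (h : ∀ x ∈ Set.uIcc p q, ∃ D, HasDerivAt f D x ∧ |D| ≤ C) :
    |f q - f p| ≤ C * |q - p| := by
  have h1 := (convex_uIcc p q).norm_image_sub_le_of_norm_hasDerivWithin_le (f := f)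
    (f' := fun x => deriv f x) (C := C) (x := p) (y := q) ?_ ?_ Set.left_mem_uIcc
    Set.right_mem_uIcc
  · simpa [Real.norm_eq_abs] using h1
  · intro x hx
    obtain ⟨D, hD, -⟩ := h x hx
    rw [hD.deriv]
    exact hD.hasDerivWithinAt
  · intro x hx
    obtain ⟨D, hD, hb⟩ := h x hx
    rw [hD.deriv, Real.norm_eq_abs]
    exact hb

theorem cont_Pr (S : Finset Edg) (A : Finset Edg → Prop) :
    Continuous (fun q : ℝ => Pr (fun _ => q) S A) := by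
  unfold Pr Ex
  fun_prop

theorem cont_hh (w h : ℤ) : Continuous (fun q : ℝ => hh q w h) := cont_Pr _ _

theorem cont_a4 (k : ℕ) : Continuous (fun q : ℝ => a4 q k) := by
  unfold a4 PQ
  exact (cont_Pr _ _).add (cont_Pr _ _)

/-- the sign -/
def sn (σ : Bool) : ℝ := if σ then 1 else -1

theorem sn_not (σ : Bool) : sn (!σ) = - sn σ := by cases σ <;> simp [sn]

theorem sn_abs (σ : Bool) : |sn σ| = 1 := by cases σ <;> simp [sn]

theorem exists_sn (x : ℝ) : ∃ σ, x = sn σ * |x| := by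
  rcases le_total 0 x with h | h
  · exact ⟨true, by simp [sn, abs_of_nonneg h]⟩
  · exact ⟨false, by simp [sn, abs_of_nonpos h]⟩

/-- the family of functions -/
noncomputable def ff : Bool × Bool × ℕ → ℝ → ℝ
  | (σ, false, h), t => - hh (1/2 + sn σ * t) (16 * ((max h 1 : ℕ) : ℤ)) ((max h 1 : ℕ) : ℤ)
  | (σ, true, k), t => a4 (1/2 + sn σ * t) k

theorem cont_ff (i : Bool × Bool × ℕ) : Continuous (ff i) := by
  obtain ⟨σ, τ, k⟩ := i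
  have h1 : Continuous (fun t : ℝ => 1/2 + sn σ * t) := by fun_prop
  cases τ
  · exact ((cont_hh _ _).comp h1).neg
  · exact (cont_a4 k).comp h1

/-- the bounds -/
noncomputable def bb (κ A ε : ℝ) : Bool × Bool × ℕ → ℝ
  | (_, false, _) => -κ
  | (_, true, k) => A * ((k:ℝ) + 1) ^ (-(5/4 : ℝ) + ε)

theorem ok_of {κ A ε t' : ℝ} {n : ℕ} (hκ : 0 < κ) (hκ2 : κ ≤ 1 / 2) (ht' : 0 ≤ t')
    (ht2 : t' ≤ 1 / 4)
    (h : ∀ i ∈ (univ : Finset Bool) ×ˢ (univ : Finset Bool) ×ˢ range (n + 1),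
      ff i t' ≤ bb κ A ε i) (σ : Bool) :
    Win (1/2 + sn σ * t') κ n ∧ A4le (1/2 + sn σ * t') A ε n := by
  have hmem : ∀ (σ τ : Bool) (k : ℕ), k ≤ n →
      (σ, τ, k) ∈ (univ : Finset Bool) ×ˢ (univ : Finset Bool) ×ˢ range (n + 1) := by
    intro σ τ k hk
    simp only [mem_product, mem_univ, mem_range, true_and]
    omega
  have hH : ∀ (σ : Bool) (k : ℕ), 1 ≤ k → k ≤ n →
      κ ≤ hh (1/2 + sn σ * t') (16 * (k:ℤ)) (k:ℤ) := by
    intro σ k h1 h2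
    have h3 := h _ (hmem σ false k h2)
    simp only [ff, bb, max_eq_left h1] at h3
    linarith
  have hab : |sn σ * t'| ≤ 1/4 := by rw [abs_mul, sn_abs, one_mul, abs_of_nonneg ht']; exact ht2
  have hab' := abs_le.1 hab
  refine ⟨⟨hκ, hκ2, by linarith [hab'.1], by linarith [hab'.2], hH σ, ?_⟩, ?_⟩
  · intro k h1 h2
    have h3 := hH (!σ) k h1 h2
    rw [sn_not] at h3
    have e : (1:ℝ) - (1/2 + sn σ * t') = 1/2 + -sn σ * t' := by ring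
    rw [e]
    exact h3
  · intro k hk
    exact h _ (hmem σ true k hk)

/-! ### powers -/

theorem rpow_shift {k : ℝ} (hk : 1 ≤ k) {e : ℝ} (he : e ≤ 0) (he2 : -2 ≤ e) :
    k ^ e ≤ 4 * (k + 1) ^ e := by
  have h1 : ((k + 1) / 2) ^ (-e) ≤ k ^ (-e) :=
    Real.rpow_le_rpow (by linarith) (by linarith) (by linarith)
  have h2 : k ^ e ≤ ((k + 1) / 2) ^ e := Real.rpow_le_rpow_of_nonpos (by linarith) (by linarith) he
  have h3 : ((k + 1) / 2) ^ e = (k + 1) ^ e * 2 ^ (-e) := by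
    rw [Real.div_rpow (by linarith) (by norm_num), Real.rpow_neg (by norm_num), div_eq_mul_inv]
  have h4 : (2:ℝ) ^ (-e) ≤ 2 ^ (2:ℝ) := Real.rpow_le_rpow_of_exponent_le (by norm_num) (by linarith)
  have h5 : (2:ℝ) ^ (2:ℝ) = 4 := by norm_num
  have h6 : 0 ≤ (k + 1) ^ e := Real.rpow_nonneg (by linarith) _
  rw [h3] at h2
  nlinarith

end STx

open STx in
/-- STABILITY, with the results of the other tasks as hypotheses. -/
theorem stab_of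
    (win_half : ∃ κ : ℝ, 0 < κ ∧ ∀ n : ℕ, Win (1/2) κ n)
    (a4_anti : ∀ {q : ℝ} (_ : 0 ≤ q) (_ : q ≤ 1) {j k : ℕ} (_ : j ≤ k), a4 q k ≤ a4 q j)
    (a4_le_two : ∀ {q : ℝ} (_ : 0 ≤ q) (_ : q ≤ 1) (k : ℕ), a4 q k ≤ 2)
    (key : ∀ (κ : ℝ) (_ : 0 < κ) (ε : ℝ) (_ : 0 < ε) (_ : ε < 1),
      ∃ (L M1 M2 : ℕ) (C : ℝ) (k0 : ℕ), 2 ≤ L ∧ 64 ≤ M1 ∧ 8 * M1 ≤ M2 ∧ 0 < C ∧
      ∀ (q : ℝ) (n : ℕ), Win q κ n → ∀ k : ℕ, k0 ≤ k → k ≤ n →
        a4 q k ≤ (k:ℝ) ^ (-(2:ℝ)) ∨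
        ∃ m : ℕ, M2 ≤ m ∧ (k:ℝ) ^ (1 - ε) ≤ m ∧ 4 * L * m ≤ k ∧
          a4 q (m / 8) ≤ C * a4 q (4 * L * m) ∧
          ∃ (σ : Bool) (k1 : ℤ) (σ' : Bool) (k2 : ℤ),
            |2 * (m / M2 : ℕ) * k1| ≤ (L * m : ℕ) + (m / M2 : ℕ) ∧
            |2 * (m / M2 : ℕ) * k2| ≤ (L * m : ℕ) + (m / M2 : ℕ) ∧
            (m:ℝ) ^ 2 * a4 q (4 * L * m) ≤ C * TQ q L m (m / M2) (m / M1) σ k1 σ' k2)
    (TQ_le_TP : ∀ {q : ℝ} (_ : 0 ≤ q) (_ : q ≤ 1) (L m : ℕ) {r ρ : ℕ} (_ : r ≤ 2 * ρ)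
      (σ : Bool) (k : ℤ) (σ' : Bool) (k' : ℤ),
      TQ q L m r ρ σ k σ' k' ≤ TP q L m r σ k σ' k')
    (tp_deriv : ∀ (κ : ℝ) (_ : 0 < κ) (L : ℕ) (_ : 2 ≤ L), ∃ C : ℝ, 0 < C ∧ ∀ (q : ℝ) (n : ℕ),
      Win q κ n → ∀ (A ε : ℝ), 1 ≤ A → 0 < ε → ε ≤ 1 / 8 → A4le q A ε n → ∀ (m r : ℕ), 1 ≤ m →
      4 * L * m ≤ n → ∀ (σ : Bool) (k1 : ℤ) (σ' : Bool) (k2 : ℤ), ∃ D : ℝ,
        HasDerivAt (fun q => TP q L m r σ k1 σ' k2) D q ∧
          |D| ≤ C * A ^ 2 * (m:ℝ) ^ (3/2 + 2 * ε))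
    (tp_le : ∀ {q : ℝ} (_ : 0 ≤ q) (_ : q ≤ 1) {L m r : ℕ} (_ : 16 ≤ m) (_ : 2 ≤ L) (σ : Bool)
      (k1 : ℤ) (σ' : Bool) (k2 : ℤ), TP q L m r σ k1 σ' k2 ≤ (m:ℝ) ^ 2 * a4 q (m / 2))
    (hh_deriv : ∀ (κ : ℝ) (_ : 0 < κ), ∃ C : ℝ, 0 < C ∧ ∀ (q : ℝ) (n : ℕ),
      Win q κ n → ∀ (A ε : ℝ), 1 ≤ A → 0 < ε → ε ≤ 1 / 8 → A4le q A ε n → ∀ (h : ℕ), 1 ≤ h →
      h ≤ n → ∃ D : ℝ, HasDerivAt (fun q => hh q (16 * h) h) D q ∧
        |D| ≤ C * A * (h:ℝ) ^ (3/4 + ε))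
    (hcrit : ∀ ε : ℝ, 0 < ε → ∃ C : ℝ, ∀ k : ℕ, 1 ≤ k →
      a4 (1/2) k ≤ C * (k:ℝ) ^ (-(5/4 : ℝ) + ε)) :
    ∃ κ : ℝ, 0 < κ ∧ ∀ ε : ℝ, 0 < ε → ε ≤ 1 / 8 → ∃ C : ℝ, 1 ≤ C ∧ ∀ n : ℕ, 1 ≤ n → ∀ q : ℝ,
      |q - 1/2| ≤ (n:ℝ) ^ (-(3/4 : ℝ) - ε) / C → Win q κ n ∧ A4le q C ε n := by
  obtain ⟨κ0, hκ0, hwin⟩ := win_half
  have hκ0le : κ0 ≤ 1 / 2 := (hwin 0).kle
  obtain ⟨κ, hκdef⟩ : ∃ κ : ℝ, κ = κ0 / 2 := ⟨_, rfl⟩
  have hκ : 0 < κ := by rw [hκdef]; positivity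
  refine ⟨κ, hκ, fun ε hε hε8 => ?_⟩
  have hκ2 : κ ≤ 1 / 2 := by linarith
  obtain ⟨C1, hC1, hD1⟩ := hh_deriv κ hκ
  obtain ⟨ε1, hε1⟩ : ∃ ε1 : ℝ, ε1 = ε / 4 := ⟨_, rfl⟩
  obtain ⟨ε2, hε2⟩ : ∃ ε2 : ℝ, ε2 = ε1 / 4 := ⟨_, rfl⟩
  have hε1p : 0 < ε1 := by rw [hε1]; positivity
  have hε2p : 0 < ε2 := by rw [hε2]; positivity
  obtain ⟨L, M1, M2, C2, k0, hL, hM1, hM2, hC2, hkey⟩ := key κ hκ ε2 hε2p (by linarith)
  obtain ⟨C3, hC3, hD3⟩ := tp_deriv κ hκ L hL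
  obtain ⟨C4, hC4⟩ := hcrit ε2 hε2p
  obtain ⟨C4', hC4'⟩ : ∃ C : ℝ, C = max C4 1 := ⟨_, rfl⟩
  have hC4p : 1 ≤ C4' := by rw [hC4']; exact le_max_right _ _
  have hC4q : C4 ≤ C4' := by rw [hC4']; exact le_max_left _ _
  have hcr : ∀ k : ℕ, 1 ≤ k → a4 (1/2) k ≤ C4' * (k:ℝ) ^ (-(5/4 : ℝ) + ε2) := fun k hk =>
    (hC4 k hk).trans (mul_le_mul_of_nonneg_right hC4q (Real.rpow_nonneg (by positivity) _))
  obtain ⟨A, hA⟩ : ∃ A : ℝ, A = 3 * ((k0:ℝ) + 1) ^ 2 + 5 + 4 * (C2 * (16 * C4' + 1)) + 4 * C4' :=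
    ⟨_, rfl⟩
  have hC4z : 0 < C4' := by linarith
  have z1 : 0 ≤ 3 * ((k0:ℝ) + 1) ^ 2 := by positivity
  have z2 : 0 ≤ 4 * (C2 * (16 * C4' + 1)) := by positivity
  have hA0 : 3 * ((k0:ℝ) + 1) ^ 2 ≤ A := by rw [hA]; linarith
  have hA5 : 5 ≤ A := by rw [hA]; linarith
  have hA2 : 4 * (C2 * (16 * C4' + 1)) < A := by rw [hA]; linarith
  have hA4 : 4 * C4' < A := by rw [hA]; linarith
  have hA1 : 1 ≤ A := by linarith
  clear hA
  obtain ⟨Cs, hCs⟩ : ∃ Cs : ℝ, Cs = 4 + A + C3 * A ^ 2 + 4 * C1 * A / κ0 := ⟨_, rfl⟩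
  have p1 : 0 ≤ C3 * A ^ 2 := by positivity
  have p2 : 0 ≤ 4 * C1 * A / κ0 := by positivity
  have hCs4 : 4 ≤ Cs := by rw [hCs]; linarith
  have hCsA : A ≤ Cs := by rw [hCs]; linarith
  have hCs3 : C3 * A ^ 2 ≤ Cs := by rw [hCs]; linarith
  have hCs1 : 4 * C1 * A / κ0 ≤ Cs := by rw [hCs]; linarith
  have hCsp : 0 < Cs := by linarith
  clear hCs p1 p2
  refine ⟨Cs, by linarith, fun n hn q hq => ?_⟩
  have hn1 : (1:ℝ) ≤ n := by exact_mod_cast hn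
  obtain ⟨s, hs⟩ : ∃ s : ℝ, s = (n:ℝ) ^ (-(3/4 : ℝ) - ε) / Cs := ⟨_, rfl⟩
  have hns : (n:ℝ) ^ (-(3/4 : ℝ) - ε) ≤ 1 :=
    Real.rpow_le_one_of_one_le_of_nonpos hn1 (by linarith)
  have hs4 : s ≤ 1 / 4 := by
    rw [hs, div_le_iff₀ hCsp]
    linarith
  have hexp1 : -(5/4 : ℝ) + ε1 ≤ 0 := by linarith
  have hexp2 : -2 ≤ -(5/4 : ℝ) + ε1 := by linarith
  -- the bounds for k = 0 and for small k
  have hpos : ∀ k : ℕ, 0 < ((k:ℝ) + 1) ^ (-(5/4 : ℝ) + ε1) := fun k =>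
    Real.rpow_pos_of_pos (by positivity) _
  have hsmall : ∀ k : ℕ, k ≤ k0 → 2 < A * ((k:ℝ) + 1) ^ (-(5/4 : ℝ) + ε1) := by
    intro k hk
    have h1 : ((k0:ℝ) + 1) ^ (-(2:ℝ)) ≤ ((k:ℝ) + 1) ^ (-(5/4 : ℝ) + ε1) := by
      calc ((k0:ℝ) + 1) ^ (-(2:ℝ)) ≤ ((k:ℝ) + 1) ^ (-(2:ℝ)) :=
            Real.rpow_le_rpow_of_nonpos (by positivity)
              (by have : (k:ℝ) ≤ k0 := by exact_mod_cast hk
                  linarith) (by norm_num)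
        _ ≤ ((k:ℝ) + 1) ^ (-(5/4 : ℝ) + ε1) :=
            Real.rpow_le_rpow_of_exponent_le (by linarith [Nat.cast_nonneg (α := ℝ) k]) hexp2
    have h2 : ((k0:ℝ) + 1) ^ (-(2:ℝ)) = (((k0:ℝ) + 1) ^ 2)⁻¹ := by
      rw [Real.rpow_neg (by positivity)]
      norm_num
    have h3 : 0 < ((k0:ℝ) + 1) ^ 2 := by positivity
    have h4 : 3 ≤ A * (((k0:ℝ) + 1) ^ 2)⁻¹ := by
      rw [← div_eq_mul_inv, le_div_iff₀ h3]
      exact hA0
    rw [h2] at h1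
    have h5 := mul_le_mul_of_nonneg_left h1 (by linarith : (0:ℝ) ≤ A)
    linarith
  -- the induction
  have main := cont_ind ((univ : Finset Bool) ×ˢ (univ : Finset Bool) ×ˢ range (n + 1))
    ff (bb κ A ε1) s (fun i _ => cont_ff i) ?_ ?_
  · have hq0 : |q - 1/2| ≤ s := by rw [hs]; exact hq
    obtain ⟨σ, hσ⟩ := exists_sn (q - 1/2)
    have h1 := ok_of hκ hκ2 (abs_nonneg (q - 1/2)) (hq0.trans hs4)
      (main _ (abs_nonneg _) hq0) σ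
    have h2 : 1/2 + sn σ * |q - 1/2| = q := by rw [← hσ]; ring
    rw [h2] at h1
    refine ⟨h1.1, fun k hk => (h1.2 k hk).trans ?_⟩
    refine mul_le_mul hCsA (Real.rpow_le_rpow_of_exponent_le
      (by linarith [Nat.cast_nonneg (α := ℝ) k]) (by linarith)) (hpos k).le (by linarith)
  · rintro ⟨σ, τ, k⟩ hi
    simp only [mem_product, mem_univ, mem_range, true_and] at hi
    cases τ
    · simp only [ff, bb, mul_zero, add_zero]
      have h1 := (hwin n).pri (max k 1) (le_max_right _ _) (by omega)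
      linarith
    · simp only [ff, bb, mul_zero, add_zero]
      rcases Nat.eq_zero_or_pos k with rfl | hk
      · exact (a4_le_two (by norm_num) (by norm_num) 0).trans_lt (hsmall 0 (Nat.zero_le _))
      · have hk1 : (1:ℝ) ≤ k := by exact_mod_cast hk
        calc a4 (1/2) k ≤ C4' * (k:ℝ) ^ (-(5/4 : ℝ) + ε2) := hcr k hk
          _ ≤ C4' * (k:ℝ) ^ (-(5/4 : ℝ) + ε1) := by
              refine mul_le_mul_of_nonneg_left (Real.rpow_le_rpow_of_exponent_le hk1 (by linarith))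
                (by linarith)
          _ ≤ C4' * (4 * ((k:ℝ) + 1) ^ (-(5/4 : ℝ) + ε1)) :=
              mul_le_mul_of_nonneg_left (rpow_shift hk1 hexp1 hexp2) (by linarith)
          _ < A * ((k:ℝ) + 1) ^ (-(5/4 : ℝ) + ε1) := by
              have := mul_lt_mul_of_pos_right hA4 (hpos k)
              linarith
  · intro t ht0 hts hall
    have hOK : ∀ q' : ℝ, |q' - 1/2| ≤ t → Win q' κ n ∧ A4le q' A ε1 n := by
      intro q' hq'
      obtain ⟨σ, hσ⟩ := exists_sn (q' - 1/2)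
      have h1 := ok_of hκ hκ2 (abs_nonneg (q' - 1/2)) (hq'.trans (hts.trans hs4))
        (hall _ (abs_nonneg _) hq') σ
      have h2 : 1/2 + sn σ * |q' - 1/2| = q' := by rw [← hσ]; ring
      rw [h2] at h1
      exact h1
    rintro ⟨σ, τ, k⟩ hi
    simp only [mem_product, mem_univ, mem_range, true_and] at hi
    obtain ⟨qt, hqt⟩ : ∃ qt : ℝ, qt = 1/2 + sn σ * t := ⟨_, rfl⟩
    have hqt1 : |qt - 1/2| = t := by
      rw [hqt, add_sub_cancel_left, abs_mul, sn_abs, one_mul, abs_of_nonneg ht0]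
    have hseg : ∀ x ∈ Set.uIcc (1/2) qt, |x - 1/2| ≤ t := by
      intro x hx
      rw [← hqt1]
      have := Set.abs_sub_left_of_mem_uIcc hx
      exact this
    obtain ⟨hW, hAq⟩ := hOK qt hqt1.le
    cases τ
    · -- crossing probabilities
      simp only [ff, bb]
      rw [← hqt]
      obtain ⟨h, hh'⟩ : ∃ h : ℕ, h = max k 1 := ⟨_, rfl⟩
      rw [← hh']
      have h1 : 1 ≤ h := by rw [hh']; exact le_max_right _ _
      have h2 : h ≤ n := by omega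
      have h1r : (1:ℝ) ≤ h := by exact_mod_cast h1
      have h2r : (h:ℝ) ≤ n := by exact_mod_cast h2
      have hmv := mv (f := fun q => hh q (16 * (h:ℤ)) (h:ℤ)) (p := 1/2) (q := qt)
        (C := C1 * A * (h:ℝ) ^ (3/4 + ε1)) (fun x hx => by
          obtain ⟨w1, w2⟩ := hOK x (hseg x hx)
          exact hD1 x n w1 A ε1 hA1 hε1p (by linarith) w2 h h1 h2)
      rw [hqt1] at hmv
      have h3 := (hwin n).pri h h1 h2
      have h4 : C1 * A * (h:ℝ) ^ (3/4 + ε1) * t ≤ κ0 / 4 := by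
        have h5 : (h:ℝ) ^ (3/4 + ε1) ≤ (n:ℝ) ^ (3/4 + ε) :=
          (Real.rpow_le_rpow (by positivity) h2r (by linarith)).trans
            (Real.rpow_le_rpow_of_exponent_le hn1 (by linarith))
        have h6 : (h:ℝ) ^ (3/4 + ε1) * t ≤ 1 / Cs := by
          calc (h:ℝ) ^ (3/4 + ε1) * t ≤ (n:ℝ) ^ (3/4 + ε) * s :=
                mul_le_mul h5 hts ht0 (Real.rpow_nonneg (by positivity) _)
            _ = 1 / Cs := by
                rw [hs, mul_div_assoc', ← Real.rpow_add (by linarith)]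
                rw [show (3/4 + ε + (-(3/4 : ℝ) - ε)) = 0 by ring, Real.rpow_zero]
        have h7 : 0 ≤ C1 * A := by positivity
        calc C1 * A * (h:ℝ) ^ (3/4 + ε1) * t = C1 * A * ((h:ℝ) ^ (3/4 + ε1) * t) := by ring
          _ ≤ C1 * A * (1 / Cs) := mul_le_mul_of_nonneg_left h6 h7
          _ ≤ κ0 / 4 := by
              rw [mul_one_div, div_le_iff₀ hCsp]
              rw [div_le_iff₀ hκ0] at hCs1
              linarith
      have h8 := (abs_le.1 (hmv.trans h4)).1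
      linarith
    · -- four arms
      simp only [ff, bb]
      rw [← hqt]
      have hq0 := (by linarith [hW.lo] : (0:ℝ) ≤ qt)
      have hq1 := (by linarith [hW.hi] : qt ≤ 1)
      by_cases hk0 : k ≤ k0
      · exact (a4_le_two hq0 hq1 k).trans_lt (hsmall k hk0)
      push Not at hk0
      have hk1 : 1 ≤ k := by omega
      have hk1r : (1:ℝ) ≤ k := by exact_mod_cast hk1
      rcases hkey qt n hW k hk0.le (by omega) with h1 | ⟨m, hm2, hmk, hLm, -, σ1, k1, σ2, k2, -, -,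
        hTQ⟩
      · calc a4 qt k ≤ (k:ℝ) ^ (-(2:ℝ)) := h1
          _ ≤ (k:ℝ) ^ (-(5/4 : ℝ) + ε1) := Real.rpow_le_rpow_of_exponent_le hk1r hexp2
          _ ≤ 4 * ((k:ℝ) + 1) ^ (-(5/4 : ℝ) + ε1) := rpow_shift hk1r hexp1 hexp2
          _ < A * ((k:ℝ) + 1) ^ (-(5/4 : ℝ) + ε1) :=
              mul_lt_mul_of_pos_right (by linarith) (hpos k)
      · have hm16 : 512 ≤ m := by omega
        have hmpos : (0:ℝ) < m := by exact_mod_cast (by omega : 0 < m)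
        have hm1 : (1:ℝ) ≤ m := by exact_mod_cast (by omega : 1 ≤ m)
        have hmk' : m ≤ 4 * L * m := Nat.le_mul_of_pos_left m (by omega)
        have hmn : (m:ℝ) ≤ n := by exact_mod_cast (by omega : m ≤ n)
        have hr : m / M2 ≤ 2 * (m / M1) := by
          have : m / M2 ≤ m / M1 := Nat.div_le_div_left (by omega) (by omega)
          omega
        have hmv := mv (f := fun q => TP q L m (m / M2) σ1 k1 σ2 k2) (p := 1/2) (q := qt)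
          (C := C3 * A ^ 2 * (m:ℝ) ^ (3/2 + 2 * ε1)) (fun x hx => by
            obtain ⟨w1, w2⟩ := hOK x (hseg x hx)
            exact hD3 x n w1 A ε1 hA1 hε1p (by linarith) w2 m (m / M2) (by omega) (by omega)
              σ1 k1 σ2 k2)
        rw [hqt1] at hmv
        have t1 := TQ_le_TP hq0 hq1 L m hr σ1 k1 σ2 k2
        have t2 := tp_le (q := 1/2) (L := L) (m := m) (r := m / M2) (by norm_num) (by norm_num)
          (by omega) hL σ1 k1 σ2 k2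
        have t3 : a4 (1/2) (m / 2) ≤ 16 * C4' * (m:ℝ) ^ (-(5/4 : ℝ) + ε2) := by
          have u1 := hcr (m / 2) (by omega)
          have u2 : (m:ℝ) / 4 ≤ ((m / 2 : ℕ) : ℝ) := by
            have : m ≤ 4 * (m / 2) := by omega
            have : (m:ℝ) ≤ 4 * ((m / 2 : ℕ) : ℝ) := by exact_mod_cast this
            linarith
          have u3 : ((m / 2 : ℕ) : ℝ) ^ (-(5/4 : ℝ) + ε2) ≤ ((m:ℝ) / 4) ^ (-(5/4 : ℝ) + ε2) :=
            Real.rpow_le_rpow_of_nonpos (by positivity) u2 (by linarith)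
          have u4 : ((m:ℝ) / 4) ^ (-(5/4 : ℝ) + ε2) =
              (m:ℝ) ^ (-(5/4 : ℝ) + ε2) * 4 ^ (-(-(5/4 : ℝ) + ε2)) := by
            rw [Real.div_rpow hmpos.le (by norm_num), Real.rpow_neg (by norm_num), div_eq_mul_inv]
          have u5 : (4:ℝ) ^ (-(-(5/4 : ℝ) + ε2)) ≤ 16 := by
            calc (4:ℝ) ^ (-(-(5/4 : ℝ) + ε2)) ≤ 4 ^ (2:ℝ) :=
                  Real.rpow_le_rpow_of_exponent_le (by norm_num) (by linarith)
              _ = 16 := by norm_num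
          have u6 : 0 ≤ (m:ℝ) ^ (-(5/4 : ℝ) + ε2) := Real.rpow_nonneg hmpos.le _
          calc a4 (1/2) (m / 2) ≤ C4' * ((m / 2 : ℕ) : ℝ) ^ (-(5/4 : ℝ) + ε2) := u1
            _ ≤ C4' * ((m:ℝ) ^ (-(5/4 : ℝ) + ε2) * 16) := by
                refine mul_le_mul_of_nonneg_left ?_ (by linarith)
                rw [u4] at u3
                exact u3.trans (mul_le_mul_of_nonneg_left u5 u6)
            _ = 16 * C4' * (m:ℝ) ^ (-(5/4 : ℝ) + ε2) := by ring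
        have t4 : C3 * A ^ 2 * (m:ℝ) ^ (3/2 + 2 * ε1) * t ≤
            (m:ℝ) ^ 2 * (m:ℝ) ^ (-(5/4 : ℝ) + ε2) := by
          have v1 : (n:ℝ) ^ (-(3/4 : ℝ) - ε) ≤ (m:ℝ) ^ (-(3/4 : ℝ) - ε) :=
            Real.rpow_le_rpow_of_nonpos hmpos hmn (by linarith)
          have v2 : 0 ≤ (m:ℝ) ^ (3/2 + 2 * ε1) := Real.rpow_nonneg hmpos.le _
          have v3 : C3 * A ^ 2 * t ≤ (m:ℝ) ^ (-(3/4 : ℝ) - ε) := by
            calc C3 * A ^ 2 * t ≤ Cs * s := mul_le_mul hCs3 hts ht0 hCsp.le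
              _ = (n:ℝ) ^ (-(3/4 : ℝ) - ε) := by rw [hs]; field_simp
              _ ≤ _ := v1
          calc C3 * A ^ 2 * (m:ℝ) ^ (3/2 + 2 * ε1) * t
              = (m:ℝ) ^ (3/2 + 2 * ε1) * (C3 * A ^ 2 * t) := by ring
            _ ≤ (m:ℝ) ^ (3/2 + 2 * ε1) * (m:ℝ) ^ (-(3/4 : ℝ) - ε) :=
                mul_le_mul_of_nonneg_left v3 v2
            _ = (m:ℝ) ^ (3/2 + 2 * ε1 + (-(3/4 : ℝ) - ε)) := (Real.rpow_add hmpos _ _).symm
            _ ≤ (m:ℝ) ^ ((2:ℝ) + (-(5/4 : ℝ) + ε2)) :=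
                Real.rpow_le_rpow_of_exponent_le hm1 (by linarith)
            _ = (m:ℝ) ^ 2 * (m:ℝ) ^ (-(5/4 : ℝ) + ε2) := by
                rw [Real.rpow_add hmpos, Real.rpow_two]
        have hm2p : 0 < (m:ℝ) ^ 2 := by positivity
        have t5 : TP qt L m (m / M2) σ1 k1 σ2 k2 ≤
            (m:ℝ) ^ 2 * ((16 * C4' + 1) * (m:ℝ) ^ (-(5/4 : ℝ) + ε2)) := by
          have w1 := (abs_le.1 hmv).2
          have w2 := mul_le_mul_of_nonneg_left t3 hm2p.le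
          have w3 : (m:ℝ) ^ 2 * ((16 * C4' + 1) * (m:ℝ) ^ (-(5/4 : ℝ) + ε2)) =
              (m:ℝ) ^ 2 * (16 * C4' * (m:ℝ) ^ (-(5/4 : ℝ) + ε2)) +
                (m:ℝ) ^ 2 * (m:ℝ) ^ (-(5/4 : ℝ) + ε2) := by ring
          rw [w3]
          linarith
        have t6 : a4 qt (4 * L * m) ≤ C2 * ((16 * C4' + 1) * (m:ℝ) ^ (-(5/4 : ℝ) + ε2)) := by
          have w1 : (m:ℝ) ^ 2 * a4 qt (4 * L * m) ≤
              (m:ℝ) ^ 2 * (C2 * ((16 * C4' + 1) * (m:ℝ) ^ (-(5/4 : ℝ) + ε2))) := by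
            calc (m:ℝ) ^ 2 * a4 qt (4 * L * m) ≤ C2 * TQ qt L m (m / M2) (m / M1) σ1 k1 σ2 k2 := hTQ
              _ ≤ C2 * ((m:ℝ) ^ 2 * ((16 * C4' + 1) * (m:ℝ) ^ (-(5/4 : ℝ) + ε2))) :=
                  mul_le_mul_of_nonneg_left (t1.trans t5) hC2.le
              _ = _ := by ring
          exact le_of_mul_le_mul_left w1 hm2p
        have t7 : (m:ℝ) ^ (-(5/4 : ℝ) + ε2) ≤ (k:ℝ) ^ (-(5/4 : ℝ) + ε1) := by
          calc (m:ℝ) ^ (-(5/4 : ℝ) + ε2) ≤ ((k:ℝ) ^ (1 - ε2)) ^ (-(5/4 : ℝ) + ε2) :=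
                Real.rpow_le_rpow_of_nonpos (Real.rpow_pos_of_pos (by linarith) _) hmk (by linarith)
            _ = (k:ℝ) ^ ((1 - ε2) * (-(5/4 : ℝ) + ε2)) := (Real.rpow_mul (by linarith) _ _).symm
            _ ≤ (k:ℝ) ^ (-(5/4 : ℝ) + ε1) := by
                refine Real.rpow_le_rpow_of_exponent_le hk1r ?_
                have x1 : (1 - ε2) * (-(5/4 : ℝ) + ε2) = -(5/4) + 9/4 * ε2 - ε2 ^ 2 := by ring
                rw [x1]
                linarith [sq_nonneg ε2]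
        have t8 := rpow_shift hk1r hexp1 hexp2
        have hcc : 0 ≤ C2 * (16 * C4' + 1) := by positivity
        calc a4 qt k ≤ a4 qt (4 * L * m) := a4_anti hq0 hq1 hLm
          _ ≤ C2 * (16 * C4' + 1) * (m:ℝ) ^ (-(5/4 : ℝ) + ε2) := by linarith
          _ ≤ C2 * (16 * C4' + 1) * (4 * ((k:ℝ) + 1) ^ (-(5/4 : ℝ) + ε1)) :=
              mul_le_mul_of_nonneg_left (t7.trans t8) hcc
          _ = 4 * (C2 * (16 * C4' + 1)) * ((k:ℝ) + 1) ^ (-(5/4 : ℝ) + ε1) := by ring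
          _ < A * ((k:ℝ) + 1) ^ (-(5/4 : ℝ) + ε1) := mul_lt_mul_of_pos_right hA2 (hpos k)

end H12S
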