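import Pool.Agent.H12R2.Sep.Step1
import Pool.Agent.H12R2.Sep.Step1D

/-!
S1, closed (helper666).
-/

namespace H12S

open H974 Finset

/-- `m = M2·r`, `b = 4Lm`, `w = m`, `N = 16Lm`. -/
theorem step1 (κ : ℝ) (hκ : 0 < κ) (L M1 M2 : ℕ) (hL : 2 ≤ L) (hM1 : 64 ≤ M1)
    (hM2 : 8 * M1 ≤ M2) : ∃ (Mr : ℕ) (c : ℝ), 1 ≤ Mr ∧ 0 < c ∧ ∀ (q : ℝ) (n : ℕ), Win q κ n →
      ∀ r m b : ℕ, Mr ≤ r → m = M2 * r → b = 4 * L * m → 16 * L * m ≤ n →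
      ∀ (σ σ' : Bool) (k k' : ℤ) (Q1 Q3 : Finset (ℤ × ℤ)), SepQ Q1 Q3 →
      ((Cor L M2 (4 * L * M2) M2 σ k false Q1 ∧ Cor L M2 (4 * L * M2) M2 σ' k' true Q3) ∨
        (Cor L M2 (4 * L * M2) M2 σ' k' false Q1 ∧ Cor L M2 (4 * L * M2) M2 σ k true Q3)) →
      ∀ (β : Bool) (QV : Finset Edg), QV = QE r (Q1 ∪ Q3 ∪ tubQ (4 * L * M2) M2 (16 * L * M2)) →
      c * PQ q (SR L m) (fun F => Sev L m r (m / M1) σ (2 * r * k) σ' (2 * r * k') (e0 β) ↑F) ≤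
        PQ q (boxE b \ QV) (fun F => Y1 b m (16 * L * m) QV (e0 β) ↑F) :=
  step1_of (by
    intro L M1 M2 hL hM1 hM2 r m b N l hl hlr hm hb hN σ σ' k k' Q1 Q3 hsep hcor β QV O hQV hO F hF hS
    exact step1_det hL hM1 hM2 hl hlr hm hb hN hsep hcor hQV hO hF hS) κ hκ L M1 M2 hL hM1 hM2

end H12S
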