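import Pool.Agent.H12R2.Sep.Defs

/-! Statements (with `sorry`) of the first batch of tasks, table `h12_tasks`. -/

namespace H12S

open H974 Finset

/-! ### MK : stopping sets -/

section Markov
variable {E : Type*} [DecidableEq E]

/-- `K` is a stopping map. -/
def Stop (S : Finset E) (K : Finset E → Finset E) : Prop :=
  ∀ F F', F ⊆ S → F' ⊆ S → F ∩ K F = F' ∩ K F → K F' = K F

theorem markov_le {p : E → ℝ} (hp : Ok p) {S : Finset E} {K : Finset E → Finset E}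
    (hK : Stop S K) {A B : Finset E → Prop}
    (hA : ∀ F F', F ⊆ S → F' ⊆ S → F ∩ K F = F' ∩ K F → A F → A F')
    (hB : ∀ F G : Finset E, F ⊆ G → B F → B G) :
    Pr p S (fun F => A F ∧ B (F \ K F)) ≤ Pr p S A * Pr p S B := sorry

theorem markov_ge {p : E → ℝ} (hp : Ok p) {S : Finset E} {K : Finset E → Finset E}
    (hK : Stop S K) {A B : Finset E → Prop}
    (hA : ∀ F F', F ⊆ S → F' ⊆ S → F ∩ K F = F' ∩ K F → A F → A F')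
    (hB : ∀ F G : Finset E, F ⊆ G → B G → B F) :
    Pr p S A * Pr p S B ≤ Pr p S (fun F => A F ∧ B (F \ K F)) := sorry

end Markov

/-! ### UF : the gluing lemma -/

section Unforce
variable {E V : Type*} [DecidableEq E]

/-- Vertices connected to `I`. -/
def Cl (s t : E → V) (I : Set V) (F : Set E) : Set V := {v | ∃ u ∈ I, GR s t F u v}

def CnG (s t : E → V) (I J : Set V) (F : Set E) : Prop := ∃ u ∈ I, ∃ v ∈ J, GR s t F u v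

def PvG (s t : E → V) (I J : Set V) (e : E) (F : Set E) : Prop :=
  CnG s t I J (insert e F) ∧ ¬ CnG s t I J (F \ {e})

/-- Vertices incident to `D`. -/
def VD (s t : E → V) (D : Set E) : Set V := {v | ∃ g ∈ D, s g = v ∨ t g = v}

/-- The clusters of `I` and of `J` (without `e`) do not come near each other along `D`. -/
def NFar (s t : E → V) (I J : Set V) (e : E) (D : Set E) (Near : V → V → Prop)
    (G : Set E) : Prop :=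
  ∀ v ∈ Cl s t I (G \ {e}), ∀ w ∈ Cl s t J (G \ {e}), v ∈ VD s t D → w ∈ VD s t D → ¬ Near v w

/-- Clusters which touch `D` twice are small. -/
def TrapG (s t : E → V) (D : Set E) (Near : V → V → Prop) (F : Set E) : Prop :=
  ∀ v ∈ VD s t D, ∀ w ∈ VD s t D, GR s t F v w → Near v w

/-- UNFORCE: `S0` is random, `O` is open, `D` is closed at first and random afterwards. `H` is any
decreasing event depending on `D` only. -/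
theorem unforce {p : E → ℝ} (hp : Ok p) (s t : E → V) {S0 D : Finset E} (hSD : Disjoint S0 D)
    {O : Set E} (hO1 : Disjoint O ↑(S0 ∪ D)) {I J : Set V}
    (hO2 : ∀ g ∈ O, s g ∈ Cl s t I O ∨ s g ∈ Cl s t J O) {e : E} (he : e ∈ S0)
    (Near : V → V → Prop) {H : Finset E → Prop} (hH1 : ∀ F G : Finset E, F ⊆ G → H G → H F)
    (hH2 : ∀ F : Finset E, H F ↔ H (F ∩ D)) :
    Pr p (S0 ∪ D) (fun F => PvG s t I J e (↑(F ∩ S0) ∪ O) ∧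
        NFar s t I J e ↑D Near (↑(F ∩ S0) ∪ O)) *
      Pr p (S0 ∪ D) (fun F => TrapG s t ↑D Near ↑F ∧ H F) ≤
    Pr p (S0 ∪ D) (fun F => PvG s t I J e (↑F ∪ O) ∧ H F) := sorry

end Unforce

/-! ### WB, WA : consequences of the window -/

theorem win_blk {q κ : ℝ} {n : ℕ} (h : Win q κ n) {m : ℕ} (hm : 1 ≤ m) (hmn : 2 * m ≤ n)
    (c1 c2 : ℤ) (S : Finset Edg) :
    κ ^ 4 ≤ PQ q S (fun F => ¬ Crs c1 c2 m (3 * m) ↑F) ∧
      κ ^ 4 ≤ PQ q S (fun F => ¬ DCrs c1 c2 m (3 * m) (↑(S \ F) : Set Edg)) := sorry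

/-- Open circuits (and dual circuits). `Circ R1 R2` is the event of `H974R2.Circ`. -/
theorem win_circ {q κ : ℝ} {n : ℕ} (h : Win q κ n) {m : ℕ} (hm : 1 ≤ m) (hmn : 2 * m ≤ n)
    (c1 c2 : ℤ) (S : Finset Edg) (hS : RE (c1 - 3 * m) (c1 + 3 * m) (c2 - 3 * m) (c2 + 3 * m) ⊆ S) :
    κ ^ 4 ≤ PQ q S (fun F => Circ m (3 * m) ((trl (-c1) (-c2)).mp F)) ∧
      κ ^ 4 ≤ PQ q S (fun F => Circ m (3 * m - 1) ((trl (-c1) (-c2)).mp (dmp (S \ F)))) := sorry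

theorem win_arm (κ : ℝ) (hκ : 0 < κ) : ∃ C c : ℝ, 0 < C ∧ 0 < c ∧ ∀ (q : ℝ) (n : ℕ),
    Win q κ n → ∀ ρ R : ℕ, 1 ≤ ρ → ρ ≤ R → R ≤ n → ∀ (c1 c2 : ℤ) (S : Finset Edg),
      PQ q S (fun F => Crs c1 c2 ρ R ↑F) ≤ C * ((ρ:ℝ) / R) ^ c ∧
      PQ q S (fun F => DCrs c1 c2 ρ R (↑(S \ F) : Set Edg)) ≤ C * ((ρ:ℝ) / R) ^ c := sorry

/-- END: a long crossing of a thin box is exponentially unlikely. -/
theorem win_end (κ : ℝ) (hκ : 0 < κ) : ∃ C c : ℝ, 0 < C ∧ 0 < c ∧ ∀ (q : ℝ) (n : ℕ),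
    Win q κ n → ∀ m L : ℕ, 1 ≤ m → 2 * m ≤ n → ∀ (S : Finset Edg),
      S ⊆ RE (-(L * m : ℕ)) (L * m : ℕ) (-m) m →
      PQ q S (fun F => ∃ u v : Vtx, |u.1| ≤ m ∧ (L * m : ℕ) ≤ |v.1| ∧ |u.2| ≤ m ∧
        Reach (↑F : Set Edg) u v) ≤ C * Real.exp (-c * L) := sorry

/-! ### TR : all clusters near a region are small with positive probability -/

theorem trap_prob {q κ : ℝ} {n : ℕ} (h : Win q κ n) {l N : ℕ} (hl : 1 ≤ l) (hln : 2 * l ≤ n)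
    (c1 c2 : ℤ) (S : Finset Edg) :
    κ ^ (4 * (2 * N + 1) ^ 2) ≤ PQ q S (fun F => ∀ v w : Vtx,
        inR (c1 - N * l) (c1 + N * l) (c2 - N * l) (c2 + N * l) v → Reach (↑F : Set Edg) v w →
        |v.1 - w.1| ≤ 4 * l ∧ |v.2 - w.2| ≤ 4 * l) ∧
    κ ^ (4 * (2 * N + 1) ^ 2) ≤ PQ q S (fun F => ∀ v w : Vtx,
        inR (c1 - N * l) (c1 + N * l) (c2 - N * l) (c2 + N * l) v →
        DReach (↑(S \ F) : Set Edg) v w →
        |v.1 - w.1| ≤ 4 * l ∧ |v.2 - w.2| ≤ 4 * l) := sorry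

/-! ### H3 (helper973) -/

theorem H3_bound (κ : ℝ) (hκ : 0 < κ) : ∃ C c : ℝ, 0 < C ∧ 0 < c ∧ ∀ (q : ℝ) (n : ℕ),
    Win q κ n → ∀ r ρ : ℕ, 1 ≤ r → r ≤ ρ → ρ ≤ n → ∀ (x0 y0 : ℤ) (S : Finset Edg),
      hbU x0 y0 ρ ⊆ S →
      PQ q S (fun F => H3 x0 y0 r ρ ↑F) ≤ C * ((r:ℝ) / ρ) ^ (1 + c) := sorry

/-! ### EX : exit of a thin box -/

/-- The half ball below the line `y = y0`. -/
noncomputable def hbD (x0 y0 : ℤ) (ρ : ℕ) : Finset Edg := RE (x0 - ρ) (x0 + ρ) (y0 - ρ) y0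

def rimD (x0 y0 : ℤ) (ρ : ℕ) : Set Vtx :=
  {v | inR (x0 - ρ) (x0 + ρ) (y0 - ρ) y0 v ∧ (v.1 = x0 - ρ ∨ v.1 = x0 + ρ ∨ v.2 = y0 - ρ)}

/-- `H3` at the top (`σ = true`) or bottom side of `[-∞,∞] × [-m,m]`, inside the strip. -/
def H3s (σ : Bool) (m : ℕ) (x0 : ℤ) (r ρ : ℕ) (F : Set Edg) : Prop :=
  if σ then H3g (hbD x0 m ρ) (segH x0 m r) (rimD x0 m ρ) F
  else H3g (hbU x0 (-m) ρ) (segH x0 (-m) r) (rimU x0 (-m) ρ) F

/-- The boundary cell with centre `x0` and half-length `r` on side `σ`. -/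
def cell (σ : Bool) (m : ℕ) (x0 : ℤ) (r : ℕ) : Set Vtx := segH x0 (if σ then (m:ℤ) else -m) r

/-- The event `Q_ij` : `src e` is connected to cell `i`, `tgt e` to cell `j`, and the clusters of
the cells do not reach the neighbourhoods (half-length `2ρ`) of the other cell. -/
def Qev (m r ρ : ℕ) (σ : Bool) (x : ℤ) (σ' : Bool) (x' : ℤ) (e : Edg) (F : Set Edg) : Prop :=
  (∃ u ∈ cell σ m x r, Reach (F \ {e}) (src e) u) ∧
    (∃ u ∈ cell σ' m x' r, Reach (F \ {e}) (tgt e) u) ∧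
    (∀ u ∈ cell σ m x r, ∀ w ∈ cell σ' m x' (2 * ρ), ¬ Reach (F \ {e}) u w) ∧
    (∀ u ∈ cell σ' m x' r, ∀ w ∈ cell σ m x (2 * ρ), ¬ Reach (F \ {e}) u w)

/-- Deterministic exit lemma. Small cells: centres `2 r k`; big cells: centres `4 ρ k`,
half-length `8 ρ`, radius `m/2`. The thin box is `[-2Lm, 2Lm] × [-m, m]`. -/
theorem exit_det {L m r ρ : ℕ} (hL : 2 ≤ L) (hr : 1 ≤ r) (hρ : 8 * r ≤ ρ) (hm : 64 * ρ ≤ m)
    {e : Edg} (he : e ∈ boxE (m / 4)) {F : Set Edg}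
    (hF : F ⊆ ↑(RE (-(2 * L * m : ℕ)) (2 * L * m : ℕ) (-m) m))
    (hA : A4 (-(2 * L * m : ℕ)) (2 * L * m : ℕ) (-m) m e F)
    (hend : ∀ u v : Vtx, |u.1| ≤ m → |u.2| ≤ m → Reach (F \ {e}) u v → |v.1| < (L * m : ℕ))
    (h1 : ∀ (σ : Bool) (k : ℤ), |2 * r * k| ≤ (L * m : ℕ) + r →
      ¬ H3s σ m (2 * r * k) r ρ F)
    (h2 : ∀ (σ : Bool) (k : ℤ), |4 * ρ * k| ≤ (L * m : ℕ) + 8 * ρ →
      ¬ H3s σ m (4 * ρ * k) (8 * ρ) (m / 2) F) :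
    ∃ (σ σ' : Bool) (k k' : ℤ), |2 * r * k| ≤ (L * m : ℕ) + r ∧ |2 * r * k'| ≤ (L * m : ℕ) + r ∧
      Qev m r ρ σ (2 * r * k) σ' (2 * r * k') e F := sorry

/-! ### PG : pigeonhole over scales -/

/-- Either there is a regular scale between `n^(1-ε)` and `n`, or `a n` is tiny. -/
theorem pigeon {L : ℕ} (hL : 2 ≤ L) {ε : ℝ} (h0 : 0 < ε) (h1 : ε < 1) :
    ∃ n0 : ℕ, ∀ (a : ℕ → ℝ), (∀ k, 0 ≤ a k) → (∀ k, a k ≤ 2) → (∀ j k, j ≤ k → a k ≤ a j) →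
      ∀ n, n0 ≤ n → a n ≤ (n:ℝ) ^ (-(2:ℝ)) ∨
        ∃ m : ℕ, (n:ℝ) ^ (1 - ε) ≤ m ∧ 4 * L * m ≤ n ∧
          a (m / 4) ≤ (64 * L : ℝ) ^ (8 / ε) * a (4 * L * m) := sorry

/-! ### BLK : sum of the influences of blocks -/

/-- The block `b` is pivotal for the connection of `I` and `J`. -/
def BPv (I J : Set Vtx) (b : Finset Edg) (F : Set Edg) : Prop :=
  Cn I J (F ∪ ↑b) ∧ ¬ Cn I J (F \ ↑b)

/-- Block of radius `ρ` around `c`. -/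
noncomputable def blk (c : ℤ × ℤ) (ρ : ℕ) : Finset Edg :=
  RE (c.1 - ρ) (c.1 + ρ) (c.2 - ρ) (c.2 + ρ)

/-- `Σ_b P(b pivotal) ≤ κ^{-4}·sqrt(#b)`, for blocks whose triples are disjoint, contained in the
domain and without vertices of `I ∪ J` in their interior. -/
theorem blk_sum {q κ : ℝ} {n : ℕ} (h : Win q κ n) {S : Finset Edg} {I J : Set Vtx}
    {T : Finset (ℤ × ℤ)} {ρ : ℤ × ℤ → ℕ} (hρ : ∀ c ∈ T, 1 ≤ ρ c ∧ 2 * ρ c ≤ n)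
    (hS : ∀ c ∈ T, blk c (3 * ρ c) ⊆ S)
    (hd : ∀ c ∈ T, ∀ c' ∈ T, c ≠ c' → Disjoint (blk c (3 * ρ c)) (blk c' (3 * ρ c')))
    (hIJ : ∀ c ∈ T, ∀ v ∈ I ∪ J, ¬ (|v.1 - c.1| < 3 * ρ c ∧ |v.2 - c.2| < 3 * ρ c)) :
    ∑ c ∈ T, PQ q S (fun F => BPv I J (blk c (ρ c)) ↑F) ≤ 2 * κ⁻¹ ^ 4 * Real.sqrt T.card := sorry

end H12S
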