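import Pool.Agent.H12R2.Sep.Defs2

/-! Statements (with `sorry`) of the second batch of tasks, table `h12_tasks`. -/

namespace H12S

open H974 Finset

/-! ### E1, E2, EP : probabilistic exit lemma -/

/-- `H3_bound` on both sides of a strip. -/
theorem H3s_prob (κ : ℝ) (hκ : 0 < κ) : ∃ C c : ℝ, 0 < C ∧ 0 < c ∧ ∀ (q : ℝ) (n : ℕ),
    Win q κ n → ∀ r ρ : ℕ, 1 ≤ r → r ≤ ρ → ρ ≤ n → ∀ (σ : Bool) (m : ℕ) (x0 : ℤ) (S : Finset Edg),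
      HB σ m x0 ρ ⊆ S →
      PQ q S (fun F => H3s σ m x0 r ρ ↑F) ≤ C * ((r:ℝ) / ρ) ^ (1 + c) := sorry

/-- `A4` in the thin box around `e`, together with an event which depends only on edges outside
`boxE (m/2 - 1)`. -/
theorem a4_indep {q : ℝ} (h0 : 0 ≤ q) (h1 : q ≤ 1) {L m : ℕ} (hL : 2 ≤ L) (hm : 64 ≤ m) {e : Edg}
    (he : e ∈ boxE (m / 4)) {B : Finset Edg → Prop}
    (hB : ∀ F, B F ↔ B (F \ boxE (m / 2 - 1))) :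
    PQ q (SR L m) (fun F => A4 (-(2 * L * m : ℕ)) (2 * L * m : ℕ) (-m) m e ↑F ∧ B F) ≤
      a4 q (m / 8) * PQ q (SR L m) B := sorry

/-- The end event, together with `A4`. -/
theorem end_prob (κ : ℝ) (hκ : 0 < κ) : ∃ C c : ℝ, 0 < C ∧ 0 < c ∧ ∀ (q : ℝ) (n : ℕ),
    Win q κ n → ∀ m L : ℕ, 64 ≤ m → 2 ≤ L → 2 * m ≤ n → ∀ e ∈ boxE (m / 4),
      PQ q (SR L m) (fun F => A4 (-(2 * L * m : ℕ)) (2 * L * m : ℕ) (-m) m e ↑F ∧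
        ∃ u v : Vtx, |u.1| ≤ m ∧ |u.2| ≤ m ∧ Reach ((↑F : Set Edg) \ {e}) u v ∧
          (L * m : ℕ) ≤ |v.1|) ≤ a4 q (m / 8) * (C * Real.exp (-c * L)) := sorry

/-- Index set of pairs of cells. -/
noncomputable def prs (L m r N : ℕ) : Finset ((Bool × ℤ) × (Bool × ℤ)) :=
  ((univ ×ˢ Icc (-(N:ℤ)) N) ×ˢ (univ ×ˢ Icc (-(N:ℤ)) N)).filter (fun p =>
    |2 * r * p.1.2| ≤ (L * m : ℕ) + (r:ℤ) ∧ |2 * r * p.2.2| ≤ (L * m : ℕ) + (r:ℤ))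

/-- EXIT: four arms in a thin box land in two cells up to a small error. -/
theorem exit_prob (κ : ℝ) (hκ : 0 < κ) : ∃ C c : ℝ, 0 < C ∧ 0 < c ∧ ∀ (L : ℕ) (δ : ℝ), 2 ≤ L →
    0 < δ → ∃ M1 M2 N : ℕ, 64 ≤ M1 ∧ 8 * M1 ≤ M2 ∧ ∀ (q : ℝ) (n : ℕ), Win q κ n → ∀ m : ℕ,
      M2 ≤ m → 4 * L * m ≤ n → ∀ e ∈ boxE (m / 4),
      PQ q (SR L m) (fun F => A4 (-(2 * L * m : ℕ)) (2 * L * m : ℕ) (-m) m e ↑F) ≤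
        (∑ p ∈ prs L m (m / M2) N, PQ q (SR L m) (fun F =>
          Qev m (m / M2) (m / M1) p.1.1 (2 * (m / M2 : ℕ) * p.1.2) p.2.1
            (2 * (m / M2 : ℕ) * p.2.2) e ↑F)) +
        (δ + C * Real.exp (-c * L)) * a4 q (m / 8) := sorry

/-! ### KY : sum over the edges in the middle and pigeonhole -/

theorem a4_anti {q : ℝ} (h0 : 0 ≤ q) (h1 : q ≤ 1) {j k : ℕ} (h : j ≤ k) : a4 q k ≤ a4 q j := sorry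

theorem a4_le_two {q : ℝ} (h0 : 0 ≤ q) (h1 : q ≤ 1) (k : ℕ) : a4 q k ≤ 2 := sorry

/-- `(m²/8)·a4(4Lm) ≤ Σ_{e in the middle} P(A4(thin box) e)`. -/
theorem a4_sum_ge {q : ℝ} (h0 : 0 ≤ q) (h1 : q ≤ 1) {L m : ℕ} (hL : 2 ≤ L) (hm : 64 ≤ m) :
    (m:ℝ) ^ 2 / 8 * a4 q (4 * L * m) ≤ ∑ e ∈ boxE (m / 4), PQ q (SR L m)
      (fun F => A4 (-(2 * L * m : ℕ)) (2 * L * m : ℕ) (-m) m e ↑F) := sorry

/-- KEY: up to a negligible alternative, there is a regular scale `m ∈ [k^(1-ε), k/(4L)]`, and a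
pair of cells which carries a positive fraction of `m² a4(4Lm)`. -/
theorem key (κ : ℝ) (hκ : 0 < κ) (ε : ℝ) (hε : 0 < ε) (hε1 : ε < 1) :
    ∃ (L M1 M2 : ℕ) (C : ℝ) (k0 : ℕ), 2 ≤ L ∧ 64 ≤ M1 ∧ 8 * M1 ≤ M2 ∧ 0 < C ∧
      ∀ (q : ℝ) (n : ℕ), Win q κ n → ∀ k : ℕ, k0 ≤ k → k ≤ n →
        a4 q k ≤ (k:ℝ) ^ (-(2:ℝ)) ∨
        ∃ m : ℕ, M2 ≤ m ∧ (k:ℝ) ^ (1 - ε) ≤ m ∧ 4 * L * m ≤ k ∧
          a4 q (m / 8) ≤ C * a4 q (4 * L * m) ∧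
          ∃ (σ : Bool) (k1 : ℤ) (σ' : Bool) (k2 : ℤ),
            |2 * (m / M2 : ℕ) * k1| ≤ (L * m : ℕ) + (m / M2 : ℕ) ∧
            |2 * (m / M2 : ℕ) * k2| ≤ (L * m : ℕ) + (m / M2 : ℕ) ∧
            (m:ℝ) ^ 2 * a4 q (4 * L * m) ≤ C * TQ q L m (m / M2) (m / M1) σ k1 σ' k2 := sorry

/-- `Q_ij` implies that `e` is pivotal. -/
theorem Qev_Pv {m r ρ : ℕ} (hr : r ≤ 2 * ρ) {σ σ' : Bool} {x x' : ℤ} {e : Edg} {F : Set Edg}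
    (h : Qev m r ρ σ x σ' x' e F) : Pv (cell σ m x r) (cell σ' m x' r) e F := sorry

theorem TQ_le_TP {q : ℝ} (h0 : 0 ≤ q) (h1 : q ≤ 1) (L m : ℕ) {r ρ : ℕ} (hr : r ≤ 2 * ρ)
    (σ : Bool) (k : ℤ) (σ' : Bool) (k' : ℤ) : TQ q L m r ρ σ k σ' k' ≤ TP q L m r σ k σ' k' := sorry

/-! ### LC : locality of pivotality -/

theorem loc_a4 {I J : Set Vtx} {a b c d : ℤ} {e : Edg} {G : Set Edg} (he : e ∈ RE a b c d)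
    (hIJ : ∀ v ∈ I ∪ J, ¬ (a < v.1 ∧ v.1 < b ∧ c < v.2 ∧ v.2 < d)) (h : Pv I J e G) :
    A4 a b c d e G := sorry

theorem A4_local {a b c d : ℤ} {e : Edg} {G G' : Set Edg}
    (h : (G ∩ ↑(RE a b c d)) \ {e} = (G' ∩ ↑(RE a b c d)) \ {e}) (hA : A4 a b c d e G) :
    A4 a b c d e G' := sorry

theorem A4_sub {a b c d a' b' c' d' : ℤ} (ha : a ≤ a') (hb : b' ≤ b) (hc : c ≤ c') (hd : d' ≤ d)
    {e : Edg} (he : e ∈ RE a' b' c' d') {G : Set Edg} (hA : A4 a b c d e G) :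
    A4 a' b' c' d' e G := sorry

theorem flip_1 {I J : Set Vtx} {a b c d : ℤ} {e e' : Edg} {G : Set Edg} (hne : e ≠ e')
    (he : e ∈ RE a b c d) (he' : e' ∉ RE a b c d)
    (hIJ : ∀ v ∈ I ∪ J, ¬ (a < v.1 ∧ v.1 < b ∧ c < v.2 ∧ v.2 < d)) (h : Flip I J e e' G) :
    A4 a b c d e G := sorry

theorem flip_2 {I J : Set Vtx} {a b c d : ℤ} {e e' : Edg} {G : Set Edg} (hne : e ≠ e')
    (he' : e' ∈ RE a b c d) (he : e ∉ RE a b c d)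
    (hIJ : ∀ v ∈ I ∪ J, ¬ (a < v.1 ∧ v.1 < b ∧ c < v.2 ∧ v.2 < d)) (h : Flip I J e e' G) :
    A4 a b c d e' G := sorry

theorem flip_blk {I J : Set Vtx} {e e' : Edg} {G : Set Edg} (hne : e ≠ e') {b : Finset Edg}
    (he : e ∈ b) (he' : e' ∈ b) (h : Flip I J e e' G) : BPv I J b G := sorry

theorem flip_far {I J : Set Vtx} {e e' : Edg} {G : Set Edg} (hne : e ≠ e')
    (h : Flip I J e e' G) : Pv I J e' (insert e G) ∨ Pv I J e' (G \ {e}) := sorry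

theorem pv_blk {I J : Set Vtx} {e : Edg} {G : Set Edg} {b : Finset Edg} (he : e ∈ b)
    (h : Pv I J e G) : BPv I J b G := sorry

/-! ### LP : the local events are independent -/

/-- One edge in a block. -/
theorem one_in_blk {q : ℝ} (h0 : 0 ≤ q) (h1 : q ≤ 1) {S : Finset Edg} {I J : Set Vtx}
    {O : Set Edg} {c : ℤ × ℤ} {s k : ℕ} (hk : 1 ≤ k) (hS : blk c s ⊆ S)
    (hO : Disjoint O ↑(blk c s))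
    (hIJ : ∀ v ∈ I ∪ J, ¬ (|v.1 - c.1| < s ∧ |v.2 - c.2| < s)) {e : Edg}
    (h2 : |e.1 - c.1| + k ≤ s) (h3 : |e.2.1 - c.2| + k ≤ s) :
    PQ q S (fun F => Pv I J e (↑F ∪ O)) ≤
      a4 q k * PQ q S (fun F => BPv I J (blk c s) (↑F ∪ O)) := sorry

/-- Two edges at distance `≥ 2k+2` in a block. -/
theorem two_in_blk {q : ℝ} (h0 : 0 ≤ q) (h1 : q ≤ 1) {S : Finset Edg} {I J : Set Vtx}
    {c : ℤ × ℤ} {s k : ℕ} (hk : 1 ≤ k) (hS : blk c s ⊆ S)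
    (hIJ : ∀ v ∈ I ∪ J, ¬ (|v.1 - c.1| < s ∧ |v.2 - c.2| < s)) {e e' : Edg}
    (h2 : |e.1 - c.1| + k ≤ s) (h3 : |e.2.1 - c.2| + k ≤ s)
    (h4 : |e'.1 - c.1| + k ≤ s) (h5 : |e'.2.1 - c.2| + k ≤ s) (hd : 2 * (k:ℤ) + 2 ≤ edist e e') :
    PQ q S (fun F => Flip I J e e' ↑F) ≤
      a4 q k ^ 2 * PQ q S (fun F => BPv I J (blk c s) ↑F) := sorry

/-! ### B2 : sum over the blocks of a grid, with forced open edges `O` -/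

/-- All blocks have radius `t·s`, and centres in the grid `s·ℤ²`. -/
theorem grid_sum (κ : ℝ) (hκ : 0 < κ) (t : ℕ) (ht : 1 ≤ t) : ∃ C : ℝ, 0 < C ∧ ∀ (q : ℝ) (n : ℕ),
    Win q κ n → ∀ (S : Finset Edg) (I J : Set Vtx) (O : Set Edg) (s : ℕ) (T : Finset (ℤ × ℤ)),
      1 ≤ s → 2 * t * s ≤ n → (∀ k ∈ T, blk (s * k.1, s * k.2) (3 * (t * s)) ⊆ S) →
      (∀ k ∈ T, Disjoint O ↑(blk (s * k.1, s * k.2) (3 * (t * s)))) →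
      (∀ k ∈ T, ∀ v ∈ I ∪ J,
        ¬ (|v.1 - s * k.1| < (3 * (t * s) : ℕ) ∧ |v.2 - s * k.2| < (3 * (t * s) : ℕ))) →
      ∑ k ∈ T, PQ q S (fun F => BPv I J (blk (s * k.1, s * k.2) (t * s)) (↑F ∪ O)) ≤
        C * Real.sqrt T.card := sorry

/-- Edge version (no window needed). -/
theorem edge_sum {q : ℝ} (h0 : 1 / 4 ≤ q) (h1 : q ≤ 3 / 4) {S : Finset Edg} {I J : Set Vtx}
    {O : Set Edg} {T : Finset Edg} (hT : T ⊆ S) (hO : Disjoint O ↑T) :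
    ∑ e ∈ T, PQ q S (fun F => Pv I J e (↑F ∪ O)) ≤ 3 * Real.sqrt T.card := sorry

/-! ### TT : total influence -/

theorem total (κ : ℝ) (hκ : 0 < κ) (K : ℕ) (hK : 1 ≤ K) : ∃ C : ℝ, 0 < C ∧ ∀ (q : ℝ) (n : ℕ),
    Win q κ n → ∀ (A ε : ℝ), 1 ≤ A → 0 < ε → ε ≤ 1 / 8 → A4le q A ε n → ∀ (m ρ : ℕ), 1 ≤ m →
      m ≤ n → 1 ≤ ρ → m ≤ K * ρ → ∀ (a b c d : ℤ), b - a ≤ K * m → d - c ≤ m →
      ∀ (S : Finset Edg), S ⊆ RE a b c d → RE (a + 1) (b - 1) (c + 1) (d - 1) ⊆ S →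
      ∀ (I J : Set Vtx), (∀ v ∈ I ∪ J, ¬ (a < v.1 ∧ v.1 < b ∧ c < v.2 ∧ v.2 < d)) →
      ∀ (p : ℤ × ℤ) (O : Set Edg), O ⊆ ↑(blk p ρ) →
      ∑ e ∈ S \ blk p (2 * ρ), PQ q (S \ blk p ρ) (fun F => Pv I J e (↑F ∪ O)) ≤
        C * A * (m:ℝ) ^ (3/4 + ε) := sorry

/-! ### NR, FR, DR : derivative of T(i,j) -/

theorem near_sum (κ : ℝ) (hκ : 0 < κ) : ∃ C : ℝ, 0 < C ∧ ∀ (q : ℝ) (n : ℕ),
    Win q κ n → ∀ (A ε : ℝ), 1 ≤ A → 0 < ε → ε ≤ 1 / 8 → A4le q A ε n → ∀ (m : ℕ), 1 ≤ m →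
      m ≤ n → ∀ (S : Finset Edg), boxE (m / 2) ⊆ S → ∀ (I J : Set Vtx),
      (∀ v ∈ I ∪ J, ¬ (|v.1| < (m / 2 : ℕ) ∧ |v.2| < (m / 2 : ℕ))) →
      ∑ e ∈ boxE (m / 4), ∑ e' ∈ S.filter (fun e' => e ≠ e' ∧ edist e e' ≤ (m / 64 : ℕ)),
        PQ q S (fun F => Flip I J e e' ↑F) ≤ C * A ^ 2 * (m:ℝ) ^ (3/2 + 2 * ε) := sorry

theorem far_sum (κ : ℝ) (hκ : 0 < κ) (L : ℕ) (hL : 2 ≤ L) : ∃ C : ℝ, 0 < C ∧ ∀ (q : ℝ) (n : ℕ),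
    Win q κ n → ∀ (A ε : ℝ), 1 ≤ A → 0 < ε → ε ≤ 1 / 8 → A4le q A ε n → ∀ (m : ℕ), 1 ≤ m →
      4 * L * m ≤ n → ∀ (I J : Set Vtx), (∀ v ∈ I ∪ J, (m:ℤ) ≤ |v.2|) → ∀ e ∈ boxE (m / 4),
      ∑ e' ∈ (SR L m).filter (fun e' => e ≠ e' ∧ (m / 64 : ℕ) < edist e e'),
        PQ q (SR L m) (fun F => Flip I J e e' ↑F) ≤ C * A ^ 2 * (m:ℝ) ^ (-(1/2) + 2 * ε) := sorry

theorem tp_deriv (κ : ℝ) (hκ : 0 < κ) (L : ℕ) (hL : 2 ≤ L) : ∃ C : ℝ, 0 < C ∧ ∀ (q : ℝ) (n : ℕ),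
    Win q κ n → ∀ (A ε : ℝ), 1 ≤ A → 0 < ε → ε ≤ 1 / 8 → A4le q A ε n → ∀ (m r : ℕ), 1 ≤ m →
      4 * L * m ≤ n → ∀ (σ : Bool) (k1 : ℤ) (σ' : Bool) (k2 : ℤ), ∃ D : ℝ,
        HasDerivAt (fun q => TP q L m r σ k1 σ' k2) D q ∧
          |D| ≤ C * A ^ 2 * (m:ℝ) ^ (3/2 + 2 * ε) := sorry

theorem tp_le {q : ℝ} (h0 : 0 ≤ q) (h1 : q ≤ 1) {L m r : ℕ} (hm : 16 ≤ m) (hL : 2 ≤ L) (σ : Bool)
    (k1 : ℤ) (σ' : Bool) (k2 : ℤ) : TP q L m r σ k1 σ' k2 ≤ (m:ℝ) ^ 2 * a4 q (m / 2) := sorry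

/-! ### HD : derivative of the crossing probabilities -/

theorem hh_deriv (κ : ℝ) (hκ : 0 < κ) : ∃ C : ℝ, 0 < C ∧ ∀ (q : ℝ) (n : ℕ),
    Win q κ n → ∀ (A ε : ℝ), 1 ≤ A → 0 < ε → ε ≤ 1 / 8 → A4le q A ε n → ∀ (h : ℕ), 1 ≤ h →
      h ≤ n → ∃ D : ℝ, HasDerivAt (fun q => hh q (16 * h) h) D q ∧
        |D| ≤ C * A * (h:ℝ) ^ (3/4 + ε) := sorry

/-! ### ST : stability -/

/-- The window at `q = 1/2` (RSW). -/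
theorem win_half : ∃ κ : ℝ, 0 < κ ∧ ∀ n : ℕ, Win (1/2) κ n := sorry

/-- STABILITY of the four-arm upper bounds and of RSW, from the upper bound at `1/2`. -/
theorem stab (hcrit : ∀ ε : ℝ, 0 < ε → ∃ C : ℝ, ∀ k : ℕ, 1 ≤ k →
      a4 (1/2) k ≤ C * (k:ℝ) ^ (-(5/4 : ℝ) + ε)) :
    ∃ κ : ℝ, 0 < κ ∧ ∀ ε : ℝ, 0 < ε → ε ≤ 1 / 8 → ∃ C : ℝ, 1 ≤ C ∧ ∀ n : ℕ, 1 ≤ n → ∀ q : ℝ,
      |q - 1/2| ≤ (n:ℝ) ^ (-(3/4 : ℝ) - ε) / C → Win q κ n ∧ A4le q C ε n := sorry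

/-- Lower bound for the four-arm probabilities in the window. -/
theorem stab_lower (hcrit : ∀ ε : ℝ, 0 < ε → ∃ C : ℝ, ∀ k : ℕ, 1 ≤ k →
      a4 (1/2) k ≤ C * (k:ℝ) ^ (-(5/4 : ℝ) + ε))
    (hlow : ∀ ε : ℝ, 0 < ε → ∃ c : ℝ, 0 < c ∧ ∀ k : ℕ, 1 ≤ k →
      c * (k:ℝ) ^ (-(5/4 : ℝ) - ε) ≤ a4 (1/2) k) :
    ∀ ε : ℝ, 0 < ε → ε ≤ 1 / 8 → ∃ C : ℝ, 1 ≤ C ∧ ∀ n : ℕ, 1 ≤ n → ∀ q : ℝ,
      |q - 1/2| ≤ (n:ℝ) ^ (-(3/4 : ℝ) - ε) / C →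
        ∀ k : ℕ, 1 ≤ k → (k:ℝ) ≤ (n:ℝ) ^ (1 - ε) / C →
          (k:ℝ) ^ (-(5/4 : ℝ) - ε) / C ≤ a4 q k := sorry

end H12S
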