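import Pool.Agent.H12R2.Sep.Stubs2
import Pool.Agent.H12R2.Sep.Defs3

/-! Statements (with `sorry`) of the third batch, table `h12_tasks`. -/

namespace H12S

open H974 Finset

/-- Deterministic exit lemma, with separated landing. Same hypotheses as `exit_det`. -/
theorem exit_det2 {L m r ρ : ℕ} (hL : 2 ≤ L) (hr : 1 ≤ r) (hρ : 8 * r ≤ ρ) (hm : 64 * ρ ≤ m)
    {e : Edg} (he : e ∈ boxE (m / 4)) {F : Set Edg}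
    (hF : F ⊆ ↑(RE (-(2 * L * m : ℕ)) (2 * L * m : ℕ) (-m) m))
    (hA : A4 (-(2 * L * m : ℕ)) (2 * L * m : ℕ) (-m) m e F)
    (hend : ∀ u v : Vtx, |u.1| ≤ m → |u.2| ≤ m → Reach (F \ {e}) u v → |v.1| < (L * m : ℕ))
    (h1 : ∀ (σ : Bool) (k : ℤ), |2 * r * k| ≤ (L * m : ℕ) + r →
      ¬ H3s σ m (2 * r * k) r ρ F)
    (h2 : ∀ (σ : Bool) (k : ℤ), |4 * ρ * k| ≤ (L * m : ℕ) + 8 * ρ →
      ¬ H3s σ m (4 * ρ * k) (8 * ρ) (m / 2) F) :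
    ∃ (σ σ' : Bool) (k k' : ℤ), |2 * r * k| ≤ (L * m : ℕ) + r ∧ |2 * r * k'| ≤ (L * m : ℕ) + r ∧
      Sev L m r ρ σ (2 * r * k) σ' (2 * r * k') e F := sorry

/-- EXIT with `Sev`. -/
theorem exit_prob2 (κ : ℝ) (hκ : 0 < κ) : ∃ C c : ℝ, 0 < C ∧ 0 < c ∧ ∀ (L : ℕ) (δ : ℝ), 2 ≤ L →
    0 < δ → ∃ M1 M2 N : ℕ, 64 ≤ M1 ∧ 8 * M1 ≤ M2 ∧ ∀ (q : ℝ) (n : ℕ), Win q κ n → ∀ m : ℕ,
      M2 ≤ m → 4 * L * m ≤ n → ∀ e ∈ boxE (m / 4),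
      PQ q (SR L m) (fun F => A4 (-(2 * L * m : ℕ)) (2 * L * m : ℕ) (-m) m e ↑F) ≤
        (∑ p ∈ prs L m (m / M2) N, PQ q (SR L m) (fun F =>
          Sev L m (m / M2) (m / M1) p.1.1 (2 * (m / M2 : ℕ) * p.1.2) p.2.1
            (2 * (m / M2 : ℕ) * p.2.2) e ↑F)) +
        (δ + C * Real.exp (-c * L)) * a4 q (m / 8) := sorry

theorem TS_le_TP {q : ℝ} (h0 : 0 ≤ q) (h1 : q ≤ 1) (L m : ℕ) {r ρ : ℕ} (hr : r ≤ 2 * ρ)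
    (σ : Bool) (k : ℤ) (σ' : Bool) (k' : ℤ) :
    TS q L m r ρ σ k σ' k' ≤ TP q L m r σ k σ' k' := sorry

/-- KEY with `Sev`; moreover `M1 ∣ M2`, `M2 ∣ m`, and `M1 = 64 * M0` is at our disposal
(`M0` as large as we want). -/
theorem key2 (κ : ℝ) (hκ : 0 < κ) (ε : ℝ) (hε : 0 < ε) (hε1 : ε < 1) :
    ∃ (L M1 M2 : ℕ) (C : ℝ) (k0 : ℕ), 2 ≤ L ∧ 64 ≤ M1 ∧ 8 * M1 ≤ M2 ∧ 0 < C ∧
      ∀ (q : ℝ) (n : ℕ), Win q κ n → ∀ k : ℕ, k0 ≤ k → k ≤ n →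
        a4 q k ≤ (k:ℝ) ^ (-(2:ℝ)) ∨
        ∃ m : ℕ, M2 ≤ m ∧ M2 ∣ m ∧ (k:ℝ) ^ (1 - ε) ≤ m ∧ 4 * L * m ≤ k ∧
          a4 q (m / 8) ≤ C * a4 q (4 * L * m) ∧
          ∃ (σ : Bool) (k1 : ℤ) (σ' : Bool) (k2 : ℤ),
            |2 * (m / M2 : ℕ) * k1| ≤ (L * m : ℕ) + (m / M2 : ℕ) ∧
            |2 * (m / M2 : ℕ) * k2| ≤ (L * m : ℕ) + (m / M2 : ℕ) ∧
            (m:ℝ) ^ 2 * a4 q (4 * L * m) ≤ C * TS q L m (m / M2) (m / M1) σ k1 σ' k2 := sorry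

end H12S
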