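import Pool.Agent.H12R2.Sep.Defs2
import Pool.Agent.H974R2.RSW2

/-! # The window at `q = 1/2` (RSW) -/

namespace H12S

open H974 Finset

namespace WH

/-- one gluing step -/
theorem step {h w : ℤ} (hh0 : 0 < h) (hw : h ≤ w) {k : ℕ} (hk : (1/2:ℝ)^k ≤ hh (1/2) w h) :
    (1/2:ℝ)^(2 * k + 1) ≤ hh (1/2) (w + w - h) h := by
  have h0 : (0:ℝ) ≤ 1/2 := by norm_num
  have h1 : (1/2:ℝ) ≤ 1 := by norm_num
  have g := hh_glue h0 h1 (w1 := w) (w2 := w) (v := h) (h := h) hh0 hw hw hh0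
  have gs := hh_square h hh0
  have hA0 : 0 ≤ hh (1/2) w h := hh_nonneg h0 h1 _ _
  refine le_trans ?_ g
  have e : (1/2:ℝ)^(2 * k + 1) = (1/2)^k * (1/2)^k * (1/2) := by ring
  rw [e]
  exact mul_le_mul (mul_le_mul hk hk (by positivity) hA0) gs (by norm_num)
    (mul_nonneg hA0 hA0)

theorem base {h : ℤ} (hh0 : 1 ≤ h) : (1/2:ℝ)^47 ≤ hh (1/2) (2 * h) h := by
  rcases eq_or_lt_of_le hh0 with h1 | h1
  · subst h1
    have := hh_half 1 (by norm_num)
    norm_num at this ⊢
    rw [this]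
    norm_num
  · exact rsw (n := h / 2) (by omega) (by omega) (by omega) (by omega)

theorem main {h : ℤ} (hh0 : 1 ≤ h) : (1/2:ℝ)^767 ≤ hh (1/2) (16 * h) h := by
  have a1 := base hh0
  have a2 := step (by omega) (by omega) a1
  have a3 := step (by omega) (by omega) a2
  have a4 := step (by omega) (by omega) a3
  have a5 := step (by omega) (by omega) a4
  norm_num only at a5
  refine a5.trans (hh_mono (by norm_num) (by norm_num) (by omega) (by omega) le_rfl)

end WH

/-- The window at `q = 1/2` (RSW). -/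
theorem win_half : ∃ κ : ℝ, 0 < κ ∧ ∀ n : ℕ, Win (1/2) κ n := by
  refine ⟨(1/2)^767, by positivity, fun n => ?_⟩
  have key : ∀ h : ℕ, 1 ≤ h → (1/2:ℝ)^767 ≤ hh (1/2) (16 * h) h := by
    intro h hh1
    exact WH.main (by exact_mod_cast hh1)
  refine ⟨by positivity, ?_, by norm_num, by norm_num, fun h h1 _ => key h h1, ?_⟩
  · calc (1/2:ℝ)^767 ≤ (1/2)^1 := pow_le_pow_of_le_one (by norm_num) (by norm_num) (by norm_num)
      _ = 1/2 := pow_one _
  · intro h h1 _
    have e : (1:ℝ) - 1/2 = 1/2 := by norm_num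
    rw [e]
    exact key h h1

end H12S
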