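import Pool.Agent.H12R2.Sep.Defs4
import Pool.Agent.H12R2.Sep.Exit4
import Pool.Agent.H12R2.Sep.Key3
import Pool.Agent.H12R2.Sep.WinHalf

/-! Statements (with `sorry`) of batch 4: the PLUS event. -/

namespace H12S

open H974 Finset

/-! ### HD4 -/

theorem H4_bound (κ : ℝ) (hκ : 0 < κ) : ∃ C c : ℝ, 0 < C ∧ 0 < c ∧ ∀ (q : ℝ) (n : ℕ),
    Win q κ n → ∀ r ρ : ℕ, 1 ≤ r → r ≤ ρ → ρ ≤ n → ∀ (d : Dir) (x0 y0 : ℤ) (S : Finset Edg),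
      hbE d x0 y0 ρ ⊆ S →
      PQ q S (fun F => H4 d x0 y0 r ρ ↑F) ≤ C * ((r:ℝ) / ρ) ^ (1 + c) := sorry

/-! ### CQ : coarse squares -/

theorem mem_QE {r : ℕ} (hr : 1 ≤ r) {Q : Finset (ℤ × ℤ)} {e : Edg} :
    e ∈ QE r Q ↔ dsrc e ∈ FQ r Q ∨ dtgt e ∈ FQ r Q := sorry

theorem mem_QE_dl {r : ℕ} (hr : 1 ≤ r) {Q : Finset (ℤ × ℤ)} {e : Edg} :
    e ∈ QE r Q ↔ Tch (FQ r Q) (dl e) := sorry

theorem QE_ends {r : ℕ} {Q : Finset (ℤ × ℤ)} {e : Edg} (he : e ∈ QE r Q) :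
    src e ∈ VQ r Q ∧ tgt e ∈ VQ r Q := sorry

/-- The edges of a rectangle with coarse corners. -/
theorem QE_rect {r : ℕ} (hr : 1 ≤ r) {a b c d : ℤ} (hab : a < b) (hcd : c < d) :
    QE r (Finset.Ico a b ×ˢ Finset.Ico c d) = RE (r * a) (r * b) (r * c) (r * d) := sorry

theorem QE_union {r : ℕ} {Q Q' : Finset (ℤ × ℤ)} : QE r (Q ∪ Q') = QE r Q ∪ QE r Q' := sorry

/-- Closed squares without common point are at distance at least `r`. -/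
theorem VQ_dist {r : ℕ} (hr : 1 ≤ r) {Q1 Q3 : Finset (ℤ × ℤ)} (h : SepQ Q1 Q3) {u v : Vtx}
    (hu : u ∈ VQ r Q1) (hv : v ∈ VQ r Q3) : (r:ℤ) ≤ |u.1 - v.1| ∨ (r:ℤ) ≤ |u.2 - v.2| := sorry

/-! ### FD : the deterministic failure lemma -/

theorem fail2_det {r K : ℕ} {Q : Finset (ℤ × ℤ)} {S0 D O O' : Finset Edg} {I J : Set Vtx}
    {e : Edg} (h : Env2 r K Q S0 D O O' I J e) {ρ l : ℕ} (hl : 1 ≤ l) (h1 : 32 * l ≤ ρ)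
    (h2 : 32 * ρ ≤ r) {F : Finset Edg} (hF : F ⊆ S0 ∪ D) (hA : Ev1 I J S0 O O' e F)
    (hB : ¬ Bad2 r ρ l Q S0 F) :
    NFar src tgt I J e (↑D : Set Edg) (Nr (4 * l)) ((↑(F ∩ S0) : Set Edg) ∪ ↑O) := sorry

/-! ### FP : its probability -/

theorem bad2_prob (κ : ℝ) (hκ : 0 < κ) (K : ℕ) (δ : ℝ) (hδ : 0 < δ) : ∃ M3 M4 : ℕ, 32 ≤ M3 ∧
    32 * M3 ≤ M4 ∧ ∀ (q : ℝ) (n : ℕ), Win q κ n → ∀ r : ℕ, M4 ≤ r → r ≤ n →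
      ∀ (Q : Finset (ℤ × ℤ)), (∀ z ∈ Q, |z.1| ≤ K ∧ |z.2| ≤ K) → ∀ (S0 S : Finset Edg), S0 ⊆ S →
        PQ q S (Bad2 r (r / M3) (r / M4) Q S0) ≤ δ := sorry

theorem bad2_local {r ρ l : ℕ} {Q : Finset (ℤ × ℤ)} {S0 F G : Finset Edg} (hl : 1 ≤ l)
    (h1 : 32 * l ≤ ρ) (h2 : 32 * ρ ≤ r) (h : ∀ g, nearQ r Q g → (g ∈ F ↔ g ∈ G)) :
    Bad2 r ρ l Q S0 F ↔ Bad2 r ρ l Q S0 G := sorry

/-! ### S2 : the closing step (pure primal form) -/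

theorem step2 (κ : ℝ) (hκ : 0 < κ) (K : ℕ) (δ : ℝ) (hδ : 0 < δ) : ∃ (Mr : ℕ) (c : ℝ), 1 ≤ Mr ∧
    0 < c ∧ ∀ (q : ℝ) (n : ℕ), Win q κ n → ∀ (r : ℕ) (Q : Finset (ℤ × ℤ))
      (S0 D O O' : Finset Edg) (I J : Set Vtx) (e : Edg), Env2 r K Q S0 D O O' I J e → Mr ≤ r →
      2 * r ≤ n → ∀ M : ℝ, 0 ≤ M →
      (∀ B : Finset Edg → Prop, (∀ F G : Finset Edg, (∀ g, nearQ r Q g → (g ∈ F ↔ g ∈ G)) →
          (B F ↔ B G)) →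
        PQ q (S0 ∪ D) (fun F => Ev1 I J S0 O O' e F ∧ B F) ≤ M * PQ q (S0 ∪ D) B) →
      c * (PQ q (S0 ∪ D) (Ev1 I J S0 O O' e) - δ * M) ≤
        PQ q (S0 ∪ D) (Ev2 I J S0 O O' e) := sorry

/-! ### CG : corridors -/

theorem cor_exists {L M2 B W : ℕ} (hL : 2 ≤ L) (hM : 64 ≤ M2) (hB : B = 4 * L * M2)
    (hW : W = M2) {σ σ' : Bool} {k k' : ℤ} (hk : |2 * k| ≤ L * M2 + 1) (hk' : |2 * k'| ≤ L * M2 + 1)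
    (hs : σ = σ' → 4 ≤ |k - k'|) :
    ∃ Q1 Q3 : Finset (ℤ × ℤ), SepQ Q1 Q3 ∧
      ((Cor L M2 B W σ k false Q1 ∧ Cor L M2 B W σ' k' true Q3) ∨
        (Cor L M2 B W σ' k' false Q1 ∧ Cor L M2 B W σ k true Q3)) := sorry

/-! ### S1D : first step, deterministic part -/

theorem step1_det {L M1 M2 : ℕ} (hL : 2 ≤ L) (hM1 : 64 ≤ M1) (hM2 : 8 * M1 ≤ M2) {r m b N l : ℕ}
    (hl : 1 ≤ l) (hlr : 16 * l ≤ r) (hm : m = M2 * r) (hb : b = 4 * L * m) (hN : N = 16 * L * m)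
    {σ σ' : Bool} {k k' : ℤ} {Q1 Q3 : Finset (ℤ × ℤ)} (hsep : SepQ Q1 Q3)
    (hcor : (Cor L M2 (4 * L * M2) M2 σ k false Q1 ∧ Cor L M2 (4 * L * M2) M2 σ' k' true Q3) ∨
        (Cor L M2 (4 * L * M2) M2 σ' k' false Q1 ∧ Cor L M2 (4 * L * M2) M2 σ k true Q3))
    {β : Bool} {QV O : Finset Edg} (hQV : QV = QE r (Q1 ∪ Q3 ∪ tubQ (4 * L * M2) M2 (16 * L * M2)))
    (hO : O = boxE N \ ((boxE b \ QV) ∪ (XH b m N \ boxE b))) {F : Finset Edg} (hF : F ⊆ SR L m)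
    (hS : Sev L m r (m / M1) σ (2 * r * k) σ' (2 * r * k') (e0 β) (↑F : Set Edg)) :
    Cn (botV N) (topV N) (insert (e0 β) ((↑(F \ QV) : Set Edg) ∪ ↑QV)) ∧
      ¬ Cn (botV N) (topV N) (((↑(F \ QV) : Set Edg) ∪ ↑O) \ {e0 β}) ∧
      NFar src tgt (botV N) (topV N) (e0 β) (↑(boxE b \ (SR L m ∪ QV)) : Set Edg) (Nr (4 * l))
        ((↑(F \ QV) : Set Edg) ∪ ↑O) ∧
      ∀ g ∈ O, src g ∈ Cl src tgt (botV N) (((↑(F \ QV) : Set Edg) ∪ ↑O) \ {e0 β}) ∨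
        src g ∈ Cl src tgt (topV N) (((↑(F \ QV) : Set Edg) ∪ ↑O) \ {e0 β}) := sorry

/-! ### S1 : first step -/

/-- `m = M2·r`, `b = 4Lm`, `w = m`, `N = 16Lm`. -/
theorem step1 (κ : ℝ) (hκ : 0 < κ) (L M1 M2 : ℕ) (hL : 2 ≤ L) (hM1 : 64 ≤ M1)
    (hM2 : 8 * M1 ≤ M2) : ∃ (Mr : ℕ) (c : ℝ), 1 ≤ Mr ∧ 0 < c ∧ ∀ (q : ℝ) (n : ℕ), Win q κ n →
      ∀ r m b : ℕ, Mr ≤ r → m = M2 * r → b = 4 * L * m → 16 * L * m ≤ n →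
      ∀ (σ σ' : Bool) (k k' : ℤ) (Q1 Q3 : Finset (ℤ × ℤ)), SepQ Q1 Q3 →
      ((Cor L M2 (4 * L * M2) M2 σ k false Q1 ∧ Cor L M2 (4 * L * M2) M2 σ' k' true Q3) ∨
        (Cor L M2 (4 * L * M2) M2 σ' k' false Q1 ∧ Cor L M2 (4 * L * M2) M2 σ k true Q3)) →
      ∀ (β : Bool) (QV : Finset Edg), QV = QE r (Q1 ∪ Q3 ∪ tubQ (4 * L * M2) M2 (16 * L * M2)) →
      c * PQ q (SR L m) (fun F => Sev L m r (m / M1) σ (2 * r * k) σ' (2 * r * k') (e0 β) ↑F) ≤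
        PQ q (boxE b \ QV) (fun F => Y1 b m (16 * L * m) QV (e0 β) ↑F) := sorry

/-! ### DU : planar duality in a box -/

theorem cn_dual (N : ℕ) (hN : 1 ≤ N) {G : Finset Edg} (hG : G ⊆ boxE N) :
    Cn (botV N) (topV N) (↑G : Set Edg) ↔
      ¬ Cn (lefV N) (rigV N) (↑(dmp (boxE N \ G)) : Set Edg) := sorry

theorem ev1_iff {b w N : ℕ} (hN : 1 ≤ N) (hbN : b ≤ N) (hwN : w ≤ N) {QV : Finset Edg}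
    (hQ : QV ⊆ boxE N) (hQ2 : Disjoint QV (XH b w N \ boxE b)) {e : Edg} (he : e ∈ boxE b \ QV)
    {F : Finset Edg} (hF : F ⊆ boxE b ∪ QV) :
    Ev1 (lefV N) (rigV N) (dmp (boxE b \ QV)) (dmp (boxE N \ (boxE b ∪ QV)))
      (dmp (XH b w N \ boxE b)) (dl e) (dmp ((boxE b ∪ QV) \ F)) ↔ Y1 b w N QV e (↑F : Set Edg) :=
  sorry

theorem ev2_imp {b w N : ℕ} (hN : 1 ≤ N) (hbN : b ≤ N) (hwN : w ≤ N) {QV : Finset Edg}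
    (hQ : QV ⊆ boxE N) (hQ2 : Disjoint QV (XH b w N \ boxE b)) (hQ3 : boxE b ∪ QV = XV b w N)
    {e : Edg} (he : e ∈ boxE b \ QV) {F : Finset Edg} (hF : F ⊆ boxE b ∪ QV)
    (h : Ev2 (lefV N) (rigV N) (dmp (boxE b \ QV)) (dmp (boxE N \ (boxE b ∪ QV)))
      (dmp (XH b w N \ boxE b)) (dl e) (dmp ((boxE b ∪ QV) \ F))) :
    Y2 b w N e (↑F : Set Edg) := sorry

/-! ### S2E : the environment of the second step -/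

theorem env_plus {L M2 : ℕ} (hL : 2 ≤ L) (hM2 : 512 ≤ M2) {r m b N : ℕ} (hr : 1 ≤ r)
    (hm : m = M2 * r) (hb : b = 4 * L * m) (hN : N = 16 * L * m)
    {σ σ' : Bool} {k k' : ℤ} {Q1 Q3 : Finset (ℤ × ℤ)} (hsep : SepQ Q1 Q3)
    (h1 : Cor L M2 (4 * L * M2) M2 σ k false Q1) (h3 : Cor L M2 (4 * L * M2) M2 σ' k' true Q3)
    {β : Bool} {QV : Finset Edg}
    (hQV : QV = QE r (Q1 ∪ Q3 ∪ tubQ (4 * L * M2) M2 (16 * L * M2))) :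
    Env2 r (16 * L * M2 + 1) (Q1 ∪ Q3 ∪ tubQ (4 * L * M2) M2 (16 * L * M2))
      (dmp (boxE b \ QV)) (dmp QV) (dmp (boxE N \ (boxE b ∪ QV))) (dmp (XH b m N \ boxE b))
      (lefV N) (rigV N) (dl (e0 β)) := sorry

/-! ### S2P : second step for the plus event -/

theorem step2_plus (κ : ℝ) (hκ : 0 < κ) (L M2 : ℕ) (hL : 2 ≤ L) (hM2 : 512 ≤ M2) (δ : ℝ)
    (hδ : 0 < δ) : ∃ (Mr : ℕ) (c : ℝ), 1 ≤ Mr ∧ 0 < c ∧ ∀ (q : ℝ) (n : ℕ), Win q κ n →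
      ∀ r m b : ℕ, Mr ≤ r → m = M2 * r → b = 4 * L * m → 16 * L * m ≤ n →
      ∀ (σ σ' : Bool) (k k' : ℤ) (Q1 Q3 : Finset (ℤ × ℤ)), SepQ Q1 Q3 →
      Cor L M2 (4 * L * M2) M2 σ k false Q1 → Cor L M2 (4 * L * M2) M2 σ' k' true Q3 →
      ∀ (β : Bool) (QV : Finset Edg), QV = QE r (Q1 ∪ Q3 ∪ tubQ (4 * L * M2) M2 (16 * L * M2)) →
      c * (PQ q (boxE b \ QV) (fun F => Y1 b m (16 * L * m) QV (e0 β) ↑F) - δ * a4 q (m / 8)) ≤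
        PQ q (boxE (16 * L * m)) (fun F => Y2 b m (16 * L * m) (e0 β) ↑F) := sorry

/-! ### S3D : third step, deterministic part -/

/-- Bad event at the mouths of the horizontal tubes. -/
def Bad3 (b w ρ l : ℕ) (F : Finset Edg) : Prop :=
  (∃ c : ℤ × ℤ, (c.1 = b ∨ c.1 = -(b:ℤ)) ∧ (c.2 = w ∨ c.2 = -(w:ℤ)) ∧
    Crs c.1 c.2 (4 * ρ) (w / 2) (↑(F ∩ boxE b) : Set Edg)) ∨
  (∃ i : ℤ, |(l:ℤ) * i| + ρ ≤ w ∧ (H4 Dir.lf b (l * i) (8 * l) ρ (↑F : Set Edg) ∨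
    H4 Dir.rt (-b) (l * i) (8 * l) ρ (↑F : Set Edg)))

theorem fail3_det {b w N ρ l : ℕ} (hl : 1 ≤ l) (h1 : 32 * l ≤ ρ) (h2 : 32 * ρ ≤ w)
    (hwb : 4 * w ≤ b) (hbN : 2 * b ≤ N) {e : Edg} (he : e ∈ boxE (b / 2)) {F : Finset Edg}
    (hF : F ⊆ boxE N) (hY : Y2 b w N e (↑F : Set Edg)) (hB : ¬ Bad3 b w ρ l F) :
    NFar src tgt (botV N) (topV N) e (↑(XH b w N \ boxE b) : Set Edg) (Nr (4 * l))
      ((↑(F ∩ boxE b) : Set Edg) ∪ ↑(boxE N \ XH b w N)) ∧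
    ∀ g ∈ boxE N \ XH b w N, src g ∈ Cl src tgt (botV N) (((↑(F ∩ boxE b) : Set Edg) ∪
        ↑(boxE N \ XH b w N)) \ {e}) ∨ src g ∈ Cl src tgt (topV N)
        (((↑(F ∩ boxE b) : Set Edg) ∪ ↑(boxE N \ XH b w N)) \ {e}) := sorry

/-! ### S3 : third step -/

theorem step3 (κ : ℝ) (hκ : 0 < κ) (L M2 : ℕ) (hL : 2 ≤ L) (hM2 : 512 ≤ M2) (δ : ℝ)
    (hδ : 0 < δ) : ∃ (Mr : ℕ) (c : ℝ), 1 ≤ Mr ∧ 0 < c ∧ ∀ (q : ℝ) (n : ℕ), Win q κ n →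
      ∀ r m b : ℕ, Mr ≤ r → m = M2 * r → b = 4 * L * m → 16 * L * m ≤ n → ∀ β : Bool,
      c * (PQ q (boxE (16 * L * m)) (fun F => Y2 b m (16 * L * m) (e0 β) ↑F) - δ * a4 q (m / 8)) ≤
        PQ q (boxE (16 * L * m)) (fun F => Plus b m (16 * L * m) (e0 β) ↑F) := sorry

/-! ### PG : assembly -/

theorem plus_glue (κ : ℝ) (hκ : 0 < κ) (L M1 M2 : ℕ) (hL : 2 ≤ L) (hM1 : 64 ≤ M1)
    (hM2 : 8 * M1 ≤ M2) (δ : ℝ) (hδ : 0 < δ) : ∃ (Mr : ℕ) (c : ℝ), 1 ≤ Mr ∧ 0 < c ∧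
      ∀ (q : ℝ) (n : ℕ), Win q κ n → ∀ r m : ℕ, Mr ≤ r → m = M2 * r → 16 * L * m ≤ n →
      ∀ (σ σ' : Bool) (k k' : ℤ), |2 * k| ≤ L * M2 + 1 → |2 * k'| ≤ L * M2 + 1 → ∀ β : Bool,
      c * (PQ q (SR L m) (fun F => Sev L m r (m / M1) σ (2 * r * k) σ' (2 * r * k') (e0 β) ↑F)
          - δ * a4 q (m / 8)) ≤
        PQ q (boxE (16 * L * m)) (fun F => Plus (4 * L * m) m (16 * L * m) (e0 β) ↑F) := sorry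

/-- KEY for the central edges. -/
theorem key_center (κ : ℝ) (hκ : 0 < κ) (ε : ℝ) (hε : 0 < ε) (hε1 : ε < 1) :
    ∃ (L M1 M2 : ℕ) (C : ℝ), 2 ≤ L ∧ 64 ≤ M1 ∧ 8 * M1 ≤ M2 ∧ 0 < C ∧ ∀ Mr : ℕ, ∃ k0 : ℕ,
      ∀ (q : ℝ) (n : ℕ), Win q κ n → ∀ k : ℕ, k0 ≤ k → k ≤ n →
        a4 q k ≤ (k:ℝ) ^ (-(2:ℝ)) ∨
        ∃ r m : ℕ, Mr ≤ r ∧ m = M2 * r ∧ (k:ℝ) ^ (1 - ε) ≤ m ∧ 16 * L * m ≤ k ∧
          a4 q (m / 8) ≤ C * a4 q (4 * L * m) ∧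
          ∃ (σ : Bool) (k1 : ℤ) (σ' : Bool) (k2 : ℤ) (β : Bool),
            |2 * k1| ≤ L * M2 + 1 ∧ |2 * k2| ≤ L * M2 + 1 ∧
            a4 q (4 * L * m) ≤ C * PQ q (SR L m) (fun F =>
              Sev L m r (m / M1) σ (2 * r * k1) σ' (2 * r * k2) (e0 β) ↑F) := sorry

/-- Separation of four arms: at every window, `a4 q k ≤ k^(-2)` or it is bounded by the
probability of a plus event at a comparable scale. -/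
theorem plus_key (κ : ℝ) (hκ : 0 < κ) (ε : ℝ) (hε : 0 < ε) (hε1 : ε < 1) :
    ∃ (L : ℕ) (C : ℝ) (k0 : ℕ), 2 ≤ L ∧ 0 < C ∧ ∀ (q : ℝ) (n : ℕ), Win q κ n → ∀ k : ℕ, k0 ≤ k →
      k ≤ n → a4 q k ≤ (k:ℝ) ^ (-(2:ℝ)) ∨ ∃ (m : ℕ) (β : Bool), 1 ≤ m ∧ (k:ℝ) ^ (1 - ε) ≤ m ∧
        16 * L * m ≤ k ∧ a4 q k ≤ C * PQ q (boxE (16 * L * m))
          (fun F => Plus (4 * L * m) m (16 * L * m) (e0 β) ↑F) := sorry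

end H12S
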