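import Pool.Agent.H12R2.Sep.Defs5
import Pool.Agent.H12R2.Sep.Stubs4

/-! Statements (with `sorry`) of batch 5: inward gluing. -/

namespace H12S

open H974 Finset

/-! ### E3 : exit_prob2 with `M2` free -/

theorem exit_prob3 (κ : ℝ) (hκ : 0 < κ) : ∃ C c : ℝ, 0 < C ∧ 0 < c ∧ ∀ (L : ℕ) (δ : ℝ), 2 ≤ L →
    0 < δ → ∃ M1 M20 : ℕ, 64 ≤ M1 ∧ 8 * M1 ≤ M20 ∧ ∀ M2 : ℕ, M20 ≤ M2 → ∃ N : ℕ,
      ∀ (q : ℝ) (n : ℕ), Win q κ n → ∀ m : ℕ,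
      M2 ≤ m → 4 * L * m ≤ n → ∀ e ∈ boxE (m / 4),
      PQ q (SR L m) (fun F => A4 (-(2 * L * m : ℕ)) (2 * L * m : ℕ) (-m) m e ↑F) ≤
        (∑ p ∈ prs L m (m / M2) N, PQ q (SR L m) (fun F =>
          Sev L m (m / M2) (m / M1) p.1.1 (2 * (m / M2 : ℕ) * p.1.2) p.2.1
            (2 * (m / M2 : ℕ) * p.2.2) e ↑F)) +
        (δ + C * Real.exp (-c * L)) * a4 q (m / 8) := sorry

/-! ### X1, X2 : exterior exit lemma -/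

theorem ext_det {c : ℤ × ℤ} {s r ρ1 ρ2 : ℕ} (hr : 1 ≤ r) (h8 : 8 * r ≤ ρ1) (h64 : 64 * ρ1 ≤ ρ2)
    (hs : 64 * ρ2 ≤ s) {I J : Set Vtx} (hI : FarS (I ∪ J) c (2 * s)) {F : Set Edg}
    (hF : Disjoint F ↑(boI c s)) (hp1 : Cn I J (F ∪ ↑(boI c s))) (hp2 : ¬ Cn I J F)
    (h0 : ∀ x y : ℤ, (x = c.1 + s ∨ x = c.1 - s) → (y = c.2 + s ∨ y = c.2 - s) →
      ¬ Crs x y (4 * ρ2) (s / 2) F)
    (h1 : ∀ (d : Dir) (k : ℤ), |2 * (r:ℤ) * k| ≤ s →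
      ¬ H4 d (cenB c s d (2 * r * k)).1 (cenB c s d (2 * r * k)).2 r ρ1 F)
    (h2 : ∀ (d : Dir) (k : ℤ), |4 * (ρ1:ℤ) * k| ≤ s →
      ¬ H4 d (cenB c s d (4 * ρ1 * k)).1 (cenB c s d (4 * ρ1 * k)).2 (8 * ρ1) ρ2 F) :
    ∃ (d : Dir) (k : ℤ) (d' : Dir) (k' : ℤ), ESev I J c s r ρ1 ρ2 d k d' k' F := sorry

theorem ext_prob (κ : ℝ) (hκ : 0 < κ) : ∃ C c0 : ℝ, 0 < C ∧ 0 < c0 ∧ ∀ (q : ℝ) (n : ℕ),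
    Win q κ n → ∀ (c : ℤ × ℤ) (s r ρ1 ρ2 : ℕ), 1 ≤ r → 8 * r ≤ ρ1 → 64 * ρ1 ≤ ρ2 → 64 * ρ2 ≤ s →
      s ≤ n → ∀ (S : Finset Edg) (I J : Set Vtx), blk c (3 * s) ⊆ S → FarS (I ∪ J) c (3 * s) →
      PQ q S (fun F => BPv I J (boI c s) ↑F) ≤
        (∑ d : Dir, ∑ d' : Dir, ∑ k ∈ Icc (-(s / r : ℕ) : ℤ) (s / r : ℕ),
          ∑ k' ∈ Icc (-(s / r : ℕ) : ℤ) (s / r : ℕ),
            PQ q S (fun F => ESev I J c s r ρ1 ρ2 d k d' k' ((↑F : Set Edg) \ ↑(boI c s)))) +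
        C * (((ρ2:ℝ) / s) ^ c0 + ((s:ℝ) / ρ1) * ((ρ1:ℝ) / ρ2) ^ (1 + c0) +
          ((s:ℝ) / r) * ((r:ℝ) / ρ1) ^ (1 + c0)) *
          PQ q S (fun F => BPv I J (blk c (3 * s)) ↑F) := sorry

/-! ### CX : corridors -/

/-- Coordinates: the thin box is at the origin, the cell `k` of the top side of the block is just
above it. -/
theorem corx_exists {L M2 B P1 P2 : ℕ} (hL : 2 ≤ L) (hM : 64 ≤ M2) (hP1 : 64 * (4 * L * M2) ≤ P1)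
    (hP2 : 64 * P1 ≤ P2) (hB : 64 * P2 ≤ B) {k : ℤ} {d' : Dir} {k' : ℤ}
    (hk : |2 * k| + 2 * P2 ≤ B) (hk' : |2 * k'| + 2 * P2 ≤ B)
    (hsep : d' = Dir.up → (P1:ℤ) < |2 * k - 2 * k'|) {γ : ℤ × ℤ} (hγ1 : γ.1 = -(2 * k))
    (hγ2 : γ.2 + B = 4 * L * M2 + 8) {σ1 σ2 : Bool} {k1 k2 : ℤ} (h1 : |2 * k1| ≤ L * M2 + 1)
    (h2 : |2 * k2| ≤ L * M2 + 1) (hs : σ1 = σ2 → 4 ≤ |k1 - k2|) :
    ∃ Q1 Q3 : Finset (ℤ × ℤ), SepQ Q1 Q3 ∧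
      ((CorX L M2 B γ Dir.up k σ1 k1 Q1 ∧ CorX L M2 B γ d' k' σ2 k2 Q3) ∨
        (CorX L M2 B γ Dir.up k σ2 k2 Q1 ∧ CorX L M2 B γ d' k' σ1 k1 Q3)) := sorry

/-! ### I1D, I1 : first step of the inward gluing -/

/-- Common data of the inward gluing: mesh `r`, `m = M2·r`, `s = B·r`, `ρ1 = P1·r`, `ρ2 = P2·r`,
block centre `c0 = r·γ`. -/
structure InD (L M1 M2 B P1 P2 r m s : ℕ) (γ c0 : ℤ × ℤ) : Prop where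
  hL : 2 ≤ L
  hM1 : 64 ≤ M1
  hM2 : 8 * M1 ≤ M2
  hP1 : 64 * (4 * L * M2) ≤ P1
  hP2 : 64 * P1 ≤ P2
  hB : 64 * P2 ≤ B
  hr : 1 ≤ r
  hm : m = M2 * r
  hs : s = B * r
  c1 : c0.1 = r * γ.1
  c2 : c0.2 = r * γ.2
  /-- the thin box is inside the block -/
  g1 : |γ.1| + 4 * L * M2 + 4 ≤ B
  g2 : |γ.2| + 4 * L * M2 + 4 ≤ B

theorem in1_det {L M1 M2 B P1 P2 r m s l : ℕ} {γ c0 : ℤ × ℤ}
    (h : InD L M1 M2 B P1 P2 r m s γ c0) (hl : 1 ≤ l) (hlr : 16 * l ≤ r)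
    {S : Finset Edg} (hS : blk c0 (2 * s) ⊆ S) {I J : Set Vtx} (hI : FarS (I ∪ J) c0 (2 * s))
    {d d' : Dir} {k k' : ℤ} {σ σ' : Bool} {k1 k2 : ℤ} {Q1 Q3 : Finset (ℤ × ℤ)}
    (hsep : SepQ Q1 Q3)
    (hcor : (CorX L M2 B γ d k σ k1 Q1 ∧ CorX L M2 B γ d' k' σ' k2 Q3) ∨
        (CorX L M2 B γ d k σ' k2 Q1 ∧ CorX L M2 B γ d' k' σ k1 Q3))
    {QV : Finset Edg} (hQV : QV = QE r (Q1 ∪ Q3)) {e : Edg} (he : e ∈ boxE (m / 4))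
    {F : Finset Edg} (hF : F ⊆ S)
    (hE : ESev I J c0 s r (P1 * r) (P2 * r) d k d' k' ((↑F : Set Edg) \ ↑(boI c0 s)))
    (hSv : Sev L m r (m / M1) σ (2 * r * k1) σ' (2 * r * k2) e (↑(F ∩ SR L m) : Set Edg)) :
    Cn I J (insert e ((↑(F ∩ (((S \ boI c0 s) ∪ SR L m) \ QV)) : Set Edg) ∪ ↑QV)) ∧
      ¬ Cn I J (((↑(F ∩ (((S \ boI c0 s) ∪ SR L m) \ QV)) : Set Edg) ∪ ↑QV) \ {e}) ∧
      NFar src tgt I J e (↑(boI c0 s \ (SR L m ∪ QV)) : Set Edg) (Nr (4 * l))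
        ((↑(F ∩ (((S \ boI c0 s) ∪ SR L m) \ QV)) : Set Edg) ∪ ↑QV) ∧
      ∀ g ∈ QV, src g ∈ Cl src tgt I
          (((↑(F ∩ (((S \ boI c0 s) ∪ SR L m) \ QV)) : Set Edg) ∪ ↑QV) \ {e}) ∨
        src g ∈ Cl src tgt J
          (((↑(F ∩ (((S \ boI c0 s) ∪ SR L m) \ QV)) : Set Edg) ∪ ↑QV) \ {e}) := sorry

theorem in1 (κ : ℝ) (hκ : 0 < κ) (L M1 M2 B P1 P2 : ℕ) : ∃ (Mr : ℕ) (c : ℝ), 1 ≤ Mr ∧ 0 < c ∧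
    ∀ (q : ℝ) (n : ℕ), Win q κ n → ∀ (r m s : ℕ) (γ c0 : ℤ × ℤ),
      InD L M1 M2 B P1 P2 r m s γ c0 → Mr ≤ r → s ≤ n →
      ∀ (S : Finset Edg) (I J : Set Vtx), blk c0 (2 * s) ⊆ S → FarS (I ∪ J) c0 (2 * s) →
      ∀ (d d' : Dir) (k k' : ℤ) (σ σ' : Bool) (k1 k2 : ℤ) (Q1 Q3 : Finset (ℤ × ℤ)), SepQ Q1 Q3 →
      ((CorX L M2 B γ d k σ k1 Q1 ∧ CorX L M2 B γ d' k' σ' k2 Q3) ∨
        (CorX L M2 B γ d k σ' k2 Q1 ∧ CorX L M2 B γ d' k' σ k1 Q3)) →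
      ∀ QV : Finset Edg, QV = QE r (Q1 ∪ Q3) → ∀ e ∈ boxE (m / 4),
      c * (PQ q S (fun F => ESev I J c0 s r (P1 * r) (P2 * r) d k d' k'
            ((↑F : Set Edg) \ ↑(boI c0 s))) *
          PQ q (SR L m) (fun F => Sev L m r (m / M1) σ (2 * r * k1) σ' (2 * r * k2) e ↑F)) ≤
        PQ q (S \ QV) (fun F => Z1 I J QV e ↑F) := sorry

/-! ### I2 : second step (dual) -/

theorem in2 (κ : ℝ) (hκ : 0 < κ) (L M1 M2 B P1 P2 : ℕ) (δ : ℝ) (hδ : 0 < δ) :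
    ∃ (Mr : ℕ) (c : ℝ), 1 ≤ Mr ∧ 0 < c ∧
    ∀ (q : ℝ) (n : ℕ), Win q κ n → ∀ (r m s : ℕ) (γ c0 : ℤ × ℤ),
      InD L M1 M2 B P1 P2 r m s γ c0 → Mr ≤ r → s ≤ n →
      ∀ (S : Finset Edg) (I J I' J' : Set Vtx), blk c0 (3 * s) ⊆ S → DomD S I J I' J' →
      FarS (I ∪ J) c0 (3 * s) → FarS (I' ∪ J') c0 (3 * s) →
      ∀ (d d' : Dir) (k k' : ℤ) (σ σ' : Bool) (k1 k2 : ℤ) (Q1 Q3 : Finset (ℤ × ℤ)), SepQ Q1 Q3 →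
      CorX L M2 B γ d k σ k1 Q1 → CorX L M2 B γ d' k' σ' k2 Q3 →
      ∀ QV : Finset Edg, QV = QE r (Q1 ∪ Q3) → ∀ e ∈ boxE (m / 4),
      c * (PQ q (S \ QV) (fun F => Z1 I J QV e ↑F) -
          δ * (a4 q (m / 8) * PQ q S (fun F => BPv I J (blk c0 (3 * s)) ↑F))) ≤
        PQ q S (fun F => Pv I J e ↑F) := sorry

/-! ### I3 : the inward inequality for a landing cell on the top side -/

theorem in_top (κ : ℝ) (hκ : 0 < κ) (L M1 M2 B P1 P2 : ℕ) (C1 δ : ℝ) (hC1 : 0 < C1) (hδ : 0 < δ) :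
    ∃ (Mr : ℕ) (c : ℝ), 1 ≤ Mr ∧ 0 < c ∧
    ∀ (q : ℝ) (n : ℕ), Win q κ n → ∀ (r m s : ℕ),
      InD L M1 M2 B P1 P2 r m s (0, 0) (0, 0) → Mr ≤ r → s ≤ n →
      a4 q (m / 8) ≤ C1 * a4 q (4 * L * m) →
      ∀ (σ1 σ2 : Bool) (k1 k2 : ℤ), |2 * k1| ≤ L * M2 + 1 → |2 * k2| ≤ L * M2 + 1 →
      (m:ℝ) ^ 2 * a4 q (4 * L * m) ≤ C1 * TS q L m r (m / M1) σ1 k1 σ2 k2 →
      ∀ (c0 : ℤ × ℤ) (S : Finset Edg) (I J I' J' : Set Vtx), blk c0 (3 * s) ⊆ S →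
      DomD S I J I' J' → FarS (I ∪ J) c0 (3 * s) → FarS (I' ∪ J') c0 (3 * s) →
      ∀ (k : ℤ) (d' : Dir) (k' : ℤ),
      c * (PQ q S (fun F => ESev I J c0 s r (P1 * r) (P2 * r) Dir.up k d' k'
            ((↑F : Set Edg) \ ↑(boI c0 s))) -
          δ * PQ q S (fun F => BPv I J (blk c0 (3 * s)) ↑F)) * ((m:ℝ) ^ 2 * a4 q (4 * L * m)) ≤
        ∑ e ∈ blk c0 s, PQ q S (fun F => Pv I J e ↑F) := sorry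

/-! ### SY : all sides -/

theorem in_all (κ : ℝ) (hκ : 0 < κ) (L M1 M2 B P1 P2 : ℕ) (C1 δ : ℝ) (hC1 : 0 < C1) (hδ : 0 < δ) :
    ∃ (Mr : ℕ) (c : ℝ), 1 ≤ Mr ∧ 0 < c ∧
    ∀ (q : ℝ) (n : ℕ), Win q κ n → ∀ (r m s : ℕ),
      InD L M1 M2 B P1 P2 r m s (0, 0) (0, 0) → Mr ≤ r → s ≤ n →
      a4 q (m / 8) ≤ C1 * a4 q (4 * L * m) →
      ∀ (σ1 σ2 : Bool) (k1 k2 : ℤ), |2 * k1| ≤ L * M2 + 1 → |2 * k2| ≤ L * M2 + 1 →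
      (m:ℝ) ^ 2 * a4 q (4 * L * m) ≤ C1 * TS q L m r (m / M1) σ1 k1 σ2 k2 →
      ∀ (c0 : ℤ × ℤ) (S : Finset Edg) (I J I' J' : Set Vtx), blk c0 (3 * s) ⊆ S →
      DomD S I J I' J' → FarS (I ∪ J) c0 (3 * s) → FarS (I' ∪ J') c0 (3 * s) →
      ∀ (d : Dir) (k : ℤ) (d' : Dir) (k' : ℤ),
      c * (PQ q S (fun F => ESev I J c0 s r (P1 * r) (P2 * r) d k d' k'
            ((↑F : Set Edg) \ ↑(boI c0 s))) -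
          δ * PQ q S (fun F => BPv I J (blk c0 (3 * s)) ↑F)) * ((m:ℝ) ^ 2 * a4 q (4 * L * m)) ≤
        ∑ e ∈ blk c0 s, PQ q S (fun F => Pv I J e ↑F) := sorry

/-! ### RD : duality in a rectangle -/

theorem rect_dual {a b c d : ℤ} (hab : a < b) (hcd : c < d) :
    DomD (RE a b c d) (lsd a c d) (lsd b c d) {v | v.2 = c - 1} {v | v.2 = d} := sorry

/-! ### IN : the inward inequality -/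

/-- INWARD. `t`, `M20` depend only on `κ`, `δ`. -/
theorem inward (κ : ℝ) (hκ : 0 < κ) (δ : ℝ) (hδ : 0 < δ) : ∃ t M20 : ℕ, 1 ≤ t ∧
    ∀ (L M1 M2 : ℕ), 2 ≤ L → 64 ≤ M1 → 8 * M1 ≤ M2 → M20 ≤ M2 → ∀ C1 : ℝ, 0 < C1 →
    ∃ (Mr : ℕ) (C : ℝ), 1 ≤ Mr ∧ 0 < C ∧ ∀ (q : ℝ) (n : ℕ), Win q κ n → ∀ (r m s : ℕ), Mr ≤ r →
      m = M2 * r → s = 256 * t * L * m → s ≤ n → a4 q (m / 8) ≤ C1 * a4 q (4 * L * m) →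
      ∀ (σ1 σ2 : Bool) (k1 k2 : ℤ), |2 * k1| ≤ L * M2 + 1 → |2 * k2| ≤ L * M2 + 1 →
      (m:ℝ) ^ 2 * a4 q (4 * L * m) ≤ C1 * TS q L m r (m / M1) σ1 k1 σ2 k2 →
      ∀ (a b c d : ℤ) (p : ℤ × ℤ), a + 4 * s ≤ p.1 → p.1 + 4 * s ≤ b → c + 4 * s ≤ p.2 →
      p.2 + 4 * s ≤ d →
      (PQ q (RE a b c d) (fun F => BPv (lsd a c d) (lsd b c d) (blk p (s - 1)) ↑F) -
        δ * PQ q (RE a b c d) (fun F => BPv (lsd a c d) (lsd b c d) (blk p (3 * s)) ↑F)) *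
          ((m:ℝ) ^ 2 * a4 q (4 * L * m)) ≤
        C * ∑ e ∈ blk p s, PQ q (RE a b c d) (fun F => Pv (lsd a c d) (lsd b c d) e ↑F) := sorry

end H12S
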