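import Pool.Agent.H12R2.Sep.Defs

/-! Task TR: all clusters near a region are small with positive probability. -/

namespace H12S

open H974 Finset

section Harris
variable {E : Type*} [DecidableEq E]

theorem tr_harris_decr2 {p : E → ℝ} (hp : Ok p) {S : Finset E} {A B : Finset E → Prop}
    (hA : IncrE S (fun F => ¬ A F)) (hB : IncrE S (fun F => ¬ B F)) :
    Pr p S A * Pr p S B ≤ Pr p S (fun F => A F ∧ B F) := by
  have h := Pr_harris_decr hp hA hB
  rw [Pr_not] at h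
  have h2 : Pr p S B = Pr p S (fun F => A F ∧ B F) + Pr p S (fun F => ¬ A F ∧ B F) := by
    unfold Pr
    rw [← Ex_add]
    apply Ex_congr
    intro F _
    rw [ind_and, ind_and, ind_not]
    ring
  nlinarith [h, h2]

theorem tr_inter_decr {p : E → ℝ} (hp : Ok p) {S : Finset E} {ι : Type*} [DecidableEq ι]
    {A : ι → Finset E → Prop} {c : ℝ} (hc : 0 ≤ c) (T : Finset ι)
    (hA : ∀ i ∈ T, IncrE S (fun F => ¬ A i F)) (hP : ∀ i ∈ T, c ≤ Pr p S (A i)) :
    c ^ T.card ≤ Pr p S (fun F => ∀ i ∈ T, A i F) := by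
  induction T using Finset.induction_on with
  | empty =>
    rw [Finset.card_empty, pow_zero, Pr_true]
    intro F _ i hi
    simp at hi
  | insert a T ha ih =>
    have ih' := ih (fun i hi => hA i (Finset.mem_insert_of_mem hi))
      (fun i hi => hP i (Finset.mem_insert_of_mem hi))
    have hB : IncrE S (fun F => ¬ ∀ i ∈ T, A i F) := by
      intro F G h1 h2 h3 h4
      apply h3
      intro i hi
      by_contra h5
      exact hA i (Finset.mem_insert_of_mem hi) F G h1 h2 h5 (h4 i hi)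
    have h := tr_harris_decr2 hp (hA a (Finset.mem_insert_self a T)) hB
    rw [Finset.card_insert_of_notMem ha, pow_succ, mul_comm]
    calc c * c ^ T.card ≤ Pr p S (A a) * Pr p S (fun F => ∀ i ∈ T, A i F) :=
          mul_le_mul (hP a (Finset.mem_insert_self a T)) ih' (pow_nonneg hc _)
            (Pr_nonneg hp _ _)
      _ ≤ _ := h
      _ = _ := by
          apply Pr_congr
          intro F _
          rw [Finset.forall_mem_insert]

theorem tr_inter_incr {p : E → ℝ} (hp : Ok p) {S : Finset E} {ι : Type*} [DecidableEq ι]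
    {A : ι → Finset E → Prop} {c : ℝ} (hc : 0 ≤ c) (T : Finset ι)
    (hA : ∀ i ∈ T, IncrE S (A i)) (hP : ∀ i ∈ T, c ≤ Pr p S (A i)) :
    c ^ T.card ≤ Pr p S (fun F => ∀ i ∈ T, A i F) := by
  induction T using Finset.induction_on with
  | empty =>
    rw [Finset.card_empty, pow_zero, Pr_true]
    intro F _ i hi
    simp at hi
  | insert a T ha ih =>
    have ih' := ih (fun i hi => hA i (Finset.mem_insert_of_mem hi))
      (fun i hi => hP i (Finset.mem_insert_of_mem hi))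
    have hB : IncrE S (fun F => ∀ i ∈ T, A i F) := by
      intro F G h1 h2 h3 i hi
      exact hA i (Finset.mem_insert_of_mem hi) F G h1 h2 (h3 i hi)
    have h := Pr_harris hp (hA a (Finset.mem_insert_self a T)) hB
    rw [Finset.card_insert_of_notMem ha, pow_succ, mul_comm]
    calc c * c ^ T.card ≤ Pr p S (A a) * Pr p S (fun F => ∀ i ∈ T, A i F) :=
          mul_le_mul (hP a (Finset.mem_insert_self a T)) ih' (pow_nonneg hc _)
            (Pr_nonneg hp _ _)
      _ ≤ _ := h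
      _ = _ := by
          apply Pr_congr
          intro F _
          rw [Finset.forall_mem_insert]

end Harris

theorem Crs.mono {c1 c2 : ℤ} {ρ R : ℕ} {F G : Set Edg} (h : F ⊆ G) (hF : Crs c1 c2 ρ R F) :
    Crs c1 c2 ρ R G := by
  obtain ⟨x, y, h1, h2, h3⟩ := hF
  exact ⟨x, y, h1, h2, h3.mono h⟩

theorem DCrs.mono {c1 c2 : ℤ} {ρ R : ℕ} {F G : Set Edg} (h : F ⊆ G) (hF : DCrs c1 c2 ρ R F) :
    DCrs c1 c2 ρ R G := by
  obtain ⟨x, y, h1, h2, h3⟩ := hF
  exact ⟨x, y, h1, h2, h3.mono h⟩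

/-- the grid -/
noncomputable def trG (N : ℕ) : Finset (ℤ × ℤ) := Finset.Icc (-(N:ℤ)) N ×ˢ Finset.Icc (-(N:ℤ)) N

theorem trG_card (N : ℕ) : (trG N).card = (2 * N + 1) ^ 2 := by
  unfold trG
  rw [Finset.card_product, Int.card_Icc, pow_two]
  have : ((N:ℤ) + 1 - -(N:ℤ)).toNat = 2 * N + 1 := by omega
  rw [this]

/-- one coordinate of the nearest grid point -/
theorem tr_coord {l N : ℕ} (hl : 1 ≤ l) {c x : ℤ} (h1 : c - N * l ≤ x) (h2 : x ≤ c + N * l) :
    ∃ i : ℤ, i ∈ Finset.Icc (-(N:ℤ)) N ∧ c + i * l ≤ x ∧ x ≤ c + i * l + l := by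
  have hl' : (0:ℤ) < l := by exact_mod_cast hl
  refine ⟨(x - c) / l, ?_, ?_, ?_⟩
  · rw [Finset.mem_Icc]
    constructor
    · apply Int.le_ediv_of_mul_le hl'
      linarith
    · have : (x - c) / l ≤ (N * l) / l := Int.ediv_le_ediv hl' (by linarith)
      rwa [Int.mul_ediv_cancel _ hl'.ne'] at this
  · have := Int.ediv_mul_le (x - c) hl'.ne'
    linarith
  · have := Int.lt_ediv_add_one_mul_self (x - c) hl'
    nlinarith

theorem tr_det {l N : ℕ} (hl : 1 ≤ l) {c1 c2 : ℤ} {R : Vtx → Vtx → Prop}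
    (h : ∀ g ∈ trG N, ¬ ∃ x y : Vtx, inR (c1 + g.1 * l - l) (c1 + g.1 * l + l)
        (c2 + g.2 * l - l) (c2 + g.2 * l + l) x ∧
      (y.1 ≤ c1 + g.1 * l - (3 * l : ℕ) ∨ c1 + g.1 * l + (3 * l : ℕ) ≤ y.1 ∨
        y.2 ≤ c2 + g.2 * l - (3 * l : ℕ) ∨ c2 + g.2 * l + (3 * l : ℕ) ≤ y.2) ∧ R x y)
    (v w : Vtx) (hv : inR (c1 - N * l) (c1 + N * l) (c2 - N * l) (c2 + N * l) v) (hR : R v w) :
    |v.1 - w.1| ≤ 4 * l ∧ |v.2 - w.2| ≤ 4 * l := by
  obtain ⟨⟨a1, a2⟩, a3, a4⟩ := hv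
  obtain ⟨i, hi, hi1, hi2⟩ := tr_coord hl a1 a2
  obtain ⟨j, hj, hj1, hj2⟩ := tr_coord hl a3 a4
  have h0 := h (i, j) (by unfold trG; exact Finset.mem_product.mpr ⟨hi, hj⟩)
  by_contra hcon
  apply h0
  refine ⟨v, w, ⟨⟨?_, ?_⟩, ?_, ?_⟩, ?_, hR⟩
  · simp only; linarith
  · simp only; linarith
  · simp only; linarith
  · simp only; linarith
  · simp only
    push_cast
    rw [not_and_or, not_le, not_le, lt_abs, lt_abs] at hcon
    rcases hcon with (h5 | h5) | (h5 | h5)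
    · left; linarith
    · right; left; linarith
    · right; right; left; linarith
    · right; right; right; linarith

/-- `trap_prob` from the statement of `win_blk`. -/
theorem trap_prob_of {q κ : ℝ} {n : ℕ} (h : Win q κ n) {l N : ℕ} (hl : 1 ≤ l) 
    (c1 c2 : ℤ) (S : Finset Edg)
    (hblk : ∀ c1 c2 : ℤ, κ ^ 4 ≤ PQ q S (fun F => ¬ Crs c1 c2 l (3 * l) ↑F) ∧
      κ ^ 4 ≤ PQ q S (fun F => ¬ DCrs c1 c2 l (3 * l) (↑(S \ F) : Set Edg))) :
    κ ^ (4 * (2 * N + 1) ^ 2) ≤ PQ q S (fun F => ∀ v w : Vtx,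
        inR (c1 - N * l) (c1 + N * l) (c2 - N * l) (c2 + N * l) v → Reach (↑F : Set Edg) v w →
        |v.1 - w.1| ≤ 4 * l ∧ |v.2 - w.2| ≤ 4 * l) ∧
    κ ^ (4 * (2 * N + 1) ^ 2) ≤ PQ q S (fun F => ∀ v w : Vtx,
        inR (c1 - N * l) (c1 + N * l) (c2 - N * l) (c2 + N * l) v →
        DReach (↑(S \ F) : Set Edg) v w →
        |v.1 - w.1| ≤ 4 * l ∧ |v.2 - w.2| ≤ 4 * l) := by
  have hp : Ok (fun _ : Edg => q) := okq (by linarith [h.lo]) (by linarith [h.hi])
  have hκ : 0 ≤ κ ^ 4 := pow_nonneg h.kpos.le 4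
  rw [pow_mul, ← trG_card N]
  constructor
  · refine le_trans (tr_inter_decr hp hκ (S := S) (trG N)
      (A := fun g F => ¬ Crs (c1 + g.1 * l) (c2 + g.2 * l) l (3 * l) ↑F) ?_ ?_) ?_
    · intro g _ F G h1 _ h3 h4
      apply h3
      intro h5
      exact h4 (h5.mono (by exact_mod_cast h1))
    · intro g _
      exact (hblk _ _).1
    · apply Pr_mono hp
      intro F _ h1 v w hv hR
      exact tr_det hl (R := Reach (↑F : Set Edg)) h1 v w hv hR
  · refine le_trans (tr_inter_incr hp hκ (S := S) (trG N)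
      (A := fun g F => ¬ DCrs (c1 + g.1 * l) (c2 + g.2 * l) l (3 * l) (↑(S \ F) : Set Edg)) ?_ ?_) ?_
    · intro g _ F G h1 _ h3 h4
      apply h3
      refine h4.mono ?_
      exact_mod_cast Finset.sdiff_subset_sdiff (Finset.Subset.refl S) h1
    · intro g _
      exact (hblk _ _).2
    · apply Pr_mono hp
      intro F _ h1 v w hv hR
      exact tr_det hl (R := DReach (↑(S \ F) : Set Edg)) h1 v w hv hR

end H12S
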