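import Pool.Agent.H12R2.Sep.Defs
import Pool.Agent.H12R2.Sep.Markov

/-!
UF (helper862): the gluing lemma.
-/

namespace H12S

open H974 Finset

section Unforce
variable {E V : Type*} [DecidableEq E]

/-- Vertices connected to `I`. -/
def Cl (s t : E → V) (I : Set V) (F : Set E) : Set V := {v | ∃ u ∈ I, GR s t F u v}

def CnG (s t : E → V) (I J : Set V) (F : Set E) : Prop := ∃ u ∈ I, ∃ v ∈ J, GR s t F u v

def PvG (s t : E → V) (I J : Set V) (e : E) (F : Set E) : Prop :=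
  CnG s t I J (insert e F) ∧ ¬ CnG s t I J (F \ {e})

/-- Vertices incident to `D`. -/
def VD (s t : E → V) (D : Set E) : Set V := {v | ∃ g ∈ D, s g = v ∨ t g = v}

/-- The clusters of `I` and of `J` (without `e`) do not come near each other along `D`. -/
def NFar (s t : E → V) (I J : Set V) (e : E) (D : Set E) (Near : V → V → Prop)
    (G : Set E) : Prop :=
  ∀ v ∈ Cl s t I (G \ {e}), ∀ w ∈ Cl s t J (G \ {e}), v ∈ VD s t D → w ∈ VD s t D → ¬ Near v w

/-- Clusters which touch `D` twice are small. -/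
def TrapG (s t : E → V) (D : Set E) (Near : V → V → Prop) (F : Set E) : Prop :=
  ∀ v ∈ VD s t D, ∀ w ∈ VD s t D, GR s t F v w → Near v w

omit [DecidableEq E] in
theorem uf_cl_self {s t : E → V} {I : Set V} {F : Set E} {u : V} (hu : u ∈ I) :
    u ∈ Cl s t I F := ⟨u, hu, GR.refl _ _⟩

omit [DecidableEq E] in
theorem uf_cl_step {s t : E → V} {I : Set V} {F : Set E} {x y : V} (hx : x ∈ Cl s t I F)
    (h : GAdj s t F x y) : y ∈ Cl s t I F := by
  obtain ⟨u, hu, hux⟩ := hx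
  exact ⟨u, hu, hux.trans h.gr⟩

omit [DecidableEq E] in
theorem uf_cl_gr {s t : E → V} {I : Set V} {F : Set E} {x y : V} (hx : x ∈ Cl s t I F)
    (h : GR s t F x y) : y ∈ Cl s t I F := by
  obtain ⟨u, hu, hux⟩ := hx
  exact ⟨u, hu, hux.trans h⟩

omit [DecidableEq E] in
theorem uf_cl_mono {s t : E → V} {I : Set V} {F G : Set E} (h : F ⊆ G) {x : V}
    (hx : x ∈ Cl s t I F) : x ∈ Cl s t I G := by
  obtain ⟨u, hu, hux⟩ := hx
  exact ⟨u, hu, hux.mono h⟩

omit [DecidableEq E] in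
theorem uf_pv {s t : E → V} {I J : Set V} {e : E} {G : Set E} :
    PvG s t I J e G ↔ (∀ v ∈ Cl s t I (G \ {e}), v ∉ J) ∧
      ((s e ∈ Cl s t I (G \ {e}) ∧ t e ∈ Cl s t J (G \ {e})) ∨
        (t e ∈ Cl s t I (G \ {e}) ∧ s e ∈ Cl s t J (G \ {e}))) := by
  have hins : insert e G = insert e (G \ {e}) := by rw [Set.insert_sdiff_singleton]
  constructor
  · rintro ⟨⟨u, hu, v, hv, huv⟩, h2⟩
    have hno : ∀ v ∈ Cl s t I (G \ {e}), v ∉ J := by
      rintro v ⟨u, hu, huv⟩ hv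
      exact h2 ⟨u, hu, v, hv, huv⟩
    refine ⟨hno, ?_⟩
    rw [hins] at huv
    rcases GR_insert.mp huv with h | ⟨h3, h4⟩ | ⟨h3, h4⟩
    · exact absurd hv (hno v ⟨u, hu, h⟩)
    · exact Or.inl ⟨⟨u, hu, h3⟩, ⟨v, hv, h4.symm⟩⟩
    · exact Or.inr ⟨⟨u, hu, h3⟩, ⟨v, hv, h4.symm⟩⟩
  · rintro ⟨hno, h⟩
    refine ⟨?_, ?_⟩
    · rw [CnG, hins]
      rcases h with ⟨⟨u, hu, h3⟩, ⟨v, hv, h4⟩⟩ | ⟨⟨u, hu, h3⟩, ⟨v, hv, h4⟩⟩
      · exact ⟨u, hu, v, hv, GR_insert.mpr (Or.inr (Or.inl ⟨h3, h4.symm⟩))⟩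
      · exact ⟨u, hu, v, hv, GR_insert.mpr (Or.inr (Or.inr ⟨h3, h4.symm⟩))⟩
    · rintro ⟨u, hu, v, hv, huv⟩
      exact hno v ⟨u, hu, huv⟩ hv

/-- the clusters are determined by the explored edges -/
theorem uf_cl_eq {s t : E → V} {S0 : Finset E} {O : Set E} {A : Set V} {e : E}
    {F F' K : Finset E}
    (hK : ∀ g ∈ S0, (s g ∈ Cl s t A ((↑(F ∩ S0) ∪ O) \ {e}) ∨
      t g ∈ Cl s t A ((↑(F ∩ S0) ∪ O) \ {e})) → g ∈ K)
    (hF : F ∩ K = F' ∩ K) :
    Cl s t A ((↑(F ∩ S0) ∪ O) \ {e}) = Cl s t A ((↑(F' ∩ S0) ∪ O) \ {e}) := by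
  have hend : ∀ (g : E) (x y : V), ((s g = x ∧ t g = y) ∨ (s g = y ∧ t g = x)) →
      x ∈ Cl s t A ((↑(F ∩ S0) ∪ O) \ {e}) → (s g ∈ Cl s t A ((↑(F ∩ S0) ∪ O) \ {e}) ∨
        t g ∈ Cl s t A ((↑(F ∩ S0) ∪ O) \ {e})) := by
    rintro g x y (⟨h1, h2⟩ | ⟨h1, h2⟩) hx
    · left; rw [h1]; exact hx
    · right; rw [h2]; exact hx
  apply Set.Subset.antisymm
  · rintro x ⟨u, hu, hux⟩
    have key : x ∈ Cl s t A ((↑(F ∩ S0) ∪ O) \ {e}) ∧ x ∈ Cl s t A ((↑(F' ∩ S0) ∪ O) \ {e}) := by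
      induction hux with
      | refl => exact ⟨uf_cl_self hu, uf_cl_self hu⟩
      | @tail y z _ hs ih =>
        refine ⟨uf_cl_step ih.1 hs, ?_⟩
        obtain ⟨g, ⟨hg, hge⟩, hcase⟩ := hs
        refine uf_cl_step ih.2 ⟨g, ⟨?_, hge⟩, hcase⟩
        rcases hg with hg | hg
        · left
          rw [Finset.coe_inter] at hg ⊢
          refine ⟨?_, hg.2⟩
          have h1 : g ∈ K := hK g hg.2 (hend g _ _ hcase ih.1)
          have h2 : g ∈ F ∩ K := Finset.mem_inter.2 ⟨hg.1, h1⟩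
          rw [hF] at h2
          exact (Finset.mem_inter.1 h2).1
        · exact Or.inr hg
    exact key.2
  · rintro x ⟨u, hu, hux⟩
    induction hux with
    | refl => exact uf_cl_self hu
    | @tail y z _ hs ih =>
      obtain ⟨g, ⟨hg, hge⟩, hcase⟩ := hs
      refine uf_cl_step ih ⟨g, ⟨?_, hge⟩, hcase⟩
      rcases hg with hg | hg
      · left
        rw [Finset.coe_inter] at hg ⊢
        refine ⟨?_, hg.2⟩
        have h1 : g ∈ K := hK g hg.2 (hend g _ _ hcase ih)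
        have h2 : g ∈ F' ∩ K := Finset.mem_inter.2 ⟨hg.1, h1⟩
        rw [← hF] at h2
        exact (Finset.mem_inter.1 h2).1
      · exact Or.inr hg

open Classical in
/-- the explored edges -/
noncomputable def ufK (s t : E → V) (S0 : Finset E) (O : Set E) (I J : Set V) (e : E)
    (F : Finset E) : Finset E :=
  S0.filter (fun g => (s g ∈ Cl s t I ((↑(F ∩ S0) ∪ O) \ {e}) ∨
    t g ∈ Cl s t I ((↑(F ∩ S0) ∪ O) \ {e})) ∨ (s g ∈ Cl s t J ((↑(F ∩ S0) ∪ O) \ {e}) ∨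
    t g ∈ Cl s t J ((↑(F ∩ S0) ∪ O) \ {e})))

theorem uf_mem_K {s t : E → V} {S0 : Finset E} {O : Set E} {I J : Set V} {e : E}
    {F : Finset E} {g : E} : g ∈ ufK s t S0 O I J e F ↔ g ∈ S0 ∧
      ((s g ∈ Cl s t I ((↑(F ∩ S0) ∪ O) \ {e}) ∨
        t g ∈ Cl s t I ((↑(F ∩ S0) ∪ O) \ {e})) ∨ (s g ∈ Cl s t J ((↑(F ∩ S0) ∪ O) \ {e}) ∨
        t g ∈ Cl s t J ((↑(F ∩ S0) ∪ O) \ {e}))) := by
  classical
  unfold ufK
  rw [Finset.mem_filter]

theorem uf_cl_eqI {s t : E → V} {S0 : Finset E} {O : Set E} {I J : Set V} {e : E}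
    {F F' : Finset E} (hF : F ∩ ufK s t S0 O I J e F = F' ∩ ufK s t S0 O I J e F) :
    Cl s t I ((↑(F ∩ S0) ∪ O) \ {e}) = Cl s t I ((↑(F' ∩ S0) ∪ O) \ {e}) ∧
      Cl s t J ((↑(F ∩ S0) ∪ O) \ {e}) = Cl s t J ((↑(F' ∩ S0) ∪ O) \ {e}) :=
  ⟨uf_cl_eq (fun _ hg h => uf_mem_K.2 ⟨hg, Or.inl h⟩) hF,
    uf_cl_eq (fun _ hg h => uf_mem_K.2 ⟨hg, Or.inr h⟩) hF⟩

theorem uf_stop (s t : E → V) (S S0 : Finset E) (O : Set E) (I J : Set V) (e : E) :
    Stop S (ufK s t S0 O I J e) := by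
  intro F F' _ _ h
  obtain ⟨h1, h2⟩ := uf_cl_eqI h
  ext g
  rw [uf_mem_K, uf_mem_K, h1, h2]

/-- the deterministic part -/
theorem uf_det (s t : E → V) {S0 D : Finset E} {O : Set E} {I J : Set V}
    (hO2 : ∀ g ∈ O, s g ∈ Cl s t I O ∨ s g ∈ Cl s t J O) {e : E} (heO : e ∉ O)
    (hSD : Disjoint S0 D) (Near : V → V → Prop) {F : Finset E} (hF : F ⊆ S0 ∪ D)
    (h1 : PvG s t I J e (↑(F ∩ S0) ∪ O)) (h2 : NFar s t I J e ↑D Near (↑(F ∩ S0) ∪ O))
    (h3 : TrapG s t ↑D Near ↑(F \ ufK s t S0 O I J e F)) :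
    PvG s t I J e (↑F ∪ O) := by
  obtain ⟨hno, _⟩ := uf_pv.1 h1
  set G0 : Set E := (↑(F ∩ S0) ∪ O) \ {e} with hG0
  set K := ufK s t S0 O I J e F with hKdef
  refine ⟨?_, ?_⟩
  · obtain ⟨u, hu, v, hv, huv⟩ := h1.1
    refine ⟨u, hu, v, hv, huv.mono ?_⟩
    refine Set.insert_subset_insert ?_
    refine Set.union_subset_union_left _ ?_
    rw [Finset.coe_inter]
    exact Set.inter_subset_left
  · rintro ⟨u, hu, v, hv, huv⟩
    -- disjointness of the clusters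
    have hdis : ∀ x, x ∈ Cl s t I G0 → x ∈ Cl s t J G0 → False := by
      rintro x hx ⟨w, hw, hwx⟩
      exact hno w (uf_cl_gr hx hwx.symm) hw
    -- open edges
    have hOend : ∀ g ∈ O, ∀ x y, ((s g = x ∧ t g = y) ∨ (s g = y ∧ t g = x)) →
        x ∈ Cl s t I G0 ∨ x ∈ Cl s t J G0 := by
      intro g hg x y hcase
      have hOG : O ⊆ G0 := fun a ha => ⟨Or.inr ha, fun hae => heO (hae ▸ ha)⟩
      have hadj : GAdj s t G0 (s g) (t g) := ⟨g, hOG hg, Or.inl ⟨rfl, rfl⟩⟩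
      rcases hO2 g hg with h | h
      · have h4 : s g ∈ Cl s t I G0 := uf_cl_mono hOG h
        rcases hcase with ⟨h5, _⟩ | ⟨_, h5⟩
        · left; rw [← h5]; exact h4
        · left; rw [← h5]; exact uf_cl_step h4 hadj
      · have h4 : s g ∈ Cl s t J G0 := uf_cl_mono hOG h
        rcases hcase with ⟨h5, _⟩ | ⟨_, h5⟩
        · right; rw [← h5]; exact h4
        · right; rw [← h5]; exact uf_cl_step h4 hadj
    have hVD : ∀ g ∈ D, ∀ x y, ((s g = x ∧ t g = y) ∨ (s g = y ∧ t g = x)) →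
        x ∈ VD s t (↑D : Set E) ∧ y ∈ VD s t (↑D : Set E) := by
      rintro g hg x y (⟨h5, h6⟩ | ⟨h5, h6⟩)
      · exact ⟨⟨g, hg, Or.inl h5⟩, ⟨g, hg, Or.inr h6⟩⟩
      · exact ⟨⟨g, hg, Or.inr h6⟩, ⟨g, hg, Or.inl h5⟩⟩
    have hKS : ∀ g ∈ D, g ∉ K := by
      intro g hg hgK
      exact Finset.disjoint_left.1 hSD (uf_mem_K.1 hgK).1 hg
    -- the invariant
    have key : v ∈ Cl s t I G0 ∨ (v ∉ Cl s t I G0 ∧ v ∉ Cl s t J G0 ∧
        ∃ v₁ ∈ Cl s t I G0, v₁ ∈ VD s t (↑D : Set E) ∧ GR s t (↑(F \ K) : Set E) v₁ v) := by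
      clear hv
      induction huv with
      | refl => exact Or.inl (uf_cl_self hu)
      | @tail x y _ hs ih =>
        obtain ⟨g, ⟨hg, hge⟩, hcase⟩ := hs
        by_cases hyI : y ∈ Cl s t I G0
        · exact Or.inl hyI
        -- is the edge in `G0`?
        by_cases hgG : g ∈ G0
        · have hadj : GAdj s t G0 x y := ⟨g, hgG, hcase⟩
          rcases ih with ih | ⟨ih1, ih2, v₁, hv₁, hv₁D, hpath⟩
          · exact Or.inl (uf_cl_step ih hadj)
          · -- `x` outside both clusters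
            have hyJ : y ∉ Cl s t J G0 := fun h => ih2 (uf_cl_step h hadj.symm)
            right
            refine ⟨hyI, hyJ, v₁, hv₁, hv₁D, hpath.trans (GAdj.gr ⟨g, ?_, hcase⟩)⟩
            rcases hgG.1 with hgS | hgO
            · rw [Finset.coe_inter] at hgS
              rw [Finset.coe_sdiff]
              refine ⟨hgS.1, ?_⟩
              intro hgK
              rcases (uf_mem_K.1 hgK).2 with (h4 | h4) | (h4 | h4) <;>
                rcases hcase with ⟨h5, h6⟩ | ⟨h5, h6⟩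
              · rw [h5] at h4; exact ih1 h4
              · rw [h5] at h4; exact hyI h4
              · rw [h6] at h4; exact hyI h4
              · rw [h6] at h4; exact ih1 h4
              · rw [h5] at h4; exact ih2 h4
              · rw [h5] at h4; exact hyJ h4
              · rw [h6] at h4; exact hyJ h4
              · rw [h6] at h4; exact ih2 h4
            · exfalso
              rcases hOend g hgO x y hcase with h4 | h4
              · exact ih1 h4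
              · exact ih2 h4
        · -- the edge is in `D`
          have hgF : g ∈ F := by
            rcases hg with hg | hg
            · exact hg
            · exact absurd ⟨Or.inr hg, hge⟩ hgG
          have hgD : g ∈ D := by
            rcases Finset.mem_union.1 (hF hgF) with h4 | h4
            · exfalso
              apply hgG
              refine ⟨Or.inl ?_, hge⟩
              rw [Finset.coe_inter]
              exact ⟨hgF, h4⟩
            · exact h4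
          have hgFK : g ∈ (↑(F \ K) : Set E) := by
            rw [Finset.coe_sdiff]
            exact ⟨hgF, hKS g hgD⟩
          have hadj : GAdj s t (↑(F \ K) : Set E) x y := ⟨g, hgFK, hcase⟩
          obtain ⟨hxD, hyD⟩ := hVD g hgD x y hcase
          have hmain : ∃ v₁ ∈ Cl s t I G0, v₁ ∈ VD s t (↑D : Set E) ∧
              GR s t (↑(F \ K) : Set E) v₁ y := by
            rcases ih with ih | ⟨ih1, ih2, v₁, hv₁, hv₁D, hpath⟩
            · exact ⟨x, ih, hxD, hadj.gr⟩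
            · exact ⟨v₁, hv₁, hv₁D, hpath.trans hadj.gr⟩
          have hyJ : y ∉ Cl s t J G0 := by
            intro hyJ
            obtain ⟨v₁, hv₁, hv₁D, hpath⟩ := hmain
            exact h2 v₁ hv₁ y hyJ hv₁D hyD (h3 v₁ hv₁D y hyD hpath)
          exact Or.inr ⟨hyI, hyJ, hmain⟩
    rcases key with key | ⟨_, key, _⟩
    · exact hno v key hv
    · exact key (uf_cl_self hv)

/-- UNFORCE: `S0` is random, `O` is open, `D` is closed at first and random afterwards. `H` is any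
decreasing event depending on `D` only. -/
theorem unforce {p : E → ℝ} (hp : Ok p) (s t : E → V) {S0 D : Finset E} (hSD : Disjoint S0 D)
    {O : Set E} (hO1 : Disjoint O ↑(S0 ∪ D)) {I J : Set V}
    (hO2 : ∀ g ∈ O, s g ∈ Cl s t I O ∨ s g ∈ Cl s t J O) {e : E} (he : e ∈ S0)
    (Near : V → V → Prop) {H : Finset E → Prop} (hH1 : ∀ F G : Finset E, F ⊆ G → H G → H F)
    (hH2 : ∀ F : Finset E, H F ↔ H (F ∩ D)) :
    Pr p (S0 ∪ D) (fun F => PvG s t I J e (↑(F ∩ S0) ∪ O) ∧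
        NFar s t I J e ↑D Near (↑(F ∩ S0) ∪ O)) *
      Pr p (S0 ∪ D) (fun F => TrapG s t ↑D Near ↑F ∧ H F) ≤
    Pr p (S0 ∪ D) (fun F => PvG s t I J e (↑F ∪ O) ∧ H F) := by
  have heO : e ∉ O := by
    intro h
    refine Set.disjoint_left.1 hO1 h ?_
    rw [Finset.coe_union]
    exact Or.inl he
  have hmk := markov_ge hp (uf_stop s t (S0 ∪ D) S0 O I J e)
    (A := fun F => PvG s t I J e (↑(F ∩ S0) ∪ O) ∧ NFar s t I J e ↑D Near (↑(F ∩ S0) ∪ O))
    (B := fun F => TrapG s t ↑D Near ↑F ∧ H F) (by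
      intro F F' _ _ h hA
      obtain ⟨h1, h2⟩ := uf_cl_eqI h
      obtain ⟨hA1, hA2⟩ := hA
      refine ⟨?_, ?_⟩
      · rw [uf_pv] at hA1 ⊢
        rw [← h1, ← h2]
        exact hA1
      · unfold NFar at hA2 ⊢
        rw [← h1, ← h2]
        exact hA2) (by
      intro F G hFG hB
      refine ⟨?_, hH1 F G hFG hB.2⟩
      intro v hv w hw hvw
      exact hB.1 v hv w hw (hvw.mono (Finset.coe_subset.2 hFG)))
  refine hmk.trans (Pr_mono hp ?_)
  rintro F hF ⟨⟨h1, h2⟩, h3, h4⟩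
  refine ⟨uf_det s t hO2 heO hSD Near hF h1 h2 h3, ?_⟩
  rw [hH2] at h4 ⊢
  have h5 : (F \ ufK s t S0 O I J e F) ∩ D = F ∩ D := by
    ext g
    simp only [Finset.mem_inter, Finset.mem_sdiff]
    constructor
    · rintro ⟨⟨h6, _⟩, h7⟩
      exact ⟨h6, h7⟩
    · rintro ⟨h6, h7⟩
      exact ⟨⟨h6, fun h8 => Finset.disjoint_left.1 hSD (uf_mem_K.1 h8).1 h7⟩, h7⟩
  rwa [h5] at h4

end Unforce

end H12S
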